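import Mathlib

set_option autoImplicit false

namespace Pool.Agent.H5.AbelAuto

/-! ### finite 8-kernels -/

def ker {α : Type} (p : ℕ → α) : Set (ℕ → α) :=
  {f | ∃ e r : ℕ, r < 8 ^ e ∧ f = fun n => p (8 ^ e * n + r)}

lemma ker_finite_of_closed {α : Type} (p : ℕ → α) (S : Set (ℕ → α)) (hS : S.Finite) (hp : p ∈ S)
    (h : ∀ f ∈ S, ∀ r < 8, (fun n => f (8 * n + r)) ∈ S) : (ker p).Finite := by
  refine hS.subset ?_
  rintro f ⟨e, r, hr, rfl⟩
  induction e generalizing r with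
  | zero =>
    have : r = 0 := by simpa using hr
    subst this; simpa using hp
  | succ e ih =>
    have hpos : 0 < 8 ^ e := by positivity
    have h1 := ih (r % 8 ^ e) (Nat.mod_lt _ hpos)
    have h2 := h _ h1 (r / 8 ^ e) (by
      rw [Nat.div_lt_iff_lt_mul hpos]; rw [pow_succ] at hr; linarith)
    have e1 : (fun n => p (8 ^ (e + 1) * n + r)) =
        fun n => p (8 ^ e * (8 * n + r / 8 ^ e) + r % 8 ^ e) := by
      funext n
      congr 1
      have := Nat.div_add_mod r (8 ^ e)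
      rw [pow_succ, mul_add]
      have h3 : 8 ^ e * 8 * n = 8 ^ e * (8 * n) := by ring
      omega
    rw [e1]; exact h2

lemma ker_map2 {α β γ : Type} (p : ℕ → α) (q : ℕ → β) (φ : α → β → γ) (hp : (ker p).Finite)
    (hq : (ker q).Finite) : (ker fun n => φ (p n) (q n)).Finite := by
  refine (hp.image2 (fun f g n => φ (f n) (g n)) hq).subset ?_
  rintro f ⟨e, r, hr, rfl⟩
  exact ⟨_, ⟨e, r, hr, rfl⟩, _, ⟨e, r, hr, rfl⟩, rfl⟩

lemma ker_odd : (ker fun n => n % 2 = 1).Finite := by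
  refine ker_finite_of_closed _ {fun n => n % 2 = 1, fun _ => True, fun _ => False}
    (Set.toFinite _) (by simp) ?_
  intro f hf r _
  simp only [Set.mem_insert_iff, Set.mem_singleton_iff] at hf ⊢
  rcases hf with rfl | rfl | rfl
  · by_cases h : r % 2 = 1
    · right; left; funext n; apply propext; simp; omega
    · right; right; funext n; apply propext; simp; omega
  · right; left; rfl
  · right; right; rfl

def al (b : Bool) (m : ℕ) : Prop := b = true ∨ m % 3 ≠ 0

def S (b : Bool) (α σ γ : ℤ) (n : ℕ) : Prop :=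
  ∃ a m : ℕ, 1 ≤ m ∧ m ≤ 3 * a ∧ al b m ∧ (n : ℤ) = α * 8 ^ a + σ * 2 ^ m + γ

def q (b : Bool) (α σ : ℤ) (s : Fin 3 × ℤ) (n : ℕ) : Prop :=
  if s.1 = 0 then S b α σ s.2 n else if s.1 = 1 then ∃ a : ℕ, (n : ℤ) = α * 8 ^ a + s.2
  else (n : ℤ) = s.2

lemma q_step (b : Bool) (α σ : ℤ) (hα : 0 ≤ α ∧ α ≤ 40) (hσ : σ = 1 ∨ σ = -1) (s : Fin 3 × ℤ)
    (hs : -10 ≤ s.2 ∧ s.2 ≤ 10) (r : ℕ) (hr : r < 8) (n : ℕ) (h : q b α σ s (8 * n + r)) :
    ∃ s' : Fin 3 × ℤ, (-10 ≤ s'.2 ∧ s'.2 ≤ 10) ∧ q b α σ s' n ∧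
      ∀ n', q b α σ s' n' → q b α σ s (8 * n' + r) := by
  obtain ⟨t, γ⟩ := s
  simp only at hs
  fin_cases t
  · simp only [q, Fin.zero_eta, if_true] at h ⊢
    obtain ⟨a, m, h1, h2, h3, h4⟩ := h
    obtain ⟨a', rfl⟩ : ∃ a', a = a' + 1 := ⟨a - 1, by omega⟩
    push_cast at h4
    by_cases hm : 4 ≤ m
    · obtain ⟨m', rfl⟩ : ∃ m', m = m' + 3 := ⟨m - 3, by omega⟩
      have e : 8 * ((n : ℤ) - (α * 8 ^ a' + σ * 2 ^ m')) + r = γ := by
        rw [pow_succ, pow_add] at h4; linear_combination h4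
      refine ⟨(0, (n : ℤ) - (α * 8 ^ a' + σ * 2 ^ m')), by constructor <;> simp only <;> omega, ?_, ?_⟩
      · simp only [if_true]
        refine ⟨a', m', by omega, by omega, ?_, by ring⟩
        unfold al at h3 ⊢; rcases h3 with h3 | h3
        · left; exact h3
        · right; omega
      · intro n' hn'
        simp only [if_true] at hn'
        obtain ⟨a2, m2, g1, g2, g3, g4⟩ := hn'
        refine ⟨a2 + 1, m2 + 3, by omega, by omega, ?_, ?_⟩
        · unfold al at g3 ⊢; rcases g3 with g3 | g3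
          · left; exact g3
          · right; omega
        · push_cast; rw [pow_succ, pow_add]; linear_combination 8 * g4 + e
    · have e : 8 * ((n : ℤ) - α * 8 ^ a') + r = σ * 2 ^ m + γ := by
        rw [pow_succ] at h4; linear_combination h4
      have hb : -8 ≤ σ * 2 ^ m ∧ σ * 2 ^ m ≤ 8 := by
        have : m = 1 ∨ m = 2 ∨ m = 3 := by omega
        rcases this with rfl | rfl | rfl <;> rcases hσ with rfl | rfl <;> norm_num
      refine ⟨(1, (n : ℤ) - α * 8 ^ a'), by constructor <;> simp only <;> omega, ?_, ?_⟩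
      · simp only [Fin.one_eq_zero_iff, OfNat.ofNat_ne_one, if_false, if_true]
        exact ⟨a', by ring⟩
      · intro n' hn'
        simp only [Fin.one_eq_zero_iff, OfNat.ofNat_ne_one, if_false, if_true] at hn'
        obtain ⟨a2, g4⟩ := hn'
        refine ⟨a2 + 1, m, h1, by omega, h3, ?_⟩
        push_cast; rw [pow_succ]; linear_combination 8 * g4 + e
  · simp only [q, Fin.mk_one, Fin.one_eq_zero_iff, OfNat.ofNat_ne_one, if_false, if_true,
      Nat.reduceAdd] at h ⊢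
    obtain ⟨a, h4⟩ := h
    push_cast at h4
    rcases a with _ | a'
    · refine ⟨(2, (n : ℤ)), by constructor <;> simp only <;> omega, by simp, ?_⟩
      intro n' hn'
      have : (n' : ℤ) = n := by simpa using hn'
      exact ⟨0, by push_cast; rw [this]; exact h4⟩
    · have e : 8 * ((n : ℤ) - α * 8 ^ a') + r = γ := by
        rw [pow_succ] at h4; linear_combination h4
      refine ⟨(1, (n : ℤ) - α * 8 ^ a'), by constructor <;> simp only <;> omega, ?_, ?_⟩
      · simp only [Fin.one_eq_zero_iff, OfNat.ofNat_ne_one, if_false, if_true]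
        exact ⟨a', by ring⟩
      · intro n' hn'
        simp only [Fin.one_eq_zero_iff, OfNat.ofNat_ne_one, if_false, if_true] at hn'
        obtain ⟨a2, g4⟩ := hn'
        refine ⟨a2 + 1, ?_⟩
        push_cast; rw [pow_succ]; linear_combination 8 * g4 + e
  · have h4 : ((8 * n + r : ℕ) : ℤ) = γ := by simpa [q] using h
    refine ⟨(2, (n : ℤ)), by constructor <;> simp only <;> omega, by simp [q], ?_⟩
    intro n' hn'
    have : (n' : ℤ) = n := by simpa [q] using hn'
    have h5 : ((8 * n' + r : ℕ) : ℤ) = γ := by omega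
    simpa [q] using h5

lemma ker_S (b : Bool) (α σ γ : ℤ) (hα : 0 ≤ α ∧ α ≤ 40) (hσ : σ = 1 ∨ σ = -1)
    (hγ : -10 ≤ γ ∧ γ ≤ 10) : (ker (S b α σ γ)).Finite := by
  have hB : ((Set.univ : Set (Fin 3)) ×ˢ Set.Icc (-10 : ℤ) 10).Finite :=
    Set.finite_univ.prod (Set.finite_Icc _ _)
  refine ker_finite_of_closed _ ((fun (A : Set (Fin 3 × ℤ)) (n : ℕ) => ∃ s ∈ A, q b α σ s n) ''
    {A | A ⊆ (Set.univ : Set (Fin 3)) ×ˢ Set.Icc (-10 : ℤ) 10}) (hB.finite_subsets.image _) ?_ ?_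
  · refine ⟨{(0, γ)}, by simpa using hγ, ?_⟩
    funext n; simp [q]
  · rintro f ⟨A, hA, rfl⟩ r hr
    refine ⟨{s' | (-10 ≤ s'.2 ∧ s'.2 ≤ 10) ∧
      ∀ n', q b α σ s' n' → ∃ s ∈ A, q b α σ s (8 * n' + r)}, ?_, ?_⟩
    · intro s hs; exact ⟨trivial, hs.1⟩
    · funext n
      apply propext
      constructor
      · rintro ⟨s', hs', h⟩; exact hs'.2 n h
      · rintro ⟨s, hs, h⟩
        obtain ⟨s', h1, h2, h3⟩ := q_step b α σ hα hσ s (hA hs).2 r hr n h
        exact ⟨s', ⟨h1, fun n' hn' => ⟨s, hs, h3 n' hn'⟩⟩, h2⟩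

def U (y : ℕ) : Prop := S true 40 (-1) 0 y ∨ S false 28 (-1) 0 y ∨ S false 20 1 0 y
def W (y : ℕ) : Prop := S true 40 1 (-1) y ∨ S false 28 1 (-1) y ∨ S false 20 (-1) 1 y

open Classical in
/-- the binary word -/
noncomputable def x (y : ℕ) : Fin 2 := if U y ∨ (y % 2 = 1 ∧ ¬ W y) then 1 else 0

open Classical in
lemma ker_x : (ker x).Finite := by
  have hU : (ker U).Finite :=
    ker_map2 _ _ Or (ker_S _ _ _ _ (by norm_num) (by norm_num) (by norm_num))
      (ker_map2 _ _ Or (ker_S _ _ _ _ (by norm_num) (by norm_num) (by norm_num))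
        (ker_S _ _ _ _ (by norm_num) (by norm_num) (by norm_num)))
  have hW : (ker W).Finite :=
    ker_map2 _ _ Or (ker_S _ _ _ _ (by norm_num) (by norm_num) (by norm_num))
      (ker_map2 _ _ Or (ker_S _ _ _ _ (by norm_num) (by norm_num) (by norm_num))
        (ker_S _ _ _ _ (by norm_num) (by norm_num) (by norm_num)))
  have := ker_map2 U (fun y => y % 2 = 1 ∧ ¬ W y) (fun A B => if A ∨ B then (1 : Fin 2) else 0) hU
    (ker_map2 (fun y => y % 2 = 1) W (fun A B => A ∧ ¬ B) ker_odd hW)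
  convert this using 3 with n
  unfold x
  congr

end Pool.Agent.H5.AbelAuto
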