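import Pool.Agent.H5.AbelAuto

set_option autoImplicit false

namespace Pool.Agent.H5.AbelAuto

def cnt (b : Bool) (m : ℕ) : ℕ := if b then m else m - m / 3

def prof (b : Bool) (a z : ℕ) : ℕ := cnt b (3 * a) - cnt b (Nat.log 2 z)

def In (b : Bool) (a w : ℕ) : Prop := ∃ m, 1 ≤ m ∧ m ≤ 3 * a ∧ al b m ∧ w = 2 ^ m

lemma eight_pow (a : ℕ) : 8 ^ a = 2 ^ (3 * a) := by rw [pow_mul]; norm_num

lemma In.bd {b : Bool} {a w : ℕ} (h : In b a w) : 2 ≤ w ∧ w ≤ 8 ^ a ∧ w % 2 = 0 ∧ 1 ≤ a := by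
  obtain ⟨m, h1, h2, -, rfl⟩ := h
  obtain ⟨m', rfl⟩ : ∃ m', m = m' + 1 := ⟨m - 1, by omega⟩
  have : 0 < 2 ^ m' := by positivity
  refine ⟨by rw [pow_succ]; omega, ?_, by rw [pow_succ]; omega, by omega⟩
  rw [eight_pow]; exact Nat.pow_le_pow_right (by norm_num) h2

lemma prof_zero (b : Bool) (a z : ℕ) (h : 8 ^ a ≤ z) : prof b a z = 0 := by
  have : 3 * a ≤ Nat.log 2 z := by
    apply Nat.le_log_of_pow_le (by norm_num); rwa [← eight_pow]
  unfold prof cnt
  cases b <;> simp <;> omega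

open Classical in
lemma prof_step (b : Bool) (a z : ℕ) :
    (prof b a z : ℤ) - prof b a (z + 1) = if In b a (z + 1) then 1 else 0 := by
  by_cases hp : ∃ m, 1 ≤ m ∧ z + 1 = 2 ^ m
  · obtain ⟨m, h1, h2⟩ := hp
    have e1 : Nat.log 2 (z + 1) = m := by rw [h2, Nat.log_pow (by norm_num)]
    obtain ⟨m', rfl⟩ : ∃ m', m = m' + 1 := ⟨m - 1, by omega⟩
    have hpos : 0 < 2 ^ m' := by positivity
    have e2 : Nat.log 2 z = m' := by
      apply Nat.log_eq_of_pow_le_of_lt_pow <;> rw [pow_succ] at * <;> omega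
    have e3 : In b a (z + 1) ↔ (m' + 1 ≤ 3 * a ∧ al b (m' + 1)) := by
      constructor
      · rintro ⟨m2, g1, g2, g3, g4⟩
        have : m2 = m' + 1 := Nat.pow_right_injective (le_refl 2) (g4.symm.trans h2)
        subst this; exact ⟨g2, g3⟩
      · rintro ⟨g1, g2⟩; exact ⟨m' + 1, h1, g1, g2, h2⟩
    rw [e3]
    unfold prof cnt al
    rw [e1, e2]
    cases b <;> simp <;> split_ifs <;> omega
  · have e3 : ¬ In b a (z + 1) := fun ⟨m, g1, _, _, g4⟩ => hp ⟨m, g1, g4⟩
    have e1 : Nat.log 2 (z + 1) = Nat.log 2 z := by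
      rcases Nat.eq_zero_or_pos z with rfl | hz
      · simp
      · have l1 := Nat.pow_log_le_self 2 hz.ne'
        have l2 := Nat.lt_pow_succ_log_self (b := 2) (by norm_num) z
        apply Nat.log_eq_of_pow_le_of_lt_pow (by omega)
        rcases Nat.lt_or_ge (z + 1) (2 ^ (Nat.log 2 z + 1)) with h | h
        · exact h
        · exact absurd ⟨Nat.log 2 z + 1, by omega, by
            rw [Nat.succ_eq_add_one] at l2; omega⟩ hp
    rw [if_neg e3]; unfold prof; rw [e1]; simp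

def phi (b : Bool) (a c y : ℕ) : ℤ := prof b a ((y - c) + (c - y))

open Classical in
lemma phi_step (b : Bool) (a c y : ℕ) : phi b a c (y + 1) - phi b a c y =
    (if In b a (c - y) then 1 else 0) - (if In b a (y + 1 - c) then 1 else 0) := by
  unfold phi
  rcases Nat.lt_or_ge y c with h | h
  · have h1 := prof_step b a (c - y - 1)
    have e1 : c - y - 1 + 1 = c - y := by omega
    have e2 : y + 1 - c + (c - (y + 1)) = c - y - 1 := by omega
    have e3 : y - c + (c - y) = c - y := by omega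
    have e4 : ¬ In b a (y + 1 - c) := fun g => by have := g.bd; omega
    rw [e1] at h1
    rw [e2, e3, h1, if_neg e4]; simp
  · have h1 := prof_step b a (y - c)
    have e1 : y - c + 1 = y + 1 - c := by omega
    have e2 : y + 1 - c + (c - (y + 1)) = y + 1 - c := by omega
    have e3 : y - c + (c - y) = y - c := by omega
    have e4 : ¬ In b a (c - y) := fun g => by have := g.bd; omega
    rw [e1] at h1
    rw [e2, e3, ← h1, if_neg e4]; simp

lemma phi_zero (b : Bool) (a c y : ℕ) (h : y + 8 ^ a ≤ c ∨ c + 8 ^ a ≤ y) : phi b a c y = 0 := by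
  unfold phi; rw [prof_zero _ _ _ (by omega)]; simp

lemma phi_nonneg (b : Bool) (a c y : ℕ) : 0 ≤ phi b a c y := by unfold phi; positivity

lemma prof_lip (b : Bool) (a z z' N j : ℕ) (hj : 1 ≤ j) (hN : N + 1 < 2 * 8 ^ j) (h : z' ≤ z + N) :
    prof b a z ≤ prof b a z' + 3 * j := by
  have key : Nat.log 2 z' ≤ Nat.log 2 z + 3 * j := by
    apply Nat.le_of_lt_succ
    rcases Nat.eq_zero_or_pos z' with rfl | hz'
    · simp
    apply Nat.log_lt_of_lt_pow hz'.ne'
    have l2 := Nat.lt_pow_succ_log_self (b := 2) (by norm_num) z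
    have e : 2 ^ (Nat.log 2 z + 3 * j).succ = 2 * (2 ^ Nat.log 2 z * 8 ^ j) := by
      rw [eight_pow, Nat.succ_eq_add_one, pow_succ, pow_add]; ring
    rw [e]
    rw [Nat.succ_eq_add_one, pow_succ] at l2
    have h8 : 8 ≤ 8 ^ j := by
      calc 8 = 8 ^ 1 := by norm_num
        _ ≤ 8 ^ j := Nat.pow_le_pow_right (by norm_num) hj
    have hp : 1 ≤ 2 ^ Nat.log 2 z := Nat.one_le_two_pow
    generalize 2 ^ Nat.log 2 z = A at *
    generalize 8 ^ j = B at *
    rcases Nat.eq_or_lt_of_le hp with rfl | hA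
    · omega
    · nlinarith
  unfold prof cnt
  cases b <;> simp <;> omega

lemma phi_lip (b : Bool) (a c y N j : ℕ) (hj : 1 ≤ j) (hN : N + 1 < 2 * 8 ^ j) :
    -(3 * j : ℤ) ≤ phi b a c (y + N) - phi b a c y ∧ phi b a c (y + N) - phi b a c y ≤ 3 * j := by
  unfold phi
  have h1 := prof_lip b a (y - c + (c - y)) (y + N - c + (c - (y + N))) N j hj hN (by omega)
  have h2 := prof_lip b a (y + N - c + (c - (y + N))) (y - c + (c - y)) N j hj hN (by omega)
  omega

def F (a y : ℕ) : ℤ :=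
  phi true a (40 * 8 ^ a) y + phi false a (28 * 8 ^ a) y - phi false a (20 * 8 ^ a + 1) y

def H (y : ℕ) : ℤ := F (Nat.log 8 (y / 16)) y

lemma F_zero (y : ℕ) : F 0 y = 0 := by simp [F, phi, prof, cnt]

lemma H_eq (a y : ℕ) (h1 : a = 0 ∨ 16 * 8 ^ a ≤ y) (h2 : y ≤ 128 * 8 ^ a) : H y = F a y := by
  have hp : 0 < 8 ^ a := by positivity
  unfold H
  rcases Nat.eq_or_lt_of_le h2 with h | h
  · have e : Nat.log 8 (y / 16) = a + 1 := by
      have : y / 16 = 8 ^ (a + 1) := by rw [pow_succ]; omega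
      rw [this, Nat.log_pow (by norm_num)]
    rw [e]
    unfold F
    rw [phi_zero, phi_zero, phi_zero, phi_zero, phi_zero, phi_zero] <;> (try rw [pow_succ]) <;> omega
  · by_cases h3 : 16 * 8 ^ a ≤ y
    · have e : Nat.log 8 (y / 16) = a := by
        apply Nat.log_eq_of_pow_le_of_lt_pow
        · omega
        · rw [pow_succ]; omega
      rw [e]
    · have ha : a = 0 := by tauto
      subst ha
      have : y / 16 = 0 := by simp at h3; omega
      rw [this]; simp

lemma scale (y : ℕ) : ∃ a, (a = 0 ∨ 16 * 8 ^ a ≤ y) ∧ y < 128 * 8 ^ a := by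
  rcases Nat.lt_or_ge y 16 with h | h
  · exact ⟨0, Or.inl rfl, by omega⟩
  · refine ⟨Nat.log 8 (y / 16), Or.inr ?_, ?_⟩
    · have := Nat.pow_log_le_self 8 (x := y / 16) (by omega); omega
    · have := Nat.lt_pow_succ_log_self (b := 8) (by norm_num) (y / 16)
      rw [Nat.succ_eq_add_one, pow_succ] at this; omega

lemma pow_tri (a a' : ℕ) : a = a' ∨ 8 * 8 ^ a ≤ 8 ^ a' ∨ 8 * 8 ^ a' ≤ 8 ^ a := by
  rcases lt_trichotomy a a' with h | h | h
  · right; left; rw [← pow_succ']; exact Nat.pow_le_pow_right (by norm_num) h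
  · left; exact h
  · right; right; rw [← pow_succ']; exact Nat.pow_le_pow_right (by norm_num) h

lemma S_iff (b : Bool) (α σ γ : ℤ) (y a : ℕ) (w : ℕ) (hα : 20 ≤ α ∧ α ≤ 40)
    (hσ : σ = 1 ∨ σ = -1) (hγ : -1 ≤ γ ∧ γ ≤ 1)
    (h1 : a = 0 ∨ 16 * 8 ^ a ≤ y) (h2 : y < 128 * 8 ^ a)
    (hw : (w : ℤ) = max 0 (σ * (y - (α * 8 ^ a + γ)))) : S b α σ γ y ↔ In b a w := by
  constructor
  · rintro ⟨a', m, g1, g2, g3, g4⟩
    have hi : In b a' (2 ^ m) := ⟨m, g1, g2, g3, rfl⟩
    obtain ⟨b1, b2, -, b4⟩ := hi.bd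
    have c1 : (2 : ℤ) ≤ 2 ^ m := by exact_mod_cast b1
    have c2 : (2 : ℤ) ^ m ≤ 8 ^ a' := by exact_mod_cast b2
    have c3 : 20 * (8 : ℤ) ^ a' ≤ α * 8 ^ a' := by nlinarith
    have c4 : α * (8 : ℤ) ^ a' ≤ 40 * 8 ^ a' := by nlinarith
    have c5 : (y : ℤ) < 128 * 8 ^ a := by exact_mod_cast h2
    have h8 : (8 : ℤ) ≤ 8 ^ a' := by
      calc (8 : ℤ) = 8 ^ 1 := by norm_num
        _ ≤ 8 ^ a' := pow_le_pow_right₀ (by norm_num) b4
    have haa : a' = a := by
      rcases pow_tri a a' with h | h | h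
      · exact h.symm
      · have : 8 * (8 : ℤ) ^ a ≤ 8 ^ a' := by exact_mod_cast h
        rcases hσ with rfl | rfl <;> omega
      · have d1 : 8 * (8 : ℤ) ^ a' ≤ 8 ^ a := by exact_mod_cast h
        rcases h1 with rfl | h1
        · simp at d1; omega
        · have : 16 * (8 : ℤ) ^ a ≤ y := by exact_mod_cast h1
          rcases hσ with rfl | rfl <;> omega
    subst haa
    have : (w : ℤ) = 2 ^ m := by rcases hσ with rfl | rfl <;> omega
    have : w = 2 ^ m := by exact_mod_cast this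
    rw [this]; exact hi
  · rintro ⟨m, g1, g2, g3, g4⟩
    refine ⟨a, m, g1, g2, g3, ?_⟩
    have c0 : (w : ℤ) = 2 ^ m := by exact_mod_cast g4
    have c1 : (0 : ℤ) < 2 ^ m := by positivity
    rcases hσ with rfl | rfl <;> omega

lemma H_step (y : ℕ) : H (y + 1) - H y + ((y + 1) / 2 : ℕ) - (y / 2 : ℕ) =
    if x y = 1 then 1 else 0 := by
  classical
  obtain ⟨a, h1, h2⟩ := scale y
  have hc : ((8 ^ a : ℕ) : ℤ) = 8 ^ a := by push_cast; rfl
  have u1 := S_iff true 40 (-1) 0 y a (40 * 8 ^ a - y) (by norm_num) (by norm_num) (by norm_num)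
    h1 h2 (by omega)
  have u2 := S_iff false 28 (-1) 0 y a (28 * 8 ^ a - y) (by norm_num) (by norm_num) (by norm_num)
    h1 h2 (by omega)
  have u3 := S_iff false 20 1 0 y a (y + 1 - (20 * 8 ^ a + 1)) (by norm_num) (by norm_num)
    (by norm_num) h1 h2 (by omega)
  have w1 := S_iff true 40 1 (-1) y a (y + 1 - 40 * 8 ^ a) (by norm_num) (by norm_num)
    (by norm_num) h1 h2 (by omega)
  have w2 := S_iff false 28 1 (-1) y a (y + 1 - 28 * 8 ^ a) (by norm_num) (by norm_num)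
    (by norm_num) h1 h2 (by omega)
  have w3 := S_iff false 20 (-1) 1 y a (20 * 8 ^ a + 1 - y) (by norm_num) (by norm_num)
    (by norm_num) h1 h2 (by omega)
  have e0 := H_eq a y h1 h2.le
  have e1 := H_eq a (y + 1) (by omega) h2
  have s1 := phi_step true a (40 * 8 ^ a) y
  have s2 := phi_step false a (28 * 8 ^ a) y
  have s3 := phi_step false a (20 * 8 ^ a + 1) y
  have hx : x y = 1 ↔ (U y ∨ (y % 2 = 1 ∧ ¬ W y)) := by
    unfold x; split_ifs with h <;> simp [h]
  rw [e0, e1]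
  simp only [hx, U, W, u1, u2, u3, w1, w2, w3]
  unfold F
  have b1 := @In.bd true a (40 * 8 ^ a - y)
  have b2 := @In.bd false a (28 * 8 ^ a - y)
  have b3 := @In.bd false a (y + 1 - (20 * 8 ^ a + 1))
  have b4 := @In.bd true a (y + 1 - 40 * 8 ^ a)
  have b5 := @In.bd false a (y + 1 - 28 * 8 ^ a)
  have b6 := @In.bd false a (20 * 8 ^ a + 1 - y)
  by_cases p1 : In true a (40 * 8 ^ a - y) <;> by_cases p2 : In false a (28 * 8 ^ a - y) <;>
    by_cases p3 : In false a (y + 1 - (20 * 8 ^ a + 1)) <;>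
    by_cases p4 : In true a (y + 1 - 40 * 8 ^ a) <;> by_cases p5 : In false a (y + 1 - 28 * 8 ^ a) <;>
    by_cases p6 : In false a (20 * 8 ^ a + 1 - y) <;>
    simp only [p1, p2, p3, p4, p5, p6, if_true, if_false, true_or, or_true, false_or, or_false,
      not_true, not_false_iff, and_true, and_false, forall_true_left, IsEmpty.forall_iff]
      at s1 s2 s3 b1 b2 b3 b4 b5 b6 ⊢ <;>
    (try split_ifs) <;> omega

end Pool.Agent.H5.AbelAuto
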