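import Pool.Agent.H5.AbelDisc

set_option autoImplicit false

namespace Pool.Agent.H5.AbelAuto

lemma H_P (a y : ℕ) (h1 : 39 * 8 ^ a ≤ y) (h2 : y ≤ 41 * 8 ^ a) :
    H y = phi true a (40 * 8 ^ a) y := by
  have hp : 0 < 8 ^ a := by positivity
  rw [H_eq a y (by omega) (by omega)]; unfold F
  rw [phi_zero false a (28 * 8 ^ a) y (by omega), phi_zero false a (20 * 8 ^ a + 1) y (by omega)]
  simp

lemma H_Q (a y : ℕ) (h1 : 27 * 8 ^ a ≤ y) (h2 : y ≤ 29 * 8 ^ a) :
    H y = phi false a (28 * 8 ^ a) y := by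
  have hp : 0 < 8 ^ a := by positivity
  rw [H_eq a y (by omega) (by omega)]; unfold F
  rw [phi_zero true a (40 * 8 ^ a) y (by omega), phi_zero false a (20 * 8 ^ a + 1) y (by omega)]
  simp

lemma H_V (a y : ℕ) (h1 : 19 * 8 ^ a ≤ y) (h2 : y ≤ 21 * 8 ^ a + 1) :
    H y = - phi false a (20 * 8 ^ a + 1) y := by
  have hp : 0 < 8 ^ a := by positivity
  rw [H_eq a y (by omega) (by omega)]; unfold F
  rw [phi_zero true a (40 * 8 ^ a) y (by omega), phi_zero false a (28 * 8 ^ a) y (by omega)]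
  simp

def Out (y : ℕ) : Prop := ∀ a, (y ≤ 39 * 8 ^ a ∨ 41 * 8 ^ a ≤ y) ∧ (y ≤ 27 * 8 ^ a ∨ 29 * 8 ^ a ≤ y) ∧
  (y ≤ 19 * 8 ^ a + 1 ∨ 21 * 8 ^ a + 1 ≤ y)

lemma H_out (y : ℕ) (h : Out y) : H y = 0 := by
  obtain ⟨h1, h2, h3⟩ := h (Nat.log 8 (y / 16))
  unfold H F
  rw [phi_zero, phi_zero, phi_zero] <;> omega

lemma classify (y : ℕ) : Out y ∨ ∃ a, (39 * 8 ^ a < y ∧ y < 41 * 8 ^ a) ∨
    (27 * 8 ^ a < y ∧ y < 29 * 8 ^ a) ∨ (19 * 8 ^ a + 1 < y ∧ y < 21 * 8 ^ a + 1) := by
  by_cases h : Out y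
  · left; exact h
  · right
    unfold Out at h
    push Not at h
    obtain ⟨a, h⟩ := h
    exact ⟨a, by omega⟩

lemma log_ge (z i : ℕ) (hi : 1 ≤ i) (h : 8 ^ i ≤ 2 * z) : 3 * i - 1 ≤ Nat.log 2 z := by
  apply Nat.le_log_of_pow_le (by norm_num)
  have : 8 ^ i = 2 * 2 ^ (3 * i - 1) := by
    rw [eight_pow, ← pow_succ']; congr 1; omega
  omega

lemma H_bound (i j y : ℕ) (hi : 1 ≤ i) (hl : i + 2 ≤ j) (hl' : j ≤ 2 * i + 4) :
    -(3 * j : ℤ) ≤ H (y + (8 ^ j + 8 ^ i)) - H y ∧ H (y + (8 ^ j + 8 ^ i)) - H y ≤ 3 * j := by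
  have hI : 0 < 8 ^ i := by positivity
  have hIJ : 64 * 8 ^ i ≤ 8 ^ j := by
    have : 64 * 8 ^ i = 8 ^ (i + 2) := by ring
    rw [this]; exact Nat.pow_le_pow_right (by norm_num) hl
  have lip := fun b a c => phi_lip b a c y (8 ^ j + 8 ^ i) j (by omega) (by omega)
  generalize hy' : y + (8 ^ j + 8 ^ i) = y' at *
  rcases classify y with o | ⟨a, o⟩
  · rw [H_out y o]
    rcases classify y' with o' | ⟨a', o' | o' | o'⟩
    · rw [H_out y' o']; omega
    · have := lip true a' (40 * 8 ^ a')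
      rw [phi_zero true a' _ y (by have := (o a').1; omega)] at this
      rw [H_P a' y' (by omega) (by omega)]; omega
    · have := lip false a' (28 * 8 ^ a')
      rw [phi_zero false a' _ y (by have := (o a').2.1; omega)] at this
      rw [H_Q a' y' (by omega) (by omega)]; omega
    · have := lip false a' (20 * 8 ^ a' + 1)
      rw [phi_zero false a' _ y (by have := (o a').2.2; omega)] at this
      rw [H_V a' y' (by omega) (by omega)]; omega
  · rcases classify y' with o' | ⟨a', o'⟩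
    · rw [H_out y' o']
      rcases o with o | o | o
      · have := lip true a (40 * 8 ^ a)
        rw [phi_zero true a _ y' (by have := (o' a).1; omega)] at this
        rw [H_P a y (by omega) (by omega)]; omega
      · have := lip false a (28 * 8 ^ a)
        rw [phi_zero false a _ y' (by have := (o' a).2.1; omega)] at this
        rw [H_Q a y (by omega) (by omega)]; omega
      · have := lip false a (20 * 8 ^ a + 1)
        rw [phi_zero false a _ y' (by have := (o' a).2.2; omega)] at this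
        rw [H_V a y (by omega) (by omega)]; omega
    · have hu : 0 < 8 ^ a := by positivity
      have hu' : 0 < 8 ^ a' := by positivity
      have e8 : 8 ^ (a' + 1) = 8 * 8 ^ a' := pow_succ' _ _
      have t1 := pow_tri a a'
      have t2 := pow_tri (a' + 1) j
      have t2' : j = a' + 1 ∨ 64 * 8 ^ a' ≤ 8 ^ j ∨ 8 ^ j ≤ 8 ^ a' := by omega
      have t3 : j = a' + 1 → 8 ^ j = 8 * 8 ^ a' := fun h => by rw [h, e8]
      rcases t1 with rfl | t1
      · rcases o with o | o | o <;> rcases o' with o' | o' | o'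
        · have := lip true a (40 * 8 ^ a)
          rw [H_P a y (by omega) (by omega), H_P a y' (by omega) (by omega)]; omega
        · omega
        · omega
        · exfalso; omega
        · have := lip false a (28 * 8 ^ a)
          rw [H_Q a y (by omega) (by omega), H_Q a y' (by omega) (by omega)]; omega
        · omega
        · exfalso; omega
        · have hj : j = a + 1 := by omega
          rw [H_V a y (by omega) (by omega), H_Q a y' (by omega) (by omega)]
          unfold phi prof cnt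
          simp only [Bool.false_eq_true, if_false]
          have t4 := t3 hj
          rcases Nat.lt_or_ge (2 * (y - (20 * 8 ^ a + 1) + (20 * 8 ^ a + 1 - y))) (8 ^ i) with g | g
          · have := log_ge (y' - 28 * 8 ^ a + (28 * 8 ^ a - y')) i hi (by omega)
            omega
          · have := log_ge _ i hi g
            omega
        · have := lip false a (20 * 8 ^ a + 1)
          rw [H_V a y (by omega) (by omega), H_V a y' (by omega) (by omega)]; omega
      · exfalso; omega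

/-- number of ones in a window -/
noncomputable def ones (t N : ℕ) : ℕ := ((Finset.range N).filter (fun j => x (t + j) = 1)).card

lemma ones_eq (t N : ℕ) :
    (ones t N : ℤ) = H (t + N) - H t + ((t + N) / 2 : ℕ) - (t / 2 : ℕ) := by
  induction N with
  | zero => simp [ones]
  | succ N ih =>
    have h := H_step (t + N)
    unfold ones at ih ⊢
    rw [Finset.range_add_one, Finset.filter_insert]
    rw [← add_assoc]
    split_ifs at h ⊢ with g
    · rw [Finset.card_insert_of_notMem (by simp)]; push_cast at *; omega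
    · omega

lemma H_step' (y : ℕ) : (y % 2 = 0 → H (y + 1) = H y ∨ H (y + 1) = H y + 1) ∧
    (y % 2 = 1 → H (y + 1) = H y ∨ H (y + 1) = H y - 1) := by
  have h := H_step y
  split_ifs at h <;> omega

lemma ivt (f : ℕ → ℤ) (hf : ∀ t, f t - 1 ≤ f (t + 1)) (t1 t2 : ℕ) (h : t1 ≤ t2) (v : ℤ)
    (h1 : v ≤ f t1) (h2 : f t2 ≤ v) : ∃ t, f t = v := by
  induction t2, h using Nat.le_induction with
  | base => exact ⟨t1, by omega⟩
  | succ n hn ih =>
    by_cases g : f n ≤ v
    · exact ih g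
    · exact ⟨n + 1, by have := hf n; omega⟩

def par (N : ℕ) : Set (Fin 2 → ℕ) := {v : Fin 2 → ℕ | ∃ i : ℕ,
  v = fun c => ((Finset.range N).filter (fun j => x (i + j) = c)).card}

lemma par_eq (N : ℕ) : par N = (fun k => ![N - k, k]) '' (Set.range fun t => ones t N) := by
  have key : ∀ i, (fun c => ((Finset.range N).filter (fun j => x (i + j) = c)).card) =
      ![N - ones i N, ones i N] := by
    intro i
    funext c
    fin_cases c
    · have := Finset.card_filter_add_card_filter_not (s := Finset.range N)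
        (fun j => x (i + j) = 1)
      have e : (Finset.range N).filter (fun j => ¬ x (i + j) = 1) =
          (Finset.range N).filter (fun j => x (i + j) = 0) := by
        apply Finset.filter_congr
        intro j _
        generalize x (i + j) = w
        fin_cases w <;> simp
      rw [e, Finset.card_range] at this
      simp only [Fin.zero_eta, Matrix.cons_val_zero, ones]
      omega
    · simp [ones]
  ext v
  simp only [par, Set.mem_ofPred_eq, key, Set.mem_image, Set.mem_range]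
  constructor
  · rintro ⟨i, rfl⟩; exact ⟨_, ⟨i, rfl⟩, rfl⟩
  · rintro ⟨_, ⟨i, rfl⟩, rfl⟩; exact ⟨i, rfl⟩

lemma par_ncard (N : ℕ) : (par N).ncard = (Set.range fun t => ones t N).ncard := by
  rw [par_eq]
  apply Set.ncard_image_of_injective
  intro k k' h
  simpa using congrFun h 1

lemma ones_finite (N : ℕ) : (Set.range fun t => ones t N).Finite := by
  refine (Set.finite_Iic N).subset ?_
  rintro _ ⟨t, rfl⟩
  exact (Finset.card_filter_le _ _).trans (by simp)

lemma ones_even (t M : ℕ) : (ones t (2 * M) : ℤ) = H (t + 2 * M) - H t + M := by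
  rw [ones_eq]; omega

lemma lower (M hi lo t1 t2 : ℕ) (h : t1 ≤ t2) (h1 : H (t1 + 2 * M) - H t1 = hi)
    (h2 : H (t2 + 2 * M) - H t2 = -lo) : hi + lo + 1 ≤ (par (2 * M)).ncard := by
  rw [par_ncard]
  have e1 := ones_even t1 M
  have e2 := ones_even t2 M
  have hsub : ((Finset.Icc (M - lo) (M + hi) : Finset ℕ) : Set ℕ) ⊆
      Set.range fun t => ones t (2 * M) := by
    intro k hk
    simp only [Finset.coe_Icc, Set.mem_Icc] at hk
    obtain ⟨t, ht⟩ := ivt (fun t => (ones t (2 * M) : ℤ)) (by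
      intro t
      simp only [ones_even]
      have a1 := H_step' t
      have a2 := H_step' (t + 2 * M)
      have : t + 1 + 2 * M = t + 2 * M + 1 := by ring
      rw [this]
      omega) t1 t2 h k (by omega) (by omega)
    exact ⟨t, by (try simp only at ht ⊢); omega⟩
  have := Set.ncard_le_ncard hsub (ones_finite _)
  rw [Set.ncard_coe_finset, Nat.card_Icc] at this
  omega

lemma upper (M B : ℕ) (h : ∀ t, -(B : ℤ) ≤ H (t + 2 * M) - H t ∧ H (t + 2 * M) - H t ≤ B) :
    (par (2 * M)).ncard ≤ 2 * B + 1 := by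
  rw [par_ncard]
  have hsub : (Set.range fun t => ones t (2 * M)) ⊆
      ((Finset.Icc (M - B) (M + B) : Finset ℕ) : Set ℕ) := by
    rintro _ ⟨t, rfl⟩
    simp only [Finset.coe_Icc, Set.mem_Icc]
    have := ones_even t M
    have := h t
    omega
  have := Set.ncard_le_ncard hsub (Finset.finite_toSet _)
  rw [Set.ncard_coe_finset, Nat.card_Icc] at this
  omega

lemma log_N (i j : ℕ) (hl : i < j) : Nat.log 2 (8 ^ j + 8 ^ i) = 3 * j := by
  have : 8 ^ i < 8 ^ j := Nat.pow_lt_pow_right (by norm_num) hl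
  have hI : 0 < 8 ^ i := by positivity
  apply Nat.log_eq_of_pow_le_of_lt_pow
  · rw [← eight_pow]; omega
  · rw [pow_succ, ← eight_pow]; omega

lemma steep (i j : ℕ) (hl : i < j) :
    H (40 * 8 ^ (j + 1) - (8 ^ j + 8 ^ i) + (8 ^ j + 8 ^ i)) - H (40 * 8 ^ (j + 1) - (8 ^ j + 8 ^ i))
      = (3 * j : ℕ) ∧
    H (40 * 8 ^ (j + 1) + (8 ^ j + 8 ^ i)) - H (40 * 8 ^ (j + 1)) = -(3 * j : ℕ) := by
  have h1 : 8 ^ i < 8 ^ j := Nat.pow_lt_pow_right (by norm_num) hl
  have hI : 0 < 8 ^ i := by positivity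
  have e8 : 8 ^ (j + 1) = 8 * 8 ^ j := pow_succ' _ _
  have e : 40 * 8 ^ (j + 1) - (8 ^ j + 8 ^ i) + (8 ^ j + 8 ^ i) = 40 * 8 ^ (j + 1) := by omega
  rw [e, H_P (j + 1) (40 * 8 ^ (j + 1)) (by omega) (by omega),
    H_P (j + 1) (40 * 8 ^ (j + 1) - (8 ^ j + 8 ^ i)) (by omega) (by omega),
    H_P (j + 1) (40 * 8 ^ (j + 1) + (8 ^ j + 8 ^ i)) (by omega) (by omega)]
  unfold phi prof cnt
  have d1 : 40 * 8 ^ (j + 1) - (8 ^ j + 8 ^ i) - 40 * 8 ^ (j + 1) +
      (40 * 8 ^ (j + 1) - (40 * 8 ^ (j + 1) - (8 ^ j + 8 ^ i))) = 8 ^ j + 8 ^ i := by omega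
  have d2 : 40 * 8 ^ (j + 1) + (8 ^ j + 8 ^ i) - 40 * 8 ^ (j + 1) +
      (40 * 8 ^ (j + 1) - (40 * 8 ^ (j + 1) + (8 ^ j + 8 ^ i))) = 8 ^ j + 8 ^ i := by omega
  rw [d1, d2, log_N i j hl]
  simp

lemma half (i j : ℕ) (hi : 1 ≤ i) (hl : i < j) : ∃ M, 8 ^ j + 8 ^ i = 2 * M := by
  obtain ⟨i', rfl⟩ : ∃ i', i = i' + 1 := ⟨i - 1, by omega⟩
  obtain ⟨j', rfl⟩ : ∃ j', j = j' + 1 := ⟨j - 1, by omega⟩
  exact ⟨4 * 8 ^ j' + 4 * 8 ^ i', by ring⟩

theorem rho_exact (i j : ℕ) (hi : 1 ≤ i) (hl : i + 2 ≤ j) (hl' : j ≤ 2 * i + 4) :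
    (par (8 ^ j + 8 ^ i)).ncard = 6 * j + 1 := by
  obtain ⟨M, hM⟩ := half i j hi (by omega)
  have s := steep i j (by omega)
  have b := fun y => H_bound i j y hi hl hl'
  rw [hM] at s b ⊢
  have u := upper M (3 * j) (fun t => by push_cast; exact b t)
  have l := lower M (3 * j) (3 * j) _ _ (by omega) s.1 s.2
  omega

theorem rho_big (i : ℕ) (hi : 1 ≤ i) :
    6 * (2 * i + 5) + 1 < (par (8 ^ (2 * i + 5) + 8 ^ i)).ncard := by
  obtain ⟨M, hM⟩ := half i (2 * i + 5) hi (by omega)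
  have s := steep i (2 * i + 5) (by omega)
  have h1 : 8 * 8 ^ i ≤ 8 ^ (2 * i + 4) := by
    rw [← pow_succ']; exact Nat.pow_le_pow_right (by norm_num) (by omega)
  have hI : 8 ≤ 8 ^ i := by
    calc 8 = 8 ^ 1 := by norm_num
      _ ≤ 8 ^ i := Nat.pow_le_pow_right (by norm_num) hi
  have e8 : 8 ^ (2 * i + 5) = 8 * 8 ^ (2 * i + 4) := pow_succ' _ _
  have e9 : 8 ^ (2 * i + 5 + 1) = 8 * 8 ^ (2 * i + 5) := pow_succ' _ _
  have v : H (20 * 8 ^ (2 * i + 4) + 1 + (8 ^ (2 * i + 5) + 8 ^ i)) - H (20 * 8 ^ (2 * i + 4) + 1)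
      = (6 * i + 16 : ℕ) := by
    rw [H_Q (2 * i + 4) _ (by omega) (by omega), H_V (2 * i + 4) _ (by omega) (by omega)]
    unfold phi prof cnt
    have d1 : 20 * 8 ^ (2 * i + 4) + 1 + (8 ^ (2 * i + 5) + 8 ^ i) - 28 * 8 ^ (2 * i + 4) +
        (28 * 8 ^ (2 * i + 4) - (20 * 8 ^ (2 * i + 4) + 1 + (8 ^ (2 * i + 5) + 8 ^ i))) =
        8 ^ i + 8 ^ 0 := by simp only [pow_zero]; omega
    rw [d1, log_N 0 i hi]
    simp
    omega
  rw [hM] at s v ⊢
  have l := lower M (6 * i + 16) (3 * (2 * i + 5)) _ _ (by omega) v s.2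
  omega

end Pool.Agent.H5.AbelAuto
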