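import Mathlib

namespace Pool.Agent.H5.Amp

open Finset Complex

/-- The three Pauli matrices. -/
def pauli : Fin 3 → Matrix (Fin 2) (Fin 2) ℂ :=
  ![!![0, 1; 1, 0], !![0, -I; I, 0], !![1, 0; 0, -1]]

/-- The form `ω(a, b) = a₁ b₂ - a₂ b₁` on `ℂ²`. -/
def omega (a b : Fin 2 → ℂ) : ℂ := a 0 * b 1 - a 1 * b 0

variable {V : Type}

/-- Adjacent vertices go to different points. -/
def Admissible (G : SimpleGraph V) (x : V → EuclideanSpace ℝ (Fin 3)) : Prop :=
  ∀ i j, G.Adj i j → x i ≠ x j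

/-- The unit vector from `p` to `q`. -/
noncomputable def dir (p q : EuclideanSpace ℝ (Fin 3)) : EuclideanSpace ℝ (Fin 3) :=
  ‖q - p‖⁻¹ • (q - p)

/-- For every ordered pair `(i, j)` of adjacent vertices (a dart), `ψ` is a unit vector of `ℂ²`
fixed by `u · σ`, where `u` is the unit vector from `x i` to `x j`. -/
def IsLift (G : SimpleGraph V) (x : V → EuclideanSpace ℝ (Fin 3))
    (ψ : G.Dart → Fin 2 → ℂ) : Prop :=
  ∀ d : G.Dart, ‖ψ d 0‖ ^ 2 + ‖ψ d 1‖ ^ 2 = 1 ∧
    (∑ k : Fin 3, ((dir (x d.fst) (x d.snd) k : ℝ) : ℂ) • pauli k).mulVec (ψ d) = ψ d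

/-- `Δ` contains exactly one of the two darts of each edge. -/
def IsOrientation (G : SimpleGraph V) (Δ : Finset G.Dart) : Prop :=
  ∀ d : G.Dart, d ∈ Δ ↔ d.symm ∉ Δ

open Classical in
/-- The amplitude: the sum runs over all permutations of the darts that keep the first vertex. -/
noncomputable def amp [Fintype V] (G : SimpleGraph V) (ψ : G.Dart → Fin 2 → ℂ)
    (Δ : Finset G.Dart) : ℂ :=
  (∑ σ ∈ univ.filter (fun σ : Equiv.Perm G.Dart => ∀ d, (σ d).fst = d.fst),
      ∏ d ∈ Δ, omega (ψ (σ d)) (ψ (σ d.symm))) /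
    ∏ d ∈ Δ, omega (ψ d) (ψ d.symm)

open Classical in
theorem sum_perm {D : Type} [Fintype D] [Fintype V] (f : D → V) (o : D → D)
    (hfst : ∀ d, f (o d) = f d) (hinv : Function.Involutive o)
    (htwo : ∀ d d', f d' = f d → d' = d ∨ d' = o d) (W : V → Prop)
    (hW : ∀ d, W (f d) ↔ o d ≠ d) (hW2 : ∀ v, W v → ∃ d, f d = v) (F : (D → D) → ℂ) :
    ∑ σ ∈ univ.filter (fun σ : Equiv.Perm D => ∀ d, f (σ d) = f d), F σ =
      ∑ s ∈ univ.filter (fun s : V → Bool => ∀ v, ¬ W v → s v = false),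
        F (fun d => if s (f d) then o d else d) := by
  have hI : ∀ s : V → Bool, Function.Involutive (fun d => if s (f d) then o d else d) := by
    intro s d
    by_cases h : s (f d) <;> simp [h, hfst, hinv d]
  symm
  refine sum_bij (fun s _ => (hI s).toPerm _) ?_ ?_ ?_ ?_
  · intro s _
    simp only [mem_filter, mem_univ, true_and, Function.Involutive.coe_toPerm]
    intro d
    split_ifs
    · exact hfst d
    · rfl
  · intro s hs t ht h
    simp only [mem_filter, mem_univ, true_and] at hs ht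
    funext v
    by_cases hv : W v
    · obtain ⟨d, rfl⟩ := hW2 v hv
      have h1 := congrArg (fun σ : Equiv.Perm D => σ d) h
      have h2 := (hW d).1 hv
      simp only [Function.Involutive.coe_toPerm] at h1
      cases hs' : s (f d) <;> cases ht' : t (f d)
      · rfl
      · rw [hs', ht'] at h1; exact absurd h1.symm h2
      · rw [hs', ht'] at h1; exact absurd h1 h2
      · rfl
    · rw [hs v hv, ht v hv]
  · intro σ hσ
    simp only [mem_filter, mem_univ, true_and] at hσ
    refine ⟨fun v => decide (∃ d, f d = v ∧ σ d ≠ d), ?_, ?_⟩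
    · simp only [mem_filter, mem_univ, true_and]
      intro v hv
      simp only [decide_eq_false_iff_not, not_exists, not_and, not_not]
      rintro d rfl
      rcases htwo d (σ d) (hσ d) with h | h
      · exact h
      · have : o d = d := by by_contra hne; exact hv ((hW d).2 hne)
        rw [h, this]
    · ext d
      simp only [Function.Involutive.coe_toPerm, decide_eq_true_eq]
      split_ifs with h
      · obtain ⟨e, he, hne⟩ := h
        have h1 : σ e = o e := (htwo e (σ e) (hσ e)).resolve_left hne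
        rcases htwo e d he.symm with rfl | rfl
        · exact h1.symm
        · rcases htwo (o e) (σ (o e)) (hσ _) with h2 | h2
          · have := σ.injective (h1.trans h2.symm)
            rw [h2, ← this, ← this]
          · exact h2.symm
      · by_contra hne
        exact h ⟨d, rfl, fun h' => hne h'.symm⟩
  · intro s _
    rfl

def chain {R : Type} [CommSemiring R] :
    (m : ℕ) → (Fin m → Bool → Bool → R) → R → R → R → R → R
  | 0, _, p, q, u, v => p * u + q * v
  | m + 1, T, p, q, u, v => chain m (fun i => T i.succ)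
      (p * T 0 false false + q * T 0 true false) (p * T 0 false true + q * T 0 true true) u v

theorem sum_chain {R : Type} [CommSemiring R] (m : ℕ) :
    ∀ (T : Fin m → Bool → Bool → R) (p q u v : R),
    ∑ s : Fin (m + 1) → Bool, (if s 0 then q else p) *
      (∏ i : Fin m, T i (s i.castSucc) (s i.succ)) * (if s (Fin.last m) then v else u) =
      chain m T p q u v := by
  induction m with
  | zero =>
    intro T p q u v
    rw [← (Equiv.funUnique (Fin 1) Bool).symm.sum_comp]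
    simp [chain, add_comm]
  | succ m ih =>
    intro T p q u v
    rw [← (Fin.consEquiv (fun _ : Fin (m + 2) => Bool)).sum_comp, Fintype.sum_prod_type_right,
      chain, ← ih]
    apply sum_congr rfl
    intro t _
    have e1 : ∀ a : Bool, (∏ i : Fin (m + 1), T i ((Fin.cons a t : Fin (m + 2) → Bool) i.castSucc)
        ((Fin.cons a t : Fin (m + 2) → Bool) i.succ)) =
        T 0 a (t 0) * ∏ i : Fin m, T i.succ (t i.castSucc) (t i.succ) := by
      intro a
      rw [Fin.prod_univ_succ]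
      simp only [Fin.castSucc_zero, Fin.cons_zero, Fin.cons_succ, ← Fin.succ_castSucc]
    have e2 : ∀ a : Bool, (Fin.cons a t : Fin (m + 2) → Bool) (Fin.last (m + 1)) =
        t (Fin.last m) := by
      intro a; rw [← Fin.succ_last, Fin.cons_succ]
    simp only [Fintype.sum_bool, Fin.consEquiv_apply, e1, e2, Fin.cons_zero]
    cases t 0 <;> cases t (Fin.last m) <;> simp <;> ring

/-- Integer data for a spinor. -/
abbrev Sp := GaussianInt × GaussianInt

noncomputable def sp (N : ℕ) (P : Sp) : Fin 2 → ℂ := ![(P.1 : ℂ) / N, (P.2 : ℂ) / N]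

def om (P Q : Sp) : GaussianInt := P.1 * Q.2 - P.2 * Q.1

lemma omega_sp (N : ℕ) (P Q : Sp) :
    omega (sp N P) (sp N Q) = ((om P Q : GaussianInt) : ℂ) * ((N : ℂ) ^ 2)⁻¹ := by
  simp only [omega, sp, om, Matrix.cons_val_zero, Matrix.cons_val_one, map_sub, map_mul]
  ring

def Good (N : ℕ) (P : Sp) (t : ℤ) (y : Fin 3 → ℤ) : Prop :=
  P.1.re ^ 2 + P.1.im ^ 2 + P.2.re ^ 2 + P.2.im ^ 2 = (N : ℤ) ^ 2 ∧ 0 < t ∧
  y 0 = t * (2 * (P.1.re * P.2.re + P.1.im * P.2.im)) ∧
  y 1 = t * (2 * (P.1.re * P.2.im - P.1.im * P.2.re)) ∧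
  y 2 = t * (P.1.re ^ 2 + P.1.im ^ 2 - P.2.re ^ 2 - P.2.im ^ 2)

instance (N : ℕ) (P : Sp) (t : ℤ) (y : Fin 3 → ℤ) : Decidable (Good N P t y) := by
  unfold Good; infer_instance

noncomputable def pt (a : Fin 3 → ℤ) : EuclideanSpace ℝ (Fin 3) :=
  WithLp.toLp 2 (fun k => (a k : ℝ))

lemma good_lift (N : ℕ) (hN : 0 < N) (P : Sp) (t : ℤ) (a b : Fin 3 → ℤ)
    (h : Good N P t (fun k => b k - a k)) :
    pt a ≠ pt b ∧ ‖sp N P 0‖ ^ 2 + ‖sp N P 1‖ ^ 2 = 1 ∧
    (∑ k : Fin 3, ((dir (pt a) (pt b) k : ℝ) : ℂ) • pauli k).mulVec (sp N P) = sp N P := by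
  obtain ⟨⟨p, q⟩, ⟨r, s⟩⟩ := P
  obtain ⟨h1, ht, h2, h3, h4⟩ := h
  simp only at h1 h2 h3 h4
  have hN' : (0 : ℝ) < N := by exact_mod_cast hN
  have ht' : (0 : ℝ) < t := by exact_mod_cast ht
  have r1 : (p : ℝ) ^ 2 + q ^ 2 + r ^ 2 + s ^ 2 = (N : ℝ) ^ 2 := by exact_mod_cast h1
  have r2 : (b 0 : ℝ) - a 0 = t * (2 * (p * r + q * s)) := by exact_mod_cast h2
  have r3 : (b 1 : ℝ) - a 1 = t * (2 * (p * s - q * r)) := by exact_mod_cast h3
  have r4 : (b 2 : ℝ) - a 2 = t * (p ^ 2 + q ^ 2 - r ^ 2 - s ^ 2) := by exact_mod_cast h4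
  have hn : ‖pt b - pt a‖ = t * (N : ℝ) ^ 2 := by
    rw [EuclideanSpace.norm_eq, Real.sqrt_eq_iff_mul_self_eq (by positivity) (by positivity)]
    simp only [Fin.sum_univ_three, pt, PiLp.sub_apply, Real.norm_eq_abs, sq_abs, r2, r3, r4, ← r1]
    ring
  have hd : ∀ k, dir (pt a) (pt b) k = ((b k : ℝ) - a k) / (t * (N : ℝ) ^ 2) := by
    intro k
    rw [dir, hn]
    simp only [PiLp.smul_apply, PiLp.sub_apply, pt, smul_eq_mul]
    ring
  refine ⟨?_, ?_, ?_⟩
  · intro he
    rw [he, sub_self, norm_zero] at hn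
    have : (0 : ℝ) < t * (N : ℝ) ^ 2 := by positivity
    linarith
  · simp only [sp, Matrix.cons_val_zero, Matrix.cons_val_one, norm_div, div_pow,
      Complex.sq_norm, GaussianInt.toComplex_def', Complex.normSq_apply, Complex.norm_natCast]
    simp
    field_simp
    linarith
  · have hNc : (N : ℂ) ≠ 0 := by exact_mod_cast hN.ne'
    have htc : (t : ℂ) ≠ 0 := by exact_mod_cast ht.ne'
    have c1 : (p : ℂ) ^ 2 + q ^ 2 + r ^ 2 + s ^ 2 = (N : ℂ) ^ 2 := by exact_mod_cast h1
    funext i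
    simp only [hd, r2, r3, r4, Fin.sum_univ_three]
    fin_cases i <;>
      simp [pauli, sp, Matrix.mulVec, dotProduct, Fin.sum_univ_two, GaussianInt.toComplex_def'] <;>
      field_simp
    · linear_combination ((p : ℂ) + q * I) * c1 + (-2 * (p * s - q * r) * s) * I_sq
    · linear_combination ((r : ℂ) + s * I) * c1 + (2 * (p * s - q * r) * q) * I_sq

def emb (G : SimpleGraph V) {k : ℕ} (a b : Fin k → V) (hab : ∀ i, G.Adj (a i) (b i))
    (hinj : ∀ i i', a i = a i' → b i = b i' → i = i') : Fin k ↪ G.Dart :=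
  ⟨fun i => ⟨(a i, b i), hab i⟩, fun i i' h =>
    hinj i i' (congrArg (fun d : G.Dart => d.fst) h) (congrArg (fun d : G.Dart => d.snd) h)⟩

lemma emb_orient (G : SimpleGraph V) {k : ℕ} (a b : Fin k → V) (hab : ∀ i, G.Adj (a i) (b i))
    (hinj : ∀ i i', a i = a i' → b i = b i' → i = i')
    (h : ∀ u v, G.Adj u v → ((∃ i, a i = u ∧ b i = v) ↔ ¬ ∃ i, a i = v ∧ b i = u)) :
    IsOrientation G (univ.map (emb G a b hab hinj)) := by
  have key : ∀ d : G.Dart, d ∈ univ.map (emb G a b hab hinj) ↔ ∃ i, a i = d.fst ∧ b i = d.snd := by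
    intro d
    simp only [mem_map, mem_univ, true_and]
    refine exists_congr fun i => ⟨?_, ?_⟩
    · rintro rfl; exact ⟨rfl, rfl⟩
    · rintro ⟨h1, h2⟩
      apply SimpleGraph.Dart.ext
      exact Prod.ext h1 h2
  intro d
  rw [key, key]
  exact h d.fst d.snd d.adj

open Classical in
theorem amp_eq [Fintype V] (G : SimpleGraph V) (oth : V → V → V)
    (hoth : ∀ i j, G.Adj i j → G.Adj i (oth i j))
    (hinv : ∀ i j, G.Adj i j → oth i (oth i j) = j)
    (htwo : ∀ i j j', G.Adj i j → G.Adj i j' → j' = j ∨ j' = oth i j) (W : V → Prop)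
    (hW : ∀ i j, G.Adj i j → (W i ↔ oth i j ≠ j)) (hW2 : ∀ v, W v → ∃ j, G.Adj v j)
    (N : ℕ) (hN : 0 < N) (P : V → V → Sp) {k : ℕ} (a b : Fin k → V)
    (hab : ∀ i, G.Adj (a i) (b i)) (hinj : ∀ i i', a i = a i' → b i = b i' → i = i')
    (hden : ∀ i, om (P (a i) (b i)) (P (b i) (a i)) = (N : GaussianInt) ^ 2) :
    amp G (fun d => sp N (P d.fst d.snd)) (univ.map (emb G a b hab hinj)) =
      ((∑ s ∈ univ.filter (fun s : V → Bool => ∀ v, ¬ W v → s v = false), ∏ i : Fin k,
        om (P (a i) (if s (a i) then oth (a i) (b i) else b i))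
          (P (b i) (if s (b i) then oth (b i) (a i) else a i)) : GaussianInt) : ℂ) *
        (((N : ℂ) ^ 2)⁻¹) ^ k := by
  have hNc : (N : ℂ) ≠ 0 := by exact_mod_cast hN.ne'
  let o : G.Dart → G.Dart := fun d => ⟨(d.fst, oth d.fst d.snd), hoth _ _ d.adj⟩
  have h := sum_perm (fun d : G.Dart => d.fst) o (fun _ => rfl)
    (fun d => SimpleGraph.Dart.ext _ _ (Prod.ext rfl (hinv _ _ d.adj)))
    (fun d d' hd => by
      have hd' : d'.fst = d.fst := hd
      rcases htwo d.fst d.snd d'.snd d.adj (hd' ▸ d'.adj) with h | h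
      · exact Or.inl (SimpleGraph.Dart.ext _ _ (Prod.ext hd' h))
      · exact Or.inr (SimpleGraph.Dart.ext _ _ (Prod.ext hd' h))) W
    (fun d => (hW _ _ d.adj).trans (not_congr
      ⟨fun h => SimpleGraph.Dart.ext _ _ (Prod.ext rfl h),
       fun h => congrArg (fun d : G.Dart => d.snd) h⟩))
    (fun v hv => by
      obtain ⟨j, hj⟩ := hW2 v hv
      exact ⟨⟨(v, j), hj⟩, rfl⟩)
    (fun τ => ∏ d ∈ univ.map (emb G a b hab hinj),
      omega (sp N (P (τ d).fst (τ d).snd)) (sp N (P (τ d.symm).fst (τ d.symm).snd)))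
  unfold amp
  refine (congrArg (· / _) (Eq.trans (sum_congr
    (Finset.ext fun σ => by simp only [mem_filter, mem_univ]) fun _ _ => rfl) h)).trans ?_
  beta_reduce
  rw [prod_map, prod_eq_one, div_one, map_sum, sum_mul]
  · apply sum_congr rfl
    intro s _
    rw [prod_map, map_prod, show (((N : ℂ) ^ 2)⁻¹) ^ k = ∏ _i : Fin k, ((N : ℂ) ^ 2)⁻¹ by simp,
      ← prod_mul_distrib]
    apply prod_congr rfl
    intro i _
    rw [omega_sp]
    congr 2
    simp only [emb, Function.Embedding.coeFn_mk, SimpleGraph.Dart.symm, Prod.swap, o]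
    cases s (a i) <;> cases s (b i) <;> rfl
  · intro i _
    rw [omega_sp]
    have := hden i
    simp only [emb, Function.Embedding.coeFn_mk, SimpleGraph.Dart.symm, Prod.swap]
    rw [this, map_pow, map_natCast]
    field_simp

end Pool.Agent.H5.Amp
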