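import Mathlib

set_option autoImplicit false

open Metric Set Filter Topology

namespace Pool.Agent.H5.Simons

variable {X : Type*} [NormedAddCommGroup X] [NormedSpace ℝ X]

/-- support functionals of the norm at `x` -/
def J (x : X) : Set (StrongDual ℝ X) := {b | ‖b‖ ≤ 1 ∧ b x = ‖x‖}

lemma J_nonempty (x : X) : ∃ b, b ∈ J x := by
  obtain ⟨g, h1, h2⟩ := exists_dual_vector'' ℝ x
  exact ⟨g, h1, by simpa using h2⟩

lemma le_norm {b : StrongDual ℝ X} (hb : ‖b‖ ≤ 1) (x : X) : b x ≤ ‖x‖ := by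
  have h1 := b.le_opNorm x
  rw [Real.norm_eq_abs] at h1
  have h2 : ‖b‖ * ‖x‖ ≤ 1 * ‖x‖ := by gcongr
  linarith [le_abs_self (b x)]

lemma ulim (g : ℕ → StrongDual ℝ X) (hg : ∀ k, ‖g k‖ ≤ 1) :
    ∃ g0 : StrongDual ℝ X, ‖g0‖ ≤ 1 ∧
      ∀ x, Tendsto (fun k => g k x) (hyperfilter ℕ) (𝓝 (g0 x)) := by
  have hK := WeakDual.isCompact_closedBall (𝕜 := ℝ) (E := X) 0 1
  let g' : ℕ → WeakDual ℝ X := fun k => StrongDual.toWeakDual (g k)
  obtain ⟨g0, hg0, h⟩ := hK.ultrafilter_le_nhds (Ultrafilter.map g' (hyperfilter ℕ)) (by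
    rw [Ultrafilter.coe_map, le_principal_iff, Filter.mem_map]
    refine Filter.Eventually.of_forall fun k => ?_
    simpa [g'] using hg k)
  refine ⟨WeakDual.toStrongDual g0, by simpa using hg0, fun x => ?_⟩
  exact ((WeakDual.eval_continuous x).tendsto g0).comp h

/-- some support functional at `x` has upper limit at most `β` along `u` -/
def Good (u : ℕ → X) (β : ℝ) (x : X) : Prop :=
  ∃ b ∈ J x, ∀ τ > 0, ∀ᶠ k in atTop, b (u k) ≤ β + τ

/-- a local form of the inequality of Simons -/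
lemma simons [CompleteSpace X] {u : ℕ → X} (hu : ∀ k, ‖u k‖ ≤ 1) {β : ℝ} {q : X} {lam : ℝ}
    (hlam : 0 < lam) (hgood : ∀ x, ‖x - q‖ ≤ lam → Good u β x) {g : StrongDual ℝ X}
    (hg : ‖g‖ ≤ 1) {γ : ℝ} (hγ : ∃ᶠ k in atTop, γ ≤ g (u k)) :
    γ ≤ β + 2 * (‖q‖ - g q) / lam := by
  by_contra hcon
  push Not at hcon
  set τ := (γ - (β + 2 * (‖q‖ - g q) / lam)) / 3 with hτ
  have hτ0 : 0 < τ := by rw [hτ]; linarith
  let C : ℕ → Set X := fun i => convexHull ℝ {x | ∃ k, i ≤ k ∧ γ ≤ g (u k) ∧ x = u k}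
  have hCne : ∀ i, (C i).Nonempty := fun i => by
    obtain ⟨k, hk, hk'⟩ := frequently_atTop.1 hγ i
    exact ⟨u k, subset_convexHull _ _ ⟨k, hk, hk', rfl⟩⟩
  have hCanti : ∀ i, C (i + 1) ⊆ C i := fun i =>
    convexHull_mono fun x ⟨k, hk, hk'⟩ => ⟨k, by omega, hk'⟩
  have hCn : ∀ i, ∀ z ∈ C i, ‖z‖ ≤ 1 := fun i z hz => by
    have : C i ⊆ closedBall 0 1 := convexHull_min (by
      rintro x ⟨k, -, -, rfl⟩
      simpa using hu k) (convex_closedBall _ _)
    simpa using this hz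
  have hCg : ∀ i, ∀ z ∈ C i, γ ≤ g z := fun i z hz => by
    have : C i ⊆ {w | γ ≤ g w} := convexHull_min (by
      rintro x ⟨k, -, h, rfl⟩
      exact h) (convex_halfSpace_ge g.toLinearMap.isLinear γ)
    exact this hz
  let a : ℕ → ℝ := fun i => lam / 2 / 2 ^ i
  have ha : ∀ i, 0 < a i := fun i => by positivity
  have ha' : ∀ i, a (i + 1) = a i / 2 := fun i => by
    simp only [a, pow_succ]; field_simp
  have hstep : ∀ (s : X) (i : ℕ), ∃ z ∈ C i, ∀ z' ∈ C i,
      ‖s + a i • z‖ ≤ ‖s + a i • z'‖ + τ * a i / (3 * 2 ^ (i + 1)) := by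
    intro s i
    have hbdd : BddBelow ((fun z => ‖s + a i • z‖) '' C i) :=
      ⟨0, by rintro _ ⟨z, -, rfl⟩; exact norm_nonneg _⟩
    have hpos : 0 < τ * a i / (3 * 2 ^ (i + 1)) := by have := ha i; positivity
    obtain ⟨_, ⟨z, hz, rfl⟩, h⟩ := Real.lt_sInf_add_pos
      ((hCne i).image fun z => ‖s + a i • z‖) hpos
    refine ⟨z, hz, fun z' hz' => ?_⟩
    have := csInf_le hbdd ⟨z', hz', rfl⟩
    simp only at this h
    linarith
  choose z hzC hz using hstep
  obtain ⟨s, hs0, hs⟩ : ∃ s : ℕ → X, s 0 = q ∧ ∀ i, s (i + 1) = s i + a i • z (s i) i :=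
    ⟨fun n => Nat.rec q (fun i x => x + a i • z x i) n, rfl, fun _ => rfl⟩
  have hinc : ∀ i, a i * (β + 2 * τ + τ / 2 ^ i) ≤ ‖s (i + 1)‖ - ‖s i‖ := by
    intro i
    induction i with
    | zero =>
      have h1 := le_norm hg (s 1)
      have h2 := hCg 0 _ (hzC q 0)
      rw [hs 0, hs0, map_add, map_smul, smul_eq_mul] at h1
      rw [hs 0, hs0]
      have h3 : a 0 * γ ≤ a 0 * g (z q 0) := by have := ha 0; gcongr
      have h4 : a 0 * (β + 2 * τ + τ / 2 ^ 0) = a 0 * γ - (‖q‖ - g q) := by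
        simp only [a, hτ]; field_simp; ring
      linarith
    | succ i ih =>
      have hw : (2 / 3 : ℝ) • z (s i) i + (1 / 3 : ℝ) • z (s (i + 1)) (i + 1) ∈ C i :=
        convex_convexHull ℝ _ (hzC _ _) (hCanti i (hzC _ _)) (by norm_num) (by norm_num)
          (by norm_num)
      have h1 := hz (s i) i _ hw
      have h2 : s i + a i • ((2 / 3 : ℝ) • z (s i) i + (1 / 3 : ℝ) • z (s (i + 1)) (i + 1)) =
          (1 / 3 : ℝ) • s i + (2 / 3 : ℝ) • s (i + 1 + 1) := by
        rw [hs (i + 1), ha' i]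
        generalize z (s (i + 1)) (i + 1) = w
        rw [hs i]
        module
      have h3 := norm_add_le ((1 / 3 : ℝ) • s i) ((2 / 3 : ℝ) • s (i + 1 + 1))
      rw [norm_smul, norm_smul, Real.norm_of_nonneg (by norm_num),
        Real.norm_of_nonneg (by norm_num)] at h3
      rw [h2, ← hs i] at h1
      have h4 : a (i + 1) * (β + 2 * τ + τ / 2 ^ (i + 1)) =
          a i * (β + 2 * τ + τ / 2 ^ i) / 2 - 3 / 2 * (τ * a i / (3 * 2 ^ (i + 1))) := by
        rw [ha' i, pow_succ]; field_simp; ring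
      linarith
  have hdist : ∀ n, dist (s n) (s (n + 1)) ≤ lam / 2 / 2 ^ n := fun n => by
    rw [dist_comm, dist_eq_norm, hs n, add_sub_cancel_left, norm_smul,
      Real.norm_of_nonneg (ha n).le]
    have := hCn n _ (hzC (s n) n)
    have := ha n
    show a n * _ ≤ a n
    nlinarith
  obtain ⟨v, hv⟩ := cauchySeq_tendsto_of_complete (cauchySeq_of_le_geometric_two hdist)
  have hvq := dist_le_of_le_geometric_two_of_tendsto₀ hdist hv
  rw [hs0, dist_comm, dist_eq_norm] at hvq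
  obtain ⟨b, hb, hb'⟩ := hgood v hvq
  obtain ⟨K, hK⟩ := eventually_atTop.1 (hb' τ hτ0)
  have hbC : ∀ i, K ≤ i → ∀ z ∈ C i, b z ≤ β + τ := fun i hi z hz => by
    have : C i ⊆ {w | b w ≤ β + τ} := convexHull_min (by
      rintro x ⟨k, hk, -, rfl⟩
      exact hK k (hi.trans hk)) (convex_halfSpace_le b.toLinearMap.isLinear _)
    exact this hz
  have he : ∀ i, K ≤ i → ‖s i‖ - b (s i) + a i * τ ≤ ‖s (i + 1)‖ - b (s (i + 1)) := by
    intro i hi
    have h1 := hinc i
    have h2 := hbC i hi _ (hzC (s i) i)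
    have h3 : b (s (i + 1)) = b (s i) + a i * b (z (s i) i) := by
      rw [hs i, map_add, map_smul, smul_eq_mul]
    have h4 : a i * b (z (s i) i) ≤ a i * (β + τ) := by have := ha i; gcongr
    have h5 : 0 ≤ a i * (τ / 2 ^ i) := by have := ha i; positivity
    nlinarith
  have he' : ∀ i, K + 1 ≤ i → a K * τ ≤ ‖s i‖ - b (s i) := by
    intro i hi
    induction i, hi using Nat.le_induction with
    | base =>
      have := he K le_rfl
      have := le_norm hb.1 (s K)
      linarith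
    | succ i hi ih =>
      have := he i (by omega)
      have : 0 ≤ a i * τ := by have := ha i; positivity
      linarith
  have hlim : Tendsto (fun i => ‖s i‖ - b (s i)) atTop (𝓝 (‖v‖ - b v)) :=
    hv.norm.sub ((b.continuous.tendsto v).comp hv)
  have h1 := ge_of_tendsto hlim (eventually_atTop.2 ⟨K + 1, he'⟩)
  have h2 : 0 < a K * τ := by have := ha K; positivity
  rw [hb.2] at h1
  linarith

lemma slope_le (p e : X) {s t M : ℝ} (hs : 0 < s) (hst : s ≤ t) (h : ‖p + t • e‖ - ‖p‖ ≤ t * M) :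
    ‖p + s • e‖ - ‖p‖ ≤ s * M := by
  have ht : 0 < t := hs.trans_le hst
  have h1 : p + s • e = (1 - s / t) • p + (s / t) • (p + t • e) := by
    rw [smul_add, smul_smul, div_mul_cancel₀ _ ht.ne']; module
  have h2 : 0 ≤ 1 - s / t := by rw [sub_nonneg, div_le_one ht]; exact hst
  have h3 := norm_add_le ((1 - s / t) • p) ((s / t) • (p + t • e))
  rw [← h1, norm_smul, norm_smul, Real.norm_of_nonneg h2,
    Real.norm_of_nonneg (by positivity)] at h3
  have h4 : s / t * (‖p + t • e‖ - ‖p‖) ≤ s / t * (t * M) := by gcongr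
  have h5 : s / t * (t * M) = s * M := by field_simp
  linarith

lemma key [CompleteSpace X] {u : ℕ → X} (hu : ∀ k, ‖u k‖ ≤ 1) {β : ℝ} (e : X) {c : ℝ}
    (hc : 0 < c) (p : X) {ρ : ℝ} (hρ : 0 < ρ)
    (h : ∀ z, ‖z - p‖ < ρ → (∃ σ > 0, ‖z + σ • e‖ + ‖z - σ • e‖ - 2 * ‖z‖ < σ * c) →
      Good u β z) : Good u β p := by
  choose gs hgs using fun k : ℕ => J_nonempty (p + (1 / ((k : ℝ) + 1)) • e)
  obtain ⟨g, hg, hlim⟩ := ulim gs fun k => (hgs k).1
  have h0 : Tendsto (fun k : ℕ => 1 / ((k : ℝ) + 1)) (hyperfilter ℕ) (𝓝 0) :=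
    tendsto_one_div_add_atTop_nhds_zero_nat.mono_left Nat.hyperfilter_le_atTop
  have hgp : g p = ‖p‖ := by
    have h1 : Tendsto (fun k : ℕ => ‖p + (1 / ((k : ℝ) + 1)) • e‖ - 1 / ((k : ℝ) + 1) * gs k e)
        (hyperfilter ℕ) (𝓝 (‖p + (0 : ℝ) • e‖ - 0 * g e)) :=
      (tendsto_const_nhds.add (h0.smul_const e)).norm.sub (h0.mul (hlim e))
    simp only [zero_smul, add_zero, zero_mul, sub_zero] at h1
    refine tendsto_nhds_unique (hlim p) (h1.congr fun k => ?_)
    rw [← (hgs k).2, map_add, map_smul, smul_eq_mul]; ring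
  refine ⟨g, ⟨hg, hgp⟩, fun τ' hτ' => ?_⟩
  by_contra hcon
  rw [not_eventually] at hcon
  have hfr : ∃ᶠ k in atTop, β + τ' ≤ g (u k) := hcon.mono fun k hk => (not_le.1 hk).le
  set τ := min (c / 8) (c * τ' / 32) with hτ
  have hτ0 : 0 < τ := lt_min (by positivity) (by positivity)
  have hτ1 : τ ≤ c / 8 := min_le_left _ _
  have hτ2 : τ ≤ c * τ' / 32 := min_le_right _ _
  obtain ⟨k, hk⟩ := ((hlim e).eventually (gt_mem_nhds (show g e < g e + τ by linarith))).exists
  set s0 := 1 / ((k : ℝ) + 1) with hs0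
  have hs0p : 0 < s0 := by positivity
  have h1 : ‖p + s0 • e‖ - ‖p‖ ≤ s0 * (g e + τ) := by
    have h2 := (hgs k).2
    rw [map_add, map_smul, smul_eq_mul] at h2
    have h3 := le_norm (hgs k).1 p
    have h4 : s0 * gs k e ≤ s0 * (g e + τ) := by gcongr
    linarith
  set s := min (s0 / 2) (ρ / (2 * (‖e‖ + c))) with hs
  have hsp : 0 < s := lt_min (by positivity) (by positivity)
  have hs1 : s ≤ s0 / 2 := min_le_left _ _
  have hs2 : s * (‖e‖ + c) ≤ ρ / 2 := by
    have := min_le_right (s0 / 2) (ρ / (2 * (‖e‖ + c)))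
    rw [← hs, le_div_iff₀ (by positivity)] at this
    linarith
  have h2 := slope_le p e hsp (by linarith) h1
  have h3 := slope_le p e (s := 2 * s) (by positivity) (by linarith) h1
  have h4 : ‖p‖ + s * g e ≤ ‖p + s • e‖ := by
    have := le_norm hg (p + s • e)
    rw [map_add, map_smul, smul_eq_mul, hgp] at this
    exact this
  have h5 := simons hu (β := β) (q := p + s • e) (lam := c / 8 * s) (by positivity)
    (fun z hz => h z ?_ ⟨s, hsp, ?_⟩) hg hfr
  · rw [map_add, map_smul, smul_eq_mul, hgp] at h5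
    have h6 : 2 * (‖p + s • e‖ - (‖p‖ + s * g e)) / (c / 8 * s) ≤ τ' / 2 := by
      rw [div_le_iff₀ (by positivity)]
      nlinarith
    linarith
  · have h6 : z - p = (z - (p + s • e)) + s • e := by abel
    have h7 := norm_add_le (z - (p + s • e)) (s • e)
    rw [norm_smul, Real.norm_of_nonneg hsp.le] at h7
    rw [h6]; nlinarith
  · have h6 : z + s • e = (z - (p + s • e)) + (p + (2 * s) • e) := by module
    have h7 : z - s • e = (z - (p + s • e)) + p := by module
    have h8 : p + s • e = z - (z - (p + s • e)) := by abel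
    have h9 := norm_add_le (z - (p + s • e)) (p + (2 * s) • e)
    have h10 := norm_add_le (z - (p + s • e)) p
    have h11 := norm_sub_le z (z - (p + s • e))
    rw [← h6] at h9
    rw [← h7] at h10
    rw [← h8] at h11
    nlinarith

/-- the norm has no corner at `x` in any direction -/
def Sm (x : X) : Prop :=
  ∀ h : X, ∀ τ > 0, ∃ σ > 0, ‖x + σ • h‖ + ‖x - σ • h‖ - 2 * ‖x‖ < σ * τ

/-- the inequality of Rainwater and Simons for the derivatives of the norm of a separable space -/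
theorem rainwater [CompleteSpace X] [TopologicalSpace.SeparableSpace X] {u : ℕ → X}
    (hu : ∀ k, ‖u k‖ ≤ 1) {β : ℝ}
    (H : ∀ x, Sm x → ∃ f ∈ J x, ∀ᶠ k in atTop, f (u k) ≤ β) {g : StrongDual ℝ X}
    (hg : ‖g‖ ≤ 1) {γ : ℝ} (hγ : ∃ᶠ k in atTop, γ ≤ g (u k)) : γ ≤ β := by
  suffices hall : ∀ x, Good u β x by
    simpa using simons hu (q := 0) one_pos (fun x _ => hall x) hg hγ
  haveI : Nonempty X := ⟨0⟩
  set e := TopologicalSpace.denseSeq X with he
  have hed : DenseRange e := TopologicalSpace.denseRange_denseSeq X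
  set S := (interior {x | Good u β x})ᶜ with hS
  have hSc : IsClosed S := isOpen_interior.isClosed_compl
  by_contra hcon
  push Not at hcon
  obtain ⟨x1, hx1⟩ := hcon
  haveI : CompleteSpace S := hSc.completeSpace_coe
  haveI : Nonempty S := ⟨⟨x1, fun h => hx1 (interior_subset (s := {x | Good u β x}) h)⟩⟩
  let T : ℕ ⊕ ℕ × ℕ → Set X := fun i => match i with
    | Sum.inl n => {x | ∃ b ∈ J x, ∀ k, n ≤ k → b (u k) ≤ β}
    | Sum.inr (j, m) =>
      {x | ∀ σ > 0, σ * (1 / ((m : ℝ) + 1)) ≤ ‖x + σ • e j‖ + ‖x - σ • e j‖ - 2 * ‖x‖}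
  have hTc : ∀ i, IsClosed (T i) := by
    rintro (n | ⟨j, m⟩)
    · refine isClosed_of_closure_subset fun x hx => ?_
      obtain ⟨y, hy, hyx⟩ := mem_closure_iff_seq_limit.1 hx
      choose b hb hb' using hy
      obtain ⟨b0, hb0, hlim⟩ := ulim b fun k => (hb k).1
      have hyx' := hyx.mono_left Nat.hyperfilter_le_atTop
      refine ⟨b0, ⟨hb0, le_antisymm (le_norm hb0 x) ?_⟩, fun k hk =>
        le_of_tendsto' (hlim (u k)) fun i => hb' i k hk⟩
      have h1 : Tendsto (fun i => ‖y i‖ - ‖y i - x‖) (hyperfilter ℕ) (𝓝 (‖x‖ - ‖x - x‖)) :=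
        hyx'.norm.sub (hyx'.sub_const x).norm
      simp only [sub_self, norm_zero, sub_zero] at h1
      refine le_of_tendsto_of_tendsto' h1 (hlim x) fun i => ?_
      have h2 := le_norm (hb i).1 (y i - x)
      rw [map_sub, (hb i).2] at h2
      linarith
    · simp only [T, Set.ofPred_forall]
      exact isClosed_iInter fun σ => isClosed_iInter fun _ =>
        isClosed_le continuous_const (by fun_prop)
  obtain ⟨i, x0, hx0⟩ := nonempty_interior_of_iUnion_of_closed
    (f := fun i => (Subtype.val : S → X) ⁻¹' T i)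
    (fun i => (hTc i).preimage continuous_subtype_val)
    (by
      refine Set.eq_univ_of_forall fun z => ?_
      by_cases hz : Sm z.1
      · obtain ⟨f, hf, hf'⟩ := H z.1 hz
        obtain ⟨n, hn⟩ := eventually_atTop.1 hf'
        exact mem_iUnion.2 ⟨Sum.inl n, f, hf, hn⟩
      · simp only [Sm, not_forall, not_exists, not_and, not_lt] at hz
        obtain ⟨h, τ, hτ, hz⟩ := hz
        obtain ⟨j, hj⟩ := hed.exists_dist_lt h (ε := τ / 4) (by positivity)
        obtain ⟨m, hm⟩ := exists_nat_one_div_lt (show 0 < τ / 2 by positivity)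
        refine mem_iUnion.2 ⟨Sum.inr (j, m), fun σ hσ => ?_⟩
        have h1 := hz σ hσ
        rw [dist_eq_norm] at hj
        have h2 : z.1 + σ • h = (z.1 + σ • e j) + σ • (h - e j) := by module
        have h3 : z.1 - σ • h = (z.1 - σ • e j) - σ • (h - e j) := by module
        have h4 := norm_add_le (z.1 + σ • e j) (σ • (h - e j))
        have h5 := norm_sub_le (z.1 - σ • e j) (σ • (h - e j))
        rw [← h2, norm_smul, Real.norm_of_nonneg hσ.le] at h4
        rw [← h3, norm_smul, Real.norm_of_nonneg hσ.le] at h5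
        nlinarith)
  obtain ⟨ρ, hρ, hball⟩ := Metric.isOpen_iff.1 isOpen_interior x0 hx0
  have hU : ∀ z ∈ ball x0.1 ρ, z ∉ T i → Good u β z := fun z hz h => by
    by_contra h1
    have h2 : z ∈ S := fun h3 => h1 (interior_subset (s := {x | Good u β x}) h3)
    exact h (interior_subset (s := (Subtype.val : S → X) ⁻¹' T i)
      (hball (a := ⟨z, h2⟩) (by rw [mem_ball, Subtype.dist_eq]; exact hz)))
  refine x0.2 (mem_interior.2 ⟨ball x0.1 ρ, fun p hp => ?_, isOpen_ball, mem_ball_self hρ⟩)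
  rcases i with n | ⟨j, m⟩
  · by_cases h : p ∈ T (Sum.inl n)
    · obtain ⟨b, hb, hb'⟩ := h
      exact ⟨b, hb, fun τ hτ => eventually_atTop.2 ⟨n, fun k hk => by linarith [hb' k hk]⟩⟩
    · exact hU p hp h
  · obtain ⟨ρ', hρ', h1⟩ := Metric.isOpen_iff.1 isOpen_ball p hp
    refine key hu (e j) (c := 1 / ((m : ℝ) + 1)) (by positivity) p hρ' ?_
    rintro z hz ⟨σ, hσ, h2⟩
    exact hU z (h1 (by rw [mem_ball, dist_eq_norm]; exact hz)) fun h3 => not_le.2 h2 (h3 σ hσ)

end Pool.Agent.H5.Simons
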