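import Pool.Agent.H5.Renorm
import Pool.Agent.H5.Simons

set_option autoImplicit false

open Filter Topology

namespace Pool.Agent.H5.Asq

abbrev l1 : Type := lp (fun _ : ℕ => ℝ) 1
abbrev c0 : Type := ZeroAtInftyContinuousMap ℕ ℝ
abbrev V : Type := l1 × c0

lemma abs_le_norm (x : c0) (e : ℕ) : |x e| ≤ ‖x‖ :=
  BoundedContinuousFunction.norm_coe_le_norm x.toBCF e

lemma norm_le_of (x : c0) {C : ℝ} (hC : 0 ≤ C) (h : ∀ e, |x e| ≤ C) : ‖x‖ ≤ C :=
  (BoundedContinuousFunction.norm_le (f := x.toBCF) hC).2 h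

lemma c0_lim (x : c0) : Tendsto (fun k => |x k|) atTop (𝓝 0) := by
  have h := x.zero_at_infty'
  rw [cocompact_eq_cofinite, Nat.cofinite_eq_atTop] at h
  simpa using h.abs

/-- functionals on `c0` are small on the tails -/
lemma tail (s : c0 →L[ℝ] ℝ) {η : ℝ} (hη : 0 < η) :
    ∀ᶠ K in atTop, ∀ z : c0, (∀ k ≤ K, z k = 0) → |s z| ≤ η * ‖z‖ := by
  have hs : 0 < ‖s‖ + 1 := by positivity
  obtain ⟨δ, hδ, hδη⟩ : ∃ δ : ℝ, 0 < δ ∧ δ * (‖s‖ + 1) = η :=
    ⟨η / (‖s‖ + 1), by positivity, by field_simp⟩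
  obtain ⟨x0, hx0, hs0⟩ : ∃ x0 : c0, ‖x0‖ ≤ 1 ∧ ‖s‖ - δ < s x0 := by
    obtain ⟨y, hy, hgy⟩ := s.exists_lt_apply_of_lt_opNorm (r := ‖s‖ - δ) (by linarith)
    rcases abs_cases (s y) with h | h
    · exact ⟨y, hy.le, by rw [Real.norm_eq_abs, h.1] at hgy; exact hgy⟩
    · exact ⟨-y, by rw [norm_neg]; exact hy.le, by
        rw [Real.norm_eq_abs, h.1] at hgy; rw [map_neg]; exact hgy⟩
  obtain ⟨K0, hK0⟩ := eventually_atTop.1 ((c0_lim x0).eventually (gt_mem_nhds hδ))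
  filter_upwards [eventually_ge_atTop K0] with K hK
  have key : ∀ z : c0, ‖z‖ ≤ 1 → (∀ k ≤ K, z k = 0) → s z ≤ η := fun z hz hz' => by
    have h1 : ‖x0 + z‖ ≤ 1 + δ := by
      refine norm_le_of _ (by positivity) fun k => ?_
      have h3 := abs_add_le (x0 k) (z k)
      show |x0 k + z k| ≤ _
      by_cases h4 : k ≤ K
      · rw [hz' k h4, add_zero]
        linarith [abs_le_norm x0 k]
      · linarith [hK0 k (by omega), abs_le_norm z k]
    have h2 := s.le_opNorm (x0 + z)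
    rw [map_add, Real.norm_eq_abs] at h2
    have h3 : ‖s‖ * ‖x0 + z‖ ≤ ‖s‖ * (1 + δ) := by gcongr
    nlinarith [le_abs_self (s x0 + s z)]
  intro z hz
  rcases eq_or_ne z 0 with rfl | h0
  · simp
  have hn := norm_pos_iff.2 h0
  have h1 : ∀ c : ℝ, |c| = 1 → c * s z ≤ η * ‖z‖ := fun c hc => by
    have h2 := key ((c * ‖z‖⁻¹) • z) (by
      rw [norm_smul, Real.norm_eq_abs, abs_mul, hc, abs_inv, abs_norm, one_mul,
        inv_mul_cancel₀ hn.ne']) (fun k hk => by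
      show c * ‖z‖⁻¹ * z k = 0
      rw [hz k hk, mul_zero])
    rw [map_smul, smul_eq_mul, mul_right_comm, mul_inv_le_iff₀ hn] at h2
    exact h2
  exact abs_le.2 ⟨by linarith [h1 (-1) (by simp)], by linarith [h1 1 (by simp)]⟩

lemma hs1 (h : l1) : HasSum (fun i => |h i|) ‖h‖ := by
  simpa using lp.hasSum_norm (p := 1) (by norm_num) h

noncomputable def ρ (k : ℕ) (h : l1) : ℝ := ∑' n, if k < n then |h n| else 0

lemma ρ_sum (k : ℕ) (h : l1) : Summable fun n => if k < n then |h n| else 0 :=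
  Summable.of_nonneg_of_le (fun n => by split_ifs <;> simp) (fun n => by split_ifs <;> simp)
    (hs1 h).summable

lemma ρ_nonneg (k : ℕ) (h : l1) : 0 ≤ ρ k h := tsum_nonneg fun n => by split_ifs <;> simp

lemma ρ_le (k : ℕ) (h : l1) : ρ k h ≤ ‖h‖ :=
  hasSum_le (fun n => by split_ifs <;> simp) (ρ_sum k h).hasSum (hs1 h)

lemma ρ_anti {j k : ℕ} (hjk : j ≤ k) (h : l1) : ρ k h ≤ ρ j h :=
  (ρ_sum k h).tsum_le_tsum (fun n => by
    by_cases h1 : k < n
    · rw [if_pos h1, if_pos (by omega)]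
    · rw [if_neg h1]
      split_ifs <;> simp) (ρ_sum j h)

lemma ρ_add (k : ℕ) (g h : l1) : ρ k (g + h) ≤ ρ k g + ρ k h :=
  hasSum_le (fun n => by
    split_ifs
    · exact abs_add_le (g n) (h n)
    · simp) (ρ_sum k _).hasSum ((ρ_sum k g).hasSum.add (ρ_sum k h).hasSum)

lemma ρ_smul (k : ℕ) (c : ℝ) (h : l1) : ρ k (c • h) = |c| * ρ k h := by
  unfold ρ
  rw [← tsum_mul_left]
  refine tsum_congr fun n => ?_
  split_ifs
  · exact abs_mul c (h n)
  · simp

lemma ρ_lim (h : l1) : Tendsto (fun k => ρ k h) atTop (𝓝 0) := by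
  have h1 := tendsto_tsum_of_dominated_convergence (𝓕 := atTop)
    (f := fun (k : ℕ) (n : ℕ) => if k < n then |h n| else 0) (g := fun _ => 0) (hs1 h).summable
    (fun n => by
      refine tendsto_const_nhds.congr' ?_
      filter_upwards [eventually_ge_atTop n] with k hk
      rw [if_neg (by omega)])
    (Eventually.of_forall fun k n => by split_ifs <;> simp)
  rw [tsum_zero] at h1
  exact h1

noncomputable def N (v : V) : ℝ := max ‖v.1‖ (⨆ k, |v.2 k| + ρ k v.1)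

lemma le_N (v : V) (k : ℕ) : |v.2 k| + ρ k v.1 ≤ N v :=
  (le_ciSup (f := fun k => |v.2 k| + ρ k v.1) ⟨‖v.2‖ + ‖v.1‖, by
    rintro _ ⟨k, rfl⟩
    exact add_le_add (abs_le_norm _ _) (ρ_le _ _)⟩ k).trans (le_max_right _ _)

lemma fst_le (v : V) : ‖v.1‖ ≤ N v := le_max_left _ _

lemma snd_le (v : V) : ‖v.2‖ ≤ N v :=
  norm_le_of _ ((norm_nonneg _).trans (fst_le v)) fun k => by linarith [le_N v k, ρ_nonneg k v.1]

lemma N_le {v : V} {C : ℝ} (h1 : ‖v.1‖ ≤ C) (h2 : ∀ k, |v.2 k| + ρ k v.1 ≤ C) : N v ≤ C :=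
  max_le h1 (ciSup_le h2)

theorem space : ∃ (X : Type) (_ : NormedAddCommGroup X) (_ : NormedSpace ℝ X)
    (_ : CompleteSpace X) (e : V ≃L[ℝ] X), ∀ v, ‖e v‖ = N v := by
  refine Renorm.renorm V N (a := 1) (b := 2) one_pos (fun x y => N_le ?_ fun k => ?_)
    (fun c x => ?_) (fun x => ?_) (fun x => N_le ?_ fun k => ?_)
  · exact (norm_add_le _ _).trans (add_le_add (fst_le x) (fst_le y))
  · have h1 : |(x + y).2 k| ≤ |x.2 k| + |y.2 k| := abs_add_le _ _
    have h2 : ρ k (x + y).1 ≤ ρ k x.1 + ρ k y.1 := ρ_add _ _ _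
    linarith [le_N x k, le_N y k]
  · unfold N
    rw [mul_max_of_nonneg _ _ (abs_nonneg c), Real.mul_iSup_of_nonneg (abs_nonneg c),
      Prod.smul_fst, norm_smul, Real.norm_eq_abs]
    congr 2
    funext k
    rw [ρ_smul, mul_add, ← abs_mul]
    rfl
  · rw [one_mul, Prod.norm_def]
    exact max_le (fst_le x) (snd_le x)
  · linarith [norm_fst_le x, norm_nonneg x]
  · linarith [norm_fst_le x, norm_snd_le x, abs_le_norm x.2 k, ρ_le k x.1]

lemma sum_le {c : ℕ → ℝ} {h : l1} {S C : ℝ} (hS : HasSum (fun n => c n * h n) S)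
    (hc : ∀ n, |c n| ≤ C) : |S| ≤ C * ‖h‖ := by
  refine hS.norm_le_of_bounded ((hs1 h).mul_left C) fun n => ?_
  rw [Real.norm_eq_abs, abs_mul]
  exact mul_le_mul_of_nonneg_right (hc n) (abs_nonneg _)

lemma mk_fun (c : ℕ → ℝ) (hc : ∀ n, |c n| ≤ 1) :
    ∃ g : l1 →L[ℝ] ℝ, ∀ h : l1, HasSum (fun n => c n * h n) (g h) := by
  have h3 : ∀ h : l1, Summable fun n => c n * h n := fun h =>
    Summable.of_norm_bounded (hs1 h).summable fun n => by
      rw [Real.norm_eq_abs, abs_mul]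
      exact mul_le_of_le_one_left (abs_nonneg _) (hc n)
  exact ⟨LinearMap.mkContinuous
    { toFun := fun h => ∑' n, c n * h n
      map_add' := fun a b => by
        rw [← (h3 a).tsum_add (h3 b)]
        exact tsum_congr fun i => by simp [mul_add]
      map_smul' := fun r a => by
        rw [RingHom.id_apply, smul_eq_mul, ← tsum_mul_left]
        exact tsum_congr fun i => by simp [mul_left_comm] } 1
    fun h => sum_le (h3 h).hasSum hc, fun h => (h3 h).hasSum⟩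

lemma repr (g : l1 →L[ℝ] ℝ) (h : l1) : HasSum (fun n => g (lp.single 1 n 1) * h n) (g h) := by
  have h1 := (lp.hasSum_single (p := 1) (by norm_num) h).mapL g
  have h2 : (fun n => g (lp.single 1 n 1) * h n) = fun n => g (lp.single 1 n (h n)) := by
    funext n
    rw [mul_comm, ← smul_eq_mul, ← map_smul, ← lp.single_smul, smul_eq_mul, mul_one]
  rw [h2]
  exact h1

/-- unit vectors of `c0` -/
noncomputable def u (k : ℕ) : c0 where
  toFun j := if j = k then 1 else 0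
  continuous_toFun := continuous_of_discreteTopology
  zero_at_infty' := by
    rw [cocompact_eq_cofinite, Nat.cofinite_eq_atTop]
    refine tendsto_const_nhds.congr' ?_
    filter_upwards [eventually_gt_atTop k] with j hj
    rw [if_neg hj.ne']

/-- truncation in `c0` -/
noncomputable def cut (K : ℕ) (t : c0) : c0 where
  toFun j := if j ≤ K then 0 else t j
  continuous_toFun := continuous_of_discreteTopology
  zero_at_infty' := by
    have h := t.zero_at_infty'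
    rw [cocompact_eq_cofinite, Nat.cofinite_eq_atTop] at h ⊢
    refine h.congr' ?_
    filter_upwards [eventually_gt_atTop K] with j hj
    rw [if_neg hj.not_ge]
    rfl

lemma ulim' {Y ι : Type} [NormedAddCommGroup Y] [NormedSpace ℝ Y] (𝒰 : Ultrafilter ι)
    (g : ι → StrongDual ℝ Y) (hg : ∀ k, ‖g k‖ ≤ 1) :
    ∃ g0 : StrongDual ℝ Y, ‖g0‖ ≤ 1 ∧ ∀ x, Tendsto (fun k => g k x) 𝒰 (𝓝 (g0 x)) := by
  have hK := WeakDual.isCompact_closedBall (𝕜 := ℝ) (E := Y) 0 1
  let g' : ι → WeakDual ℝ Y := fun k => StrongDual.toWeakDual (g k)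
  obtain ⟨g0, hg0, h⟩ := hK.ultrafilter_le_nhds (Ultrafilter.map g' 𝒰) (by
    rw [Ultrafilter.coe_map, le_principal_iff, Filter.mem_map]
    refine Filter.Eventually.of_forall fun k => ?_
    simpa [g'] using hg k)
  refine ⟨WeakDual.toStrongDual g0, by simpa using hg0, fun x => ?_⟩
  exact ((WeakDual.eval_continuous x).tendsto g0).comp h

lemma ulim2 (Y : Type) {ι : Type} [NormedAddCommGroup Y] [NormedSpace ℝ Y] (𝒰 : Ultrafilter ι)
    (g : ι → Y) (hg : ∀ k, ‖g k‖ ≤ 1) :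
    ∃ φ : StrongDual ℝ (StrongDual ℝ Y), ‖φ‖ ≤ 1 ∧
      ∀ G : StrongDual ℝ Y, Tendsto (fun k => G (g k)) 𝒰 (𝓝 (φ G)) :=
  ulim' 𝒰 (fun k => NormedSpace.inclusionInDoubleDual ℝ Y (g k))
    fun k => (NormedSpace.double_dual_bound ℝ _ _).trans (hg k)

end Pool.Agent.H5.Asq
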