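import Mathlib

namespace Pool.Agent.H5.BCH

open Finset

def rows : List ℕ :=
  [7866335141753128289042830512937703, 85084266809540450937701980570321166987,
   21135347055539607320201713510704589, 85113022587326808673983013204505472718,
   85154706937370391040605225521846911200, 85241937526563847325947054878363222016,
   85408091026039379661697008219434516480, 668765236571753795526547994670093178,
   1331086828290056008093160635549211219, 2662496677799810303589977223573234645,
   90389007081521201878224872594353632982, 10637326198187168843610561719322201465,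
   106339957772684673145825246051020092284, 42539449732321472368470024572488941312]

def bit (w i : ℕ) : ℕ := if w.testBit i then 1 else 0

def g (j i : ℕ) : ℕ := bit (rows.getD j 0) i

def pc : ℕ → ℕ → ℕ
  | 0, _ => 0
  | n + 1, w => w % 2 + pc n (w / 2)

lemma pc_eq (n : ℕ) : ∀ w, pc n w = ∑ i ∈ range n, bit w i := by
  induction n with
  | zero => intro w; rfl
  | succ n ih =>
    intro w
    rw [pc, ih, sum_range_succ', add_comm]
    congr 1
    · apply sum_congr rfl; intro i _; simp [bit, Nat.testBit_succ]
    · unfold bit; rw [Nat.testBit_zero]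
      rcases Nat.mod_two_eq_zero_or_one w with h | h <;> simp [h]

def chk : List ℕ → ℕ → Bool
  | [], acc => decide (pc 126 acc ≤ 72)
  | r :: rs, acc => chk rs acc && chk rs (acc ^^^ r)

lemma chk_ok : chk rows 0 = true := by decide +kernel

lemma chk_spec (R : List ℕ) : ∀ acc, chk R acc = true → ∀ x : ℕ → ℤ, ∃ w, pc 126 w ≤ 72 ∧
    ∀ i, ((bit w i : ℤ) - bit acc i - ∑ j ∈ range R.length, bit (R.getD j 0) i * x j) % 2 = 0 := by
  induction R with
  | nil => intro acc h x; exact ⟨acc, by simpa [chk] using h, fun i => by simp⟩
  | cons r rs ih =>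
    intro acc h x
    simp only [chk, Bool.and_eq_true] at h
    rcases Int.emod_two_eq_zero_or_one (x 0) with h0 | h0
    · obtain ⟨w, h1, h2⟩ := ih acc h.1 (fun j => x (j + 1))
      refine ⟨w, h1, fun i => ?_⟩
      have := h2 i
      rw [List.length_cons, sum_range_succ']
      simp only [List.getD_cons_succ, List.getD_cons_zero]
      generalize (∑ j ∈ range rs.length, (bit (rs.getD j 0) i : ℤ) * x (j + 1)) = S at *
      unfold bit at *
      split_ifs at * <;> push_cast at * <;> omega
    · obtain ⟨w, h1, h2⟩ := ih _ h.2 (fun j => x (j + 1))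
      refine ⟨w, h1, fun i => ?_⟩
      have := h2 i
      rw [List.length_cons, sum_range_succ']
      simp only [List.getD_cons_succ, List.getD_cons_zero]
      generalize (∑ j ∈ range rs.length, (bit (rs.getD j 0) i : ℤ) * x (j + 1)) = S at *
      unfold bit at *
      rw [Nat.testBit_xor] at this
      revert this
      cases acc.testBit i <;> cases r.testBit i <;> cases w.testBit i <;> simp <;> omega

def pairCode (p : ℕ × ℕ) : ℕ := ∑ j ∈ range 14, 2 ^ j * ((g j p.1 + g j p.2) % 2)

def pairs : List (ℕ × ℕ) := (List.range 128).flatMap fun b => (List.range b).map fun a => (a, b)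

def nd : List ℕ → ℕ → Bool
  | [], _ => true
  | v :: L, acc => !acc.testBit v && nd L (acc ||| 2 ^ v)

lemma nd_spec (L : List ℕ) : ∀ acc, nd L acc = true →
    L.Nodup ∧ ∀ v ∈ L, acc.testBit v = false := by
  induction L with
  | nil => intro _ _; simp
  | cons v L ih =>
    intro acc h
    simp only [nd, Bool.and_eq_true, Bool.not_eq_true'] at h
    obtain ⟨h1, h2⟩ := ih _ h.2
    refine ⟨List.nodup_cons.2 ⟨fun hv => ?_, h1⟩, fun u hu => ?_⟩
    · have := h2 v hv
      simp [Nat.testBit_or] at this
    · rcases List.mem_cons.1 hu with rfl | hu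
      · exact h.1
      · have := h2 u hu
        rw [Nat.testBit_or, Bool.or_eq_false_iff] at this
        exact this.1

lemma nd_ok : nd (pairs.map pairCode) 1 = true := by decide +kernel

lemma mem_pairs {a b : ℕ} (h : a < b) (hb : b < 128) : (a, b) ∈ pairs := by
  simp only [pairs, List.mem_flatMap, List.mem_range, List.mem_map]
  exact ⟨b, hb, a, h, rfl⟩

lemma code_comm (a b : ℕ) : pairCode (a, b) = pairCode (b, a) := by
  simp only [pairCode, add_comm]

lemma code_ne {a b : ℕ} (h : a ≠ b) (ha : a < 128) (hb : b < 128) : pairCode (a, b) ≠ 0 := by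
  have key : ∀ a b, a < b → b < 128 → pairCode (a, b) ≠ 0 := fun a b h hb h0 => by
    have := (nd_spec _ _ nd_ok).2 _ (List.mem_map_of_mem (mem_pairs h hb))
    rw [h0] at this
    exact absurd this (by decide)
  rcases lt_or_gt_of_ne h with h | h
  · exact key a b h hb
  · rw [code_comm]; exact key b a h ha

lemma code_inj {a b c d : ℕ} (h1 : a ≠ b) (h2 : c ≠ d) (ha : a < 128) (hb : b < 128)
    (hc : c < 128) (hd : d < 128) (h : pairCode (a, b) = pairCode (c, d)) : a = c ∨ a = d := by
  have key := List.inj_on_of_nodup_map (nd_spec _ _ nd_ok).1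
  rcases lt_or_gt_of_ne h1 with h1 | h1 <;> rcases lt_or_gt_of_ne h2 with h2 | h2
  · exact Or.inl (congrArg Prod.fst (key (mem_pairs h1 hb) (mem_pairs h2 hd) h))
  · exact Or.inr (congrArg Prod.fst (key (mem_pairs h1 hb) (mem_pairs h2 hc)
      (h.trans (code_comm _ _))))
  · exact Or.inr (congrArg Prod.snd (key (mem_pairs h1 ha) (mem_pairs h2 hd)
      ((code_comm _ _).trans h)))
  · exact Or.inl (congrArg Prod.snd (key (mem_pairs h1 ha) (mem_pairs h2 hc)
      ((code_comm _ _).trans (h.trans (code_comm _ _)))))

lemma g127 : ∀ j < 14, g j 127 = 0 := by decide +kernel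

lemma dual (B : Finset ℕ) (hB : ∀ a ∈ B, a < 127) (hne : B.Nonempty)
    (hev : ∀ j < 14, (∑ a ∈ B, g j a) % 2 = 0) : 5 ≤ B.card := by
  by_contra hlt
  have hpos := hne.card_pos
  have hc : B.card = 1 ∨ B.card = 2 ∨ B.card = 3 ∨ B.card = 4 := by omega
  rcases hc with hc | hc | hc | hc
  · obtain ⟨a, rfl⟩ := card_eq_one.1 hc
    have ha := hB a (by simp)
    refine code_ne (a := a) (b := 127) (by omega) (by omega) (by omega) (sum_eq_zero fun j hj => ?_)
    have := hev j (mem_range.1 hj)
    rw [sum_singleton] at this
    simp [g127 j (mem_range.1 hj), this]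
  · obtain ⟨a, b, hab, rfl⟩ := card_eq_two.1 hc
    have ha := hB a (by simp)
    have hb := hB b (by simp)
    refine code_ne hab (by omega) (by omega) (sum_eq_zero fun j hj => ?_)
    have := hev j (mem_range.1 hj)
    rw [sum_pair hab] at this
    simp [this]
  · obtain ⟨a, b, c, hab, hac, hbc, rfl⟩ := card_eq_three.1 hc
    have ha := hB a (by simp)
    have hb := hB b (by simp)
    have hc := hB c (by simp)
    have := code_inj (a := a) (b := b) (c := c) (d := 127) hab (by omega) (by omega) (by omega)
      (by omega) (by omega) (sum_congr rfl fun j hj => by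
        have := hev j (mem_range.1 hj)
        rw [sum_insert (by simp [hab, hac]), sum_pair hbc] at this
        simp only [g127 j (mem_range.1 hj)]
        congr 1; omega)
    omega
  · obtain ⟨d, T, hd, rfl, hT⟩ := card_eq_succ.1 hc
    obtain ⟨a, b, c, hab, hac, hbc, rfl⟩ := card_eq_three.1 hT
    have ha := hB a (by simp)
    have hb := hB b (by simp)
    have hc := hB c (by simp)
    have hd' := hB d (by simp)
    have hd2 := hd
    simp only [mem_insert, mem_singleton, not_or] at hd2
    have := code_inj (a := a) (b := b) (c := c) (d := d) hab (by omega) (by omega) (by omega)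
      (by omega) (by omega) (sum_congr rfl fun j hj => by
        have := hev j (mem_range.1 hj)
        rw [sum_insert hd, sum_insert (by simp [hab, hac]), sum_pair hbc] at this
        dsimp only
        congr 1; omega)
    omega

end Pool.Agent.H5.BCH
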