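import Mathlib

set_option autoImplicit false

open scoped RealInnerProductSpace
open Metric Set

namespace Pool.Agent.H5.BallCover

variable {H : Type*} [NormedAddCommGroup H] [InnerProductSpace ℝ H]

/-- nested nonempty bounded closed convex sets of a Hilbert space have a common point -/
lemma nested [CompleteSpace H] (K : ℕ → Set H) (hc : ∀ n, IsClosed (K n))
    (hv : ∀ n, Convex ℝ (K n)) (hne : ∀ n, (K n).Nonempty) (hanti : Antitone K)
    (R : ℝ) (hR : ∀ n, ∀ x ∈ K n, ‖x‖ ≤ R) : ∃ x, ∀ n, x ∈ K n := by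
  have h1 : ∀ n, ∃ m ∈ K n, ∀ x ∈ K n, ‖x - m‖ ^ 2 ≤ ‖x‖ ^ 2 - ‖m‖ ^ 2 := by
    intro n
    obtain ⟨m, hm, hmin⟩ :=
      exists_norm_eq_iInf_of_complete_convex (hne n) (hc n).isComplete (hv n) 0
    have hsupp := (norm_eq_iInf_iff_real_inner_le_zero (hv n) hm).1 hmin
    refine ⟨m, hm, fun x hx => ?_⟩
    have h2 := hsupp x hx
    rw [zero_sub, inner_neg_left, inner_sub_right, real_inner_self_eq_norm_sq] at h2
    rw [norm_sub_sq_real, real_inner_comm]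
    linarith
  choose m hm hmin using h1
  have hbdd : BddAbove (Set.range fun n => ‖m n‖ ^ 2) := by
    refine ⟨R ^ 2, ?_⟩
    rintro _ ⟨n, rfl⟩
    have := hR n _ (hm n)
    show ‖m n‖ ^ 2 ≤ R ^ 2
    gcongr
  have hcau : CauchySeq m := by
    rw [Metric.cauchySeq_iff']
    intro ε hε
    have h2 : (⨆ n, ‖m n‖ ^ 2) - ε ^ 2 < ⨆ n, ‖m n‖ ^ 2 := by
      have : 0 < ε ^ 2 := by positivity
      linarith
    obtain ⟨N, hN⟩ := exists_lt_of_lt_ciSup h2
    refine ⟨N, fun n hn => ?_⟩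
    have h3 := hmin N (m n) (hanti hn (hm n))
    have h4 : ‖m n‖ ^ 2 ≤ ⨆ n, ‖m n‖ ^ 2 := le_ciSup hbdd n
    rw [dist_eq_norm]
    have h5 : ‖m n - m N‖ ^ 2 < ε ^ 2 := by linarith
    exact lt_of_pow_lt_pow_left₀ 2 hε.le h5
  obtain ⟨x, hx⟩ := cauchySeq_tendsto_of_complete hcau
  refine ⟨x, fun n => (hc n).mem_of_tendsto hx ?_⟩
  filter_upwards [Filter.eventually_ge_atTop n] with k hk
  exact hanti hk (hm k)

/-- no strictly increasing chain of finite subfamilies with common points -/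
lemma fip [CompleteSpace H] {ι : Type*} (c : ι → H) (r : ι → ℝ)
    (hfin : ∀ x, {k | ‖x - c k‖ ≤ r k}.Finite) (P : Finset ι → Prop)
    (h1 : ∀ J, P J → ∃ x, ∀ j ∈ J, ‖x - c j‖ ≤ r j)
    (h2 : ∀ J, P J → ∃ J', J ⊂ J' ∧ P J') (J0 : Finset ι) : ¬ P J0 := by
  intro h0
  have h3 : ∀ J : {J // P J}, ∃ J' : {J // P J}, J.1 ⊂ J'.1 := fun J => by
    obtain ⟨J', h, h'⟩ := h2 J.1 J.2
    exact ⟨⟨J', h'⟩, h⟩
  choose F hF using h3
  let J : ℕ → {J // P J} := fun n => F^[n] ⟨J0, h0⟩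
  have hJ : ∀ n, (J n).1 ⊂ (J (n + 1)).1 := fun n => by
    have : J (n + 1) = F (J n) := Function.iterate_succ_apply' F n _
    rw [this]; exact hF _
  have hmono : Monotone fun n => (J n).1 := monotone_nat_of_le_succ fun n => (hJ n).subset
  have hcard : ∀ n, n ≤ (J n).1.card := by
    intro n
    induction n with
    | zero => exact Nat.zero_le _
    | succ n ih => exact Nat.succ_le_of_lt (ih.trans_lt (Finset.card_lt_card (hJ n)))
  obtain ⟨j0, hj0⟩ : (J 1).1.Nonempty := Finset.card_pos.1 (hcard 1)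
  obtain ⟨x, hx⟩ := nested (fun n => ⋂ j ∈ (J (n + 1)).1, closedBall (c j) (r j))
    (fun n => isClosed_biInter fun j _ => isClosed_closedBall)
    (fun n => convex_iInter₂ fun j _ => convex_closedBall _ _)
    (fun n => by
      obtain ⟨x, hx⟩ := h1 _ (J (n + 1)).2
      refine ⟨x, ?_⟩
      simp only [mem_iInter, mem_closedBall, dist_eq_norm]
      exact hx)
    (fun n m hnm x hx => by
      simp only [mem_iInter] at hx ⊢
      exact fun j hj => hx j (hmono (Nat.succ_le_succ hnm) hj))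
    (‖c j0‖ + r j0)
    (fun n x hx => by
      simp only [mem_iInter, mem_closedBall, dist_eq_norm] at hx
      have h4 := hx j0 (hmono (Nat.succ_le_succ (Nat.zero_le n)) hj0)
      have h5 : x = (x - c j0) + c j0 := by abel
      have h6 := norm_add_le (x - c j0) (c j0)
      rw [← h5] at h6
      linarith)
  set N := (hfin x).toFinset.card with hN
  have h4 : (J (N + 1)).1 ⊆ (hfin x).toFinset := by
    intro j hj
    have h5 := hx N
    simp only [mem_iInter, mem_closedBall, dist_eq_norm] at h5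
    simpa using h5 j hj
  have h5 := Finset.card_le_card h4
  have h6 := hcard (N + 1)
  omega

lemma orth [CompleteSpace H] (hH : ¬ FiniteDimensional ℝ H) {s : Set H} (hs : s.Finite) :
    ∃ v : H, ‖v‖ = 1 ∧ ∀ e ∈ s, ⟪e, v⟫ = 0 := by
  haveI : FiniteDimensional ℝ (Submodule.span ℝ s) := FiniteDimensional.span_of_finite ℝ hs
  have h1 : (Submodule.span ℝ s)ᗮ ≠ ⊥ := by
    intro h
    rw [Submodule.orthogonal_eq_bot_iff] at h
    apply hH
    have h2 : FiniteDimensional ℝ (⊤ : Submodule ℝ H) := h ▸ inferInstance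
    exact Module.Finite.equiv Submodule.topEquiv
  obtain ⟨u, hu, hu0⟩ := (Submodule.ne_bot_iff _).1 h1
  have hpos : 0 < ‖u‖ := norm_pos_iff.2 hu0
  refine ⟨‖u‖⁻¹ • u, ?_, fun e he => ?_⟩
  · rw [norm_smul, norm_inv, norm_norm, inv_mul_cancel₀ hpos.ne']
  · rw [real_inner_smul_right, (Submodule.mem_orthogonal _ _).1 hu e (Submodule.subset_span he),
      mul_zero]

/-- the affine function attached to a ball -/
noncomputable def aff (c : H) (r : ℝ) (x : H) : ℝ := 2 * ⟪c, x⟫ + (r ^ 2 - ‖c‖ ^ 2)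

lemma aff_eq (c : H) (r : ℝ) (x : H) : aff c r x = ‖x‖ ^ 2 - (‖x - c‖ ^ 2 - r ^ 2) := by
  rw [aff, norm_sub_sq_real, real_inner_comm]; ring

lemma mem_iff_aff (c : H) {r : ℝ} (hr : 0 ≤ r) (x : H) : ‖x - c‖ ≤ r ↔ ‖x‖ ^ 2 ≤ aff c r x := by
  rw [aff_eq, ← pow_le_pow_iff_left₀ (norm_nonneg _) hr two_ne_zero]
  constructor <;> intro h <;> linarith

lemma aff_add (c : H) (r : ℝ) (x v : H) (t : ℝ) :
    aff c r (x + t • v) = aff c r x + 2 * t * ⟪c, v⟫ := by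
  rw [aff, aff, inner_add_right, real_inner_smul_right]; ring

lemma norm_add_orth {x v : H} (hv : ‖v‖ = 1) (h : ⟪x, v⟫ = 0) (t : ℝ) :
    ‖x + t • v‖ ^ 2 = ‖x‖ ^ 2 + t ^ 2 := by
  rw [norm_add_sq_real, real_inner_smul_right, h, norm_smul, hv, mul_one, Real.norm_eq_abs, sq_abs]
  ring

lemma gap {ι : Type*} (f : ι → ℝ) (Q : ι → Prop) {b F0 : ℝ} (hfin : {k | b ≤ f k}.Finite)
    (hb : b < F0) (hQ : ∀ k, Q k → f k < F0) : ∃ F1 < F0, ∀ k, Q k → f k ≤ F1 := by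
  by_cases h : ({k | b ≤ f k} ∩ {k | Q k}).Nonempty
  · obtain ⟨k1, hk1, hmax⟩ := Set.exists_max_image _ f (hfin.inter_of_left {k | Q k}) h
    refine ⟨f k1, hQ k1 hk1.2, fun k hk => ?_⟩
    by_cases h2 : b ≤ f k
    · exact hmax k ⟨h2, hk⟩
    · have h3 : b ≤ f k1 := hk1.1
      linarith [not_le.1 h2]
  · refine ⟨b, hb, fun k hk => ?_⟩
    by_contra h2
    exact h ⟨k, (not_le.1 h2).le, hk⟩

/-- the orthogonal walk in the power diagram ends at a point outside all open balls -/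
lemma walk [CompleteSpace H] (hH : ¬ FiniteDimensional ℝ H) {ι : Type*} (c : ι → H) (r : ι → ℝ)
    (hr : ∀ k, 0 ≤ r k) (hfin : ∀ x, {k | ‖x - c k‖ ≤ r k}.Finite) {E : Set H} (hE : E.Finite)
    {p : H} {k0 : ι} (hp : ‖p‖ ^ 2 < aff (c k0) (r k0) p) :
    ∃ w x : H, ∃ k, w ≠ x ∧ (∀ e ∈ E, ⟪e, w⟫ = ⟪e, p⟫ ∧ ⟪e, x⟫ = ⟪e, p⟫) ∧ ‖p‖ ≤ ‖w‖ ∧ ‖p‖ ≤ ‖x‖ ∧
      (∀ j, aff (c j) (r j) w ≤ ‖w‖ ^ 2) ∧ aff (c k) (r k) w = ‖w‖ ^ 2 ∧
      aff (c k) (r k) x = ‖x‖ ^ 2 ∧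
      ∀ j, aff (c j) (r j) w = ‖w‖ ^ 2 → aff (c j) (r j) x ≤ ‖x‖ ^ 2 := by
  classical
  have hfin' : ∀ x, {k | ‖x‖ ^ 2 ≤ aff (c k) (r k) x}.Finite := fun x => by
    refine (hfin x).subset fun k hk => ?_
    exact (mem_iff_aff (c k) (hr k) x).2 hk
  obtain ⟨k1, hk1, hmax⟩ := Set.exists_max_image _ (fun k => aff (c k) (r k) p) (hfin' p)
    ⟨k0, hp.le⟩
  set F0 := aff (c k1) (r k1) p with hF0
  have hpF : ‖p‖ ^ 2 < F0 := hp.trans_le (hmax k0 hp.le)
  have hle : ∀ k, aff (c k) (r k) p ≤ F0 := fun k => by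
    by_cases h : ‖p‖ ^ 2 ≤ aff (c k) (r k) p
    · exact hmax k h
    · linarith [not_le.1 h]
  have hJfin : ∀ x : H, ‖x‖ ^ 2 < F0 → {k | aff (c k) (r k) x = F0}.Finite := fun x hx =>
    (hfin' x).subset fun k hk => by
      have : aff (c k) (r k) x = F0 := hk
      show ‖x‖ ^ 2 ≤ aff (c k) (r k) x
      linarith
  by_contra hcon
  refine fip c r hfin (fun J => ∃ q : H, (∀ e ∈ E, ⟪e, q⟫ = ⟪e, p⟫) ∧ ‖p‖ ≤ ‖q‖ ∧ ‖q‖ ^ 2 < F0 ∧
    (∀ k, aff (c k) (r k) q ≤ F0) ∧ (∀ k, k ∈ J ↔ aff (c k) (r k) q = F0) ∧ J.Nonempty) ?_ ?_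
    (hJfin p hpF).toFinset ⟨p, fun _ _ => rfl, le_rfl, hpF, hle, fun k => by simp,
      ⟨k1, by simp [hF0]⟩⟩
  · rintro J ⟨q, -, -, hq, -, hJ, -⟩
    refine ⟨q, fun j hj => (mem_iff_aff _ (hr j) _).2 ?_⟩
    rw [(hJ j).1 hj]; exact hq.le
  rintro J ⟨q, hqE, hpq, hq, hqle, hJ, ⟨j0, hj0⟩⟩
  obtain ⟨v, hv, hvo⟩ := orth hH (s := E ∪ {q} ∪ c '' J)
    ((hE.union (finite_singleton q)).union (J.finite_toSet.image c))
  have hvE : ∀ e ∈ E, ⟪e, v⟫ = 0 := fun e he => hvo e (Or.inl (Or.inl he))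
  have hvq : ⟪q, v⟫ = 0 := hvo q (Or.inl (Or.inr rfl))
  have hvJ : ∀ j ∈ J, ⟪c j, v⟫ = 0 := fun j hj => hvo _ (Or.inr ⟨j, hj, rfl⟩)
  set t0 := Real.sqrt (F0 - ‖q‖ ^ 2) with ht0
  have ht0pos : 0 < t0 := Real.sqrt_pos.2 (by linarith)
  have ht0sq : t0 ^ 2 = F0 - ‖q‖ ^ 2 := Real.sq_sqrt (by linarith)
  have hnorm : ∀ (u : H) (t : ℝ), ‖u‖ = 1 → ⟪q, u⟫ = 0 → ‖p‖ ≤ ‖q + t • u‖ := by
    intro u t hu hqu
    refine hpq.trans ?_
    have h1 := norm_add_orth hu hqu t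
    have h2 : ‖q‖ ^ 2 ≤ ‖q + t • u‖ ^ 2 := by rw [h1]; nlinarith [sq_nonneg t]
    exact (pow_le_pow_iff_left₀ (norm_nonneg _) (norm_nonneg _) two_ne_zero).1 h2
  set A : Set ℝ := Icc 0 t0 ∩ {t | ∀ k, aff (c k) (r k) q + 2 * t * ⟪c k, v⟫ ≤ F0} with hA
  have hAc : IsCompact A := by
    refine isCompact_Icc.inter_right ?_
    rw [Set.ofPred_forall]
    exact isClosed_iInter fun k => isClosed_le (by fun_prop) continuous_const
  have hAn : A.Nonempty := ⟨0, ⟨le_rfl, ht0pos.le⟩, fun k => by simpa using hqle k⟩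
  obtain ⟨t1, ht1, hmax1⟩ := hAc.exists_isGreatest hAn
  have ht1le : ∀ k, aff (c k) (r k) (q + t1 • v) ≤ F0 := fun k => by
    rw [aff_add]; exact ht1.2 k
  rcases eq_or_lt_of_le ht1.1.2 with h | h
  · exfalso
    apply hcon
    have hw : ‖q + t1 • v‖ ^ 2 = F0 := by rw [norm_add_orth hv hvq, h, ht0sq]; ring
    obtain ⟨u, hu, huo⟩ := orth hH
      (s := E ∪ {q} ∪ {v} ∪ c '' {k | ‖q + t1 • v‖ ^ 2 ≤ aff (c k) (r k) (q + t1 • v)})
      (((hE.union (finite_singleton q)).union (finite_singleton v)).union ((hfin' _).image c))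
    have huE : ∀ e ∈ E, ⟪e, u⟫ = 0 := fun e he => huo e (Or.inl (Or.inl (Or.inl he)))
    have huq : ⟪q, u⟫ = 0 := huo q (Or.inl (Or.inl (Or.inr rfl)))
    have huv : ⟪v, u⟫ = 0 := huo v (Or.inl (Or.inr rfl))
    have huc : ∀ j, aff (c j) (r j) (q + t1 • v) = ‖q + t1 • v‖ ^ 2 → ⟪c j, u⟫ = 0 :=
      fun j hj => huo _ (Or.inr ⟨j, hj.ge, rfl⟩)
    have hx : ‖q + t1 • u‖ ^ 2 = F0 := by rw [norm_add_orth hu huq, h, ht0sq]; ring
    have hj0w : aff (c j0) (r j0) (q + t1 • v) = ‖q + t1 • v‖ ^ 2 := by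
      rw [aff_add, hvJ j0 hj0, (hJ j0).1 hj0, hw]; ring
    refine ⟨q + t1 • v, q + t1 • u, j0, ?_, ?_, hnorm v t1 hv hvq, hnorm u t1 hu huq, ?_, hj0w,
      ?_, ?_⟩
    · intro heq
      have h1 : t1 • v = t1 • u := add_left_cancel heq
      have h2 : v = u := smul_right_injective H (by rw [h]; exact ht0pos.ne') h1
      rw [h2, real_inner_self_eq_norm_sq, hu] at huv
      norm_num at huv
    · intro e he
      rw [inner_add_right, inner_add_right, real_inner_smul_right, real_inner_smul_right,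
        hvE e he, huE e he, hqE e he]
      simp
    · intro j; rw [hw]; exact ht1le j
    · rw [aff_add, huc j0 hj0w, (hJ j0).1 hj0, hx]; ring
    · intro j hj
      rw [aff_add, huc j hj, hx]
      have := hqle j
      linarith
  · set q' := q + t1 • v with hq'
    have hq'n : ‖q'‖ ^ 2 < F0 := by
      rw [hq', norm_add_orth hv hvq]
      have : t1 ^ 2 < t0 ^ 2 := by
        have := ht1.1.1
        gcongr
      linarith
    have hsub : ∀ j ∈ J, aff (c j) (r j) q' = F0 := fun j hj => by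
      rw [hq', aff_add, hvJ j hj, (hJ j).1 hj]; ring
    refine ⟨(hJfin q' hq'n).toFinset, ?_, q', ?_, hnorm v t1 hv hvq, hq'n, ht1le,
      fun k => by simp, ⟨j0, by simpa using hsub j0 hj0⟩⟩
    · rw [Finset.ssubset_iff_subset_ne]
      refine ⟨fun j hj => by simpa using hsub j hj, fun heq => ?_⟩
      have h1 : ∀ k, k ∉ J → aff (c k) (r k) q' < F0 := by
        intro k hk
        refine lt_of_le_of_ne (ht1le k) fun h2 => hk ?_
        rw [heq]; simpa using h2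
      obtain ⟨F1, hF1, hF1le⟩ := gap (fun k => aff (c k) (r k) q') (fun k => k ∉ J) (hfin' q')
        hq'n h1
      obtain ⟨M, hM⟩ : ∃ M, ∀ k, aff (c k) (r k) (q' + (1 : ℝ) • v) ≤ M := by
        obtain ⟨M, hM⟩ := ((hfin' (q' + (1 : ℝ) • v)).image
          (fun k => aff (c k) (r k) (q' + (1 : ℝ) • v))).bddAbove
        refine ⟨max M (‖q' + (1 : ℝ) • v‖ ^ 2), fun k => ?_⟩
        by_cases h2 : ‖q' + (1 : ℝ) • v‖ ^ 2 ≤ aff (c k) (r k) (q' + (1 : ℝ) • v)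
        · exact (hM ⟨k, h2, rfl⟩).trans (le_max_left _ _)
        · exact (not_le.1 h2).le.trans (le_max_right _ _)
      set s : ℝ := min (min 1 (t0 - t1)) ((F0 - F1) / (|M - F1| + 1)) with hs
      have hs0 : 0 < s := lt_min (lt_min one_pos (by linarith))
        (div_pos (by linarith) (by positivity))
      have hs1 : s ≤ 1 := (min_le_left _ _).trans (min_le_left _ _)
      have hs2 : s ≤ t0 - t1 := (min_le_left _ _).trans (min_le_right _ _)
      have hs3 : s * (|M - F1| + 1) ≤ F0 - F1 := by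
        have : s ≤ (F0 - F1) / (|M - F1| + 1) := min_le_right _ _
        rwa [le_div_iff₀ (by positivity)] at this
      have hmem : t1 + s ∈ A := by
        refine ⟨⟨by linarith [ht1.1.1], by linarith⟩, fun k => ?_⟩
        by_cases hk : k ∈ J
        · rw [hvJ k hk, (hJ k).1 hk]; simp
        · have h2 := hF1le k hk
          have h3 := hM k
          rw [aff_add] at h3
          have h4 : aff (c k) (r k) q' = aff (c k) (r k) q + 2 * t1 * ⟪c k, v⟫ := aff_add _ _ _ _ _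
          have h5 : s * (M - F1) ≤ s * |M - F1| := by gcongr; exact le_abs_self _
          have h6 : s * (aff (c k) (r k) q' + 2 * 1 * ⟪c k, v⟫) ≤ s * M := by gcongr
          have h7 : (1 - s) * aff (c k) (r k) q' ≤ (1 - s) * F1 := by
            gcongr
          nlinarith
      have := hmax1 hmem
      linarith
    · intro e he
      rw [hq', inner_add_right, real_inner_smul_right, hvE e he, hqE e he]; simp

end Pool.Agent.H5.BallCover
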