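import Pool.Agent.H5.BallCover

set_option autoImplicit false

open scoped RealInnerProductSpace
open Metric Set

namespace Pool.Agent.H5.BallCover

variable {H : Type*} [NormedAddCommGroup H] [InnerProductSpace ℝ H]

/-- power of a point with respect to a ball -/
noncomputable def pw (c : H) (r : ℝ) (y : H) : ℝ := ‖y - c‖ ^ 2 - r ^ 2

/-- the inversion with pole `w` -/
noncomputable def iv (w ξ : H) : H := w + (‖ξ‖ ^ 2)⁻¹ • ξ

noncomputable def Phi (c : H) (r : ℝ) (w ξ : H) : ℝ := 1 - 2 * ⟪c - w, ξ⟫ + pw c r w * ‖ξ‖ ^ 2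

lemma pw_nonpos_iff (c : H) {r : ℝ} (hr : 0 ≤ r) (y : H) : pw c r y ≤ 0 ↔ ‖y - c‖ ≤ r := by
  rw [pw, sub_nonpos, pow_le_pow_iff_left₀ (norm_nonneg _) hr two_ne_zero]

lemma pw_nonneg_iff (c : H) {r : ℝ} (hr : 0 ≤ r) (y : H) : 0 ≤ pw c r y ↔ r ≤ ‖y - c‖ := by
  rw [pw, sub_nonneg, pow_le_pow_iff_left₀ hr (norm_nonneg _) two_ne_zero]

lemma iv_id (c : H) (r : ℝ) (w : H) {ξ : H} (hξ : ξ ≠ 0) :
    ‖ξ‖ ^ 2 * pw c r (iv w ξ) = Phi c r w ξ := by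
  have h0 : ‖ξ‖ ≠ 0 := norm_ne_zero_iff.2 hξ
  have h1 : iv w ξ - c = (‖ξ‖ ^ 2)⁻¹ • ξ - (c - w) := by rw [iv]; abel
  rw [pw, h1, norm_sub_sq_real, norm_smul, real_inner_smul_left, Phi, pw, norm_sub_rev w c,
    real_inner_comm, norm_inv, norm_pow, norm_norm]
  field_simp
  ring

lemma norm_iv_sub (w : H) {ξ : H} (hξ : ξ ≠ 0) : ‖iv w ξ - w‖ = ‖ξ‖⁻¹ := by
  have h0 : ‖ξ‖ ≠ 0 := norm_ne_zero_iff.2 hξ
  rw [iv, add_sub_cancel_left, norm_smul, norm_inv, norm_pow, norm_norm]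
  field_simp

lemma iv_inj (w : H) {ξ ζ : H} (hξ : ξ ≠ 0) (hζ : ζ ≠ 0) (h : iv w ξ = iv w ζ) : ξ = ζ := by
  have h1 : ‖ξ‖ = ‖ζ‖ := by
    have h2 := norm_iv_sub w hξ
    rw [h, norm_iv_sub w hζ] at h2
    exact (inv_injective h2).symm
  have h2 : (‖ξ‖ ^ 2)⁻¹ • ξ = (‖ζ‖ ^ 2)⁻¹ • ζ := add_left_cancel h
  rw [h1] at h2
  have h0 : ‖ζ‖ ≠ 0 := norm_ne_zero_iff.2 hζ
  exact smul_right_injective H (by positivity) h2

lemma iv_surj {w x : H} (h : x ≠ w) : ∃ ξ, ξ ≠ 0 ∧ iv w ξ = x := by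
  have h1 : x - w ≠ 0 := sub_ne_zero.2 h
  have h0 : ‖x - w‖ ≠ 0 := norm_ne_zero_iff.2 h1
  refine ⟨(‖x - w‖ ^ 2)⁻¹ • (x - w), smul_ne_zero (by positivity) h1, ?_⟩
  rw [iv, smul_smul, norm_smul, norm_inv, norm_pow, norm_norm]
  have : (((‖x - w‖ ^ 2)⁻¹ * ‖x - w‖) ^ 2)⁻¹ * (‖x - w‖ ^ 2)⁻¹ = 1 := by field_simp
  rw [this, one_smul]; abel

lemma inv_ball (c : H) (r : ℝ) (w ξ : H) (h : 0 < pw c r w) :
    pw c r w * (‖ξ‖ ^ 2 - aff ((pw c r w)⁻¹ • (c - w)) (r / pw c r w) ξ) = Phi c r w ξ := by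
  have h1 : ‖c - w‖ ^ 2 = pw c r w + r ^ 2 := by rw [pw, norm_sub_rev]; ring
  rw [aff, Phi, real_inner_smul_left, norm_smul, mul_pow, h1, norm_inv, Real.norm_of_nonneg h.le]
  field_simp
  ring

lemma sign_nonneg {a b d : ℝ} (ha : 0 < a) (h : a * b = d) : 0 ≤ b ↔ 0 ≤ d := by
  rw [← h, mul_nonneg_iff_of_pos_left ha]

lemma sign_nonpos {a b d : ℝ} (ha : 0 < a) (h : a * b = d) : b ≤ 0 ↔ d ≤ 0 := by
  rw [← h]
  constructor
  · intro hb; nlinarith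
  · intro hb; by_contra hc; push Not at hc; nlinarith [mul_pos ha hc]

lemma sign_zero {a b d : ℝ} (ha : 0 < a) (h : a * b = d) : b = 0 ↔ d = 0 := by
  rw [← h]; simp [ha.ne']

/-- the walk, seen through the inversion at a point outside all open balls -/
lemma step [CompleteSpace H] (hH : ¬ FiniteDimensional ℝ H) {ι : Type*} (c : ι → H) (r : ι → ℝ)
    (hr : ∀ k, 0 ≤ r k) (hfin : ∀ x, {k | ‖x - c k‖ ≤ r k}.Finite) {w : H}
    (hw : ∀ k, 0 ≤ pw (c k) (r k) w) {ξ : H} (hξ : ξ ≠ 0)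
    (hI : ∀ k, pw (c k) (r k) w = 0 → 0 ≤ Phi (c k) (r k) w ξ) {k0 : ι}
    (hk0 : Phi (c k0) (r k0) w ξ < 0) :
    ∃ w' x' : H, ∃ k, w' ≠ x' ∧ ‖w' - w‖ ≤ ‖ξ‖⁻¹ ∧ (∀ j, 0 ≤ pw (c j) (r j) w') ∧
      0 < pw (c k) (r k) w ∧ pw (c k) (r k) w' = 0 ∧ pw (c k) (r k) x' = 0 ∧
      (∀ j, pw (c j) (r j) w' = 0 → 0 ≤ pw (c j) (r j) x') ∧
      (∀ j, pw (c j) (r j) w = 0 → Phi (c j) (r j) w ξ = 0 →
        pw (c j) (r j) w' = 0 ∧ pw (c j) (r j) x' = 0) ∧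
      (∀ j, pw (c j) (r j) w = 0 → 0 < Phi (c j) (r j) w ξ → 0 < pw (c j) (r j) w') := by
  let ι' := {k // 0 < pw (c k) (r k) w}
  let c' : ι' → H := fun k => (pw (c k.1) (r k.1) w)⁻¹ • (c k.1 - w)
  let r' : ι' → ℝ := fun k => r k.1 / pw (c k.1) (r k.1) w
  have hr' : ∀ k, 0 ≤ r' k := fun k => div_nonneg (hr k.1) k.2.le
  have hkey : ∀ (k : ι') (ζ : H), pw (c k.1) (r k.1) w * (‖ζ‖ ^ 2 - aff (c' k) (r' k) ζ) =
      Phi (c k.1) (r k.1) w ζ := fun k ζ => inv_ball _ _ _ _ k.2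
  have hsq : ∀ {ζ : H}, ζ ≠ 0 → 0 < ‖ζ‖ ^ 2 := fun h => by
    have := norm_pos_iff.2 h
    positivity
  have hfin' : ∀ ζ, {k | ‖ζ - c' k‖ ≤ r' k}.Finite := by
    intro ζ
    have h1 : ∀ k : ι', ‖ζ - c' k‖ ≤ r' k → Phi (c k.1) (r k.1) w ζ ≤ 0 := by
      intro k hk
      rw [mem_iff_aff _ (hr' k)] at hk
      exact (sign_nonpos k.2 (hkey k ζ)).1 (by linarith)
    by_cases hζ : ζ = 0
    · refine Set.finite_empty.subset fun k hk => ?_
      have := h1 k hk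
      rw [hζ, Phi] at this
      norm_num at this
    · refine ((hfin (iv w ζ)).preimage (f := (Subtype.val : ι' → ι))
        Subtype.val_injective.injOn).subset fun k hk => ?_
      have h2 := (sign_nonpos (hsq hζ) (iv_id (c k.1) (r k.1) w hζ)).2 (h1 k hk)
      exact (pw_nonpos_iff _ (hr k.1) _).1 h2
  have hk0' : 0 < pw (c k0) (r k0) w := by
    refine lt_of_le_of_ne (hw k0) fun h => ?_
    have := hI k0 h.symm
    linarith
  have hE : ((fun k => c k - w) '' {k | ‖w - c k‖ ≤ r k}).Finite := (hfin w).image _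
  have hp : ‖ξ‖ ^ 2 < aff (c' ⟨k0, hk0'⟩) (r' ⟨k0, hk0'⟩) ξ := by
    by_contra h
    have := (sign_nonneg hk0' (hkey ⟨k0, hk0'⟩ ξ)).1 (by linarith [not_lt.1 h])
    exact absurd hk0 (not_lt.2 this)
  obtain ⟨a, b, k, hab, hEab, ha, hb, h1, h2, h3, h4⟩ := walk hH c' r' hr' hfin' hE hp
  have hξn : 0 < ‖ξ‖ := norm_pos_iff.2 hξ
  have ha0 : a ≠ 0 := norm_pos_iff.1 (hξn.trans_le ha)
  have hb0 : b ≠ 0 := norm_pos_iff.1 (hξn.trans_le hb)
  have hsame : ∀ j, pw (c j) (r j) w = 0 →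
      Phi (c j) (r j) w a = Phi (c j) (r j) w ξ ∧ Phi (c j) (r j) w b = Phi (c j) (r j) w ξ := by
    intro j hj
    have h5 := hEab (c j - w) ⟨j, (pw_nonpos_iff _ (hr j) _).1 hj.le, rfl⟩
    rw [Phi, Phi, Phi, hj, h5.1, h5.2]
    simp
  have hid := fun j => iv_id (c j) (r j) w ha0
  have hid' := fun j => iv_id (c j) (r j) w hb0
  refine ⟨iv w a, iv w b, k.1, fun h => hab (iv_inj w ha0 hb0 h), ?_, ?_, k.2, ?_, ?_, ?_, ?_, ?_⟩
  · rw [norm_iv_sub w ha0]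
    exact inv_anti₀ hξn ha
  · intro j
    rw [sign_nonneg (hsq ha0) (hid j)]
    rcases eq_or_lt_of_le (hw j) with h | h
    · rw [(hsame j h.symm).1]; exact hI j h.symm
    · exact (sign_nonneg h (hkey ⟨j, h⟩ a)).1 (by linarith [h1 ⟨j, h⟩])
  · rw [sign_zero (hsq ha0) (hid k.1)]
    exact (sign_zero k.2 (hkey k a)).1 (by linarith)
  · rw [sign_zero (hsq hb0) (hid' k.1)]
    exact (sign_zero k.2 (hkey k b)).1 (by linarith)
  · intro j hj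
    rw [sign_nonneg (hsq hb0) (hid' j)]
    rcases eq_or_lt_of_le (hw j) with h | h
    · rw [(hsame j h.symm).2]; exact hI j h.symm
    · rw [sign_zero (hsq ha0) (hid j)] at hj
      have h5 := (sign_zero h (hkey ⟨j, h⟩ a)).2 hj
      have h6 := h4 ⟨j, h⟩ (by linarith)
      exact (sign_nonneg h (hkey ⟨j, h⟩ b)).1 (by linarith)
  · intro j hj hj'
    rw [sign_zero (hsq ha0) (hid j), sign_zero (hsq hb0) (hid' j), (hsame j hj).1, (hsame j hj).2]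
    exact ⟨hj', hj'⟩
  · intro j hj hj'
    by_contra h
    have h5 := (sign_nonpos (hsq ha0) (hid j)).1 (not_lt.1 h)
    rw [(hsame j hj).1] at h5
    linarith

/-- balls of radius at least `δ` come arbitrarily close to `w` without containing it -/
def Acc {ι : Type*} (c : ι → H) (r : ι → ℝ) (δ : ℝ) (w : H) : Prop :=
  ∀ ε > 0, ∃ k, δ ≤ r k ∧ r k < ‖w - c k‖ ∧ ‖w - c k‖ < r k + ε

lemma weak_null {ι : Type*} (c : ι → H) (r : ι → ℝ)
    (hfin : ∀ x, {k | ‖x - c k‖ ≤ r k}.Finite) {δ : ℝ} (hδ : 0 < δ) {w : H} (hacc : Acc c r δ w)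
    {B : Set H} (hB : B.Finite) (hB1 : ∀ b ∈ B, ‖b‖ ≤ 1) {η ε : ℝ} (hη : 0 < η) (hε : 0 < ε) :
    ∃ k, δ ≤ r k ∧ r k < ‖w - c k‖ ∧ ‖w - c k‖ < r k + ε ∧
      ∀ b ∈ B, ⟪c k - w, b⟫ ≤ η * ‖w - c k‖ := by
  set s := η * δ with hs
  have hs0 : 0 < s := by positivity
  have hT : (⋃ b ∈ B, {k | ‖(w + s • b) - c k‖ ≤ r k}).Finite := hB.biUnion fun b _ => hfin _
  obtain ⟨ε1, hε1, hε1le⟩ : ∃ ε1 > 0, ∀ k ∈ ⋃ b ∈ B, {k | ‖(w + s • b) - c k‖ ≤ r k},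
      r k < ‖w - c k‖ → ε1 ≤ ‖w - c k‖ - r k := by
    by_cases h : ((⋃ b ∈ B, {k | ‖(w + s • b) - c k‖ ≤ r k}) ∩ {k | r k < ‖w - c k‖}).Nonempty
    · obtain ⟨k1, hk1, hmin⟩ := Set.exists_min_image _ (fun k => ‖w - c k‖ - r k)
        (hT.inter_of_left {k | r k < ‖w - c k‖}) h
      exact ⟨_, sub_pos.2 hk1.2, fun k hk hk' => hmin k ⟨hk, hk'⟩⟩
    · exact ⟨1, one_pos, fun k hk hk' => absurd ⟨k, hk, hk'⟩ h⟩
  obtain ⟨k, h1, h2, h3⟩ := hacc (min ε (min ε1 (s * η / 2)))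
    (lt_min hε (lt_min hε1 (by positivity)))
  have h4 : min ε (min ε1 (s * η / 2)) ≤ ε := min_le_left _ _
  have h5 : min ε (min ε1 (s * η / 2)) ≤ ε1 := (min_le_right _ _).trans (min_le_left _ _)
  have h6 : min ε (min ε1 (s * η / 2)) ≤ s * η / 2 := (min_le_right _ _).trans (min_le_right _ _)
  refine ⟨k, h1, h2, by linarith, fun b hb => ?_⟩
  by_contra hcon
  push Not at hcon
  have hrk : 0 < r k := hδ.trans_le h1
  have h7 : ‖(w + s • b) - c k‖ ≤ r k := by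
    rw [← pw_nonpos_iff _ hrk.le, pw]
    have h8 : w + s • b - c k = s • b - (c k - w) := by abel
    rw [h8, norm_sub_sq_real, real_inner_smul_left, norm_smul, real_inner_comm,
      Real.norm_of_nonneg hs0.le, norm_sub_rev (c k) w]
    set N := ‖w - c k‖ with hN
    have h9 : (s * ‖b‖) ^ 2 ≤ s * η * N := by
      have h10 : ‖b‖ ≤ 1 := hB1 b hb
      calc (s * ‖b‖) ^ 2 ≤ (s * 1) ^ 2 := by gcongr
        _ = s * η * δ := by rw [hs]; ring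
        _ ≤ s * η * N := by gcongr; linarith
    have h10 : N ^ 2 - r k ^ 2 ≤ s * η * N := by
      have h11 : N - r k ≤ s * η / 2 := by linarith
      have h12 : N ^ 2 - r k ^ 2 = (N - r k) * (N + r k) := by ring
      rw [h12]
      calc (N - r k) * (N + r k) ≤ (s * η / 2) * (N + N) := by gcongr
        _ = s * η * N := by ring
    have h11 : s * (η * N) ≤ s * ⟪c k - w, b⟫ := by gcongr
    nlinarith
  have h8 := hε1le k (Set.mem_biUnion hb h7) h2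
  linarith

lemma start [CompleteSpace H] {ι : Type*} (c : ι → H) (r : ι → ℝ)
    (hfin : ∀ x, {k | ‖x - c k‖ ≤ r k}.Finite) {δ : ℝ} (hδ : 0 < δ) {w : H} (hacc : Acc c r δ w)
    {E : Set H} (hE : E.Finite) (ξ0 : H) {R : ℝ} (hR : 0 < R) :
    ∃ ξ : H, ∃ k, R ≤ ‖ξ‖ ∧ (∀ e ∈ E, ⟪e, ξ⟫ = ⟪e, ξ0⟫) ∧ Phi (c k) (r k) w ξ < 0 := by
  set W := Submodule.span ℝ E with hW
  haveI : FiniteDimensional ℝ W := FiniteDimensional.span_of_finite ℝ hE
  set d := Module.finrank ℝ W with hd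
  let b := stdOrthonormalBasis ℝ W
  set T := 1 / δ + 2 * ‖ξ0‖ + 2 * R + 2 with hT
  have hT0 : 0 < T := by positivity
  set η : ℝ := 1 / (2 * (d + 1)) with hη
  have hη0 : 0 < η := by positivity
  set ε : ℝ := 1 / (2 * (‖ξ0‖ + 2 * T) ^ 2 + 1) with hε
  have hε0 : 0 < ε := by positivity
  have hb1 : ∀ i, ‖(b i : H)‖ = 1 := fun i => b.orthonormal.1 i
  obtain ⟨k, h1, h2, h3, h4⟩ := weak_null c r hfin hδ hacc
    (B := Set.range (fun i => (b i : H)) ∪ Set.range (fun i => -(b i : H)))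
    ((finite_range _).union (finite_range _))
    (by
      rintro _ (⟨i, rfl⟩ | ⟨i, rfl⟩)
      · exact (hb1 i).le
      · rw [norm_neg]; exact (hb1 i).le) hη0 hε0
  set n := c k - w with hn
  have hN : ‖w - c k‖ = ‖n‖ := norm_sub_rev _ _
  rw [hN] at h2 h3 h4
  have hrk : 0 < r k := hδ.trans_le h1
  have hn0 : 0 < ‖n‖ := hrk.trans h2
  set Q : H := (W.orthogonalProjectionOnto n : H) with hQ
  have hQn : ‖Q‖ ≤ ‖n‖ / 2 := by
    have h5 : ‖W.orthogonalProjectionOnto n‖ ^ 2 = ∑ i, ⟪b i, W.orthogonalProjectionOnto n⟫ ^ 2 :=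
      (b.sum_sq_inner_right _).symm
    have h6 : ∀ i, ⟪b i, W.orthogonalProjectionOnto n⟫ ^ 2 ≤ (η * ‖n‖) ^ 2 := by
      intro i
      rw [Submodule.inner_orthogonalProjectionOnto_eq_of_mem_left]
      have h7 := h4 _ (Or.inl ⟨i, rfl⟩)
      have h8 := h4 _ (Or.inr ⟨i, rfl⟩)
      rw [inner_neg_right] at h8
      rw [real_inner_comm]
      exact sq_le_sq' (by linarith) h7
    have h7 : ∑ i, ⟪b i, W.orthogonalProjectionOnto n⟫ ^ 2 ≤ d * (η * ‖n‖) ^ 2 := by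
      refine (Finset.sum_le_sum fun i _ => h6 i).trans ?_
      simp [hd]
    have h8 : d * (η * ‖n‖) ^ 2 ≤ (‖n‖ / 2) ^ 2 := by
      have h9 : (d : ℝ) * η ^ 2 ≤ 1 / 4 := by
        rw [hη, div_pow, one_pow, mul_one_div, div_le_div_iff₀ (by positivity) (by positivity)]
        have : (0 : ℝ) ≤ d := Nat.cast_nonneg d
        nlinarith
      calc d * (η * ‖n‖) ^ 2 = (d * η ^ 2) * ‖n‖ ^ 2 := by ring
        _ ≤ (1 / 4) * ‖n‖ ^ 2 := by gcongr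
        _ = (‖n‖ / 2) ^ 2 := by ring
    have h9 : ‖Q‖ ^ 2 ≤ (‖n‖ / 2) ^ 2 := by
      have : ‖Q‖ = ‖W.orthogonalProjectionOnto n‖ := rfl
      rw [this, h5]; linarith
    exact (pow_le_pow_iff_left₀ (norm_nonneg _) (by positivity) two_ne_zero).1 h9
  set v : H := ‖n‖⁻¹ • (n - Q) with hv
  have hvn : ‖v‖ = ‖n‖⁻¹ * ‖n - Q‖ := by rw [hv, norm_smul, norm_inv, norm_norm]
  have hv1 : 1 / 2 ≤ ‖v‖ := by
    rw [hvn, le_inv_mul_iff₀ hn0]
    have := norm_sub_norm_le n Q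
    linarith
  have hv2 : ‖v‖ ≤ 2 := by
    rw [hvn, inv_mul_le_iff₀ hn0]
    have := norm_sub_le n Q
    linarith
  have hnv : ‖n‖ / 2 ≤ ⟪n, v⟫ := by
    rw [hv, real_inner_smul_right, le_inv_mul_iff₀ hn0, inner_sub_right,
      real_inner_self_eq_norm_sq]
    have h5 := real_inner_le_norm n Q
    have h6 : ‖n‖ * ‖Q‖ ≤ ‖n‖ * (‖n‖ / 2) := by gcongr
    nlinarith
  have hTv : ‖T • v‖ = T * ‖v‖ := by rw [norm_smul, Real.norm_of_nonneg hT0.le]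
  refine ⟨ξ0 + T • v, k, ?_, fun e he => ?_, ?_⟩
  · have h5 := norm_sub_norm_le (T • v) (-ξ0)
    rw [sub_neg_eq_add, add_comm, norm_neg, hTv] at h5
    have h6 : T * (1 / 2) ≤ T * ‖v‖ := by gcongr
    have h7 : 0 < 1 / δ := by positivity
    linarith
  · have h5 : n - Q ∈ Wᗮ := Submodule.sub_starProjection_mem_orthogonal n
    rw [inner_add_right, real_inner_smul_right, hv, real_inner_smul_right,
      (Submodule.mem_orthogonal _ _).1 h5 e (Submodule.subset_span he)]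
    simp
  · rw [Phi, ← hn, pw, hN, inner_add_right, real_inner_smul_right]
    have h5 : ‖ξ0 + T • v‖ ≤ ‖ξ0‖ + 2 * T := by
      refine (norm_add_le _ _).trans ?_
      rw [hTv]
      have : T * ‖v‖ ≤ T * 2 := by gcongr
      linarith
    have h6 : ‖n‖ ^ 2 - r k ^ 2 ≤ 2 * ε * ‖n‖ := by
      have h12 : ‖n‖ ^ 2 - r k ^ 2 = (‖n‖ - r k) * (‖n‖ + r k) := by ring
      rw [h12]
      calc (‖n‖ - r k) * (‖n‖ + r k) ≤ ε * (‖n‖ + ‖n‖) := by gcongr; linarith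
        _ = 2 * ε * ‖n‖ := by ring
    have h7 : (‖n‖ ^ 2 - r k ^ 2) * ‖ξ0 + T • v‖ ^ 2 ≤ 2 * ε * ‖n‖ * (‖ξ0‖ + 2 * T) ^ 2 := by
      gcongr
    have h8 : 2 * ε * (‖ξ0‖ + 2 * T) ^ 2 ≤ 1 := by
      rw [hε, mul_one_div, div_mul_eq_mul_div, div_le_one (by positivity)]
      linarith
    have h9 : 2 * ε * ‖n‖ * (‖ξ0‖ + 2 * T) ^ 2 ≤ ‖n‖ := by
      calc 2 * ε * ‖n‖ * (‖ξ0‖ + 2 * T) ^ 2 = (2 * ε * (‖ξ0‖ + 2 * T) ^ 2) * ‖n‖ := by ring
        _ ≤ 1 * ‖n‖ := by gcongr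
        _ = ‖n‖ := one_mul _
    have h10 : -⟪n, ξ0⟫ ≤ ‖n‖ * ‖ξ0‖ := (neg_le_abs _).trans (abs_real_inner_le_norm _ _)
    have h11 : T * (‖n‖ / 2) ≤ T * ⟪n, v⟫ := by gcongr
    have h12 : 1 ≤ 1 / δ * ‖n‖ := by
      rw [one_div, le_inv_mul_iff₀ hδ]; linarith
    have h13 : T * ‖n‖ = 1 / δ * ‖n‖ + 2 * (‖n‖ * ‖ξ0‖) + 2 * (R * ‖n‖) + 2 * ‖n‖ := by
      rw [hT]; ring
    have h14 : 0 < R * ‖n‖ := by positivity
    nlinarith

theorem no_cover [CompleteSpace H] (hH : ¬ FiniteDimensional ℝ H) {ι : Type*} (c : ι → H)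
    (r : ι → ℝ) (hr : ∀ k, 0 < r k) (hcov : ∀ x, ∃ k, ‖x - c k‖ ≤ r k)
    (hfin : ∀ x, {k | ‖x - c k‖ ≤ r k}.Finite) : False := by
  classical
  have hr0 : ∀ k, 0 ≤ r k := fun k => (hr k).le
  set Z : Set H := {x | ∀ k, 0 ≤ pw (c k) (r k) x} with hZ
  have hpc : ∀ k, Continuous (pw (c k) (r k)) := fun k => by
    unfold pw; fun_prop
  have hZc : IsClosed Z := by
    rw [hZ, Set.ofPred_forall]
    exact isClosed_iInter fun k => isClosed_le continuous_const (hpc k)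
  have hZn : Z.Nonempty := by
    obtain ⟨k0, -⟩ := hcov 0
    have hp : ‖c k0‖ ^ 2 < aff (c k0) (r k0) (c k0) := by
      rw [aff_eq]
      have := hr k0
      simp
      positivity
    obtain ⟨w, -, -, -, -, -, -, h, -⟩ := walk hH c r hr0 hfin finite_empty hp
    refine ⟨w, fun k => ?_⟩
    have := h k
    rw [aff_eq] at this
    rw [pw]; linarith
  let Zn : ℕ → Set H := fun n => {z | z ∈ Z ∧ ∃ k, 1 / ((n : ℝ) + 1) ≤ r k ∧ ‖z - c k‖ ≤ r k}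
  haveI : CompleteSpace Z := hZc.completeSpace_coe
  haveI : Nonempty Z := hZn.to_subtype
  obtain ⟨n, z0, hz0⟩ := nonempty_interior_of_iUnion_of_closed
    (f := fun n : ℕ => (Subtype.val : Z → H) ⁻¹' closure (Zn n))
    (fun n => isClosed_closure.preimage continuous_subtype_val)
    (by
      refine Set.eq_univ_of_forall fun z => ?_
      obtain ⟨k, hk⟩ := hcov z.1
      obtain ⟨n, hn⟩ := exists_nat_one_div_lt (hr k)
      exact Set.mem_iUnion.2 ⟨n, subset_closure ⟨z.2, k, hn.le, hk⟩⟩)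
  obtain ⟨ρ, hρ, hball⟩ := Metric.isOpen_iff.1 isOpen_interior z0 hz0
  set δ : ℝ := 1 / ((n : ℝ) + 1) with hδ
  have hδ0 : 0 < δ := by positivity
  have hU : ∀ z ∈ Z, ‖z - z0.1‖ < ρ → z ∈ closure (Zn n) := fun z hz h => by
    have h1 : (⟨z, hz⟩ : Z) ∈ (Subtype.val : Z → H) ⁻¹' closure (Zn n) :=
      interior_subset
        (hball (a := ⟨z, hz⟩) (by rw [mem_ball, Subtype.dist_eq, dist_eq_norm]; exact h))
    exact h1
  have hacc : ∀ z ∈ Z, ‖z - z0.1‖ < ρ → Acc c r δ z := by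
    intro z hz hzρ
    by_contra hcon
    unfold Acc at hcon
    push Not at hcon
    obtain ⟨ε, hε, hcon⟩ := hcon
    set σ := min ε (ρ - ‖z - z0.1‖) with hσ
    have hσ0 : 0 < σ := lt_min hε (by linarith)
    have hV : ∀ y ∈ Z, ‖y - z‖ < σ → ∃ k, pw (c k) (r k) z = 0 ∧ pw (c k) (r k) y ≤ 0 := by
      intro y hy hyz
      have h1 : ‖y - z0.1‖ < ρ := by
        have h2 : y - z0.1 = (y - z) + (z - z0.1) := by abel
        have h3 := norm_add_le (y - z) (z - z0.1)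
        have h4 : σ ≤ ρ - ‖z - z0.1‖ := min_le_right _ _
        rw [h2]; linarith
      have h2 := hU y hy h1
      have h3 : IsClosed (⋃ k ∈ {k | ‖z - c k‖ ≤ r k}, closedBall (c k) (r k)) :=
        (hfin z).isClosed_biUnion fun k _ => isClosed_closedBall
      have h4 : Zn n ∩ ball z σ ⊆ ⋃ k ∈ {k | ‖z - c k‖ ≤ r k}, closedBall (c k) (r k) := by
        rintro u ⟨⟨-, k, hk1, hk2⟩, hu⟩
        rw [mem_ball, dist_eq_norm] at hu
        refine Set.mem_biUnion (x := k) ?_ (by rw [mem_closedBall, dist_eq_norm]; exact hk2)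
        by_contra h5
        have h6 := hcon k hk1 (not_le.1 h5)
        have h7 : z - c k = (u - c k) - (u - z) := by abel
        have h8 := norm_sub_le (u - c k) (u - z)
        have h9 : σ ≤ ε := min_le_left _ _
        rw [h7] at h6
        linarith
      have h5 : y ∈ closure (Zn n ∩ ball z σ) :=
        isOpen_ball.closure_inter ⟨h2, by rw [mem_ball, dist_eq_norm]; exact hyz⟩
      have h6 := h3.closure_subset_iff.2 h4 h5
      simp only [mem_iUnion, mem_closedBall, dist_eq_norm] at h6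
      obtain ⟨k, hk1, hk2⟩ := h6
      exact ⟨k, le_antisymm ((pw_nonpos_iff _ (hr0 k) _).2 hk1) (hz k),
        (pw_nonpos_iff _ (hr0 k) _).2 hk2⟩
    obtain ⟨v, hv, hvo⟩ := orth hH ((hfin z).image fun k => c k - z)
    set ξ := (2 / σ) • v with hξ
    have hξn : ‖ξ‖ = 2 / σ := by
      rw [hξ, norm_smul, hv, mul_one, Real.norm_of_nonneg (by positivity)]
    have hξ0 : ξ ≠ 0 := norm_pos_iff.1 (by rw [hξn]; positivity)
    have hξσ : ‖ξ‖⁻¹ < σ := by rw [hξn, inv_div]; linarith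
    have hsq : 0 < ‖ξ‖ ^ 2 := by rw [hξn]; positivity
    have hPhi : ∀ k, pw (c k) (r k) z = 0 → Phi (c k) (r k) z ξ = 1 := by
      intro k hk
      rw [Phi, hk, hξ, real_inner_smul_right,
        hvo _ ⟨k, (pw_nonpos_iff _ (hr0 k) _).1 hk.le, rfl⟩]
      ring
    have hy : iv z ξ ∉ Z := by
      intro h
      obtain ⟨k, hk1, hk2⟩ := hV _ h (by rw [norm_iv_sub z hξ0]; exact hξσ)
      have := (sign_nonpos hsq (iv_id (c k) (r k) z hξ0)).1 hk2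
      rw [hPhi k hk1] at this
      norm_num at this
    obtain ⟨k0, hk0⟩ : ∃ k0, pw (c k0) (r k0) (iv z ξ) < 0 := by
      by_contra h
      push Not at h
      exact hy h
    have hk0' : Phi (c k0) (r k0) z ξ < 0 := by
      by_contra h
      exact absurd hk0 (not_lt.2 ((sign_nonneg hsq (iv_id (c k0) (r k0) z hξ0)).2 (not_lt.1 h)))
    obtain ⟨w', -, -, -, h1, h2, -, -, -, -, -, h3⟩ := step hH c r hr0 hfin hz hξ0
      (fun k hk => by rw [hPhi k hk]; norm_num) hk0'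
    obtain ⟨k, hk1, hk2⟩ := hV w' h2 (h1.trans_lt hξσ)
    have := h3 k hk1 (by rw [hPhi k hk1]; norm_num)
    linarith
  refine fip c r hfin (fun J => ∃ w x : H, w ∈ Z ∧ ‖w - z0.1‖ < ρ ∧ w ≠ x ∧
    (∀ j ∈ J, pw (c j) (r j) w = 0 ∧ pw (c j) (r j) x = 0) ∧
    ∀ j, pw (c j) (r j) w = 0 → 0 ≤ pw (c j) (r j) x) ?_ ?_ ∅ ?_
  · rintro J ⟨w, x, -, -, -, h, -⟩
    exact ⟨w, fun j hj => (pw_nonpos_iff _ (hr0 j) _).1 (h j hj).1.le⟩
  · rintro J ⟨w, x, hw, hwρ, hwx, hJ, hI⟩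
    obtain ⟨ξ0, hξ0, hx⟩ := iv_surj hwx.symm
    have hsq0 : 0 < ‖ξ0‖ ^ 2 := by
      have := norm_pos_iff.2 hξ0
      positivity
    have hg : 0 < ρ - ‖w - z0.1‖ := by linarith
    obtain ⟨ξ, k0, h1, h2, h3⟩ := start c r hfin hδ0 (hacc w hw hwρ)
      ((hfin w).image fun k => c k - w) ξ0 (R := 2 / (ρ - ‖w - z0.1‖)) (by positivity)
    have hξn : 0 < ‖ξ‖ := lt_of_lt_of_le (by positivity) h1
    have hξ : ξ ≠ 0 := norm_pos_iff.1 hξn
    have hsame : ∀ j, pw (c j) (r j) w = 0 →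
        ‖ξ0‖ ^ 2 * pw (c j) (r j) x = Phi (c j) (r j) w ξ := by
      intro j hj
      rw [← hx, iv_id _ _ _ hξ0, Phi, Phi, hj,
        h2 _ ⟨j, (pw_nonpos_iff _ (hr0 j) _).1 hj.le, rfl⟩]
      ring
    obtain ⟨w', x', k, h4, h5, h6, h7, h8, h9, h10, h11, -⟩ := step hH c r hr0 hfin hw hξ
      (fun j hj => (sign_nonneg hsq0 (hsame j hj)).1 (hI j hj)) h3
    have hkJ : k ∉ J := fun h => by
      have := (hJ k h).1
      linarith
    refine ⟨insert k J, Finset.ssubset_insert hkJ, w', x', h6, ?_, h4, ?_, h10⟩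
    · have h12 : ‖ξ‖⁻¹ ≤ (ρ - ‖w - z0.1‖) / 2 := by
        have := inv_anti₀ (by positivity) h1
        rwa [inv_div] at this
      have h13 : w' - z0.1 = (w' - w) + (w - z0.1) := by abel
      have h14 := norm_add_le (w' - w) (w - z0.1)
      rw [h13]; linarith
    · intro j hj
      rcases Finset.mem_insert.1 hj with rfl | hj
      · exact ⟨h8, h9⟩
      · exact h11 j (hJ j hj).1 ((sign_zero hsq0 (hsame j (hJ j hj).1)).1 (hJ j hj).2)
  · obtain ⟨v, hv, hvo⟩ := orth hH ((hfin z0.1).image fun k => z0.1 - c k)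
    refine ⟨z0.1, z0.1 + (1 : ℝ) • v, z0.2, by simpa using hρ, ?_, by simp, fun j hj => ?_⟩
    · intro h
      have h1 : (1 : ℝ) • v = 0 := by simpa using h
      rw [one_smul] at h1
      rw [h1, norm_zero] at hv
      norm_num at hv
    · have h1 : z0.1 + (1 : ℝ) • v - c j = (z0.1 - c j) + (1 : ℝ) • v := by abel
      have h2 := norm_add_orth hv (hvo _ ⟨j, (pw_nonpos_iff _ (hr0 j) _).1 hj.le, rfl⟩) 1
      rw [pw] at hj ⊢
      rw [h1, h2]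
      linarith

end Pool.Agent.H5.BallCover
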