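import Mathlib

namespace Pool.Agent.H5.Blaschke

open Set MeasureTheory Metric Filter Topology
open scoped Pointwise

abbrev E4 := EuclideanSpace ℝ (Fin 4)

def φ (i : Fin 6) (p : ℝ × ℝ) : ℝ := ![-p.1, -p.2, p.1 + p.2, p.1, p.2, -p.1 - p.2] i

lemma φ_add (i : Fin 6) (p q : ℝ × ℝ) (s : ℝ) : φ i (p + s • q) = φ i p + s * φ i q := by
  fin_cases i <;> simp [φ] <;> ring

lemma φ_cont (i : Fin 6) : Continuous (φ i) := by
  unfold φ
  fin_cases i <;> simp <;> fun_prop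

def A (I : Finset (Fin 6)) (c : Fin 6 → ℝ) : Set (ℝ × ℝ) := {p | ∀ i ∈ I, φ i p ≤ c i}

lemma A_closed (I : Finset (Fin 6)) (c : Fin 6 → ℝ) : IsClosed (A I c) := by
  simp only [A, ofPred_forall]
  exact isClosed_iInter fun i => isClosed_iInter fun _ => isClosed_le (φ_cont i) continuous_const

def f1 (x : E4) : ℝ × ℝ := (x 0, x 1)
def f2 (x : E4) : ℝ × ℝ := (x 2, x 3)

lemma f1_add (x y : E4) (s : ℝ) : f1 (x + s • y) = f1 x + s • f1 y := by simp [f1]
lemma f2_add (x y : E4) (s : ℝ) : f2 (x + s • y) = f2 x + s • f2 y := by simp [f2]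
lemma f1_cont : Continuous f1 := by unfold f1; fun_prop
lemma f2_cont : Continuous f2 := by unfold f2; fun_prop

def Pr (S T : Set (ℝ × ℝ)) : Set E4 := {x | f1 x ∈ S ∧ f2 x ∈ T}

lemma vol_Pr {S T : Set (ℝ × ℝ)} (hS : MeasurableSet S) (hT : MeasurableSet T) :
    volume (Pr S T) = volume S * volume T := by
  have h := (((volume_preserving_finTwoArrow ℝ).prod (volume_preserving_finTwoArrow ℝ)).comp
    ((volume_measurePreserving_sumPiEquivProdPi (fun _ : Fin 2 ⊕ Fin 2 => ℝ)).comp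
      (volume_measurePreserving_piCongrLeft (fun _ : Fin (2 + 2) => ℝ) finSumFinEquiv).symm)).comp
      (PiLp.volume_preserving_ofLp (Fin (2 + 2)))
  have h2 := h.measure_preimage (hS.prod hT).nullMeasurableSet
  rw [Measure.prod_prod] at h2
  exact h2

lemma tri {p q s : ℝ} (h : 0 ≤ p + q + s) {S : Set (ℝ × ℝ)}
    (h1 : ∀ z : ℝ × ℝ, -p < z.1 → -q < z.2 → z.1 + z.2 < s → z ∈ S)
    (h2 : ∀ z ∈ S, -p ≤ z.1 ∧ -q ≤ z.2 ∧ z.1 + z.2 ≤ s) :
    volume S = ENNReal.ofReal ((p + q + s) ^ 2 / 2) := by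
  have hO : volume (regionBetween (fun _ => -q) (fun x => s - x) (Ioo (-p) (s + q))) =
      ENNReal.ofReal ((p + q + s) ^ 2 / 2) := by
    rw [Measure.volume_eq_prod, volume_regionBetween_eq_integral (by simp)
      ((Continuous.integrableOn_Icc (by fun_prop)).mono_set Ioo_subset_Icc_self) measurableSet_Ioo
      (fun x hx => by linarith [hx.2]), ← integral_Ioc_eq_integral_Ioo,
      ← intervalIntegral.integral_of_le (by linarith)]
    congr 1
    simp only [Pi.sub_apply]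
    rw [intervalIntegral.integral_sub (Continuous.intervalIntegrable (by fun_prop) _ _) (by simp),
      intervalIntegral.integral_sub (by simp) (by simp)]
    simp
    ring
  refine le_antisymm ?_ (hO ▸ measure_mono fun z hz => h1 z hz.1.1 hz.2.1 (by linarith [hz.2.2]))
  rw [← hO, Measure.volume_eq_prod, volume_regionBetween_eq_lintegral (by fun_prop) (by fun_prop)
    measurableSet_Ioo, Measure.restrict_congr_set Ioo_ae_eq_Icc, ← lintegral_indicator measurableSet_Icc]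
  have hm : MeasurableSet {z : ℝ × ℝ | -p ≤ z.1 ∧ -q ≤ z.2 ∧ z.1 + z.2 ≤ s} := by measurability
  refine (measure_mono (t := {z : ℝ × ℝ | -p ≤ z.1 ∧ -q ≤ z.2 ∧ z.1 + z.2 ≤ s})
    (fun z hz => h2 z hz)).trans ?_
  rw [Measure.prod_apply hm]
  refine lintegral_mono fun x => ?_
  by_cases hx : x ∈ Icc (-p) (s + q)
  · rw [indicator_of_mem hx]
    refine (measure_mono (t := Icc (-q) (s - x)) fun y hy => ⟨hy.2.1, by linarith [hy.2.2]⟩).trans ?_
    simp
  · refine le_trans (le_of_eq (measure_mono_null (t := ∅) (fun y hy => hx ⟨hy.1, ?_⟩) measure_empty))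
      zero_le
    linarith [hy.2.1, hy.2.2]

noncomputable def aK (c : Fin 6 → ℝ) : ℝ := (c 0 + c 1 + c 2) ^ 2 / 2
noncomputable def aN (c : Fin 6 → ℝ) : ℝ := (c 3 + c 4 + c 5) ^ 2 / 2
noncomputable def aB (c : Fin 6 → ℝ) : ℝ := (c 0 + c 1 + c 2) ^ 2 / 2 - (-c 3 + c 1 + c 2) ^ 2 / 2 -
  (c 0 + -c 4 + c 2) ^ 2 / 2 - (c 0 + c 1 + -c 5) ^ 2 / 2

lemma memK (c : Fin 6 → ℝ) (z : ℝ × ℝ) :
    z ∈ A {0, 1, 2} c ↔ -z.1 ≤ c 0 ∧ -z.2 ≤ c 1 ∧ z.1 + z.2 ≤ c 2 := by simp [A, φ]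

lemma memN (c : Fin 6 → ℝ) (z : ℝ × ℝ) :
    z ∈ A {3, 4, 5} c ↔ z.1 ≤ c 3 ∧ z.2 ≤ c 4 ∧ -z.1 - z.2 ≤ c 5 := by simp [A, φ]

lemma memB (c : Fin 6 → ℝ) (z : ℝ × ℝ) :
    z ∈ A Finset.univ c ↔ -z.1 ≤ c 0 ∧ -z.2 ≤ c 1 ∧ z.1 + z.2 ≤ c 2 ∧ z.1 ≤ c 3 ∧ z.2 ≤ c 4 ∧
      -z.1 - z.2 ≤ c 5 := by simp [A, φ, Fin.forall_fin_succ]

lemma volK {c : Fin 6 → ℝ} (h : 0 ≤ c 0 + c 1 + c 2) :
    volume (A {0, 1, 2} c) = ENNReal.ofReal (aK c) :=
  tri h (fun z a b d => (memK c z).2 ⟨by linarith, by linarith, d.le⟩)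
    (fun z hz => by obtain ⟨a, b, d⟩ := (memK c z).1 hz; exact ⟨by linarith, by linarith, d⟩)

lemma volN {c : Fin 6 → ℝ} (h : 0 ≤ c 3 + c 4 + c 5) :
    volume (A {3, 4, 5} c) = ENNReal.ofReal (aN c) := by
  rw [← Measure.measure_neg]
  exact tri h (fun z a b d => (memN c (-z)).2 ⟨by simp; linarith, by simp; linarith, by simp; linarith⟩)
    (fun z hz => by
      obtain ⟨a, b, d⟩ := (memN c (-z)).1 hz
      simp at a b d
      exact ⟨by linarith, by linarith, by linarith⟩)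

lemma volB {c : Fin 6 → ℝ} (h : ∀ i, 1 / 3 ≤ c i ∧ c i ≤ 2 / 3) :
    volume (A Finset.univ c) = ENNReal.ofReal (aB c) := by
  have h0 := h 0; have h1 := h 1; have h2 := h 2; have h3 := h 3; have h4 := h 4; have h5 := h 5
  let S1 : Set (ℝ × ℝ) := {z | c 3 < z.1 ∧ -z.2 ≤ c 1 ∧ z.1 + z.2 ≤ c 2}
  let S2 : Set (ℝ × ℝ) := {z | -z.1 ≤ c 0 ∧ c 4 < z.2 ∧ z.1 + z.2 ≤ c 2}
  let S3 : Set (ℝ × ℝ) := {z | -z.1 ≤ c 0 ∧ -z.2 ≤ c 1 ∧ z.1 + z.2 < -c 5}
  have v1 : volume S1 = ENNReal.ofReal ((-c 3 + c 1 + c 2) ^ 2 / 2) := tri (by linarith)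
    (fun z a b d => ⟨by linarith, by linarith, d.le⟩)
    (fun z hz => ⟨by linarith [hz.1], by linarith [hz.2.1], hz.2.2⟩)
  have v2 : volume S2 = ENNReal.ofReal ((c 0 + -c 4 + c 2) ^ 2 / 2) := tri (by linarith)
    (fun z a b d => ⟨by linarith, by linarith, d.le⟩)
    (fun z hz => ⟨by linarith [hz.1], by linarith [hz.2.1], hz.2.2⟩)
  have v3 : volume S3 = ENNReal.ofReal ((c 0 + c 1 + -c 5) ^ 2 / 2) := tri (by linarith)
    (fun z a b d => ⟨by linarith, by linarith, d⟩)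
    (fun z hz => ⟨by linarith [hz.1], by linarith [hz.2.1], hz.2.2.le⟩)
  have e : A {0, 1, 2} c = A Finset.univ c ∪ S1 ∪ S2 ∪ S3 := by
    ext z
    simp only [mem_union, memK, memB, S1, S2, S3, mem_ofPred_eq]
    constructor
    · rintro ⟨a, b, d⟩
      rcases lt_or_ge (c 3) z.1 with u | u
      · exact Or.inl (Or.inl (Or.inr ⟨u, b, d⟩))
      rcases lt_or_ge (c 4) z.2 with v | v
      · exact Or.inl (Or.inr ⟨a, v, d⟩)
      rcases lt_or_ge (z.1 + z.2) (-c 5) with w | w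
      · exact Or.inr ⟨a, b, w⟩
      exact Or.inl (Or.inl (Or.inl ⟨a, b, d, u, v, by linarith⟩))
    · rintro (((⟨a, b, d, -⟩ | ⟨a, b, d⟩) | ⟨a, b, d⟩) | ⟨a, b, d⟩) <;>
        exact ⟨by linarith, by linarith, by linarith⟩
  have hv := volK (c := c) (by linarith)
  rw [e, measure_union, measure_union, measure_union, v1, v2, v3] at hv
  · have fin : volume (A Finset.univ c) ≠ ⊤ := by
      intro h
      simp [h] at hv
    rw [← ENNReal.ofReal_toReal fin] at hv ⊢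
    rw [← ENNReal.ofReal_add ENNReal.toReal_nonneg (by positivity),
      ← ENNReal.ofReal_add (by positivity) (by positivity),
      ← ENNReal.ofReal_add (by positivity) (by positivity),
      ENNReal.ofReal_eq_ofReal_iff (by positivity) (by unfold aK; positivity)] at hv
    congr 1
    unfold aK at hv
    unfold aB
    linarith
  · rw [Set.disjoint_left]
    intro z a b
    rw [memB] at a
    linarith [a.2.2.2.1, b.1]
  · simp only [S1]; measurability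
  · rw [Set.disjoint_left]
    rintro z (a | a) b
    · rw [memB] at a
      linarith [a.2.2.2.2.1, b.2.1]
    · linarith [a.1, b.2.1, b.2.2]
  · simp only [S2]; measurability
  · rw [Set.disjoint_left]
    rintro z ((a | a) | a) b
    · rw [memB] at a
      linarith [a.2.2.2.2.2, b.2.2]
    · linarith [a.1, b.2.1, b.2.2]
    · linarith [a.2.1, b.1, b.2.2]
  · simp only [S3]; measurability

lemma pairs (i j : Fin 6) (h : i ≠ j) : (∀ (u : ℝ × ℝ) (t : ℝ), |φ i u| ≤ t → |φ j u| ≤ t → ‖u‖ ≤ 2 * t) ∨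
    ((i : ℕ) = j + 3 ∨ (j : ℕ) = i + 3) ∧ ∀ u, φ j u = -φ i u := by
  by_cases hp : (i : ℕ) = j + 3 ∨ (j : ℕ) = i + 3
  · refine Or.inr ⟨hp, fun u => ?_⟩
    fin_cases i <;> fin_cases j <;> first
      | (exfalso; revert hp; decide)
      | (simp [φ]; done)
      | (simp [φ]; ring)
  · refine Or.inl fun u t => ?_
    fin_cases i <;> fin_cases j <;> first
      | exact absurd rfl h
      | (exfalso; revert hp; decide)
      | (simp only [φ, Prod.norm_def, Real.norm_eq_abs, max_le_iff, abs_le]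
         simp
         intro a b c d
         refine ⟨⟨?_, ?_⟩, ?_, ?_⟩ <;> linarith)

def Cor (I : Finset (Fin 6)) (b : Fin 6 → ℝ) (δ : ℝ) : Set (ℝ × ℝ) :=
  ⋃ p : Fin 6 × Fin 6, {z | p.1 ∈ I ∧ p.2 ∈ I ∧ p.1 ≠ p.2 ∧ |φ p.1 z - b p.1| ≤ δ ∧ |φ p.2 z - b p.2| ≤ δ}

lemma Cor_meas (I : Finset (Fin 6)) (b : Fin 6 → ℝ) (δ : ℝ) : MeasurableSet (Cor I b δ) := by
  refine MeasurableSet.iUnion fun p => ?_
  have := (φ_cont p.1).measurable
  have := (φ_cont p.2).measurable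
  measurability

lemma vol_Cor {I : Finset (Fin 6)} {b : Fin 6 → ℝ} {δ : ℝ} (h0 : 0 ≤ δ) (h1 : δ ≤ 1 / 20)
    (hb : ∀ i ∈ I, ∀ j ∈ I, (i : ℕ) = j + 3 → 1 / 2 ≤ b i + b j) :
    volume (Cor I b δ) ≤ ENNReal.ofReal (36 * (8 * δ) ^ 2) := by
  refine (measure_iUnion_fintype_le _ _).trans ((Finset.sum_le_sum (g := fun _ =>
    ENNReal.ofReal ((8 * δ) ^ 2)) fun p _ => ?_).trans (le_of_eq ?_))
  · rcases Set.eq_empty_or_nonempty {z | p.1 ∈ I ∧ p.2 ∈ I ∧ p.1 ≠ p.2 ∧ |φ p.1 z - b p.1| ≤ δ ∧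
      |φ p.2 z - b p.2| ≤ δ} with h | ⟨v, v1, v2, v3, v4, v5⟩
    · rw [h]; simp
    rcases pairs p.1 p.2 v3 with h | ⟨h, h'⟩
    · refine (measure_mono (t := closedBall v (4 * δ)) ?_).trans (le_of_eq ?_)
      · rintro z ⟨-, -, -, z4, z5⟩
        rw [mem_closedBall, dist_eq_norm, show z - v = z + (-1 : ℝ) • v by module]
        rw [abs_le] at v4 v5 z4 z5
        refine (h _ (2 * δ) ?_ ?_).trans (by linarith) <;> rw [φ_add, abs_le] <;> constructor <;>
          linarith [v4.1, v4.2, v5.1, v5.2, z4.1, z4.2, z5.1, z5.2]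
      · rw [← closedBall_prod_same, Measure.volume_eq_prod, Measure.prod_prod, Real.volume_closedBall,
          Real.volume_closedBall, ← ENNReal.ofReal_mul (by positivity)]
        congr 1
        ring
    · exfalso
      rw [h', abs_le] at v5
      rw [abs_le] at v4
      rcases h with h | h
      · linarith [hb _ v1 _ v2 h, v4.1, v5.1]
      · linarith [hb _ v2 _ v1 h, v4.1, v5.1]
  · rw [ENNReal.ofReal_mul (by norm_num)]
    simp

lemma squeeze {e E : ℝ → ℝ} (hE : HasDerivAt E 0 0) (hE0 : E 0 = 0)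
    (h : ∀ᶠ ε in 𝓝[Ici 0] (0 : ℝ), |e ε| ≤ E ε) : HasDerivWithinAt e 0 (Ici 0) 0 := by
  have h0 : e 0 = 0 := by
    have := h.self_of_nhdsWithin self_mem_Ici
    rw [hE0] at this
    exact abs_nonpos_iff.1 this
  have h1 := hE.hasDerivWithinAt (s := Ici 0)
  rw [hasDerivWithinAt_iff_isLittleO] at h1 ⊢
  simp only [hE0, h0, sub_zero, smul_zero] at h1 ⊢
  exact (Asymptotics.IsBigO.of_bound 1 (h.mono fun ε hε => by
    simpa using hε.trans (le_abs_self _))).trans_isLittleO h1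

lemma main {I : Finset (Fin 6)} {b : Fin 6 → ℝ} {a : (Fin 6 → ℝ) → ℝ} (ha : Differentiable ℝ a)
    (hvol : ∀ c : Fin 6 → ℝ, (∀ i, |c i - b i| ≤ 1 / 20) →
      volume (A I c) = ENNReal.ofReal (a c) ∧ 0 ≤ a c)
    (hb : ∀ i ∈ I, ∀ j ∈ I, (i : ℕ) = j + 3 → 1 / 2 ≤ b i + b j)
    {L : Set E4} {h1 h2 : Fin 6 → ℝ} {C : ℝ} (hC : 0 < C)
    (u1 : ∀ i, ∃ l ∈ L, φ i (f1 l) = h1 i) (u2 : ∀ i, ∃ l ∈ L, φ i (f2 l) = h2 i)
    (w1 : ∀ i, ∀ l ∈ L, φ i (f1 l) ≤ h1 i) (w2 : ∀ i, ∀ l ∈ L, φ i (f2 l) ≤ h2 i)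
    (z1 : ∀ i, ∀ l ∈ L, |φ i (f1 l)| ≤ C) (z2 : ∀ i, ∀ l ∈ L, |φ i (f2 l)| ≤ C) :
    HasDerivWithinAt (fun ε : ℝ => (volume (Pr (A I b) (A I b) + ε • L)).toReal -
      a (b + ε • h1) * a (b + ε • h2)) 0 (Ici 0) 0 := by
  have d1 : ∀ h : Fin 6 → ℝ, DifferentiableAt ℝ (fun ε : ℝ => a (b + ε • h)) 0 := fun h =>
    (ha.comp (by fun_prop : Differentiable ℝ fun ε : ℝ => b + ε • h)).differentiableAt
  let m : Fin 6 → ℝ := fun _ => -C
  refine squeeze (E := fun ε => (36 * (8 * C) ^ 2 * ε) * (ε * (a (b + ε • h1) + a (b + ε • h2))) +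
    (a (b + ε • h1) - a (b + ε • m)) * (a (b + ε • h2) - a (b + ε • m))) ?_ (by simp) ?_
  · have k1 := (((hasDerivAt_id (0 : ℝ)).const_mul (36 * (8 * C) ^ 2)).mul
      (differentiableAt_id.mul ((d1 h1).add (d1 h2))).hasDerivAt).add
      (((d1 h1).sub (d1 m)).hasDerivAt.mul ((d1 h2).sub (d1 m)).hasDerivAt)
    simp only [id, mul_zero, zero_mul, Pi.mul_apply, Pi.sub_apply, zero_smul, add_zero, sub_self] at k1
    exact k1
  have hev : ∀ᶠ ε in 𝓝[Ici 0] (0 : ℝ), ε * C ≤ 1 / 20 := by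
    refine Filter.Eventually.filter_mono nhdsWithin_le_nhds ?_
    have : ContinuousAt (fun ε : ℝ => ε * C) 0 := by fun_prop
    exact (this.eventually_lt (continuousAt_const (y := 1 / 20)) (by norm_num)).mono fun _ h => h.le
  filter_upwards [hev, self_mem_nhdsWithin] with ε hε hε0
  have hε0 : 0 ≤ ε := hε0
  have hh : ∀ {h : Fin 6 → ℝ}, (∀ i, |h i| ≤ C) → ∀ i, |(b + ε • h) i - b i| ≤ 1 / 20 := fun hh i => by
    simp only [Pi.add_apply, Pi.smul_apply, smul_eq_mul, add_sub_cancel_left, abs_mul, abs_of_nonneg hε0]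
    exact (mul_le_mul_of_nonneg_left (hh i) hε0).trans hε
  have b1 : ∀ i, |h1 i| ≤ C := fun i => by obtain ⟨l, hl, e⟩ := u1 i; exact e ▸ z1 i l hl
  have b2 : ∀ i, |h2 i| ≤ C := fun i => by obtain ⟨l, hl, e⟩ := u2 i; exact e ▸ z2 i l hl
  obtain ⟨v1, p1⟩ := hvol _ (hh b1)
  obtain ⟨v2, p2⟩ := hvol _ (hh b2)
  obtain ⟨v3, p3⟩ := hvol _ (hh (h := m) fun i => by simp [m, abs_of_pos hC])
  have mA := fun c => (A_closed I c).measurableSet
  have s1 : ∀ {h : Fin 6 → ℝ}, (∀ i, |h i| ≤ C) → A I (b + ε • m) ⊆ A I (b + ε • h) := by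
    intro h hh z hz i hi
    refine (hz i hi).trans ?_
    simp only [Pi.add_apply, Pi.smul_apply, smul_eq_mul, m]
    nlinarith [(abs_le.1 (hh i)).1]
  have up : Pr (A I b) (A I b) + ε • L ⊆ Pr (A I (b + ε • h1)) (A I (b + ε • h2)) := by
    rintro _ ⟨x, ⟨x1, x2⟩, _, ⟨l, hl, rfl⟩, rfl⟩
    refine ⟨fun i hi => ?_, fun i hi => ?_⟩
    · simp only [f1_add, φ_add, Pi.add_apply, Pi.smul_apply, smul_eq_mul]
      nlinarith [x1 i hi, w1 i l hl]
    · simp only [f2_add, φ_add, Pi.add_apply, Pi.smul_apply, smul_eq_mul]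
      nlinarith [x2 i hi, w2 i l hl]
  have low : Pr (A I (b + ε • h1)) (A I (b + ε • h2)) ⊆ (Pr (A I b) (A I b) + ε • L) ∪
      Pr (A I (b + ε • h1)) (Cor I b (ε * C)) ∪ Pr (Cor I b (ε * C)) (A I (b + ε • h2)) ∪
      Pr (A I (b + ε • h1) \ A I (b + ε • m)) (A I (b + ε • h2) \ A I (b + ε • m)) := by
    rintro x ⟨x1, x2⟩
    by_contra hc
    simp only [mem_union, not_or] at hc
    obtain ⟨⟨⟨c0, c2⟩, c1⟩, c3⟩ := hc
    have key : ∀ {h : Fin 6 → ℝ} {z : ℝ × ℝ}, (∀ i, |h i| ≤ C) → z ∈ A I (b + ε • h) →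
        z ∉ Cor I b (ε * C) → ∃ i, ∀ j ∈ I, j ≠ i → φ j z ≤ b j - ε * C := by
      intro h z hh hz hn
      by_contra hc
      push Not at hc
      obtain ⟨i, hi, -, hi'⟩ := hc 0
      obtain ⟨j, hj, hji, hj'⟩ := hc i
      have q : ∀ k ∈ I, φ k z - b k ≤ ε * C := fun k hk => by
        have := hz k hk
        simp only [Pi.add_apply, Pi.smul_apply, smul_eq_mul] at this
        nlinarith [(abs_le.1 (hh k)).2]
      exact hn (mem_iUnion.2 ⟨(j, i), hj, hi, hji, abs_le.2 ⟨by linarith, q j hj⟩,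
        abs_le.2 ⟨by linarith, q i hi⟩⟩)
    have fin : ∀ l ∈ L, (∀ i ∈ I, φ i (f1 x) ≤ b i + ε * φ i (f1 l)) →
        (∀ i ∈ I, φ i (f2 x) ≤ b i + ε * φ i (f2 l)) → False := by
      intro l hl k1 k2
      refine c0 ⟨x + (-ε) • l, ⟨fun i hi => ?_, fun i hi => ?_⟩, ε • l, ⟨l, hl, rfl⟩, by module⟩
      · rw [f1_add, φ_add]; linarith [k1 i hi]
      · rw [f2_add, φ_add]; linarith [k2 i hi]
    have far : ∀ {t s : ℝ}, |s| ≤ C → t ≤ -(ε * C) → t ≤ ε * s := fun hs ht => by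
      nlinarith [(abs_le.1 hs).1]
    by_cases y1 : f1 x ∈ A I (b + ε • m)
    · obtain ⟨i, hi⟩ := key b2 x2 (fun h => c2 ⟨x1, h⟩)
      obtain ⟨l, hl, e⟩ := u2 i
      refine fin l hl (fun j hj => ?_) (fun j hj => ?_)
      · have := y1 j hj
        simp only [Pi.add_apply, Pi.smul_apply, smul_eq_mul, m] at this
        linarith [far (t := φ j (f1 x) - b j) (z1 j l hl) (by linarith)]
      · rcases eq_or_ne j i with rfl | hne
        · simpa [e] using x2 j hj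
        · linarith [far (t := φ j (f2 x) - b j) (z2 j l hl) (by linarith [hi j hj hne])]
    · have y2 : f2 x ∈ A I (b + ε • m) := by
        by_contra y2
        exact c3 ⟨⟨x1, y1⟩, x2, y2⟩
      obtain ⟨i, hi⟩ := key b1 x1 (fun h => c1 ⟨h, x2⟩)
      obtain ⟨l, hl, e⟩ := u1 i
      refine fin l hl (fun j hj => ?_) (fun j hj => ?_)
      · rcases eq_or_ne j i with rfl | hne
        · simpa [e] using x1 j hj
        · linarith [far (t := φ j (f1 x) - b j) (z1 j l hl) (by linarith [hi j hj hne])]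
      · have := y2 j hj
        simp only [Pi.add_apply, Pi.smul_apply, smul_eq_mul, m] at this
        linarith [far (t := φ j (f2 x) - b j) (z2 j l hl) (by linarith)]
  have vc := vol_Cor (I := I) (b := b) (mul_nonneg hε0 hC.le) hε hb
  have vQ : volume (Pr (A I (b + ε • h1)) (A I (b + ε • h2))) =
      ENNReal.ofReal (a (b + ε • h1) * a (b + ε • h2)) := by
    rw [vol_Pr (mA _) (mA _), v1, v2, ENNReal.ofReal_mul p1]
  have hup := measure_mono (μ := volume) up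
  rw [vQ] at hup
  have fin : volume (Pr (A I b) (A I b) + ε • L) ≠ ⊤ := (hup.trans_lt ENNReal.ofReal_lt_top).ne
  have q1 : a (b + ε • m) ≤ a (b + ε • h1) := by
    rw [← ENNReal.ofReal_le_ofReal_iff p1, ← v1, ← v3]; exact measure_mono (s1 b1)
  have q2 : a (b + ε • m) ≤ a (b + ε • h2) := by
    rw [← ENNReal.ofReal_le_ofReal_iff p2, ← v2, ← v3]; exact measure_mono (s1 b2)
  have hlow := (measure_mono (μ := volume) low).trans ((measure_union_le _ _).trans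
    (add_le_add_left ((measure_union_le _ _).trans (add_le_add_left (measure_union_le _ _) _)) _))
  rw [vQ, vol_Pr (mA _) (Cor_meas _ _ _), vol_Pr (Cor_meas _ _ _) (mA _),
    vol_Pr ((mA _).diff (mA _)) ((mA _).diff (mA _)),
    measure_sdiff (s1 b1) (mA _).nullMeasurableSet (by rw [v3]; simp),
    measure_sdiff (s1 b2) (mA _).nullMeasurableSet (by rw [v3]; simp), v1, v2, v3,
    ← ENNReal.ofReal_sub _ p3, ← ENNReal.ofReal_sub _ p3, ← ENNReal.ofReal_mul (by linarith),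
    ← ENNReal.ofReal_toReal fin] at hlow
  have hlow2 := hlow.trans (add_le_add_left (add_le_add (add_le_add_right
    (mul_le_mul_right vc _) _) (mul_le_mul_left vc _)) _)
  have r1 := mul_nonneg (sub_nonneg.2 q1) (sub_nonneg.2 q2)
  rw [← ENNReal.ofReal_mul p1, ← ENNReal.ofReal_mul (by positivity),
    ← ENNReal.ofReal_add ENNReal.toReal_nonneg (by positivity),
    ← ENNReal.ofReal_add (by positivity) (by positivity),
    ← ENNReal.ofReal_add (by positivity) r1,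
    ENNReal.ofReal_le_ofReal_iff (by positivity)] at hlow2
  have hup2 := ENNReal.toReal_le_of_le_ofReal (mul_nonneg p1 p2) hup
  rw [abs_of_nonpos (by linarith)]
  nlinarith

end Pool.Agent.H5.Blaschke
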