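import Mathlib

set_option autoImplicit false

namespace Pool.Agent.H5.CcsCore

open scoped Topology
open Filter Metric Set RCLike

variable {𝕜 : Type} [RCLike 𝕜] {X : Type*} [NormedAddCommGroup X] [NormedSpace 𝕜 X]

/-- averaged far points in finitely many slices around `x` -/
def Avg (𝕜 : Type) [RCLike 𝕜] {X : Type*} [NormedAddCommGroup X] [NormedSpace 𝕜 X] (x : X) :
    Prop :=
  ∀ (n : ℕ), 0 < n → ∀ (f : Fin n → StrongDual 𝕜 X) (δ η : ℝ), 0 < δ → 0 < η →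
    ∃ y : Fin n → X, (∀ i, ‖y i‖ ≤ 1 ∧ re (f i x) - δ < re (f i (y i))) ∧
      2 - η < ‖x - ∑ i, (((n : ℝ)⁻¹ : ℝ) : 𝕜) • y i‖

theorem core {E : Type*} [NormedAddCommGroup E] [NormedSpace 𝕜 E] [FiniteDimensional 𝕜 E]
    (R : X →L[𝕜] E) {x : X} (hx : ‖x‖ = 1) (h : Avg 𝕜 x) {ε η : ℝ} (hε : 0 < ε) (hη : 0 < η) :
    ∃ y : X, ‖y‖ ≤ 1 ∧ ‖R (x - y)‖ < ε ∧ 2 - η < ‖x - y‖ := by
  letI := NormedSpace.restrictScalars ℝ 𝕜 E
  haveI : IsScalarTower ℝ 𝕜 E := IsScalarTower.restrictScalars ℝ 𝕜 E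
  letI := NormedSpace.restrictScalars ℝ 𝕜 X
  haveI : IsScalarTower ℝ 𝕜 X := IsScalarTower.restrictScalars ℝ 𝕜 X
  haveI := FiniteDimensional.proper_rclike 𝕜 (StrongDual 𝕜 E)
  obtain ⟨δ, hδ, hδε⟩ : ∃ δ : ℝ, 0 < δ ∧ δ * (2 * ‖R‖ + 1) = ε :=
    ⟨ε / (2 * ‖R‖ + 1), by positivity, by field_simp⟩
  obtain ⟨t, ht, hc⟩ := Metric.totallyBounded_iff.1
    (isCompact_closedBall (0 : StrongDual 𝕜 E) 1).totallyBounded δ hδ
  obtain ⟨n, c, -, rfl⟩ := ht.fin_param
  have hn : 0 < n := by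
    obtain ⟨_, ⟨i, rfl⟩, -⟩ := mem_iUnion₂.1 (hc (mem_closedBall_self zero_le_one))
    exact i.pos
  have hn' : (0 : ℝ) < n := by exact_mod_cast hn
  obtain ⟨y, hy, hf⟩ := h n hn (fun i => (c i).comp R) δ (η / n) hδ (by positivity)
  have hd : ∀ i, ‖x - y i‖ ≤ 2 := fun i => by linarith [norm_sub_le x (y i), (hy i).1]
  by_contra! hcon
  let L := Fintype.linearCombination ℝ fun i => R (x - y i)
  have hdis : Disjoint (ball (0 : E) ε) (L '' stdSimplex ℝ (Fin n)) := by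
    rw [disjoint_right]
    rintro _ ⟨m, hm, rfl⟩ hb
    have e0 : x - ∑ i, m i • y i = ∑ i, m i • (x - y i) := by
      simp only [smul_sub, Finset.sum_sub_distrib, ← Finset.sum_smul, hm.2, one_smul]
    have h1 := hcon (∑ i, m i • y i) ((norm_sum_le _ _).trans (by
      rw [← hm.2]
      refine Finset.sum_le_sum fun i _ => ?_
      rw [norm_smul, Real.norm_of_nonneg (hm.1 i)]
      exact mul_le_of_le_one_right (hm.1 i) (hy i).1)) (by
      rw [e0, map_sum]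
      simpa [L, Fintype.linearCombination_apply] using hb)
    have e1 : (n : ℝ) • (x - ∑ i, (((n : ℝ)⁻¹ : ℝ) : 𝕜) • y i) =
        (x - ∑ i, m i • y i) + ∑ i, (1 - m i) • (x - y i) := by
      rw [e0, ← Finset.sum_add_distrib, smul_sub, Finset.smul_sum]
      simp only [← add_smul, add_sub_cancel, one_smul, ← real_smul_eq_coe_smul, smul_smul,
        mul_inv_cancel₀ hn'.ne', Finset.sum_sub_distrib, Finset.sum_const, Finset.card_fin,
        Nat.cast_smul_eq_nsmul]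
    have h2 : ‖∑ i, (1 - m i) • (x - y i)‖ ≤ (n - 1) * 2 := by
      refine (norm_sum_le _ _).trans ((Finset.sum_le_sum (g := fun i => (1 - m i) * 2)
        fun i _ => ?_).trans (le_of_eq ?_))
      · have := sub_nonneg.2 (mem_Icc_of_mem_stdSimplex hm i).2
        rw [norm_smul, Real.norm_of_nonneg this]
        exact mul_le_mul_of_nonneg_left (hd i) this
      · rw [← Finset.sum_mul, Finset.sum_sub_distrib, hm.2]
        simp
    have h3 := congrArg norm e1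
    rw [norm_smul, Real.norm_of_nonneg hn'.le] at h3
    have h4 := mul_lt_mul_of_pos_left hf hn'
    rw [mul_sub, mul_div_cancel₀ _ hn'.ne', h3] at h4
    linarith [norm_add_le (x - ∑ i, m i • y i) (∑ i, (1 - m i) • (x - y i))]
  obtain ⟨g, u, hg1, hg2⟩ := RCLike.geometric_hahn_banach_open (𝕜 := 𝕜) (convex_ball _ _)
    isOpen_ball ((convex_stdSimplex ℝ _).linear_image L) hdis
  have hu : 0 < u := by simpa using hg1 0 (mem_ball_self hε)
  have hg3 : ∀ i, u ≤ re (g (R (x - y i))) := fun i =>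
    hg2 _ ⟨_, single_mem_stdSimplex ℝ i, by simp [L]⟩
  have hg4 : ‖g‖ ≤ u / ε := by
    have h1 : closedBall (0 : E) ε ⊆ {a | re (g a) ≤ u} := by
      rw [← closure_ball _ hε.ne']
      exact closure_minimal (fun a ha => (hg1 a ha).le)
        (isClosed_le (continuous_re.comp g.continuous) continuous_const)
    refine ContinuousLinearMap.opNorm_le_of_unit_norm (by positivity) fun a ha => ?_
    obtain ⟨s, hs, hs'⟩ := exists_norm_eq_mul_self (g a)
    have h2 : re (g (((ε : ℝ) : 𝕜) • s • a)) ≤ u := h1 (by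
      rw [mem_closedBall_zero_iff, norm_smul, norm_smul, hs, ha, norm_ofReal, abs_of_pos hε]
      linarith)
    rw [map_smul g, map_smul g, smul_eq_mul, smul_eq_mul, ← hs', re_ofReal_mul, ofReal_re] at h2
    rw [le_div_iff₀ hε]
    linarith
  have hp : 0 < u / ε := by positivity
  obtain ⟨_, ⟨i, rfl⟩, hi⟩ := mem_iUnion₂.1 (hc (show (((u / ε)⁻¹ : ℝ) : 𝕜) • g ∈ closedBall 0 1 by
    rw [mem_closedBall_zero_iff, norm_smul, norm_ofReal, abs_of_pos (inv_pos.2 hp)]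
    exact inv_mul_le_one_of_le₀ hg4 hp.le))
  rw [mem_ball, dist_eq_norm] at hi
  have k1 := (((((u / ε)⁻¹ : ℝ) : 𝕜) • g - c i).le_opNorm (R (x - y i))).trans
    (mul_le_mul hi.le ((R.le_opNorm _).trans (mul_le_mul_of_nonneg_left (hd i) (norm_nonneg _)))
      (norm_nonneg _) hδ.le)
  have k2 := (re_le_norm _).trans k1
  rw [sub_apply, map_sub, smul_apply, smul_eq_mul,
    re_ofReal_mul] at k2
  have k3 : ε ≤ (u / ε)⁻¹ * re (g (R (x - y i))) := by
    rw [le_inv_mul_iff₀ hp, div_mul_cancel₀ _ hε.ne']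
    exact hg3 i
  have k4 := (hy i).2
  simp only [ContinuousLinearMap.comp_apply] at k4
  have k5 : re (c i (R (x - y i))) = re (c i (R x)) - re (c i (R (y i))) := by
    rw [map_sub, map_sub, map_sub]
  linarith

theorem basis {U : Set (WeakSpace 𝕜 X)} (hU : IsOpen U) {x : X} (hx : toWeakSpace 𝕜 X x ∈ U) :
    ∃ (n : ℕ) (R : X →L[𝕜] (Fin n → 𝕜)) (ε : ℝ), 0 < ε ∧
      ∀ y, ‖R (x - y)‖ < ε → toWeakSpace 𝕜 X y ∈ U := by
  have hind : Topology.IsInducing (fun (x : WeakBilin (topDualPairing 𝕜 X).flip)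
      (y : X →L[𝕜] 𝕜) => (topDualPairing 𝕜 X).flip x y) := ⟨rfl⟩
  obtain ⟨V, hV, hs⟩ := mem_comap.1 ((hind.nhds_eq_comap _).ge (hU.mem_nhds hx))
  rw [nhds_pi, Filter.mem_pi] at hV
  obtain ⟨I, hI, t, ht, hs'⟩ := hV
  obtain ⟨n, c, -, rfl⟩ := hI.fin_param
  let R : X →L[𝕜] (Fin n → 𝕜) := ContinuousLinearMap.pi c
  have h1 : univ.pi (fun i => t (c i)) ∈ 𝓝 (R x) := set_pi_mem_nhds finite_univ fun i _ => ht (c i)
  obtain ⟨ε, hε, hb⟩ := Metric.mem_nhds_iff.1 h1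
  refine ⟨n, R, ε, hε, fun y hy => hs (hs' ?_)⟩
  rintro _ ⟨i, rfl⟩
  exact hb (a := R y) (by rwa [mem_ball, dist_comm, dist_eq_norm, ← map_sub]) i (mem_univ i)

end Pool.Agent.H5.CcsCore
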