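import Mathlib

set_option autoImplicit false

namespace Pool.Agent.H5.ConeFix

open Set Filter Topology

abbrev X : Type := Fin 3 → ℝ

noncomputable def F (v : X) : ℝ := v 2 * (v 0 ^ 2 + v 1 ^ 2 + v 2 ^ 2) - 65 / 512 * v 0 ^ 3

noncomputable def h (v : X) : ℝ := v 2 - F v / (2 * (1 + (v 0 ^ 2 + v 1 ^ 2 + v 2 ^ 2)))

noncomputable def f (v : X) : X := ![v 0, v 1, h v]

lemma fix (v : X) : f v = v ↔ F v = 0 := by
  have hp : 0 < 2 * (1 + (v 0 ^ 2 + v 1 ^ 2 + v 2 ^ 2)) := by positivity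
  constructor
  · intro h1
    have h2 : h v = v 2 := congrFun h1 2
    rw [h, sub_eq_self, div_eq_zero_iff] at h2
    exact h2.resolve_right hp.ne'
  · intro h1
    ext i
    fin_cases i <;> simp [f, h, h1]

lemma alg {x y z a b c D R : ℝ} (hR : R = x ^ 2 + y ^ 2 + z ^ 2) (d0 : |a| ≤ D) (d1 : |b| ≤ D)
    (d2 : |c| ≤ D) :
    |c * (2 * (1 + R) ^ 2 - (R * (1 + R) + 2 * z ^ 2 + 2 * (65 / 512) * x ^ 3 * z)) -
      a * (2 * x * z - 3 * (65 / 512) * x ^ 2 * (1 + R) + 2 * (65 / 512) * x ^ 4) -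
      b * (2 * y * z + 2 * (65 / 512) * x ^ 3 * y)| ≤ D * (2 * (1 + R) ^ 2) := by
  have hD : 0 ≤ D := (abs_nonneg _).trans d0
  have x2 := sq_nonneg x
  have y2 := sq_nonneg y
  have z2 := sq_nonneg z
  have R2 := sq_nonneg R
  have hA : |2 * x * z - 3 * (65 / 512) * x ^ 2 * (1 + R) + 2 * (65 / 512) * x ^ 4| ≤
      x ^ 2 + 2 * z ^ 2 + R ^ 2 / 2 := by
    have h2 : x ^ 2 * R ≤ R * R := mul_le_mul_of_nonneg_right (by linarith) (by linarith)
    have h3 : x ^ 2 * x ^ 2 ≤ x ^ 2 * R := mul_le_mul_of_nonneg_left (by linarith) x2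
    have h4 : 0 ≤ x ^ 4 := by positivity
    rw [abs_le]
    constructor <;> linarith [sq_nonneg (x - 2 * z), sq_nonneg (x + 2 * z)]
  have hx : ∀ w : ℝ, x ^ 2 + w ^ 2 ≤ R → |2 * (65 / 512) * x ^ 3 * w| ≤ R ^ 2 / 4 := fun w hw => by
    have h1 : x ^ 2 * (x ^ 2 + w ^ 2) ≤ R * R :=
      mul_le_mul (by linarith) hw (by positivity) (by linarith)
    rw [abs_le]
    constructor <;> linarith [mul_nonneg x2 (sq_nonneg (x - w)), mul_nonneg x2 (sq_nonneg (x + w))]
  have hy := abs_le.1 (hx y (by linarith))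
  have hz := abs_le.1 (hx z (by linarith))
  have hB : |2 * y * z + 2 * (65 / 512) * x ^ 3 * y| ≤ y ^ 2 + z ^ 2 + R ^ 2 / 4 := by
    rw [abs_le]
    constructor <;> linarith [sq_nonneg (y - z), sq_nonneg (y + z), hy.1, hy.2]
  have hC : 0 ≤ 2 * (1 + R) ^ 2 - (R * (1 + R) + 2 * z ^ 2 + 2 * (65 / 512) * x ^ 3 * z) := by
    linarith [hz.2]
  refine (abs_sub _ _).trans ((add_le_add_left (abs_sub _ _) _).trans ?_)
  rw [abs_mul c, abs_mul a, abs_mul b, abs_of_nonneg hC]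
  have m1 := mul_le_mul_of_nonneg_right d2 hC
  have m2 := mul_le_mul d0 hA (abs_nonneg _) hD
  have m3 := mul_le_mul d1 hB (abs_nonneg _) hD
  have m4 := mul_le_mul_of_nonneg_left (show x ^ 2 + 2 * z ^ 2 + R ^ 2 / 2 +
    (y ^ 2 + z ^ 2 + R ^ 2 / 4) ≤ R * (1 + R) + 2 * z ^ 2 + 2 * (65 / 512) * x ^ 3 * z by
      linarith [hz.1]) hD
  linarith

lemma line (v d : X) (t : ℝ) : ∃ s : ℝ, HasDerivAt (fun t => h (v + t • d)) s t ∧ |s| ≤ ‖d‖ := by
  have k : ∀ i, HasDerivAt (fun t : ℝ => (v + t • d) i) (d i) t := fun i => by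
    simpa using ((hasDerivAt_id t).mul_const (d i)).const_add (v i)
  have kR := ((k 0).pow 2).add ((k 1).pow 2) |>.add ((k 2).pow 2)
  refine ⟨_, (k 2).sub ((((k 2).mul kR).sub (((k 0).pow 3).const_mul (65 / 512))).div
    ((kR.const_add 1).const_mul 2) (by simp only [Pi.add_apply, Pi.pow_apply]; positivity)), ?_⟩
  simp only [Pi.add_apply (_ : ℝ → ℝ), Pi.pow_apply, Pi.mul_apply, Pi.sub_apply]
  generalize (v + t • d) 0 = x, (v + t • d) 1 = y, (v + t • d) 2 = z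
  have key := alg (x := x) (y := y) (z := z) rfl (norm_le_pi_norm d 0) (norm_le_pi_norm d 1)
    (norm_le_pi_norm d 2)
  have hp : 0 < 2 * (1 + (x ^ 2 + y ^ 2 + z ^ 2)) ^ 2 := by positivity
  rw [← div_le_iff₀ hp, ← abs_of_pos hp, ← abs_div, abs_of_pos hp] at key
  refine le_of_eq_of_le (congrArg _ ?_) key
  push_cast
  field_simp
  ring

lemma nonexp (v w : X) : ‖f v - f w‖ ≤ ‖v - w‖ := by
  refine (pi_norm_le_iff_of_nonneg (norm_nonneg _)).2 fun i => ?_
  fin_cases i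
  · exact norm_le_pi_norm (v - w) 0
  · exact norm_le_pi_norm (v - w) 1
  · choose s h1 h2 using line w (v - w)
    have h3 := norm_image_sub_le_of_norm_deriv_le_segment_01'
      (fun t _ => (h1 t).hasDerivWithinAt) fun t _ => h2 t
    simpa [f] using h3

lemma analytic : AnalyticOnNhd ℝ f univ := fun v _ => by
  have k : ∀ i, AnalyticAt ℝ (fun v : X => v i) v := fun i =>
    (ContinuousLinearMap.proj (R := ℝ) (φ := fun _ : Fin 3 => ℝ) i).analyticAt v
  have kR := ((k 0).pow 2).add ((k 1).pow 2) |>.add ((k 2).pow 2)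
  refine analyticAt_pi_iff.2 fun i => ?_
  fin_cases i
  · exact k 0
  · exact k 1
  · exact (k 2).sub ((((k 2).mul kR).sub (analyticAt_const.mul ((k 0).pow 3))).div
      (analyticAt_const.mul (analyticAt_const.add kR))
      (show 2 * (1 + (v 0 ^ 2 + v 1 ^ 2 + v 2 ^ 2)) ≠ 0 by positivity))

lemma F_smul (t : ℝ) (v : X) : F (t • v) = t ^ 3 * F v := by
  simp only [F, Pi.smul_apply, smul_eq_mul]
  ring

lemma no_local {r : X → X} (h3 : DifferentiableAt ℝ r 0) (h1 : ∀ᶠ x in 𝓝 0, F (r x) = 0)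
    (h2 : ∀ᶠ x in 𝓝 0, F x = 0 → r x = x) : False := by
  have h0 : r 0 = 0 := h2.self_of_nhds (by simp [F])
  have k1 : ∀ v : X, HasDerivAt (fun t : ℝ => t • v) v 0 := fun v => by
    simpa using (hasDerivAt_id (0 : ℝ)).smul_const v
  have k2 : ∀ v : X, Tendsto (fun t : ℝ => t • v) (𝓝 0) (𝓝 0) := fun v => by
    simpa using (k1 v).continuousAt.tendsto
  have h4 : ∀ v : X, HasDerivAt (fun t : ℝ => r (t • v)) (fderiv ℝ r 0 v) 0 := fun v =>
    h3.hasFDerivAt.comp_hasDerivAt_of_eq 0 (k1 v) (zero_smul ℝ v).symm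
  have h5 : ∀ v : X, F v = 0 → fderiv ℝ r 0 v = v := fun v hv => by
    refine (h4 v).unique ((k1 v).congr_of_eventuallyEq ?_)
    filter_upwards [(k2 v).eventually h2] with t ht
    exact ht (by rw [F_smul, hv, mul_zero])
  have h6 : ∀ v : X, F (fderiv ℝ r 0 v) = 0 := fun v => by
    have k3 : Continuous F := by unfold F; fun_prop
    refine tendsto_nhds_unique ((k3.tendsto _).comp (h4 v).tendsto_slope_zero)
      (tendsto_const_nhds.congr' ?_)
    filter_upwards [nhdsWithin_le_nhds ((k2 v).eventually h1)] with t ht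
    rw [Function.comp_apply, zero_add, zero_smul, h0, sub_zero, F_smul, ht, mul_zero]
  have h7 := h6 (![1, 0, 1 / 8] + ![0, 1, 0])
  rw [map_add, h5 _ (by simp [F]; norm_num), h5 _ (by simp [F])] at h7
  simp [F] at h7
  norm_num at h7

end Pool.Agent.H5.ConeFix
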