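import Mathlib

set_option autoImplicit false

open Filter Topology

namespace Pool.Agent.H5.Deco

variable (𝕜 : Type) [RCLike 𝕜] {H : Type} [NormedAddCommGroup H] [InnerProductSpace 𝕜 H]
  [NormedSpace ℝ H] [IsScalarTower ℝ 𝕜 H]

def Bal (K : Set H) : Prop := ∀ θ : 𝕜, ‖θ‖ = 1 → ∀ k ∈ K, θ • k ∈ K

noncomputable def ri (a : H) : H →L[ℝ] ℝ :=
  RCLike.reCLM.comp ((innerSL 𝕜 a).restrictScalars ℝ)

variable {𝕜}

lemma ri_apply (a x : H) : ri 𝕜 a x = RCLike.re (inner 𝕜 a x) := rfl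

lemma ri_le (a x : H) : |ri 𝕜 a x| ≤ ‖a‖ * ‖x‖ :=
  (RCLike.abs_re_le_norm _).trans (norm_inner_le_norm a x)

lemma sq_conv (x y : H) {s t : ℝ} (hs : 0 ≤ s) (ht : 0 ≤ t) (h : s + t = 1) :
    ‖s • x + t • y‖ ^ 2 ≤ s * ‖x‖ ^ 2 + t * ‖y‖ ^ 2 := by
  have h1 : ‖s • x + t • y‖ ≤ s * ‖x‖ + t * ‖y‖ := by
    refine (norm_add_le _ _).trans ?_
    rw [norm_smul, norm_smul, Real.norm_of_nonneg hs, Real.norm_of_nonneg ht]
  have h2 := pow_le_pow_left₀ (norm_nonneg _) h1 2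
  obtain rfl : t = 1 - s := by linarith
  nlinarith [mul_nonneg (mul_nonneg hs ht) (sq_nonneg (‖x‖ - ‖y‖))]

lemma Bal.hull {G : Set H} (h : Bal 𝕜 G) : Bal 𝕜 (convexHull ℝ G) := fun θ hθ k hk =>
  convexHull_min (t := {k | θ • k ∈ convexHull ℝ G})
    (fun x hx => subset_convexHull ℝ G (h θ hθ x hx)) (fun x hx y hy s t hs ht hst => by
      show θ • (s • x + t • y) ∈ convexHull ℝ G
      rw [smul_add, smul_comm θ s, smul_comm θ t]
      exact convex_convexHull ℝ G hx hy hs ht hst) hk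

lemma unim (θ : 𝕜) (h : ‖θ‖ = 1) : ‖θ - 1‖ ^ 2 = 2 * (1 - RCLike.re θ) := by
  have h1 := RCLike.norm_sq_eq_def (z := θ)
  rw [h] at h1
  rw [RCLike.norm_sq_eq_def]
  simp only [map_sub, RCLike.one_re, RCLike.one_im]
  linarith

theorem deco [TopologicalSpace.SeparableSpace H] (U : Submodule 𝕜 H) [U.HasOrthogonalProjection]
    {K0 : Set H} (hc : Convex ℝ K0) (hb : Bal 𝕜 K0) (h0 : (0 : H) ∈ K0) (hU : K0 ⊆ U)
    (hD : ∀ k ∈ K0, ‖k‖ ≤ 2) {a : ℕ → H} (ha : Orthonormal 𝕜 a)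
    (haU : ∀ n, U.starProjection (a n) = 0) {ε : ℝ} (hε : 0 < ε) (hε1 : ε ≤ 1 / 2) :
    ∃ K1 : Set H, Convex ℝ K1 ∧ Bal 𝕜 K1 ∧ K0 ⊆ K1 ∧
      (∀ k ∈ K1, U.starProjection k ∈ K0 ∧ ‖k - U.starProjection k‖ ^ 2 ≤ 5 * ε) ∧
      (∀ V : Submodule 𝕜 H, K0 ⊆ V → (∀ n, a n ∈ V) → K1 ⊆ V) ∧
      ∀ (g k : H) (η : ℝ), ‖g‖ ≤ 1 → k ∈ K1 → 0 < η →
        (∀ k' ∈ K1, ri 𝕜 g k' ≤ ri 𝕜 g k + η) → ∃ (θ : 𝕜) (n : ℕ) (v : H), ‖θ‖ = 1 ∧ v ∈ K1 ∧
          ‖v - k‖ ^ 2 ≤ 5 * ε ∧ ri 𝕜 g k - 3 * η ≤ ri 𝕜 g v ∧ ri 𝕜 (θ • a n) v = ε ∧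
          ∀ k' ∈ K1, ‖U.starProjection (k' - v)‖ ^ 2 ≤ 16 * (1 - ri 𝕜 (θ • a n) k' / ε) := by
  set P := U.starProjection with hP
  have haP : ∀ n x, inner 𝕜 (a n) (P x) = 0 := fun n x => by
    rw [← U.inner_starProjection_left_eq_right, haU, inner_zero_left]
  have hPK : ∀ k ∈ K0, P k = k := fun k hk => Submodule.starProjection_eq_self_iff.2 (hU hk)
  have hpy : ∀ k, ‖k‖ ^ 2 = ‖k - P k‖ ^ 2 + ‖P k‖ ^ 2 := fun k => by
    rw [Submodule.norm_sq_eq_add_norm_sq_starProjection k U, Submodule.starProjection_orthogonal_val,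
      add_comm]
  obtain ⟨A, hA⟩ : ∃ A : H →L[𝕜] H, ∀ k, ‖A k‖ ^ 2 = ‖k - P k‖ ^ 2 + ε * ‖P k‖ ^ 2 := by
    refine ⟨ContinuousLinearMap.id 𝕜 H - P + ((√ε : ℝ) : 𝕜) • P, fun k => ?_⟩
    show ‖k - P k + ((√ε : ℝ) : 𝕜) • P k‖ ^ 2 = _
    rw [norm_add_sq (𝕜 := 𝕜), inner_smul_right,
      U.starProjection_inner_eq_zero k _ (U.starProjection_apply_mem k), norm_smul, mul_pow,
      RCLike.norm_ofReal, sq_abs, Real.sq_sqrt hε.le]
    simp
  haveI : Nonempty H := ⟨0⟩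
  let d : ℕ → H := fun n => TopologicalSpace.denseSeq H (Nat.unpair n).1
  have hY : ∀ (n : ℕ) (G : Set H), ∃ y, 0 ∈ G → y ∈ convexHull ℝ G ∧
      ∀ y' ∈ convexHull ℝ G, ‖y - d n‖ ≤ ‖y' - d n‖ + 1 / ((n : ℝ) + 1) := fun n G => by
    by_cases h : (0 : H) ∈ G
    · obtain ⟨y, hy, h1⟩ := (Metric.infDist_lt_iff ⟨0, subset_convexHull ℝ G h⟩).1
        (lt_add_of_pos_right (Metric.infDist (d n) (convexHull ℝ G))
          (show (0 : ℝ) < 1 / ((n : ℝ) + 1) by positivity))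
      refine ⟨y, fun _ => ⟨hy, fun y' hy' => ?_⟩⟩
      have h2 := Metric.infDist_le_dist_of_mem (x := d n) hy'
      rw [dist_comm, dist_eq_norm] at h1 h2
      linarith
    · exact ⟨0, fun h' => absurd h' h⟩
  choose Y hY using hY
  let G : ℕ → Set H := fun n => Nat.rec K0 (fun n G => G ∪ {w | ‖A (Y n G)‖ ^ 2 + ε ^ 2 ≤ 5 * ε ∧
    ∃ θ : 𝕜, ‖θ‖ = 1 ∧ w = θ • (Y n G + (ε : 𝕜) • a n)}) n
  let y : ℕ → H := fun n => Y n (G n)
  let v : ℕ → H := fun n => y n + (ε : 𝕜) • a n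
  let ok : ℕ → Prop := fun n => ‖A (y n)‖ ^ 2 + ε ^ 2 ≤ 5 * ε
  have hG : ∀ n w, w ∈ G (n + 1) ↔ w ∈ G n ∨ (ok n ∧ ∃ θ : 𝕜, ‖θ‖ = 1 ∧ w = θ • v n) :=
    fun n w => Iff.rfl
  have hGm : Monotone G := monotone_nat_of_le_succ fun n => Set.subset_union_left
  have hG0 : ∀ n, K0 ⊆ G n := fun n => hGm (Nat.zero_le n)
  have hGc : ∀ n, ∀ w ∈ G n, w ∈ K0 ∨ ∃ m < n, ok m ∧ ∃ θ : 𝕜, ‖θ‖ = 1 ∧ w = θ • v m := by
    intro n
    induction n with
    | zero => exact fun w hw => Or.inl hw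
    | succ n ih =>
      intro w hw
      rcases (hG n w).1 hw with h | h
      · exact (ih w h).imp_right fun ⟨m, hm, h'⟩ => ⟨m, by omega, h'⟩
      · exact Or.inr ⟨n, n.lt_succ_self, h⟩
  have hGb : ∀ n, Bal 𝕜 (G n) := fun n θ hθ w hw => by
    rcases hGc n w hw with h | ⟨m, hm, h1, φ, hφ, rfl⟩
    · exact hG0 n (hb θ hθ w h)
    · exact hGm hm ((hG m _).2 (Or.inr ⟨h1, θ * φ, by rw [norm_mul, hθ, hφ, one_mul],
        smul_smul _ _ _⟩))
  have hy : ∀ n, y n ∈ convexHull ℝ (G n) := fun n => (hY n (G n) (hG0 n h0)).1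
  have ind : ∀ T : ℕ → Set H, (∀ n, Convex ℝ (T n)) → K0 ⊆ T 0 → (∀ n, T n ⊆ T (n + 1)) →
      (∀ (n : ℕ) (θ : 𝕜), ok n → ‖θ‖ = 1 → θ • y n ∈ T n → θ • v n ∈ T (n + 1)) →
      ∀ n, convexHull ℝ (G n) ⊆ T n := fun T h1 h2 h3 h4 n => by
    induction n with
    | zero => exact convexHull_min h2 (h1 0)
    | succ n ih =>
      refine convexHull_min (fun w hw => ?_) (h1 _)
      rcases (hG n w).1 hw with h | ⟨h5, θ, hθ, rfl⟩
      · exact h3 n (ih (subset_convexHull ℝ _ h))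
      · exact h4 n θ h5 hθ (ih ((hGb n).hull θ hθ _ (hy n)))
  have hPv : ∀ (θ : 𝕜) n, P (θ • v n) = P (θ • y n) := fun θ n => by
    simp only [v, map_smul, map_add, haU, smul_zero, add_zero]
  have hav : ∀ (θ : 𝕜) m n, m ≠ n → inner 𝕜 (a m) (θ • v n) = inner 𝕜 (a m) (θ • y n) :=
    fun θ m n h => by
      simp only [v, inner_smul_right, inner_add_right, ha.inner_eq_zero h, mul_zero, add_zero]
  have i1 := ind (fun _ => {k | P k ∈ K0}) (fun _ => hc.linear_preimage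
    (P.restrictScalars ℝ).toLinearMap) (fun k hk => by show P k ∈ K0; rwa [hPK k hk])
    (fun _ => subset_rfl) fun n θ _ _ h => by show P _ ∈ K0; rw [hPv]; exact h
  have i3 := ind (fun n => {k | ∀ m, n ≤ m → inner 𝕜 (a m) k = 0})
    (fun n x hx z hz s t _ _ _ m hm => by
      rw [inner_add_right, RCLike.real_smul_eq_coe_smul (K := 𝕜) s,
        RCLike.real_smul_eq_coe_smul (K := 𝕜) t, inner_smul_right, inner_smul_right, hx m hm,
        hz m hm]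
      simp) (fun k hk m _ => by rw [← hPK k hk, haP])
    (fun n k hk m hm => hk m (by omega)) fun n θ _ _ h m hm => by
      rw [hav θ m n (by omega)]
      exact h m (by omega)
  have hav' : ∀ n, inner 𝕜 (a n) (v n) = (ε : 𝕜) := fun n => by
    simp only [v]
    rw [inner_add_right, i3 n (hy n) n le_rfl, inner_smul_right, inner_self_eq_norm_sq_to_K,
      ha.norm_eq_one]
    simp
  have i2 := ind (fun _ => {k | ‖A k‖ ^ 2 ≤ 5 * ε}) (fun _ x hx z hz s t hs ht hst => by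
      show ‖A _‖ ^ 2 ≤ _
      rw [map_add, A.map_smul_of_tower, A.map_smul_of_tower]
      refine (sq_conv _ _ hs ht hst).trans ?_
      have h1 : ‖A x‖ ^ 2 ≤ 5 * ε := hx
      have h2 : ‖A z‖ ^ 2 ≤ 5 * ε := hz
      obtain rfl : t = 1 - s := by linarith
      nlinarith) (fun k hk => by
      show ‖A k‖ ^ 2 ≤ _
      rw [hA, hPK k hk, sub_self, norm_zero]
      nlinarith [pow_le_pow_left₀ (norm_nonneg _) (hD k hk) 2]) (fun _ => subset_rfl)
    fun n θ h1 hθ _ => by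
      show ‖A _‖ ^ 2 ≤ _
      have h2 : P (v n) = P (y n) := by simpa using hPv 1 n
      have h3 : v n - P (y n) = (ε : 𝕜) • a n + (y n - P (y n)) := by simp only [v]; abel
      have h4 : ‖A (y n)‖ ^ 2 + ε ^ 2 ≤ 5 * ε := h1
      rw [map_smul, norm_smul, hθ, one_mul, hA, h2, h3, norm_add_sq (𝕜 := 𝕜), inner_smul_left,
        inner_sub_right, i3 n (hy n) n le_rfl, haP, norm_smul, ha.norm_eq_one, RCLike.norm_ofReal,
        mul_one, sq_abs]
      rw [hA] at h4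
      simp only [sub_self, mul_zero, map_zero]
      linarith
  have hPy : ∀ n, ‖P (v n)‖ ≤ 2 := fun n => by
    have h2 : P (v n) = P (y n) := by simpa using hPv 1 n
    rw [h2]
    exact hD _ (i1 n (hy n))
  have i5 : ∀ m n, convexHull ℝ (G n) ⊆
      {k | ‖P (k - v m)‖ ^ 2 ≤ 16 * (1 - ri 𝕜 (a m) k / ε)} := fun m =>
    ind (fun _ => {k | ‖P (k - v m)‖ ^ 2 ≤ 16 * (1 - ri 𝕜 (a m) k / ε)})
      (fun _ x hx z hz s t hs ht hst => by
        have h1 : s • x + t • z - v m = s • (x - v m) + t • (z - v m) := by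
          rw [smul_sub, smul_sub, sub_add_sub_comm, ← add_smul, hst, one_smul]
        show ‖P _‖ ^ 2 ≤ _
        rw [h1, map_add, P.map_smul_of_tower, P.map_smul_of_tower, map_add, map_smul, map_smul]
        refine (sq_conv _ _ hs ht hst).trans ?_
        have h2 := mul_le_mul_of_nonneg_left hx hs
        have h3 := mul_le_mul_of_nonneg_left hz ht
        obtain rfl : t = 1 - s := by linarith
        refine (add_le_add h2 h3).trans (le_of_eq ?_)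
        simp only [smul_eq_mul]
        ring) (fun k hk => by
        show ‖P _‖ ^ 2 ≤ _
        have h1 : ‖P (k - v m)‖ ≤ 4 := by
          rw [map_sub, hPK k hk]
          linarith [norm_sub_le k (P (v m)), hD k hk, hPy m]
        rw [ri_apply, ← hPK k hk, haP, hPK k hk]
        simp only [map_zero, zero_div, sub_zero]
        nlinarith [norm_nonneg (P (k - v m))]) (fun _ => subset_rfl) fun n θ _ hθ h => by
        show ‖P _‖ ^ 2 ≤ _
        by_cases hmn : m = n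
        · subst hmn
          have h1 : θ • v m - v m = (θ - 1) • v m := by rw [sub_smul, one_smul]
          rw [h1, map_smul, norm_smul, mul_pow, unim θ hθ, ri_apply, inner_smul_right, hav',
            RCLike.re_mul_ofReal, mul_div_assoc, div_self hε.ne', mul_one]
          have h2 := (RCLike.re_le_norm θ).trans_eq hθ
          nlinarith [pow_le_pow_left₀ (norm_nonneg _) (hPy m) 2]
        · rw [map_sub, hPv, ← map_sub, ri_apply, hav θ m n hmn]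
          exact h
  let K1 : Set H := ⋃ n, convexHull ℝ (G n)
  have hK : ∀ n, convexHull ℝ (G n) ⊆ K1 := fun n =>
    Set.subset_iUnion (fun n => convexHull ℝ (G n)) n
  have hKb : Bal 𝕜 K1 := fun θ hθ k hk => by
    obtain ⟨n, hn⟩ := Set.mem_iUnion.1 hk
    exact hK n ((hGb n).hull θ hθ k hn)
  have fin : ∀ (θ : 𝕜) m, ‖θ‖ = 1 → ri 𝕜 (θ • a m) (θ • v m) = ε ∧ ∀ k' ∈ K1,
      ‖P (k' - θ • v m)‖ ^ 2 ≤ 16 * (1 - ri 𝕜 (θ • a m) k' / ε) := fun θ m hθ => by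
    have h1 : (starRingEnd 𝕜) θ * θ = 1 := by rw [RCLike.conj_mul, hθ]; simp
    refine ⟨by rw [ri_apply, inner_smul_left, inner_smul_right, ← mul_assoc, h1, one_mul, hav',
      RCLike.ofReal_re], fun k' hk' => ?_⟩
    obtain ⟨n, hn⟩ := Set.mem_iUnion.1 (hKb _ ((RCLike.norm_conj θ).trans hθ) k' hk')
    have h2 : ‖P (_ - v m)‖ ^ 2 ≤ _ := i5 m n hn
    have h3 : k' - θ • v m = θ • ((starRingEnd 𝕜) θ • k' - v m) := by
      rw [smul_sub, smul_smul, mul_comm, h1, one_smul]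
    rw [h3, map_smul, norm_smul, hθ, one_mul, ri_apply, inner_smul_left, ← inner_smul_right]
    exact h2
  refine ⟨K1, Directed.convex_iUnion (Monotone.directed_le fun i j h => convexHull_mono (hGm h))
    fun n => convex_convexHull ℝ _, hKb, (subset_convexHull ℝ _).trans (hK 0), fun k hk => ?_,
    fun V h1 h2 k hk => ?_, fun g k η hg hk hη hmax => ?_⟩
  · obtain ⟨n, hn⟩ := Set.mem_iUnion.1 hk
    have h1 : ‖A k‖ ^ 2 ≤ 5 * ε := i2 n hn
    rw [hA] at h1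
    exact ⟨i1 n hn, by nlinarith [sq_nonneg ‖P k‖]⟩
  · obtain ⟨n, hn⟩ := Set.mem_iUnion.1 hk
    refine ind (fun _ => V) (fun _ => (V.restrictScalars ℝ).convex) h1 (fun _ => subset_rfl)
      (fun n θ _ _ h => ?_) n hn
    simp only [v, smul_add]
    exact V.add_mem h (V.smul_mem _ (V.smul_mem _ (h2 n)))
  obtain ⟨N, hN⟩ := Set.mem_iUnion.1 hk
  obtain ⟨δ, hδ, hδ1, hδ2⟩ : ∃ δ : ℝ, 0 < δ ∧ 3 * δ ≤ η ∧ 3 * δ ≤ ε :=
    ⟨min η ε / 3, by positivity, by linarith [min_le_left η ε], by linarith [min_le_right η ε]⟩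
  have f1 : ∃ᶠ n in atTop, ‖k - d n‖ < δ := by
    obtain ⟨i, hi⟩ := Metric.denseRange_iff.1 (TopologicalSpace.denseRange_denseSeq H) k δ hδ
    refine frequently_atTop.2 fun j => ⟨Nat.pair i j, Nat.right_le_pair i j, ?_⟩
    simpa [d, dist_eq_norm] using hi
  have f2 : ∀ᶠ n in atTop, ‖inner 𝕜 (a n) g‖ ^ 2 < η ^ 2 :=
    (ha.inner_products_summable g).tendsto_atTop_zero.eventually (gt_mem_nhds (by positivity))
  obtain ⟨n, h1, h2, h3, h4⟩ := (f1.and_eventually (f2.and ((eventually_ge_atTop N).and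
    (tendsto_one_div_add_atTop_nhds_zero_nat.eventually (gt_mem_nhds hδ))))).exists
  have h5 : ‖y n - k‖ ≤ 3 * δ := by
    have h6 := (hY n (G n) (hG0 n h0)).2 k (convexHull_mono (hGm h3) hN)
    have h7 := norm_sub_le_norm_sub_add_norm_sub (y n) (d n) k
    rw [norm_sub_rev (d n)] at h7
    linarith
  have h6 : ri 𝕜 g k - η ≤ ri 𝕜 g (y n) := by
    have h7 := (abs_le.1 ((ri_le (𝕜 := 𝕜) g (y n - k)).trans
      (mul_le_of_le_one_left (norm_nonneg _) hg))).1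
    rw [map_sub] at h7
    linarith
  by_cases hok : ok n
  · have h7 : v n ∈ K1 := hK (n + 1) (subset_convexHull ℝ _ ((hG n _).2
      (Or.inr ⟨hok, 1, norm_one, (one_smul _ _).symm⟩)))
    have h8 := fin 1 n norm_one
    rw [one_smul 𝕜 (v n)] at h8
    refine ⟨1, n, v n, norm_one, h7, ?_, ?_, h8⟩
    · have h9 : ‖v n - k‖ ≤ 2 * ε := by
        have h10 : v n - k = y n - k + (ε : 𝕜) • a n := by simp only [v]; abel
        have h11 := norm_add_le (y n - k) ((ε : 𝕜) • a n)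
        rw [norm_smul, ha.norm_eq_one, RCLike.norm_ofReal, abs_of_pos hε, ← h10] at h11
        linarith
      nlinarith [pow_le_pow_left₀ (norm_nonneg _) h9 2]
    · have h9 : |ri 𝕜 g (a n)| ≤ η := by
        rw [ri_apply]
        refine (RCLike.abs_re_le_norm _).trans ?_
        rw [norm_inner_symm]
        exact (abs_lt_of_sq_lt_sq' h2 hη.le).2.le
      simp only [v]
      rw [map_add, ← RCLike.real_smul_eq_coe_smul (K := 𝕜), map_smul, smul_eq_mul]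
      nlinarith [(abs_le.1 h9).1]
  · have hok' : 5 * ε < ‖A (y n)‖ ^ 2 + ε ^ 2 := not_le.1 hok
    let l : H →L[ℝ] ℝ := (4 * η) • (ri 𝕜 (A (y n))).comp (A.restrictScalars ℝ) + ε ^ 2 • ri 𝕜 g
    obtain ⟨w, hw, hl⟩ : ∃ w ∈ G n, l (y n) ≤ l w := by
      by_contra hcon
      push Not at hcon
      exact lt_irrefl (l (y n)) (convexHull_min (t := {w | l w < l (y n)}) hcon
        (convex_halfSpace_lt l.toLinearMap.isLinear _) (hy n))
    have hwK : w ∈ K1 := hK n (subset_convexHull ℝ _ hw)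
    have h7 : 0 ≤ 4 * η * ri 𝕜 (A (y n)) (A (w - y n)) + ε ^ 2 * ri 𝕜 g (w - y n) := by
      have h8 : 0 ≤ l (w - y n) := by rw [map_sub]; linarith
      exact h8
    have h8 : ‖A w‖ ^ 2 = ‖A (y n)‖ ^ 2 + 2 * ri 𝕜 (A (y n)) (A (w - y n)) +
        ‖A (w - y n)‖ ^ 2 := by
      rw [ri_apply, ← norm_add_sq (𝕜 := 𝕜), ← map_add, add_sub_cancel]
    have h9 : ‖A w‖ ^ 2 ≤ 5 * ε := i2 n (subset_convexHull ℝ _ hw)
    have h10 : ri 𝕜 g (w - y n) ≤ 2 * η := by rw [map_sub]; linarith [hmax w hwK]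
    have h11 : 5 * ε - ‖A w‖ ^ 2 + ‖A (w - y n)‖ ^ 2 < 2 * ε ^ 2 := by
      have h12 := mul_le_mul_of_nonneg_left h10 (sq_nonneg ε)
      refine lt_of_mul_lt_mul_left (a := 2 * η) ?_ (by positivity)
      nlinarith
    have h12 : -(2 * η) ≤ ri 𝕜 g (w - y n) := by
      refine le_of_mul_le_mul_left (a := ε ^ 2) ?_ (by positivity)
      nlinarith [sq_nonneg ‖A (w - y n)‖]
    rcases hGc n w hw with h | ⟨m, -, -, θ, hθ, rfl⟩
    · rw [hA w, hPK w h, sub_self, norm_zero] at h11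
      nlinarith [pow_le_pow_left₀ (norm_nonneg _) (hD w h) 2, sq_nonneg ‖A (w - y n)‖]
    · refine ⟨θ, m, _, hθ, hwK, ?_, by rw [map_sub] at h12; linarith, fin θ m hθ⟩
      have h13 : ‖θ • v m - y n‖ ^ 2 ≤ 2 * ε := by
        refine le_of_mul_le_mul_left (a := ε) ?_ hε
        rw [hA (θ • v m - y n)] at h11
        rw [hpy]
        nlinarith [sq_nonneg ‖θ • v m - y n - P (θ • v m - y n)‖]
      have h14 := pow_le_pow_left₀ (norm_nonneg _)
        (norm_sub_le_norm_sub_add_norm_sub (θ • v m) (y n) k) 2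
      have h15 := pow_le_pow_left₀ (norm_nonneg _) (h5.trans hδ2) 2
      nlinarith [sq_nonneg (‖θ • v m - y n‖ - ‖y n - k‖)]

end Pool.Agent.H5.Deco
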