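import Pool.Agent.H5.Deco

set_option autoImplicit false

open Filter Topology

namespace Pool.Agent.H5.Deco

variable (𝕜 : Type) [RCLike 𝕜]

abbrev HH : Type := lp (fun _ : ℕ × ℕ => 𝕜) 2

noncomputable def E (p : ℕ × ℕ) : HH 𝕜 := lp.single 2 p 1

lemma inner_E (p : ℕ × ℕ) (x : HH 𝕜) : inner 𝕜 (E 𝕜 p) x = x p := by
  rw [E, lp.inner_single_left]
  simp

lemma E_on : Orthonormal 𝕜 (E 𝕜) := by
  rw [orthonormal_iff_ite]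
  intro p q
  rw [inner_E, E, lp.single_apply, Pi.single_apply]

instance : TopologicalSpace.SeparableSpace (HH 𝕜) := by
  rw [← TopologicalSpace.isSeparable_univ_iff]
  refine ((Set.countable_range (E 𝕜)).isSeparable.span (R := 𝕜)).closure.mono fun x _ => ?_
  refine mem_closure_of_tendsto (lp.hasSum_single (by norm_num) x)
    (Eventually.of_forall fun s => Submodule.sum_mem _ fun p _ => ?_)
  have h : lp.single 2 p (x p) = x p • E 𝕜 p := by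
    rw [E, ← lp.single_smul, smul_eq_mul, mul_one]
  rw [h]
  exact Submodule.smul_mem _ _ (Submodule.subset_span ⟨p, rfl⟩)

noncomputable def U (j : ℕ) : Submodule 𝕜 (HH 𝕜) where
  carrier := {x | ∀ p : ℕ × ℕ, j < p.1 → inner 𝕜 (E 𝕜 p) x = 0}
  add_mem' := fun hx hy p hp => by rw [inner_add_right, hx p hp, hy p hp, add_zero]
  zero_mem' := fun p _ => inner_zero_right _
  smul_mem' := fun c x hx p hp => by rw [inner_smul_right, hx p hp, mul_zero]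

lemma U_closed (j : ℕ) : IsClosed (U 𝕜 j : Set (HH 𝕜)) := by
  have : (U 𝕜 j : Set (HH 𝕜)) = ⋂ p ∈ {p : ℕ × ℕ | j < p.1}, {x | inner 𝕜 (E 𝕜 p) x = 0} := by
    ext x
    rw [Set.mem_iInter₂]
    rfl
  rw [this]
  exact isClosed_biInter fun p _ => isClosed_eq (by fun_prop) continuous_const

instance (j : ℕ) : (U 𝕜 j).HasOrthogonalProjection :=
  haveI := (U_closed 𝕜 j).completeSpace_coe
  Submodule.HasOrthogonalProjection.ofCompleteSpace _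

lemma U_mono {i j : ℕ} (h : i ≤ j) : U 𝕜 i ≤ U 𝕜 j := fun _ hx p hp => hx p (by omega)

lemma E_mem {j : ℕ} {p : ℕ × ℕ} (h : p.1 ≤ j) : E 𝕜 p ∈ U 𝕜 j := fun q hq =>
  (E_on 𝕜).inner_eq_zero (by rintro rfl; omega)

noncomputable def P (j : ℕ) : HH 𝕜 →L[𝕜] HH 𝕜 := (U 𝕜 j).starProjection

lemma P_E {j : ℕ} {p : ℕ × ℕ} (h : j < p.1) : P 𝕜 j (E 𝕜 p) = 0 :=
  (Submodule.starProjection_apply_eq_zero_iff _).2 fun u hu => by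
    rw [inner_eq_zero_symm]
    exact hu p h

lemma P_P {i j : ℕ} (h : i ≤ j) (x : HH 𝕜) : P 𝕜 i (P 𝕜 j x) = P 𝕜 i x :=
  congrArg (fun T : HH 𝕜 →L[𝕜] HH 𝕜 => T x)
    (Submodule.starProjection_comp_starProjection_of_le (U_mono 𝕜 h))

lemma P_self {j : ℕ} {x : HH 𝕜} (h : x ∈ U 𝕜 j) : P 𝕜 j x = x :=
  Submodule.starProjection_eq_self_iff.2 h

theorem multi : ∃ K : Set (HH 𝕜), Convex ℝ K ∧ Bal 𝕜 K ∧ (∀ k ∈ K, ‖k‖ ≤ 2) ∧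
    (∀ c : 𝕜, ‖c‖ ≤ 1 → c • E 𝕜 (0, 0) ∈ K) ∧
    (∀ k ∈ K, ∃ c : 𝕜, ‖c‖ ≤ 1 ∧ P 𝕜 0 k = c • E 𝕜 (0, 0)) ∧
    ∀ ρ : ℝ, 0 < ρ → ∃ ε : ℝ, 0 < ε ∧ ε ≤ ρ ∧ ∀ (g k : HH 𝕜) (η : ℝ), ‖g‖ ≤ 1 → k ∈ K → 0 < η →
      (∀ k' ∈ K, ri 𝕜 g k' ≤ ri 𝕜 g k + η) → ∃ b v : HH 𝕜, ‖b‖ = 1 ∧ v ∈ K ∧ ‖v - k‖ ≤ ρ ∧
        ri 𝕜 g k - 3 * η - 4 * ε ^ 3 ≤ ri 𝕜 g v ∧ ri 𝕜 b v = ε ∧ ∀ k' ∈ K, ri 𝕜 b k' ≤ ε ∧
          ∀ s : ℝ, 0 ≤ s → 1 - ri 𝕜 b k' / ε ≤ s ^ 2 → ‖k' - v‖ ≤ ρ + 4 * s := by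
  let r : ℕ → ℝ := fun j => Nat.rec (1 / 2) (fun _ x => x ^ 6 / 250) j
  have hr : ∀ j, r (j + 1) = r j ^ 6 / 250 := fun j => rfl
  have hr0 : ∀ j, 0 < r j ∧ r j ≤ 1 / 2 := fun j => by
    induction j with
    | zero => exact ⟨one_half_pos, le_rfl⟩
    | succ j ih =>
      have h1 := pow_le_pow_left₀ ih.1.le ih.2 6
      have h2 := pow_pos ih.1 6
      rw [hr]
      constructor <;> norm_num at h1 ⊢ <;> linarith
  have hr1 : ∀ j, 2 * r (j + 1) ≤ r j := fun j => by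
    have h1 := pow_le_pow_left₀ (hr0 j).1.le (hr0 j).2 5
    rw [hr, pow_succ]
    norm_num at h1
    nlinarith [(hr0 j).1]
  have hr2 : ∀ j, r j ≤ (1 / 2) ^ j := fun j => by
    induction j with
    | zero => exact (hr0 0).2.trans (by norm_num)
    | succ j ih => rw [pow_succ]; linarith [hr1 j]
  let Inv : ℕ → Set (HH 𝕜) → Prop := fun j K => Convex ℝ K ∧ Bal 𝕜 K ∧ (0 : HH 𝕜) ∈ K ∧
    K ⊆ U 𝕜 j ∧ ∀ k ∈ K, ‖k‖ ≤ 2 - 2 * r j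
  have step : ∀ (j : ℕ) (K0 : Set (HH 𝕜)), ∃ K1, Inv j K0 → Inv (j + 1) K1 ∧ K0 ⊆ K1 ∧
      (∀ k ∈ K1, P 𝕜 j k ∈ K0 ∧ ‖k - P 𝕜 j k‖ ≤ r j) ∧
      ∀ (g k : HH 𝕜) (η : ℝ), ‖g‖ ≤ 1 → k ∈ K1 → 0 < η →
        (∀ k' ∈ K1, ri 𝕜 g k' ≤ ri 𝕜 g k + η) → ∃ b v : HH 𝕜, ‖b‖ = 1 ∧ b ∈ U 𝕜 (j + 1) ∧
          v ∈ K1 ∧ ‖v - k‖ ≤ r j ∧ ri 𝕜 g k - 3 * η ≤ ri 𝕜 g v ∧ ri 𝕜 b v = r j ^ 2 / 5 ∧
          ∀ k' ∈ K1, ‖P 𝕜 j (k' - v)‖ ^ 2 ≤ 16 * (1 - ri 𝕜 b k' / (r j ^ 2 / 5)) := fun j K0 => by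
    by_cases h : Inv j K0
    · obtain ⟨h1, h2, h3, h4, h5⟩ := h
      have hj := hr0 j
      obtain ⟨K1, k1, k2, k3, k4, k5, k6⟩ := deco (U 𝕜 j) h1 h2 h3 h4
        (fun k hk => by linarith [h5 k hk]) (a := fun n => E 𝕜 (j + 1, n))
        ((E_on 𝕜).comp _ fun m n hmn => (Prod.mk.inj hmn).2) (fun n => P_E 𝕜 j.lt_succ_self)
        (ε := r j ^ 2 / 5) (by have := hj.1; positivity) (by nlinarith)
      have k7 : ∀ k ∈ K1, ‖k - P 𝕜 j k‖ ≤ r j := fun k hk =>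
        le_of_sq_le_sq ((k4 k hk).2.trans_eq (by ring)) hj.1.le
      refine ⟨K1, fun _ => ⟨⟨k1, k2, k3 h3, k5 _ (h4.trans (U_mono 𝕜 j.le_succ))
        fun n => E_mem 𝕜 le_rfl, fun k hk => ?_⟩, k3, fun k hk => ⟨(k4 k hk).1, k7 k hk⟩,
        fun g k η hg hk hη hm => ?_⟩⟩
      · have h6 := norm_le_norm_add_norm_sub' k (P 𝕜 j k)
        have h7 : ‖P 𝕜 j k‖ ≤ _ := h5 _ (k4 k hk).1
        linarith [k7 k hk, hr1 j]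
      · obtain ⟨θ, n, v, l1, l2, l3, l4, l5, l6⟩ := k6 g k η hg hk hη hm
        exact ⟨θ • E 𝕜 (j + 1, n), v, by rw [norm_smul, l1, (E_on 𝕜).norm_eq_one, one_mul],
          Submodule.smul_mem _ _ (E_mem 𝕜 le_rfl), l2,
          le_of_sq_le_sq (l3.trans_eq (by ring)) hj.1.le, l4, l5, l6⟩
    · exact ⟨∅, fun h' => absurd h' h⟩
  choose F hF using step
  let K : ℕ → Set (HH 𝕜) := fun j =>
    Nat.rec {k | ∃ c : 𝕜, ‖c‖ ≤ 1 ∧ k = c • E 𝕜 (0, 0)} F j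
  have hI : ∀ j, Inv j (K j) := fun j => by
    induction j with
    | zero =>
      refine ⟨?_, ?_, ⟨0, by simp, by simp⟩, ?_, ?_⟩
      · rintro _ ⟨c, hc, rfl⟩ _ ⟨d, hd, rfl⟩ s t hs ht hst
        refine ⟨s • c + t • d, (norm_add_le _ _).trans ?_, by rw [add_smul, smul_assoc, smul_assoc]⟩
        rw [norm_smul, norm_smul, Real.norm_of_nonneg hs, Real.norm_of_nonneg ht]
        nlinarith
      · rintro θ hθ _ ⟨c, hc, rfl⟩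
        exact ⟨θ * c, by rwa [norm_mul, hθ, one_mul], smul_smul _ _ _⟩
      · rintro _ ⟨c, -, rfl⟩
        exact Submodule.smul_mem _ _ (E_mem 𝕜 le_rfl)
      · rintro _ ⟨c, hc, rfl⟩
        rw [norm_smul, (E_on 𝕜).norm_eq_one]
        linarith [(hr0 0).2]
    | succ j ih => exact (hF j _ ih).1
  have hm : Monotone K := monotone_nat_of_le_succ fun j => (hF j _ (hI j)).2.1
  have tl : ∀ j m, j ≤ m → ∀ k ∈ K m, P 𝕜 j k ∈ K j ∧ ‖k - P 𝕜 j k‖ ≤ 2 * r j - 2 * r m := by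
    intro j m h
    induction m, h using Nat.le_induction with
    | base =>
      intro k hk
      rw [P_self 𝕜 ((hI j).2.2.2.1 hk)]
      exact ⟨hk, by simp⟩
    | succ m hjm ih =>
      intro k hk
      obtain ⟨h1, h2⟩ := (hF m _ (hI m)).2.2.1 k hk
      obtain ⟨h3, h4⟩ := ih _ h1
      rw [P_P 𝕜 hjm] at h3 h4
      exact ⟨h3, by linarith [norm_sub_le_norm_sub_add_norm_sub k (P 𝕜 m k) (P 𝕜 j k), hr1 m]⟩
  have tl' : ∀ j, ∀ k ∈ ⋃ m, K m, P 𝕜 j k ∈ K j ∧ ‖k - P 𝕜 j k‖ ≤ 2 * r j := fun j k hk => by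
    obtain ⟨m, hk⟩ := Set.mem_iUnion.1 hk
    obtain ⟨h1, h2⟩ := tl j (max j m) (le_max_left _ _) k (hm (le_max_right _ _) hk)
    exact ⟨h1, by linarith [(hr0 (max j m)).1]⟩
  have hsub : ∀ j, K j ⊆ ⋃ m, K m := Set.subset_iUnion K
  refine ⟨⋃ m, K m, Directed.convex_iUnion hm.directed_le fun j => (hI j).1, fun θ hθ k hk => ?_,
    fun k hk => ?_, fun c hc => hsub 0 ⟨c, hc, rfl⟩, fun k hk => (tl' 0 k hk).1, fun ρ hρ => ?_⟩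
  · obtain ⟨m, hk⟩ := Set.mem_iUnion.1 hk
    exact hsub m ((hI m).2.1 θ hθ k hk)
  · obtain ⟨m, hk⟩ := Set.mem_iUnion.1 hk
    linarith [(hI m).2.2.2.2 k hk, (hr0 m).1]
  obtain ⟨j, hj⟩ := exists_pow_lt_of_lt_one (show 0 < ρ / 3 by positivity)
    (show (1 / 2 : ℝ) < 1 by norm_num)
  have h1 := (hr2 j).trans_lt hj
  have h2 := hr0 j
  have h3 : 2 * r (j + 1) = (r j ^ 2 / 5) ^ 3 := by rw [hr]; ring
  have h4 : 0 < r j ^ 2 / 5 := by have := h2.1; positivity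
  refine ⟨r j ^ 2 / 5, h4, by nlinarith, fun g k η hg hk hη hmax => ?_⟩
  obtain ⟨h5, h6⟩ := tl' (j + 1) k hk
  have h7 := abs_le.1 ((ri_le (𝕜 := 𝕜) g (k - P 𝕜 (j + 1) k)).trans
    ((mul_le_of_le_one_left (norm_nonneg _) hg).trans h6))
  rw [map_sub] at h7
  obtain ⟨b, v, l1, l2, l3, l4, l5, l6, l7⟩ := (hF j _ (hI j)).2.2.2 g _ (η + 2 * r (j + 1)) hg h5
    (by linarith [(hr0 (j + 1)).1]) fun k' hk' => by linarith [hmax k' (hsub (j + 1) hk'), h7.2]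
  refine ⟨b, v, l1, hsub (j + 1) l3, ?_, by linarith [h7.2], l6, fun k' hk' => ?_⟩
  · have h8 := norm_sub_le_norm_sub_add_norm_sub v (P 𝕜 (j + 1) k) k
    rw [norm_sub_rev (P 𝕜 (j + 1) k)] at h8
    linarith [hr1 j]
  obtain ⟨m1, m2⟩ := tl' (j + 1) k' hk'
  have m3 := l7 _ m1
  have m4 : ri 𝕜 b (P 𝕜 (j + 1) k') = ri 𝕜 b k' := by
    rw [ri_apply, P, ← Submodule.inner_starProjection_left_eq_right,
      Submodule.starProjection_eq_self_iff.2 l2, ri_apply]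
  rw [m4] at m3
  refine ⟨(div_le_one h4).1 (by nlinarith [sq_nonneg ‖P 𝕜 j (P 𝕜 (j + 1) k' - v)‖]),
    fun s hs hs' => ?_⟩
  have m5 : ‖P 𝕜 j (P 𝕜 (j + 1) k' - v)‖ ≤ 4 * s := le_of_sq_le_sq (by nlinarith) (by positivity)
  have m6 := ((hF j _ (hI j)).2.2.1 _ m1).2
  have m7 := ((hF j _ (hI j)).2.2.1 _ l3).2
  have m8 : k' - v = (k' - P 𝕜 (j + 1) k') + (P 𝕜 (j + 1) k' - P 𝕜 j (P 𝕜 (j + 1) k')) +
      P 𝕜 j (P 𝕜 (j + 1) k' - v) - (v - P 𝕜 j v) := by rw [map_sub]; abel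
  rw [m8]
  refine (norm_sub_le _ _).trans ((add_le_add (norm_add₃_le) le_rfl).trans ?_)
  linarith [hr1 j]

end Pool.Agent.H5.Deco
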