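import Mathlib

set_option autoImplicit false

open Filter Topology

namespace Pool.Agent.H5.Iter

universe u

lemma half_lim {δ : ℕ → ℝ} (h0 : ∀ n, 0 < δ n) (h1 : ∀ n, 2 * δ (n + 1) ≤ δ n) :
    Tendsto δ atTop (𝓝 0) := by
  have h2 : ∀ n, δ n ≤ δ 0 * (1 / 2) ^ n := fun n => by
    induction n with
    | zero => simp
    | succ n ih => rw [pow_succ]; linarith [h1 n]
  have h3 := (tendsto_pow_atTop_nhds_zero_of_lt_one (r := (1 / 2 : ℝ)) (by norm_num)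
    (by norm_num)).const_mul (δ 0)
  rw [mul_zero] at h3
  exact squeeze_zero (fun n => (h0 n).le) h2 h3

lemma lim_aux {Z : Type u} [NormedAddCommGroup Z] [CompleteSpace Z] (s : ℕ → Z) {δ : ℕ → ℝ}
    (h0 : ∀ n, 0 < δ n) (h1 : ∀ n, 2 * δ (n + 1) ≤ δ n) (h2 : ∀ n, ‖s (n + 1) - s n‖ < δ n) :
    ∃ L, Tendsto s atTop (𝓝 L) ∧ ∀ n, ‖L - s n‖ ≤ 2 * δ n := by
  have h3 : ∀ n m, n ≤ m → ‖s m - s n‖ ≤ 2 * δ n - 2 * δ m := fun n m h => by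
    induction m, h using Nat.le_induction with
    | base => simp
    | succ m _ ih => linarith [norm_sub_le_norm_sub_add_norm_sub (s (m + 1)) (s m) (s n), h1 m, h2 m]
  have h4 := (half_lim h0 h1).const_mul 2
  rw [mul_zero] at h4
  obtain ⟨L, hL⟩ := cauchySeq_tendsto_of_complete (cauchySeq_of_le_tendsto_0' (s := s) _
    (fun n m h => by rw [dist_comm, dist_eq_norm]; linarith [h3 n m h, h0 m]) h4)
  refine ⟨L, hL, fun n => le_of_tendsto (hL.sub_const (s n)).norm ?_⟩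
  filter_upwards [eventually_ge_atTop n] with m hm
  linarith [h3 n m hm, h0 m]

variable (𝕜 : Type) [RCLike 𝕜] (X : Type) (Y : Type u) [NormedAddCommGroup X] [NormedSpace 𝕜 X]
  [NormedAddCommGroup Y] [NormedSpace 𝕜 Y]

/-- one step perturbation property -/
def OS : Prop := ∀ ε : ℝ, 0 < ε → ∃ η : ℝ, 0 < η ∧ ∀ (T : X →L[𝕜] Y) (x : X), ‖T‖ = 1 →
  ‖x‖ ≤ 1 → 1 - η < ‖T x‖ → ∃ (S : X →L[𝕜] Y) (γ : ℝ), 0 < γ ∧ ‖S‖ = 1 ∧ ‖S - T‖ < ε ∧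
    ∀ z, ‖z‖ ≤ 1 → 1 - γ < ‖S z‖ → ∃ θ : 𝕜, ‖θ‖ = 1 ∧ ‖z - θ • x‖ < ε

variable {𝕜 X Y}

theorem iter [CompleteSpace X] [CompleteSpace Y] (h : OS 𝕜 X Y) (ε : ℝ) (hε : 0 < ε) :
    ∃ η : ℝ, 0 < η ∧ ∀ (T : X →L[𝕜] Y) (x : X), ‖T‖ = 1 → ‖x‖ ≤ 1 → 1 - η < ‖T x‖ →
      ∃ (S : X →L[𝕜] Y) (w : X), ‖S‖ = 1 ∧ ‖w‖ = 1 ∧ ‖S w‖ = 1 ∧ ‖S - T‖ < ε ∧ ‖x - w‖ < ε ∧
        ∀ x' : ℕ → X, (∀ n, ‖x' n‖ ≤ 1) → Tendsto (fun n => ‖S (x' n)‖) atTop (𝓝 ‖S‖) →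
          ∃ (σ : ℕ → ℕ) (θ : 𝕜), StrictMono σ ∧ ‖θ‖ = 1 ∧
            Tendsto (fun n => x' (σ n)) atTop (𝓝 (θ • w)) := by
  choose! η hη h using h
  let Good : (X →L[𝕜] Y) × X × ℝ → Prop := fun s =>
    ‖s.1‖ = 1 ∧ ‖s.2.1‖ ≤ 1 ∧ 0 < s.2.2 ∧ 1 - η s.2.2 < ‖s.1 s.2.1‖
  have step : ∀ s : (X →L[𝕜] Y) × X × ℝ, ∃ s' : (X →L[𝕜] Y) × X × ℝ, Good s → Good s' ∧
      2 * s'.2.2 ≤ s.2.2 ∧ ‖s'.1 - s.1‖ < s.2.2 ∧ ‖s'.2.1 - s.2.1‖ < s.2.2 ∧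
      1 - s'.2.2 < ‖s'.1 s'.2.1‖ ∧ ∀ z, ‖z‖ ≤ 1 → 1 - 3 * s'.2.2 < ‖s'.1 z‖ →
        ∃ θ : 𝕜, ‖θ‖ = 1 ∧ ‖z - θ • s.2.1‖ < s.2.2 := fun ⟨T, x, δ⟩ => by
    by_cases hs : Good (T, x, δ)
    · obtain ⟨h1, h2, h3, h4⟩ := hs
      obtain ⟨S, γ, k1, k2, k3, k4⟩ := h δ h3 T x h1 h2 h4
      obtain ⟨δ', d1, d2, d3⟩ : ∃ δ' : ℝ, 0 < δ' ∧ 2 * δ' ≤ δ ∧ 3 * δ' ≤ γ :=
        ⟨min (δ / 2) (γ / 3), lt_min (half_pos h3) (by positivity),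
          by linarith [min_le_left (δ / 2) (γ / 3)], by linarith [min_le_right (δ / 2) (γ / 3)]⟩
      obtain ⟨z, z1, z2⟩ := S.exists_lt_apply_of_lt_opNorm (r := 1 - min δ' (η δ'))
        (by linarith [lt_min d1 (hη δ' d1)])
      obtain ⟨θ, t1, t2⟩ := k4 z z1.le (by linarith [min_le_left δ' (η δ')])
      have t3 : θ ≠ 0 := by rintro rfl; simp at t1
      have t4 : ‖S (θ⁻¹ • z)‖ = ‖S z‖ := by rw [map_smul, norm_smul, norm_inv, t1, inv_one, one_mul]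
      refine ⟨(S, θ⁻¹ • z, δ'), fun _ => ⟨⟨k2, ?_, d1, ?_⟩, d2, k3, ?_, ?_,
        fun z' a b => k4 z' a (by linarith)⟩⟩
      · rw [norm_smul, norm_inv, t1, inv_one, one_mul]; exact z1.le
      · rw [t4]; linarith [min_le_right δ' (η δ')]
      · have t5 : θ⁻¹ • z - x = θ⁻¹ • (z - θ • x) := by rw [smul_sub, inv_smul_smul₀ t3]
        rw [t5, norm_smul, norm_inv, t1, inv_one, one_mul]
        exact t2
      · rw [t4]; linarith [min_le_left δ' (η δ')]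
    · exact ⟨(T, x, δ), fun h' => absurd h' hs⟩
  choose F hF using step
  refine ⟨η (ε / 3), hη _ (by positivity), fun T x h1 h2 h3 => ?_⟩
  let s : ℕ → (X →L[𝕜] Y) × X × ℝ := fun n => Nat.rec (T, x, ε / 3) (fun _ s => F s) n
  have hG : ∀ n, Good (s n) := fun n => by
    induction n with
    | zero => exact ⟨h1, h2, show (0 : ℝ) < ε / 3 by positivity, h3⟩
    | succ n ih => exact (hF _ ih).1
  have d0 : ∀ n, 0 < (s n).2.2 := fun n => (hG n).2.2.1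
  have d1 : ∀ n, 2 * (s (n + 1)).2.2 ≤ (s n).2.2 := fun n => (hF _ (hG n)).2.1
  obtain ⟨S, hS1, hS2⟩ := lim_aux (fun n => (s n).1) d0 d1 fun n => (hF _ (hG n)).2.2.1
  obtain ⟨w, hw1, hw2⟩ := lim_aux (fun n => (s n).2.1) d0 d1 fun n => (hF _ (hG n)).2.2.2.1
  have dl := half_lim d0 d1
  have hS : ‖S‖ = 1 := tendsto_nhds_unique hS1.norm
    (tendsto_const_nhds.congr fun n => (hG n).1.symm)
  have hw : ‖w‖ ≤ 1 := le_of_tendsto' hw1.norm fun n => (hG n).2.1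
  have hSw : 1 ≤ ‖S w‖ := by
    have h4 : Tendsto (fun n => (s n).1 (s n).2.1) atTop (𝓝 (S w)) :=
      ((isBoundedBilinearMap_apply.continuous.tendsto (S, w)).comp (hS1.prodMk_nhds hw1) :)
    have h5 := (dl.const_sub 1).comp (tendsto_add_atTop_nat 1)
    rw [sub_zero] at h5
    exact le_of_tendsto_of_tendsto' h5 (h4.norm.comp (tendsto_add_atTop_nat 1))
      fun n => (hF _ (hG n)).2.2.2.2.1.le
  have h4 := S.le_opNorm w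
  rw [hS, one_mul] at h4
  refine ⟨S, w, hS, by linarith, by linarith, (hS2 0).trans_lt (by show 2 * (ε / 3) < ε; linarith),
    by rw [norm_sub_rev]; exact (hw2 0).trans_lt (by show 2 * (ε / 3) < ε; linarith),
    fun x' hx hl => ?_⟩
  have h5 : ∀ n, ∀ᶠ m in atTop, ∃ θ : 𝕜, ‖θ‖ = 1 ∧ ‖x' m - θ • w‖ < 3 * (s n).2.2 := fun n => by
    rw [hS] at hl
    filter_upwards [hl.eventually (lt_mem_nhds (sub_lt_self 1 (d0 (n + 1))))] with m hm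
    have h6 := (S - (s (n + 1)).1).le_opNorm (x' m)
    have h7 := norm_le_norm_add_norm_sub' (S (x' m)) ((s (n + 1)).1 (x' m))
    have h8 := mul_le_mul (hS2 (n + 1)) (hx m) (norm_nonneg _) (by linarith [d0 (n + 1)])
    rw [sub_apply] at h6
    obtain ⟨θ, t1, t2⟩ := (hF _ (hG n)).2.2.2.2.2 (x' m) (hx m) (by
      show 1 - 3 * (s (n + 1)).2.2 < ‖(s (n + 1)).1 (x' m)‖
      linarith)
    refine ⟨θ, t1, ?_⟩
    have h9 := norm_sub_le_norm_sub_add_norm_sub (x' m) (θ • (s n).2.1) (θ • w)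
    rw [← smul_sub, norm_smul, t1, one_mul, norm_sub_rev _ w] at h9
    linarith [hw2 n]
  obtain ⟨φ, hφ, h6⟩ := extraction_forall_of_eventually h5
  choose θ t1 t2 using h6
  obtain ⟨θ0, t3, ψ, hψ, t4⟩ := (isCompact_sphere (0 : 𝕜) 1).tendsto_subseq (x := θ)
    fun n => mem_sphere_zero_iff_norm.2 (t1 n)
  refine ⟨φ ∘ ψ, θ0, hφ.comp hψ, mem_sphere_zero_iff_norm.1 t3, ?_⟩
  have h7 : Tendsto (fun n => x' (φ (ψ n)) - θ (ψ n) • w) atTop (𝓝 0) := by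
    have h8 := (dl.const_mul 3).comp hψ.tendsto_atTop
    rw [mul_zero] at h8
    exact squeeze_zero_norm (fun n => (t2 (ψ n)).le) h8
  simpa using h7.add (t4.smul_const w)

end Pool.Agent.H5.Iter
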