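import Pool.Agent.H5.Deco2
import Pool.Agent.H5.Iter

set_option autoImplicit false

open Filter Topology Pointwise

namespace Pool.Agent.H5.Deco

universe u

variable {𝕜 : Type} [RCLike 𝕜] {H : Type} [NormedAddCommGroup H] [InnerProductSpace 𝕜 H]
  [NormedSpace ℝ H] [IsScalarTower ℝ 𝕜 H] [CompleteSpace H]

/-- type synonym carrying a new norm -/
def Syn (V : Type) : Type := V

theorem space {K : Set H} (hc : Convex ℝ K) (hb : Bal 𝕜 K) (h0 : (0 : H) ∈ K)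
    (hD : ∀ k ∈ K, ‖k‖ ≤ 2) : ∃ (X : Type) (_ : NormedAddCommGroup X) (_ : NormedSpace 𝕜 X)
      (_ : CompleteSpace X) (e : H ≃L[𝕜] X), (∀ k ∈ K, ∀ h, ‖h‖ ≤ 1 → ‖e (k + h)‖ ≤ 1) ∧
        ∀ z, ‖e z‖ < 1 → ∃ k ∈ K, ∃ h, ‖h‖ ≤ 1 ∧ k + h = z := by
  let S : Set H := K + Metric.closedBall 0 1
  have hS : ∀ k ∈ K, ∀ h, ‖h‖ ≤ 1 → k + h ∈ S := fun k hk h hh =>
    Set.add_mem_add hk (mem_closedBall_zero_iff.2 hh)
  have h1 : Metric.ball (0 : H) 1 ⊆ S := fun h hh => by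
    simpa using hS 0 h0 h (mem_ball_zero_iff.1 hh).le
  have h2 : Absorbent ℝ S := (absorbent_ball_zero one_pos).mono h1
  have h3 : Convex ℝ S := hc.add (convex_closedBall 0 1)
  have h4 : Balanced 𝕜 S := Balanced.add (balanced_iff_smul_mem.2 fun c hc1 k hk => by
    obtain ⟨θ, t1, t2⟩ := RCLike.exists_norm_mul_eq_self c
    rw [← t2, mul_smul, ← RCLike.real_smul_eq_coe_smul]
    exact hb θ t1 _ (hc.smul_mem_of_zero_mem h0 hk ⟨norm_nonneg _, hc1⟩))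
    (balanced_closedBall_zero)
  have hl : ∀ x, ‖x‖ / 3 ≤ gauge S x := fun x => le_gauge_of_subset_closedBall h2 (by norm_num) (by
    rintro _ ⟨k, hk, h, hh, rfl⟩
    exact mem_closedBall_zero_iff.2 ((norm_add_le _ _).trans
      (by linarith [hD k hk, mem_closedBall_zero_iff.1 hh])))
  have ha := gauge_add_le h3 h2
  have hn : ∀ v : H, gauge S (-v) = gauge S v := fun v => by simpa using gauge_smul h4 (-1) v
  letI i1 : AddCommGroup (Syn H) := inferInstanceAs (AddCommGroup H)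
  letI i2 : Module 𝕜 (Syn H) := inferInstanceAs (Module 𝕜 H)
  let nrm : AddGroupNorm (Syn H) :=
    { toFun := fun v : H => gauge S v
      map_zero' := gauge_zero
      add_le' := ha
      neg' := hn
      eq_zero_of_map_eq_zero' := fun v h => norm_le_zero_iff.1 (show ‖(show H from v)‖ ≤ 0 by
        have h5 : gauge S (show H from v) = 0 := h
        linarith [hl v]) }
  letI i3 : NormedAddCommGroup (Syn H) := nrm.toNormedAddCommGroup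
  letI i4 : NormedSpace 𝕜 (Syn H) := { norm_smul_le := fun t v => (gauge_smul h4 t v).le }
  let e0 : H ≃ₗ[𝕜] Syn H := LinearEquiv.refl 𝕜 H
  let e : H ≃L[𝕜] Syn H := e0.toContinuousLinearEquivOfBounds 1 3
    (fun x => by
      have h5 := mul_gauge_le_norm (x := x) h1
      rw [one_mul] at h5 ⊢
      exact h5) (fun x => by
      have h5 : gauge S (e0.symm x) = ‖x‖ := rfl
      linarith [hl (e0.symm x)])
  have i5 : CompleteSpace (Syn H) :=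
    (completeSpace_congr (e := e.toLinearEquiv.toEquiv) e.isUniformEmbedding).1 inferInstance
  refine ⟨Syn H, i3, i4, i5, e, fun k hk h hh => gauge_le_one_of_mem (hS k hk h hh), fun z hz => ?_⟩
  obtain ⟨k, hk, h, hh, rfl⟩ := setOfPred_gauge_lt_one_subset_self h3
    (h1 (Metric.mem_ball_self one_pos)) h2 (show gauge S z < 1 from hz)
  exact ⟨k, hk, h, mem_closedBall_zero_iff.1 hh, rfl⟩

lemma bound {A : Type} {B : Type u} [NormedAddCommGroup A] [NormedSpace 𝕜 A] [NormedAddCommGroup B]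
    [NormedSpace 𝕜 B] (f : A →L[𝕜] B) {C : ℝ} (h : ∀ z, ‖z‖ < 1 → ‖f z‖ ≤ C) : ‖f‖ ≤ C :=
  le_of_not_gt fun h' => by
    obtain ⟨x, h1, h2⟩ := f.exists_lt_apply_of_lt_opNorm h'
    exact (h x h1).not_gt h2

lemma arith {μ σ s a D η : ℝ} (m0 : 0 < μ) (m1 : μ ≤ 1) (s0 : 0 < σ) (hs : 0 ≤ s) (hD : 0 ≤ D)
    (hη : 0 ≤ η) (h1 : s ^ 2 / 16 ≤ 2 * η + a)
    (h2 : μ * (a + σ * D) < μ * (σ * s) + μ * σ ^ 2 - 2 * η) : D ≤ 9 * σ ∧ s ≤ 17 * σ := by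
  have h3 : μ * (s ^ 2 / 16 + σ * D) < μ * (σ * s + σ ^ 2) := by
    nlinarith [mul_le_mul_of_nonneg_left h1 m0.le, mul_le_mul_of_nonneg_right m1 hη]
  have h4 := lt_of_mul_lt_mul_left h3 m0.le
  have h5 := mul_nonneg s0.le hD
  refine ⟨le_of_mul_le_mul_left (a := σ) (by nlinarith [sq_nonneg (s - 16 * σ)]) s0,
    le_of_sq_le_sq (by nlinarith [sq_nonneg (s - 16 * σ)]) (by positivity)⟩

omit [CompleteSpace H] in
lemma ri_mid (g h h' : H) (h1 : ‖h‖ ≤ 1) (h2 : ‖h'‖ ≤ 1) :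
    ‖g‖ * (‖h' - h‖ ^ 2 / 4) ≤ 2 * ‖g‖ - ri 𝕜 g h - ri 𝕜 g h' := by
  have h3 := parallelogram_law_with_norm 𝕜 h' h
  have h4 : ‖h' - h‖ ≤ 2 := (norm_sub_le _ _).trans (by linarith)
  have h5 : ‖h' + h‖ ≤ 2 - ‖h' - h‖ ^ 2 / 4 := le_of_sq_le_sq
    (by nlinarith [norm_nonneg h, norm_nonneg h', sq_nonneg (‖h' - h‖ ^ 2)])
    (by nlinarith [norm_nonneg (h' - h)])
  have h6 := (le_abs_self _).trans ((ri_le (𝕜 := 𝕜) g (h' + h)).trans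
    (mul_le_mul_of_nonneg_left h5 (norm_nonneg g)))
  rw [map_add] at h6
  linarith

theorem os {K : Set H} (h0 : (0 : H) ∈ K) (hD : ∀ k ∈ K, ‖k‖ ≤ 2)
    (hdec : ∀ ρ : ℝ, 0 < ρ → ∃ ε : ℝ, 0 < ε ∧ ε ≤ ρ ∧ ∀ (g k : H) (η : ℝ), ‖g‖ ≤ 1 → k ∈ K →
      0 < η → (∀ k' ∈ K, ri 𝕜 g k' ≤ ri 𝕜 g k + η) → ∃ b v : H, ‖b‖ = 1 ∧ v ∈ K ∧ ‖v - k‖ ≤ ρ ∧
        ri 𝕜 g k - 3 * η - 4 * ε ^ 3 ≤ ri 𝕜 g v ∧ ri 𝕜 b v = ε ∧ ∀ k' ∈ K, ri 𝕜 b k' ≤ ε ∧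
          ∀ s : ℝ, 0 ≤ s → 1 - ri 𝕜 b k' / ε ≤ s ^ 2 → ‖k' - v‖ ≤ ρ + 4 * s)
    {X : Type} [NormedAddCommGroup X] [NormedSpace 𝕜 X] (e : H ≃L[𝕜] X)
    (hA : ∀ k ∈ K, ∀ h, ‖h‖ ≤ 1 → ‖e (k + h)‖ ≤ 1)
    (hB : ∀ z, ‖e z‖ < 1 → ∃ k ∈ K, ∃ h, ‖h‖ ≤ 1 ∧ k + h = z)
    (Y : Type u) [NormedAddCommGroup Y] [NormedSpace 𝕜 Y] : Iter.OS 𝕜 X Y := by
  have he1 : ∀ z, ‖e z‖ ≤ ‖z‖ := fun z => by
    simpa using (e : H →L[𝕜] X).le_of_opNorm_le (bound (C := 1) _ fun z hz => by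
      simpa using hA 0 h0 z hz.le) z
  have hsh : ∀ (x : X) (γ : ℝ), 0 < γ → γ ≤ 1 → ‖x‖ ≤ 1 → ∃ k ∈ K, ∃ h, ‖h‖ ≤ 1 ∧
      e (k + h) = ((1 - γ : ℝ) : 𝕜) • x := fun x γ h1 h2 h3 => by
    obtain ⟨k, hk, h, hh, h4⟩ := hB (e.symm (((1 - γ : ℝ) : 𝕜) • x)) (by
      rw [e.apply_symm_apply, norm_smul, RCLike.norm_ofReal, abs_of_nonneg (by linarith)]
      nlinarith [norm_nonneg x])
    exact ⟨k, hk, h, hh, by rw [h4, e.apply_symm_apply]⟩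
  intro ε₀ hε₀
  obtain ⟨μ, m0, m1, m2⟩ : ∃ μ : ℝ, 0 < μ ∧ 100 * μ ≤ 1 ∧ 100 * μ ≤ ε₀ :=
    ⟨min 1 ε₀ / 100, by positivity, by linarith [min_le_left 1 ε₀], by linarith [min_le_right 1 ε₀]⟩
  obtain ⟨ε, e0, e1, hdec⟩ := hdec (μ ^ 5 / 16) (by positivity)
  have m3 : μ ^ 5 ≤ μ := pow_le_of_le_one m0.le (by linarith) (by norm_num)
  obtain ⟨σ, hσ⟩ : ∃ σ, σ = μ ^ 2 * ε := ⟨_, rfl⟩
  have s0 : 0 < σ := by rw [hσ]; positivity
  have s1 : σ ≤ μ := by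
    have := mul_le_mul (pow_le_of_le_one m0.le (show μ ≤ 1 by linarith) two_ne_zero)
      (show ε ≤ 1 by linarith) e0.le m0.le
    linarith
  have s2 : 16 * ε ^ 3 ≤ μ * σ ^ 2 := by
    have := mul_le_mul_of_nonneg_right e1 (sq_nonneg ε)
    rw [hσ]
    nlinarith
  obtain ⟨η, hη⟩ : ∃ η, 44 * η = μ * σ ^ 2 := ⟨μ * σ ^ 2 / 44, by ring⟩
  have n0 : 0 < η := by linarith [mul_pos m0 (pow_pos s0 2)]
  have n1 : η ≤ μ := by nlinarith [mul_le_mul_of_nonneg_left (show σ ^ 2 ≤ 1 by nlinarith) m0.le]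
  refine ⟨η, n0, fun T x hT hx hTx => ?_⟩
  obtain ⟨k, hk, h, hh, hkh⟩ := hsh x η n0 (by linarith) hx
  have hT1 : ∀ z, ‖z‖ ≤ 1 → ‖T z‖ ≤ 1 := fun z hz => hT ▸ T.unit_le_opNorm z hz
  have hn : 1 - 2 * η < ‖T (e (k + h))‖ := by
    rw [hkh, map_smul, norm_smul, RCLike.norm_ofReal, abs_of_nonneg (by linarith)]
    nlinarith [mul_lt_mul_of_pos_left hTx (show 0 < 1 - η by linarith)]
  obtain ⟨y, y1, y2⟩ := exists_dual_vector'' 𝕜 (T (e (k + h)))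
  have y3 : ∀ q, RCLike.re (y q) ≤ ‖q‖ := fun q => (RCLike.re_le_norm _).trans
    (by simpa using y.le_of_opNorm_le y1 q)
  obtain ⟨g, hg⟩ : ∃ g : H, ∀ z, inner 𝕜 g z = y (T (e z)) :=
    ⟨(InnerProductSpace.toDual 𝕜 H).symm (y.comp (T.comp (e : H →L[𝕜] X))),
      fun z => InnerProductSpace.toDual_symm_apply⟩
  have g1 : ∀ k' ∈ K, ri 𝕜 g k' + ‖g‖ ≤ 1 := fun k' hk' => by
    have h1 := (y3 _).trans (hT1 _ (hA k' hk' (‖g‖⁻¹ • g) (by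
      rw [norm_smul, norm_inv, norm_norm]; exact inv_mul_le_one)))
    rw [← hg, ← ri_apply, map_add, map_smul, ri_apply g g, inner_self_eq_norm_sq, smul_eq_mul, sq,
      ← mul_assoc, inv_mul_mul_self] at h1
    exact h1
  have g2 : 1 - 2 * η < ri 𝕜 g k + ri 𝕜 g h := by
    rw [← map_add, ri_apply, hg, y2, RCLike.ofReal_re]
    exact hn
  have g3 : ∀ a b : H, ‖b‖ ≤ 1 → ri 𝕜 a b ≤ ‖a‖ := fun a b hb =>
    (le_abs_self _).trans ((ri_le a b).trans (mul_le_of_le_one_right (norm_nonneg _) hb))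
  have g4 : ‖g‖ ≤ 1 := by simpa using g1 0 h0
  have g5 : 1 / 4 ≤ ‖g‖ := by
    have h1 := (le_abs_self _).trans ((ri_le (𝕜 := 𝕜) g k).trans
      (mul_le_mul_of_nonneg_left (hD k hk) (norm_nonneg _)))
    linarith [g3 g h hh]
  obtain ⟨b, v, b1, hv, v1, v2, v3, v4⟩ := hdec g k (2 * η) g4 hk (by linarith)
    fun k' hk' => by linarith [g1 k' hk', g3 g h hh]
  obtain ⟨w, w1, w2⟩ : ∃ w : Y, ‖w‖ = 1 ∧ y w = 1 := by
    have h1 : ‖T (e (k + h))‖ ≠ 0 := by linarith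
    refine ⟨(‖T (e (k + h))‖ : 𝕜)⁻¹ • T (e (k + h)), norm_smul_inv_norm (norm_ne_zero_iff.1 h1), ?_⟩
    rw [map_smul, y2, smul_eq_mul, inv_mul_cancel₀ (RCLike.ofReal_ne_zero.2 h1)]
  obtain ⟨φ, p1, p2⟩ : ∃ φ : X →L[𝕜] 𝕜, ‖φ‖ ≤ 6 ∧
      ∀ z, RCLike.re (φ (e z)) = ri 𝕜 g z + σ * ri 𝕜 b z := by
    refine ⟨(innerSL 𝕜 (g + (σ : 𝕜) • b)).comp (e.symm : X →L[𝕜] H), bound _ fun z hz => ?_,
      fun z => ?_⟩
    · obtain ⟨k', hk', h', hh', h1⟩ := hB (e.symm z) (by rwa [e.apply_symm_apply])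
      have h2 : ‖e.symm z‖ ≤ 3 := h1 ▸ (norm_add_le _ _).trans (by linarith [hD k' hk'])
      have h3 : ‖g + (σ : 𝕜) • b‖ ≤ 2 := (norm_add_le _ _).trans (by
        rw [norm_smul, RCLike.norm_ofReal, abs_of_pos s0, b1]; linarith)
      exact (norm_inner_le_norm _ (e.symm z)).trans
        ((mul_le_mul h3 h2 (norm_nonneg _) zero_le_two).trans (by norm_num))
    · show RCLike.re (inner 𝕜 (g + (σ : 𝕜) • b) (e.symm (e z))) = _
      rw [e.symm_apply_apply, inner_add_left, inner_smul_left, map_add, RCLike.conj_ofReal,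
        RCLike.re_ofReal_mul, ri_apply, ri_apply]
  obtain ⟨R, r1, r2⟩ : ∃ R : X →L[𝕜] Y, ‖R - T‖ ≤ 6 * μ ∧ ∀ z, R z = T z + ((μ : 𝕜) * φ z) • w := by
    refine ⟨T + ((μ : 𝕜) • φ).smulRight w, ?_, fun z => rfl⟩
    rw [add_sub_cancel_left, ContinuousLinearMap.norm_smulRight_apply, norm_smul, w1,
      RCLike.norm_ofReal, abs_of_pos m0]
    nlinarith
  have r3 := abs_le.1 ((abs_norm_sub_norm_le R T).trans r1)
  rw [hT] at r3
  have r4 : (1 + μ) * (1 - 8 * η - 4 * ε ^ 3) + μ * (σ * (ε + ri 𝕜 b h)) ≤ ‖R‖ := by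
    have h1 := (y3 _).trans (R.unit_le_opNorm _ (hA v hv h hh))
    rw [r2, map_add, map_smul, w2, ← hg, map_add, ← ri_apply, smul_eq_mul, mul_one,
      RCLike.re_ofReal_mul, p2, map_add, map_add, v3] at h1
    nlinarith [mul_le_mul_of_nonneg_left (show 1 - 8 * η - 4 * ε ^ 3 ≤ ri 𝕜 g v + ri 𝕜 g h by
      linarith) (show 0 ≤ 1 + μ by linarith)]
  have r5 : 0 < ‖R‖ := by linarith [r3.1]
  refine ⟨(‖R‖ : 𝕜)⁻¹ • R, η, n0, norm_smul_inv_norm (norm_pos_iff.1 r5), ?_, fun z hz hz' => ?_⟩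
  · have h1 : (‖R‖ : 𝕜)⁻¹ • R - R = (‖R‖ : 𝕜)⁻¹ • ((1 - ‖R‖ : ℝ) : 𝕜) • R := by
      rw [RCLike.ofReal_sub, RCLike.ofReal_one, sub_smul, one_smul, smul_sub,
        inv_smul_smul₀ (RCLike.ofReal_ne_zero.2 r5.ne')]
    have h2 := norm_sub_le_norm_sub_add_norm_sub ((‖R‖ : 𝕜)⁻¹ • R) R T
    rw [h1, norm_smul, norm_smul, norm_inv, RCLike.norm_ofReal, RCLike.norm_ofReal, abs_norm,
      mul_comm |_|, inv_mul_cancel_left₀ r5.ne'] at h2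
    linarith [abs_le.2 (show -(6 * μ) ≤ 1 - ‖R‖ ∧ 1 - ‖R‖ ≤ 6 * μ from
      ⟨by linarith [r3.2], by linarith [r3.1]⟩)]
  obtain ⟨θ, t1, t2⟩ := RCLike.exists_norm_eq_mul_self (φ z)
  obtain ⟨k', hk', h', hh', hkh'⟩ := hsh (θ • z) η n0 (by linarith) (by rwa [norm_smul, t1, one_mul])
  have q1 : ‖R‖ - 4 * η < ‖R (e (k' + h'))‖ := by
    rw [smul_apply, norm_smul, norm_inv, RCLike.norm_ofReal, abs_norm,
      lt_inv_mul_iff₀ r5] at hz'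
    rw [hkh', map_smul, map_smul, norm_smul, norm_smul, t1, RCLike.norm_ofReal,
      abs_of_nonneg (by linarith)]
    nlinarith [mul_lt_mul_of_pos_left hz' (show 0 < 1 - η by linarith), mul_pos r5 (mul_pos n0 n0),
      mul_le_mul_of_nonneg_left (show ‖R‖ ≤ 2 by linarith [r3.2]) n0.le]
  have q2 : ‖φ (e (k' + h'))‖ = ri 𝕜 g k' + ri 𝕜 g h' + σ * (ri 𝕜 b k' + ri 𝕜 b h') := by
    rw [← map_add, ← map_add, ← p2, hkh', map_smul, map_smul, smul_eq_mul, smul_eq_mul, ← t2,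
      ← RCLike.ofReal_mul, RCLike.norm_ofReal, RCLike.ofReal_re,
      abs_of_nonneg (mul_nonneg (by linarith) (norm_nonneg _))]
  have q3 : ‖R (e (k' + h'))‖ ≤ 1 + μ * ‖φ (e (k' + h'))‖ := by
    rw [r2]
    refine (norm_add_le _ _).trans (add_le_add (hT1 _ (hA k' hk' h' hh')) ?_)
    rw [norm_smul, w1, norm_mul, RCLike.norm_ofReal, abs_of_pos m0, mul_one]
  have q4 := ri_mid (𝕜 := 𝕜) g h h' hh hh'
  have q5 := (le_abs_self _).trans (ri_le (𝕜 := 𝕜) b (h' - h))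
  rw [map_sub, b1, one_mul] at q5
  obtain ⟨q6, q7⟩ := v4 k' hk'
  obtain ⟨q8, q9⟩ := arith (a := ‖g‖ - ri 𝕜 g h') m0 (by linarith) s0 (norm_nonneg (h' - h))
    (sub_nonneg.2 q6) n0.le (by
      nlinarith [g1 k hk, mul_le_mul_of_nonneg_right g5 (sq_nonneg ‖h' - h‖)]) (by
      rw [q2] at q3
      nlinarith [mul_le_mul_of_nonneg_left (g1 k' hk') m0.le,
        mul_le_mul_of_nonneg_left q5 (mul_pos m0 s0).le, mul_le_mul_of_nonneg_right m1 n0.le,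
        mul_le_mul_of_nonneg_right m1 (pow_pos e0 3).le, pow_pos e0 3])
  have q10 := q7 (3 * μ) (by linarith) (by
    rw [one_sub_div e0.ne', div_le_iff₀ e0]
    linarith)
  have t3 : θ ≠ 0 := by rintro rfl; simp at t1
  refine ⟨θ⁻¹, by rw [norm_inv, t1, inv_one], ?_⟩
  have q11 : z - θ⁻¹ • x = θ⁻¹ • (e ((k' - v) + (v - k) + (h' - h)) + (η : 𝕜) • (θ • z - x)) := by
    rw [show (k' - v) + (v - k) + (h' - h) = k' + h' - (k + h) by abel, map_sub, hkh, hkh',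
      ← smul_sub, ← add_smul, RCLike.ofReal_sub, RCLike.ofReal_one, sub_add_cancel, one_smul,
      smul_sub, inv_smul_smul₀ t3]
  have q12 : ‖θ • z - x‖ ≤ 2 := (norm_sub_le _ _).trans (by rw [norm_smul, t1]; linarith)
  rw [q11, norm_smul, norm_inv, t1, inv_one, one_mul]
  refine (norm_add_le _ _).trans_lt ((add_le_add ((he1 _).trans norm_add₃_le) le_rfl).trans_lt ?_)
  rw [norm_smul, RCLike.norm_ofReal, abs_of_pos n0]
  nlinarith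

end Pool.Agent.H5.Deco
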