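import Pool.Agent.H5.Deco3

set_option autoImplicit false

namespace Pool.Agent.H5.Deco

universe u

theorem model (𝕜 : Type) [RCLike 𝕜] : ∃ (X : Type) (_ : NormedAddCommGroup X)
    (_ : NormedSpace 𝕜 X) (_ : CompleteSpace X) (e : HH 𝕜 ≃L[𝕜] X),
    (∀ (Y : Type u) [NormedAddCommGroup Y] [NormedSpace 𝕜 Y], Iter.OS 𝕜 X Y) ∧
    (∀ (c : 𝕜) h, ‖c‖ ≤ 1 → ‖h‖ ≤ 1 → ‖e (c • E 𝕜 (0, 0) + h)‖ ≤ 1) ∧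
    ∀ (B : Type) [NormedAddCommGroup B] [NormedSpace 𝕜 B] (F : HH 𝕜 →L[𝕜] B) (C : ℝ),
      (∀ (c : 𝕜) h, ‖c‖ ≤ 1 → ‖h‖ ≤ 1 → ‖F (c • E 𝕜 (0, 0) + h)‖ ≤ C) →
        ∀ z, ‖F (P 𝕜 0 z)‖ ≤ C * ‖e z‖ := by
  obtain ⟨K, h1, h2, h3, h4, h5, h6⟩ := multi 𝕜
  have h0 : (0 : HH 𝕜) ∈ K := by simpa using h4 0 (by simp)
  obtain ⟨X, i1, i2, i3, e, hA, hB⟩ := space h1 h2 h0 h3
  refine ⟨X, i1, i2, i3, e, fun Y _ _ => os h0 h3 h6 e hA hB Y,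
    fun c h hc hh => hA _ (h4 c hc) h hh, fun B _ _ F C hF z => ?_⟩
  have h7 := bound (C := C) (F.comp ((P 𝕜 0).comp (e.symm : X →L[𝕜] HH 𝕜))) fun x hx => by
    obtain ⟨k, hk, h, hh, h8⟩ := hB (e.symm x) (by rwa [e.apply_symm_apply])
    obtain ⟨c, hc, h9⟩ := h5 k hk
    show ‖F (P 𝕜 0 (e.symm x))‖ ≤ C
    rw [← h8, map_add, h9]
    exact hF c _ hc (((U 𝕜 0).norm_starProjection_apply_le h).trans hh)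
  simpa using ContinuousLinearMap.le_of_opNorm_le _ h7 (e z)

lemma coord (𝕜 : Type) [RCLike 𝕜] (p : ℕ × ℕ) (c : 𝕜) (h : HH 𝕜) (hh : ‖h‖ ≤ 1) :
    ‖innerSL 𝕜 (E 𝕜 p) (c • E 𝕜 (0, 0) + h)‖ ≤ ‖c‖ * ‖inner 𝕜 (E 𝕜 p) (E 𝕜 (0, 0))‖ + 1 := by
  rw [map_add, map_smul, ← norm_smul]
  refine (norm_add_le _ _).trans (add_le_add le_rfl ((norm_inner_le_norm _ h).trans ?_))
  rwa [(E_on 𝕜).norm_eq_one, one_mul]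

lemma coord1 (𝕜 : Type) [RCLike 𝕜] (c : 𝕜) (h : HH 𝕜) (hh : ‖h‖ ≤ 1) :
    ‖innerSL 𝕜 (E 𝕜 (0, 1)) (c • E 𝕜 (0, 0) + h)‖ ≤ 1 := by
  have h1 := coord 𝕜 (0, 1) c h hh
  rwa [(E_on 𝕜).inner_eq_zero (by simp), norm_zero, mul_zero, zero_add] at h1

lemma coord0 (𝕜 : Type) [RCLike 𝕜] (c : 𝕜) (h : HH 𝕜) (hc : ‖c‖ ≤ 1) (hh : ‖h‖ ≤ 1) :
    ‖innerSL 𝕜 (E 𝕜 (0, 0)) (c • E 𝕜 (0, 0) + h)‖ ≤ 2 := by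
  have h1 := coord 𝕜 (0, 0) c h hh
  rw [inner_self_eq_one_of_norm_eq_one ((E_on 𝕜).norm_eq_one _), norm_one] at h1
  linarith

end Pool.Agent.H5.Deco
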