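import Mathlib

set_option autoImplicit false

open Metric Set Real

namespace Pool.Agent.H5.FinSub

variable {ι : Type*} [Fintype ι] [DecidableEq ι]

/-- cut-off at level `k` -/
noncomputable def psi (k : ℕ) (s : ℝ) : ℝ := smoothTransition (2 - s / (2 * 8 ^ k))

/-- gap detector at level `k` -/
noncomputable def phi (k : ℕ) (s : ℝ) : ℝ :=
  smoothTransition (2 - s / 8 ^ k) + smoothTransition (s / (4 * 8 ^ k) - 1)

/-- unnormalised averaging weights -/
noncomputable def q (k : ℕ) (E : ι × ι → ℝ) (i j : ι) : ℝ := if i = j then 1 else psi k (E (i, j))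

/-- gap weight -/
noncomputable def t (k : ℕ) (E : ι × ι → ℝ) : ℝ := ∏ p, phi k (E p)

/-- the coefficients -/
noncomputable def lam : ℕ → (ι × ι → ℝ) → ι × ι → ℝ
  | 0, _ => fun p => if p.1 = p.2 then 1 else 0
  | k + 1, E => fun p => (1 - t k E) * lam k E p + t k E * (q k E p.1 p.2 / ∑ m, q k E p.1 m)

lemma psi_one {k : ℕ} {s : ℝ} (h : s ≤ 2 * 8 ^ k) : psi k s = 1 := by
  refine smoothTransition.one_of_one_le ?_
  have : s / (2 * 8 ^ k) ≤ 1 := by rwa [div_le_one (by positivity)]
  linarith

lemma psi_zero {k : ℕ} {s : ℝ} (h : 4 * 8 ^ k ≤ s) : psi k s = 0 := by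
  refine smoothTransition.zero_of_nonpos ?_
  have : 2 ≤ s / (2 * 8 ^ k) := by rw [le_div_iff₀ (by positivity)]; linarith
  linarith

lemma phi_zero {k : ℕ} {s : ℝ} (h : 2 * 8 ^ k ≤ s) (h' : s ≤ 4 * 8 ^ k) : phi k s = 0 := by
  have h1 : 2 ≤ s / 8 ^ k := by rwa [le_div_iff₀ (by positivity)]
  have h2 : s / (4 * 8 ^ k) ≤ 1 := by rwa [div_le_one (by positivity)]
  rw [phi, smoothTransition.zero_of_nonpos (by linarith),
    smoothTransition.zero_of_nonpos (by linarith), add_zero]

lemma phi_one {k : ℕ} {s : ℝ} (h : s ≤ 8 ^ k ∨ 8 ^ (k + 1) ≤ s) : phi k s = 1 := by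
  have h0 : (0 : ℝ) < 8 ^ k := by positivity
  rcases h with h | h
  · have h1 : s / 8 ^ k ≤ 1 := by rwa [div_le_one h0]
    have h2 : s / (4 * 8 ^ k) ≤ 1 := by rw [div_le_one (by positivity)]; linarith
    rw [phi, smoothTransition.one_of_one_le (by linarith),
      smoothTransition.zero_of_nonpos (by linarith), add_zero]
  · rw [pow_succ] at h
    have h1 : 2 ≤ s / 8 ^ k := by rw [le_div_iff₀ h0]; linarith
    have h2 : 2 ≤ s / (4 * 8 ^ k) := by rw [le_div_iff₀ (by positivity)]; linarith
    rw [phi, smoothTransition.zero_of_nonpos (by linarith),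
      smoothTransition.one_of_one_le (by linarith), zero_add]

lemma den_pos (k : ℕ) (E : ι × ι → ℝ) (i : ι) : 0 < ∑ m, q k E i m := by
  refine Finset.sum_pos' (fun m _ => ?_) ⟨i, Finset.mem_univ _, by simp [q]⟩
  unfold q psi
  split_ifs
  · exact zero_le_one
  · exact smoothTransition.nonneg _

lemma contDiff_lam (k : ℕ) : ContDiff ℝ 1 (lam (ι := ι) k) := by
  have hs : ContDiff ℝ 1 smoothTransition := smoothTransition.contDiff (n := 1)
  have hq : ∀ k (i j : ι), ContDiff ℝ 1 fun E => q k E i j := fun k i j => by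
    unfold q psi
    split_ifs
    · exact contDiff_const
    · exact hs.comp (by fun_prop)
  have ht : ∀ k, ContDiff ℝ 1 (t (ι := ι) k) := fun k =>
    contDiff_prod fun p _ => (hs.comp (by fun_prop)).add (hs.comp (by fun_prop))
  induction k with
  | zero => exact contDiff_const
  | succ k ih =>
    refine contDiff_pi.2 fun p => ?_
    exact ((contDiff_const.sub (ht k)).mul (contDiff_pi.1 ih p)).add ((ht k).mul
      ((hq k _ _).div (ContDiff.sum fun m _ => hq k _ m) fun E => (den_pos k E _).ne'))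

lemma sum_lam (k : ℕ) (E : ι × ι → ℝ) (i : ι) : ∑ j, lam k E (i, j) = 1 := by
  induction k with
  | zero => simp [lam]
  | succ k ih =>
    simp only [lam]
    rw [Finset.sum_add_distrib, ← Finset.mul_sum, ← Finset.mul_sum, ih, ← Finset.sum_div,
      div_self (den_pos k E i).ne']
    ring

lemma lam_zero (k : ℕ) (E : ι × ι → ℝ) {i j : ι} (hij : i ≠ j) (h : 8 ^ k ≤ E (i, j)) :
    lam k E (i, j) = 0 := by
  induction k with
  | zero => simp [lam, hij]
  | succ k ih =>
    have h0 : (0 : ℝ) < 8 ^ k := by positivity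
    rw [pow_succ] at h
    simp only [lam, q, if_neg hij]
    rw [ih (by linarith), psi_zero (by linarith)]
    simp

lemma lam_equiv (k : ℕ) (E : ι × ι → ℝ) (σ : ι ≃ ι) (p : ι × ι) :
    lam k (fun p => E (σ p.1, σ p.2)) p = lam k E (σ p.1, σ p.2) := by
  induction k with
  | zero => simp [lam]
  | succ k ih =>
    have h1 : t k (fun p => E (σ p.1, σ p.2)) = t k E :=
      (σ.prodCongr σ).prod_comp fun p => phi k (E p)
    have h2 : ∀ i j, q k (fun p => E (σ p.1, σ p.2)) i j = q k E (σ i) (σ j) := fun i j => by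
      simp [q]
    simp only [lam, h1, h2, ih, σ.sum_comp (q k E (σ p.1))]

lemma lam_merge {E : ι × ι → ℝ} {a b : ι} (hE : ∀ i, E (i, i) = 0)
    (h : ∀ m, |E (a, m) - E (b, m)| ≤ 1) (m : ι) :
    lam (Fintype.card (ι × ι) + 1) E (a, m) = lam (Fintype.card (ι × ι) + 1) E (b, m) := by
  have hq : ∀ k i j, q k E i j = psi k (E (i, j)) := fun k i j => by
    unfold q
    split_ifs with h1
    · rw [h1, hE, psi_one (by positivity)]
    · rfl
  have h1 : ∀ k, t k E ≠ 0 → ∀ m, q k E a m = q k E b m := fun k hk m => by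
    have h2 : ∀ p, E p < 2 * 8 ^ k ∨ 4 * 8 ^ k < E p := fun p => by
      by_contra h3
      push Not at h3
      exact hk (Finset.prod_eq_zero (Finset.mem_univ p) (phi_zero h3.1 h3.2))
    have h3 : (1 : ℝ) ≤ 8 ^ k := one_le_pow₀ (by norm_num)
    have h4 := abs_le.1 (h m)
    rw [hq, hq]
    rcases h2 (a, m) with h5 | h5 <;> rcases h2 (b, m) with h6 | h6
    · rw [psi_one h5.le, psi_one h6.le]
    · linarith
    · linarith
    · rw [psi_zero h5.le, psi_zero h6.le]
  obtain ⟨k0, hk0, hk0'⟩ : ∃ k0 < Fintype.card (ι × ι) + 1, t k0 E = 1 := by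
    by_contra h2
    push Not at h2
    have h3 : ∀ k : Fin (Fintype.card (ι × ι) + 1), ∃ p, 8 ^ k.1 < E p ∧ E p < 8 ^ (k.1 + 1) :=
      fun k => by
        by_contra h4
        push Not at h4
        refine h2 k.1 k.2 (Finset.prod_eq_one fun p _ => phi_one ?_)
        rcases le_or_gt (E p) (8 ^ k.1) with h5 | h5
        exacts [Or.inl h5, Or.inr (h4 p h5)]
    choose f hf using h3
    have h4 : Function.Injective f := fun k l hkl => by
      have h5 := hf k
      have h6 := hf l
      rw [hkl] at h5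
      have h7 := (pow_lt_pow_iff_right₀ (by norm_num : (1 : ℝ) < 8)).1 (h5.1.trans h6.2)
      have h8 := (pow_lt_pow_iff_right₀ (by norm_num : (1 : ℝ) < 8)).1 (h6.1.trans h5.2)
      exact Fin.ext (by omega)
    have := Fintype.card_le_of_injective f h4
    simp at this
  have h2 : ∀ k, k0 + 1 ≤ k → lam k E (a, m) = lam k E (b, m) := by
    intro k hk
    induction k, hk using Nat.le_induction with
    | base => simp only [lam, hk0', h1 k0 (by simp [hk0']), sub_self, zero_mul]
    | succ k _ ih =>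
      by_cases h3 : t k E = 0
      · simp only [lam, h3, ih, zero_mul]
      · simp only [lam, h1 k h3, ih]
  exact h2 _ hk0

variable {X : Type*} [NormedAddCommGroup X] [NormedSpace ℝ X]

/-- capped normalised distances -/
noncomputable def EE (x : ι → X) : ι × ι → ℝ := fun p =>
  min (‖x p.1 - x p.2‖ / (range x).infsep) (8 ^ (Fintype.card (ι × ι) + 1))

/-- the moved points -/
noncomputable def R (x : ι → X) (i : ι) : X :=
  ∑ j, lam (Fintype.card (ι × ι) + 1) (EE x) (i, j) • x j

lemma R_sub (x : ι → X) (i : ι) :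
    R x i - x i = ∑ j, lam (Fintype.card (ι × ι) + 1) (EE x) (i, j) • (x j - x i) := by
  simp only [smul_sub, Finset.sum_sub_distrib, ← Finset.sum_smul, sum_lam, one_smul, R]

lemma R_equiv (x : ι → X) (σ : ι ≃ ι) (i : ι) : R (x ∘ σ) i = R x (σ i) := by
  have h1 : EE (x ∘ σ) = fun p => EE x (σ p.1, σ p.2) := by
    funext p
    simp only [EE, σ.surjective.range_comp, Function.comp]
  simp only [R, h1, lam_equiv, Function.comp]
  exact σ.sum_comp fun j => lam _ (EE x) (σ i, j) • x j

lemma range_R {x y : ι → X} (hx : Function.Injective x) (hy : Function.Injective y)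
    (h : range x = range y) : range (R x) = range (R y) := by
  let σ : ι ≃ ι := (Equiv.ofInjective y hy).trans
    ((Equiv.setCongr h.symm).trans (Equiv.ofInjective x hx).symm)
  have h1 : y = x ∘ σ := by
    funext i
    simp [σ, Equiv.apply_ofInjective_symm]
  have h2 : R y = R x ∘ σ := by
    funext i
    rw [h1, R_equiv]; rfl
  rw [h2, σ.surjective.range_comp]

lemma nontrivial_of_range {α β : Type*} [Nontrivial α] {x : α → β} (hx : Function.Injective x) :
    (range x).Nontrivial := by
  obtain ⟨a, b, h⟩ := exists_pair_ne α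
  exact ⟨_, mem_range_self a, _, mem_range_self b, hx.ne h⟩

omit [DecidableEq ι] [NormedSpace ℝ X] in
lemma infsep_pos [Nontrivial ι] {x : ι → X} (hx : Function.Injective x) : 0 < (range x).infsep :=
  (finite_range x).infsep_pos_iff_nontrivial.2 (nontrivial_of_range hx)

lemma card_R [Nontrivial ι] {x : ι → X} (hx : Function.Injective x) :
    (range (R x)).ncard ≤ Fintype.card ι - 1 := by
  have h0 := infsep_pos hx
  obtain ⟨_, ⟨a, rfl⟩, _, ⟨b, rfl⟩, hab, h⟩ := (finite_range x).infsep_exists_of_nontrivial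
    (nontrivial_of_infsep_pos h0)
  have h1 : R x a = R x b := Finset.sum_congr rfl fun m _ => by
    rw [lam_merge (a := a) (b := b) (fun i => by simp [EE]) fun m => ?_]
    refine (abs_min_sub_min_le_max _ _ _ _).trans (max_le ?_ (by simp))
    rw [← sub_div, abs_div, abs_of_pos h0, div_le_one h0, h, dist_eq_norm]
    simpa using abs_norm_sub_norm_le (x a - x m) (x b - x m)
  have h2 : range (R x) ⊆ R x '' (Finset.univ.erase a : Finset ι) := by
    rintro _ ⟨i, rfl⟩
    by_cases hi : i = a
    · exact ⟨b, by simpa using fun h3 => hab (by rw [h3]), by rw [hi, h1]⟩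
    · exact ⟨i, by simpa using hi, rfl⟩
  refine (ncard_le_ncard h2 ((Finset.finite_toSet _).image _)).trans
    ((ncard_image_le (Finset.finite_toSet _)).trans ?_)
  rw [ncard_coe_finset, Finset.card_erase_of_mem (Finset.mem_univ _), Finset.card_univ]

omit [DecidableEq ι] [NormedSpace ℝ X] in
lemma EE_mem (x : ι → X) : EE x ∈ Icc (0 : ι × ι → ℝ) fun _ => 8 ^ (Fintype.card (ι × ι) + 1) :=
  ⟨fun _ => le_min (div_nonneg (norm_nonneg _) infsep_nonneg) (by positivity),
    fun _ => min_le_right _ _⟩

lemma near_of_ne [Nontrivial ι] {x : ι → X} (hx : Function.Injective x) {i j : ι}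
    (h : lam (Fintype.card (ι × ι) + 1) (EE x) (i, j) ≠ 0) :
    ‖x j - x i‖ ≤ 8 ^ (Fintype.card (ι × ι) + 1) * (range x).infsep := by
  have h0 := infsep_pos hx
  by_cases hij : i = j
  · rw [hij, sub_self, norm_zero]; positivity
  · by_contra h1
    refine h (lam_zero _ _ hij (le_min ?_ le_rfl))
    rw [le_div_iff₀ h0, norm_sub_rev]
    exact (not_le.1 h1).le

lemma min_est {a b d1 d2 d M : ℝ} (h1 : 0 < d1) (h2 : 0 < d2) (hM : 0 ≤ M) (hb : 0 ≤ b)
    (hab : a ≤ b + 2 * d) (hd : d2 ≤ d1 + 2 * d) (hd0 : 0 ≤ d) :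
    min (a / d1) M - min (b / d2) M ≤ (2 + 2 * M) * d / d1 := by
  rcases le_total M (b / d2) with h | h
  · rw [min_eq_right h]
    have : 0 ≤ (2 + 2 * M) * d / d1 := by positivity
    linarith [min_le_right (a / d1) M]
  · rw [min_eq_left h]
    have h3 : a / d1 - b / d2 ≤ (2 + 2 * M) * d / d1 := by
      have h4 : b = b / d2 * d2 := by field_simp
      have h5 : 0 ≤ b / d2 := by positivity
      rw [sub_le_iff_le_add, div_add' _ _ _ h1.ne', div_le_div_iff_of_pos_right h1]
      nlinarith
    linarith [min_le_left (a / d1) M]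

omit [Fintype ι] [DecidableEq ι] [NormedSpace ℝ X] in
lemma infsep_le [Finite ι] [Nontrivial ι] {x y : ι → X} (hx : Function.Injective x)
    (hy : Function.Injective y) {d : ℝ} (h : ∀ i, ‖x i - y i‖ ≤ d) :
    (range y).infsep ≤ (range x).infsep + 2 * d := by
  obtain ⟨_, ⟨a, rfl⟩, _, ⟨b, rfl⟩, hab, h1⟩ := (finite_range x).infsep_exists_of_nontrivial
    (nontrivial_of_range hx)
  have h2 := infsep_le_dist_of_mem (mem_range_self (f := y) a) (mem_range_self b)
    (hy.ne fun h3 => hab (by rw [h3]))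
  have h3 := dist_triangle4 (y a) (x a) (x b) (y b)
  rw [dist_comm (y a) (x a), dist_eq_norm (x a) (y a), dist_eq_norm (x b) (y b)] at h3
  linarith [h a, h b]

theorem exists_const [Nontrivial ι] : ∃ C : ℝ, 0 ≤ C ∧
    (∀ x : ι → X, Function.Injective x → ∀ i, ‖R x i - x i‖ ≤ C * (range x).infsep) ∧
    ∀ x y : ι → X, Function.Injective x → Function.Injective y → ∀ d, (∀ i, ‖x i - y i‖ ≤ d) →
      d ≤ (range x).infsep / 4 → ∀ i, ‖R x i - R y i‖ ≤ C * d := by
  set K := Fintype.card (ι × ι) + 1 with hK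
  set M : ℝ := 8 ^ K with hM
  have hM1 : 1 ≤ M := one_le_pow₀ (by norm_num)
  have hQ : IsCompact (Icc (0 : ι × ι → ℝ) fun _ => M) := isCompact_Icc
  obtain ⟨L, hL⟩ := LocallyLipschitzOn.exists_lipschitzOnWith_of_compact hQ
    (contDiff_lam K).locallyLipschitz.locallyLipschitzOn
  obtain ⟨B, hB⟩ := hQ.exists_bound_of_continuousOn (contDiff_lam K).continuous.continuousOn
  have hB' : ∀ (x : ι → X) p, |lam K (EE x) p| ≤ |B| := fun x p =>
    ((norm_le_pi_norm _ p).trans (hB _ (EE_mem x))).trans (le_abs_self B)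
  set n : ℝ := (Fintype.card ι : ℝ) with hn
  have hn0 : 0 ≤ n := Nat.cast_nonneg _
  refine ⟨n * (|B| * M) + (1 + n * (L * (8 * (1 + M) * M) + 2 * |B|)), by positivity,
    fun x hx i => ?_, fun x y hx hy d hd hd' i => ?_⟩
  · have h0 := infsep_pos hx
    have h1 : ‖R x i - x i‖ ≤ n * (|B| * (M * (range x).infsep)) := by
      rw [R_sub]
      refine (norm_sum_le _ _).trans ((Finset.sum_le_card_nsmul _ _ _ fun j _ => ?_).trans
        (by rw [nsmul_eq_mul, Finset.card_univ]))
      by_cases h : lam K (EE x) (i, j) = 0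
      · rw [h, zero_smul, norm_zero]; positivity
      · rw [norm_smul, Real.norm_eq_abs]
        exact mul_le_mul (hB' x _) (near_of_ne hx h) (norm_nonneg _) (abs_nonneg _)
    have h2 : 0 ≤ (1 + n * (L * (8 * (1 + M) * M) + 2 * |B|)) * (range x).infsep := by positivity
    linarith
  · have h0 := infsep_pos hx
    have h0' := infsep_pos hy
    have hd0 : 0 ≤ d := (norm_nonneg _).trans (hd i)
    have h1 := infsep_le hx hy hd
    have h2 := infsep_le hy hx (d := d) fun i => by rw [norm_sub_rev]; exact hd i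
    have h3 : ∀ a b, ‖(x a - x b) - (y a - y b)‖ ≤ 2 * d := fun a b => by
      rw [sub_sub_sub_comm]
      linarith [norm_sub_le (x a - y a) (x b - y b), hd a, hd b]
    have h4 : dist (EE x) (EE y) ≤ 4 * (1 + M) * d / (range x).infsep := by
      refine (dist_pi_le_iff (by positivity)).2 fun p => ?_
      have h5 := abs_le.1 ((abs_norm_sub_norm_le _ _).trans (h3 p.1 p.2))
      have h6 := min_est (a := ‖x p.1 - x p.2‖) h0 h0' (zero_le_one.trans hM1)
        (norm_nonneg (y p.1 - y p.2)) (by linarith) h1 hd0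
      have h7 := min_est (a := ‖y p.1 - y p.2‖) h0' h0 (zero_le_one.trans hM1)
        (norm_nonneg (x p.1 - x p.2)) (by linarith) h2 hd0
      have h8 : (2 + 2 * M) * d / (range x).infsep ≤ 4 * (1 + M) * d / (range x).infsep := by
        gcongr; linarith
      have h9 : (2 + 2 * M) * d / (range y).infsep ≤ 4 * (1 + M) * d / (range x).infsep := by
        rw [div_le_div_iff₀ h0' h0]
        have : 0 ≤ (1 + M) * d := by positivity
        nlinarith
      rw [Real.dist_eq, abs_le]
      exact ⟨by simp only [EE]; linarith, by simp only [EE]; linarith⟩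
    have h5 : ∀ p, |lam K (EE x) p - lam K (EE y) p| ≤
        L * (4 * (1 + M) * d / (range x).infsep) := fun p => by
      rw [← Real.dist_eq]
      exact (dist_le_pi_dist _ _ p).trans ((hL.dist_le_mul _ (EE_mem x) _ (EE_mem y)).trans
        (by gcongr))
    have h6 : ‖(R x i - x i) - (R y i - y i)‖ ≤ n * ((L * (8 * (1 + M) * M) + 2 * |B|) * d) := by
      rw [R_sub, R_sub, ← Finset.sum_sub_distrib]
      refine (norm_sum_le _ _).trans ((Finset.sum_le_card_nsmul _ _ _ fun j _ => ?_).trans
        (by rw [nsmul_eq_mul, Finset.card_univ]))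
      have h7 : lam K (EE x) (i, j) • (x j - x i) - lam K (EE y) (i, j) • (y j - y i) =
          (lam K (EE x) (i, j) - lam K (EE y) (i, j)) • (x j - x i) +
            lam K (EE y) (i, j) • ((x j - x i) - (y j - y i)) := by module
      have h8 : ‖lam K (EE y) (i, j) • ((x j - x i) - (y j - y i))‖ ≤ |B| * (2 * d) := by
        rw [norm_smul, Real.norm_eq_abs]
        exact mul_le_mul (hB' y _) (h3 j i) (norm_nonneg _) (abs_nonneg _)
      have h9 : ‖(lam K (EE x) (i, j) - lam K (EE y) (i, j)) • (x j - x i)‖ ≤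
          L * (8 * (1 + M) * M) * d := by
        by_cases h : lam K (EE x) (i, j) = 0 ∧ lam K (EE y) (i, j) = 0
        · rw [h.1, h.2, sub_self, zero_smul, norm_zero]; positivity
        · have h10 : ‖x j - x i‖ ≤ 2 * M * (range x).infsep := by
            rcases not_and_or.1 h with h | h
            · have := near_of_ne hx h
              nlinarith
            · have := near_of_ne hy h
              have h11 := (abs_le.1 ((abs_norm_sub_norm_le _ _).trans (h3 j i))).2
              nlinarith
          rw [norm_smul, Real.norm_eq_abs]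
          refine (mul_le_mul (h5 _) h10 (norm_nonneg _) (by positivity)).trans (le_of_eq ?_)
          field_simp
          ring
      rw [h7]
      linarith [norm_add_le ((lam K (EE x) (i, j) - lam K (EE y) (i, j)) • (x j - x i))
        (lam K (EE y) (i, j) • ((x j - x i) - (y j - y i)))]
    have h7 : R x i - R y i = ((R x i - x i) - (R y i - y i)) + (x i - y i) := by abel
    have h8 := norm_add_le ((R x i - x i) - (R y i - y i)) (x i - y i)
    have h9 : 0 ≤ n * (|B| * M) * d := by positivity
    rw [h7]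
    linarith [hd i]

end Pool.Agent.H5.FinSub
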