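import Mathlib

namespace Pool.Agent.H5.Freq

open Finset Filter

/-- Binary words of length n (true = 1) that do not contain w as a factor. -/
def Omega (w : List Bool) (n : ℕ) : Finset (Fin n → Bool) :=
  univ.filter fun u => ¬ w <:+: List.ofFn u

/-- Average frequency of 1s over the words of length n that avoid w. -/
noncomputable def freq (w : List Bool) (n : ℕ) : ℝ :=
  (∑ u ∈ Omega w n, ((List.ofFn u).count true : ℝ)) / (n * (Omega w n).card)

def F (w p : List Bool) (n : ℕ) : ℕ :=
  ∑ u : Fin n → Bool, if w <:+: p ++ List.ofFn u then 0 else 1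

def G (w p : List Bool) (n : ℕ) : ℕ :=
  ∑ u : Fin n → Bool, if w <:+: p ++ List.ofFn u then 0 else (List.ofFn u).count true

lemma sum_succ (n : ℕ) (f : List Bool → ℕ) :
    ∑ u : Fin (n + 1) → Bool, f (List.ofFn u) =
      ∑ u : Fin n → Bool, f (false :: List.ofFn u) + ∑ u : Fin n → Bool, f (true :: List.ofFn u) := by
  rw [← (Fin.consEquiv fun _ : Fin (n + 1) => Bool).sum_comp, Fintype.sum_prod_type,
    Fintype.sum_bool, add_comm]
  simp [Fin.consEquiv, List.ofFn_succ]

lemma F_succ (w p : List Bool) (n : ℕ) :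
    F w p (n + 1) = F w (p ++ [false]) n + F w (p ++ [true]) n := by
  unfold F
  rw [sum_succ n fun l => if w <:+: p ++ l then 0 else 1]
  simp

lemma G_succ (w p : List Bool) (n : ℕ) :
    G w p (n + 1) = G w (p ++ [false]) n + (G w (p ++ [true]) n + F w (p ++ [true]) n) := by
  unfold G F
  rw [sum_succ n fun l => if w <:+: p ++ l then 0 else l.count true, ← sum_add_distrib,
    ← sum_add_distrib, ← sum_add_distrib]
  apply sum_congr rfl
  intro u _
  simp only [List.append_assoc, List.singleton_append]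
  split_ifs <;> simp

lemma FG_congr (w p q : List Bool) (h : ∀ l, w <:+: p ++ l ↔ w <:+: q ++ l) (n : ℕ) :
    F w p n = F w q n ∧ G w p n = G w q n := by
  unfold F G
  simp [h]

lemma FG_dead (w : List Bool) (n : ℕ) : F w w n = 0 ∧ G w w n = 0 := by
  unfold F G
  have : ∀ l, w <:+: w ++ l := fun l => (List.prefix_append w l).isInfix
  simp [this]

lemma freq_eq (w : List Bool) (n : ℕ) : freq w n = G w [] n / (n * F w [] n) := by
  unfold freq Omega F G
  rw [card_filter, sum_filter]
  push_cast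
  congr 1
  · apply sum_congr rfl
    intro u _
    simp only [List.nil_append]
    split_ifs <;> simp
  · congr 1
    apply sum_congr rfl
    intro u _
    simp only [List.nil_append]
    split_ifs <;> simp

lemma G_le (w p : List Bool) (n : ℕ) : G w p n ≤ n * F w p n := by
  unfold F G
  rw [mul_sum]
  apply sum_le_sum
  intro u _
  split_ifs
  · simp
  · simpa using List.count_le_length (a := true) (l := List.ofFn u)

def v : List Bool := [true, true, false, true]
def w : List Bool := [true, true, true, true]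

lemma v_init : F v [] 0 = 1 ∧ F v [true] 0 = 1 ∧ F v [true, true] 0 = 1 ∧
    F v [true, true, false] 0 = 1 := by decide

lemma w_init : F w [] 0 = 1 ∧ F w [true] 0 = 1 ∧ F w [true, true] 0 = 1 ∧
    F w [true, true, true] 0 = 1 := by decide

attribute [irreducible] F G

section V

lemma v_rec (n : ℕ) :
    (F v [] (n + 1) = F v [] n + F v [true] n ∧
    F v [true] (n + 1) = F v [] n + F v [true, true] n ∧
    F v [true, true] (n + 1) = F v [true, true, false] n + F v [true, true] n ∧
    F v [true, true, false] (n + 1) = F v [] n) ∧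
    (G v [] (n + 1) = G v [] n + (G v [true] n + F v [true] n) ∧
    G v [true] (n + 1) = G v [] n + (G v [true, true] n + F v [true, true] n) ∧
    G v [true, true] (n + 1) = G v [true, true, false] n + (G v [true, true] n + F v [true, true] n) ∧
    G v [true, true, false] (n + 1) = G v [] n) := by
  have c0 := FG_congr v [false] [] (by simp [v, List.infix_cons_iff]) n
  have c1 := FG_congr v [true, false] [] (by simp [v, List.infix_cons_iff]) n
  have c2 := FG_congr v [true, true, true] [true, true] (by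
    intro l
    simp only [v, List.cons_append, List.nil_append]
    rw [List.infix_cons_iff]
    simp) n
  have c3 := FG_congr v [true, true, false, false] [] (by simp [v, List.infix_cons_iff]) n
  have c4 := FG_dead v n
  simp only [F_succ, G_succ, List.nil_append, List.cons_append]
  rw [c0.1, c0.2, c1.1, c1.2, c2.1, c2.2, c3.1, c3.2]
  have e : [true, true, false, true] = v := rfl
  rw [e, c4.1, c4.2]
  simp

lemma v_rec4 (n : ℕ) : F v [] (n + 4) + F v [] (n + 1) = 2 * F v [] (n + 3) + F v [] n := by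
  have h0 := (v_rec n).1
  have h1 := (v_rec (n + 1)).1
  have h2 := (v_rec (n + 2)).1
  have h3 := (v_rec (n + 3)).1
  simp only [add_assoc] at h1 h2 h3
  norm_num at h1 h2 h3
  omega

lemma v_vals : F v [] 6 = 52 ∧ F v [] 7 = 97 ∧ F v [] 8 = 181 ∧ F v [] 9 = 338 := by
  have i := v_init
  have h0 := (v_rec 0).1
  have h1 := (v_rec 1).1
  have h2 := (v_rec 2).1
  have h3 := (v_rec 3).1
  have h4 := (v_rec 4).1
  have h5 := (v_rec 5).1
  have h6 := (v_rec 6).1
  have h7 := (v_rec 7).1
  have h8 := (v_rec 8).1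
  norm_num at h0 h1 h2 h3 h4 h5 h6 h7 h8
  omega

def Rat' (a : ℕ → ℕ) (l u n : ℕ) : Prop := l * a n ≤ 1000 * a (n + 1) ∧ 1000 * a (n + 1) ≤ u * a n

lemma v_ratio (n : ℕ) : Rat' (F v []) 1860 1870 (n + 6) ∧ Rat' (F v []) 1860 1870 (n + 7) ∧
    Rat' (F v []) 1860 1870 (n + 8) ∧ 0 < F v [] (n + 6) := by
  induction n with
  | zero =>
    have := v_vals
    simp only [Rat']
    norm_num
    omega
  | succ n ih =>
    have h := v_rec4 (n + 6)
    simp only [Rat', add_assoc] at ih h ⊢
    norm_num at ih h ⊢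
    omega

lemma v_bound (n : ℕ) :
    (G v [] (n + 7) : ℝ) ≤ ((425 / 1000) * n + 8) * F v [] (n + 7) ∧
    (G v [true] (n + 7) : ℝ) ≤ ((425 / 1000) * n + 8 - (1 / 10)) * F v [true] (n + 7) ∧
    (G v [true, true] (n + 7) : ℝ) ≤ ((425 / 1000) * n + 8 - (17 / 100)) * F v [true, true] (n + 7) ∧
    (G v [true, true, false] (n + 7) : ℝ) ≤ ((425 / 1000) * n + 8 - (425 / 1000)) * F v [true, true, false] (n + 7) := by
  induction n with
  | zero =>
    have h : ∀ p, (G v p 7 : ℝ) ≤ 7 * F v p 7 := fun p => by exact_mod_cast G_le v p 7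
    have h' : ∀ p, (0 : ℝ) ≤ F v p 7 := fun p => by positivity
    simp only [zero_add, CharP.cast_eq_zero]
    refine ⟨?_, ?_, ?_, ?_⟩
    · nlinarith [h [], h' []]
    · nlinarith [h [true], h' [true]]
    · nlinarith [h [true, true], h' [true, true]]
    · nlinarith [h [true, true, false], h' [true, true, false]]
  | succ n ih =>
    obtain ⟨⟨a0, a1, a2, a3⟩, b0, b1, b2, b3⟩ := v_rec (n + 7)
    obtain ⟨⟨-, -, -, c3⟩, -⟩ := v_rec (n + 6)
    obtain ⟨⟨d0, -, -, -⟩, -⟩ := v_rec (n + 7 + 1)
    obtain ⟨r6, r7, r8, -⟩ := v_ratio n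
    simp only [Rat'] at r6 r7 r8
    have e1 : n + 6 + 1 = n + 7 := rfl
    have e2 : n + 8 = n + 7 + 1 := rfl
    have e3 : n + 1 + 7 = n + 7 + 1 := by omega
    rw [e1] at c3 r6
    rw [e2] at r8
    have x1 : 100 * F v [true] (n + 7) ≤ 87 * F v [] (n + 7) := by omega
    have x2 : 1000 * F v [true, true] (n + 7) ≤ 627 * F v [] (n + 7) := by omega
    have x3 : 100 * F v [] (n + 7) ≤ 187 * F v [true, true, false] (n + 7) := by omega
    rw [e3, a0, a1, a2, a3, b0, b1, b2, b3]
    push_cast
    have x1' : (100 * F v [true] (n + 7) : ℝ) ≤ 87 * F v [] (n + 7) := by exact_mod_cast x1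
    have x2' : (1000 * F v [true, true] (n + 7) : ℝ) ≤ 627 * F v [] (n + 7) := by exact_mod_cast x2
    have x3' : (100 * F v [] (n + 7) : ℝ) ≤ 187 * F v [true, true, false] (n + 7) := by
      exact_mod_cast x3
    have p0 : (0 : ℝ) ≤ F v [] (n + 7) := by positivity
    obtain ⟨i0, i1, i2, i3⟩ := ih
    refine ⟨?_, ?_, ?_, ?_⟩ <;> linarith

end V

section W

lemma w_rec (n : ℕ) :
    (F w [] (n + 1) = F w [] n + F w [true] n ∧
    F w [true] (n + 1) = F w [] n + F w [true, true] n ∧
    F w [true, true] (n + 1) = F w [] n + F w [true, true, true] n ∧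
    F w [true, true, true] (n + 1) = F w [] n) ∧
    (G w [] (n + 1) = G w [] n + (G w [true] n + F w [true] n) ∧
    G w [true] (n + 1) = G w [] n + (G w [true, true] n + F w [true, true] n) ∧
    G w [true, true] (n + 1) = G w [] n + (G w [true, true, true] n + F w [true, true, true] n) ∧
    G w [true, true, true] (n + 1) = G w [] n) := by
  have c0 := FG_congr w [false] [] (by simp [w, List.infix_cons_iff]) n
  have c1 := FG_congr w [true, false] [] (by simp [w, List.infix_cons_iff]) n
  have c2 := FG_congr w [true, true, false] [] (by simp [w, List.infix_cons_iff]) n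
  have c3 := FG_congr w [true, true, true, false] [] (by simp [w, List.infix_cons_iff]) n
  have c4 := FG_dead w n
  simp only [F_succ, G_succ, List.nil_append, List.cons_append]
  rw [c0.1, c0.2, c1.1, c1.2, c2.1, c2.2, c3.1, c3.2]
  have e : [true, true, true, true] = w := rfl
  rw [e, c4.1, c4.2]
  simp

lemma w_rec4 (n : ℕ) :
    F w [] (n + 4) = F w [] (n + 3) + F w [] (n + 2) + F w [] (n + 1) + F w [] n := by
  have h0 := (w_rec n).1
  have h1 := (w_rec (n + 1)).1
  have h2 := (w_rec (n + 2)).1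
  have h3 := (w_rec (n + 3)).1
  simp only [add_assoc] at h1 h2 h3
  norm_num at h1 h2 h3
  omega

lemma w_vals : F w [] 6 = 56 ∧ F w [] 7 = 108 ∧ F w [] 8 = 208 ∧ F w [] 9 = 401 := by
  have i := w_init
  have h0 := (w_rec 0).1
  have h1 := (w_rec 1).1
  have h2 := (w_rec 2).1
  have h3 := (w_rec 3).1
  have h4 := (w_rec 4).1
  have h5 := (w_rec 5).1
  have h6 := (w_rec 6).1
  have h7 := (w_rec 7).1
  have h8 := (w_rec 8).1
  norm_num at h0 h1 h2 h3 h4 h5 h6 h7 h8
  omega

lemma w_ratio (n : ℕ) : Rat' (F w []) 1920 1935 (n + 6) ∧ Rat' (F w []) 1920 1935 (n + 7) ∧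
    Rat' (F w []) 1920 1935 (n + 8) ∧ 0 < F w [] (n + 6) := by
  induction n with
  | zero =>
    have := w_vals
    simp only [Rat']
    norm_num
    omega
  | succ n ih =>
    have h := w_rec4 (n + 6)
    simp only [Rat', add_assoc] at ih h ⊢
    norm_num at ih h ⊢
    omega

lemma w_bound (n : ℕ) :
    ((428 / 1000) * n - 0 : ℝ) * F w [] (n + 7) ≤ G w [] (n + 7) ∧
    ((428 / 1000) * n - (1 / 10) : ℝ) * F w [true] (n + 7) ≤ G w [true] (n + 7) ∧
    ((428 / 1000) * n - (24 / 100) : ℝ) * F w [true, true] (n + 7) ≤ G w [true, true] (n + 7) ∧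
    ((428 / 1000) * n - (428 / 1000) : ℝ) * F w [true, true, true] (n + 7) ≤ G w [true, true, true] (n + 7) := by
  induction n with
  | zero =>
    have h : ∀ p, (0 : ℝ) ≤ G w p 7 := fun p => by positivity
    have h' : ∀ p, (0 : ℝ) ≤ F w p 7 := fun p => by positivity
    simp only [zero_add, CharP.cast_eq_zero]
    refine ⟨?_, ?_, ?_, ?_⟩
    · nlinarith [h [], h' []]
    · nlinarith [h [true], h' [true]]
    · nlinarith [h [true, true], h' [true, true]]
    · nlinarith [h [true, true, true], h' [true, true, true]]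
  | succ n ih =>
    obtain ⟨⟨a0, a1, a2, a3⟩, b0, b1, b2, b3⟩ := w_rec (n + 7)
    obtain ⟨⟨-, -, -, c3⟩, -⟩ := w_rec (n + 6)
    obtain ⟨⟨d0, -, -, -⟩, -⟩ := w_rec (n + 7 + 1)
    obtain ⟨r6, r7, r8, -⟩ := w_ratio n
    simp only [Rat'] at r6 r7 r8
    have e1 : n + 6 + 1 = n + 7 := rfl
    have e2 : n + 8 = n + 7 + 1 := rfl
    have e3 : n + 1 + 7 = n + 7 + 1 := by omega
    rw [e1] at c3 r6
    rw [e2] at r8
    have x1 : 92 * F w [] (n + 7) ≤ 100 * F w [true] (n + 7) := by omega
    have x2 : 766 * F w [] (n + 7) ≤ 1000 * F w [true, true] (n + 7) := by omega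
    have x3 : 1000 * F w [] (n + 7) ≤ 1935 * F w [true, true, true] (n + 7) := by omega
    rw [e3, a0, a1, a2, a3, b0, b1, b2, b3]
    push_cast
    have x1' : (92 * F w [] (n + 7) : ℝ) ≤ 100 * F w [true] (n + 7) := by exact_mod_cast x1
    have x2' : (766 * F w [] (n + 7) : ℝ) ≤ 1000 * F w [true, true] (n + 7) := by exact_mod_cast x2
    have x3' : (1000 * F w [] (n + 7) : ℝ) ≤ 1935 * F w [true, true, true] (n + 7) := by
      exact_mod_cast x3
    have p0 : (0 : ℝ) ≤ F w [] (n + 7) := by positivity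
    obtain ⟨i0, i1, i2, i3⟩ := ih
    refine ⟨?_, ?_, ?_, ?_⟩ <;> linarith

end W

theorem main (n : ℕ) (hn : 8000 ≤ n) : freq v n ≤ (426 / 1000) ∧ (427 / 1000) ≤ freq w n := by
  obtain ⟨m, rfl⟩ : ∃ m, n = m + 7 := ⟨n - 7, by omega⟩
  have hm : (7993 : ℝ) ≤ m := by exact_mod_cast (by omega : 7993 ≤ m)
  have pv : (0 : ℝ) < F v [] (m + 7) := by
    have := (v_ratio (m + 1)).2.2.2
    rw [show m + 1 + 6 = m + 7 by omega] at this
    exact_mod_cast this
  have pw : (0 : ℝ) < F w [] (m + 7) := by
    have := (w_ratio (m + 1)).2.2.2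
    rw [show m + 1 + 6 = m + 7 by omega] at this
    exact_mod_cast this
  rw [freq_eq, freq_eq]
  constructor
  · rw [div_le_iff₀ (by positivity)]
    have := (v_bound m).1
    have h2 := mul_le_mul_of_nonneg_right hm pv.le
    push_cast
    linarith
  · rw [le_div_iff₀ (by positivity)]
    have := (w_bound m).1
    have h2 := mul_le_mul_of_nonneg_right hm pw.le
    push_cast
    linarith

end Pool.Agent.H5.Freq
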