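import Mathlib

set_option autoImplicit false

open Finset

namespace Pool.Agent.H5.Gauss

variable {ι κ : Type*}

lemma pow_form (S : Finset ι) (U : Finset κ) (y : ι → κ → ℝ) (c : ι → ℝ) (n : ℕ) :
    ∑ i ∈ S, ∑ j ∈ S, c i * c j * (∑ k ∈ U, y i k * y j k) ^ n =
      ∑ m ∈ Fintype.piFinset (fun _ : Fin n => U), (∑ i ∈ S, c i * ∏ l, y i (m l)) ^ 2 := by
  simp_rw [sq, Finset.sum_mul_sum, Finset.sum_pow', Finset.mul_sum]
  rw [Finset.sum_comm (s := Fintype.piFinset fun _ : Fin n => U)]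
  refine Finset.sum_congr rfl fun i _ => ?_
  rw [Finset.sum_comm (s := Fintype.piFinset fun _ : Fin n => U)]
  refine Finset.sum_congr rfl fun j _ => Finset.sum_congr rfl fun m _ => ?_
  rw [Finset.prod_mul_distrib]; ring

lemma pow_form_nonneg (S : Finset ι) (U : Finset κ) (y : ι → κ → ℝ) (c : ι → ℝ) (n : ℕ) :
    0 ≤ ∑ i ∈ S, ∑ j ∈ S, c i * c j * (∑ k ∈ U, y i k * y j k) ^ n := by
  rw [pow_form]; positivity

lemma eq_zero_of_pow_form (S : Finset ι) (U : Finset κ) (y : ι → κ → ℝ) (c : ι → ℝ)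
    (hy : ∀ i ∈ S, ∀ j ∈ S, (∀ k ∈ U, y i k = y j k) → i = j)
    (h : ∀ n : ℕ, ∑ i ∈ S, ∑ j ∈ S, c i * c j * (∑ k ∈ U, y i k * y j k) ^ n = 0) :
    ∀ i ∈ S, c i = 0 := by
  classical
  have h1 : ∀ (a : κ → ℝ) (n : ℕ), ∑ i ∈ S, c i * (∑ k ∈ U, a k * y i k) ^ n = 0 := by
    intro a n
    have h2 := h n
    rw [pow_form, Finset.sum_eq_zero_iff_of_nonneg (fun m _ => sq_nonneg _)] at h2
    simp_rw [Finset.sum_pow', Finset.mul_sum]
    rw [Finset.sum_comm]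
    refine Finset.sum_eq_zero fun m hm => ?_
    have h3 := pow_eq_zero_iff two_ne_zero |>.1 (h2 m hm)
    calc ∑ i ∈ S, c i * ∏ l, a (m l) * y i (m l)
        = (∏ l, a (m l)) * ∑ i ∈ S, c i * ∏ l, y i (m l) := by
          rw [Finset.mul_sum]
          refine Finset.sum_congr rfl fun i _ => ?_
          rw [Finset.prod_mul_distrib]; ring
      _ = 0 := by rw [h3, mul_zero]
  have h2 : ∀ (a : κ → ℝ) (p : Polynomial ℝ),
      ∑ i ∈ S, c i * p.eval (∑ k ∈ U, a k * y i k) = 0 := by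
    intro a p
    simp_rw [Polynomial.eval_eq_sum_range, Finset.mul_sum]
    rw [Finset.sum_comm]
    refine Finset.sum_eq_zero fun n _ => ?_
    have := h1 a n
    calc ∑ i ∈ S, c i * (p.coeff n * (∑ k ∈ U, a k * y i k) ^ n)
        = p.coeff n * ∑ i ∈ S, c i * (∑ k ∈ U, a k * y i k) ^ n := by
          rw [Finset.mul_sum]
          exact Finset.sum_congr rfl fun i _ => by ring
      _ = 0 := by rw [this, mul_zero]
  by_contra hcon
  push Not at hcon
  obtain ⟨i1, hi1, hc1⟩ := hcon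
  obtain ⟨i0, hi0, hmax⟩ := Finset.exists_max_image (S.filter fun i => c i ≠ 0)
    (fun i => ∑ k ∈ U, y i k * y i k) ⟨i1, Finset.mem_filter.2 ⟨hi1, hc1⟩⟩
  obtain ⟨hi0S, hc0⟩ := Finset.mem_filter.1 hi0
  set t : ι → ℝ := fun j => ∑ k ∈ U, y i0 k * y j k with ht
  set T := (S.filter fun i => c i ≠ 0).erase i0 with hT
  have h3 := h2 (y i0) (∏ j ∈ T, (Polynomial.X - Polynomial.C (t j)))
  rw [Finset.sum_eq_single i0] at h3
  · rw [Polynomial.eval_prod, mul_eq_zero, Finset.prod_eq_zero_iff] at h3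
    rcases h3 with h3 | ⟨j, hj, h3⟩
    · exact hc0 h3
    · obtain ⟨hji, hj'⟩ := Finset.mem_erase.1 hj
      have h4 := hmax j hj'
      simp only [Polynomial.eval_sub, Polynomial.eval_X, Polynomial.eval_C, ht] at h3
      have h5 : ∑ k ∈ U, (y i0 k - y j k) ^ 2 =
          ∑ k ∈ U, y i0 k * y i0 k - 2 * ∑ k ∈ U, y i0 k * y j k + ∑ k ∈ U, y j k * y j k := by
        rw [Finset.mul_sum, ← Finset.sum_sub_distrib, ← Finset.sum_add_distrib]
        exact Finset.sum_congr rfl fun k _ => by ring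
      have h6 : ∑ k ∈ U, (y i0 k - y j k) ^ 2 = 0 :=
        le_antisymm (by rw [h5]; linarith) (by positivity)
      rw [Finset.sum_eq_zero_iff_of_nonneg (fun m _ => sq_nonneg _)] at h6
      refine hji (hy j (Finset.mem_filter.1 hj').1 i0 hi0S fun k hk => ?_)
      have := pow_eq_zero_iff two_ne_zero |>.1 (h6 k hk)
      linarith
  · intro j hj hji
    by_cases hcj : c j = 0
    · rw [hcj, zero_mul]
    · rw [Polynomial.eval_prod, Finset.prod_eq_zero (i := j)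
        (Finset.mem_erase.2 ⟨hji, Finset.mem_filter.2 ⟨hj, hcj⟩⟩) (by
          rw [Polynomial.eval_sub, Polynomial.eval_X, Polynomial.eval_C]
          exact sub_self _), mul_zero]
  · intro h4; exact absurd hi0S h4

lemma hasSum_form (S : Finset ι) (U : Finset κ) (y : ι → κ → ℝ) (c : ι → ℝ) :
    HasSum (fun n : ℕ => (2 ^ n / (n.factorial : ℝ)) *
      ∑ i ∈ S, ∑ j ∈ S, (c i * Real.exp (-∑ k ∈ U, y i k ^ 2)) *
        (c j * Real.exp (-∑ k ∈ U, y j k ^ 2)) * (∑ k ∈ U, y i k * y j k) ^ n)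
      (∑ i ∈ S, ∑ j ∈ S, c i * c j * Real.exp (-∑ k ∈ U, (y i k - y j k) ^ 2)) := by
  simp_rw [Finset.mul_sum]
  refine hasSum_sum fun i _ => hasSum_sum fun j _ => ?_
  have h1 := (NormedSpace.expSeries_div_hasSum_exp (2 * ∑ k ∈ U, y i k * y j k)).mul_left
    ((c i * Real.exp (-∑ k ∈ U, y i k ^ 2)) * (c j * Real.exp (-∑ k ∈ U, y j k ^ 2)))
  rw [← Real.exp_eq_exp_ℝ] at h1
  have h2 : -∑ k ∈ U, (y i k - y j k) ^ 2 =
      (-∑ k ∈ U, y i k ^ 2) + (-∑ k ∈ U, y j k ^ 2) + 2 * ∑ k ∈ U, y i k * y j k := by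
    rw [Finset.mul_sum, ← Finset.sum_neg_distrib, ← Finset.sum_neg_distrib,
      ← Finset.sum_neg_distrib, ← Finset.sum_add_distrib, ← Finset.sum_add_distrib]
    exact Finset.sum_congr rfl fun k _ => by ring
  have h3 : c i * c j * Real.exp (-∑ k ∈ U, (y i k - y j k) ^ 2) =
      (c i * Real.exp (-∑ k ∈ U, y i k ^ 2)) * (c j * Real.exp (-∑ k ∈ U, y j k ^ 2)) *
        Real.exp (2 * ∑ k ∈ U, y i k * y j k) := by
    rw [h2, Real.exp_add, Real.exp_add]; ring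
  rw [h3]
  have h4 : (fun n : ℕ => 2 ^ n / (n.factorial : ℝ) *
      (c i * Real.exp (-∑ k ∈ U, y i k ^ 2) * (c j * Real.exp (-∑ k ∈ U, y j k ^ 2)) *
        (∑ k ∈ U, y i k * y j k) ^ n)) = fun n : ℕ =>
      c i * Real.exp (-∑ k ∈ U, y i k ^ 2) * (c j * Real.exp (-∑ k ∈ U, y j k ^ 2)) *
        ((2 * ∑ k ∈ U, y i k * y j k) ^ n / (n.factorial : ℝ)) := by
    funext n
    rw [mul_pow]; ring
  rw [h4]
  exact h1

lemma gauss_nonneg (S : Finset ι) (U : Finset κ) (y : ι → κ → ℝ) (c : ι → ℝ) :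
    0 ≤ ∑ i ∈ S, ∑ j ∈ S, c i * c j * Real.exp (-∑ k ∈ U, (y i k - y j k) ^ 2) :=
  (hasSum_form S U y c).nonneg fun n =>
    mul_nonneg (by positivity) (pow_form_nonneg S U y _ n)

lemma gauss_eq_zero (S : Finset ι) (U : Finset κ) (y : ι → κ → ℝ) (c : ι → ℝ)
    (hy : ∀ i ∈ S, ∀ j ∈ S, (∀ k ∈ U, y i k = y j k) → i = j)
    (h : ∑ i ∈ S, ∑ j ∈ S, c i * c j * Real.exp (-∑ k ∈ U, (y i k - y j k) ^ 2) = 0) :
    ∀ i ∈ S, c i = 0 := by
  have h1 := hasSum_form S U y c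
  rw [h, hasSum_zero_iff_of_nonneg fun n =>
    mul_nonneg (by positivity) (pow_form_nonneg S U y _ n)] at h1
  intro i hi
  have h2 := eq_zero_of_pow_form S U y (fun i => c i * Real.exp (-∑ k ∈ U, y i k ^ 2)) hy
    (fun n => by
      have h3 := congrFun h1 n
      simp only [Pi.zero_apply, mul_eq_zero] at h3
      rcases h3 with h3 | h3
      · exfalso
        have : (0 : ℝ) < 2 ^ n / (n.factorial : ℝ) := by positivity
        linarith
      · exact h3) i hi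
  exact (mul_eq_zero.1 h2).resolve_right (Real.exp_pos _).ne'

end Pool.Agent.H5.Gauss
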