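import Pool.Agent.H5.NoL1

set_option autoImplicit false

open Filter Topology

namespace Pool.Agent.H5.Hagler

abbrev B : Type := ℕ → Bool
abbrev I : Type := Set.Icc (-1 : ℝ) 1
abbrev K : Type := ℕ∞ × (B → B × I)

def tr (m : ℕ) (b : B) : B := fun i => if i < m then b i else false

/-- two branches agree below level `k` -/
def Ag (k : ℕ) (c b : B) : Prop := ∀ i < k, c i = b i

lemma Ag.tr {k m : ℕ} {c b : B} (h : Ag k c b) (hm : m ≤ k) : tr m c = tr m b := by
  funext i
  unfold Hagler.tr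
  split_ifs with hi
  · exact h i (hi.trans_le hm)
  · rfl

lemma ag_of_tr {m : ℕ} {c b : B} (h : tr m c = tr m b) : Ag m c b := fun i hi => by
  have := congrFun h i
  simpa [tr, hi] using this

lemma ag_tr (m : ℕ) (b : B) : Ag m (tr m b) b := fun i hi => by simp [tr, hi]

lemma fin_tr (m : ℕ) : (Set.range (tr m)).Finite := by
  refine (Set.finite_range fun (f : Fin m → Bool) (i : ℕ) =>
    if h : i < m then f ⟨i, h⟩ else false).subset ?_
  rintro _ ⟨b, rfl⟩
  refine ⟨fun i => b i, funext fun i => ?_⟩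
  by_cases h : i < m <;> simp [tr, h]

lemma clopen (b : B) (k j : ℕ) :
    IsClopen {κ : K | κ.1 = j ∧ Ag k (κ.2 (tr j b)).1 b} := by
  have h1 : IsClopen {κ : K | κ.1 = j} :=
    IsClopen.preimage (s := ({(j : ℕ∞)} : Set ℕ∞))
      ⟨isClosed_singleton, ENat.isOpen_singleton (ENat.natCast_ne_top j)⟩ continuous_fst
  have h2 : IsClopen (⋂ i ∈ Set.Iio k, {κ : K | (κ.2 (tr j b)).1 i = b i}) :=
    (Set.finite_Iio k).isClopen_biInter fun i _ =>
      (isClopen_discrete ({b i} : Set Bool)).preimage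
        (f := fun κ : K => (κ.2 (tr j b)).1 i) (by fun_prop)
  have h3 : {κ : K | κ.1 = j ∧ Ag k (κ.2 (tr j b)).1 b} = {κ : K | κ.1 = j} ∩
      ⋂ i ∈ Set.Iio k, {κ : K | (κ.2 (tr j b)).1 i = b i} := by
    ext κ
    simp [Ag]
  rw [h3]
  exact h1.inter h2

/-- the node of level `k` on the branch `b` -/
noncomputable def e (b : B) (k : ℕ) : C(K, ℝ) where
  toFun κ := ∑ j ∈ Finset.range (k + 1),
    {κ : K | κ.1 = j ∧ Ag k (κ.2 (tr j b)).1 b}.indicator (fun κ => ((κ.2 (tr j b)).2 : ℝ)) κ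
  continuous_toFun := continuous_finsetSum _ fun j _ =>
    (clopen b k j).continuous_indicator (by fun_prop)

lemma e_apply (b : B) (k : ℕ) (κ : K) : e b k κ = ∑ j ∈ Finset.range (k + 1),
    {κ : K | κ.1 = j ∧ Ag k (κ.2 (tr j b)).1 b}.indicator (fun κ => ((κ.2 (tr j b)).2 : ℝ)) κ :=
  rfl

open Classical in
lemma e_coe (b : B) (k m : ℕ) (Φ : B → B × I) :
    e b k (m, Φ) = if m ≤ k ∧ Ag k (Φ (tr m b)).1 b then ((Φ (tr m b)).2 : ℝ) else 0 := by
  have h0 : ∀ j, j ≠ m → {κ : K | κ.1 = j ∧ Ag k (κ.2 (tr j b)).1 b}.indicator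
      (fun κ => ((κ.2 (tr j b)).2 : ℝ)) (m, Φ) = 0 := fun j hj =>
    Set.indicator_of_notMem (fun h => hj (by
      have h1 : (m : ℕ∞) = j := h.1
      exact (Nat.cast_injective h1).symm)) _
  rw [e_apply]
  by_cases hm : m ≤ k
  · rw [Finset.sum_eq_single_of_mem m (Finset.mem_range.2 (by omega)) fun j _ hj => h0 j hj]
    simp [Set.indicator_apply, hm]
  · rw [if_neg fun h => hm h.1]
    exact Finset.sum_eq_zero fun j hj => h0 j (by have := Finset.mem_range.1 hj; omega)

lemma e_top (b : B) (k : ℕ) (Φ : B → B × I) : e b k (⊤, Φ) = 0 := by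
  rw [e_apply]
  refine Finset.sum_eq_zero fun j _ => Set.indicator_of_notMem ?_ _
  exact fun h => ENat.top_ne_natCast j h.1

lemma e_congr {b c : B} {k : ℕ} (h : Ag k c b) : e c k = e b k := by
  classical
  ext ⟨m, Φ⟩
  induction m using ENat.recTopCoe with
  | top => rw [e_top, e_top]
  | coe m =>
    rw [e_coe, e_coe]
    by_cases hm : m ≤ k
    · rw [h.tr hm]
      refine if_congr (and_congr_right fun _ => ⟨fun h1 i hi => (h1 i hi).trans (h i hi),
        fun h1 i hi => (h1 i hi).trans (h i hi).symm⟩) rfl rfl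
    · rw [if_neg fun h => hm h.1, if_neg fun h => hm h.1]

noncomputable def S : Submodule ℝ C(K, ℝ) :=
  (Submodule.span ℝ (Set.range fun p : B × ℕ => e p.1 p.2)).topologicalClosure

/-- the tree space -/
def X : Type := S

noncomputable instance : NormedAddCommGroup X := inferInstanceAs (NormedAddCommGroup S)
noncomputable instance : NormedSpace ℝ X := inferInstanceAs (NormedSpace ℝ S)

instance : CompleteSpace X := (Submodule.isClosed_topologicalClosure _).completeSpace_coe

instance : TopologicalSpace.SeparableSpace X := by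
  have h : (Set.range fun p : B × ℕ => e p.1 p.2).Countable := by
    refine (Set.countable_iUnion fun k : ℕ =>
      ((fin_tr k).image fun u => e u k).countable).mono ?_
    rintro _ ⟨⟨b, k⟩, rfl⟩
    exact Set.mem_iUnion.2 ⟨k, tr k b, ⟨b, rfl⟩, e_congr (ag_tr k b)⟩
  exact h.isSeparable.span.closure.separableSpace

noncomputable def E (b : B) (k : ℕ) : X :=
  (⟨e b k, Submodule.le_topologicalClosure _ (Submodule.subset_span ⟨(b, k), rfl⟩)⟩ : S)

lemma E_congr {b c : B} {k : ℕ} (h : Ag k c b) : E c k = E b k := Subtype.ext (e_congr h)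

noncomputable def val (x : X) : C(K, ℝ) := Subtype.val x

noncomputable def ev (κ : K) : X →L[ℝ] ℝ := LinearMap.mkContinuous
  { toFun := fun x => val x κ
    map_add' := fun _ _ => rfl
    map_smul' := fun _ _ => rfl } 1 fun x => by
      rw [one_mul]
      exact (val x).norm_coe_le_norm κ

lemma ev_le (κ : K) (x : X) : |ev κ x| ≤ ‖x‖ := (val x).norm_coe_le_norm κ

lemma ext_E {f g : X →L[ℝ] ℝ} (h : ∀ b k, f (E b k) = g (E b k)) : f = g := by
  ext x
  have hc : IsClosed {x : X | f x = g x} := isClosed_eq f.continuous g.continuous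
  have h1 : IsClosed (val '' {x : X | f x = g x}) :=
    (Submodule.isClosed_topologicalClosure _).isClosedEmbedding_subtypeVal.isClosedMap _ hc
  have h2 : (Submodule.span ℝ (Set.range fun p : B × ℕ => e p.1 p.2) : Set C(K, ℝ)) ⊆
      val '' {x : X | f x = g x} := by
    intro y hy
    induction hy using Submodule.span_induction with
    | mem y hy =>
      obtain ⟨p, rfl⟩ := hy
      exact ⟨E p.1 p.2, h _ _, rfl⟩
    | zero => exact ⟨0, by simp, rfl⟩
    | add y z _ _ hy hz =>
      obtain ⟨y, hy, rfl⟩ := hy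
      obtain ⟨z, hz, rfl⟩ := hz
      exact ⟨y + z, by simp only [Set.mem_ofPred_eq, map_add] at *; rw [hy, hz], rfl⟩
    | smul a y _ hy =>
      obtain ⟨y, hy, rfl⟩ := hy
      exact ⟨a • y, by simp only [Set.mem_ofPred_eq, map_smul] at *; rw [hy], rfl⟩
  obtain ⟨y, hy, hyx⟩ := closure_minimal h2 h1 (show S from x).2
  have h3 : y = x := Subtype.ext hyx
  rw [← h3]
  exact hy

/-- sum along the branch `c` from level `m` on -/
noncomputable def τ (m : ℕ) (c : B) : X →L[ℝ] ℝ := ev (m, fun _ => (c, ⟨1, by norm_num⟩))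

open Classical in
lemma τ_E (m : ℕ) (c b : B) (k : ℕ) : τ m c (E b k) = if m ≤ k ∧ Ag k c b then 1 else 0 :=
  e_coe b k m _

lemma decomp (m : ℕ) (Φ : B → B × I) (F : Finset B)
    (h1 : ∀ c ∈ F, (Φ (tr m c)).1 = c)
    (h2 : ∀ b, Ag m (Φ (tr m b)).1 b → ((Φ (tr m b)).2 : ℝ) ≠ 0 → (Φ (tr m b)).1 ∈ F) :
    ev (m, Φ) = ∑ c ∈ F, ((Φ (tr m c)).2 : ℝ) • τ m c := by
  classical
  refine ext_E fun b k => ?_
  rw [sum_apply]
  simp only [smul_apply, τ_E, smul_eq_mul]
  refine (e_coe b k m Φ).trans ?_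
  by_cases h : m ≤ k ∧ Ag k (Φ (tr m b)).1 b
  · rw [if_pos h, Finset.sum_eq_single (Φ (tr m b)).1]
    · rw [if_pos h, mul_one, h.2.tr h.1]
    · intro c hc hne
      rw [if_neg, mul_zero]
      intro h3
      exact hne (by rw [← h3.2.tr h3.1, h1 c hc])
    · intro hn
      rw [h.2.tr h.1]
      by_contra h3
      exact hn (h2 b (fun i hi => h.2 i (hi.trans_le h.1)) fun h4 => h3 (by rw [h4, zero_mul]))
  · rw [if_neg h]
    refine (Finset.sum_eq_zero fun c hc => ?_).symm
    rw [if_neg, mul_zero]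
    intro h3
    exact h ⟨h3.1, by rw [← h3.2.tr h3.1, h1 c hc]; exact h3.2⟩

lemma ev_lim {z : ℕ → X} (h : ∀ m c, Tendsto (fun n => τ m c (z n)) atTop (𝓝 0)) (κ : K) :
    Tendsto (fun n => ev κ (z n)) atTop (𝓝 0) := by
  classical
  obtain ⟨m, Φ⟩ := κ
  induction m using ENat.recTopCoe with
  | top =>
    have h1 : ev (⊤, Φ) = 0 := ext_E fun b k => e_top b k Φ
    rw [h1]
    exact tendsto_const_nhds
  | coe m =>
    rw [decomp m Φ (((fin_tr m).toFinset.filter fun u => tr m (Φ u).1 = u).image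
      fun u => (Φ u).1) (fun c hc => by
        obtain ⟨u, hu, rfl⟩ := Finset.mem_image.1 hc
        rw [(Finset.mem_filter.1 hu).2]) (fun b hb _ => Finset.mem_image.2 ⟨tr m b,
          Finset.mem_filter.2 ⟨(Set.Finite.mem_toFinset _).2 ⟨b, rfl⟩, hb.tr le_rfl⟩, rfl⟩)]
    simp only [sum_apply, smul_apply, smul_eq_mul]
    have := tendsto_finsetSum (((fin_tr m).toFinset.filter fun u => tr m (Φ u).1 = u).image
      fun u => (Φ u).1) fun c _ => (h m c).const_mul ((Φ (tr m c)).2 : ℝ)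
    simpa using this

lemma sum_τ (m : ℕ) (F : Finset B) (hF : Set.InjOn (tr m) F) (x : X) :
    ∑ c ∈ F, |τ m c x| ≤ ‖x‖ := by
  classical
  let Φ : B → B × I := fun u => if h : ∃ c ∈ F, tr m c = u then
    (h.choose, if 0 ≤ τ m h.choose x then ⟨1, by norm_num⟩ else ⟨-1, by norm_num⟩)
    else (u, ⟨0, by norm_num⟩)
  have h1 : ∀ c ∈ F, Φ (tr m c) =
      (c, if 0 ≤ τ m c x then ⟨1, by norm_num⟩ else ⟨-1, by norm_num⟩) := fun c hc => by
    have h : ∃ c' ∈ F, tr m c' = tr m c := ⟨c, hc, rfl⟩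
    have h2 : h.choose = c := hF h.choose_spec.1 hc h.choose_spec.2
    simp only [Φ, dif_pos h, h2]
  have h2 := ev_le (m, Φ) x
  rw [decomp m Φ F (fun c hc => by rw [h1 c hc]) (fun b _ hb => by
    by_cases h : ∃ c ∈ F, tr m c = tr m b
    · simp only [Φ, dif_pos h]
      exact h.choose_spec.1
    · simp [Φ, dif_neg h] at hb), sum_apply] at h2
  refine le_trans (le_of_eq (Finset.sum_congr rfl fun c hc => ?_)) ((le_abs_self _).trans h2)
  rw [smul_apply, h1 c hc, smul_eq_mul]
  split_ifs with h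
  · rw [abs_of_nonneg h]; simp
  · rw [abs_of_neg (not_le.1 h)]; simp

lemma τ_step (m : ℕ) (c : B) : τ m c - τ (m + 1) c = τ m (tr m c) - τ (m + 1) (tr m c) := by
  classical
  refine ext_E fun b k => ?_
  simp only [sub_apply, τ_E]
  rcases lt_trichotomy m k with h | rfl | h
  · simp [h.le, Nat.succ_le_of_lt h]
  · have : Ag m c b ↔ Ag m (tr m c) b :=
      ⟨fun h i hi => (ag_tr m c i hi).trans (h i hi),
        fun h i hi => (ag_tr m c i hi).symm.trans (h i hi)⟩
    simp [this]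
  · simp [h.not_ge, show ¬ m + 1 ≤ k by omega]

lemma boundary (x : X) : ∃ κ, ‖x‖ = |ev κ x| := by
  haveI : Nonempty K := ⟨(⊤, fun b => (b, ⟨0, by norm_num⟩))⟩
  obtain ⟨κ, -, hκ⟩ := isCompact_univ.exists_isMaxOn Set.univ_nonempty
    (f := fun κ => |val x κ|) (val x).continuous.abs.continuousOn
  exact ⟨κ, le_antisymm ((ContinuousMap.norm_le (val x) (abs_nonneg _)).2 fun κ' => hκ trivial)
    (ev_le κ x)⟩

theorem no_ind (x : ℕ → X) (C : ℝ) (hx : ∀ n, ‖x n‖ ≤ C) : ¬ NoL1.Ind x := by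
  classical
  intro hi
  haveI : ∀ m, Countable (Set.range (tr m)) := fun m => (fin_tr m).countable
  obtain ⟨d, hd1, hd2, hd3, -⟩ := NoL1.kill hx hi
    (ι := Σ m, Set.range (tr m)) fun p => τ p.1 p.2 - τ (p.1 + 1) p.2
  have hd4 : ∀ m c, Tendsto (fun n => (τ 0 c - τ m c) (d n)) atTop (𝓝 0) := fun m c => by
    induction m with
    | zero => simp
    | succ m ih =>
      have h1 := hd3 ⟨m, tr m c, c, rfl⟩
      simp only [← τ_step] at h1
      simpa using ih.add h1
  obtain ⟨φ, hφ, S, hS, hS'⟩ := NoL1.thin (fun n c => τ 0 c (d n)) (C := 2 * C + 1) fun F => by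
    have h1 : ∀ᶠ m in atTop, ∀ c ∈ F, ∀ c' ∈ F, tr m c = tr m c' → c = c' := by
      simp only [eventually_all_finset]
      intro c _ c' _
      by_cases h : c = c'
      · exact Eventually.of_forall fun _ _ => h
      · obtain ⟨i, hi⟩ := Function.ne_iff.1 h
        filter_upwards [eventually_gt_atTop i] with m hm h2
        exact absurd (ag_of_tr h2 i hm) hi
    obtain ⟨m, hm⟩ := h1.exists
    have h2 := tendsto_finsetSum F fun c _ => (hd4 m c).abs
    simp only [abs_zero, Finset.sum_const_zero] at h2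
    filter_upwards [h2.eventually (gt_mem_nhds one_pos)] with n hn
    have h3 := sum_τ m F (fun c hc c' hc' => hm c hc c' hc') (d n)
    have h4 : ∑ c ∈ F, |τ 0 c (d n)| ≤
        ∑ c ∈ F, |τ m c (d n)| + ∑ c ∈ F, |(τ 0 c - τ m c) (d n)| := by
      rw [← Finset.sum_add_distrib]
      refine Finset.sum_le_sum fun c _ => ?_
      have := abs_add_le (τ m c (d n)) ((τ 0 c - τ m c) (d n))
      simpa using this
    linarith [hd1 n]
  haveI : Countable S := hS
  obtain ⟨z, hz1, hz2, hz3, hz4⟩ := NoL1.kill (fun n => hd1 (φ n)) (hd2.comp hφ.injective)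
    (ι := S) fun c => τ 0 c
  have hz5 : ∀ c, Tendsto (fun n => τ 0 c (z n)) atTop (𝓝 0) := fun c => by
    by_cases h : c ∈ S
    · exact hz3 ⟨c, h⟩
    · exact hz4 _ (hS' c h)
  have hz6 : ∀ m c, Tendsto (fun n => τ m c (z n)) atTop (𝓝 0) := fun m c => by
    have h1 := (hz5 c).sub (hz4 _ ((hd4 m c).comp hφ.tendsto_atTop))
    simpa using h1
  refine NoL1.not_ind hz1 (fun x => ?_) hz2
  obtain ⟨κ, hκ⟩ := boundary x
  have h1 : ‖ev κ‖ ≤ 1 := ContinuousLinearMap.opNorm_le_bound _ zero_le_one fun y => by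
    rw [one_mul]; exact ev_le κ y
  rcases abs_cases (ev κ x) with h | h
  · exact ⟨ev κ, ⟨h1, by rw [hκ, h.1]⟩, ev_lim hz6 κ⟩
  · refine ⟨-ev κ, ⟨by rwa [norm_neg], by rw [hκ, h.1]; rfl⟩, ?_⟩
    simpa using (ev_lim hz6 κ).neg

/-- the branch changed at one place -/
def fl (b : B) (k : ℕ) : B := Function.update b k (!b k)

lemma ag_fl (b : B) (k : ℕ) : Ag k (fl b k) b := fun i hi => Function.update_of_ne hi.ne _ _

lemma comb (b : B) (θ : ℕ → ℝ) (hθ : ∀ k, |θ k| ≤ 1) (n : ℕ) :
    ‖∑ k ∈ Finset.range n, θ k • E (fl b k) (k + 1)‖ ≤ 2 := by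
  classical
  obtain ⟨⟨m, Φ⟩, hκ⟩ := boundary (∑ k ∈ Finset.range n, θ k • E (fl b k) (k + 1))
  rw [hκ, map_sum]
  induction m using ENat.recTopCoe with
  | top =>
    have h1 : ev (⊤, Φ) = 0 := ext_E fun b k => e_top b k Φ
    simp [h1]
  | coe m =>
    have h1 : ∀ k ∈ Finset.range n, |ev (m, Φ) (θ k • E (fl b k) (k + 1))| ≤
        (if k + 1 = m then 1 else 0) +
          if Ag (k + 1) (Φ (tr m b)).1 (fl b k) then 1 else 0 := fun k _ => by
      have h2 : ev (m, Φ) (E (fl b k) (k + 1)) = _ := e_coe _ _ _ _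
      have h3 : |ev (m, Φ) (E (fl b k) (k + 1))| ≤ 1 := by
        rw [h2]
        split_ifs
        · exact abs_le.2 (Φ _).2.2
        · simp
      have h4 : |ev (m, Φ) (θ k • E (fl b k) (k + 1))| ≤ 1 := by
        rw [map_smul, smul_eq_mul, abs_mul]
        exact mul_le_one₀ (hθ k) (abs_nonneg _) h3
      by_cases h5 : k + 1 = m
      · rw [if_pos h5]
        split_ifs <;> linarith
      · rw [if_neg h5, zero_add]
        split_ifs with h6
        · exact h4
        · rw [map_smul, h2, if_neg]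
          · simp
          · intro h7
            rw [(ag_fl b k).tr (by omega)] at h7
            exact h6 h7.2
    refine (Finset.abs_sum_le_sum_abs _ _).trans ((Finset.sum_le_sum h1).trans ?_)
    rw [Finset.sum_add_distrib, Finset.sum_boole, Finset.sum_boole]
    have h2 : ((Finset.range n).filter fun k => k + 1 = m).card ≤ 1 :=
      Finset.card_le_one.2 fun i hi j hj => by
        have := (Finset.mem_filter.1 hi).2
        have := (Finset.mem_filter.1 hj).2
        omega
    have h4 : ∀ i j, i < j → Ag (i + 1) (Φ (tr m b)).1 (fl b i) →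
        ¬ Ag (j + 1) (Φ (tr m b)).1 (fl b j) := fun i j hij hi hj => by
      have h5 := (hi i (by omega)).symm.trans ((hj i (by omega)).trans (ag_fl b j i hij))
      simp [fl] at h5
    have h3 : ((Finset.range n).filter
        fun k => Ag (k + 1) (Φ (tr m b)).1 (fl b k)).card ≤ 1 :=
      Finset.card_le_one.2 fun i hi j hj => by
        have hi' := (Finset.mem_filter.1 hi).2
        have hj' := (Finset.mem_filter.1 hj).2
        rcases lt_trichotomy i j with h | h | h
        · exact absurd hj' (h4 i j h hi')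
        · exact h
        · exact absurd hi' (h4 j i h hj')
    have h2' := (Nat.cast_le (α := ℝ)).2 h2
    have h3' := (Nat.cast_le (α := ℝ)).2 h3
    push_cast at h2' h3'
    linarith

end Pool.Agent.H5.Hagler
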