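import Mathlib

namespace Pool.Agent.H5.IncDist

open Finset

/-- The linear form of a distance constraint (left) or of an incidence (right) at the scene with
points (x i, y i) and lines A j * x + y + C j = 0, as a function of the variables (u, w, U, W). -/
def form {V F : Type} (x y : V → ℝ) (A : F → ℝ) :
    Sym2 V ⊕ (V × F) → ((V → ℝ) × (V → ℝ) × (F → ℝ) × (F → ℝ) → ℝ)
  | .inl e => fun z => Sym2.lift ⟨fun i k => (x i - x k) * (z.1 i - z.1 k) +
      (y i - y k) * (z.2.1 i - z.2.1 k), fun i k => by ring⟩ e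
  | .inr p => fun z => A p.2 * z.1 p.1 + x p.1 * z.2.2.1 p.2 + z.2.1 p.1 + z.2.2.2 p.2

/-- The scene realises the incidences. -/
def Realises {V F : Type} (I : Finset (V × F)) (x y : V → ℝ) (A C : F → ℝ) : Prop :=
  ∀ p ∈ I, A p.2 * x p.1 + y p.1 + C p.2 = 0

/-- The forms of the constraints in E and I are linearly independent at the scene. -/
def IndepAt {V F : Type} (E : Finset (Sym2 V)) (I : Finset (V × F)) (x y : V → ℝ) (A : F → ℝ) :
    Prop :=
  LinearIndependent ℝ fun c : {c // c ∈ E.disjSum I} => form x y A c.1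

/-- The count for all non-empty subsets of constraints. -/
def Count {V F : Type} [Fintype V] [DecidableEq V] [DecidableEq F] (E : Finset (Sym2 V))
    (I : Finset (V × F)) : Prop :=
  ∀ E' ⊆ E, ∀ I' ⊆ I, (E'.Nonempty ∨ I'.Nonempty) →
    (E'.card : ℤ) + I'.card ≤
      2 * ((univ.filter fun v => (∃ e ∈ E', v ∈ e) ∨ ∃ p ∈ I', p.1 = v).card : ℤ) +
      2 * ((I'.image Prod.snd).card : ℤ) - 3

def E0 : Finset (Sym2 (Fin 9)) :=
  {s(0, 1), s(0, 2), s(1, 2), s(3, 4), s(3, 5), s(4, 5), s(6, 7), s(6, 8), s(7, 8)}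

def I0 : Finset (Fin 9 × Fin 3) :=
  {(0, 0), (1, 0), (0, 1), (2, 1), (3, 1), (4, 1), (3, 2), (5, 2), (6, 2), (7, 2), (6, 0), (8, 0)}

lemma cnt : ∀ (S : Finset (Fin 9)) (T : Finset (Fin 3)),
    (E0.filter fun e => ∀ v ∈ e, v ∈ S).card + (I0.filter fun p => p.1 ∈ S ∧ p.2 ∈ T).card = 0 ∨
    (E0.filter fun e => ∀ v ∈ e, v ∈ S).card + (I0.filter fun p => p.1 ∈ S ∧ p.2 ∈ T).card + 3 ≤
      2 * S.card + 2 * T.card := by
  decide +kernel

theorem count0 : Count E0 I0 := by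
  intro E' hE I' hI hne
  set S := univ.filter fun v => (∃ e ∈ E', v ∈ e) ∨ ∃ p ∈ I', p.1 = v with hS
  set T := I'.image Prod.snd with hT
  have h1 : E'.card ≤ (E0.filter fun e => ∀ v ∈ e, v ∈ S).card := by
    apply card_le_card
    intro e he
    rw [mem_filter]
    refine ⟨hE he, fun v hv => ?_⟩
    rw [hS, mem_filter]
    exact ⟨mem_univ _, Or.inl ⟨e, he, hv⟩⟩
  have h2 : I'.card ≤ (I0.filter fun p => p.1 ∈ S ∧ p.2 ∈ T).card := by
    apply card_le_card
    intro p hp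
    rw [mem_filter]
    refine ⟨hI hp, ?_, mem_image_of_mem _ hp⟩
    rw [hS, mem_filter]
    exact ⟨mem_univ _, Or.inr ⟨p, hp, rfl⟩⟩
  have h3 : 0 < E'.card + I'.card := by
    rcases hne with h | h
    · have := h.card_pos; omega
    · have := h.card_pos; omega
  have := cnt S T
  omega

def idx : Fin 21 → Sym2 (Fin 9) ⊕ (Fin 9 × Fin 3) :=
  ![.inl s(0, 1), .inl s(0, 2), .inl s(1, 2), .inr (0, 0), .inr (1, 0), .inr (0, 1), .inr (2, 1),
    .inl s(3, 4), .inl s(3, 5), .inl s(4, 5), .inr (3, 1), .inr (4, 1), .inr (3, 2), .inr (5, 2),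
    .inl s(6, 7), .inl s(6, 8), .inl s(7, 8), .inr (6, 2), .inr (7, 2), .inr (6, 0), .inr (8, 0)]

lemma idx_mem : ∀ i, idx i ∈ E0.disjSum I0 := by decide +kernel

lemma idx_inj : Function.Injective idx := by decide +kernel

lemma body (xP yP xQ yQ xR yR A B uP wP uQ wQ uR wR U W U' W' : ℝ)
    (hQ : yQ = yP + A * (xP - xQ)) (hR : yR = yP + B * (xP - xR))
    (hs : xP - xQ ≠ 0) (ht : xP - xR ≠ 0) :
    -(1 - (xP - xR) * (1 + A * B) / ((xP - xQ) * (1 + A ^ 2))) *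
        ((xP - xQ) * (uP - uQ) + (yP - yQ) * (wP - wQ)) +
      (-(1 - (xP - xQ) * (1 + A * B) / ((xP - xR) * (1 + B ^ 2))) *
        ((xP - xR) * (uP - uR) + (yP - yR) * (wP - wR)) +
      (((xQ - xR) * (uQ - uR) + (yQ - yR) * (wQ - wR)) +
      ((xP - xR) * (A - B) / (1 + A ^ 2) * (A * uP + xP * U + wP + W) +
      (-((xP - xR) * (A - B) / (1 + A ^ 2)) * (A * uQ + xQ * U + wQ + W) +
      (-((xP - xQ) * (A - B) / (1 + B ^ 2)) * (B * uP + xP * U' + wP + W') +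
      ((xP - xQ) * (A - B) / (1 + B ^ 2)) * (B * uR + xR * U' + wR + W')))))) =
    (xP - xQ) * (xP - xR) * (A - B) * (U / (1 + A ^ 2) - U' / (1 + B ^ 2)) := by
  subst hQ hR
  have h1 : (1 + A ^ 2) ≠ 0 := by positivity
  have h2 : (1 + B ^ 2) ≠ 0 := by positivity
  field_simp
  ring

noncomputable def co (s t A B μ : ℝ) : Fin 7 → ℝ :=
  ![μ * -(1 - t * (1 + A * B) / (s * (1 + A ^ 2))), μ * -(1 - s * (1 + A * B) / (t * (1 + B ^ 2))),
    μ, μ * (t * (A - B) / (1 + A ^ 2)), μ * -(t * (A - B) / (1 + A ^ 2)),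
    μ * -(s * (A - B) / (1 + B ^ 2)), μ * (s * (A - B) / (1 + B ^ 2))]

theorem dep (x y : Fin 9 → ℝ) (A C : Fin 3 → ℝ) (h : Realises I0 x y A C) :
    ¬ IndepAt E0 I0 x y A := by
  intro hI
  have hli : LinearIndependent ℝ fun i : Fin 21 => form x y A (idx i) :=
    hI.comp (fun i => ⟨idx i, idx_mem i⟩) fun i j hij => idx_inj (congrArg Subtype.val hij)
  have r := fun a b hab => h (a, b) hab
  have r00 := r 0 0 (by decide)
  have r10 := r 1 0 (by decide)
  have r01 := r 0 1 (by decide)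
  have r21 := r 2 1 (by decide)
  have r31 := r 3 1 (by decide)
  have r41 := r 4 1 (by decide)
  have r32 := r 3 2 (by decide)
  have r52 := r 5 2 (by decide)
  have r62 := r 6 2 (by decide)
  have r72 := r 7 2 (by decide)
  have r60 := r 6 0 (by decide)
  have r80 := r 8 0 (by decide)
  simp only at r00 r10 r01 r21 r31 r41 r32 r52 r62 r72 r60 r80
  have y1 : y 1 = y 0 + A 0 * (x 0 - x 1) := by linarith
  have y2 : y 2 = y 0 + A 1 * (x 0 - x 2) := by linarith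
  have y4 : y 4 = y 3 + A 1 * (x 3 - x 4) := by linarith
  have y5 : y 5 = y 3 + A 2 * (x 3 - x 5) := by linarith
  have y7 : y 7 = y 6 + A 2 * (x 6 - x 7) := by linarith
  have y8 : y 8 = y 6 + A 0 * (x 6 - x 8) := by linarith
  have nz : ∀ (i : Fin 21) (a b : Fin 9) (c : ℝ), idx i = .inl s(a, b) →
      y b = y a + c * (x a - x b) → x a - x b ≠ 0 := by
    intro i a b c hi hy h0
    apply hli.ne_zero i
    rw [hi]
    funext z
    simp [form, hy, h0]
  have s0 := nz 0 0 1 _ rfl y1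
  have t0 := nz 1 0 2 _ rfl y2
  have s1 := nz 7 3 4 _ rfl y4
  have t1 := nz 8 3 5 _ rfl y5
  have s2 := nz 14 6 7 _ rfl y7
  have t2 := nz 15 6 8 _ rfl y8
  set k0 := (x 0 - x 1) * (x 0 - x 2) * (A 0 - A 1) with hk0
  set k1 := (x 3 - x 4) * (x 3 - x 5) * (A 1 - A 2) with hk1
  set k2 := (x 6 - x 7) * (x 6 - x 8) * (A 2 - A 0) with hk2
  have key : ∀ m0 m1 m2 : ℝ, m0 * k0 = m1 * k1 → m1 * k1 = m2 * k2 →
      m0 = 0 ∧ m1 = 0 ∧ m2 = 0 := by
    intro m0 m1 m2 e1 e2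
    rw [Fintype.linearIndependent_iff] at hli
    have := hli (fun i => if h : i.1 < 7 then co (x 0 - x 1) (x 0 - x 2) (A 0) (A 1) m0 ⟨i, h⟩
      else if h' : i.1 < 14 then co (x 3 - x 4) (x 3 - x 5) (A 1) (A 2) m1 ⟨i - 7, by omega⟩
      else co (x 6 - x 7) (x 6 - x 8) (A 2) (A 0) m2 ⟨i - 14, by omega⟩) (by
        funext z
        obtain ⟨u, w, U, W⟩ := z
        have b0 := body (x 0) (y 0) (x 1) (y 1) (x 2) (y 2) (A 0) (A 1) (u 0) (w 0) (u 1) (w 1)
          (u 2) (w 2) (U 0) (W 0) (U 1) (W 1) y1 y2 s0 t0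
        have b1 := body (x 3) (y 3) (x 4) (y 4) (x 5) (y 5) (A 1) (A 2) (u 3) (w 3) (u 4) (w 4)
          (u 5) (w 5) (U 1) (W 1) (U 2) (W 2) y4 y5 s1 t1
        have b2 := body (x 6) (y 6) (x 7) (y 7) (x 8) (y 8) (A 2) (A 0) (u 6) (w 6) (u 7) (w 7)
          (u 8) (w 8) (U 2) (W 2) (U 0) (W 0) y7 y8 s2 t2
        rw [← hk0] at b0
        rw [← hk1] at b1
        rw [← hk2] at b2
        simp [Fin.sum_univ_succ, co, idx, form]
        linear_combination m0 * b0 + m1 * b1 + m2 * b2 +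
          (U 0 / (1 + A 0 ^ 2) - U 1 / (1 + A 1 ^ 2)) * e1 +
          (U 0 / (1 + A 0 ^ 2) - U 2 / (1 + A 2 ^ 2)) * e2)
    refine ⟨?_, ?_, ?_⟩
    · simpa [co] using this 2
    · simpa [co] using this 9
    · simpa [co] using this 16
  by_cases h0 : k0 = 0
  · simpa using (key 1 0 0 (by simp [h0]) (by simp)).1
  by_cases h1 : k1 = 0
  · simpa using (key 0 1 0 (by simp [h1]) (by simp [h1])).2.1
  by_cases h2 : k2 = 0
  · simpa using (key 0 0 1 (by simp) (by simp [h2])).2.2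
  have := (key k0⁻¹ k1⁻¹ k2⁻¹ (by field_simp) (by field_simp)).1
  exact h0 (inv_eq_zero.1 this)

def idx2 : Fin 12 → Fin 9 × Fin 3 :=
  ![(0, 0), (1, 0), (0, 1), (2, 1), (3, 1), (4, 1), (3, 2), (5, 2), (6, 2), (7, 2), (6, 0), (8, 0)]

theorem indep : ∃ (x y : Fin 9 → ℝ) (A C : Fin 3 → ℝ),
    Function.Injective (fun i => (x i, y i)) ∧ Function.Injective A ∧
    Realises I0 x y A C ∧ IndepAt ∅ I0 x y A := by
  refine ⟨![4, 3, 3, 2, 5, 1, 0, -1, 1], ![0, 0, 1, 2, -1, 1, 0, -1, 0], ![0, 1, -1], ![0, -4, 0],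
    ?_, ?_, ?_, ?_⟩
  · intro i j
    fin_cases i <;> fin_cases j <;> simp <;> norm_num
  · intro i j
    fin_cases i <;> fin_cases j <;> simp <;> norm_num
  · simp [Realises, I0]
    norm_num
  have hb : Function.Bijective (fun i : Fin 12 =>
      (⟨.inr (idx2 i), by revert i; decide +kernel⟩ :
        {c // c ∈ (∅ : Finset (Sym2 (Fin 9))).disjSum I0})) := by
    decide +kernel
  unfold IndepAt
  rw [← linearIndependent_equiv (Equiv.ofBijective _ hb), Fintype.linearIndependent_iff]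
  intro g hg
  have e := fun (u w : Fin 9 → ℝ) => congrFun hg (u, w, 0, 0)
  have eu := fun i => e (Pi.single i 1) 0
  have ew := fun i => e 0 (Pi.single i 1)
  have u0 := eu 0
  have u3 := eu 3
  have u6 := eu 6
  have w0 := ew 0
  have w1 := ew 1
  have w2 := ew 2
  have w3 := ew 3
  have w4 := ew 4
  have w5 := ew 5
  have w6 := ew 6
  have w7 := ew 7
  have w8 := ew 8
  simp [Fin.sum_univ_succ, idx2, form] at u0 u3 u6 w0 w1 w2 w3 w4 w5 w6 w7 w8
  intro i
  fin_cases i <;> simp <;> linarith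

end Pool.Agent.H5.IncDist
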