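import Mathlib

namespace Pool.Agent.H5.Kakeya

open Set Metric Filter Topology
open scoped RealInnerProductSpace

abbrev E := EuclideanSpace ℝ (Fin 3)

lemma ex_perp (a b : E) : ∃ w : E, ‖w‖ = 1 ∧ ⟪a, w⟫ = 0 ∧ ⟪b, w⟫ = 0 := by
  classical
  have h1 : Module.finrank ℝ (Submodule.span ℝ (({a, b} : Finset E) : Set E)) ≤ 2 :=
    (finrank_span_finset_le_card _).trans Finset.card_le_two
  have h2 := (Submodule.span ℝ (({a, b} : Finset E) : Set E)).finrank_add_finrank_orthogonal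
  rw [finrank_euclideanSpace_fin] at h2
  obtain ⟨w, hw, hw0⟩ := Submodule.exists_mem_ne_zero_of_ne_bot
    (p := (Submodule.span ℝ (({a, b} : Finset E) : Set E))ᗮ) (fun h => by
      rw [h, finrank_bot] at h2; omega)
  refine ⟨‖w‖⁻¹ • w, norm_smul_inv_norm hw0, ?_, ?_⟩ <;>
    rw [inner_smul_right, hw _ (Submodule.subset_span (by simp)), mul_zero]

structure ON (a b n : E) : Prop where
  ha : ‖a‖ = 1
  hb : ‖b‖ = 1
  hn : ‖n‖ = 1
  ab : ⟪a, b⟫ = 0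
  an : ⟪a, n⟫ = 0
  bn : ⟪b, n⟫ = 0

lemma ON.expand {a b n : E} (h : ON a b n) (z : E) : z = ⟪a, z⟫ • a + ⟪b, z⟫ • b + ⟪n, z⟫ • n := by
  have ho : Orthonormal ℝ ![a, b, n] := by
    have := h.ab; have := h.an; have := h.bn
    have e1 := real_inner_comm a b; have e2 := real_inner_comm a n; have e3 := real_inner_comm b n
    refine ⟨fun i => by fin_cases i <;> simp [h.ha, h.hb, h.hn], fun i j hij => ?_⟩
    fin_cases i <;> fin_cases j <;> simp_all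
  have := (OrthonormalBasis.mk ho (ho.linearIndependent.span_eq_top_of_card_eq_finrank
    (by simp)).ge).sum_repr' z
  simpa [Fin.sum_univ_three] using this.symm

lemma ex_ON {n : E} (hn : ‖n‖ = 1) : ∃ a b, ON a b n := by
  obtain ⟨a, h1, h2, -⟩ := ex_perp n n
  obtain ⟨b, h3, h4, h5⟩ := ex_perp n a
  exact ⟨a, b, h1, h3, hn, h5, by rwa [real_inner_comm], by rwa [real_inner_comm]⟩

lemma ON.inner {a b n : E} (h : ON a b n) (p q r : ℝ) :
    ⟪a, p • a + q • b + r • n⟫ = p ∧ ⟪b, p • a + q • b + r • n⟫ = q ∧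
      ⟪n, p • a + q • b + r • n⟫ = r ∧ ‖p • a + q • b + r • n‖ ^ 2 = p ^ 2 + q ^ 2 + r ^ 2 := by
  have e1 := real_inner_comm a b; have e2 := real_inner_comm a n; have e3 := real_inner_comm b n
  rw [h.ab] at e1; rw [h.an] at e2; rw [h.bn] at e3
  have k1 : ⟪a, p • a + q • b + r • n⟫ = p := by
    simp [inner_add_right, inner_smul_right, h.ha, h.ab, h.an]
  have k2 : ⟪b, p • a + q • b + r • n⟫ = q := by
    simp [inner_add_right, inner_smul_right, h.hb, e1, h.bn]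
  have k3 : ⟪n, p • a + q • b + r • n⟫ = r := by
    simp [inner_add_right, inner_smul_right, h.hn, e2, e3]
  refine ⟨k1, k2, k3, ?_⟩
  rw [← real_inner_self_eq_norm_sq]
  nth_rewrite 1 [inner_add_left, inner_add_left, real_inner_smul_left, real_inner_smul_left,
    real_inner_smul_left, k1, k2, k3]
  ring

lemma circ : IsPathConnected (sphere (0 : ℂ) 1) :=
  isPathConnected_sphere (by rw [Complex.rank_real_complex]; norm_num) 0 zero_le_one

lemma mem_circ (u : ℂ) : u ∈ sphere (0 : ℂ) 1 ↔ u.re ^ 2 + u.im ^ 2 = 1 := by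
  rw [mem_sphere_zero_iff_norm, ← sq_eq_sq₀ (norm_nonneg _) zero_le_one, Complex.sq_norm,
    Complex.normSq_apply]
  constructor <;> intro h <;> linarith

def St (K : Set E) : Set ((E × E) × E) :=
  {p | p.1.1 ∈ K ∧ p.1.2 ∈ K ∧ 1 ≤ ‖p.1.2 - p.1.1‖ ∧ ‖p.2‖ = 1 ∧ ⟪p.1.2 - p.1.1, p.2⟫ = 0}

variable {K : Set E}

lemma rot {c : E × E} {w w' : E} (h : (c, w) ∈ St K) (h' : (c, w') ∈ St K) :
    JoinedIn (St K) (c, w) (c, w') := by
  obtain ⟨h1, h2, h3, h4, h5⟩ := h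
  obtain ⟨-, -, -, h6, h7⟩ := h'
  simp only at h1 h2 h3 h4 h5 h6 h7
  have hv : c.2 - c.1 ≠ 0 := norm_pos_iff.1 (by linarith)
  obtain ⟨e, e1, e2, e3⟩ := ex_perp w (c.2 - c.1)
  have o : ON w e (‖c.2 - c.1‖⁻¹ • (c.2 - c.1)) := ⟨h4, e1, norm_smul_inv_norm hv, e2,
    by rw [inner_smul_right, real_inner_comm, h5, mul_zero],
    by rw [inner_smul_right, real_inner_comm, e3, mul_zero]⟩
  have x1 := o.expand w'
  rw [real_inner_smul_left, h7, mul_zero] at x1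
  have x2 := (o.inner ⟪w, w'⟫ ⟪e, w'⟫ 0).2.2.2
  rw [← x1, h6] at x2
  have hp := circ.image' (f := fun u : ℂ => (c, u.re • w + u.im • e)) (by fun_prop)
  refine (hp.joinedIn _ ⟨1, by simp, by simp⟩ _ ⟨⟨⟪w, w'⟫, ⟪e, w'⟫⟩, (mem_circ _).2 (by
    simp only; linarith), by simpa using x1.symm⟩).mono ?_
  rintro _ ⟨u, hu, rfl⟩
  refine ⟨h1, h2, h3, ?_, by simp [inner_add_right, inner_smul_right, h5, e3]⟩
  have := (o.inner u.re u.im 0).2.2.2
  rw [zero_smul, add_zero, (mem_circ u).1 hu] at this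
  rw [← sq_eq_sq₀ (norm_nonneg _) zero_le_one]
  simpa using this

def R (K : Set E) (c c' : E × E) : Prop := ∃ w w', JoinedIn (St K) (c, w) (c', w')

lemma R.symm {c c' : E × E} (h : R K c c') : R K c' c := by
  obtain ⟨w, w', h⟩ := h
  exact ⟨w', w, h.symm⟩

lemma R.trans {c c' c'' : E × E} (h : R K c c') (h' : R K c' c'') : R K c c'' := by
  obtain ⟨w, w', h⟩ := h
  obtain ⟨v, v', h'⟩ := h'
  exact ⟨w, v', (h.trans (rot h.target_mem h'.source_mem)).trans h'⟩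

lemma half (hK : Convex ℝ K) {U : E} (hU : ‖U‖ = 1) {c c' : E × E} (h1 : c.1 ∈ K) (h2 : c.2 ∈ K)
    (h3 : 1 ≤ ⟪U, c.2 - c.1⟫) (h1' : c'.1 ∈ K) (h2' : c'.2 ∈ K) (h3' : 1 ≤ ⟪U, c'.2 - c'.1⟫) :
    R K c c' := by
  obtain ⟨w, e1, e2, e3⟩ := ex_perp (c.2 - c.1) (c'.2 - c'.1)
  refine ⟨w, w, JoinedIn.of_segment_subset ?_⟩
  rintro _ ⟨s, t, hs, ht, hst, rfl⟩
  have e : (s • (c, w) + t • (c', w)).1.2 - (s • (c, w) + t • (c', w)).1.1 =
      s • (c.2 - c.1) + t • (c'.2 - c'.1) := by simp only [Prod.smul_mk, Prod.mk_add_mk, Prod.snd_add,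
        Prod.fst_add, Prod.smul_fst, Prod.smul_snd]; module
  have e' : (s • (c, w) + t • (c', w)).2 = w := by
    simp only [Prod.smul_mk, Prod.mk_add_mk]; rw [← add_smul, hst, one_smul]
  refine ⟨hK h1 h1' hs ht hst, hK h2 h2' hs ht hst, ?_, by rw [e', e1], ?_⟩
  · rw [e]
    have := real_inner_le_norm U (s • (c.2 - c.1) + t • (c'.2 - c'.1))
    rw [hU, one_mul, inner_add_right, inner_smul_right, inner_smul_right] at this
    nlinarith
  · rw [e, e', inner_add_left, real_inner_smul_left, real_inner_smul_left, e2, e3]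
    ring

noncomputable def N (c : E × E) : ℝ := ‖c.1‖ ^ 2 + ‖c.2‖ ^ 2

lemma N_comb (c z : E × E) (l : ℝ) :
    N ((1 - l) • c + l • z) = (1 - l) * N c + l * N z - l * (1 - l) * N (c - z) := by
  simp only [N, EuclideanSpace.real_norm_sq_eq, Fin.sum_univ_three, Prod.fst_add, Prod.snd_add,
    Prod.smul_fst, Prod.smul_snd, Prod.fst_sub, Prod.snd_sub, PiLp.add_apply, PiLp.smul_apply,
    PiLp.sub_apply, smul_eq_mul]
  ring

lemma N_nonneg (c : E × E) : 0 ≤ N c := by unfold N; positivity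

lemma select {C : Set (E × E)} (hC : IsCompact C) (hc : Convex ℝ C) (L : E × E →L[ℝ] ℂ)
    (hne : ∀ u ∈ sphere (0 : ℂ) 1, ∃ c ∈ C, L c = u)
    (hcase : ∀ u ∈ sphere (0 : ℂ) 1, (∀ c ∈ C, ∀ c' ∈ C, L c = u → L c' = u → c = c') ∨
      ∀ η > 0, ∀ᶠ u' in 𝓝[sphere 0 1] u, ∃ l : ℝ, 0 ≤ l ∧ l ≤ η ∧ l ≤ 1 ∧ ∃ z ∈ C,
        u' = (1 - l) • u + l • L z) :
    ∃ s : ℂ → E × E, ContinuousOn s (sphere 0 1) ∧ ∀ u ∈ sphere (0 : ℂ) 1, s u ∈ C ∧ L (s u) = u := by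
  have hN : Continuous N := by unfold N; fun_prop
  have ex : ∀ u ∈ sphere (0 : ℂ) 1, ∃ c, (c ∈ C ∧ L c = u) ∧ ∀ c' ∈ C, L c' = u → N c ≤ N c' := by
    intro u hu
    obtain ⟨c, h1, h2⟩ := (hC.inter_right (isClosed_eq L.continuous (continuous_const (y := u)))).exists_isMinOn
      (hne u hu) hN.continuousOn
    exact ⟨c, h1, fun c' a b => h2 (show c' ∈ C ∩ {x | L x = u} from ⟨a, b⟩)⟩
  choose! s hs hmin using ex
  refine ⟨s, fun u hu => hC.tendsto_nhds_of_unique_mapClusterPt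
    (eventually_mem_nhdsWithin.mono fun u' hu' => (hs u' hu').1) fun c hcC hcl => ?_, hs⟩
  have hL : L c = u := by
    have t1 : Tendsto (L ∘ s) (𝓝[sphere 0 1] u) (𝓝 u) :=
      (tendsto_id.mono_left nhdsWithin_le_nhds).congr'
        (eventually_mem_nhdsWithin.mono fun u' hu' => (hs u' hu').2.symm)
    have := (hcl.continuousAt_comp L.continuous.continuousAt).clusterPt.mono t1
    exact eq_of_nhds_neBot this.neBot
  rcases hcase u hu with h | h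
  · exact h _ hcC _ (hs u hu).1 hL (hs u hu).2
  obtain ⟨M, hM⟩ := (hC.image hN).isBounded.bddAbove
  have hM' : ∀ z ∈ C, N z ≤ M := fun z hz => hM ⟨z, hz, rfl⟩
  have hM0 : 0 ≤ M := (N_nonneg c).trans (hM' c hcC)
  have hle : N c ≤ N (s u) := by
    refine le_of_forall_pos_le_add fun ε hε => ?_
    by_contra hlt
    push Not at hlt
    have f1 := hcl.frequently ((continuousAt_const (y := N (s u) + ε)).eventually_lt hN.continuousAt hlt)
    obtain ⟨u', g1, ⟨l, l0, l1, l2, z, hz, e⟩, g2⟩ :=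
      (f1.and_eventually ((h (ε / (M + 1)) (by positivity)).and eventually_mem_nhdsWithin)).exists
    have g3 := hmin u' g2 ((1 - l) • s u + l • z) (hc (hs u hu).1 hz (by linarith) l0 (by ring))
      (by rw [map_add, map_smul, map_smul, (hs u hu).2, e])
    rw [N_comb] at g3
    rw [le_div_iff₀ (by positivity)] at l1
    nlinarith [mul_nonneg (mul_nonneg l0 (sub_nonneg.2 l2)) (N_nonneg (s u - z)),
      mul_nonneg l0 (N_nonneg (s u)), mul_le_mul_of_nonneg_left (hM' z hz) l0]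
  have g := hmin u hu ((1 - 1 / 2 : ℝ) • s u + (1 / 2 : ℝ) • c)
    (hc (hs u hu).1 hcC (by norm_num) (by norm_num) (by ring))
    (by rw [map_add, map_smul, map_smul, (hs u hu).2, hL, ← add_smul]; norm_num)
  rw [N_comb] at g
  have g0 : N (s u - c) ≤ 0 := by linarith
  unfold N at g0
  have a1 : ‖(s u - c).1‖ = 0 := by nlinarith [sq_nonneg ‖(s u - c).1‖, sq_nonneg ‖(s u - c).2‖]
  have a2 : ‖(s u - c).2‖ = 0 := by nlinarith [sq_nonneg ‖(s u - c).1‖, sq_nonneg ‖(s u - c).2‖]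
  exact (sub_eq_zero.1 (Prod.ext (norm_eq_zero.1 a1) (norm_eq_zero.1 a2))).symm

lemma conic {D : Set ℂ} (hD : Convex ℝ D) (h0 : (0 : ℂ) ∈ D) {u : ℂ} (hu : u ∈ sphere (0 : ℂ) 1)
    {τ : ℝ} (hτ : 0 < τ) (h1 : u * ⟨1, τ⟩ ∈ D) (h2 : u * ⟨1, -τ⟩ ∈ D) (η : ℝ) (hη : 0 < η) :
    ∀ᶠ u' in 𝓝[sphere 0 1] u, ∃ l : ℝ, 0 ≤ l ∧ l ≤ η ∧ l ≤ 1 ∧ ∃ d ∈ D, u' = (1 - l) • u + l • d := by
  have hu' := (mem_circ u).1 hu
  have c1 : ∀ᶠ u' in 𝓝 u, 0 < u'.re * u.re + u'.im * u.im :=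
    continuousAt_const.eventually_lt (by fun_prop) (by nlinarith)
  have c2 : ∀ᶠ u' in 𝓝 u, |u'.im * u.re - u'.re * u.im| < min (min (η * τ / 2) (τ / 2)) (1 / τ) :=
    ContinuousAt.eventually_lt (by fun_prop) continuousAt_const (by
      rw [mul_comm, sub_self, abs_zero]; positivity)
  filter_upwards [mem_nhdsWithin_of_mem_nhds c1, mem_nhdsWithin_of_mem_nhds c2,
    self_mem_nhdsWithin] with v hp hq hv
  have hv' := (mem_circ v).1 hv
  obtain ⟨p, hpd⟩ : ∃ p, p = v.re * u.re + v.im * u.im := ⟨_, rfl⟩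
  obtain ⟨q, hqd⟩ : ∃ q, q = v.im * u.re - v.re * u.im := ⟨_, rfl⟩
  rw [← hpd] at hp
  rw [← hqd, lt_min_iff, lt_min_iff, lt_div_iff₀ hτ] at hq
  have hpq : p ^ 2 + q ^ 2 = 1 := by
    rw [hpd, hqd]; linear_combination (u.re ^ 2 + u.im ^ 2) * hv' + hu'
  have hve : v = u * ⟨p, q⟩ := by
    apply Complex.ext <;> simp only [Complex.mul_re, Complex.mul_im, hpd, hqd]
    · linear_combination (-v.re) * hu'
    · linear_combination (-v.im) * hu'
  rcases eq_or_ne q 0 with rfl | hq0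
  · have : p = 1 := by nlinarith
    refine ⟨0, le_rfl, hη.le, zero_le_one, 0, h0, ?_⟩
    rw [hve, this]
    apply Complex.ext <;> simp
  have ha := abs_pos.2 hq0
  have hsq := sq_abs q
  obtain ⟨σ, hσ, hσq⟩ : ∃ σ : ℝ, (σ = 1 ∨ σ = -1) ∧ q = σ * |q| := by
    rcases le_total 0 q with h | h
    · exact ⟨1, Or.inl rfl, by rw [abs_of_nonneg h, one_mul]⟩
    · exact ⟨-1, Or.inr rfl, by rw [abs_of_nonpos h]; ring⟩
  generalize |q| = a at *
  have hp1 : p ≤ 1 := by nlinarith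
  have hP : (1 - p) * τ / (2 * a) ≤ 1 / 2 := by
    rw [div_le_iff₀ (by positivity)]
    have : 1 - p ≤ a ^ 2 := by nlinarith
    nlinarith [mul_le_mul_of_nonneg_right this hτ.le]
  have hP0 : 0 ≤ (1 - p) * τ / (2 * a) := div_nonneg (mul_nonneg (by linarith) hτ.le) (by positivity)
  refine ⟨2 * a / τ, by positivity, by rw [div_le_iff₀ hτ]; linarith [hq.1.1],
    by rw [div_le_iff₀ hτ]; linarith [hq.1.2],
    ((1 - (1 - p) * τ / (2 * a) + σ / 2) / 2) • (u * ⟨1, τ⟩) +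
      ((1 - (1 - p) * τ / (2 * a) - σ / 2) / 2) • (u * ⟨1, -τ⟩), ?_, ?_⟩
  · have := hD.sum_mem (t := Finset.univ) (w := ![(1 - (1 - p) * τ / (2 * a) + σ / 2) / 2,
      (1 - (1 - p) * τ / (2 * a) - σ / 2) / 2, (1 - p) * τ / (2 * a)])
      (z := ![u * ⟨1, τ⟩, u * ⟨1, -τ⟩, 0])
      (fun i _ => by fin_cases i <;> rcases hσ with rfl | rfl <;> simp <;> linarith)
      (by simp [Fin.sum_univ_three]; ring) (fun i _ => by fin_cases i <;> simpa)
    simpa [Fin.sum_univ_three] using this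
  · rw [hve, hσq]
    apply Complex.ext <;>
      simp only [Complex.mul_re, Complex.mul_im, Complex.add_re, Complex.add_im, Complex.smul_re,
        Complex.smul_im, smul_eq_mul] <;> field_simp <;> ring

lemma inter {D : Set ℂ} (hD : Convex ℝ D) (h0 : closedBall (0 : ℂ) 1 ⊆ D) {u : ℂ}
    (hu : u ∈ sphere (0 : ℂ) 1) {α β : ℝ} (hα : 1 < α) (hd : u * ⟨α, β⟩ ∈ D) :
    ∃ τ > 0, u * ⟨1, τ⟩ ∈ D ∧ u * ⟨1, -τ⟩ ∈ D := by
  obtain ⟨μ, hμ⟩ : ∃ μ, μ = (α - 1) / (α ^ 2 + 2 + 2 * β ^ 2) := ⟨_, rfl⟩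
  have m0 : 0 < μ := by rw [hμ]; exact div_pos (by linarith) (by positivity)
  have m1 : μ * (α ^ 2 + 2 + 2 * β ^ 2) = α - 1 := by rw [hμ]; field_simp
  have m2 : μ < 1 := by rw [hμ, div_lt_one (by positivity)]; nlinarith [sq_nonneg β]
  have key : ∀ σ : ℝ, σ ^ 2 = 1 → u * ⟨1, σ * μ⟩ ∈ D := by
    intro σ hσ
    have m3 : 0 < 1 - μ := by linarith
    have he : u * ⟨(1 - μ * α) / (1 - μ), (σ * μ - μ * β) / (1 - μ)⟩ ∈ D := by
      apply h0
      rw [mem_closedBall_zero_iff, norm_mul, mem_sphere_zero_iff_norm.1 hu, one_mul,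
        ← sq_le_sq₀ (norm_nonneg _) zero_le_one, Complex.sq_norm, Complex.normSq_mk, ← sq, ← sq,
        div_pow, div_pow, ← add_div, div_le_iff₀ (by positivity)]
      have : (σ - β) ^ 2 ≤ 2 + 2 * β ^ 2 := by nlinarith [sq_nonneg (σ + β)]
      nlinarith [mul_le_mul_of_nonneg_left this (sq_nonneg μ), mul_pos m0 m0, mul_pos m0 (sub_pos.2 hα)]
    have := hD hd he m0.le m3.le (by ring)
    refine (congrArg (· ∈ D) ?_).mp this
    apply Complex.ext <;>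
      simp only [Complex.mul_re, Complex.mul_im, Complex.add_re, Complex.add_im, Complex.smul_re,
        Complex.smul_im, smul_eq_mul] <;> field_simp <;> ring
  exact ⟨μ, m0, by simpa using key 1 (by norm_num), by simpa using key (-1) (by norm_num)⟩

def Z (K : Set E) (U : E) : Prop := ∀ x ∈ K, ∀ y ∈ K, ⟪U, y - x⟫ ≤ 1

lemma Z.neg {U : E} (h : Z K U) : Z K (-U) := fun x hx y hy => by
  have := h y hy x hx
  rwa [inner_neg_left, ← inner_neg_right, neg_sub]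

def Bad (K : Set E) (n : E) : Prop := ∃ U, ‖U‖ = 1 ∧ ⟪U, n⟫ = 0 ∧ Z K U ∧
  ∃ x ∈ K, ∃ ε : ℝ, 0 < ε ∧ x + ε • n ∈ K ∧ ∀ z ∈ K, ⟪U, z⟫ ≤ ⟪U, x⟫

lemma bad_of {n U p : E} {r : ℝ} (h1 : ‖U‖ = 1) (h2 : ⟪U, n⟫ = 0) (h3 : Z K U) (hp : p ∈ K)
    (hp' : p + r • n ∈ K) (hr : r ≠ 0) (hm : ∀ z ∈ K, ⟪U, z⟫ ≤ ⟪U, p⟫) : Bad K n := by
  rcases lt_or_gt_of_ne hr with h | h
  · refine ⟨U, h1, h2, h3, p + r • n, hp', -r, by linarith, by simpa using hp, fun z hz => ?_⟩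
    rw [inner_add_right, inner_smul_right, h2]
    linarith [hm z hz]
  · exact ⟨U, h1, h2, h3, p, hp, r, h, hp', hm⟩

lemma plane (hK : IsCompact K) (hc : Convex ℝ K) (kak : ∀ v : E, ‖v‖ = 1 → ∃ x ∈ K, x + v ∈ K)
    {a b n : E} (o : ON a b n) (hg : ¬Bad K n) {c c' : E × E} (h1 : c.1 ∈ K) (h2 : c.2 ∈ K)
    (h3 : 1 ≤ ⟪a, c.2 - c.1⟫ ^ 2 + ⟪b, c.2 - c.1⟫ ^ 2) (h1' : c'.1 ∈ K) (h2' : c'.2 ∈ K)
    (h3' : 1 ≤ ⟪a, c'.2 - c'.1⟫ ^ 2 + ⟪b, c'.2 - c'.1⟫ ^ 2) : R K c c' := by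
  let δ : E × E →L[ℝ] E := ContinuousLinearMap.snd ℝ E E - ContinuousLinearMap.fst ℝ E E
  let L : E × E →L[ℝ] ℂ := Complex.equivRealProdCLM.symm.toContinuousLinearMap ∘L
    ((innerSL ℝ a ∘L δ).prod (innerSL ℝ b ∘L δ))
  have Lre : ∀ c, (L c).re = ⟪a, c.2 - c.1⟫ := fun c => rfl
  have Lim : ∀ c, (L c).im = ⟪b, c.2 - c.1⟫ := fun c => rfl
  clear_value L
  have vn : ∀ p q : ℝ, p ^ 2 + q ^ 2 = 1 → ‖p • a + q • b‖ = 1 := fun p q h => by
    have := (o.inner p q 0).2.2.2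
    rw [zero_smul, add_zero, h] at this
    rw [← sq_eq_sq₀ (norm_nonneg _) zero_le_one]
    simpa using this
  have vi : ∀ (p q : ℝ) (c : E × E), ⟪p • a + q • b, c.2 - c.1⟫ = p * (L c).re + q * (L c).im :=
    fun p q c => by rw [inner_add_left, real_inner_smul_left, real_inner_smul_left, Lre, Lim]
  have hne : ∀ u ∈ sphere (0 : ℂ) 1, ∃ c ∈ K ×ˢ K, L c = u := by
    intro u hu
    obtain ⟨x, x1, x2⟩ := kak _ (vn _ _ ((mem_circ u).1 hu))
    have := o.inner u.re u.im 0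
    rw [zero_smul, add_zero] at this
    exact ⟨(x, x + (u.re • a + u.im • b)), ⟨x1, x2⟩, Complex.ext
      (by rw [Lre, add_sub_cancel_left, this.1]) (by rw [Lim, add_sub_cancel_left, this.2.1])⟩
  have hD : Convex ℝ (L '' K ×ˢ K) := (hc.prod hc).linear_image L.toLinearMap
  have hB : closedBall (0 : ℂ) 1 ⊆ L '' K ×ˢ K := by
    rw [← convexHull_sphere_eq_closedBall 0 zero_le_one]
    exact convexHull_min hne hD
  obtain ⟨s, hs, hs'⟩ := select (hK.prod hK) (hc.prod hc) L hne (by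
    intro u hu
    have hu' := (mem_circ u).1 hu
    have dec : ∀ d : ℂ, d = u * ⟨u.re * d.re + u.im * d.im, u.re * d.im - u.im * d.re⟩ := fun d => by
      apply Complex.ext <;> simp only [Complex.mul_re, Complex.mul_im]
      · linear_combination (-d.re) * hu'
      · linear_combination (-d.im) * hu'
    by_cases hun : ∀ c ∈ K ×ˢ K, ∀ c' ∈ K ×ˢ K, L c = u → L c' = u → c = c'
    · exact Or.inl hun
    right
    suffices h : ∃ τ > 0, u * ⟨1, τ⟩ ∈ L '' K ×ˢ K ∧ u * ⟨1, -τ⟩ ∈ L '' K ×ˢ K by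
      obtain ⟨τ, t0, t1, t2⟩ := h
      intro η hη
      filter_upwards [conic hD (hB (mem_closedBall_self zero_le_one)) hu t0 t1 t2 η hη] with v hv
      obtain ⟨l, l0, l1, l2, _, ⟨z, hz, rfl⟩, e⟩ := hv
      exact ⟨l, l0, l1, l2, z, hz, e⟩
    by_cases hZ : Z K (u.re • a + u.im • b)
    swap
    · simp only [Z, not_forall, not_le] at hZ
      obtain ⟨x, hx, y, hy, h⟩ := hZ
      rw [vi _ _ (x, y)] at h
      exact inter hD hB hu h ⟨(x, y), ⟨hx, hy⟩, dec (L (x, y))⟩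
    push Not at hun
    obtain ⟨⟨x, y⟩, ⟨hx, hy⟩, ⟨x', y'⟩, ⟨hx', hy'⟩, e1, e2, hne⟩ := hun
    simp only at hx hy hx' hy'
    have sum : L (x, y') + L (x', y) = u + u := by
      rw [← map_add]
      nth_rewrite 1 [← e1, ← e2]
      rw [← map_add, Prod.mk_add_mk, Prod.mk_add_mk, add_comm y' y]
    have s1 := congrArg Complex.re sum
    have s2 := congrArg Complex.im sum
    simp only [Complex.add_re, Complex.add_im] at s1 s2
    have z1 := hZ x hx y' hy'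
    have z2 := hZ x' hx' y hy
    rw [vi _ _ (x, y')] at z1
    rw [vi _ _ (x', y)] at z2
    have zs : u.re * (L (x, y')).re + u.im * (L (x, y')).im +
        (u.re * (L (x', y)).re + u.im * (L (x', y)).im) = 2 := by
      linear_combination u.re * s1 + u.im * s2 + 2 * hu'
    have d1 := dec (L (x, y'))
    have d2 := dec (L (x', y))
    rw [show u.re * (L (x, y')).re + u.im * (L (x, y')).im = 1 by linarith] at d1
    rw [show u.re * (L (x', y)).re + u.im * (L (x', y)).im = 1 by linarith,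
      show u.re * (L (x', y)).im - u.im * (L (x', y)).re =
        -(u.re * (L (x, y')).im - u.im * (L (x, y')).re) by
          linear_combination u.re * s2 - u.im * s1] at d2
    generalize u.re * (L (x, y')).im - u.im * (L (x, y')).re = τ at d1 d2
    rcases lt_trichotomy τ 0 with h | rfl | h
    · exact ⟨-τ, by linarith, ⟨(x', y), ⟨hx', hy⟩, d2⟩, ⟨(x, y'), ⟨hx, hy'⟩, by rw [neg_neg]; exact d1⟩⟩
    swap
    · exact ⟨τ, h, ⟨(x, y'), ⟨hx, hy'⟩, d1⟩, ⟨(x', y), ⟨hx', hy⟩, d2⟩⟩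
    exfalso
    apply hg
    have o1 : (⟨1, 0⟩ : ℂ) = 1 := rfl
    rw [neg_zero] at d2
    rw [o1, mul_one, ← e1] at d1 d2
    have un := vn _ _ hu'
    have up : ⟪u.re • a + u.im • b, n⟫ = 0 := by
      rw [inner_add_left, real_inner_smul_left, real_inner_smul_left, o.an, o.bn]; ring
    have u1 : ⟪u.re • a + u.im • b, y - x⟫ = 1 := by rw [vi _ _ (x, y), e1]; linarith
    have par : ∀ p p' : E, ⟪a, p'⟫ = ⟪a, p⟫ → ⟪b, p'⟫ = ⟪b, p⟫ → p' = p + ⟪n, p' - p⟫ • n := by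
      intro p p' k1 k2
      have := o.expand (p' - p)
      rw [inner_sub_right a, inner_sub_right b, k1, k2, sub_self, sub_self, zero_smul, zero_smul,
        zero_add, zero_add] at this
      rw [← this]
      abel
    have r1 := congrArg Complex.re d1
    have r2 := congrArg Complex.im d1
    have r3 := congrArg Complex.re d2
    have r4 := congrArg Complex.im d2
    simp only [Lre, Lim, inner_sub_right] at r1 r2 r3 r4
    have p1 := par y y' (by linarith) (by linarith)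
    have p2 := par x x' (by linarith) (by linarith)
    by_cases q1 : ⟪n, y' - y⟫ = 0
    · refine bad_of (U := -(u.re • a + u.im • b)) (by rw [norm_neg, un])
        (by rw [inner_neg_left, up, neg_zero]) hZ.neg hx (p2 ▸ hx') (fun q2 => hne ?_) fun z hz => ?_
      · rw [p1, p2, q1, q2]
        simp
      · have := hZ z hz y hy
        rw [inner_sub_right] at this u1
        rw [inner_neg_left, inner_neg_left]
        linarith
    · refine bad_of un up hZ hy (p1 ▸ hy') q1 fun z hz => ?_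
      have := hZ x hx z hz
      rw [inner_sub_right] at this u1
      linarith)
  have hp := circ.image' (f := fun u : ℂ => (s u, (-u.im) • a + u.re • b))
    (hs.prodMk (by fun_prop))
  have hsub : (fun u : ℂ => (s u, (-u.im) • a + u.re • b)) '' sphere 0 1 ⊆ St K := by
    rintro _ ⟨u, hu, rfl⟩
    have hu' := (mem_circ u).1 hu
    obtain ⟨⟨k1, k2⟩, k3⟩ := hs' u hu
    refine ⟨k1, k2, ?_, vn _ _ (by linarith), ?_⟩
    · have := real_inner_le_norm (u.re • a + u.im • b) ((s u).2 - (s u).1)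
      rw [vi, k3, vn _ _ hu'] at this
      simp only
      linarith
    · simp only
      rw [real_inner_comm, vi, k3]
      ring
  have to_s : ∀ c : E × E, c.1 ∈ K → c.2 ∈ K → 1 ≤ ⟪a, c.2 - c.1⟫ ^ 2 + ⟪b, c.2 - c.1⟫ ^ 2 →
      R K c (s 1) := by
    intro c k1 k2 k3
    rw [← Lre, ← Lim] at k3
    have n2 : ‖L c‖ ^ 2 = (L c).re ^ 2 + (L c).im ^ 2 := by
      rw [Complex.sq_norm, Complex.normSq_apply]; ring
    have n1 : 1 ≤ ‖L c‖ := by nlinarith [norm_nonneg (L c)]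
    have hu : ‖L c‖⁻¹ • L c ∈ sphere (0 : ℂ) 1 :=
      mem_sphere_zero_iff_norm.2 (norm_smul_inv_norm (norm_pos_iff.1 (by linarith)))
    have hu' := (mem_circ _).1 hu
    obtain ⟨⟨j1, j2⟩, j3⟩ := hs' _ hu
    refine (half hc (vn _ _ hu') k1 k2 ?_ j1 j2 (by rw [vi, j3]; linarith)).trans
      ⟨_, _, (hp.joinedIn _ ⟨_, hu, rfl⟩ _ ⟨1, by simp, rfl⟩).mono hsub⟩
    rw [vi]
    simp only [Complex.smul_re, Complex.smul_im, smul_eq_mul, mul_assoc, ← mul_add, ← sq, ← n2]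
    rw [sq, inv_mul_cancel_left₀ (by linarith)]
    exact n1
  exact (to_s c h1 h2 h3).trans (to_s c' h1' h2' h3').symm

lemma small {W : Set (ℝ × ℝ)} {C : ℝ} (hC : 0 ≤ C)
    (h : ∀ p ∈ W, ∀ q ∈ W, |p.2 - q.2| ≤ C * (p.1 - q.1) ^ 2) : dimH (Prod.snd '' W) ≤ 1 / 2 := by
  have ex : ∀ t ∈ Prod.fst '' W, ∃ s, (t, s) ∈ W := by
    rintro _ ⟨p, hp, rfl⟩
    exact ⟨p.2, hp⟩
  choose! f hf using ex
  have hH : HolderOnWith C.toNNReal 2 f (Prod.fst '' W) := by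
    intro x hx y hy
    have := h _ (hf x hx) _ (hf y hy)
    rw [edist_dist, edist_dist, Real.dist_eq, Real.dist_eq, NNReal.coe_ofNat, ENNReal.rpow_ofNat,
      ← ENNReal.ofReal_pow (abs_nonneg _), sq_abs]
    exact (ENNReal.ofReal_le_ofReal this).trans_eq (ENNReal.ofReal_mul hC)
  have hs : Prod.snd '' W ⊆ f '' (Prod.fst '' W) := by
    rintro _ ⟨p, hp, rfl⟩
    refine ⟨p.1, ⟨p, hp, rfl⟩, ?_⟩
    have := h _ (hf p.1 ⟨p, hp, rfl⟩) _ hp
    simp only [sub_self, ne_eq, OfNat.ofNat_ne_zero, not_false_eq_true, zero_pow, mul_zero,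
      abs_nonpos_iff] at this
    linarith
  refine (dimH_mono hs).trans ((hH.dimH_image_le two_pos).trans ?_)
  exact ENNReal.div_le_div_right ((dimH_mono (subset_univ _)).trans_eq Real.dimH_univ) _

def Nice (K : Set E) (v : E) : Prop := ¬(Z K v ∧ ∃ σ : ℝ, (σ = 1 ∨ σ = -1) ∧ ∃ p ∈ K, ∃ p' ∈ K,
  p ≠ p' ∧ ⟪v, p⟫ = ⟪v, p'⟫ ∧ ∀ z ∈ K, σ * ⟪v, z⟫ ≤ σ * ⟪v, p⟫)

lemma good {v : E} (hv : ‖v‖ = 1) (hn : Nice K v) : ∃ n, ‖n‖ = 1 ∧ ⟪v, n⟫ = 0 ∧ ¬Bad K n := by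
  obtain ⟨a, b, o⟩ := ex_ON hv
  let W : Bool × ℕ × ℤ → Set (ℝ × ℝ) := fun i => {p | ∃ σ r ε : ℝ, ∃ x ∈ K,
    σ = (if i.1 then 1 else -1) ∧ p.1 = r + ⟪v, x⟫ ∧ 1 / ((i.2.1 : ℝ) + 1) ≤ ε ∧
    ⌊2 * ((i.2.1 : ℝ) + 1) * ⟪b, x⟫⌋ = i.2.2 ∧ x + ε • ((-p.2) • a + b) ∈ K ∧
    ∀ z ∈ K, σ * (⟪a, z⟫ + p.2 * ⟪b, z⟫) + r * ⟪v, z⟫ ≤ σ * (⟪a, x⟫ + p.2 * ⟪b, x⟫) + r * ⟪v, x⟫}
  have co : ∀ (x : E) (ε s : ℝ), ⟪a, x + ε • ((-s) • a + b)⟫ = ⟪a, x⟫ - ε * s ∧
      ⟪b, x + ε • ((-s) • a + b)⟫ = ⟪b, x⟫ + ε ∧ ⟪v, x + ε • ((-s) • a + b)⟫ = ⟪v, x⟫ := by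
    intro x ε s
    obtain ⟨k1, k2, k3, -⟩ := o.inner (-s) 1 0
    rw [zero_smul, add_zero, one_smul] at k1 k2 k3
    simp only [inner_add_right _ x, inner_smul_right _ _ ε, k1, k2, k3]
    refine ⟨by ring, by ring, by ring⟩
  have hW : ∀ i, dimH (Prod.snd '' W i) ≤ 1 / 2 := by
    rintro ⟨β, m, k⟩
    refine small (C := m + 1) (by positivity) ?_
    rintro ⟨t, s⟩ ⟨σ, r, ε, x, hx, e1, e2, e3, e4, e5, e6⟩ ⟨t', s'⟩
      ⟨σ', r', ε', x', hx', e1', e2', e3', e4', e5', e6'⟩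
    simp only at e1 e2 e3 e4 e5 e6 e1' e2' e3' e4' e5' e6' ⊢
    obtain rfl : σ' = σ := e1'.trans e1.symm
    have hσ : σ' = 1 ∨ σ' = -1 := by rw [e1]; split_ifs <;> simp
    have fl := abs_lt.1 (Int.abs_sub_lt_one_of_floor_eq_floor (e4.trans e4'.symm))
    have a1 := e6 x' hx'
    have a2 := e6 _ e5'
    have a3 := e6' x hx
    have a4 := e6' _ e5
    rw [(co x' ε' s').1, (co x' ε' s').2.1, (co x' ε' s').2.2] at a2
    rw [(co x ε s).1, (co x ε s).2.1, (co x ε s).2.2] at a4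
    have hm : (0 : ℝ) < m + 1 := by positivity
    rw [div_le_iff₀ hm] at e3 e3'
    rw [e2, e2']
    generalize ⟪a, x⟫ = x1 at *
    generalize ⟪b, x⟫ = x2 at *
    generalize ⟪v, x⟫ = x3 at *
    generalize ⟪a, x'⟫ = y1 at *
    generalize ⟪b, x'⟫ = y2 at *
    generalize ⟪v, x'⟫ = y3 at *
    generalize (m : ℝ) + 1 = M at *
    have b1 : σ' * (s - s') * (ε' - (x2 - y2)) ≤ (r - r') * (x3 - y3) := by linarith
    have b2 : -(σ' * (s - s')) * (ε + (x2 - y2)) ≤ (r - r') * (x3 - y3) := by linarith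
    have b3 : 4 * ((r - r') * (x3 - y3)) ≤ (r + x3 - (r' + y3)) ^ 2 := by
      nlinarith [sq_nonneg (r - r' - (x3 - y3))]
    have b4 : |s - s'| = |σ' * (s - s')| := by rcases hσ with rfl | rfl <;> simp [abs_sub_comm]
    rw [b4]
    generalize σ' * (s - s') = D at *
    generalize (r - r') * (x3 - y3) = P at *
    generalize (r + x3 - (r' + y3)) ^ 2 = Q at *
    have c1 : 1 / 2 ≤ M * (ε' - (x2 - y2)) := by linarith [fl.2]
    have c2 : 1 / 2 ≤ M * (ε + (x2 - y2)) := by linarith [fl.1]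
    rcases le_total 0 D with h | h
    · rw [abs_of_nonneg h]
      nlinarith [mul_le_mul_of_nonneg_left c1 h, mul_le_mul_of_nonneg_left b1 hm.le,
        mul_le_mul_of_nonneg_left b3 hm.le]
    · rw [abs_of_nonpos h]
      nlinarith [mul_le_mul_of_nonneg_left c2 (neg_nonneg.2 h), mul_le_mul_of_nonneg_left b2 hm.le,
        mul_le_mul_of_nonneg_left b3 hm.le]
  obtain ⟨s, hs⟩ : ∃ s, s ∉ ⋃ i, Prod.snd '' W i := by
    by_contra h
    push Not at h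
    have h1 := (dimH_iUnion fun i => Prod.snd '' W i).trans_le (iSup_le hW)
    rw [eq_univ_iff_forall.2 h, Real.dimH_univ] at h1
    norm_num at h1
  obtain ⟨k1, k2, k3, k4⟩ := o.inner (-s) 1 0
  rw [zero_smul, add_zero, one_smul] at k1 k2 k3 k4
  have n0 : 0 < ‖(-s) • a + b‖ := by
    refine lt_of_pow_lt_pow_left₀ 2 (norm_nonneg _) ?_
    rw [k4]
    nlinarith [sq_nonneg s]
  refine ⟨‖(-s) • a + b‖⁻¹ • ((-s) • a + b), norm_smul_inv_norm (norm_pos_iff.1 n0),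
    by rw [inner_smul_right, k3, mul_zero], ?_⟩
  rintro ⟨U, u1, u2, u3, x, hx, ε, e0, e1, e2⟩
  rw [inner_smul_right, mul_eq_zero, inner_add_right, inner_smul_right] at u2
  have u4 : ⟪b, U⟫ = s * ⟪a, U⟫ := by
    rw [real_inner_comm U b, real_inner_comm U a]
    linarith [u2.resolve_left (inv_ne_zero n0.ne')]
  rw [smul_smul] at e1
  have e0' : 0 < ε * ‖(-s) • a + b‖⁻¹ := by positivity
  generalize ε * ‖(-s) • a + b‖⁻¹ = ε' at e1 e0'
  have hU := o.expand U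
  have hn2 := (o.inner ⟪a, U⟫ ⟪b, U⟫ ⟪v, U⟫).2.2.2
  rw [← hU, u1] at hn2
  rw [u4] at hU hn2
  generalize ⟪a, U⟫ = α at hU hn2
  generalize ⟪v, U⟫ = γ at hU hn2
  have ev : ∀ z, ⟪U, z⟫ = α * (⟪a, z⟫ + s * ⟪b, z⟫) + γ * ⟪v, z⟫ := fun z => by
    rw [hU, inner_add_left, inner_add_left, real_inner_smul_left, real_inner_smul_left,
      real_inner_smul_left]
    ring
  rcases eq_or_ne α 0 with rfl | hα
  · have hγ : γ = 1 ∨ γ = -1 := mul_self_eq_one_iff.1 (by linarith)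
    refine hn ⟨?_, γ, hγ, x, hx, _, e1, fun h => ?_, (co x ε' s).2.2.symm, fun z hz => ?_⟩
    · rcases hγ with rfl | rfl
      · rwa [show v = U by rw [hU]; simp]
      · rw [show v = -U by rw [hU]; simp]
        exact u3.neg
    · have := (co x ε' s).2.1
      rw [← h] at this
      linarith
    · have := e2 z hz
      rw [ev, ev] at this
      linarith
  · obtain ⟨m, hm⟩ := exists_nat_one_div_lt e0'
    have ha := abs_pos.2 hα
    refine hs (mem_iUnion.2 ⟨(decide (0 < α), m, ⌊2 * ((m : ℝ) + 1) * ⟪b, x⟫⌋), (γ / |α| + ⟪v, x⟫, s),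
      ⟨α / |α|, γ / |α|, ε', x, hx, ?_, rfl, hm.le, rfl, e1, fun z hz => ?_⟩, rfl⟩)
    · rcases lt_or_gt_of_ne hα with h | h
      · simp [h.not_gt, abs_of_neg h, div_neg, h.ne]
      · simp [h, abs_of_pos h, h.ne']
    · have := e2 z hz
      rw [ev, ev] at this
      have := div_le_div_of_nonneg_right this ha.le
      simp only
      linear_combination this

lemma connect (hK : IsCompact K) (hc : Convex ℝ K) (kak : ∀ v : E, ‖v‖ = 1 → ∃ x ∈ K, x + v ∈ K)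
    {p q : (E × E) × E} (hp : p ∈ St K) (hq : q ∈ St K) : JoinedIn (St K) p q := by
  have step2 : ∀ c : E × E, c.1 ∈ K → c.2 ∈ K → 1 ≤ ‖c.2 - c.1‖ →
      Nice K (‖c.2 - c.1‖⁻¹ • (c.2 - c.1)) → ∃ n, ‖n‖ = 1 ∧ ¬Bad K n ∧ ⟪n, c.2 - c.1⟫ = 0 := by
    intro c h1 h2 h3 h4
    have hv : ‖‖c.2 - c.1‖⁻¹ • (c.2 - c.1)‖ = 1 := norm_smul_inv_norm (norm_pos_iff.1 (by linarith))
    obtain ⟨n, k1, k2, k3⟩ := good hv h4
    rw [real_inner_smul_left, mul_eq_zero] at k2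
    exact ⟨n, k1, k3, by rw [real_inner_comm]; exact k2.resolve_left (inv_ne_zero (by linarith))⟩
  have big : ∀ c : E × E, c.1 ∈ K → c.2 ∈ K → 1 < ‖c.2 - c.1‖ →
      Nice K (‖c.2 - c.1‖⁻¹ • (c.2 - c.1)) := by
    rintro c h1 h2 h3 ⟨h, -⟩
    have := h _ h1 _ h2
    rw [real_inner_smul_left, real_inner_self_eq_norm_sq, sq, inv_mul_cancel_left₀ (by linarith)] at this
    linarith
  have long : ∀ v z : E, ‖v‖ = 1 → ⟪v, z⟫ = 1 → z ≠ v → 1 < ‖z‖ := by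
    intro v z h1 h2 h3
    have := norm_sub_sq_real v z
    rw [h1, h2] at this
    have h4 := norm_pos_iff.2 (sub_ne_zero.2 h3.symm)
    exact lt_of_pow_lt_pow_left₀ 2 (norm_nonneg _) (by nlinarith)
  have step : ∀ c : E × E, c.1 ∈ K → c.2 ∈ K → 1 ≤ ‖c.2 - c.1‖ → ∃ c' : E × E, R K c c' ∧
      c'.1 ∈ K ∧ c'.2 ∈ K ∧ 1 ≤ ‖c'.2 - c'.1‖ ∧ ∃ n, ‖n‖ = 1 ∧ ¬Bad K n ∧ ⟪n, c'.2 - c'.1⟫ = 0 := by
    intro c h1 h2 h3
    have hv : ‖‖c.2 - c.1‖⁻¹ • (c.2 - c.1)‖ = 1 := norm_smul_inv_norm (norm_pos_iff.1 (by linarith))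
    have hi : ⟪‖c.2 - c.1‖⁻¹ • (c.2 - c.1), c.2 - c.1⟫ = ‖c.2 - c.1‖ := by
      rw [real_inner_smul_left, real_inner_self_eq_norm_sq, sq, inv_mul_cancel_left₀ (by linarith)]
    by_cases hn : Nice K (‖c.2 - c.1‖⁻¹ • (c.2 - c.1))
    · exact ⟨c, half hc hv h1 h2 (by rw [hi]; exact h3) h1 h2 (by rw [hi]; exact h3), h1, h2, h3,
        step2 c h1 h2 h3 hn⟩
    obtain ⟨hZ, σ, hσ, p, hp, p', hp', hne, e, hm⟩ := not_not.1 hn
    have h4 : ‖c.2 - c.1‖ = 1 := le_antisymm (hi ▸ hZ _ h1 _ h2) h3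
    rw [h4, inv_one, one_smul] at hZ e hm hi
    obtain ⟨r, hr, hr1, hr2⟩ : ∃ r ∈ K, r ≠ (if σ = 1 then c.2 else c.1) ∧
        ∀ z ∈ K, σ * ⟪c.2 - c.1, z⟫ ≤ σ * ⟪c.2 - c.1, r⟫ := by
      by_cases h : p = (if σ = 1 then c.2 else c.1)
      · exact ⟨p', hp', fun h' => hne (h.trans h'.symm), e ▸ hm⟩
      · exact ⟨p, hp, h, hm⟩
    rcases hσ with rfl | rfl
    · rw [if_pos rfl] at hr1
      have k1 := hr2 _ h2
      have k2 := hZ _ h1 _ hr
      have k3 : ⟪c.2 - c.1, r - c.1⟫ = 1 := by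
        rw [inner_sub_right] at hi k2 ⊢
        linarith
      have k4 := long _ _ h4 k3 (fun h => hr1 (sub_left_injective h))
      exact ⟨(c.1, r), half hc h4 h1 h2 hi.ge h1 hr k3.ge, h1, hr, k4.le,
        step2 (c.1, r) h1 hr k4.le (big (c.1, r) h1 hr k4)⟩
    · rw [if_neg (by norm_num)] at hr1
      have k1 := hr2 _ h1
      have k2 := hZ _ hr _ h2
      have k3 : ⟪c.2 - c.1, c.2 - r⟫ = 1 := by
        rw [inner_sub_right] at hi k2 ⊢
        linarith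
      have k4 := long _ _ h4 k3 (fun h => hr1 (sub_right_injective h))
      exact ⟨(r, c.2), half hc h4 h1 h2 hi.ge hr h2 k3.ge, hr, h2, k4.le,
        step2 (r, c.2) hr h2 k4.le (big (r, c.2) hr h2 k4)⟩
  have pl : ∀ n, ‖n‖ = 1 → ¬Bad K n → ∀ c c' : E × E, c.1 ∈ K → c.2 ∈ K → 1 ≤ ‖c.2 - c.1‖ →
      ⟪n, c.2 - c.1⟫ = 0 → c'.1 ∈ K → c'.2 ∈ K → 1 ≤ ‖c'.2 - c'.1‖ → ⟪n, c'.2 - c'.1⟫ = 0 →
      R K c c' := by
    intro n h1 h2 c c' a1 a2 a3 a4 b1 b2 b3 b4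
    obtain ⟨a, b, o⟩ := ex_ON h1
    have key : ∀ z : E, 1 ≤ ‖z‖ → ⟪n, z⟫ = 0 → 1 ≤ ⟪a, z⟫ ^ 2 + ⟪b, z⟫ ^ 2 := fun z k1 k2 => by
      have := (o.inner ⟪a, z⟫ ⟪b, z⟫ ⟪n, z⟫).2.2.2
      rw [← o.expand z, k2] at this
      nlinarith
    exact plane hK hc kak o h2 a1 a2 (key _ a3 a4) b1 b2 (key _ b3 b4)
  obtain ⟨c, r1, c1, c2, c3, n, n1, n2, n3⟩ := step p.1 hp.1 hp.2.1 hp.2.2.1
  obtain ⟨d, r2, d1, d2, d3, m, m1, m2, m3⟩ := step q.1 hq.1 hq.2.1 hq.2.2.1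
  obtain ⟨U, u1, u2, u3⟩ := ex_perp n m
  obtain ⟨x, x1, x2⟩ := kak U u1
  have e : (x, x + U).2 - (x, x + U).1 = U := add_sub_cancel_left _ _
  obtain ⟨w, w', h⟩ := ((r1.trans (pl n n1 n2 c (x, x + U) c1 c2 c3 n3 x1 x2 (by rw [e, u1])
    (by rw [e, u2]))).trans (pl m m1 m2 (x, x + U) d x1 x2 (by rw [e, u1]) (by rw [e, u3])
      d1 d2 d3 m3)).trans r2.symm
  exact ((rot hp h.source_mem).trans h).trans (rot h.target_mem hq)

def M (v w : E) : Matrix (Fin 3) (Fin 3) ℝ :=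
  !![v 0, w 0, v 1 * w 2 - v 2 * w 1; v 1, w 1, v 2 * w 0 - v 0 * w 2; v 2, w 2, v 0 * w 1 - v 1 * w 0]

lemma M_mem {v w : E} (hv : ‖v‖ = 1) (hw : ‖w‖ = 1) (h : ⟪v, w⟫ = 0) :
    M v w ∈ Matrix.specialOrthogonalGroup (Fin 3) ℝ := by
  have a1 := EuclideanSpace.real_norm_sq_eq v
  have a2 := EuclideanSpace.real_norm_sq_eq w
  rw [Fin.sum_univ_three] at a1 a2
  rw [hv] at a1
  rw [hw] at a2
  simp only [PiLp.inner_apply, Fin.sum_univ_three, RCLike.inner_apply, conj_trivial] at h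
  rw [Matrix.mem_specialOrthogonalGroup_iff, Matrix.mem_orthogonalGroup_iff']
  constructor
  · ext i j
    fin_cases i <;> fin_cases j <;> simp [M, Matrix.mul_apply, Fin.sum_univ_three]
    · linarith
    · linarith
    · ring
    · linarith
    · linarith
    · ring
    · ring
    · ring
    · linear_combination (-(w 0 ^ 2 + w 1 ^ 2 + w 2 ^ 2)) * a1 - a2 -
        (w 0 * v 0 + w 1 * v 1 + w 2 * v 2) * h
  · simp [M, Matrix.det_fin_three]
    linear_combination (-(w 0 ^ 2 + w 1 ^ 2 + w 2 ^ 2)) * a1 - a2 -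
        (w 0 * v 0 + w 1 * v 1 + w 2 * v 2) * h

noncomputable def e (i : Fin 3) : E := EuclideanSpace.single i 1

lemma col (ρ : Matrix (Fin 3) (Fin 3) ℝ) (i j : Fin 3) : Matrix.toEuclideanLin ρ (e i) j = ρ j i := by
  simp [e, Matrix.toLpLin_apply]

lemma M_e0 (v w : E) : Matrix.toEuclideanLin (M v w) (e 0) = v := by
  ext j
  rw [col]
  fin_cases j <;> simp [M]

lemma iso {ρ : Matrix (Fin 3) (Fin 3) ℝ} (h : ρ ∈ Matrix.specialOrthogonalGroup (Fin 3) ℝ) (x y : E) :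
    ⟪Matrix.toEuclideanLin ρ x, Matrix.toEuclideanLin ρ y⟫ = ⟪x, y⟫ := by
  have h1 := (Matrix.mem_orthogonalGroup_iff' _ _).1 (Matrix.mem_specialOrthogonalGroup_iff.1 h).1
  rw [← LinearMap.adjoint_inner_right, ← Matrix.toEuclideanLin_conjTranspose_eq_adjoint,
    ← LinearMap.comp_apply, ← Matrix.toLpLin_mul_same, Matrix.conjTranspose_eq_transpose_of_trivial,
    h1, Matrix.toLpLin_one, LinearMap.id_apply]

lemma iso_norm {ρ : Matrix (Fin 3) (Fin 3) ℝ} (h : ρ ∈ Matrix.specialOrthogonalGroup (Fin 3) ℝ)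
    (x : E) : ‖Matrix.toEuclideanLin ρ x‖ = ‖x‖ := by
  rw [← sq_eq_sq₀ (norm_nonneg _) (norm_nonneg _), ← real_inner_self_eq_norm_sq, iso h,
    real_inner_self_eq_norm_sq]

lemma iso_surj {ρ : Matrix (Fin 3) (Fin 3) ℝ} (h : ρ ∈ Matrix.specialOrthogonalGroup (Fin 3) ℝ) :
    Function.Surjective (Matrix.toEuclideanLin ρ) :=
  LinearMap.injective_iff_surjective.1 ((injective_iff_map_eq_zero _).2 fun x hx => by
    rw [← norm_eq_zero, ← iso_norm h, hx, norm_zero])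

lemma M_eq {ρ : Matrix (Fin 3) (Fin 3) ℝ} (h : ρ ∈ Matrix.specialOrthogonalGroup (Fin 3) ℝ) :
    M (Matrix.toEuclideanLin ρ (e 0)) (Matrix.toEuclideanLin ρ (e 1)) = ρ := by
  obtain ⟨h1, h2⟩ := Matrix.mem_specialOrthogonalGroup_iff.1 h
  rw [Matrix.mem_orthogonalGroup_iff'] at h1
  have h3 : ρ.adjugate = ρ.transpose := by
    have := congrArg (fun A => ρ.transpose * A) (Matrix.mul_adjugate ρ)
    simp only [← Matrix.mul_assoc, h1, h2, one_smul, Matrix.one_mul, Matrix.mul_one] at this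
    exact this
  rw [Matrix.adjugate_fin_three] at h3
  have a0 := congrFun (congrFun h3 2) 0
  have a1 := congrFun (congrFun h3 2) 1
  have a2 := congrFun (congrFun h3 2) 2
  simp at a0 a1 a2
  ext i j
  fin_cases i <;> fin_cases j <;> simp [M, col] <;> linarith

end Pool.Agent.H5.Kakeya
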