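import Mathlib

set_option autoImplicit false

open Metric Set Filter Topology

namespace Pool.Agent.H5.Kink

variable {H : Type*} [NormedAddCommGroup H] [InnerProductSpace ℝ H]

/-- one term of the norm -/
noncomputable def term (F : H →L[ℝ] ℝ) (y : H) : ℝ := max ‖y‖ |F y|

lemma term_lip (F : H →L[ℝ] ℝ) (y z : H) : term F y ≤ term F z + (1 + ‖F‖) * ‖y - z‖ := by
  have h1 := norm_sub_norm_le y z
  have h2 := F.le_opNorm (y - z)
  have h3 := abs_sub_abs_le_abs_sub (F y) (F z)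
  rw [Real.norm_eq_abs, map_sub] at h2
  have h4 : 0 ≤ ‖F‖ * ‖y - z‖ := by positivity
  have h5 := le_max_left ‖z‖ |F z|
  have h6 := le_max_right ‖z‖ |F z|
  have h7 := norm_nonneg (y - z)
  unfold term
  exact max_le (by linarith) (by linarith)

lemma term_diff (F : H →L[ℝ] ℝ) {g : H} (hg : g ≠ 0) (h : |F g| ≠ ‖g‖) :
    DifferentiableAt ℝ (term F) g := by
  have hc : Continuous fun y => |F y| := by fun_prop
  rcases lt_or_gt_of_ne h with h1 | h1
  · refine (differentiableAt_id.norm ℝ hg).congr_of_eventuallyEq ?_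
    filter_upwards [hc.continuousAt.eventually_lt continuous_norm.continuousAt h1] with y hy
    exact max_eq_left hy.le
  · have h2 : F g ≠ 0 := fun h3 => by
      rw [h3, abs_zero] at h1
      exact absurd h1 (not_lt.2 (norm_nonneg _))
    refine (F.differentiableAt.abs h2).congr_of_eventuallyEq ?_
    filter_upwards [continuous_norm.continuousAt.eventually_lt hc.continuousAt h1] with y hy
    exact max_eq_right hy.le

lemma term_slope (F : H →L[ℝ] ℝ) {g : H} (hg : g ≠ 0) (h : F g = ‖g‖) {φ : H →L[ℝ] ℝ}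
    (hφ : HasFDerivAt (fun y : H => ‖y‖) φ g) (v : H) :
    Tendsto (fun s : ℝ => s⁻¹ • (term F (g + s • v) - term F g)) (𝓝[>] 0)
      (𝓝 (max (φ v) (F v))) := by
  have h1 := (hφ.hasLineDerivAt v).tendsto_slope_zero_right
  refine (h1.max tendsto_const_nhds).congr' ?_
  have h2 : 0 < F g := h ▸ norm_pos_iff.2 hg
  have h3 : ∀ᶠ s : ℝ in 𝓝 0, 0 < F (g + s • v) := by
    have hc : Continuous fun s : ℝ => F (g + s • v) := by fun_prop
    exact continuous_const.continuousAt.eventually_lt hc.continuousAt (by simpa using h2)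
  filter_upwards [mem_nhdsWithin_of_mem_nhds h3, self_mem_nhdsWithin] with s hs hs'
  have hs0 : 0 < s := hs'
  simp only [term, abs_of_pos hs, h, abs_norm, max_self, smul_eq_mul]
  rw [← max_sub_sub_right, mul_max_of_nonneg _ _ (inv_pos.2 hs0).le, map_add, map_smul, h,
    smul_eq_mul, add_sub_cancel_left, inv_mul_cancel_left₀ hs0.ne']

lemma three_roots (F f : H →L[ℝ] ℝ) {u w : H} (hu : f u ≠ 0) (hw : f w = 0) (hw0 : w ≠ 0)
    {a b c : ℝ} (hab : a ≠ b) (hac : a ≠ c) (hbc : b ≠ c) (ha : |F (u + a • w)| = ‖u + a • w‖)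
    (hb : |F (u + b • w)| = ‖u + b • w‖) (hc : |F (u + c • w)| = ‖u + c • w‖) : False := by
  have key : ∀ t : ℝ, F (u + t • w) ^ 2 - ‖u + t • w‖ ^ 2 = (F w ^ 2 - ‖w‖ ^ 2) * t ^ 2 +
      (2 * F u * F w - 2 * inner ℝ u w) * t + (F u ^ 2 - ‖u‖ ^ 2) := fun t => by
    rw [norm_add_sq_real, inner_smul_right, norm_smul, mul_pow, Real.norm_eq_abs, sq_abs, map_add,
      map_smul, smul_eq_mul]
    ring
  have h0 : ∀ t : ℝ, |F (u + t • w)| = ‖u + t • w‖ → F (u + t • w) ^ 2 - ‖u + t • w‖ ^ 2 = 0 :=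
    fun t ht => by rw [← ht, sq_abs, sub_self]
  have h1 := h0 a ha
  have h2 := h0 b hb
  have h3 := h0 c hc
  rw [key] at h1 h2 h3
  set p := F w ^ 2 - ‖w‖ ^ 2 with hp
  set q := 2 * F u * F w - 2 * inner ℝ u w with hq
  set r := F u ^ 2 - ‖u‖ ^ 2 with hr
  have h4 : p * (a + b) + q = 0 := by
    refine mul_left_cancel₀ (sub_ne_zero.2 hab) ?_
    linear_combination h1 - h2
  have h5 : p * (a + c) + q = 0 := by
    refine mul_left_cancel₀ (sub_ne_zero.2 hac) ?_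
    linear_combination h1 - h3
  have h6 : p = 0 := by
    refine mul_left_cancel₀ (sub_ne_zero.2 hbc) ?_
    linear_combination h4 - h5
  have h7 : q = 0 := by rw [h6] at h4; linarith
  have h8 : r = 0 := by rw [h6, h7] at h1; linarith
  have h9 : F w ≠ 0 := fun h => by
    have : 0 < ‖w‖ ^ 2 := by have := norm_pos_iff.2 hw0; positivity
    rw [hp, h] at h6
    linarith
  have h10 := key (-F u / F w)
  rw [h6, h7, h8, map_add, map_smul, smul_eq_mul, div_mul_cancel₀ _ h9] at h10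
  have h11 : u + (-F u / F w) • w = 0 := by
    rw [← norm_eq_zero, ← pow_eq_zero_iff two_ne_zero]
    linarith
  have h12 := congrArg f h11
  rw [map_add, map_smul, hw, smul_zero, add_zero, map_zero] at h12
  exact hu h12

/-- the weights -/
noncomputable def wt (F : ℕ → H →L[ℝ] ℝ) : ℕ → ℝ
  | 0 => 1 / (1 + ‖F 0‖)
  | k + 1 => wt F k / (2 * (1 + ‖F (k + 1)‖))

lemma wt_pos (F : ℕ → H →L[ℝ] ℝ) (k : ℕ) : 0 < wt F k := by
  induction k with
  | zero => unfold wt; positivity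
  | succ k ih => unfold wt; positivity

lemma wt_succ (F : ℕ → H →L[ℝ] ℝ) (k : ℕ) : wt F (k + 1) * (1 + ‖F (k + 1)‖) = wt F k / 2 := by
  rw [wt]; field_simp

lemma wt_le (F : ℕ → H →L[ℝ] ℝ) (k j : ℕ) : wt F (j + k) ≤ wt F k / 2 ^ j := by
  induction j with
  | zero => simp
  | succ j ih =>
    have h1 := wt_succ F (j + k)
    have h2 := wt_pos F (j + k + 1)
    have h3 : 0 ≤ wt F (j + k + 1) * ‖F (j + k + 1)‖ := by positivity
    rw [show j + 1 + k = j + k + 1 by ring, pow_succ, ← div_div]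
    linarith

lemma wt_tail (F : ℕ → H →L[ℝ] ℝ) (k j : ℕ) :
    wt F (j + (k + 1)) * (1 + ‖F (j + (k + 1))‖) ≤ wt F k / 2 / 2 ^ j := by
  rw [← add_assoc, wt_succ, div_right_comm]
  have := wt_le F k j
  linarith

lemma term_nonneg (F : H →L[ℝ] ℝ) (y : H) : 0 ≤ term F y := (norm_nonneg y).trans (le_max_left _ _)

lemma summable_term (F : ℕ → H →L[ℝ] ℝ) (y : H) : Summable fun k => wt F k * term (F k) y := by
  rw [← summable_nat_add_iff 1]
  refine Summable.of_nonneg_of_le (fun k => mul_nonneg (wt_pos F _).le (term_nonneg _ _))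
    (fun k => ?_) ((summable_geometric_two' (wt F 0)).mul_right ‖y‖)
  have h1 := term_lip (F (k + 1)) y 0
  have h2 := wt_tail F 0 k
  have h3 := wt_pos F (k + 1)
  simp only [term, norm_zero, map_zero, abs_zero, max_self, zero_add, sub_zero] at h1 h2 ⊢
  calc _ ≤ wt F (k + 1) * ((1 + ‖F (k + 1)‖) * ‖y‖) := by gcongr
    _ ≤ _ := by rw [← mul_assoc]; gcongr

/-- the new norm -/
noncomputable def nrm (F : ℕ → H →L[ℝ] ℝ) (y : H) : ℝ := ∑' k, wt F k * term (F k) y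

lemma nrm_le (F : ℕ → H →L[ℝ] ℝ) (k : ℕ) {y z : H} (h : nrm F z ≤ nrm F y) :
    ∑ l ∈ Finset.range k, wt F l * term (F l) z + wt F k * term (F k) z ≤
      ∑ l ∈ Finset.range k, wt F l * term (F l) y + wt F k * term (F k) y + wt F k * ‖y - z‖ := by
  unfold nrm at h
  rw [← (summable_term F y).sum_add_tsum_nat_add (k + 1),
    ← (summable_term F z).sum_add_tsum_nat_add (k + 1), Finset.sum_range_succ,
    Finset.sum_range_succ] at h
  have h1 := (summable_nat_add_iff (k + 1)).2 (summable_term F y)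
  have h2 := (summable_nat_add_iff (k + 1)).2 (summable_term F z)
  have h3 := (hasSum_geometric_two' (wt F k)).mul_right ‖y - z‖
  have h4 := hasSum_le (fun j => ?_) h1.hasSum (h2.hasSum.add h3)
  · linarith
  · have h5 := term_lip (F (j + (k + 1))) y z
    have h6 := wt_tail F k j
    have h7 := wt_pos F (j + (k + 1))
    calc _ ≤ wt F (j + (k + 1)) * (term (F (j + (k + 1))) z + (1 + ‖F (j + (k + 1))‖) * ‖y - z‖) := by
          gcongr
      _ ≤ _ := by rw [mul_add, ← mul_assoc]; gcongr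

theorem no_strong (e : ℕ → H) (he : DenseRange e) (G : Submodule ℝ H)
    (hG : ∀ f : H →L[ℝ] ℝ, ∃ w ∈ G, w ≠ 0 ∧ f w = 0) (x : H) (hx : x ≠ 0) :
    ¬ ∀ g ∈ G, ∀ α : ℝ, nrm (fun k => (k : ℝ) • innerSL ℝ (e (Nat.log 4 k))) g ≤
      nrm (fun k => (k : ℝ) • innerSL ℝ (e (Nat.log 4 k))) (g + α • x) := by
  classical
  set F : ℕ → H →L[ℝ] ℝ := fun k => (k : ℝ) • innerSL ℝ (e (Nat.log 4 k)) with hF
  intro h
  obtain ⟨u, huG, hu0, hux⟩ : ∃ u ∈ G, u ≠ 0 ∧ 0 ≤ inner ℝ u x := by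
    obtain ⟨u, huG, hu0, hu⟩ := hG (innerSL ℝ x)
    exact ⟨u, huG, hu0, by rw [real_inner_comm]; exact hu.ge⟩
  have hun : 0 < ‖u‖ := norm_pos_iff.2 hu0
  have hxn : 0 < ‖x‖ := norm_pos_iff.2 hx
  obtain ⟨n, hn1, hn2⟩ : ∃ n, ‖u‖ < inner ℝ (e n) u ∧ 4 * ‖x‖ < inner ℝ (e n) x := by
    have h1 : IsOpen {y : H | ‖u‖ < inner ℝ y u ∧ 4 * ‖x‖ < inner ℝ y x} :=
      (isOpen_lt (g := fun y : H => inner ℝ y u) continuous_const (by fun_prop)).and
        (isOpen_lt (g := fun y : H => inner ℝ y x) continuous_const (by fun_prop))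
    refine he.exists_mem_open h1 ⟨(5 / ‖u‖ + 5 / ‖x‖) • (u + x), ?_, ?_⟩
    · rw [real_inner_smul_left, inner_add_left, real_inner_self_eq_norm_sq, real_inner_comm]
      have h2 : 5 / ‖u‖ * ‖u‖ ^ 2 = 5 * ‖u‖ := by field_simp
      have h3 : 0 ≤ 5 / ‖u‖ * inner ℝ u x := by positivity
      have h4 : 0 ≤ 5 / ‖x‖ * (‖u‖ ^ 2 + inner ℝ u x) := by positivity
      nlinarith
    · rw [real_inner_smul_left, inner_add_left, real_inner_self_eq_norm_sq]
      have h2 : 5 / ‖x‖ * ‖x‖ ^ 2 = 5 * ‖x‖ := by field_simp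
      have h3 : 0 ≤ 5 / ‖x‖ * inner ℝ u x := by positivity
      have h4 : 0 ≤ 5 / ‖u‖ * (inner ℝ u x + ‖x‖ ^ 2) := by positivity
      nlinarith
  set f : H →L[ℝ] ℝ := innerSL ℝ (e n) with hf
  have hfu : ‖u‖ < f u := hn1
  have hfx : 4 * ‖x‖ < f x := hn2
  obtain ⟨w, hwG, hw0, hw⟩ := hG f
  have hwn : 0 < ‖w‖ := norm_pos_iff.2 hw0
  have hτ : ∀ k : ℕ, 1 ≤ k → ∃ τ : ℝ, ‖u + τ • w‖ = k * f u := fun k hk => by
    have hk' : (1 : ℝ) ≤ k := by exact_mod_cast hk
    have hcont : Continuous fun t : ℝ => ‖u + t • w‖ := by fun_prop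
    have h0 : 0 ≤ (k * f u + ‖u‖) / ‖w‖ := div_nonneg (by nlinarith) hwn.le
    obtain ⟨t, -, ht⟩ : k * f u ∈ (fun t : ℝ => ‖u + t • w‖) '' Icc 0 ((k * f u + ‖u‖) / ‖w‖) := by
      refine intermediate_value_Icc h0 hcont.continuousOn ⟨by simp only [zero_smul, add_zero]; nlinarith, ?_⟩
      have h3 := norm_sub_le (u + ((k * f u + ‖u‖) / ‖w‖) • w) u
      rw [add_sub_cancel_left, norm_smul, Real.norm_of_nonneg h0, div_mul_cancel₀ _ hwn.ne'] at h3
      show _ ≤ ‖u + _‖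
      linarith
    exact ⟨t, ht⟩
  choose! τ hτ using hτ
  have h4 : 0 < 4 ^ n := by positivity
  have hfu0 : f u ≠ 0 := by linarith
  have hinj : ∀ k l, 1 ≤ k → 1 ≤ l → τ k = τ l → k = l := fun k l hk hl hkl => by
    have h1 := hτ k hk
    rw [hkl, hτ l hl] at h1
    exact_mod_cast (mul_right_cancel₀ hfu0 h1).symm
  obtain ⟨k, hk, hk'⟩ : ∃ k ∈ Finset.Ico (4 ^ n) (4 ^ (n + 1)),
      ∀ l ∈ Finset.range (4 ^ n), |F l (u + τ k • w)| ≠ ‖u + τ k • w‖ := by
    by_contra hcon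
    push Not at hcon
    choose! l hl hl' using hcon
    obtain ⟨m, -, hm⟩ := Finset.exists_lt_card_fiber_of_mul_lt_card_of_maps_to (n := 2) hl (by
      rw [Nat.card_Ico, Finset.card_range, pow_succ]; omega)
    obtain ⟨a, ha, b, hb, c, hc, hab, hac, hbc⟩ := Finset.two_lt_card.1 hm
    rw [Finset.mem_filter] at ha hb hc
    have h1 : ∀ a ∈ Finset.Ico (4 ^ n) (4 ^ (n + 1)), 1 ≤ a := fun a ha =>
      h4.trans_le (Finset.mem_Ico.1 ha).1
    exact three_roots (F m) f hfu0 hw hw0 (fun h => hab (hinj _ _ (h1 a ha.1) (h1 b hb.1) h))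
      (fun h => hac (hinj _ _ (h1 a ha.1) (h1 c hc.1) h))
      (fun h => hbc (hinj _ _ (h1 b hb.1) (h1 c hc.1) h)) (ha.2 ▸ hl' a ha.1) (hb.2 ▸ hl' b hb.1)
      (hc.2 ▸ hl' c hc.1)
  rw [Finset.mem_Ico] at hk
  have hk1 : 1 ≤ k := h4.trans_le hk.1
  have hk1' : (1 : ℝ) ≤ k := by exact_mod_cast hk1
  have hFl : ∀ l, 4 ^ n ≤ l → l < 4 ^ (n + 1) → ∀ y, F l y = l * f y := fun l h1 h2 y => by
    simp only [hF, Nat.log_eq_of_pow_le_of_lt_pow h1 h2, hf, smul_apply, smul_eq_mul]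
  set g := u + τ k • w with hg
  have hgG : g ∈ G := G.add_mem huG (G.smul_mem _ hwG)
  have hgn : ‖g‖ = k * f u := hτ k hk1
  have hfg : f g = f u := by rw [hg, map_add, map_smul, hw, smul_zero, add_zero]
  have hg0 : g ≠ 0 := by rw [← norm_pos_iff, hgn]; nlinarith
  have hA : DifferentiableAt ℝ (fun y => ∑ l ∈ Finset.range k, wt F l * term (F l) y) g := by
    refine DifferentiableAt.fun_sum fun l hl => (term_diff _ hg0 ?_).const_mul _
    rw [Finset.mem_range] at hl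
    rcases lt_or_ge l (4 ^ n) with h1 | h1
    · exact hk' l (Finset.mem_range.2 h1)
    · have h2 : (l : ℝ) < k := by exact_mod_cast hl
      rw [hFl l h1 (hl.trans hk.2), hfg, hgn, abs_of_nonneg (mul_nonneg l.cast_nonneg (by linarith))]
      nlinarith
  obtain ⟨L, hL⟩ := hA
  obtain ⟨φ, hφ⟩ : DifferentiableAt ℝ (fun y : H => ‖y‖) g := differentiableAt_id.norm ℝ hg0
  have hφ1 : ∀ v, φ v ≤ ‖v‖ := fun v => by
    have h1 := hφ.le_of_lipschitz lipschitzWith_one_norm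
    have h2 := φ.le_of_opNorm_le h1 v
    simp only [NNReal.coe_one, one_mul, Real.norm_eq_abs] at h2
    exact (le_abs_self _).trans h2
  have hFg : F k g = ‖g‖ := by rw [hFl k hk.1 hk.2, hfg, hgn]
  have ha := wt_pos F k
  have key : ∀ v ∈ G, ∀ κ : ℝ, |κ| = 1 → L v + wt F k * max (φ v) (F k v) ≤
      L (v + κ • x) + wt F k * max (φ (v + κ • x)) (F k (v + κ • x)) + wt F k * ‖x‖ := by
    intro v hv κ hκ
    have h1 := fun v => ((hL.hasLineDerivAt v).tendsto_slope_zero_right).add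
      ((term_slope (F k) hg0 hFg hφ v).const_mul (wt F k))
    refine le_of_tendsto_of_tendsto (h1 v) ((h1 (v + κ • x)).add_const (wt F k * ‖x‖)) ?_
    filter_upwards [self_mem_nhdsWithin] with s hs
    have hs0 : 0 < s := hs
    have h2 := nrm_le F k (h (g + s • v) (G.add_mem hgG (G.smul_mem _ hv)) (s * κ))
    rw [add_sub_cancel_left, norm_smul, Real.norm_eq_abs, abs_mul, hκ, abs_of_pos hs0,
      show g + s • v + (s * κ) • x = g + s • (v + κ • x) by module] at h2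
    simp only [smul_eq_mul]
    have h3 := mul_le_mul_of_nonneg_left h2 (inv_pos.2 hs0).le
    have h4 : s⁻¹ * (wt F k * (s * 1 * ‖x‖)) = wt F k * ‖x‖ := by field_simp
    linarith
  have hd : 0 < F k u - φ u := by
    rw [hFl k hk.1 hk.2]
    nlinarith [hφ1 u]
  set ρ := |F k x - φ x| / (F k u - φ u) with hρ
  have hρ' : ρ * (F k u - φ u) = |F k x - φ x| := div_mul_cancel₀ _ hd.ne'
  have h1 := key (ρ • u) (G.smul_mem _ huG) (-1) (by simp)
  have h2 := key (-(ρ • u)) (G.neg_mem (G.smul_mem _ huG)) 1 (by simp)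
  have h3 := le_abs_self (F k x - φ x)
  have h5 := abs_nonneg (F k x - φ x)
  simp only [map_add, map_smul, map_neg, smul_eq_mul] at h1 h2
  rw [max_eq_right (by linarith), max_eq_right (by linarith)] at h1
  rw [max_eq_left (by linarith), max_eq_left (by linarith)] at h2
  have h6 : wt F k * F k x ≤ wt F k * (3 * ‖x‖) := by nlinarith [hφ1 x]
  have h7 := le_of_mul_le_mul_left h6 ha
  rw [hFl k hk.1 hk.2] at h7
  nlinarith

end Pool.Agent.H5.Kink
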