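import Mathlib

set_option autoImplicit false

open Metric Set Filter Topology Pointwise

namespace Pool.Agent.H5.LightGroup

variable {𝕜 X G : Type*} [RCLike 𝕜] [NormedAddCommGroup X] [NormedSpace 𝕜 X] [Group G]

lemma mem_of_dual {Y : Submodule 𝕜 X} (hY : IsClosed (Y : Set X)) {x : X}
    (h : ∀ f : StrongDual 𝕜 X, (∀ y ∈ Y, f y = 0) → f x = 0) : x ∈ Y := by
  haveI := hY
  rw [← Submodule.Quotient.mk_eq_zero]
  refine SeparatingDual.eq_zero_of_forall_dual_eq_zero (R := 𝕜) fun f => ?_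
  refine h (f.comp Y.mkQL) fun y hy => ?_
  have : Y.mkQL y = 0 := (Submodule.Quotient.mk_eq_zero Y).2 hy
  rw [ContinuousLinearMap.comp_apply, this, map_zero]

lemma tendsto_of_finite_rank {α : Type*} {l : Filter α} (F : X →L[𝕜] X) (s : Finset X)
    (hF : ∀ x, F x ∈ Submodule.span 𝕜 (s : Set X)) {y : α → X} {y0 : X}
    (h : ∀ f : StrongDual 𝕜 X, Tendsto (fun a => f (y a)) l (𝓝 (f y0))) :
    Tendsto (fun a => F (y a)) l (𝓝 (F y0)) := by
  set E := Submodule.span 𝕜 (s : Set X) with hE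
  haveI : FiniteDimensional 𝕜 E := FiniteDimensional.span_finset 𝕜 s
  let b := Module.finBasis 𝕜 E
  let F' : X →L[𝕜] E := F.codRestrict E hF
  have h1 : ∀ x, F x = ∑ i, ((LinearMap.toContinuousLinearMap (b.coord i)).comp F') x • (b i : X) :=
    fun x => by
      have := congrArg (Subtype.val : E → X) (b.sum_repr (F' x))
      rw [Submodule.coe_sum] at this
      exact this.symm
  simp only [h1]
  exact tendsto_finsetSum _ fun i _ => (h _).smul_const _

/-- vectors with totally bounded orbit -/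
def AP (ρ : G →* (X →L[𝕜] X)) : Submodule 𝕜 X where
  carrier := {y | ∀ ε > 0, ∃ t : Set X, t.Finite ∧ ∀ h, ∃ z ∈ t, ‖ρ h y - z‖ < ε}
  zero_mem' := fun ε hε => ⟨{0}, finite_singleton _, fun h => ⟨0, rfl, by simpa using hε⟩⟩
  add_mem' := fun {a b} ha hb ε hε => by
    obtain ⟨t, ht, h1⟩ := ha (ε / 2) (by positivity)
    obtain ⟨u, hu, h2⟩ := hb (ε / 2) (by positivity)
    refine ⟨t + u, ht.add hu, fun h => ?_⟩
    obtain ⟨z, hz, h3⟩ := h1 h
    obtain ⟨w, hw, h4⟩ := h2 h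
    refine ⟨z + w, add_mem_add hz hw, ?_⟩
    rw [map_add, add_sub_add_comm]
    linarith [norm_add_le (ρ h a - z) (ρ h b - w)]
  smul_mem' := fun c a ha ε hε => by
    obtain ⟨t, ht, h1⟩ := ha (ε / (‖c‖ + 1)) (by positivity)
    refine ⟨(fun z => c • z) '' t, ht.image _, fun h => ?_⟩
    obtain ⟨z, hz, h3⟩ := h1 h
    refine ⟨c • z, mem_image_of_mem _ hz, ?_⟩
    rw [map_smul, ← smul_sub, norm_smul]
    rw [lt_div_iff₀ (by positivity)] at h3
    nlinarith [norm_nonneg (ρ h a - z)]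

lemma AP_inv (ρ : G →* (X →L[𝕜] X)) (g : G) {y : X} (hy : y ∈ AP ρ) : ρ g y ∈ AP ρ :=
  fun ε hε => by
    obtain ⟨t, ht, h1⟩ := hy ε hε
    exact ⟨t, ht, fun h => by simpa using h1 (h * g)⟩

lemma AP_closed (ρ : G →* (X →L[𝕜] X)) {C : ℝ} (hC0 : 0 < C) (hC : ∀ g x, ‖ρ g x‖ ≤ C * ‖x‖) :
    IsClosed (AP ρ : Set X) := by
  refine isClosed_of_closure_subset fun x hx ε hε => ?_
  obtain ⟨y, hy, hxy⟩ := Metric.mem_closure_iff.1 hx (ε / 2 / C) (by positivity)
  obtain ⟨t, ht, h1⟩ := hy (ε / 2) (by positivity)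
  refine ⟨t, ht, fun h => ?_⟩
  obtain ⟨z, hz, h2⟩ := h1 h
  refine ⟨z, hz, ?_⟩
  have h3 := hC h (x - y)
  rw [dist_eq_norm, lt_div_iff₀ hC0] at hxy
  have h4 := norm_add_le (ρ h (x - y)) (ρ h y - z)
  rw [map_sub, sub_add_sub_cancel] at h4
  rw [map_sub] at h3
  linarith

lemma exists_limit [Countable G] (ρ : G →* (X →L[𝕜] X))
    (hrefl : ∀ φ : StrongDual 𝕜 (StrongDual 𝕜 X), ∃ x : X, ∀ f, φ f = f x)
    {C : ℝ} (hC0 : 0 < C) (hC : ∀ g x, ‖ρ g x‖ ≤ C * ‖x‖) :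
    ∃ (𝒰 : Ultrafilter G) (p : X → X), (∀ x, p x ∈ AP ρ) ∧
      ∀ x (f : StrongDual 𝕜 X), Tendsto (fun h => f (ρ h x)) 𝒰 (𝓝 (f (p x))) := by
  let Ω := X → StrongDual 𝕜 X → 𝕜
  let ι : G → Ω := fun h x f => f (ρ h x)
  let act : G → Ω → Ω := fun g q x f => q x (f.comp (ρ g))
  have hact : ∀ g, Continuous (act g) := fun g => by
    simp only [act, Ω]; fun_prop
  have hev : ∀ x f, Continuous fun q : Ω => q x f := fun x f => by
    simp only [Ω]; fun_prop
  have hmul : ∀ g h q, act g (act h q) = act (g * h) q := fun g h q => by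
    funext x f
    simp only [act, map_mul, ContinuousLinearMap.mul_def, ContinuousLinearMap.comp_assoc]
  set S := closure (range ι) with hS
  have hSb : ∀ q ∈ S, ∀ x f, ‖q x f‖ ≤ C * ‖x‖ * ‖f‖ := fun q hq x f => by
    refine closure_minimal (t := {q : Ω | ‖q x f‖ ≤ C * ‖x‖ * ‖f‖}) ?_
      (isClosed_le (hev x f).norm continuous_const) hq
    rintro _ ⟨h, rfl⟩
    have h1 := f.le_opNorm (ρ h x)
    have h2 := hC h x
    have h3 : ‖f‖ * ‖ρ h x‖ ≤ ‖f‖ * (C * ‖x‖) := by gcongr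
    show ‖f (ρ h x)‖ ≤ _
    linarith
  have hSc : IsCompact S := by
    refine (isCompact_univ_pi fun x : X => isCompact_univ_pi fun f : StrongDual 𝕜 X =>
      isCompact_closedBall (0 : 𝕜) (C * ‖x‖ * ‖f‖)).of_isClosed_subset isClosed_closure ?_
    intro q hq x _ f _
    simpa using hSb q hq x f
  have hrep : ∀ q ∈ S, ∃ p : X → X, ∀ x f, q x f = f (p x) := fun q hq => by
    have h1 : ∀ x, ∃ y, ∀ f, q x f = f y := fun x => by
      let L : StrongDual 𝕜 X →ₗ[𝕜] 𝕜 :=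
        { toFun := q x
          map_add' := fun f g => closure_minimal (t := {q : Ω | q x (f + g) = q x f + q x g})
            (by rintro _ ⟨h, rfl⟩; rfl) (isClosed_eq (hev _ _) ((hev _ _).add (hev _ _))) hq
          map_smul' := fun c f => closure_minimal (t := {q : Ω | q x (c • f) = c • q x f})
            (by rintro _ ⟨h, rfl⟩; rfl) (isClosed_eq (hev _ _) ((hev _ _).const_smul c)) hq }
      exact hrefl (L.mkContinuous _ (hSb q hq x))
    choose p hp using h1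
    exact ⟨p, hp⟩
  have hSi : ∀ g, MapsTo (act g) S S := fun g =>
    MapsTo.closure (by rintro _ ⟨h, rfl⟩; exact ⟨g * h, by funext x f; simp [ι, act]⟩) (hact g)
  obtain ⟨L, hLS, hL⟩ := zorn_superset_nonempty
    {L : Set Ω | L ⊆ S ∧ L.Nonempty ∧ IsClosed L ∧ ∀ g, MapsTo (act g) L L} (by
      intro c hc hchain hne
      haveI := hne.to_subtype
      obtain ⟨L0, hL0⟩ := hne
      refine ⟨⋂₀ c, ⟨(sInter_subset_of_mem hL0).trans (hc hL0).1, ?_,
        isClosed_sInter fun L hL => (hc hL).2.2.1,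
        fun g q hq L hL => (hc hL).2.2.2 g (hq L hL)⟩, fun s hs => sInter_subset_of_mem hs⟩
      exact IsCompact.nonempty_sInter_of_directed_nonempty_isCompact_isClosed
        (fun a ha b hb => by
          rcases hchain.total ha hb with h | h
          exacts [⟨a, ha, subset_rfl, h⟩, ⟨b, hb, h, subset_rfl⟩])
        (fun L hL => (hc hL).2.1)
        (fun L hL => hSc.of_isClosed_subset (hc hL).2.2.1 (hc hL).1) fun L hL => (hc hL).2.2.1)
    S ⟨subset_rfl, ⟨ι 1, subset_closure ⟨1, rfl⟩⟩, isClosed_closure, hSi⟩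
  obtain ⟨-, ⟨q, hq⟩, hLc, hLi⟩ := hL.1
  have hLk : IsCompact L := hSc.of_isClosed_subset hLc hLS
  obtain ⟨p, hp⟩ := hrep q (hLS hq)
  haveI : (comap ι (𝓝 q)).NeBot := comap_neBot fun t ht => by
    obtain ⟨_, h1, h, rfl⟩ := mem_closure_iff_nhds.1 (hLS hq) t ht
    exact ⟨h, h1⟩
  refine ⟨Ultrafilter.of (comap ι (𝓝 q)), p, fun x ε hε => ?_, fun x f => ?_⟩
  swap
  · rw [← hp]
    exact ((hev x f).tendsto q).comp (tendsto_iff_comap.2 (Ultrafilter.of_le _))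
  set Y := (Submodule.span 𝕜 (range fun h => ρ h x)).topologicalClosure with hY
  obtain ⟨c, hc, hYc⟩ : TopologicalSpace.IsSeparable (Y : Set X) :=
    (countable_range _).isSeparable.span.closure
  haveI := hc.to_subtype
  haveI : CompactSpace L := isCompact_iff_compactSpace.1 hLk
  haveI : Nonempty L := ⟨⟨q, hq⟩⟩
  let T : c → Set Ω := fun d => {q | ∀ f, ‖q x f - f d.1‖ ≤ ε / (2 * C) * ‖f‖}
  obtain ⟨d, hd⟩ := nonempty_interior_of_iUnion_of_closed
    (f := fun d => (Subtype.val : L → Ω) ⁻¹' T d)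
    (fun d => IsClosed.preimage continuous_subtype_val (by
      simp only [T, Set.ofPred_forall]
      exact isClosed_iInter fun f => isClosed_le ((hev x f).sub continuous_const).norm
        continuous_const))
    (by
      refine Set.eq_univ_of_forall fun q' => ?_
      obtain ⟨p', hp'⟩ := hrep q'.1 (hLS q'.2)
      have h1 : p' x ∈ Y := mem_of_dual (Submodule.isClosed_topologicalClosure _) fun f hf => by
        rw [← hp']
        refine closure_minimal (t := {q : Ω | q x f = 0}) ?_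
          (isClosed_eq (hev x f) continuous_const) (hLS q'.2)
        rintro _ ⟨h, rfl⟩
        exact hf _ (Submodule.le_topologicalClosure _ (Submodule.subset_span ⟨h, rfl⟩))
      obtain ⟨d, hd, h2⟩ := Metric.mem_closure_iff.1 (hYc h1) (ε / (2 * C)) (by positivity)
      refine mem_iUnion.2 ⟨⟨d, hd⟩, fun f => ?_⟩
      rw [dist_eq_norm] at h2
      rw [hp', ← map_sub, mul_comm]
      exact (f.le_opNorm _).trans (by gcongr))
  obtain ⟨V, hV, hV'⟩ := isOpen_induced_iff.1 (isOpen_interior (s := (Subtype.val : L → Ω) ⁻¹' T d))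
  have hcov : L ⊆ ⋃ g, act g ⁻¹' V := by
    by_contra hcon
    obtain ⟨q0, hq0, hq0'⟩ := Set.not_subset.1 hcon
    have h1 : L ⊆ L \ ⋃ g, act g ⁻¹' V := hL.2 (y := L \ ⋃ g, act g ⁻¹' V)
      ⟨sdiff_subset.trans hLS, ⟨q0, hq0, hq0'⟩,
        hLc.sdiff (isOpen_iUnion fun g => hV.preimage (hact g)), fun g q' hq' =>
          ⟨hLi g hq'.1, fun h2 => by
            obtain ⟨g', hg'⟩ := mem_iUnion.1 h2
            exact hq'.2 (mem_iUnion.2 ⟨g' * g, by rw [mem_preimage, ← hmul]; exact hg'⟩)⟩⟩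
      sdiff_subset
    obtain ⟨q1, hq1⟩ := hd
    rw [← hV'] at hq1
    refine (h1 q1.2).2 (mem_iUnion.2 ⟨1, ?_⟩)
    have : act 1 q1.1 = q1.1 := by
      funext x f
      simp [act, ContinuousLinearMap.one_def]
    rw [mem_preimage, this]
    exact hq1
  obtain ⟨t, ht⟩ := hLk.elim_finite_subcover _ (fun g => hV.preimage (hact g)) hcov
  refine ⟨(fun g => ρ g⁻¹ d.1) '' t, t.finite_toSet.image _, fun h => ?_⟩
  obtain ⟨g, hg, h1⟩ := mem_iUnion₂.1 (ht (hLi h hq))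
  refine ⟨_, mem_image_of_mem _ hg, ?_⟩
  have h2 : (⟨act g (act h q), hLi g (hLi h hq)⟩ : L) ∈ interior ((Subtype.val : L → Ω) ⁻¹' T d) := by
    rw [← hV']; exact h1
  have h3 : ‖ρ g (ρ h (p x)) - d.1‖ ≤ ε / (2 * C) :=
    NormedSpace.norm_le_dual_bound 𝕜 _ (by positivity) fun f => by
      have := interior_subset h2 f
      simpa [act, hp] using this
  have h4 : ρ h (p x) - ρ g⁻¹ d.1 = ρ g⁻¹ (ρ g (ρ h (p x)) - d.1) := by
    rw [map_sub, ← mul_apply_eq_comp, ← map_mul, inv_mul_cancel, map_one,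
      one_apply_eq_self]
  have h5 := hC g⁻¹ (ρ g (ρ h (p x)) - d.1)
  have h6 : C * ‖ρ g (ρ h (p x)) - d.1‖ ≤ C * (ε / (2 * C)) := by gcongr
  have h7 : C * (ε / (2 * C)) = ε / 2 := by field_simp
  rw [h4]; linarith

lemma inv_apply (ρ : G →* (X →L[𝕜] X)) (g : G) (x : X) : ρ g⁻¹ (ρ g x) = x := by
  rw [← mul_apply_eq_comp, ← map_mul, inv_mul_cancel, map_one,
    one_apply_eq_self]

theorem finite_of_countable [Countable G] (ρ : G →* (X →L[𝕜] X))
    (hrefl : ∀ φ : StrongDual 𝕜 (StrongDual 𝕜 X), ∃ x : X, ∀ f, φ f = f x)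
    {C : ℝ} (hC0 : 0 < C) (hC : ∀ g x, ‖ρ g x‖ ≤ C * ‖x‖)
    (hF : ∀ g, ∃ ε : 𝕜, ‖ε‖ = 1 ∧ ∃ s : Finset X, ∀ x,
      ρ g x - ε • x ∈ Submodule.span 𝕜 (s : Set X))
    (s : Finset X) {δ : ℝ} (hδ : 0 < δ) (hd : ∀ h, (∀ x ∈ s, ‖ρ h x - x‖ < δ) → h = 1) :
    Finite G := by
  obtain ⟨𝒰, p, hp, hlim⟩ := exists_limit ρ hrefl hC0 hC
  have hcl := AP_closed ρ hC0 hC
  have hsep : ∀ a b, (∀ x ∈ s, ‖ρ a x - ρ b x‖ < δ / C) → a = b := fun a b h => by
    refine (inv_mul_eq_one.1 (hd _ fun x hx => ?_)).symm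
    have h1 := h x hx
    have h2 := hC b⁻¹ (ρ a x - ρ b x)
    rw [map_sub, inv_apply] at h2
    rw [lt_div_iff₀ hC0] at h1
    rw [map_mul, mul_apply_eq_comp]
    linarith
  have hult : ∀ (𝒱 : Ultrafilter G) (k : G → G) (w : G → X → X),
      (∀ x ∈ s, ∀ ε > 0, ∃ t : Set X, t.Finite ∧ ∀ᶠ h in (𝒱 : Filter G),
        ∃ z ∈ t, ‖ρ (k h) x - z‖ < ε) → ∃ g, ∀ᶠ h in (𝒱 : Filter G), k h = g := by
    intro 𝒱 k w h
    have h1 : ∀ x ∈ s, ∃ z, ∀ᶠ h in (𝒱 : Filter G), ‖ρ (k h) x - z‖ < δ / C / 2 := fun x hx => by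
      obtain ⟨t, ht, h2⟩ := h x hx (δ / C / 2) (by positivity)
      obtain ⟨z, -, hz⟩ := (Ultrafilter.eventually_exists_mem_iff ht).1 h2
      exact ⟨z, hz⟩
    choose! z hz using h1
    have h2 := (eventually_all_finset s).2 hz
    obtain ⟨h0, hh0⟩ := h2.exists
    refine ⟨k h0, h2.mono fun h hh => hsep _ _ fun x hx => ?_⟩
    have h3 := norm_sub_le (ρ (k h) x - z x) (ρ (k h0) x - z x)
    rw [sub_sub_sub_cancel_right] at h3
    linarith [hh x hx, hh0 x hx]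
  have hA : ∀ g, ∃ ε : 𝕜, ‖ε‖ = 1 ∧ ∀ x, ρ g x - ε • x ∈ AP ρ := fun g => by
    obtain ⟨ε, hε, t, ht⟩ := hF g
    refine ⟨ε, hε, ?_⟩
    set F : X →L[𝕜] X := ρ g - ε • ContinuousLinearMap.id 𝕜 X with hFd
    have hF1 : ∀ x, F x = ρ g x - ε • x := fun x => rfl
    have h1 : ∀ x, Tendsto (fun h => ρ (h⁻¹ * g * h) x - (ε • x + ρ h⁻¹ (F (p x)))) 𝒰 (𝓝 0) := by
      intro x
      have h2 := tendsto_of_finite_rank F t ht (hlim x)
      rw [tendsto_iff_norm_sub_tendsto_zero] at h2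
      rw [tendsto_zero_iff_norm_tendsto_zero]
      refine squeeze_zero (fun _ => norm_nonneg _) (fun h => ?_)
        (by simpa using h2.const_mul C)
      refine le_of_eq_of_le (congrArg _ ?_) (hC h⁻¹ _)
      rw [map_sub, hF1 (ρ h x), map_sub, map_smul, inv_apply, map_mul, map_mul,
        mul_apply_eq_comp, mul_apply_eq_comp]
      abel
    have h2 : ∀ x, F (p x) ∈ AP ρ := fun x =>
      (AP ρ).sub_mem (AP_inv ρ g (hp x)) ((AP ρ).smul_mem _ (hp x))
    obtain ⟨g', hg'⟩ := hult 𝒰 (fun h => h⁻¹ * g * h) (fun _ x => x) fun x _ η hη => by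
      obtain ⟨u, hu, h3⟩ := h2 x (η / 2) (by positivity)
      refine ⟨(fun z => ε • x + z) '' u, hu.image _, ?_⟩
      filter_upwards [(tendsto_zero_iff_norm_tendsto_zero.1 (h1 x)).eventually
        (gt_mem_nhds (show 0 < η / 2 by positivity))] with h hh
      obtain ⟨z, hz, h4⟩ := h3 h⁻¹
      refine ⟨_, mem_image_of_mem _ hz, ?_⟩
      have h5 := norm_add_le (ρ (h⁻¹ * g * h) x - (ε • x + ρ h⁻¹ (F (p x)))) (ρ h⁻¹ (F (p x)) - z)
      have h6 : ρ (h⁻¹ * g * h) x - (ε • x + ρ h⁻¹ (F (p x))) + (ρ h⁻¹ (F (p x)) - z) =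
          ρ (h⁻¹ * g * h) x - (ε • x + z) := by abel
      rw [h6] at h5
      linarith
    have h3 : ∀ x, ρ g' x - ε • x ∈ AP ρ := fun x => by
      have h4 : Tendsto (fun h => ρ h⁻¹ (F (p x))) 𝒰 (𝓝 (ρ g' x - ε • x)) := by
        have h5 := (h1 x).const_sub (ρ g' x - ε • x)
        rw [sub_zero] at h5
        refine h5.congr' (hg'.mono fun h hh => ?_)
        simp only [hh]
        abel
      exact hcl.mem_of_tendsto h4 (Eventually.of_forall fun h => AP_inv ρ _ (h2 x))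
    obtain ⟨h, hh⟩ := hg'.exists
    intro x
    have h4 := AP_inv ρ h (h3 (ρ h⁻¹ x))
    have h5 : ρ h (ρ h⁻¹ x) = x := by simpa using inv_apply ρ h⁻¹ x
    rw [map_sub, map_smul, h5, ← hh, ← mul_apply_eq_comp,
      ← mul_apply_eq_comp, ← map_mul, ← map_mul] at h4
    simpa [mul_assoc] using h4
  have hB : ∀ x, x ∈ AP ρ := fun x => mem_of_dual hcl fun f hf => by
    have h1 : ∀ h, ‖f (ρ h x)‖ = ‖f x‖ := fun h => by
      obtain ⟨ε, hε, h2⟩ := hA h
      have h3 := hf _ (h2 x)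
      rw [map_sub, map_smul, sub_eq_zero] at h3
      rw [h3, norm_smul, hε, one_mul]
    have h2 := (hlim x f).norm
    simp only [h1, hf _ (hp x), norm_zero] at h2
    exact norm_eq_zero.1 (tendsto_nhds_unique tendsto_const_nhds h2)
  by_contra hinf
  rw [not_finite_iff_infinite] at hinf
  obtain ⟨g, hg⟩ := hult (hyperfilter G) id (fun _ x => x) fun x _ η hη => by
    obtain ⟨t, ht, h1⟩ := hB x η hη
    exact ⟨t, ht, Eventually.of_forall h1⟩
  exact (finite_singleton g).notMem_hyperfilter hg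

theorem finite_of_discrete
    (hrefl : ∀ φ : StrongDual 𝕜 (StrongDual 𝕜 X), ∃ x : X, ∀ f, φ f = f x)
    (H : Subgroup (X →L[𝕜] X)ˣ) (hC : ∃ C : ℝ, ∀ g ∈ H, ‖g.val‖ ≤ C)
    (hF : ∀ g ∈ H, ∃ ε : 𝕜, ‖ε‖ = 1 ∧ ∃ s : Finset X, ∀ x,
      g.val x - ε • x ∈ Submodule.span 𝕜 (s : Set X))
    (hd : ∃ s : Finset X, ∃ δ : ℝ, 0 < δ ∧ ∀ h ∈ H, (∀ x ∈ s, ‖h.val x - x‖ < δ) → h = 1) :
    (H : Set (X →L[𝕜] X)ˣ).Finite := by
  by_contra hinf
  obtain ⟨C, hC⟩ := hC
  obtain ⟨s, δ, hδ, hd⟩ := hd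
  let a := Set.Infinite.natEmbedding _ hinf
  let K := (FreeGroup.lift fun n => (a n).1).range
  have hK : K ≤ H := by
    simp only [K]
    rw [FreeGroup.range_lift_eq_closure, Subgroup.closure_le]
    rintro _ ⟨n, rfl⟩
    exact (a n).2
  haveI : Countable K := (countable_range _).to_subtype
  have h1 := finite_of_countable ((Units.coeHom _).comp K.subtype) hrefl (C := |C| + 1)
    (by positivity) (fun g x => (g.1.val.le_opNorm x).trans (by
      have := hC g.1 (hK g.2)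
      have := le_abs_self C
      gcongr; linarith)) (fun g => hF g.1 (hK g.2)) s hδ
    fun h hh => Subtype.ext (hd h.1 (hK h.2) hh)
  refine Set.infinite_of_injective_forall_mem (s := (K : Set (X →L[𝕜] X)ˣ))
    (f := fun n => (a n).1) (Subtype.val_injective.comp a.injective)
    (fun n => ⟨FreeGroup.of n, by simp⟩) (Set.toFinite _)

end Pool.Agent.H5.LightGroup
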