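import Mathlib

open Filter Topology
open scoped ENNReal

namespace Pool.Agent.H5.LpNull

abbrev X (p : ℝ≥0∞) := lp (fun _ : ℕ => ℝ) p

noncomputable abbrev U : Filter ℕ := (hyperfilter ℕ : Filter ℕ)

theorem U_le : U ≤ atTop := by
  rw [← Nat.cofinite_eq_atTop]
  exact hyperfilter_le_cofinite

theorem curry_lim {g : ℕ × ℕ → ℝ} {a : ℕ → ℝ} {L : ℝ}
    (h1 : ∀ n, Tendsto (fun m => g (n, m)) U (𝓝 (a n))) (h2 : Tendsto a U (𝓝 L)) :
    Tendsto g (U.curry U) (𝓝 L) := by
  rw [tendsto_nhds]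
  intro s hs hL
  have : ∀ᶠ q in U.curry U, g q ∈ s := by
    rw [eventually_curry_iff]
    filter_upwards [h2.eventually (hs.mem_nhds hL)] with n hn
    exact (h1 n).eventually (hs.mem_nhds hn)
  exact this

theorem ulim (g : ℕ → ℝ) (C : ℝ) (h : ∀ n, |g n| ≤ C) : ∃ L, Tendsto g U (𝓝 L) := by
  obtain ⟨L, -, hL⟩ := (isCompact_Icc (a := -C) (b := C)).ultrafilter_le_nhds
    (Ultrafilter.map g (hyperfilter ℕ)) (by
      rw [Ultrafilter.coe_map, le_principal_iff, Filter.mem_map]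
      exact Eventually.of_forall fun n => abs_le.1 (h n))
  exact ⟨L, hL⟩

variable {p : ℝ≥0∞} [Fact (1 ≤ p)]

noncomputable def e (p : ℝ≥0∞) (n : ℕ) : X p := lp.single p n 1

theorem norm_e (n : ℕ) : ‖e p n‖ = 1 := by
  unfold e
  rw [lp.norm_single (zero_lt_one.trans_le Fact.out), norm_one]

theorem r_ge (hp : p ≠ ⊤) : 1 ≤ p.toReal := by
  have := ENNReal.toReal_mono hp (Fact.out : 1 ≤ p)
  simpa using this

theorem coord_null (hp : p ≠ ⊤) (z : X p) : Tendsto (fun n => z n) atTop (𝓝 0) := by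
  have hr : 0 < p.toReal := zero_lt_one.trans_le (r_ge hp)
  have h1 := (lp.hasSum_norm hr z).summable.tendsto_atTop_zero
  have h2 := h1.rpow_const (p := p.toReal⁻¹) (Or.inr (inv_pos.2 hr).le)
  rw [Real.zero_rpow (inv_pos.2 hr).ne'] at h2
  rw [tendsto_zero_iff_norm_tendsto_zero]
  refine h2.congr fun n => ?_
  rw [Real.rpow_rpow_inv (norm_nonneg _) hr.ne']

theorem asym (hp : p ≠ ⊤) (c : ℝ) (hc : |c| = 1) (z : X p) :
    ∀ᶠ n in U, ‖c • e p n + z‖ ^ p.toReal ≤ ‖z‖ ^ p.toReal + 2 := by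
  have hr : 0 < p.toReal := zero_lt_one.trans_le (r_ge hp)
  have h1 : ∀ n, ‖c • e p n + z‖ ^ p.toReal ≤ ‖z‖ ^ p.toReal + ‖c + z n‖ ^ p.toReal := by
    intro n
    have h2 := lp.norm_compl_sum_single hr (c • e p n + z) {n}
    have h3 := lp.norm_compl_sum_single hr z {n}
    rw [Finset.sum_singleton, Finset.sum_singleton] at h2 h3
    have h4 : c • e p n + z - lp.single p n ((c • e p n + z) n) = z - lp.single p n (z n) := by
      ext j
      by_cases hj : j = n
      · subst hj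
        simp [e]
      · simp [e, lp.single_apply, Pi.single_eq_of_ne hj]
    have h5 : (c • e p n + z) n = c + z n := by simp [e]
    rw [h4, h5] at h2
    have := Real.rpow_nonneg (norm_nonneg (z n)) p.toReal
    linarith
  have h2 : Tendsto (fun n => ‖c + z n‖ ^ p.toReal) atTop (𝓝 (‖c + 0‖ ^ p.toReal)) :=
    ((tendsto_const_nhds.add (coord_null hp z)).norm).rpow_const (Or.inr hr.le)
  rw [add_zero, Real.norm_eq_abs, hc, Real.one_rpow] at h2
  filter_upwards [U_le (h2.eventually (gt_mem_nhds one_lt_two))] with n hn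
  exact (h1 n).trans (by linarith [show ‖c + z n‖ ^ p.toReal < 2 from hn])

theorem bd {ι : Type} [Fintype ι] [DecidableEq ι]
    (A : ContinuousMultilinearMap ℝ (fun _ : ι => X p) ℝ) (S : Finset ι) (y : ι → X p) (z : X p) :
    |A (S.piecewise (fun _ => z) y)| ≤ (‖A‖ * ∏ i ∈ Sᶜ, ‖y i‖) * ‖z‖ ^ S.card := by
  have h := A.le_opNorm (S.piecewise (fun _ => z) y)
  rw [← Finset.prod_mul_prod_compl S] at h
  have h1 : ∏ i ∈ S, ‖S.piecewise (fun _ => z) y i‖ = ‖z‖ ^ S.card := by
    rw [← Finset.prod_const]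
    exact Finset.prod_congr rfl fun i hi => by rw [Finset.piecewise_eq_of_mem _ _ _ hi]
  have h2 : ∏ i ∈ Sᶜ, ‖S.piecewise (fun _ => z) y i‖ = ∏ i ∈ Sᶜ, ‖y i‖ :=
    Finset.prod_congr rfl fun i hi => by
      rw [Finset.piecewise_eq_of_notMem _ _ _ (Finset.mem_compl.1 hi)]
  rw [h1, h2, Real.norm_eq_abs] at h
  linarith [mul_right_comm ‖A‖ (‖z‖ ^ S.card) (∏ i ∈ Sᶜ, ‖y i‖), mul_assoc ‖A‖ (‖z‖ ^ S.card) (∏ i ∈ Sᶜ, ‖y i‖)]

theorem expand {ι : Type} [Fintype ι] [DecidableEq ι]
    (A : ContinuousMultilinearMap ℝ (fun _ : ι => X p) ℝ) (S : Finset ι) (hS : S.Nonempty)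
    (w : ℕ → X p) (y : ι → X p) (z : X p) (L : ℝ)
    (h1 : Tendsto (fun n => A (S.piecewise (fun _ => w n) y)) U (𝓝 L))
    (h2 : ∀ T ⊂ S, T.Nonempty → ∀ y' : ι → X p,
      Tendsto (fun n => A (T.piecewise (fun _ => w n) y')) U (𝓝 0)) :
    Tendsto (fun n => A (S.piecewise (fun _ => w n + z) y)) U
      (𝓝 (L + A (S.piecewise (fun _ => z) y))) := by
  have h3 : ∀ n, A (S.piecewise (fun _ => w n + z) y) =
      ∑ T ∈ S.powerset, A (T.piecewise (fun _ => w n) (S.piecewise (fun _ => z) y)) := by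
    intro n
    rw [← A.map_piecewise_add]
    congr 1
    ext1 i
    by_cases hi : i ∈ S <;> simp [hi]
  simp only [h3]
  have h4 : L + A (S.piecewise (fun _ => z) y) = ∑ T ∈ S.powerset,
      ((if T = S then L else 0) + if T = ∅ then A (S.piecewise (fun _ => z) y) else 0) := by
    rw [Finset.sum_add_distrib, Finset.sum_ite_eq', Finset.sum_ite_eq']
    simp
  rw [h4]
  refine tendsto_finsetSum _ fun T hT => ?_
  by_cases hTS : T = S
  · subst hTS
    rw [if_pos rfl, if_neg hS.ne_empty, add_zero]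
    refine h1.congr fun n => ?_
    rw [Finset.piecewise_idem_right]
  · by_cases hT0 : T = ∅
    · subst hT0
      rw [if_neg hTS, if_pos rfl, zero_add]
      simp only [Finset.piecewise_empty]
      exact tendsto_const_nhds
    · rw [if_neg hTS, if_neg hT0, add_zero]
      exact h2 T ⟨Finset.mem_powerset.1 hT, fun h => hTS (le_antisymm (Finset.mem_powerset.1 hT) h)⟩
        (Finset.nonempty_iff_ne_empty.2 hT0) _

theorem ml1 (hp : p ≠ ⊤) {ι : Type} [Fintype ι] [DecidableEq ι]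
    (A : ContinuousMultilinearMap ℝ (fun _ : ι => X p) ℝ) (c : ℝ) (hc : |c| = 1) (S : Finset ι) :
    S.Nonempty → (S.card : ℝ) < p.toReal → ∀ y : ι → X p,
      Tendsto (fun n => A (S.piecewise (fun _ => c • e p n) y)) U (𝓝 0) := by
  have hr : 0 < p.toReal := zero_lt_one.trans_le (r_ge hp)
  induction S using Finset.strongInduction with
  | H S ih =>
  intro hS hk y
  set C := ‖A‖ * ∏ i ∈ Sᶜ, ‖y i‖ with hC
  obtain ⟨L, hL⟩ := ulim (fun n => A (S.piecewise (fun _ => c • e p n) y)) C fun n => by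
    have := bd A S y (c • e p n)
    rwa [norm_smul, norm_e, Real.norm_eq_abs, hc, mul_one, one_pow, mul_one] at this
  suffices h : L = 0 by rwa [h] at hL
  by_contra hL0
  have hL2 : 0 < L * L := mul_self_pos.2 hL0
  have key : ∀ N : ℕ, ∃ z : X p, ‖z‖ ^ p.toReal ≤ 2 * N ∧
      N * (L * L / 2) ≤ A (S.piecewise (fun _ => z) y) * L := by
    intro N
    induction N with
    | zero =>
      refine ⟨0, by simp [Real.zero_rpow hr.ne'], ?_⟩
      obtain ⟨i, hi⟩ := hS
      rw [A.map_coord_zero i (by simp [hi])]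
      simp
    | succ N ihN =>
      obtain ⟨z, hz1, hz2⟩ := ihN
      have h1 := (expand A S hS (fun n => c • e p n) y z L hL fun T hT hT' y' =>
        ih T hT hT' (lt_of_le_of_lt (by exact_mod_cast Finset.card_le_card hT.le) hk) y').mul_const L
      have h2 : ((N + 1 : ℕ) : ℝ) * (L * L / 2) < (L + A (S.piecewise (fun _ => z) y)) * L := by
        push_cast
        nlinarith
      obtain ⟨n, hn1, hn2⟩ := ((h1.eventually (lt_mem_nhds h2)).and (asym hp c hc z)).exists
      refine ⟨_, hn2.trans ?_, hn1.le⟩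
      push_cast
      linarith
  have hC0 : 0 ≤ C := by positivity
  have h1 : Tendsto (fun N : ℕ => 2 * (C * |L|) * ((2 * N : ℝ) ^ (-(1 - S.card / p.toReal))))
      atTop (𝓝 (2 * (C * |L|) * 0)) := by
    refine Tendsto.const_mul _ ((tendsto_rpow_neg_atTop ?_).comp ?_)
    · rw [sub_pos, div_lt_one hr]
      exact hk
    · exact tendsto_natCast_atTop_atTop.const_mul_atTop two_pos
  rw [mul_zero] at h1
  obtain ⟨N, hN1, hN2⟩ := ((h1.eventually (gt_mem_nhds (half_pos hL2))).and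
    (eventually_gt_atTop 0)).exists
  obtain ⟨z, hz1, hz2⟩ := key N
  have hN : (0 : ℝ) < N := by exact_mod_cast hN2
  have h2 : ‖z‖ ^ S.card ≤ (2 * N : ℝ) ^ ((S.card : ℝ) / p.toReal) := by
    have h3 := Real.rpow_le_rpow (Real.rpow_nonneg (norm_nonneg _) _) hz1
      (show (0 : ℝ) ≤ S.card / p.toReal by positivity)
    rwa [← Real.rpow_mul (norm_nonneg _), mul_div_cancel₀ _ hr.ne', Real.rpow_natCast] at h3
  have h3 : (2 * N : ℝ) ^ ((S.card : ℝ) / p.toReal) =
      2 * N * (2 * N : ℝ) ^ (-(1 - S.card / p.toReal)) := by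
    rw [neg_sub, Real.rpow_sub (by positivity), Real.rpow_one]
    field_simp
  have h4 : A (S.piecewise (fun _ => z) y) * L ≤ C * ‖z‖ ^ S.card * |L| := by
    refine (le_abs_self _).trans ?_
    rw [abs_mul]
    exact mul_le_mul_of_nonneg_right (bd A S y z) (abs_nonneg _)
  have h5 : C * ‖z‖ ^ S.card * |L| ≤ C * (2 * N * (2 * N : ℝ) ^ (-(1 - S.card / p.toReal))) * |L| := by
    rw [← h3]
    gcongr
  have h6 := mul_lt_mul_of_pos_left hN1 hN
  nlinarith

theorem ml2 (hp : p ≠ ⊤) (k : ℕ) (hk0 : k ≠ 0) (hk : (k : ℝ) ≤ p.toReal)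
    (hk' : (k : ℝ) < p.toReal ∨ Odd k) (A : ContinuousMultilinearMap ℝ (fun _ : Fin k => X p) ℝ) :
    Tendsto (fun q : ℕ × ℕ => A fun _ => e p q.1 - e p q.2) (U.curry U) (𝓝 0) := by
  haveI : Nonempty (Fin k) := ⟨⟨0, Nat.pos_of_ne_zero hk0⟩⟩
  obtain ⟨L, hL⟩ := ulim (fun n => A fun _ => e p n) ‖A‖ fun n => by
    have := A.le_opNorm fun _ => e p n
    simpa [norm_e] using this
  have h0 : (-1) ^ k * L + L = 0 := by
    rcases hk' with h | h
    · have h1 := ml1 hp A 1 abs_one Finset.univ Finset.univ_nonempty (by simpa using h) 0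
      simp only [Finset.piecewise_univ, one_smul] at h1
      rw [tendsto_nhds_unique hL h1]
      simp
    · rw [h.neg_one_pow]
      ring
  refine curry_lim (a := fun n => (-1) ^ k * L + A fun _ => e p n) (fun n => ?_) ?_
  · have h1 := expand A Finset.univ Finset.univ_nonempty (fun m => (-1 : ℝ) • e p m) 0 (e p n)
      ((-1) ^ k * L) (by
        simp only [Finset.piecewise_univ]
        refine (hL.const_mul _).congr fun m => ?_
        rw [A.map_smul_univ (fun _ => (-1 : ℝ)) fun _ => e p m]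
        simp)
      (fun T hT hT' y' => ml1 hp A (-1) (by simp) T hT' (lt_of_lt_of_le (by
        have := Finset.card_lt_card hT
        rw [Finset.card_univ, Fintype.card_fin] at this
        exact_mod_cast this) hk) y')
    simp only [Finset.piecewise_univ] at h1
    refine h1.congr fun m => ?_
    congr 1
    ext1 i
    rw [neg_one_smul, neg_add_eq_sub]
  · have := hL.const_add ((-1) ^ k * L)
    rwa [h0] at this

end Pool.Agent.H5.LpNull
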