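import Mathlib

namespace Pool.Agent.H5.LqRigid

open Finset
open scoped ENNReal

/-- The l^q norm on R^d. -/
noncomputable def lqNorm (q : ℝ≥0∞) (d : ℕ) (x : Fin d → ℝ) : ℝ :=
  ‖(WithLp.toLp q x : PiLp q (fun _ : Fin d => ℝ))‖

/-- A well-positioned placement all of whose infinitesimal flexes are constant. -/
def Rigid (q : ℝ≥0∞) {d n : ℕ} (G : SimpleGraph (Fin n)) (p : Fin n → Fin d → ℝ) : Prop :=
  (∀ u v, G.Adj u v → DifferentiableAt ℝ (lqNorm q d) (p u - p v)) ∧
  ∀ m : Fin n → Fin d → ℝ,
    (∀ u v, G.Adj u v → fderiv ℝ (lqNorm q d) (p u - p v) (m u - m v) = 0) → ∀ u v, m u = m v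

/-- Rigid, and still rigid after deleting any one edge. -/
def RedRigid (q : ℝ≥0∞) {d n : ℕ} (G : SimpleGraph (Fin n)) (p : Fin n → Fin d → ℝ) : Prop :=
  Rigid q G p ∧ ∀ e ∈ G.edgeSet, Rigid q (G.deleteEdges {e}) p

/-- The edge set is the disjoint union of the edge sets of d Hamilton cycles. -/
def HamDecomp {n : ℕ} (G : SimpleGraph (Fin n)) (d : ℕ) : Prop :=
  ∃ (a : Fin d → Fin n) (H : ∀ k, G.Walk (a k) (a k)),
    (∀ k, (H k).IsHamiltonianCycle) ∧
    (∀ k l, k ≠ l → ∀ e ∈ (H k).edges, e ∉ (H l).edges) ∧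
    ∀ e ∈ G.edgeSet, ∃ k, e ∈ (H k).edges

/-! ### Part 1: the sup norm in the plane -/

lemma lqNorm_top (x : Fin 2 → ℝ) : lqNorm ⊤ 2 x = max |x 0| |x 1| := by
  unfold lqNorm
  rw [PiLp.norm_eq_ciSup]
  apply le_antisymm
  · apply ciSup_le
    intro i
    fin_cases i <;> simp
  · have hb : BddAbove (Set.range fun i : Fin 2 =>
        ‖(WithLp.toLp ⊤ x : PiLp ⊤ (fun _ : Fin 2 => ℝ)) i‖) := (Set.finite_range _).bddAbove
    apply max_le
    · simpa using le_ciSup hb 0
    · simpa using le_ciSup hb 1

lemma fderiv_dir_zero {d : ℕ} (N : (Fin d → ℝ) → ℝ) (x h : Fin d → ℝ)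
    (hN : DifferentiableAt ℝ N x) (hmin : ∀ t : ℝ, |t| < 1 → N x ≤ N (x + t • h)) :
    fderiv ℝ N x h = 0 := by
  have h1 : HasDerivAt (fun t : ℝ => x + t • h) h 0 := by
    simpa using ((hasDerivAt_id (0 : ℝ)).smul_const h).const_add x
  have h2 : HasFDerivAt N (fderiv ℝ N x) (x + (0 : ℝ) • h) := by
    simpa using hN.hasFDerivAt
  have h3 := h2.comp_hasDerivAt (0 : ℝ) h1
  apply IsLocalMin.hasDerivAt_eq_zero _ h3
  have : ∀ᶠ t in nhds (0 : ℝ), |t| < 1 := by
    have : Set.Ioo (-1 : ℝ) 1 ∈ nhds (0 : ℝ) := Ioo_mem_nhds (by norm_num) (by norm_num)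
    filter_upwards [this] with t ht
    exact abs_lt.2 ht
  filter_upwards [this] with t ht
  simpa using hmin t ht

lemma top_dir (x : Fin 2 → ℝ) (i j : Fin 2) (hij : i ≠ j) (hx : |x i| ≤ |x j|) (c : ℝ)
    (hN : DifferentiableAt ℝ (lqNorm ⊤ 2) x) :
    fderiv ℝ (lqNorm ⊤ 2) x (Pi.single i c) = 0 := by
  apply fderiv_dir_zero _ _ _ hN
  intro t _
  rw [lqNorm_top, lqNorm_top]
  fin_cases i <;> fin_cases j <;> simp_all

lemma two_nbrs (p : Fin 5 → Fin 2 → ℝ) (hp : RedRigid ⊤ (⊤ : SimpleGraph (Fin 5)) p)
    (v : Fin 5) (i j : Fin 2) (hij : i ≠ j) :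
    2 ≤ (univ.filter fun w => |p v j - p w j| < |p v i - p w i|).card := by
  by_contra hcon
  rw [not_le] at hcon
  obtain ⟨w0, hw0v, hw0⟩ : ∃ w0 : Fin 5, w0 ≠ v ∧
      ∀ w, w ≠ w0 → |p v i - p w i| ≤ |p v j - p w j| := by
    rcases Nat.lt_succ_iff.1 hcon |>.eq_or_lt with h | h
    · obtain ⟨w0, hw0⟩ := card_eq_one.1 h
      refine ⟨w0, ?_, ?_⟩
      · rintro rfl
        have : w0 ∈ (univ.filter fun w => |p w0 j - p w j| < |p w0 i - p w i|) := by
          rw [hw0]; simp
        simp at this
      · intro w hw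
        by_contra hc
        have : w ∈ (univ.filter fun w => |p v j - p w j| < |p v i - p w i|) := by
          simpa using hc
        rw [hw0] at this
        exact hw (by simpa using this)
    · have h0 : (univ.filter fun w => |p v j - p w j| < |p v i - p w i|) = ∅ := by
        rw [← card_eq_zero]; omega
      obtain ⟨w0, hw0⟩ := exists_ne v
      refine ⟨w0, hw0, ?_⟩
      intro w _
      by_contra hc
      have : w ∈ (univ.filter fun w => |p v j - p w j| < |p v i - p w i|) := by
        simpa using hc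
      rw [h0] at this
      simp at this
  have hr := hp.2 s(v, w0) (by simpa using hw0v.symm)
  have key := hr.2 (fun u => if u = v then Pi.single i 1 else 0) ?_ v w0
  · have := congrFun key i
    simp [hw0v] at this
  · intro a b hab
    have hd := hr.1 a b hab
    rw [SimpleGraph.deleteEdges_adj] at hab
    obtain ⟨hab1, hab2⟩ := hab
    have hab1 : a ≠ b := by simpa using hab1
    by_cases ha : a = v
    · subst ha
      have hb : b ≠ w0 := by
        rintro rfl
        simp at hab2
      simp only [if_true, if_neg hab1.symm, sub_zero]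
      exact top_dir _ i j hij (by simpa using hw0 b hb) 1 hd
    · by_cases hb : b = v
      · subst hb
        have ha' : a ≠ w0 := by
          rintro rfl
          simp [Sym2.eq_swap] at hab2
        simp only [if_true, if_neg ha, zero_sub]
        rw [← Pi.single_neg]
        refine top_dir _ i j hij ?_ (-1) hd
        have := hw0 a ha'
        rw [abs_sub_comm, abs_sub_comm (p b j)] at this
        simpa using this
      · simp [ha, hb]

lemma conc (x y : ℝ) (h : |y| < |x|) (h2 : x + y ≤ 0) : x - y < 0 := by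
  cases abs_cases x <;> cases abs_cases y <;> linarith

lemma disc (x y : ℝ) (h : |x| < |y|) (h2 : x + y ≤ 0) : 0 < x - y := by
  cases abs_cases x <;> cases abs_cases y <;> linarith

theorem not_red (p : Fin 5 → Fin 2 → ℝ) : ¬ RedRigid ⊤ (⊤ : SimpleGraph (Fin 5)) p := by
  intro hp
  set a : Fin 5 → ℝ := fun v => p v 0 + p v 1 with ha
  set b : Fin 5 → ℝ := fun v => p v 0 - p v 1 with hb
  obtain ⟨u, -, hu⟩ := exists_min_image univ a univ_nonempty
  obtain ⟨w, hw', hw⟩ := exists_max_image (univ.erase u) a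
    (by obtain ⟨x, hx⟩ := exists_ne u; exact ⟨x, by simpa using hx⟩)
  have hwu : w ≠ u := by simpa using hw'
  have hw2 : ∀ z, a z ≤ a w := by
    intro z
    by_cases hz : z = u
    · subst hz; exact hu w (mem_univ _)
    · exact hw z (by simpa using hz)
  have u1 : 2 ≤ (univ.filter fun z => b u < b z).card := by
    refine (two_nbrs p hp u 0 1 (by decide)).trans (card_le_card ?_)
    intro z hz
    simp only [mem_filter, mem_univ, true_and] at hz ⊢
    have h1 := hu z (mem_univ _)
    have := conc _ _ hz (by simp only [ha] at h1; linarith)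
    simp only [hb]; linarith
  have u2 : 2 ≤ (univ.filter fun z => b z < b u).card := by
    refine (two_nbrs p hp u 1 0 (by decide)).trans (card_le_card ?_)
    intro z hz
    simp only [mem_filter, mem_univ, true_and] at hz ⊢
    have h1 := hu z (mem_univ _)
    have := disc _ _ hz (by simp only [ha] at h1; linarith)
    simp only [hb]; linarith
  have w1 : 2 ≤ (univ.filter fun z => b z < b w).card := by
    refine (two_nbrs p hp w 0 1 (by decide)).trans (card_le_card ?_)
    intro z hz
    simp only [mem_filter, mem_univ, true_and] at hz ⊢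
    have h1 := hw2 z
    rw [abs_sub_comm, abs_sub_comm (p w 0)] at hz
    have := conc _ _ hz (by simp only [ha] at h1; linarith)
    simp only [hb]; linarith
  have w2 : 2 ≤ (univ.filter fun z => b w < b z).card := by
    refine (two_nbrs p hp w 1 0 (by decide)).trans (card_le_card ?_)
    intro z hz
    simp only [mem_filter, mem_univ, true_and] at hz ⊢
    have h1 := hw2 z
    rw [abs_sub_comm, abs_sub_comm (p w 1)] at hz
    have := disc _ _ hz (by simp only [ha] at h1; linarith)
    simp only [hb]; linarith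
  have six : ∀ s t : Fin 5, s ≠ t → b s ≤ b t → 2 ≤ (univ.filter fun z => b z < b s).card →
      2 ≤ (univ.filter fun z => b t < b z).card → False := by
    intro s t hst hle h1 h2
    have d1 : Disjoint (univ.filter fun z => b z < b s) (univ.filter fun z => b t < b z) := by
      rw [disjoint_filter]
      intro z _ hz hz'
      linarith
    have d2 : Disjoint ((univ.filter fun z => b z < b s) ∪ (univ.filter fun z => b t < b z))
        {s, t} := by
      rw [disjoint_right]
      intro z hz
      simp only [mem_insert, mem_singleton] at hz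
      rcases hz with rfl | rfl <;> simp [hle]
    have := card_le_univ (((univ.filter fun z => b z < b s) ∪ (univ.filter fun z => b t < b z))
        ∪ {s, t})
    rw [card_union_of_disjoint d2, card_union_of_disjoint d1, card_pair hst] at this
    simp only [Fintype.card_fin] at this
    omega
  rcases le_total (b u) (b w) with h | h
  · exact six u w hwu.symm h u2 w2
  · exact six w u hwu h w1 u1

def c1 : (⊤ : SimpleGraph (Fin 5)).Walk 0 0 :=
  .cons (v := 1) (by decide) (.cons (v := 2) (by decide) (.cons (v := 3) (by decide)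
    (.cons (v := 4) (by decide) (.cons (v := 0) (by decide) .nil))))

def c2 : (⊤ : SimpleGraph (Fin 5)).Walk 0 0 :=
  .cons (v := 2) (by decide) (.cons (v := 4) (by decide) (.cons (v := 1) (by decide)
    (.cons (v := 3) (by decide) (.cons (v := 0) (by decide) .nil))))

lemma c1_ham : c1.IsHamiltonianCycle := by
  rw [SimpleGraph.Walk.isHamiltonianCycle_iff_isCycle_and_length_eq]
  refine ⟨?_, by simp [c1]⟩
  rw [SimpleGraph.Walk.isCycle_def]
  refine ⟨?_, by simp [c1], by simp [c1]⟩
  rw [SimpleGraph.Walk.isTrail_def]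
  simp [c1]

lemma c2_ham : c2.IsHamiltonianCycle := by
  rw [SimpleGraph.Walk.isHamiltonianCycle_iff_isCycle_and_length_eq]
  refine ⟨?_, by simp [c2]⟩
  rw [SimpleGraph.Walk.isCycle_def]
  refine ⟨?_, by simp [c2], by simp [c2]⟩
  rw [SimpleGraph.Walk.isTrail_def]
  simp [c2]

theorem k5_ham : HamDecomp (⊤ : SimpleGraph (Fin 5)) 2 := by
  refine ⟨fun _ => 0, fun k => if k = 0 then c1 else c2, ?_, ?_, ?_⟩
  · intro k
    fin_cases k
    · exact c1_ham
    · exact c2_ham
  · intro k l hkl
    fin_cases k <;> fin_cases l <;> simp_all [c1, c2]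
  · intro e he
    induction e using Sym2.ind with
    | _ u v =>
      have h : u ≠ v := by simpa using he
      rw [Fin.exists_fin_two]
      revert h
      fin_cases u <;> fin_cases v <;> simp [c1, c2]

end Pool.Agent.H5.LqRigid
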