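import Mathlib
import Pool.Agent.H5.LqRigid

namespace Pool.Agent.H5.LqRigid

open Finset MvPolynomial
open scoped ENNReal

/-- exponential sums with distinct bases -/
lemma exp_sum {I : Type} [Fintype I] [DecidableEq I] (P : MvPolynomial I ℝ) (hP : P ≠ 0)
    (a : I → ℝ) (ha : ∀ i, a i ≠ 0)
    (hinj : ∀ m ∈ P.support, ∀ m' ∈ P.support, m ≠ m' →
      (∏ i, a i ^ m i) ^ 2 ≠ (∏ i, a i ^ m' i) ^ 2) :
    ∃ s : ℕ, eval (fun i => a i ^ (2 * s + 3)) P ≠ 0 := by
  by_contra hcon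
  push Not at hcon
  set A : (I →₀ ℕ) → ℝ := fun m => ∏ i, a i ^ m i with hA
  have hli := (linearIndependent_monoidHom (Multiplicative ℕ) ℝ).comp
    (fun m : P.support => powersHom ℝ (A m ^ 2)) (by
      intro m m' h
      by_contra hne
      have h2 : A m ^ 2 = A m' ^ 2 := (powersHom ℝ).injective h
      exact hinj m m.2 m' m'.2 (fun h => hne (Subtype.ext h)) h2)
  rw [Fintype.linearIndependent_iff] at hli
  have := hli (fun m => P.coeff m * A m ^ 3) (by
    funext s
    have h := hcon (Multiplicative.toAdd s)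
    rw [eval_eq', ← sum_coe_sort] at h
    rw [Finset.sum_apply]
    simp only [Function.comp, Pi.smul_apply, smul_eq_mul, powersHom_apply, Pi.zero_apply]
    rw [← h]
    apply sum_congr rfl
    intro m _
    rw [mul_assoc]
    congr 1
    rw [← pow_mul, ← pow_add, hA]
    simp only
    rw [← prod_pow]
    apply prod_congr rfl
    intro i _
    rw [← pow_mul, ← pow_mul]
    congr 1
    ring)
  obtain ⟨m, hm⟩ := support_nonempty.2 hP
  have h1 := this ⟨m, hm⟩
  have h2 : A m ≠ 0 := prod_ne_zero_iff.2 fun i _ => pow_ne_zero _ (ha i)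
  have h3 : P.coeff m ≠ 0 := mem_support_iff.1 hm
  exact mul_ne_zero h3 (pow_ne_zero _ h2) h1

/-- ordered pairs u < v -/
abbrev J (n : ℕ) := {x : Fin n × Fin n // x.1 < x.2}

noncomputable def L {d n : ℕ} (i : Fin d × J n) : MvPolynomial (Fin d × Fin n) ℝ :=
  X (i.1, i.2.1.1) - X (i.1, i.2.1.2)

noncomputable def psi {d n : ℕ} (i0 : Fin d × J n) :
    MvPolynomial (Fin d × Fin n) ℝ →ₐ[ℝ] Polynomial ℝ :=
  aeval fun x => if x = (i0.1, i0.2.1.1) then Polynomial.X + Polynomial.C ((i0.2.1.2 : ℕ) : ℝ)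
    else Polynomial.C ((x.2 : ℕ) : ℝ)

lemma psi_self {d n : ℕ} (i0 : Fin d × J n) : psi i0 (L i0) = Polynomial.X := by
  have h : i0.2.1.2 ≠ i0.2.1.1 := i0.2.2.ne'
  simp [psi, L, h]

lemma psi_other {d n : ℕ} (i0 i : Fin d × J n) (h : i ≠ i0) :
    Polynomial.eval 0 (psi i0 (L i)) ≠ 0 := by
  obtain ⟨k, ⟨u, v⟩, huv⟩ := i
  obtain ⟨k0, ⟨u0, v0⟩, huv0⟩ := i0
  simp only at huv huv0
  have h' : ¬ (k = k0 ∧ u = u0 ∧ v = v0) := by
    rintro ⟨rfl, rfl, rfl⟩
    exact h rfl
  simp only [psi, L, map_sub, aeval_X, Prod.mk.injEq]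
  split_ifs with h1 h2 h2
  · exact absurd (h1.2.trans h2.2.symm) huv.ne
  · have : v ≠ v0 := fun hv => h' ⟨h1.1, h1.2, hv⟩
    simp only [Polynomial.eval_sub, Polynomial.eval_add, Polynomial.eval_X, Polynomial.eval_C,
      zero_add, ne_eq, sub_eq_zero, Nat.cast_inj]
    exact fun hh => this (Fin.ext hh.symm)
  · have : u < v0 := by
      rw [h2.2] at huv
      exact huv.trans huv0
    simp only [Polynomial.eval_sub, Polynomial.eval_add, Polynomial.eval_X, Polynomial.eval_C,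
      zero_add, ne_eq, sub_eq_zero, Nat.cast_inj]
    exact fun hh => this.ne (Fin.ext hh)
  · simp only [Polynomial.eval_sub, Polynomial.eval_C, ne_eq, sub_eq_zero, Nat.cast_inj]
    exact fun hh => huv.ne (Fin.ext hh)

lemma X_pow_cancel (a b : ℕ) (g h : Polynomial ℝ) (hg : g.eval 0 ≠ 0)
    (e : Polynomial.X ^ a * g = Polynomial.X ^ b * h) : b ≤ a := by
  by_contra hc
  rw [not_le] at hc
  obtain ⟨c, rfl⟩ := Nat.exists_eq_add_of_lt hc
  rw [add_assoc, pow_add, mul_assoc] at e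
  have := mul_left_cancel₀ (pow_ne_zero a Polynomial.X_ne_zero) e
  apply hg
  rw [this]
  simp

lemma Lam_inj {d n : ℕ} (m m' : (Fin d × J n) →₀ ℕ)
    (h : (∏ i, L i ^ m i) ^ 2 = (∏ i, L i ^ m' i) ^ 2) : m = m' := by
  ext i0
  have split : ∀ m : (Fin d × J n) →₀ ℕ, ∃ g : Polynomial ℝ, g.eval 0 ≠ 0 ∧
      psi i0 ((∏ i, L i ^ m i) ^ 2) = Polynomial.X ^ (2 * m i0) * g := by
    intro m
    refine ⟨(∏ i ∈ univ.erase i0, psi i0 (L i) ^ m i) ^ 2, ?_, ?_⟩
    · rw [Polynomial.eval_pow, Polynomial.eval_prod]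
      apply pow_ne_zero
      rw [prod_ne_zero_iff]
      intro i hi
      rw [Polynomial.eval_pow]
      exact pow_ne_zero _ (psi_other i0 i (by simpa using hi))
    · rw [map_pow, map_prod, ← mul_prod_erase _ _ (mem_univ i0)]
      simp only [map_pow]
      rw [psi_self, mul_pow, ← pow_mul, mul_comm (m i0) 2]
  obtain ⟨g, hg, e1⟩ := split m
  obtain ⟨g', hg', e2⟩ := split m'
  rw [h, e2] at e1
  have h1 := X_pow_cancel _ _ _ _ hg' e1
  have h2 := X_pow_cancel _ _ _ _ hg e1.symm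
  omega

lemma exists_generic {d n : ℕ} (S : Finset ((Fin d × J n) →₀ ℕ)) :
    ∃ x : Fin d × Fin n → ℝ, (∀ i, eval x (L i) ≠ 0) ∧
      ∀ m ∈ S, ∀ m' ∈ S, m ≠ m' →
        (∏ i, eval x (L i) ^ m i) ^ 2 ≠ (∏ i, eval x (L i) ^ m' i) ^ 2 := by
  classical
  set Q : MvPolynomial (Fin d × Fin n) ℝ := (∏ i : Fin d × J n, L i) *
    ∏ z ∈ S.offDiag, ((∏ i, L i ^ z.1 i) ^ 2 - (∏ i, L i ^ z.2 i) ^ 2) with hQ
  have hQ0 : Q ≠ 0 := by
    apply mul_ne_zero
    · rw [prod_ne_zero_iff]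
      intro i _ h0
      have := psi_self i
      rw [h0, map_zero] at this
      exact Polynomial.X_ne_zero this.symm
    · rw [prod_ne_zero_iff]
      intro z hz h0
      rw [sub_eq_zero] at h0
      exact (mem_offDiag.1 hz).2.2 (Lam_inj _ _ h0)
  obtain ⟨x, hx⟩ : ∃ x, eval x Q ≠ 0 := by
    by_contra hc
    push Not at hc
    exact hQ0 (MvPolynomial.funext (by simpa using hc))
  rw [hQ, map_mul, mul_ne_zero_iff, map_prod, map_prod, prod_ne_zero_iff, prod_ne_zero_iff] at hx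
  refine ⟨x, fun i => hx.1 i (mem_univ _), ?_⟩
  intro m hm m' hm' hne
  have := hx.2 (m, m') (mem_offDiag.2 ⟨hm, hm', hne⟩)
  simpa [sub_eq_zero] using this

/-- the weighted rigidity matrix -/
noncomputable def R {d n : ℕ} {A : Type} [CommRing A] (G : SimpleGraph (Fin n))
    (t : Fin d × J n → A) : Matrix (J n) (Fin d × Fin n) A := by
  classical
  exact fun j x => if G.Adj j.1.1 j.1.2 then
    t (x.1, j) * ((if x.2 = j.1.1 then 1 else 0) - (if x.2 = j.1.2 then 1 else 0)) else 0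

noncomputable def N {d n : ℕ} {A : Type} [CommRing A] (G : SimpleGraph (Fin n)) (v0 : Fin n)
    (t : Fin d × J n → A) : Matrix (Fin d × Fin n) (Fin d × Fin n) A :=
  (R G t).transpose * R G t + Matrix.diagonal fun x => if x.2 = v0 then 1 else 0

lemma R_map {d n : ℕ} (G : SimpleGraph (Fin n)) (t : Fin d × J n → ℝ) :
    (R G (X : Fin d × J n → MvPolynomial _ ℝ)).map (eval t) = R G t := by
  ext j x
  simp only [R, Matrix.map_apply]
  split_ifs <;> simp

lemma N_det {d n : ℕ} (G : SimpleGraph (Fin n)) (v0 : Fin n) (t : Fin d × J n → ℝ) :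
    eval t (N G v0 (X : Fin d × J n → MvPolynomial _ ℝ)).det = (N G v0 t).det := by
  rw [RingHom.map_det]
  congr 1
  rw [N, N, map_add]
  simp only [RingHom.mapMatrix_apply]
  rw [Matrix.map_mul, ← R_map G t, Matrix.transpose_map]
  congr 1
  rw [Matrix.diagonal_map (by simp)]
  congr 1
  funext x
  split_ifs <;> simp

lemma R_mulVec {d n : ℕ} (G : SimpleGraph (Fin n)) (t : Fin d × J n → ℝ)
    (y : Fin d × Fin n → ℝ) (j : J n) (h : G.Adj j.1.1 j.1.2) :
    (R G t).mulVec y j = ∑ k, t (k, j) * (y (k, j.1.1) - y (k, j.1.2)) := by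
  simp only [Matrix.mulVec, dotProduct, R, if_pos h]
  rw [Fintype.sum_prod_type]
  apply sum_congr rfl
  intro k _
  simp [mul_sub, sub_mul, sum_sub_distrib]

lemma R_mulVec' {d n : ℕ} (G : SimpleGraph (Fin n)) (t : Fin d × J n → ℝ)
    (y : Fin d × Fin n → ℝ) (j : J n) (h : ¬ G.Adj j.1.1 j.1.2) :
    (R G t).mulVec y j = 0 := by
  simp [Matrix.mulVec, dotProduct, R, if_neg h]

lemma N_ker {d n : ℕ} (G : SimpleGraph (Fin n)) (v0 : Fin n) (t : Fin d × J n → ℝ)
    (y : Fin d × Fin n → ℝ) :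
    (N G v0 t).mulVec y = 0 ↔ (R G t).mulVec y = 0 ∧ ∀ k, y (k, v0) = 0 := by
  constructor
  · intro h
    have h1 : y ⬝ᵥ (N G v0 t).mulVec y = 0 := by rw [h]; simp
    rw [N, Matrix.add_mulVec, dotProduct_add, ← Matrix.mulVec_mulVec, Matrix.dotProduct_mulVec,
      Matrix.vecMul_transpose] at h1
    have a1 : 0 ≤ (R G t).mulVec y ⬝ᵥ (R G t).mulVec y :=
      sum_nonneg fun i _ => mul_self_nonneg _
    have hterm : ∀ x : Fin d × Fin n, 0 ≤ y x * (Matrix.diagonal
        (fun x : Fin d × Fin n => if x.2 = v0 then (1 : ℝ) else 0)).mulVec y x := by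
      intro x
      rw [Matrix.mulVec_diagonal]
      split_ifs
      · simpa using mul_self_nonneg _
      · simp
    have a2 : 0 ≤ y ⬝ᵥ (Matrix.diagonal
        (fun x : Fin d × Fin n => if x.2 = v0 then (1 : ℝ) else 0)).mulVec y :=
      sum_nonneg fun x _ => hterm x
    constructor
    · exact dotProduct_self_eq_zero.1 (by linarith)
    · intro k
      have a3 : y ⬝ᵥ (Matrix.diagonal
        (fun x : Fin d × Fin n => if x.2 = v0 then (1 : ℝ) else 0)).mulVec y = 0 := by linarith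
      have := (sum_eq_zero_iff_of_nonneg fun x _ => hterm x).1 a3 (k, v0) (mem_univ _)
      rw [Matrix.mulVec_diagonal] at this
      simpa using this
  · rintro ⟨h1, h2⟩
    rw [N, Matrix.add_mulVec, ← Matrix.mulVec_mulVec, h1]
    funext x
    obtain ⟨k, w⟩ := x
    simp only [Matrix.mulVec_zero, zero_add, Matrix.mulVec_diagonal, Pi.zero_apply]
    split_ifs with h
    · subst h; simp [h2]
    · simp

lemma walk_const {V : Type} {G : SimpleGraph V} (f : V → ℝ) (hf : ∀ u v, G.Adj u v → f u = f v)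
    {a b : V} (h : G.Reachable a b) : f a = f b := by
  obtain ⟨w⟩ := h
  induction w with
  | nil => rfl
  | cons h _ ih => exact (hf _ _ h).trans ih

lemma ham_const {n : ℕ} {G : SimpleGraph (Fin n)} {a : Fin n} (c : G.Walk a a)
    (hc : c.IsHamiltonianCycle) (e : Sym2 (Fin n)) (f : Fin n → ℝ)
    (hf : ∀ u v, s(u, v) ∈ c.edges → s(u, v) ≠ e → f u = f v) (u : Fin n) : f u = f a := by
  set H : SimpleGraph (Fin n) := SimpleGraph.fromEdgeSet {x | x ∈ c.edges} with hH
  have hsub : ∀ x ∈ c.edges, x ∈ H.edgeSet := by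
    intro x hx
    rw [hH, SimpleGraph.edgeSet_fromEdgeSet]
    refine ⟨hx, ?_⟩
    exact G.not_isDiag_of_mem_edgeSet (c.edges_subset_edgeSet hx)
  have hcyc : (c.transfer H hsub).IsCycle := hc.isCycle.transfer hsub
  have hall : ∀ x y, H.Adj x y → f x = f y := by
    intro x y hxy
    have hm : s(x, y) ∈ c.edges := by
      rw [hH, SimpleGraph.fromEdgeSet_adj] at hxy
      exact hxy.1
    by_cases he : s(x, y) = e
    · have := (SimpleGraph.adj_and_reachable_delete_edges_iff_exists_cycle (G := H)).2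
        ⟨a, c.transfer H hsub, hcyc, by simpa using hm⟩
      refine walk_const f ?_ this.2
      intro x' y' h'
      rw [SimpleGraph.deleteEdges_adj] at h'
      apply hf
      · have := h'.1
        rw [hH, SimpleGraph.fromEdgeSet_adj] at this
        exact this.1
      · rw [← he]; simpa using h'.2
    · exact hf x y hm he
  have hu : u ∈ (c.transfer H hsub).support := by
    simpa using hc.mem_support u
  exact (walk_const f hall ((c.transfer H hsub).takeUntil u hu).reachable).symm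

lemma det_ne {d n : ℕ} (G : SimpleGraph (Fin n)) (hG : HamDecomp G d) (v0 : Fin n)
    (e : Sym2 (Fin n)) :
    (N (G.deleteEdges {e}) v0 (X : Fin d × J n → MvPolynomial _ ℝ)).det ≠ 0 := by
  classical
  obtain ⟨a, H, h1, h2, h3⟩ := hG
  intro h0
  set t : Fin d × J n → ℝ := fun i => if s(i.2.1.1, i.2.1.2) ∈ (H i.1).edges then 1 else 0 with ht
  have h4 := N_det (G.deleteEdges {e}) v0 t
  rw [h0, map_zero] at h4
  obtain ⟨y, hy0, hy⟩ := Matrix.exists_mulVec_eq_zero_iff.2 h4.symm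
  rw [N_ker] at hy
  apply hy0
  funext x
  obtain ⟨k, w⟩ := x
  have key : ∀ u v, u < v → s(u, v) ∈ (H k).edges → s(u, v) ≠ e → y (k, u) = y (k, v) := by
    intro u v huv hm hne
    have hadj : (G.deleteEdges {e}).Adj u v := by
      rw [SimpleGraph.deleteEdges_adj]
      exact ⟨(H k).edges_subset_edgeSet hm, by simpa using hne⟩
    have := congrFun hy.1 ⟨(u, v), huv⟩
    rw [R_mulVec _ _ _ _ hadj, sum_eq_single k] at this
    · simp only [ht, if_pos hm, one_mul, Pi.zero_apply] at this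
      linarith
    · intro l _ hl
      simp only [ht, if_neg (h2 k l hl.symm _ hm), zero_mul]
    · simp
  have key2 : ∀ u v, s(u, v) ∈ (H k).edges → s(u, v) ≠ e → y (k, u) = y (k, v) := by
    intro u v hm hne
    rcases lt_trichotomy u v with h | h | h
    · exact key u v h hm hne
    · rw [h]
    · rw [Sym2.eq_swap] at hm hne
      exact (key v u h hm hne).symm
  have e1 := ham_const (H k) (h1 k) e (fun u => y (k, u)) key2 w
  have e2 := ham_const (H k) (h1 k) e (fun u => y (k, u)) key2 v0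
  exact (e1.trans e2.symm).trans (hy.2 k)

lemma lq_eq (d s : ℕ) : lqNorm ((2 * s + 4 : ℕ) : ℝ≥0∞) d =
    fun x => (∑ k, x k ^ (2 * s + 4)) ^ (1 / ((2 * s + 4 : ℕ) : ℝ)) := by
  funext x
  unfold lqNorm
  rw [PiLp.norm_eq_sum (by rw [ENNReal.toReal_natCast]; positivity)]
  simp only [ENNReal.toReal_natCast, Real.rpow_natCast, Real.norm_eq_abs]
  congr 1
  apply sum_congr rfl
  intro k _
  exact Even.pow_abs ⟨s + 2, by ring⟩ _

lemma lq_deriv (d s : ℕ) (x : Fin d → ℝ) (k0 : Fin d) (hx : x k0 ≠ 0) :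
    DifferentiableAt ℝ (lqNorm ((2 * s + 4 : ℕ) : ℝ≥0∞) d) x ∧
    ∀ h, fderiv ℝ (lqNorm ((2 * s + 4 : ℕ) : ℝ≥0∞) d) x h = 0 →
      ∑ k, x k ^ (2 * s + 3) * h k = 0 := by
  rw [lq_eq]
  have hpos : 0 < ∑ k, x k ^ (2 * s + 4) := by
    have hev : Even (2 * s + 4) := ⟨s + 2, by ring⟩
    exact sum_pos' (fun k _ => hev.pow_nonneg _) ⟨k0, mem_univ _, hev.pow_pos hx⟩
  have h1 : HasFDerivAt (fun x : Fin d → ℝ => ∑ k, x k ^ (2 * s + 4)) _ x :=
    HasFDerivAt.fun_sum fun k _ => (hasFDerivAt_apply (𝕜 := ℝ) k x).pow (2 * s + 4)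
  have h2 := h1.rpow_const (p := 1 / ((2 * s + 4 : ℕ) : ℝ)) (Or.inl hpos.ne')
  refine ⟨h2.differentiableAt, ?_⟩
  intro h hh
  rw [h2.fderiv] at hh
  simp only [ContinuousLinearMap.smul_apply, ContinuousLinearMap.sum_apply,
    ContinuousLinearMap.proj_apply, smul_eq_mul, nsmul_eq_mul] at hh
  have hc : (1 / ((2 * s + 4 : ℕ) : ℝ) * (∑ k, x k ^ (2 * s + 4)) ^
      (1 / ((2 * s + 4 : ℕ) : ℝ) - 1)) ≠ 0 := by positivity
  have h3 := (mul_eq_zero.1 hh).resolve_left hc
  have h4 : ((2 * s + 4 : ℕ) : ℝ) * ∑ k, x k ^ (2 * s + 3) * h k = 0 := by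
    rw [mul_sum, ← h3]
    apply sum_congr rfl
    intro k _
    rw [show 2 * s + 4 - 1 = 2 * s + 3 by omega]
    ring
  exact (mul_eq_zero.1 h4).resolve_left (by positivity)

theorem exists_red {d n : ℕ} (hd : 1 ≤ d) (G : SimpleGraph (Fin n)) (hG : HamDecomp G d) :
    ∃ (s : ℕ) (p : Fin n → Fin d → ℝ), RedRigid ((2 * s + 4 : ℕ) : ℝ≥0∞) G p := by
  classical
  have k0 : Fin d := ⟨0, hd⟩
  have v0 : Fin n := hG.choose k0
  set P : MvPolynomial (Fin d × J n) ℝ :=
    ∏ e : Sym2 (Fin n), (N (G.deleteEdges {e}) v0 (X : Fin d × J n → MvPolynomial _ ℝ)).det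
    with hP
  have hP0 : P ≠ 0 := prod_ne_zero_iff.2 fun e _ => det_ne G hG v0 e
  obtain ⟨x, hx1, hx2⟩ := exists_generic P.support
  obtain ⟨s, hs⟩ := exp_sum P hP0 (fun i => eval x (L i)) hx1 hx2
  rw [hP, map_prod, prod_ne_zero_iff] at hs
  set p : Fin n → Fin d → ℝ := fun v k => x (k, v) with hp
  have hne : ∀ u v, u ≠ v → (p u - p v) k0 ≠ 0 := by
    intro u v huv
    rcases lt_or_gt_of_ne huv with h | h
    · simpa [L, hp] using hx1 (k0, ⟨(u, v), h⟩)
    · have := hx1 (k0, ⟨(v, u), h⟩)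
      simp only [L, map_sub, eval_X] at this
      simp only [hp, Pi.sub_apply]
      intro h0
      apply this
      linarith
  have main : ∀ e : Sym2 (Fin n), Rigid ((2 * s + 4 : ℕ) : ℝ≥0∞) (G.deleteEdges {e}) p := by
    intro e
    refine ⟨fun u v h => (lq_deriv d s _ k0 (hne u v h.ne)).1, ?_⟩
    intro m hm
    have h1 := hs e (mem_univ _)
    rw [N_det] at h1
    have h2 : (fun z : Fin d × Fin n => m z.2 z.1 - m v0 z.1) = 0 := by
      by_contra hc
      apply h1
      rw [← Matrix.exists_mulVec_eq_zero_iff]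
      refine ⟨_, hc, ?_⟩
      rw [N_ker]
      refine ⟨?_, by simp⟩
      funext j
      by_cases hj : (G.deleteEdges {e}).Adj j.1.1 j.1.2
      · rw [R_mulVec _ _ _ _ hj]
        have := (lq_deriv d s _ k0 (hne _ _ hj.ne)).2 _ (hm _ _ hj)
        rw [Pi.zero_apply, ← this]
        apply sum_congr rfl
        intro k _
        simp [L, hp]
      · rw [R_mulVec' _ _ _ _ hj]
        rfl
    intro u v
    funext k
    have a1 := congrFun h2 (k, u)
    have a2 := congrFun h2 (k, v)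
    simp only [Pi.zero_apply] at a1 a2
    linarith
  refine ⟨s, p, ?_, fun e _ => main e⟩
  have := main s(v0, v0)
  have hdel : G.deleteEdges {s(v0, v0)} = G := by
    ext u v
    rw [SimpleGraph.deleteEdges_adj]
    constructor
    · exact fun h => h.1
    · intro h
      refine ⟨h, ?_⟩
      intro h'
      have h' : s(u, v) = s(v0, v0) := h'
      have := h.ne
      simp only [Sym2.eq_iff, or_self] at h'
      exact this (h'.1.trans h'.2.symm)
  rwa [hdel] at this

end Pool.Agent.H5.LqRigid
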