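import Pool.Agent.H5.Simons

set_option autoImplicit false

open Filter Topology

namespace Pool.Agent.H5.NoL1

variable {X : Type} [NormedAddCommGroup X] [NormedSpace ℝ X]

/-- every zero-one pattern along the sequence is realised by a functional -/
def Ind (x : ℕ → X) : Prop :=
  ∀ A : Set ℕ, ∃ g : X →L[ℝ] ℝ, ∀ n, (n ∈ A → g (x n) = 1) ∧ (n ∉ A → g (x n) = 0)

lemma ind_of_l1 (T : lp (fun _ : ℕ => ℝ) 1 →L[ℝ] X) {c : ℝ} (hc : 0 < c)
    (hT : ∀ y, c * ‖y‖ ≤ ‖T y‖) : Ind fun n => T (lp.single 1 n 1) := by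
  classical
  intro A
  have h1 : ∀ a : lp (fun _ : ℕ => ℝ) 1, HasSum (fun i => |a i|) ‖a‖ := fun a => by
    simpa using lp.hasSum_norm (p := 1) (by norm_num) a
  have h2 : ∀ (a : lp (fun _ : ℕ => ℝ) 1) (i : ℕ), ‖if i ∈ A then a i else 0‖ ≤ |a i| :=
    fun a i => by split_ifs <;> simp
  have h3 : ∀ a : lp (fun _ : ℕ => ℝ) 1, Summable fun i => if i ∈ A then a i else 0 := fun a =>
    Summable.of_norm_bounded (h1 a).summable (h2 a)
  let ψ : (lp (fun _ : ℕ => ℝ) 1) →ₗ[ℝ] ℝ :=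
    { toFun := fun a => ∑' i, if i ∈ A then a i else 0
      map_add' := fun a b => by
        rw [← (h3 a).tsum_add (h3 b)]
        exact tsum_congr fun i => by split_ifs <;> simp
      map_smul' := fun r a => by
        rw [RingHom.id_apply, smul_eq_mul, ← tsum_mul_left]
        exact tsum_congr fun i => by split_ifs <;> simp }
  have hψ : ∀ a, ‖ψ a‖ ≤ ‖a‖ := fun a => tsum_of_norm_bounded (h1 a) (h2 a)
  have hinj : Function.Injective T.toLinearMap := by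
    rw [← LinearMap.ker_eq_bot, LinearMap.ker_eq_bot']
    intro y hy
    have h4 := hT y
    have h5 : T y = 0 := hy
    rw [h5, norm_zero] at h4
    exact norm_le_zero_iff.1 (by by_contra h6; linarith [mul_pos hc (not_le.1 h6)])
  let e := LinearEquiv.ofInjective T.toLinearMap hinj
  let f : StrongDual ℝ (LinearMap.range T.toLinearMap) :=
    (ψ.comp e.symm.toLinearMap).mkContinuous c⁻¹ fun z => by
      have h4 := hT (e.symm z)
      have h5 : T (e.symm z) = z := congrArg Subtype.val (e.apply_symm_apply z)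
      rw [h5] at h4
      refine (hψ _).trans ?_
      rw [le_inv_mul_iff₀ hc]
      exact h4
  obtain ⟨g, hg, -⟩ := exists_extension_norm_eq _ f
  have h6 : ∀ n, g (T (lp.single 1 n 1)) = if n ∈ A then 1 else 0 := fun n => by
    have h7 := hg (e (lp.single 1 n 1))
    have h8 : f (e (lp.single 1 n 1)) = ψ (lp.single 1 n 1) := congrArg ψ (e.symm_apply_apply _)
    refine (h7.trans h8).trans ?_
    show (∑' i, if i ∈ A then (lp.single 1 n (1 : ℝ) : lp (fun _ : ℕ => ℝ) 1) i else 0) = _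
    rw [tsum_eq_single n fun i hi => by rw [lp.single_apply_ne _ _ _ hi]; simp]
    rw [lp.single_apply_self]
  exact ⟨g, fun n => ⟨fun h => by rw [h6, if_pos h], fun h => by rw [h6, if_neg h]⟩⟩

lemma Ind.comp {x : ℕ → X} (h : Ind x) {φ : ℕ → ℕ} (hφ : Function.Injective φ) :
    Ind fun n => x (φ n) := fun A => by
  obtain ⟨g, hg⟩ := h (φ '' A)
  exact ⟨g, fun n => ⟨fun h1 => (hg _).1 ⟨n, h1, rfl⟩,
    fun h1 => (hg _).2 fun h2 => h1 ((hφ.mem_set_image).1 h2)⟩⟩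

lemma Ind.diff {x : ℕ → X} (h : Ind x) : Ind fun n => x (2 * n) - x (2 * n + 1) := fun A => by
  obtain ⟨g, hg⟩ := h ((fun n => 2 * n) '' A)
  have h1 : ∀ n, g (x (2 * n + 1)) = 0 := fun n => (hg _).2 (by
    rintro ⟨k, -, hk⟩
    simp only at hk
    omega)
  refine ⟨g, fun n => ⟨fun h2 => ?_, fun h2 => ?_⟩⟩
  · rw [map_sub, h1, (hg _).1 ⟨n, h2, rfl⟩, sub_zero]
  · rw [map_sub, h1, (hg _).2, sub_zero]
    rintro ⟨k, hk, hk'⟩
    simp only at hk'
    exact h2 ((show k = n by omega) ▸ hk)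

lemma kill {x : ℕ → X} {C : ℝ} (hx : ∀ n, ‖x n‖ ≤ C) (hi : Ind x) {ι : Type} [Countable ι]
    (f : ι → X →L[ℝ] ℝ) :
    ∃ y : ℕ → X, (∀ n, ‖y n‖ ≤ 2 * C) ∧ Ind y ∧
      (∀ i, Tendsto (fun n => f i (y n)) atTop (𝓝 0)) ∧
      ∀ g : X →L[ℝ] ℝ, Tendsto (fun n => g (x n)) atTop (𝓝 0) →
        Tendsto (fun n => g (y n)) atTop (𝓝 0) := by
  have hK : IsCompact (Set.pi Set.univ fun i : ι => Metric.closedBall (0 : ℝ) (‖f i‖ * C)) :=
    isCompact_univ_pi fun i => isCompact_closedBall _ _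
  obtain ⟨L, -, φ, hφ, hL⟩ := hK.tendsto_subseq (x := fun n i => f i (x n)) fun n i _ => by
    rw [mem_closedBall_zero_iff]
    exact ((f i).le_opNorm _).trans (by gcongr; exact hx n)
  have h2 : Tendsto (fun n => 2 * n) atTop atTop :=
    tendsto_atTop_mono (fun n => by show n ≤ 2 * n; omega) tendsto_id
  have h3 : Tendsto (fun n => 2 * n + 1) atTop atTop :=
    tendsto_atTop_mono (fun n => by show n ≤ 2 * n + 1; omega) tendsto_id
  have key : ∀ (g : X →L[ℝ] ℝ) (l : ℝ), Tendsto (fun n => g (x (φ n))) atTop (𝓝 l) →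
      Tendsto (fun n => g (x (φ (2 * n)) - x (φ (2 * n + 1)))) atTop (𝓝 0) := fun g l h => by
    have h4 := (h.comp h2).sub (h.comp h3)
    rw [sub_self] at h4
    exact h4.congr fun n => (map_sub g _ _).symm
  refine ⟨fun n => x (φ (2 * n)) - x (φ (2 * n + 1)), fun n => ?_, (hi.comp hφ.injective).diff,
    fun i => key _ _ (tendsto_pi_nhds.1 hL i), fun g hg => key g 0 (hg.comp hφ.tendsto_atTop)⟩
  linarith [norm_sub_le (x (φ (2 * n))) (x (φ (2 * n + 1))), hx (φ (2 * n)), hx (φ (2 * n + 1))]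

lemma thin_step {Δ : Type} (β : ℕ → Δ → ℝ) {C : ℝ}
    (h : ∀ F : Finset Δ, ∀ᶠ n in atTop, ∑ c ∈ F, |β n c| ≤ C) {ε : ℝ} (hε : 0 < ε)
    (N : Set ℕ) (hN : N.Infinite) :
    ∃ N' ⊆ N, N'.Infinite ∧ ∃ F : Finset Δ, ∀ c ∉ F, ∀ᶠ n in atTop, n ∈ N' → |β n c| < ε := by
  classical
  by_contra hcon
  push Not at hcon
  have h1 : ∀ r : ℕ, ∃ N' ⊆ N, N'.Infinite ∧ ∃ F : Finset Δ, F.card = r ∧
      ∀ c ∈ F, ∀ n ∈ N', ε ≤ |β n c| := by
    intro r
    induction r with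
    | zero => exact ⟨N, subset_rfl, hN, ∅, rfl, by simp⟩
    | succ r ih =>
      obtain ⟨N', h1, h2, F, h3, h4⟩ := ih
      obtain ⟨c, hc, h5⟩ := hcon N' h1 h2 F
      refine ⟨{n | n ∈ N' ∧ ε ≤ |β n c|}, fun n hn => h1 hn.1,
        Nat.frequently_atTop_iff_infinite.1 h5, insert c F,
        by rw [Finset.card_insert_of_notMem hc, h3], fun c' hc' n hn => ?_⟩
      rcases Finset.mem_insert.1 hc' with rfl | h6
      · exact hn.2
      · exact h4 c' h6 n hn.1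
  obtain ⟨r, hr⟩ := exists_nat_gt (C / ε)
  obtain ⟨N', -, h2, F, h3, h4⟩ := h1 r
  obtain ⟨n, hn1, hn2⟩ := ((Nat.frequently_atTop_iff_infinite.2 h2).and_eventually (h F)).exists
  have h5 := Finset.card_nsmul_le_sum F (fun c => |β n c|) ε fun c hc => h4 c hc n hn1
  rw [h3, nsmul_eq_mul] at h5
  rw [div_lt_iff₀ hε] at hr
  linarith

lemma thin {Δ : Type} (β : ℕ → Δ → ℝ) {C : ℝ}
    (h : ∀ F : Finset Δ, ∀ᶠ n in atTop, ∑ c ∈ F, |β n c| ≤ C) :
    ∃ φ : ℕ → ℕ, StrictMono φ ∧ ∃ S : Set Δ, S.Countable ∧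
      ∀ c ∉ S, Tendsto (fun n => β (φ n) c) atTop (𝓝 0) := by
  have h1 : ∀ (k : ℕ) (N : {N : Set ℕ // N.Infinite}), ∃ N' : {N : Set ℕ // N.Infinite},
      N'.1 ⊆ N.1 ∧ ∃ F : Finset Δ, ∀ c ∉ F, ∀ᶠ n in atTop,
        n ∈ N'.1 → |β n c| < 1 / ((k : ℝ) + 1) := fun k N => by
    obtain ⟨N', h1, h2, h3⟩ := thin_step β h (ε := 1 / ((k : ℝ) + 1)) (by positivity) N.1 N.2
    exact ⟨⟨N', h2⟩, h1, h3⟩
  choose G hG F hF using h1
  let N : ℕ → {N : Set ℕ // N.Infinite} := fun k =>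
    Nat.rec ⟨Set.univ, Set.infinite_univ⟩ (fun k N => G k N) k
  have hN : Antitone fun k => (N k).1 := antitone_nat_of_succ_le fun k => hG k (N k)
  obtain ⟨φ, hφ, hφN⟩ := extraction_forall_of_frequently (P := fun k n => n ∈ (N k).1)
    fun k => Nat.frequently_atTop_iff_infinite.2 (N k).2
  refine ⟨φ, hφ, ⋃ k, (F k (N k) : Set Δ), Set.countable_iUnion fun k => (F k _).countable_toSet,
    fun c hc => ?_⟩
  rw [Metric.tendsto_nhds]
  intro ε hε
  obtain ⟨k, hk⟩ := exists_nat_one_div_lt hε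
  have h2 := hF k (N k) c fun h3 => hc (Set.mem_iUnion.2 ⟨k, h3⟩)
  filter_upwards [hφ.tendsto_atTop.eventually h2, eventually_ge_atTop (k + 1)] with n h3 h4
  rw [Real.dist_eq, sub_zero]
  exact (h3 (hN h4 (hφN n))).trans hk

/-- a bounded sequence killed by a boundary cannot realise all patterns -/
lemma not_ind [CompleteSpace X] {z : ℕ → X} {C : ℝ} (hz : ∀ n, ‖z n‖ ≤ C)
    (hb : ∀ x : X, ∃ b ∈ Simons.J x, Tendsto (fun n => b (z n)) atTop (𝓝 0)) : ¬ Ind z := by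
  intro hi
  obtain ⟨g, hg⟩ := hi Set.univ
  have hC : 0 < C + 1 := by linarith [norm_nonneg (z 0), hz 0]
  have hg1 : 0 < ‖g‖ + 1 := by positivity
  have h := Simons.simons (u := fun n => (C + 1)⁻¹ • z n) (β := 0) (q := 0) (fun n => by
      rw [norm_smul, norm_inv, Real.norm_of_nonneg hC.le, inv_mul_le_iff₀ hC]
      linarith [hz n]) one_pos (fun x _ => by
      obtain ⟨b, hb1, hb2⟩ := hb x
      refine ⟨b, hb1, fun τ hτ => ?_⟩
      have h1 := hb2.const_mul (C + 1)⁻¹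
      rw [mul_zero] at h1
      filter_upwards [h1.eventually (gt_mem_nhds hτ)] with k hk
      rw [map_smul, smul_eq_mul, zero_add]
      exact hk.le)
    (g := (‖g‖ + 1)⁻¹ • g) (by
      rw [norm_smul, norm_inv, Real.norm_of_nonneg hg1.le, inv_mul_le_iff₀ hg1]
      linarith) (γ := (‖g‖ + 1)⁻¹ * (C + 1)⁻¹) (Frequently.of_forall fun k => by
      rw [smul_apply, map_smul, (hg k).1 trivial]
      simp)
  have h2 : 0 < (‖g‖ + 1)⁻¹ * (C + 1)⁻¹ := by positivity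
  simp only [norm_zero, map_zero, sub_zero, mul_zero, zero_div, add_zero] at h
  linarith

lemma no_ell_one (h : ∀ (x : ℕ → X) (C : ℝ), (∀ n, ‖x n‖ ≤ C) → ¬ Ind x) :
    ¬ ∃ (T : lp (fun _ : ℕ => ℝ) (1 : ENNReal) →L[ℝ] X) (c : ℝ),
      0 < c ∧ ∀ y, c * ‖y‖ ≤ ‖T y‖ := by
  rintro ⟨T, c, hc, hT⟩
  exact h _ ‖T‖ (fun n => (T.le_opNorm _).trans (by rw [lp.norm_single (by norm_num)]; simp))
    (ind_of_l1 T hc hT)

end Pool.Agent.H5.NoL1
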