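import Mathlib

set_option autoImplicit false

namespace Pool.Agent.H5.Renorm

universe u

/-- type synonym carrying a new norm -/
def Syn (V : Type u) : Type u := V

theorem renorm (V : Type u) [NormedAddCommGroup V] [NormedSpace ℝ V] [CompleteSpace V]
    (N : V → ℝ) {a b : ℝ} (ha : 0 < a) (hadd : ∀ x y, N (x + y) ≤ N x + N y)
    (hsmul : ∀ (c : ℝ) x, N (c • x) = |c| * N x) (hl : ∀ x, a * ‖x‖ ≤ N x)
    (hu : ∀ x, N x ≤ b * ‖x‖) :
    ∃ (X : Type u) (_ : NormedAddCommGroup X) (_ : NormedSpace ℝ X) (_ : CompleteSpace X)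
      (e : V ≃L[ℝ] X), ∀ v, ‖e v‖ = N v := by
  have hN0 : N 0 = 0 := by
    have := hsmul 0 0
    simpa using this
  have hNn : ∀ v, N (-v) = N v := fun v => by
    have := hsmul (-1) v
    simpa using this
  letI i1 : AddCommGroup (Syn V) := inferInstanceAs (AddCommGroup V)
  letI i2 : Module ℝ (Syn V) := inferInstanceAs (Module ℝ V)
  let nrm : AddGroupNorm (Syn V) :=
    { toFun := N
      map_zero' := hN0
      add_le' := hadd
      neg' := hNn
      eq_zero_of_map_eq_zero' := fun v h => by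
        have h1 := hl v
        have h2 : N v = 0 := h
        rw [h2] at h1
        have h3 : ‖(show V from v)‖ ≤ 0 := by
          by_contra h4
          have := mul_pos ha (not_le.1 h4)
          linarith
        exact norm_le_zero_iff.1 h3 }
  letI i3 : NormedAddCommGroup (Syn V) := nrm.toNormedAddCommGroup
  letI i4 : NormedSpace ℝ (Syn V) := { norm_smul_le := fun t v => (hsmul t v).le }
  let e0 : V ≃ₗ[ℝ] Syn V := LinearEquiv.refl ℝ V
  let e : V ≃L[ℝ] Syn V := e0.toContinuousLinearEquivOfBounds b a⁻¹ (fun x => hu x) (fun x => by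
    have h1 := hl (e0.symm x)
    have h2 : N (e0.symm x) = ‖x‖ := rfl
    rw [h2] at h1
    rw [le_inv_mul_iff₀ ha]
    exact h1)
  have i5 : CompleteSpace (Syn V) :=
    (completeSpace_congr (e := e.toLinearEquiv.toEquiv) e.isUniformEmbedding).1 inferInstance
  exact ⟨Syn V, i3, i4, i5, e, fun v => rfl⟩

/-- a norm given through its square -/
theorem renorm_sq (V : Type u) [NormedAddCommGroup V] [NormedSpace ℝ V] [CompleteSpace V]
    (P : V → ℝ) {a b : ℝ} (ha : 0 < a) (hb : 0 ≤ b)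
    (hadd : ∀ x y (t : ℝ), 0 < t → P (x + y) ≤ (1 + t) * P x + (1 + t⁻¹) * P y)
    (hsmul : ∀ (c : ℝ) x, P (c • x) = c ^ 2 * P x) (hl : ∀ x, (a * ‖x‖) ^ 2 ≤ P x)
    (hu : ∀ x, P x ≤ (b * ‖x‖) ^ 2) :
    ∃ (X : Type u) (_ : NormedAddCommGroup X) (_ : NormedSpace ℝ X) (_ : CompleteSpace X)
      (e : V ≃L[ℝ] X), ∀ v, ‖e v‖ ^ 2 = P v := by
  have h0 : ∀ x, 0 ≤ P x := fun x => (sq_nonneg _).trans (hl x)
  have hl' : ∀ x, a * ‖x‖ ≤ √(P x) := fun x => Real.le_sqrt_of_sq_le (hl x)
  have hz : ∀ x, √(P x) = 0 → x = 0 := fun x h => by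
    have h1 := hl' x
    rw [h] at h1
    by_contra h2
    have := mul_pos ha (norm_pos_iff.2 h2)
    linarith
  obtain ⟨X, i1, i2, i3, e, he⟩ := renorm V (fun v => √(P v)) (b := b) ha (fun x y => by
      show √(P (x + y)) ≤ √(P x) + √(P y)
      by_cases hx : √(P x) = 0
      · rw [hz x hx, zero_add]
        linarith [Real.sqrt_nonneg (P 0)]
      by_cases hy : √(P y) = 0
      · rw [hz y hy, add_zero]
        linarith [Real.sqrt_nonneg (P 0)]
      have hx' : 0 < √(P x) := lt_of_le_of_ne (Real.sqrt_nonneg _) (Ne.symm hx)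
      have hy' : 0 < √(P y) := lt_of_le_of_ne (Real.sqrt_nonneg _) (Ne.symm hy)
      have h1 := hadd x y (√(P y) / √(P x)) (div_pos hy' hx')
      apply Real.sqrt_le_iff.2 ⟨by positivity, h1.trans (le_of_eq ?_)⟩
      have e1 := Real.sq_sqrt (h0 x)
      have e2 := Real.sq_sqrt (h0 y)
      generalize √(P x) = s at *
      generalize √(P y) = r at *
      rw [← e1, ← e2]
      field_simp
      ring)
    (fun c x => by
      show √(P (c • x)) = |c| * √(P x)
      rw [hsmul, Real.sqrt_mul (sq_nonneg c), Real.sqrt_sq_eq_abs]) hl'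
    (fun x => Real.sqrt_le_iff.2 ⟨by positivity, hu x⟩)
  exact ⟨X, i1, i2, i3, e, fun v => by rw [he v, Real.sq_sqrt (h0 v)]⟩

end Pool.Agent.H5.Renorm
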