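import Mathlib

namespace Pool.Agent.H5.RigidConf

open Matrix

/-- Homogeneous coordinates: p i and l j are nonzero vectors for pairwise distinct points and
pairwise distinct lines of the real projective plane, with exactly the incidences inc. -/
def IsReal {n : ℕ} (inc : Fin n → Fin n → Prop) (p l : Fin n → Fin 3 → ℝ) : Prop :=
  (∀ i, p i ≠ 0) ∧ (∀ j, l j ≠ 0) ∧
  (∀ i i', i ≠ i' → ∀ c : ℝ, p i ≠ c • p i') ∧ (∀ j j', j ≠ j' → ∀ c : ℝ, l j ≠ c • l j') ∧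
  ∀ i j, p i ⬝ᵥ l j = 0 ↔ inc i j

/-- An invertible matrix carries each point and each line of the first realization to the
corresponding point and line of the second. -/
def ProjEquiv {n : ℕ} (p l q m : Fin n → Fin 3 → ℝ) : Prop :=
  ∃ T : Matrix (Fin 3) (Fin 3) ℝ, T.det ≠ 0 ∧ (∀ i, ∃ c : ℝ, c ≠ 0 ∧ T *ᵥ p i = c • q i) ∧
    ∀ j, ∀ x : Fin 3 → ℝ, x ⬝ᵥ l j = 0 ↔ (T *ᵥ x) ⬝ᵥ m j = 0

/-- The lines through each of the 21 points. -/
def tab : Fin 21 → List (Fin 21) :=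
  ![[4, 11, 14, 17],
    [6, 9, 13, 18],
    [7, 8, 15, 16],
    [7, 10, 17, 20],
    [0, 16, 17, 18],
    [6, 12, 17, 19],
    [1, 5, 15, 20],
    [2, 3, 13, 19],
    [5, 7, 9, 12],
    [3, 6, 8, 10],
    [2, 12, 18, 20],
    [1, 10, 16, 19],
    [3, 9, 14, 20],
    [0, 13, 14, 15],
    [5, 8, 14, 19],
    [1, 7, 11, 18],
    [0, 10, 11, 12],
    [2, 6, 11, 16],
    [2, 4, 9, 15],
    [0, 3, 4, 5],
    [1, 4, 8, 13]]

def inc0 (i j : Fin 21) : Prop := j ∈ tab i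

instance (i j : Fin 21) : Decidable (inc0 i j) := inferInstanceAs (Decidable (j ∈ tab i))

def P0 : Fin 21 → Fin 3 → ℤ :=
  ![![1, 0, 0],
    ![3, 1, (-1)],
    ![1, 1, (-1)],
    ![0, 1, 0],
    ![1, 1, 0],
    ![2, 1, 0],
    ![2, (-2), (-1)],
    ![4, 2, 1],
    ![2, (-1), (-2)],
    ![0, 1, 2],
    ![2, 0, (-1)],
    ![0, 0, 1],
    ![8, 1, (-4)],
    ![5, 1, (-4)],
    ![2, 1, (-4)],
    ![1, (-1), (-1)],
    ![0, 1, 1],
    ![1, 1, 1],
    ![7, (-1), (-5)],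
    ![4, (-1), (-5)],
    ![1, (-1), (-5)]]

def L0 : Fin 21 → Fin 3 → ℤ :=
  ![![1, (-1), 1],
    ![1, 1, 0],
    ![1, (-3), 2],
    ![3, (-8), 4],
    ![0, 5, (-1)],
    ![3, 2, 2],
    ![1, (-2), 1],
    ![1, 0, 1],
    ![3, (-2), 1],
    ![3, (-4), 5],
    ![1, 0, 0],
    ![0, 1, (-1)],
    ![1, (-2), 2],
    ![3, (-7), 2],
    ![0, 4, 1],
    ![3, 1, 4],
    ![1, (-1), 0],
    ![0, 0, 1],
    ![1, (-1), 2],
    ![1, (-2), 0],
    ![1, 0, 2]]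

def Sim (x v : Fin 3 → ℝ) : Prop := ∃ c : ℝ, c ≠ 0 ∧ x = c • v

lemma dot3 (x y : Fin 3 → ℝ) : x ⬝ᵥ y = x 0 * y 0 + x 1 * y 1 + x 2 * y 2 := by
  simp [dotProduct, Fin.sum_univ_three]

lemma eq3 {x y : Fin 3 → ℝ} (h0 : x 0 = y 0) (h1 : x 1 = y 1) (h2 : x 2 = y 2) : x = y := by
  funext i
  fin_cases i <;> assumption

lemma par_of_cross {a b : Fin 3 → ℝ} (hb : b ≠ 0) (h0 : a 1 * b 2 - a 2 * b 1 = 0)
    (h1 : a 2 * b 0 - a 0 * b 2 = 0) (h2 : a 0 * b 1 - a 1 * b 0 = 0) : ∃ c : ℝ, a = c • b := by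
  by_cases k0 : b 0 = 0
  · by_cases k1 : b 1 = 0
    · have k2 : b 2 ≠ 0 := fun k2 => hb (eq3 k0 k1 k2)
      refine ⟨a 2 / b 2, eq3 ?_ ?_ ?_⟩ <;> simp only [Pi.smul_apply, smul_eq_mul] <;> field_simp <;>
        linarith
    · refine ⟨a 1 / b 1, eq3 ?_ ?_ ?_⟩ <;> simp only [Pi.smul_apply, smul_eq_mul] <;> field_simp <;>
        linarith
  · refine ⟨a 0 / b 0, eq3 ?_ ?_ ?_⟩ <;> simp only [Pi.smul_apply, smul_eq_mul] <;> field_simp <;>
      linarith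

lemma resc {x : Fin 3 → ℝ} {u0 u1 u2 w0 w1 w2 : ℝ} (hx : x ≠ 0) (h : Sim x ![u0, u1, u2]) (f : ℝ)
    (e0 : u0 = f * w0) (e1 : u1 = f * w1) (e2 : u2 = f * w2) : Sim x ![w0, w1, w2] := by
  obtain ⟨c, hc, rfl⟩ := h
  refine ⟨c * f, ?_, eq3 ?_ ?_ ?_⟩
  · intro h0
    apply hx
    have hf : f = 0 := (mul_eq_zero.1 h0).resolve_left hc
    apply eq3 <;> simp [e0, e1, e2, hf]
  all_goals simp [e0, e1, e2, mul_assoc]

lemma meet {x a b : Fin 3 → ℝ} {u0 u1 u2 v0 v1 v2 w0 w1 w2 : ℝ} (hx : x ≠ 0) (ha : x ⬝ᵥ a = 0)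
    (hb : x ⬝ᵥ b = 0) (sa : Sim a ![u0, u1, u2]) (sb : Sim b ![v0, v1, v2])
    (hne : ∀ c : ℝ, a ≠ c • b) (hb0 : b ≠ 0) (f : ℝ)
    (e0 : u1 * v2 - u2 * v1 = f * w0) (e1 : u2 * v0 - u0 * v2 = f * w1)
    (e2 : u0 * v1 - u1 * v0 = f * w2) : Sim x ![w0, w1, w2] := by
  apply resc hx _ f e0 e1 e2
  obtain ⟨c, hc, rfl⟩ := sa
  obtain ⟨d, hd, rfl⟩ := sb
  rw [dot3] at ha hb
  simp only [Pi.smul_apply, smul_eq_mul, cons_val_zero, cons_val_one, cons_val] at ha hb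
  have ha' : x 0 * u0 + x 1 * u1 + x 2 * u2 = 0 := by
    apply mul_left_cancel₀ hc; linear_combination ha
  have hb' : x 0 * v0 + x 1 * v1 + x 2 * v2 = 0 := by
    apply mul_left_cancel₀ hd; linear_combination hb
  have hw : (![u1 * v2 - u2 * v1, u2 * v0 - u0 * v2, u0 * v1 - u1 * v0] : Fin 3 → ℝ) ≠ 0 := by
    intro h0
    have k0 := congrFun h0 0
    have k1 := congrFun h0 1
    have k2 := congrFun h0 2
    simp only [cons_val_zero, cons_val_one, cons_val, Pi.zero_apply] at k0 k1 k2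
    obtain ⟨e, he⟩ := par_of_cross (a := c • ![u0, u1, u2]) hb0
      (by simp; linear_combination c * d * k0) (by simp; linear_combination c * d * k1)
      (by simp; linear_combination c * d * k2)
    exact hne e he
  obtain ⟨e, he⟩ := par_of_cross (a := x) hw
    (by simp; linear_combination u0 * hb' - v0 * ha') (by simp; linear_combination u1 * hb' - v1 * ha')
    (by simp; linear_combination u2 * hb' - v2 * ha')
  refine ⟨e, ?_, he⟩
  rintro rfl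
  exact hx (by simpa using he)

lemma dot0 {x y : Fin 3 → ℝ} {u0 u1 u2 v0 v1 v2 : ℝ} (sx : Sim x ![u0, u1, u2])
    (sy : Sim y ![v0, v1, v2]) (h : x ⬝ᵥ y = 0) : u0 * v0 + u1 * v1 + u2 * v2 = 0 := by
  obtain ⟨c, hc, rfl⟩ := sx
  obtain ⟨d, hd, rfl⟩ := sy
  rw [dot3] at h
  simp only [Pi.smul_apply, smul_eq_mul, cons_val_zero, cons_val_one, cons_val] at h
  apply mul_left_cancel₀ (mul_ne_zero hc hd)
  linear_combination h

lemma par1 {x a b : Fin 3 → ℝ} (ha : x ⬝ᵥ a = 0) (sa : Sim a ![0, 0, 1]) (hb : x ⬝ᵥ b ≠ 0)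
    (sb : Sim b ![1, 0, 0]) : ∃ s : ℝ, Sim x ![1, s, 0] := by
  obtain ⟨c, hc, rfl⟩ := sa
  obtain ⟨d, hd, rfl⟩ := sb
  rw [dot3] at ha hb
  simp [hc, hd] at ha hb
  exact ⟨x 1 / x 0, x 0, hb, eq3 (by simp) (by simp; field_simp) (by simp [ha])⟩

lemma par2 {x a b : Fin 3 → ℝ} (hx : x ≠ 0) (ha : x ⬝ᵥ a = 0) (sa : Sim a ![0, 0, 1])
    (sb : Sim b ![-1, 1, 0]) (hne : ∀ c : ℝ, x ≠ c • b) :
    ∃ t : ℝ, Sim x ![(-1) * t + 1, t, 0] := by
  obtain ⟨c, hc, rfl⟩ := sa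
  obtain ⟨d, hd, rfl⟩ := sb
  rw [dot3] at ha
  simp [hc] at ha
  have h : x 0 + x 1 ≠ 0 := by
    intro h
    apply hne (x 1 / d)
    apply eq3
    · simp; field_simp; linarith
    · simp; field_simp
    · simp [ha]
  exact ⟨x 1 / (x 0 + x 1), x 0 + x 1, h, eq3 (by simp; field_simp; ring) (by simp; field_simp)
    (by simp [ha])⟩

lemma core (p l : Fin 21 → Fin 3 → ℝ) (h : IsReal inc0 p l) (p0 : Sim (p 0) ![1, 0, 0])
    (p3 : Sim (p 3) ![0, 1, 0]) (p11 : Sim (p 11) ![0, 0, 1]) (p17 : Sim (p 17) ![1, 1, 1]) :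
    (∀ i, Sim (p i) fun k => P0 i k) ∧ ∀ j, Sim (l j) fun k => L0 j k := by
  obtain ⟨hp, hl, dp, dl, hinc⟩ := h
  have hi : ∀ i j, inc0 i j → p i ⬝ᵥ l j = 0 := fun i j h => (hinc i j).2 h
  have hi' : ∀ i j, inc0 i j → l j ⬝ᵥ p i = 0 := fun i j h => by
    rw [dotProduct_comm]; exact hi i j h
  have hn : ∀ i j, ¬ inc0 i j → p i ⬝ᵥ l j ≠ 0 := fun i j h h' => h ((hinc i j).1 h')
  have l10 : Sim (l 10) ![1, 0, 0] :=
    meet (hl 10) (hi' 3 10 (by decide)) (hi' 11 10 (by decide)) p3 p11 (dp 3 11 (by decide)) (hp 11) (1) (by ring) (by ring) (by ring)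
  have l11 : Sim (l 11) ![0, (-1), 1] :=
    meet (hl 11) (hi' 0 11 (by decide)) (hi' 17 11 (by decide)) p0 p17 (dp 0 17 (by decide)) (hp 17) (1) (by ring) (by ring) (by ring)
  have p16 : Sim (p 16) ![0, (-1), (-1)] :=
    meet (hp 16) (hi 16 10 (by decide)) (hi 16 11 (by decide)) l10 l11 (dl 10 11 (by decide)) (hl 11) (1) (by ring) (by ring) (by ring)
  have l16 : Sim (l 16) ![(-1), 1, 0] :=
    meet (hl 16) (hi' 11 16 (by decide)) (hi' 17 16 (by decide)) p11 p17 (dp 11 17 (by decide)) (hp 17) (1) (by ring) (by ring) (by ring)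
  have l17 : Sim (l 17) ![0, 0, 1] :=
    meet (hl 17) (hi' 0 17 (by decide)) (hi' 3 17 (by decide)) p0 p3 (dp 0 3 (by decide)) (hp 3) (1) (by ring) (by ring) (by ring)
  have p4 : Sim (p 4) ![1, 1, 0] :=
    meet (hp 4) (hi 4 16 (by decide)) (hi 4 17 (by decide)) l16 l17 (dl 16 17 (by decide)) (hl 17) (1) (by ring) (by ring) (by ring)
  have l0 : Sim (l 0) ![(-1), 1, (-1)] :=
    meet (hl 0) (hi' 4 0 (by decide)) (hi' 16 0 (by decide)) p4 p16 (dp 4 16 (by decide)) (hp 16) (1) (by ring) (by ring) (by ring)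
  obtain ⟨s, p5⟩ : ∃ s : ℝ, Sim (p 5) ![1, s, 0] := par1 (hi 5 17 (by decide)) l17 (hn 5 10 (by decide)) l10
  have l6 : Sim (l 6) ![s, (-1), (-1)*s + 1] :=
    meet (hl 6) (hi' 5 6 (by decide)) (hi' 17 6 (by decide)) p5 p17 (dp 5 17 (by decide)) (hp 17) (1) (by ring) (by ring) (by ring)
  have p9 : Sim (p 9) ![0, (-1)*s + 1, 1] :=
    meet (hp 9) (hi 9 6 (by decide)) (hi 9 10 (by decide)) l6 l10 (dl 6 10 (by decide)) (hl 10) (1) (by ring) (by ring) (by ring)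
  have l12 : Sim (l 12) ![(-1)*s, 1, (-1)] :=
    meet (hl 12) (hi' 5 12 (by decide)) (hi' 16 12 (by decide)) p5 p16 (dp 5 16 (by decide)) (hp 16) (1) (by ring) (by ring) (by ring)
  have l19 : Sim (l 19) ![s, (-1), 0] :=
    meet (hl 19) (hi' 5 19 (by decide)) (hi' 11 19 (by decide)) p5 p11 (dp 5 11 (by decide)) (hp 11) (1) (by ring) (by ring) (by ring)
  obtain ⟨t, l1⟩ : ∃ t : ℝ, Sim (l 1) ![(-1)*t + 1, t, 0] :=
    par2 (hl 1) (hi' 11 1 (by decide)) p11 l16 (dl 1 16 (by decide))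
  have p15 : Sim (p 15) ![t, t + (-1), t + (-1)] :=
    meet (hp 15) (hi 15 1 (by decide)) (hi 15 11 (by decide)) l1 l11 (dl 1 11 (by decide)) (hl 11) (1) (by ring) (by ring) (by ring)
  have l7 : Sim (l 7) ![t + (-1), 0, (-1)*t] :=
    meet (hl 7) (hi' 3 7 (by decide)) (hi' 15 7 (by decide)) p3 p15 (dp 3 15 (by decide)) (hp 15) (1) (by ring) (by ring) (by ring)
  have p2 : Sim (p 2) ![t, t, t + (-1)] :=
    meet (hp 2) (hi 2 7 (by decide)) (hi 2 16 (by decide)) l7 l16 (dl 7 16 (by decide)) (hl 16) (1) (by ring) (by ring) (by ring)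
  have l18 : Sim (l 18) ![t + (-1), (-1)*t + 1, (-1)] :=
    meet (hl 18) (hi' 4 18 (by decide)) (hi' 15 18 (by decide)) p4 p15 (dp 4 15 (by decide)) (hp 15) (1) (by ring) (by ring) (by ring)
  have p1 : Sim (p 1) ![(-1)*s*t + t + s, (-1)*s*t + t + 2*s + (-1), (-1)*s*t + t + s + (-1)] :=
    meet (hp 1) (hi 1 6 (by decide)) (hi 1 18 (by decide)) l6 l18 (dl 6 18 (by decide)) (hl 18) (1) (by ring) (by ring) (by ring)
  have p8 : Sim (p 8) ![t, s*t + t + (-1), t + (-1)] :=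
    meet (hp 8) (hi 8 7 (by decide)) (hi 8 12 (by decide)) l7 l12 (dl 7 12 (by decide)) (hl 12) (1) (by ring) (by ring) (by ring)
  have p10 : Sim (p 10) ![(-1)*t, (-1)*t + (-1)*s + 1, s*t + (-1)*t + (-1)*s + 1] :=
    meet (hp 10) (hi 10 12 (by decide)) (hi 10 18 (by decide)) l12 l18 (dl 12 18 (by decide)) (hl 18) (1) (by ring) (by ring) (by ring)
  have l2 : Sim (l 2) ![(-1)*s*t, s*t + (-1)*s + 1, s + (-1)] :=
    meet (hl 2) (hi' 10 2 (by decide)) (hi' 17 2 (by decide)) p10 p17 (dp 10 17 (by decide)) (hp 17) (1) (by ring) (by ring) (by ring)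
  have l8 : Sim (l 8) ![s*t + (-1)*s + 1, (-1)*t, (-1)*s*t + t] :=
    meet (hl 8) (hi' 2 8 (by decide)) (hi' 9 8 (by decide)) p2 p9 (dp 2 9 (by decide)) (hp 9) (1) (by ring) (by ring) (by ring)
  have l20 : Sim (l 20) ![s*t + (-1)*t + (-1)*s + 1, 0, t] :=
    meet (hl 20) (hi' 3 20 (by decide)) (hi' 10 20 (by decide)) p3 p10 (dp 3 10 (by decide)) (hp 10) (1) (by ring) (by ring) (by ring)
  have p6 : Sim (p 6) ![t, t + (-1), (-1)*s*t + t + s + (-1)] :=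
    meet (hp 6) (hi 6 1 (by decide)) (hi 6 20 (by decide)) l1 l20 (dl 1 20 (by decide)) (hl 20) (t) (by ring) (by ring) (by ring)
  have p7 : Sim (p 7) ![1, s, (-1)*s*t + s] :=
    meet (hp 7) (hi 7 2 (by decide)) (hi 7 19 (by decide)) l2 l19 (dl 2 19 (by decide)) (hl 19) (s + (-1)) (by ring) (by ring) (by ring)
  have p14 : Sim (p 14) ![(-1)*t, (-1)*s*t, 1] :=
    meet (hp 14) (hi 14 8 (by decide)) (hi 14 19 (by decide)) l8 l19 (dl 8 19 (by decide)) (hl 19) (s + (-1)) (by ring) (by ring) (by ring)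
  have l14 : Sim (l 14) ![0, (-1), (-1)*s*t] :=
    meet (hl 14) (hi' 0 14 (by decide)) (hi' 14 14 (by decide)) p0 p14 (dp 0 14 (by decide)) (hp 14) (1) (by ring) (by ring) (by ring)
  have p13 : Sim (p 13) ![(-1)*s*t + (-1), (-1)*s*t, 1] :=
    meet (hp 13) (hi 13 0 (by decide)) (hi 13 14 (by decide)) l0 l14 (dl 0 14 (by decide)) (hl 14) (1) (by ring) (by ring) (by ring)
  have p20 : Sim (p 20) ![(-1)*s*t + t, (-1)*s*t + t + s + (-1), (-1)*s*t + t + s + (-2)] :=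
    meet (hp 20) (hi 20 1 (by decide)) (hi 20 8 (by decide)) l1 l8 (dl 1 8 (by decide)) (hl 8) (t) (by ring) (by ring) (by ring)
  have l4 : Sim (l 4) ![0, s*t + (-1)*t + (-1)*s + 2, (-1)*s*t + t + s + (-1)] :=
    meet (hl 4) (hi' 0 4 (by decide)) (hi' 20 4 (by decide)) p0 p20 (dp 0 20 (by decide)) (hp 20) (1) (by ring) (by ring) (by ring)
  have p19 : Sim (p 19) ![1, (-1)*s*t + t + s + (-1), (-1)*s*t + t + s + (-2)] :=
    meet (hp 19) (hi 19 0 (by decide)) (hi 19 4 (by decide)) l0 l4 (dl 0 4 (by decide)) (hl 4) (1) (by ring) (by ring) (by ring)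
  have l3 : Sim (l 3) ![(-1)*s^2*t + s*t + s^2, (-1), (-1)*s + 1] :=
    meet (hl 3) (hi' 7 3 (by decide)) (hi' 9 3 (by decide)) p7 p9 (dp 7 9 (by decide)) (hp 9) (1) (by ring) (by ring) (by ring)
  have l15 : Sim (l 15) ![(-1)*s*t^2 + s*t + t + (-1), s*t^2 + (-1)*s*t, (-1)*t] :=
    meet (hl 15) (hi' 2 15 (by decide)) (hi' 6 15 (by decide)) p2 p6 (dp 2 6 (by decide)) (hp 6) (1) (by ring) (by ring) (by ring)
  have e1 := dot0 p19 l3 (hi 19 3 (by decide))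
  have e2 := dot0 p13 l15 (hi 13 15 (by decide))
  have hs : s = 1 / 2 := by linear_combination (1/2) * e1
  have ht : t = 1 / 2 := by linear_combination (-1/2) * e2
  have zp0 : Sim (p 0) ![1, 0, 0] :=
    resc (hp 0) p0 (1) (by norm_num [hs, ht]) (by norm_num [hs, ht]) (by norm_num [hs, ht])
  have zp3 : Sim (p 3) ![0, 1, 0] :=
    resc (hp 3) p3 (1) (by norm_num [hs, ht]) (by norm_num [hs, ht]) (by norm_num [hs, ht])
  have zp11 : Sim (p 11) ![0, 0, 1] :=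
    resc (hp 11) p11 (1) (by norm_num [hs, ht]) (by norm_num [hs, ht]) (by norm_num [hs, ht])
  have zp17 : Sim (p 17) ![1, 1, 1] :=
    resc (hp 17) p17 (1) (by norm_num [hs, ht]) (by norm_num [hs, ht]) (by norm_num [hs, ht])
  have zl10 : Sim (l 10) ![1, 0, 0] :=
    resc (hl 10) l10 (1) (by norm_num [hs, ht]) (by norm_num [hs, ht]) (by norm_num [hs, ht])
  have zl11 : Sim (l 11) ![0, 1, (-1)] :=
    resc (hl 11) l11 (-1) (by norm_num [hs, ht]) (by norm_num [hs, ht]) (by norm_num [hs, ht])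
  have zp16 : Sim (p 16) ![0, 1, 1] :=
    resc (hp 16) p16 (-1) (by norm_num [hs, ht]) (by norm_num [hs, ht]) (by norm_num [hs, ht])
  have zl16 : Sim (l 16) ![1, (-1), 0] :=
    resc (hl 16) l16 (-1) (by norm_num [hs, ht]) (by norm_num [hs, ht]) (by norm_num [hs, ht])
  have zl17 : Sim (l 17) ![0, 0, 1] :=
    resc (hl 17) l17 (1) (by norm_num [hs, ht]) (by norm_num [hs, ht]) (by norm_num [hs, ht])
  have zp4 : Sim (p 4) ![1, 1, 0] :=
    resc (hp 4) p4 (1) (by norm_num [hs, ht]) (by norm_num [hs, ht]) (by norm_num [hs, ht])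
  have zl0 : Sim (l 0) ![1, (-1), 1] :=
    resc (hl 0) l0 (-1) (by norm_num [hs, ht]) (by norm_num [hs, ht]) (by norm_num [hs, ht])
  have zp5 : Sim (p 5) ![2, 1, 0] :=
    resc (hp 5) p5 (1/2) (by norm_num [hs, ht]) (by norm_num [hs, ht]) (by norm_num [hs, ht])
  have zl6 : Sim (l 6) ![1, (-2), 1] :=
    resc (hl 6) l6 (1/2) (by norm_num [hs, ht]) (by norm_num [hs, ht]) (by norm_num [hs, ht])
  have zp9 : Sim (p 9) ![0, 1, 2] :=
    resc (hp 9) p9 (1/2) (by norm_num [hs, ht]) (by norm_num [hs, ht]) (by norm_num [hs, ht])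
  have zl12 : Sim (l 12) ![1, (-2), 2] :=
    resc (hl 12) l12 (-1/2) (by norm_num [hs, ht]) (by norm_num [hs, ht]) (by norm_num [hs, ht])
  have zl19 : Sim (l 19) ![1, (-2), 0] :=
    resc (hl 19) l19 (1/2) (by norm_num [hs, ht]) (by norm_num [hs, ht]) (by norm_num [hs, ht])
  have zl1 : Sim (l 1) ![1, 1, 0] :=
    resc (hl 1) l1 (1/2) (by norm_num [hs, ht]) (by norm_num [hs, ht]) (by norm_num [hs, ht])
  have zp15 : Sim (p 15) ![1, (-1), (-1)] :=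
    resc (hp 15) p15 (1/2) (by norm_num [hs, ht]) (by norm_num [hs, ht]) (by norm_num [hs, ht])
  have zl7 : Sim (l 7) ![1, 0, 1] :=
    resc (hl 7) l7 (-1/2) (by norm_num [hs, ht]) (by norm_num [hs, ht]) (by norm_num [hs, ht])
  have zp2 : Sim (p 2) ![1, 1, (-1)] :=
    resc (hp 2) p2 (1/2) (by norm_num [hs, ht]) (by norm_num [hs, ht]) (by norm_num [hs, ht])
  have zl18 : Sim (l 18) ![1, (-1), 2] :=
    resc (hl 18) l18 (-1/2) (by norm_num [hs, ht]) (by norm_num [hs, ht]) (by norm_num [hs, ht])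
  have zp1 : Sim (p 1) ![3, 1, (-1)] :=
    resc (hp 1) p1 (1/4) (by norm_num [hs, ht]) (by norm_num [hs, ht]) (by norm_num [hs, ht])
  have zp8 : Sim (p 8) ![2, (-1), (-2)] :=
    resc (hp 8) p8 (1/4) (by norm_num [hs, ht]) (by norm_num [hs, ht]) (by norm_num [hs, ht])
  have zp10 : Sim (p 10) ![2, 0, (-1)] :=
    resc (hp 10) p10 (-1/4) (by norm_num [hs, ht]) (by norm_num [hs, ht]) (by norm_num [hs, ht])
  have zl2 : Sim (l 2) ![1, (-3), 2] :=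
    resc (hl 2) l2 (-1/4) (by norm_num [hs, ht]) (by norm_num [hs, ht]) (by norm_num [hs, ht])
  have zl8 : Sim (l 8) ![3, (-2), 1] :=
    resc (hl 8) l8 (1/4) (by norm_num [hs, ht]) (by norm_num [hs, ht]) (by norm_num [hs, ht])
  have zl20 : Sim (l 20) ![1, 0, 2] :=
    resc (hl 20) l20 (1/4) (by norm_num [hs, ht]) (by norm_num [hs, ht]) (by norm_num [hs, ht])
  have zp6 : Sim (p 6) ![2, (-2), (-1)] :=
    resc (hp 6) p6 (1/4) (by norm_num [hs, ht]) (by norm_num [hs, ht]) (by norm_num [hs, ht])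
  have zp7 : Sim (p 7) ![4, 2, 1] :=
    resc (hp 7) p7 (1/4) (by norm_num [hs, ht]) (by norm_num [hs, ht]) (by norm_num [hs, ht])
  have zp14 : Sim (p 14) ![2, 1, (-4)] :=
    resc (hp 14) p14 (-1/4) (by norm_num [hs, ht]) (by norm_num [hs, ht]) (by norm_num [hs, ht])
  have zl14 : Sim (l 14) ![0, 4, 1] :=
    resc (hl 14) l14 (-1/4) (by norm_num [hs, ht]) (by norm_num [hs, ht]) (by norm_num [hs, ht])
  have zp13 : Sim (p 13) ![5, 1, (-4)] :=
    resc (hp 13) p13 (-1/4) (by norm_num [hs, ht]) (by norm_num [hs, ht]) (by norm_num [hs, ht])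
  have zp20 : Sim (p 20) ![1, (-1), (-5)] :=
    resc (hp 20) p20 (1/4) (by norm_num [hs, ht]) (by norm_num [hs, ht]) (by norm_num [hs, ht])
  have zl4 : Sim (l 4) ![0, 5, (-1)] :=
    resc (hl 4) l4 (1/4) (by norm_num [hs, ht]) (by norm_num [hs, ht]) (by norm_num [hs, ht])
  have zp19 : Sim (p 19) ![4, (-1), (-5)] :=
    resc (hp 19) p19 (1/4) (by norm_num [hs, ht]) (by norm_num [hs, ht]) (by norm_num [hs, ht])
  have zl3 : Sim (l 3) ![3, (-8), 4] :=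
    resc (hl 3) l3 (1/8) (by norm_num [hs, ht]) (by norm_num [hs, ht]) (by norm_num [hs, ht])
  have zl15 : Sim (l 15) ![3, 1, 4] :=
    resc (hl 15) l15 (-1/8) (by norm_num [hs, ht]) (by norm_num [hs, ht]) (by norm_num [hs, ht])
  have zp12 : Sim (p 12) ![8, 1, (-4)] :=
    meet (hp 12) (hi 12 3 (by decide)) (hi 12 14 (by decide)) zl3 zl14 (dl 3 14 (by decide)) (hl 14) ((-3)) (by norm_num) (by norm_num) (by norm_num)
  have zp18 : Sim (p 18) ![7, (-1), (-5)] :=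
    meet (hp 18) (hi 18 2 (by decide)) (hi 18 4 (by decide)) zl2 zl4 (dl 2 4 (by decide)) (hl 4) ((-1)) (by norm_num) (by norm_num) (by norm_num)
  have zl5 : Sim (l 5) ![3, 2, 2] :=
    meet (hl 5) (hi' 6 5 (by decide)) (hi' 8 5 (by decide)) zp6 zp8 (dp 6 8 (by decide)) (hp 8) (1) (by norm_num) (by norm_num) (by norm_num)
  have zl9 : Sim (l 9) ![3, (-4), 5] :=
    meet (hl 9) (hi' 1 9 (by decide)) (hi' 8 9 (by decide)) zp1 zp8 (dp 1 8 (by decide)) (hp 8) ((-1)) (by norm_num) (by norm_num) (by norm_num)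
  have zl13 : Sim (l 13) ![3, (-7), 2] :=
    meet (hl 13) (hi' 1 13 (by decide)) (hi' 7 13 (by decide)) zp1 zp7 (dp 1 7 (by decide)) (hp 7) (1) (by norm_num) (by norm_num) (by norm_num)
  have cv : ∀ (x : Fin 3 → ℝ) (v : Fin 3 → ℤ) (a b c : ℝ), Sim x ![a, b, c] → (v 0 : ℝ) = a →
      (v 1 : ℝ) = b → (v 2 : ℝ) = c → Sim x fun k => v k := by
    intro x v a b c h e0 e1 e2
    have : (fun k => (v k : ℝ)) = ![a, b, c] := eq3 e0 e1 e2
    rwa [this]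
  constructor
  · intro i
    fin_cases i
    · exact cv _ _ _ _ _ zp0 (by simp [P0]) (by simp [P0]) (by simp [P0])
    · exact cv _ _ _ _ _ zp1 (by simp [P0]) (by simp [P0]) (by simp [P0])
    · exact cv _ _ _ _ _ zp2 (by simp [P0]) (by simp [P0]) (by simp [P0])
    · exact cv _ _ _ _ _ zp3 (by simp [P0]) (by simp [P0]) (by simp [P0])
    · exact cv _ _ _ _ _ zp4 (by simp [P0]) (by simp [P0]) (by simp [P0])
    · exact cv _ _ _ _ _ zp5 (by simp [P0]) (by simp [P0]) (by simp [P0])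
    · exact cv _ _ _ _ _ zp6 (by simp [P0]) (by simp [P0]) (by simp [P0])
    · exact cv _ _ _ _ _ zp7 (by simp [P0]) (by simp [P0]) (by simp [P0])
    · exact cv _ _ _ _ _ zp8 (by simp [P0]) (by simp [P0]) (by simp [P0])
    · exact cv _ _ _ _ _ zp9 (by simp [P0]) (by simp [P0]) (by simp [P0])
    · exact cv _ _ _ _ _ zp10 (by simp [P0]) (by simp [P0]) (by simp [P0])
    · exact cv _ _ _ _ _ zp11 (by simp [P0]) (by simp [P0]) (by simp [P0])
    · exact cv _ _ _ _ _ zp12 (by simp [P0]) (by simp [P0]) (by simp [P0])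
    · exact cv _ _ _ _ _ zp13 (by simp [P0]) (by simp [P0]) (by simp [P0])
    · exact cv _ _ _ _ _ zp14 (by simp [P0]) (by simp [P0]) (by simp [P0])
    · exact cv _ _ _ _ _ zp15 (by simp [P0]) (by simp [P0]) (by simp [P0])
    · exact cv _ _ _ _ _ zp16 (by simp [P0]) (by simp [P0]) (by simp [P0])
    · exact cv _ _ _ _ _ zp17 (by simp [P0]) (by simp [P0]) (by simp [P0])
    · exact cv _ _ _ _ _ zp18 (by simp [P0]) (by simp [P0]) (by simp [P0])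
    · exact cv _ _ _ _ _ zp19 (by simp [P0]) (by simp [P0]) (by simp [P0])
    · exact cv _ _ _ _ _ zp20 (by simp [P0]) (by simp [P0]) (by simp [P0])
  · intro i
    fin_cases i
    · exact cv _ _ _ _ _ zl0 (by simp [L0]) (by simp [L0]) (by simp [L0])
    · exact cv _ _ _ _ _ zl1 (by simp [L0]) (by simp [L0]) (by simp [L0])
    · exact cv _ _ _ _ _ zl2 (by simp [L0]) (by simp [L0]) (by simp [L0])
    · exact cv _ _ _ _ _ zl3 (by simp [L0]) (by simp [L0]) (by simp [L0])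
    · exact cv _ _ _ _ _ zl4 (by simp [L0]) (by simp [L0]) (by simp [L0])
    · exact cv _ _ _ _ _ zl5 (by simp [L0]) (by simp [L0]) (by simp [L0])
    · exact cv _ _ _ _ _ zl6 (by simp [L0]) (by simp [L0]) (by simp [L0])
    · exact cv _ _ _ _ _ zl7 (by simp [L0]) (by simp [L0]) (by simp [L0])
    · exact cv _ _ _ _ _ zl8 (by simp [L0]) (by simp [L0]) (by simp [L0])
    · exact cv _ _ _ _ _ zl9 (by simp [L0]) (by simp [L0]) (by simp [L0])
    · exact cv _ _ _ _ _ zl10 (by simp [L0]) (by simp [L0]) (by simp [L0])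
    · exact cv _ _ _ _ _ zl11 (by simp [L0]) (by simp [L0]) (by simp [L0])
    · exact cv _ _ _ _ _ zl12 (by simp [L0]) (by simp [L0]) (by simp [L0])
    · exact cv _ _ _ _ _ zl13 (by simp [L0]) (by simp [L0]) (by simp [L0])
    · exact cv _ _ _ _ _ zl14 (by simp [L0]) (by simp [L0]) (by simp [L0])
    · exact cv _ _ _ _ _ zl15 (by simp [L0]) (by simp [L0]) (by simp [L0])
    · exact cv _ _ _ _ _ zl16 (by simp [L0]) (by simp [L0]) (by simp [L0])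
    · exact cv _ _ _ _ _ zl17 (by simp [L0]) (by simp [L0]) (by simp [L0])
    · exact cv _ _ _ _ _ zl18 (by simp [L0]) (by simp [L0]) (by simp [L0])
    · exact cv _ _ _ _ _ zl19 (by simp [L0]) (by simp [L0]) (by simp [L0])
    · exact cv _ _ _ _ _ zl20 (by simp [L0]) (by simp [L0]) (by simp [L0])

lemma transport {n : ℕ} {inc : Fin n → Fin n → Prop} {p l : Fin n → Fin 3 → ℝ}
    (h : IsReal inc p l) (M N : Matrix (Fin 3) (Fin 3) ℝ) (h1 : M * N = 1) (h2 : N * M = 1) :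
    IsReal inc (fun i => M *ᵥ p i) (fun j => Nᵀ *ᵥ l j) := by
  obtain ⟨hp, hl, dp, dl, hinc⟩ := h
  have a1 : ∀ x, N *ᵥ (M *ᵥ x) = x := fun x => by rw [mulVec_mulVec, h2, one_mulVec]
  have a2 : ∀ x, Mᵀ *ᵥ (Nᵀ *ᵥ x) = x := fun x => by
    rw [mulVec_mulVec, ← transpose_mul, h2, transpose_one, one_mulVec]
  refine ⟨fun i h0 => hp i ?_, fun j h0 => hl j ?_, fun i i' hne c h0 => dp i i' hne c ?_,
    fun i i' hne c h0 => dl i i' hne c ?_, fun i j => ?_⟩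
  · rw [← a1 (p i)]; simp only at h0; rw [h0, mulVec_zero]
  · rw [← a2 (l j)]; simp only at h0; rw [h0, mulVec_zero]
  · rw [← a1 (p i)]; simp only at h0; rw [h0, mulVec_smul, a1]
  · rw [← a2 (l i)]; simp only at h0; rw [h0, mulVec_smul, a2]
  · simp only
    rw [dotProduct_mulVec, vecMul_transpose, a1]
    exact hinc i j

lemma normal (p l : Fin 21 → Fin 3 → ℝ) (h : IsReal inc0 p l) :
    ∃ M N : Matrix (Fin 3) (Fin 3) ℝ, M * N = 1 ∧ N * M = 1 ∧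
      (∀ i, Sim (M *ᵥ p i) fun k => P0 i k) ∧ ∀ j, Sim (Nᵀ *ᵥ l j) fun k => L0 j k := by
  obtain ⟨hp, hl, dp, dl, hinc⟩ := id h
  set A : Matrix (Fin 3) (Fin 3) ℝ := (Matrix.of ![p 0, p 3, p 11])ᵀ with hA
  have hAv : ∀ v : Fin 3 → ℝ, A *ᵥ v = v 0 • p 0 + v 1 • p 3 + v 2 • p 11 := by
    intro v
    funext k
    simp [hA, mulVec, dotProduct, Fin.sum_univ_three, mul_comm]
  have hdot : ∀ (v : Fin 3 → ℝ) j, (A *ᵥ v) ⬝ᵥ l j =
      v 0 * (p 0 ⬝ᵥ l j) + v 1 * (p 3 ⬝ᵥ l j) + v 2 * (p 11 ⬝ᵥ l j) := by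
    intro v j
    rw [hAv]
    simp
  have i1 := (hinc 0 17).2 (by decide)
  have i2 := (hinc 3 17).2 (by decide)
  have i3 := (hinc 3 10).2 (by decide)
  have i4 := (hinc 11 10).2 (by decide)
  have i5 := (hinc 0 11).2 (by decide)
  have i6 := (hinc 17 11).2 (by decide)
  have i7 := (hinc 11 16).2 (by decide)
  have i8 := (hinc 17 16).2 (by decide)
  have n1 : p 11 ⬝ᵥ l 17 ≠ 0 := fun h => absurd ((hinc _ _).1 h) (by decide)
  have n2 : p 0 ⬝ᵥ l 10 ≠ 0 := fun h => absurd ((hinc _ _).1 h) (by decide)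
  have n3 : p 17 ⬝ᵥ l 17 ≠ 0 := fun h => absurd ((hinc _ _).1 h) (by decide)
  have n4 : p 17 ⬝ᵥ l 10 ≠ 0 := fun h => absurd ((hinc _ _).1 h) (by decide)
  have n5 : p 11 ⬝ᵥ l 11 ≠ 0 := fun h => absurd ((hinc _ _).1 h) (by decide)
  have hdet : A.det ≠ 0 := by
    intro h0
    obtain ⟨v, hv, hv0⟩ := exists_mulVec_eq_zero_iff.2 h0
    have k1 := hdot v 17
    have k2 := hdot v 10
    rw [hv0, zero_dotProduct] at k1 k2
    have v2 : v 2 = 0 := by
      rw [i1, i2] at k1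
      exact (mul_eq_zero.1 (by linarith)).resolve_right n1
    have v0 : v 0 = 0 := by
      rw [i3, i4] at k2
      exact (mul_eq_zero.1 (by linarith)).resolve_right n2
    rw [hAv, v0, v2] at hv0
    simp only [zero_smul, zero_add, add_zero, smul_eq_zero] at hv0
    exact hv (eq3 v0 (hv0.resolve_right (hp 3)) v2)
  have hu : IsUnit A.det := isUnit_iff_ne_zero.2 hdet
  set v := A⁻¹ *ᵥ p 17 with hv
  have hv17 : A *ᵥ v = p 17 := by rw [hv, mulVec_mulVec, mul_nonsing_inv _ hu, one_mulVec]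
  have v0 : v 0 ≠ 0 := by
    intro h0
    have := hdot v 10
    rw [hv17, h0, i3, i4] at this
    exact n4 (by linarith)
  have v2 : v 2 ≠ 0 := by
    intro h0
    have := hdot v 17
    rw [hv17, h0, i1, i2] at this
    exact n3 (by linarith)
  have v1 : v 1 ≠ 0 := by
    intro h0
    have := hdot v 11
    rw [hv17, h0, i5, i6] at this
    exact mul_ne_zero v2 n5 (by linarith)
  set N := A * diagonal v with hN
  have hNdet : IsUnit N.det := by
    rw [hN, det_mul, det_diagonal, Fin.prod_univ_three, isUnit_iff_ne_zero]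
    exact mul_ne_zero hdet (mul_ne_zero (mul_ne_zero v0 v1) v2)
  have m1 : N⁻¹ * N = 1 := nonsing_inv_mul _ hNdet
  have m2 : N * N⁻¹ = 1 := mul_nonsing_inv _ hNdet
  have hNv : ∀ y : Fin 3 → ℝ,
      N *ᵥ y = (v 0 * y 0) • p 0 + (v 1 * y 1) • p 3 + (v 2 * y 2) • p 11 := by
    intro y
    rw [hN, ← mulVec_mulVec, hAv]
    simp [mulVec_diagonal]
  have back : ∀ (x y : Fin 3 → ℝ) (c : ℝ), c ≠ 0 → N *ᵥ y = c • x → Sim (N⁻¹ *ᵥ x) y := by
    intro x y c hc e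
    refine ⟨c⁻¹, inv_ne_zero hc, ?_⟩
    have : y = c • (N⁻¹ *ᵥ x) := by rw [← mulVec_smul, ← e, mulVec_mulVec, m1, one_mulVec]
    rw [this, smul_smul, inv_mul_cancel₀ hc, one_smul]
  refine ⟨N⁻¹, N, m1, m2, core _ _ (transport h N⁻¹ N m1 m2) ?_ ?_ ?_ ?_⟩
  · exact back _ _ (v 0) v0 (by rw [hNv]; simp)
  · exact back _ _ (v 1) v1 (by rw [hNv]; simp)
  · exact back _ _ (v 2) v2 (by rw [hNv]; simp)
  · exact back _ _ 1 one_ne_zero (by rw [hNv, one_smul, ← hv17, hAv]; simp)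

theorem rigid (p l q m : Fin 21 → Fin 3 → ℝ) (h : IsReal inc0 p l) (h' : IsReal inc0 q m) :
    ProjEquiv p l q m := by
  obtain ⟨M, N, a1, a2, a3, a4⟩ := normal p l h
  obtain ⟨M', N', b1, b2, b3, b4⟩ := normal q m h'
  refine ⟨N' * M, ?_, ?_, ?_⟩
  · rw [det_mul]
    exact mul_ne_zero (det_ne_zero_of_right_inverse b2) (det_ne_zero_of_right_inverse a1)
  · intro i
    obtain ⟨c, hc, e⟩ := a3 i
    obtain ⟨d, hd, e'⟩ := b3 i
    refine ⟨c / d, div_ne_zero hc hd, ?_⟩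
    have : q i = d • N' *ᵥ fun k => (P0 i k : ℝ) := by
      rw [← mulVec_smul, ← e', mulVec_mulVec, b2, one_mulVec]
    rw [← mulVec_mulVec, e, this, mulVec_smul, smul_smul, div_mul_cancel₀ _ hd]
  · intro j x
    obtain ⟨c, hc, e⟩ := a4 j
    obtain ⟨d, hd, e'⟩ := b4 j
    have k1 : x ⬝ᵥ l j = c * ((M *ᵥ x) ⬝ᵥ fun k => (L0 j k : ℝ)) := by
      rw [← smul_eq_mul, ← dotProduct_smul, ← e, dotProduct_mulVec, vecMul_transpose,
        mulVec_mulVec, a2, one_mulVec]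
    have k2 : ((N' * M) *ᵥ x) ⬝ᵥ m j = d * ((M *ᵥ x) ⬝ᵥ fun k => (L0 j k : ℝ)) := by
      rw [← smul_eq_mul d, ← dotProduct_smul, ← e', dotProduct_mulVec, vecMul_transpose,
        mulVec_mulVec]
    rw [k1, k2]
    simp [hc, hd]

lemma ne_smul (u w : Fin 3 → ℤ) (h : u 1 * w 2 - u 2 * w 1 ≠ 0 ∨ u 2 * w 0 - u 0 * w 2 ≠ 0 ∨
    u 0 * w 1 - u 1 * w 0 ≠ 0) (c : ℝ) : (fun k => (u k : ℝ)) ≠ c • fun k => (w k : ℝ) := by
  intro e
  have e0 := congrFun e 0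
  have e1 := congrFun e 1
  have e2 := congrFun e 2
  simp only [Pi.smul_apply, smul_eq_mul] at e0 e1 e2
  rcases h with h | h | h <;> apply h <;> apply Int.cast_injective (α := ℝ) <;> push_cast
  · rw [e1, e2]; ring
  · rw [e0, e2]; ring
  · rw [e0, e1]; ring

theorem real0 : IsReal inc0 (fun i k => P0 i k) (fun j k => L0 j k) := by
  have h1 : ∀ i, ∃ k, P0 i k ≠ 0 := by decide +kernel
  have h2 : ∀ i, ∃ k, L0 i k ≠ 0 := by decide +kernel
  have h3 : ∀ i j, i ≠ j → P0 i 1 * P0 j 2 - P0 i 2 * P0 j 1 ≠ 0 ∨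
      P0 i 2 * P0 j 0 - P0 i 0 * P0 j 2 ≠ 0 ∨ P0 i 0 * P0 j 1 - P0 i 1 * P0 j 0 ≠ 0 := by
    decide +kernel
  have h4 : ∀ i j, i ≠ j → L0 i 1 * L0 j 2 - L0 i 2 * L0 j 1 ≠ 0 ∨
      L0 i 2 * L0 j 0 - L0 i 0 * L0 j 2 ≠ 0 ∨ L0 i 0 * L0 j 1 - L0 i 1 * L0 j 0 ≠ 0 := by
    decide +kernel
  have h5 : ∀ i j, P0 i 0 * L0 j 0 + P0 i 1 * L0 j 1 + P0 i 2 * L0 j 2 = 0 ↔ inc0 i j := by
    decide +kernel
  refine ⟨fun i h0 => ?_, fun i h0 => ?_, fun i j hij => ne_smul _ _ (h3 i j hij),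
    fun i j hij => ne_smul _ _ (h4 i j hij), fun i j => ?_⟩
  · obtain ⟨k, hk⟩ := h1 i
    exact hk (by simpa using congrFun h0 k)
  · obtain ⟨k, hk⟩ := h2 i
    exact hk (by simpa using congrFun h0 k)
  · rw [← h5, dot3]
    beta_reduce
    exact_mod_cast Iff.rfl

end Pool.Agent.H5.RigidConf
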