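import Pool.Agent.H5.Gauss

set_option autoImplicit false

open Finset

namespace Pool.Agent.H5.Rotund

/-- binary trees with real labels -/
inductive Tr : Type
  | nil : Tr
  | cons (a : ℝ) (t r : Tr) : Tr

def dp : Tr → ℕ
  | .nil => 0
  | .cons _ t r => dp t + dp r + 1

def enc : List (ℝ × Tr) → Tr
  | [] => .nil
  | x :: l => .cons x.1 x.2 (enc l)

lemma enc_inj : ∀ l l' : List (ℝ × Tr), enc l = enc l' → l = l'
  | [], [], _ => rfl
  | [], _ :: _, h => by simp [enc] at h
  | _ :: _, [], h => by simp [enc] at h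
  | x :: l, y :: l', h => by
    simp only [enc, Tr.cons.injEq] at h
    rw [enc_inj l l' h.2.2, Prod.ext h.1 h.2.1]

lemma dp_lt_enc : ∀ (l : List (ℝ × Tr)) (x : ℝ × Tr), x ∈ l → dp x.2 < dp (enc l)
  | [], _, h => by simp at h
  | y :: l, x, h => by
    rcases List.mem_cons.1 h with rfl | h
    · simp only [enc, dp]; omega
    · have := dp_lt_enc l x h
      simp only [enc, dp]; omega

abbrev V : Type := Tr →₀ ℝ

noncomputable def rep (v : V) : Tr := enc (v.support.toList.map fun γ => (v γ, γ))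

lemma rep_aux {v v' : V} (h : rep v = rep v') {γ : Tr} (hγ : v γ ≠ 0) : v' γ = v γ := by
  have h1 := enc_inj _ _ h
  have h2 : (v γ, γ) ∈ v.support.toList.map fun γ => (v γ, γ) :=
    List.mem_map.2 ⟨γ, by simpa using hγ, rfl⟩
  rw [h1] at h2
  obtain ⟨δ, -, h3⟩ := List.mem_map.1 h2
  have h4 : δ = γ := congrArg Prod.snd h3
  subst h4
  exact congrArg Prod.fst h3

lemma rep_inj : Function.Injective rep := by
  intro v v' h
  ext γ
  by_cases h1 : v γ = 0
  · by_contra h2
    have h3 : v' γ ≠ 0 := fun h4 => h2 (h1.trans h4.symm)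
    exact h2 (rep_aux h.symm h3)
  · exact (rep_aux h h1).symm

lemma dp_lt {v : V} {γ : Tr} (h : v γ ≠ 0) : dp γ < dp (rep v) :=
  dp_lt_enc _ (v γ, γ) (List.mem_map.2 ⟨γ, by simpa using h, rfl⟩)

open Classical in
noncomputable def lab (γ : Tr) : Tr ⊕ Tr →₀ ℝ :=
  (Function.invFun rep γ).embDomain Function.Embedding.inl +
    if γ ∈ Set.range rep then 0 else Finsupp.single (Sum.inr γ) 1

lemma lab_rep (v : V) : lab (rep v) = v.embDomain Function.Embedding.inl := by
  rw [lab, Function.leftInverse_invFun rep_inj v, if_pos ⟨v, rfl⟩, add_zero]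

lemma lab_inr {γ : Tr} (h : γ ∉ Set.range rep) : lab γ (Sum.inr γ) = 1 := by
  rw [lab, if_neg h, Finsupp.add_apply, Finsupp.embDomain_of_notMem_range _ _ _ (by simp)]
  simp

lemma lab_inr' {γ δ : Tr} (h : lab δ (Sum.inr γ) = 1) : δ = γ := by
  rw [lab, Finsupp.add_apply, Finsupp.embDomain_of_notMem_range _ _ _ (by simp), zero_add] at h
  split_ifs at h with h1
  · simp at h
  · by_contra h2
    rw [Finsupp.single_eq_of_ne (by simpa using fun h3 => h2 h3.symm)] at h
    simp at h

lemma lab_inj : Function.Injective lab := by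
  intro γ δ h
  by_cases h1 : γ ∈ Set.range rep
  · by_cases h2 : δ ∈ Set.range rep
    · obtain ⟨v, rfl⟩ := h1
      obtain ⟨v', rfl⟩ := h2
      rw [lab_rep, lab_rep] at h
      rw [Finsupp.embDomain_injective _ h]
    · exact lab_inr' (h ▸ lab_inr h2)
  · exact (lab_inr' (h ▸ lab_inr h1)).symm

noncomputable def dsq (γ δ : Tr) : ℝ := (lab γ - lab δ).sum fun _ t => t ^ 2

lemma dsq_eq {γ δ : Tr} {U : Finset (Tr ⊕ Tr)} (h1 : (lab γ).support ⊆ U)
    (h2 : (lab δ).support ⊆ U) : dsq γ δ = ∑ i ∈ U, (lab γ i - lab δ i) ^ 2 := by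
  classical
  rw [dsq, Finsupp.sum_of_support_subset _ (Finsupp.support_sub.trans (union_subset h1 h2)) _
    (by simp)]
  simp

lemma dsq_comm (γ δ : Tr) : dsq γ δ = dsq δ γ := by
  classical
  rw [dsq_eq (U := (lab γ).support ∪ (lab δ).support) subset_union_left subset_union_right,
    dsq_eq (U := (lab γ).support ∪ (lab δ).support) subset_union_right subset_union_left]
  exact Finset.sum_congr rfl fun i _ => by ring

lemma dsq_nonneg (γ δ : Tr) : 0 ≤ dsq γ δ := Finset.sum_nonneg fun _ _ => sq_nonneg _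

noncomputable def ker (γ δ : Tr) : ℝ := 1 / 2 + 1 / 2 * Real.exp (-dsq γ δ)

lemma ker_comm (γ δ : Tr) : ker γ δ = ker δ γ := by rw [ker, ker, dsq_comm]

lemma ker_self (γ : Tr) : ker γ γ = 1 := by
  simp [ker, dsq]; norm_num

lemma half_le_ker (γ δ : Tr) : 1 / 2 ≤ ker γ δ := by
  have := Real.exp_pos (-dsq γ δ)
  rw [ker]; linarith

/-- the sum of absolute values -/
noncomputable def l1 (w : V) : ℝ := ∑ γ ∈ w.support, |w γ|

lemma ker_rep (v v' : V) : 1 - ker (rep v) (rep v') ≤ l1 (v - v') / 2 := by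
  have h1 : dsq (rep v) (rep v') ≤ l1 (v - v') ^ 2 := by
    have h2 : lab (rep v) - lab (rep v') = (v - v').embDomain Function.Embedding.inl := by
      rw [lab_rep, lab_rep]
      exact (map_sub (Finsupp.embDomain.addMonoidHom Function.Embedding.inl) v v').symm
    rw [dsq, h2, Finsupp.sum_embDomain, l1]
    refine le_trans (le_of_eq ?_) (Finset.sum_sq_le_sq_sum_of_nonneg fun _ _ => abs_nonneg _)
    exact Finset.sum_congr rfl fun i _ => (sq_abs _).symm
  have h2 : 0 ≤ l1 (v - v') := Finset.sum_nonneg fun _ _ => abs_nonneg _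
  have h3 := Real.add_one_le_exp (-dsq (rep v) (rep v'))
  have h4 := Real.exp_pos (-dsq (rep v) (rep v'))
  rw [ker]
  rcases le_total 1 (l1 (v - v')) with h | h
  · linarith
  · nlinarith

/-- the bilinear form of the kernel -/
noncomputable def B : V →ₗ[ℝ] V →ₗ[ℝ] ℝ :=
  Finsupp.linearCombination ℝ fun γ => Finsupp.linearCombination ℝ (ker γ)

lemma B_apply (p q : V) :
    B p q = ∑ γ ∈ p.support, ∑ δ ∈ q.support, p γ * q δ * ker γ δ := by
  rw [B, Finsupp.linearCombination_apply, Finsupp.sum, LinearMap.sum_apply]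
  refine Finset.sum_congr rfl fun γ _ => ?_
  rw [LinearMap.smul_apply, Finsupp.linearCombination_apply, Finsupp.sum, smul_eq_mul,
    Finset.mul_sum]
  exact Finset.sum_congr rfl fun δ _ => by rw [smul_eq_mul]; ring

lemma B_comm (p q : V) : B p q = B q p := by
  rw [B_apply, B_apply, Finset.sum_comm]
  exact Finset.sum_congr rfl fun _ _ => Finset.sum_congr rfl fun _ _ => by rw [ker_comm]; ring

lemma B_self (p : V) : ∃ U : Finset (Tr ⊕ Tr), (∀ γ ∈ p.support, (lab γ).support ⊆ U) ∧
    B p p = 1 / 2 * (∑ γ ∈ p.support, p γ) ^ 2 + 1 / 2 * ∑ γ ∈ p.support, ∑ δ ∈ p.support,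
      p γ * p δ * Real.exp (-∑ i ∈ U, (lab γ i - lab δ i) ^ 2) := by
  classical
  have h : ∀ γ ∈ p.support, (lab γ).support ⊆ p.support.biUnion fun γ => (lab γ).support :=
    fun γ hγ => Finset.subset_biUnion_of_mem (fun γ => (lab γ).support) hγ
  refine ⟨_, h, ?_⟩
  rw [B_apply, sq, Finset.sum_mul_sum, Finset.mul_sum, Finset.mul_sum, ← Finset.sum_add_distrib]
  refine Finset.sum_congr rfl fun γ hγ => ?_
  rw [Finset.mul_sum, Finset.mul_sum, ← Finset.sum_add_distrib]
  refine Finset.sum_congr rfl fun δ hδ => ?_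
  rw [ker, dsq_eq (h γ hγ) (h δ hδ)]; ring

lemma B_nonneg (p : V) : 0 ≤ B p p := by
  obtain ⟨U, -, h⟩ := B_self p
  rw [h]
  have := Gauss.gauss_nonneg p.support U (fun γ i => lab γ i) p
  positivity

lemma B_eq_zero {p : V} (h : B p p ≤ 0) : p = 0 := by
  obtain ⟨U, hU, h1⟩ := B_self p
  have h2 := Gauss.gauss_nonneg p.support U (fun γ i => lab γ i) p
  have h3 := sq_nonneg (∑ γ ∈ p.support, p γ)
  have h4 := Gauss.gauss_eq_zero p.support U (fun γ i => lab γ i) p
    (fun γ hγ δ hδ h5 => lab_inj (by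
      ext i
      by_cases hi : i ∈ U
      · exact h5 i hi
      · rw [Finsupp.notMem_support_iff.1 fun h6 => hi (hU γ hγ h6),
          Finsupp.notMem_support_iff.1 fun h6 => hi (hU δ hδ h6)])) (by linarith)
  ext γ
  by_contra h5
  exact h5 (h4 γ (Finsupp.mem_support_iff.2 h5))

lemma B_pos {p q : V} (hp : ∀ γ, 0 ≤ p γ) (hq : ∀ γ, 0 ≤ q γ) : 0 ≤ B p q := by
  rw [B_apply]
  refine Finset.sum_nonneg fun γ _ => Finset.sum_nonneg fun δ _ => ?_
  have := half_le_ker γ δ
  exact mul_nonneg (mul_nonneg (hp γ) (hq δ)) (by linarith)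

lemma B_mono {p q : V} (hp : ∀ γ, 0 ≤ p γ) (hpq : ∀ γ, p γ ≤ q γ) :
    B p p + B (q - p) (q - p) ≤ B q q := by
  have h1 : q = p + (q - p) := by abel
  have h2 := B_pos hp (q := q - p) fun γ => by simpa using hpq γ
  have h3 : B (p + (q - p)) (p + (q - p)) =
      B p p + 2 * B p (q - p) + B (q - p) (q - p) := by
    generalize q - p = d
    simp only [map_add, LinearMap.add_apply, B_comm d p]; ring
  rw [← h1] at h3
  linarith

/-- coordinatewise absolute value -/
noncomputable def A (v : V) : V := v.mapRange (fun t => |t|) abs_zero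

@[simp] lemma A_apply (v : V) (γ : Tr) : A v γ = |v γ| := rfl

noncomputable def N (v : V) : ℝ := Real.sqrt (B (A v) (A v))

lemma N_nonneg (v : V) : 0 ≤ N v := Real.sqrt_nonneg _

lemma N_sq (v : V) : N v ^ 2 = B (A v) (A v) := Real.sq_sqrt (B_nonneg _)

lemma N_eq_zero {v : V} (h : N v = 0) : v = 0 := by
  have h1 : A v = 0 := B_eq_zero (by rw [← N_sq, h]; norm_num)
  ext γ
  have := congrArg (fun p : V => p γ) h1
  simpa using this

lemma N_smul (t : ℝ) (v : V) : N (t • v) = |t| * N v := by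
  have h1 : A (t • v) = |t| • A v := by ext γ; simp [abs_mul]
  rw [N, h1, map_smul, map_smul, LinearMap.smul_apply, smul_eq_mul, smul_eq_mul, ← mul_assoc,
    Real.sqrt_mul (mul_self_nonneg _), Real.sqrt_mul_self (abs_nonneg _), N]

lemma N_add_sq (x y : V) : N (x + y) ^ 2 + B (A x + A y - A (x + y)) (A x + A y - A (x + y)) ≤
    N x ^ 2 + 2 * B (A x) (A y) + N y ^ 2 := by
  have h1 := B_mono (p := A (x + y)) (q := A x + A y) (fun γ => abs_nonneg _)
    (fun γ => by simpa using abs_add_le _ _)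
  have h2 : B (A x + A y) (A x + A y) = N x ^ 2 + 2 * B (A x) (A y) + N y ^ 2 := by
    simp only [map_add, LinearMap.add_apply, B_comm (A y) (A x), N_sq]; ring
  rw [N_sq, ← h2]
  exact h1

lemma B_le (x y : V) : B (A x) (A y) ≤ N x * N y := by
  rcases eq_or_lt_of_le (N_nonneg x) with hx | hx
  · have h1 : A x = 0 := by rw [N_eq_zero hx.symm]; ext; simp
    rw [h1, ← hx]; simp
  rcases eq_or_lt_of_le (N_nonneg y) with hy | hy
  · have h1 : A y = 0 := by rw [N_eq_zero hy.symm]; ext; simp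
    rw [h1, ← hy]; simp
  have h1 := B_nonneg (N x • A y - N y • A x)
  simp only [map_sub, map_smul, LinearMap.sub_apply, LinearMap.smul_apply, smul_eq_mul,
    B_comm (A y) (A x), ← N_sq] at h1
  have h2 : 0 < N x * N y := mul_pos hx hy
  by_contra h3
  push Not at h3
  nlinarith

lemma N_add_le (x y : V) : N (x + y) ≤ N x + N y := by
  have h1 := N_add_sq x y
  have h2 := B_nonneg (A x + A y - A (x + y))
  have h3 := B_le x y
  have h4 : N (x + y) ^ 2 ≤ (N x + N y) ^ 2 := by nlinarith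
  exact (pow_le_pow_iff_left₀ (N_nonneg _) (add_nonneg (N_nonneg _) (N_nonneg _))
    two_ne_zero).1 h4

lemma N_rotund {x y : V} (hx : N x = 1) (hy : N y = 1) (h : 2 ≤ N (x + y)) : x = y := by
  have h1 := N_add_sq x y
  have h2 := B_nonneg (A x + A y - A (x + y))
  have h3 := B_nonneg (A x - A y)
  have h4 : B (A x - A y) (A x - A y) = N x ^ 2 - 2 * B (A x) (A y) + N y ^ 2 := by
    simp only [map_sub, LinearMap.sub_apply, B_comm (A y) (A x), N_sq]; ring
  have h5 : 4 ≤ N (x + y) ^ 2 := by nlinarith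
  rw [hx, hy] at h1 h4
  have h6 : A x - A y = 0 := B_eq_zero (by linarith)
  have h7 : A x + A y - A (x + y) = 0 := B_eq_zero (by linarith)
  ext γ
  have h8 : |x γ| - |y γ| = 0 := by simpa using congrArg (fun p : V => p γ) h6
  have h9 : |x γ| + |y γ| - |x γ + y γ| = 0 := by simpa using congrArg (fun p : V => p γ) h7
  rcases abs_cases (x γ) with ⟨a1, a2⟩ | ⟨a1, a2⟩ <;>
    rcases abs_cases (y γ) with ⟨b1, b2⟩ | ⟨b1, b2⟩ <;>
    rcases abs_cases (x γ + y γ) with ⟨c1, c2⟩ | ⟨c1, c2⟩ <;> linarith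

lemma B_single (α β : Tr) (a b : ℝ) :
    B (Finsupp.single α a) (Finsupp.single β b) = a * b * ker α β := by
  simp [B]; ring

lemma B_single_A (α : Tr) {a : ℝ} (ha : 0 ≤ a) (w : V) :
    a * (l1 w / 2) ≤ B (Finsupp.single α a) (A w) := by
  have h1 : B (Finsupp.single α a) (A w) = a * ∑ δ ∈ w.support, |w δ| * ker α δ := by
    rw [B, Finsupp.linearCombination_single, LinearMap.smul_apply, smul_eq_mul,
      Finsupp.linearCombination_apply, A, Finsupp.sum_mapRange_index (by simp)]
    rfl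
  rw [h1, l1, Finset.sum_div]
  refine mul_le_mul_of_nonneg_left (Finset.sum_le_sum fun δ _ => ?_) ha
  have := half_le_ker α δ
  have := abs_nonneg (w δ)
  nlinarith

lemma N_single (α : Tr) {a : ℝ} (ha : 0 ≤ a) : N (Finsupp.single α a) = a := by
  have h1 : A (Finsupp.single α a) = Finsupp.single α a := by
    rw [A, Finsupp.mapRange_single, abs_of_nonneg ha]
  rw [N, h1, B_single, ker_self, mul_one, Real.sqrt_mul_self ha]

lemma N_sep {v v' : V} (hne : v ≠ v') (h1 : v' (rep v) = 0) (h2 : v (rep v') = 0) {r r' : ℝ}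
    (hr : 0 < r) (hr1 : r ≤ 1) (hr' : 0 < r') :
    r + r' < N ((v + Finsupp.single (rep v) r) - (v' + Finsupp.single (rep v') r')) := by
  classical
  have hαβ : rep v ≠ rep v' := fun h => hne (rep_inj h)
  have h3 : v (rep v) = 0 := by
    by_contra h; exact lt_irrefl _ (dp_lt h)
  have h4 : v' (rep v') = 0 := by
    by_contra h; exact lt_irrefl _ (dp_lt h)
  have h5 : A ((v + Finsupp.single (rep v) r) - (v' + Finsupp.single (rep v') r')) =
      A (v - v') + Finsupp.single (rep v) r + Finsupp.single (rep v') r' := by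
    ext γ
    simp only [A_apply, Finsupp.sub_apply, Finsupp.add_apply, Finsupp.single_apply]
    by_cases ha : rep v = γ
    · subst ha
      simp [hαβ.symm, h1, h3, hr.le]
    · by_cases hb : rep v' = γ
      · subst hb
        simp [hαβ, h2, h4, hr'.le]
      · simp [ha, hb]
  have h6 : 0 < l1 (v - v') := by
    obtain ⟨γ, hγ⟩ := Finsupp.support_nonempty_iff.2 (sub_ne_zero.2 hne)
    exact Finset.sum_pos' (fun _ _ => abs_nonneg _)
      ⟨γ, hγ, abs_pos.2 (Finsupp.mem_support_iff.1 hγ)⟩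
  refine lt_of_pow_lt_pow_left₀ 2 (N_nonneg _) ?_
  rw [N_sq, h5]
  have h7 := B_single_A (rep v) hr.le (v - v')
  have h8 := B_single_A (rep v') hr'.le (v - v')
  have h9 := B_nonneg (A (v - v'))
  have h10 := ker_rep v v'
  simp only [map_add, LinearMap.add_apply, B_single, ker_self,
    B_comm (A (v - v')) (Finsupp.single _ _), ker_comm (rep v') (rep v)]
  have h11 : r * r' * (1 - ker (rep v) (rep v')) ≤ r * r' * (l1 (v - v') / 2) := by gcongr
  have h12 : r * r' * l1 (v - v') ≤ 1 * r' * l1 (v - v') := by gcongr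
  have h13 : 0 < r * l1 (v - v') := by positivity
  nlinarith

lemma exists_radius : ∃ ρ : V → ℝ, ∀ v, 0 ≤ ρ v ∧ ρ v ≤ 1 ∧
    (ρ v = 0 → ∃ v', 0 < ρ v' ∧ N (v - (v' + Finsupp.single (rep v') (ρ v'))) ≤ ρ v') ∧
    (0 < ρ v → ∀ v', v (rep v') ≠ 0 → 0 < ρ v' →
      ρ v' + 2 * ρ v < N (v - (v' + Finsupp.single (rep v') (ρ v')))) := by
  classical
  have h : ∀ (v : V) (f : V → ℝ), ∃ s : ℝ, 0 ≤ s ∧ s ≤ 1 ∧
      (s = 0 → ∃ v', v (rep v') ≠ 0 ∧ 0 < f v' ∧
        N (v - (v' + Finsupp.single (rep v') (f v'))) ≤ f v') ∧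
      (0 < s → ∀ v', v (rep v') ≠ 0 → 0 < f v' →
        f v' + 2 * s < N (v - (v' + Finsupp.single (rep v') (f v')))) := by
    intro v f
    by_cases h1 : ∃ v', v (rep v') ≠ 0 ∧ 0 < f v' ∧
        N (v - (v' + Finsupp.single (rep v') (f v'))) ≤ f v'
    · exact ⟨0, le_rfl, zero_le_one, fun _ => h1, fun h2 => absurd h2 (lt_irrefl _)⟩
    push Not at h1
    have hfin : {v' : V | v (rep v') ≠ 0 ∧ 0 < f v'}.Finite :=
      (v.support.finite_toSet.preimage rep_inj.injOn).subset fun v' hv' => by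
        simpa using hv'.1
    by_cases h2 : {v' : V | v (rep v') ≠ 0 ∧ 0 < f v'}.Nonempty
    · obtain ⟨u, hu, hmin⟩ := Set.exists_min_image _
        (fun v' => N (v - (v' + Finsupp.single (rep v') (f v'))) - f v') hfin h2
      have h3 := h1 u hu.1 hu.2
      set g := N (v - (u + Finsupp.single (rep u) (f u))) - f u with hg
      have hg0 : 0 < g := by linarith
      have h4 : 0 < min 1 (g / 3) := lt_min one_pos (by positivity)
      refine ⟨min 1 (g / 3), h4.le, min_le_left _ _, fun h5 => absurd h5 h4.ne',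
        fun _ v' h5 h6 => ?_⟩
      have h7 := hmin v' ⟨h5, h6⟩
      have h8 : min 1 (g / 3) ≤ g / 3 := min_le_right _ _
      linarith
    · exact ⟨1, zero_le_one, le_rfl, fun h3 => absurd h3 one_ne_zero,
        fun _ v' h5 h6 => absurd ⟨v', h5, h6⟩ h2⟩
  choose F hF using h
  have wf : WellFounded fun u v : V => dp (rep u) < dp (rep v) :=
    InvImage.wf (fun v : V => dp (rep v)) wellFounded_lt
  let ρ : V → ℝ := wf.fix fun v ih =>
    F v fun u => if hu : dp (rep u) < dp (rep v) then ih u hu else 0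
  have hρ : ∀ v, ρ v = F v fun u => if dp (rep u) < dp (rep v) then ρ u else 0 := by
    intro v
    show wf.fix _ v = _
    rw [WellFounded.fix_eq]
    rfl
  refine ⟨ρ, fun v => ?_⟩
  obtain ⟨h1, h2, h3, h4⟩ := hF v fun u => if dp (rep u) < dp (rep v) then ρ u else 0
  rw [← hρ v] at h1 h2 h3 h4
  refine ⟨h1, h2, fun h5 => ?_, fun h5 v' h6 h7 => ?_⟩
  · obtain ⟨v', h6, h7, h8⟩ := h3 h5
    simp only [if_pos (dp_lt h6)] at h7 h8
    exact ⟨v', h7, h8⟩
  · have h8 := h4 h5 v' h6
    simp only [if_pos (dp_lt h6)] at h8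
    exact h8 h7

lemma N_zero : N 0 = 0 := by
  have := N_smul 0 0
  simpa using this

lemma N_neg (v : V) : N (-v) = N v := by
  have := N_smul (-1) v
  simpa using this

/-- the space of finitely supported functions with the kernel norm -/
def X : Type := V

noncomputable instance : AddCommGroup X := inferInstanceAs (AddCommGroup V)
noncomputable instance : Module ℝ X := inferInstanceAs (Module ℝ V)

noncomputable def nrm : AddGroupNorm X where
  toFun := N
  map_zero' := N_zero
  add_le' := N_add_le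
  neg' := N_neg
  eq_zero_of_map_eq_zero' := fun _ h => N_eq_zero h

noncomputable instance : NormedAddCommGroup X := nrm.toNormedAddCommGroup

noncomputable instance : NormedSpace ℝ X where
  norm_smul_le := fun t v => (N_smul t v).le

lemma norm_eq (v : X) : ‖v‖ = N v := rfl

lemma not_finite : ¬ FiniteDimensional ℝ X := by
  intro h
  haveI : Infinite Tr := Infinite.of_injective (fun a : ℝ => Tr.cons a .nil .nil)
    (fun a b h => by simpa using h)
  haveI : Module.Finite ℝ V := h
  exact Module.Finite.not_linearIndependent_of_infinite _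
    (Finsupp.basisSingleOne (R := ℝ) (ι := Tr)).linearIndependent

end Pool.Agent.H5.Rotund
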