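import Mathlib

set_option autoImplicit false

open Filter Topology

namespace Pool.Agent.H5.SelfAdj

universe u

variable {X : Type u} [NormedAddCommGroup X] [NormedSpace ℂ X]

structure Dual (J : X → StrongDual ℂ X) : Prop where
  nrm : ∀ x, ‖J x‖ = ‖x‖
  val : ∀ x, J x x = (‖x‖ : ℂ) ^ 2
  uniq : ∀ x (f : StrongDual ℂ X), ‖f‖ ≤ ‖x‖ → (f x).re = ‖x‖ ^ 2 → f = J x

lemma mk_dual (hs : ∀ x : X, ‖x‖ = 1 → ∃! f : StrongDual ℂ X, ‖f‖ = 1 ∧ f x = 1)
    {J : X → StrongDual ℂ X} (h1 : ∀ x, ‖J x‖ = ‖x‖) (h2 : ∀ x, J x x = (‖x‖ : ℂ) ^ 2) :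
    Dual J := by
  refine ⟨h1, h2, fun x f hf hx => ?_⟩
  rcases eq_or_ne x 0 with rfl | h0
  · rw [norm_zero] at hf
    rw [norm_le_zero_iff.1 hf, eq_comm, ← norm_eq_zero, h1, norm_zero]
  have h3 : 0 < ‖x‖ := norm_pos_iff.2 h0
  have h4 : (‖x‖ : ℂ) ≠ 0 := Complex.ofReal_ne_zero.2 h3.ne'
  have h5 : ‖f x‖ ≤ ‖x‖ ^ 2 := (f.le_of_opNorm_le hf x).trans_eq (sq _).symm
  have h6 : f x = (‖x‖ : ℂ) ^ 2 := by
    have h7 := Complex.sq_norm_sub_sq_re (f x)
    have h8 := pow_le_pow_left₀ (norm_nonneg _) h5 2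
    rw [hx] at h7
    refine Complex.ext (by rw [hx, ← Complex.ofReal_pow, Complex.ofReal_re]) ?_
    rw [← Complex.ofReal_pow, Complex.ofReal_im]
    exact pow_eq_zero_iff two_ne_zero |>.1 (le_antisymm (by linarith) (sq_nonneg _))
  have h7 : ‖f‖ = ‖x‖ := le_antisymm hf (le_of_mul_le_mul_right (by
    have h8 := f.le_opNorm x
    rwa [h6, norm_pow, Complex.norm_real, norm_norm, sq] at h8) h3)
  have h8 : ∀ g : StrongDual ℂ X, ‖g‖ = ‖x‖ → g x = (‖x‖ : ℂ) ^ 2 →
      ‖(‖x‖ : ℂ)⁻¹ • g‖ = 1 ∧ ((‖x‖ : ℂ)⁻¹ • g) ((‖x‖ : ℂ)⁻¹ • x) = 1 := fun g g1 g2 =>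
    ⟨by rw [norm_smul, norm_inv, Complex.norm_real, norm_norm, g1, inv_mul_cancel₀ h3.ne'], by
      rw [map_smul, smul_apply, g2, smul_eq_mul, smul_eq_mul]; field_simp⟩
  have h9 := (hs _ (norm_smul_inv_norm (𝕜 := ℂ) h0)).unique (h8 f h7 h6) (h8 _ (h1 x) (h2 x))
  ext y
  exact mul_left_cancel₀ (inv_ne_zero h4) (congrArg (fun g : StrongDual ℂ X => g y) h9)

variable {J : X → StrongDual ℂ X} (h : Dual J)
include h

lemma re_val (x : X) : (J x x).re = ‖x‖ ^ 2 := by
  rw [h.val, ← Complex.ofReal_pow, Complex.ofReal_re]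

lemma le_norm (x y : X) : ‖J x y‖ ≤ ‖x‖ * ‖y‖ := (J x).le_of_opNorm_le (h.nrm x).le y

lemma sub_le (x y : X) : 2 * (J x (y - x)).re ≤ ‖y‖ ^ 2 - ‖x‖ ^ 2 := by
  rw [map_sub, Complex.sub_re, re_val h]
  nlinarith [(Complex.re_le_norm _).trans (le_norm h x y), sq_nonneg (‖x‖ - ‖y‖)]

lemma cont (x w : X) : Tendsto (fun z => J z w) (𝓝 x) (𝓝 (J x w)) := by
  rw [tendsto_iff_ultrafilter]
  intro 𝒰 h𝒰
  have h0 : Tendsto (fun z : X => ‖z‖) 𝒰 (𝓝 ‖x‖) := (continuous_norm.tendsto x).mono_left h𝒰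
  obtain ⟨f, -, hl⟩ := (WeakDual.isCompact_closedBall (0 : StrongDual ℂ X)
    (‖x‖ + 1)).ultrafilter_le_nhds (𝒰.map fun z => StrongDual.toWeakDual (J z))
    (le_principal_iff.2 (mem_map.2 ((h0.eventually (gt_mem_nhds (lt_add_one _))).mono
      fun z hz => mem_closedBall_zero_iff.2 ((h.nrm z).le.trans hz.le))))
  have h1 : ∀ v, Tendsto (fun z => J z v) 𝒰 (𝓝 (f v)) := fun v =>
    ((WeakDual.eval_continuous v).tendsto f).comp hl
  have h2 : Tendsto (fun z => J z (x - z)) 𝒰 (𝓝 0) := by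
    refine squeeze_zero_norm (fun z => le_norm h z _) ?_
    simpa using h0.mul ((tendsto_id.mono_left h𝒰).const_sub x).norm
  have h3 := h.uniq x (WeakDual.toStrongDual f) (ContinuousLinearMap.opNorm_le_bound _
    (norm_nonneg _) fun v => le_of_tendsto_of_tendsto' (h1 v).norm (h0.mul_const _)
      fun z => le_norm h z v) (by
    refine tendsto_nhds_unique ((Complex.continuous_re.tendsto _).comp (h1 x)) ?_
    have h4 := ((Complex.continuous_re.tendsto _).comp h2).add (h0.pow 2)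
    rw [Complex.zero_re, zero_add] at h4
    exact h4.congr fun z => by simp [re_val h])
  rw [← h3]
  exact h1 w

lemma deriv_sq (y v : X) (s : ℝ) :
    HasDerivAt (fun s : ℝ => ‖y + (s : ℂ) • v‖ ^ 2) (2 * (J (y + (s : ℂ) • v) v).re) s := by
  have h1 : ∀ a b : ℝ, 2 * ((b - a) * (J (y + (a : ℂ) • v) v).re) ≤
      ‖y + (b : ℂ) • v‖ ^ 2 - ‖y + (a : ℂ) • v‖ ^ 2 := fun a b => by
    have h2 := sub_le h (y + (a : ℂ) • v) (y + (b : ℂ) • v)
    rwa [add_sub_add_left_eq_sub, ← sub_smul, map_smul, ← Complex.ofReal_sub, smul_eq_mul,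
      Complex.re_ofReal_mul] at h2
  have h2 : Tendsto (fun t : ℝ => (J (y + (t : ℂ) • v) v).re) (𝓝 s) (𝓝 (J (y + (s : ℂ) • v) v).re) :=
    (Complex.continuous_re.tendsto _).comp ((cont h _ v).comp
      ((show Continuous fun t : ℝ => y + (t : ℂ) • v by fun_prop).tendsto s))
  rw [hasDerivAt_iff_isLittleO, Asymptotics.isLittleO_iff]
  intro c hc
  filter_upwards [Metric.tendsto_nhds.1 h2 _ (half_pos hc)] with t ht
  have h3 := (le_abs_self _).trans ((abs_mul (t - s) _).trans_le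
    (mul_le_mul_of_nonneg_left ht.le (abs_nonneg _)))
  rw [Real.norm_eq_abs, Real.norm_eq_abs, smul_eq_mul, abs_of_nonneg (by linarith [h1 s t])]
  linarith [h1 t s]

omit h in
def SA (J : X → StrongDual ℂ X) (T : X →L[ℂ] X) : Prop := ∀ x y, J (T x) y = J x (T y)

omit h in
inductive Pol (A : X →L[ℂ] X) : (X →L[ℂ] X) → Prop
  | pow (k : ℕ) : Pol A (A ^ k)
  | add {B C : X →L[ℂ] X} : Pol A B → Pol A C → Pol A (B + C)
  | smul (c : ℝ) {B : X →L[ℂ] X} : Pol A B → Pol A ((c : ℂ) • B)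

omit h in
lemma Pol.mul {A B C : X →L[ℂ] X} (hB : Pol A B) (hC : Pol A C) : Pol A (B * C) := by
  induction hB with
  | pow k =>
    induction hC with
    | pow l => exact pow_add A k l ▸ Pol.pow _
    | add _ _ h1 h2 => exact mul_add (A ^ k) _ _ ▸ h1.add h2
    | smul c _ h1 => exact mul_smul_comm (c : ℂ) (A ^ k) _ ▸ h1.smul c
  | add _ _ h1 h2 => exact add_mul _ _ C ▸ h1.add h2
  | smul c _ h1 => exact smul_mul_assoc (c : ℂ) _ C ▸ h1.smul c

omit h in
lemma Pol.comm {A B C : X →L[ℂ] X} (hB : Pol A B) (hC : Commute C A) : Commute C B := by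
  induction hB with
  | pow k => exact hC.pow_right k
  | add _ _ h1 h2 => exact h1.add_right h2
  | smul c _ h1 => exact h1.smul_right _

omit h in
lemma Pol.pow' {A B : X →L[ℂ] X} (hB : Pol A B) (k : ℕ) : Pol A (B ^ k) := by
  induction k with
  | zero => exact Pol.pow 0
  | succ k ih => exact pow_succ B k ▸ ih.mul hB

lemma Pol.deriv {T B : X →L[ℂ] X} (hT : SA J T) (hB : Pol (T * T) B) (y v : X) (s : ℝ) :
    HasDerivAt (fun s : ℝ => (J (y + (s : ℂ) • v) (B (y + (s : ℂ) • v))).re)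
      (2 * (J (y + (s : ℂ) • v) (B v)).re) s := by
  induction hB with
  | pow k =>
    have h1 : SA J (T ^ k) := by
      induction k with
      | zero => exact fun x y => rfl
      | succ k ih =>
        intro x y
        rw [pow_succ, mul_apply_eq_comp, ih, hT, ← pow_succ, pow_succ']
        rfl
    have h2 : ∀ a b, J a (((T * T) ^ k) b) = J ((T ^ k) a) ((T ^ k) b) := fun a b => by
      rw [(Commute.refl T).mul_pow, h1]; rfl
    simp only [h2, re_val h, map_add (T ^ k), map_smul (T ^ k)]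
    exact deriv_sq h _ _ s
  | add _ _ h1 h2 =>
    simp only [add_apply, map_add (J _), Complex.add_re, mul_add]
    exact h1.add h2
  | smul c _ h1 =>
    simp only [smul_apply, map_smul (J _), smul_eq_mul, Complex.re_ofReal_mul]
    exact (h1.const_mul c).congr_deriv (mul_left_comm _ _ _)

omit h in
lemma ode {d : ℕ → ℝ → ℝ} {w C : ℝ} (hw : 0 < w) (hw1 : w < 1) (h0 : ∀ k, d k 0 = 0)
    (hd : ∀ k s, HasDerivAt (fun s => d k s - s * d (k + 1) s) (-2 * d (k + 1) s) s)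
    (hb : ∀ k, ∀ s ∈ Set.Icc (0 : ℝ) 1, |d k s| ≤ C * w ^ k) (k : ℕ) : d k 1 = 0 := by
  obtain ⟨Λ, hΛ, hΛ'⟩ : ∃ Λ : ℝ, 0 < Λ ∧ 2 * w / Λ = (1 - w) / 2 :=
    ⟨4 * w / (1 - w), div_pos (by linarith) (by linarith), by field_simp; ring⟩
  have hC : 0 ≤ C := by simpa [h0] using hb 0 0 ⟨le_rfl, zero_le_one⟩
  have h1 : ∀ n k, ∀ s ∈ Set.Icc (0 : ℝ) 1,
      |d k s| ≤ ((1 + w) / 2) ^ n * (C * w ^ k * Real.exp (Λ * s)) := fun n => by
    induction n with
    | zero =>
      intro k s hs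
      rw [pow_zero, one_mul]
      exact (hb k s hs).trans (le_mul_of_one_le_right (by positivity)
        (Real.one_le_exp (mul_nonneg hΛ.le hs.1)))
    | succ n ih =>
      intro k s hs
      have h2 := image_norm_le_of_norm_deriv_right_le_deriv_boundary
        (fun s _ => (hd k s).continuousAt.continuousWithinAt) (fun s _ => (hd k s).hasDerivWithinAt)
        (B := fun s => 2 * w / Λ * (((1 + w) / 2) ^ n * (C * w ^ k * Real.exp (Λ * s))))
        (by simp only [h0, mul_zero, sub_zero, norm_zero]; positivity)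
        (fun s => (((((hasDerivAt_id s).const_mul Λ).exp).const_mul _).const_mul _).const_mul _)
        (fun s hs => by
          rw [norm_mul, norm_neg, Real.norm_two]
          refine (mul_le_mul_of_nonneg_left (ih (k + 1) s ⟨hs.1, hs.2.le⟩) zero_le_two).trans_eq ?_
          simp only [id]
          field_simp
          ring) hs
      have h3 := (mul_le_of_le_one_left (abs_nonneg _) hs.2).trans (ih (k + 1) s hs)
      have h4 := abs_add_le (d k s - s * d (k + 1) s) (s * d (k + 1) s)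
      rw [sub_add_cancel, abs_mul, abs_of_nonneg hs.1] at h4
      rw [Real.norm_eq_abs, hΛ'] at h2
      rw [pow_succ] at h3 ⊢
      linarith
  have h2 := (tendsto_pow_atTop_nhds_zero_of_lt_one (r := (1 + w) / 2) (by positivity)
    (by linarith)).mul_const (C * w ^ k * Real.exp (Λ * 1))
  rw [zero_mul] at h2
  exact abs_nonpos_iff.1 (ge_of_tendsto' h2 fun n => h1 n k 1 ⟨zero_le_one, le_rfl⟩)

lemma sa_one_sub [CompleteSpace X] {T W : X →L[ℂ] X} (hT : SA J T) (hW : Pol (T * T) W)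
    (hn : ‖W‖ < 1) : SA J (1 - W) := by
  have h1 : ∀ y, ‖(1 - W) y‖ ^ 2 = (J y (((1 - W) * (1 - W)) y)).re := fun y => by
    obtain ⟨w, w0, w1, w2⟩ : ∃ w : ℝ, 0 < w ∧ w < 1 ∧ ‖W‖ ≤ w :=
      ⟨(1 + ‖W‖) / 2, by positivity, by linarith, by linarith⟩
    have p1 : ∀ k, (W ^ k) (W y) = (W ^ (k + 1)) y := fun k => by rw [pow_succ]; rfl
    have p2 : ∀ k, ‖(W ^ k) y‖ ≤ ‖y‖ * w ^ k := fun k => by
      induction k with
      | zero => simp
      | succ k ih =>
        rw [pow_succ', pow_succ', mul_left_comm]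
        exact (W.le_of_opNorm_le w2 _).trans (mul_le_mul_of_nonneg_left ih w0.le)
    let a : ℕ → ℝ → ℝ := fun k s => (J (y + (s : ℂ) • -W y) ((W ^ k) y)).re
    have p3 : ∀ k (s : ℝ), (J (y + (s : ℂ) • -W y) ((W ^ k) (y + (s : ℂ) • -W y))).re =
        a k s - s * a (k + 1) s := fun k s => by
      rw [map_add (W ^ k), map_smul, map_neg, p1, map_add, map_smul, map_neg, Complex.add_re,
        smul_eq_mul, Complex.re_ofReal_mul, Complex.neg_re, mul_neg, ← sub_eq_add_neg]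
    have p4 : ∀ k, ∀ s ∈ Set.Icc (0 : ℝ) 1, |a k s| ≤ 2 * ‖y‖ ^ 2 * w ^ k := fun k s hs => by
      have q1 : ‖y + (s : ℂ) • -W y‖ ≤ 2 * ‖y‖ := (norm_add_le _ _).trans (by
        rw [norm_smul, norm_neg, Complex.norm_real, Real.norm_of_nonneg hs.1]
        nlinarith [W.le_of_opNorm_le hn.le y, norm_nonneg (W y), hs.2])
      exact (Complex.abs_re_le_norm _).trans ((le_norm h _ _).trans
        ((mul_le_mul q1 (p2 k) (norm_nonneg _) (by positivity)).trans_eq (by ring)))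
    have p5 := ode (d := fun k s => a k s - (a k 0 - s * a (k + 1) 0)) (C := 6 * ‖y‖ ^ 2) w0 w1
      (fun k => by simp) (fun k s => by
        have q1 := (hW.pow' k).deriv h hT y (-W y) s
        simp only [p3] at q1
        rw [map_neg, p1, map_neg, Complex.neg_re] at q1
        have q2 := (((hasDerivAt_id s).mul_const (a (k + 1) 0)).const_sub (a k 0)).sub
          ((hasDerivAt_id s).mul (((hasDerivAt_id s).mul_const (a (k + 1 + 1) 0)).const_sub
            (a (k + 1) 0)))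
        refine ((q1.sub q2).congr_deriv ?_).congr_of_eventuallyEq (Eventually.of_forall fun t => ?_)
        · simp only [a, id]; ring
        · simp only [Pi.sub_apply, Pi.mul_apply, id]; ring) fun k s hs => by
        have q1 := abs_le.1 (p4 k s hs)
        have q2 := abs_le.1 (p4 k 0 ⟨le_rfl, zero_le_one⟩)
        have q3 : |s * a (k + 1) 0| ≤ 2 * ‖y‖ ^ 2 * w ^ k := by
          rw [abs_mul, abs_of_nonneg hs.1]
          refine (mul_le_of_le_one_left (abs_nonneg _) hs.2).trans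
            ((p4 _ 0 ⟨le_rfl, zero_le_one⟩).trans ?_)
          rw [pow_succ w, ← mul_assoc]
          exact mul_le_of_le_one_right (by positivity) w1.le
        exact abs_le.2 ⟨by linarith [q1.1, q2.2, (abs_le.1 q3).1],
          by linarith [q1.2, q2.1, (abs_le.1 q3).2]⟩
    have p6 := p3 0 1
    have p7 : y + ((1 : ℝ) : ℂ) • -W y = (1 - W) y := by simp [sub_eq_add_neg]
    have p8 : ∀ k, a k 0 = (J y ((W ^ k) y)).re := fun k => by simp [a]
    have p9 : (1 - W) * (1 - W) = W ^ 0 - W ^ (0 + 1) - (W ^ (0 + 1) - W ^ (0 + 1 + 1)) := by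
      noncomm_ring
    rw [p7, pow_zero, one_apply_eq_self, re_val h] at p6
    rw [p9, p6]
    rw [sub_apply, sub_apply, sub_apply, map_sub, map_sub, map_sub, Complex.sub_re, Complex.sub_re,
      Complex.sub_re, ← p8, ← p8, ← p8]
    linarith [p5 0, p5 (0 + 1)]
  have h2 : Pol (T * T) (1 - W) := by
    simpa [sub_eq_add_neg] using (Pol.pow 0).add (hW.smul (-1))
  have h3 : ∀ x u, (J ((1 - W) x) u).re = (J x ((1 - W) u)).re := fun x u => by
    obtain ⟨v, rfl⟩ : ∃ v, (1 - W) v = u := ⟨((Units.oneSub W hn)⁻¹ : (X →L[ℂ] X)ˣ).1 u,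
      congrArg (fun B : X →L[ℂ] X => B u) (Units.oneSub W hn).mul_inv⟩
    have h4 := (h2.mul h2).deriv h hT x v 0
    simp only [← h1, map_add (1 - W), map_smul (1 - W)] at h4
    have h5 := (deriv_sq h ((1 - W) x) ((1 - W) v) 0).unique h4
    simpa using h5
  intro x u
  refine Complex.ext (h3 x u) ?_
  have h4 := h3 x (Complex.I • u)
  simp only [map_smul, smul_eq_mul, Complex.I_mul_re] at h4
  exact neg_injective h4

lemma visser [CompleteSpace X] {T Z : X →L[ℂ] X} (hT : SA J T) (hZ : Pol (T * T) Z)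
    (hn : ‖Z‖ ≤ 1) : ∃ S, SA J S ∧ S * S = 1 - Z := by
  let Y : ℕ → X →L[ℂ] X := fun n => Nat.rec 0 (fun _ B => ((1 / 2 : ℝ) : ℂ) • (Z + B * B)) n
  let y : ℕ → ℝ := fun n => Nat.rec 0 (fun _ b => 1 / 2 * (1 + b * b)) n
  have hY : ∀ n, Y (n + 1) = ((1 / 2 : ℝ) : ℂ) • (Z + Y n * Y n) := fun n => rfl
  have hy : ∀ n, y (n + 1) = 1 / 2 * (1 + y n * y n) := fun n => rfl
  have hs : ∀ B : X →L[ℂ] X, ‖((1 / 2 : ℝ) : ℂ) • B‖ = 1 / 2 * ‖B‖ := fun B => by
    rw [norm_smul, Complex.norm_real, Real.norm_of_nonneg one_half_pos.le]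
  have h1 : ∀ n, Pol (T * T) (Y n) ∧ ‖Y n‖ ≤ y n ∧ y n < 1 := fun n => by
    induction n with
    | zero => exact ⟨show Pol _ 0 by simpa using hZ.smul 0, norm_zero.le, zero_lt_one⟩
    | succ n ih =>
      have h2 := mul_self_le_mul_self (norm_nonneg _) ih.2.1
      refine ⟨(hZ.add (ih.1.mul ih.1)).smul _, ?_, ?_⟩
      · rw [hY, hs, hy]
        linarith [norm_add_le Z (Y n * Y n), norm_mul_le (Y n) (Y n)]
      · rw [hy]
        nlinarith [norm_nonneg (Y n), ih.2.1, ih.2.2]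
  have h2 : ∀ n, ‖Y (n + 1) - Y n‖ ≤ y (n + 1) - y n := fun n => by
    induction n with
    | zero => simpa [y, Y] using (h1 1).2.1
    | succ n ih =>
      have h3 : Commute (Y (n + 1)) (Y n) :=
        (h1 n).1.comm ((h1 (n + 1)).1.comm (Commute.refl _)).symm
      rw [hY (n + 1), hy (n + 1)]
      nth_rw 3 [hY n, hy n]
      rw [← smul_sub, hs, add_sub_add_left_eq_sub, h3.mul_self_sub_mul_self_eq]
      have h4 := (norm_mul_le _ _).trans (mul_le_mul ((norm_add_le _ _).trans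
        (add_le_add (h1 (n + 1)).2.1 (h1 n).2.1)) ih (norm_nonneg _)
        (by linarith [norm_nonneg (Y n), norm_nonneg (Y (n + 1)), (h1 n).2.1, (h1 (n + 1)).2.1]))
      linarith
  obtain ⟨L, hL⟩ := cauchySeq_tendsto_of_complete (cauchySeq_of_dist_le_of_summable (f := Y) _
    (fun n => by rw [dist_comm, dist_eq_norm]; exact h2 n) (summable_of_sum_range_le (c := 1)
      (fun n => (norm_nonneg _).trans (h2 n)) fun n => by
        rw [Finset.sum_range_sub]
        exact (sub_zero _).trans_le (h1 n).2.2.le))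
  have h3 : L = ((1 / 2 : ℝ) : ℂ) • (Z + L * L) := tendsto_nhds_unique
    (hL.comp (tendsto_add_atTop_nat 1)) (((hL.mul hL).const_add Z).const_smul _)
  refine ⟨1 - L, fun x u => ?_, ?_⟩
  · have h4 : ∀ v, Tendsto (fun n => (1 - Y n) v) atTop (𝓝 ((1 - L) v)) := fun v =>
      ((ContinuousLinearMap.apply ℂ X v).continuous.tendsto _).comp (hL.const_sub 1)
    exact tendsto_nhds_unique ((cont h _ u).comp (h4 x)) ((((J x).continuous.tendsto _).comp
      (h4 u)).congr fun n => (sa_one_sub h hT (h1 n).1 ((h1 n).2.1.trans_lt (h1 n).2.2) x u).symm)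
  · have h4 : L + L = Z + L * L := by
      nth_rw 1 2 [h3]
      rw [← add_smul, ← Complex.ofReal_add]
      norm_num
    rw [eq_sub_of_add_eq h4.symm]
    noncomm_ring

theorem root [CompleteSpace X] {T : X →L[ℂ] X} (hT : SA J T) {c : ℝ} (hc : ‖T‖ ≤ c) :
    ∃ S, SA J S ∧ S ^ 2 = (c : ℂ) ^ 2 • (1 : X →L[ℂ] X) - T ^ 2 := by
  rcases ((norm_nonneg _).trans hc).eq_or_lt with rfl | h0
  · exact ⟨T, hT, by simp [norm_le_zero_iff.1 hc]⟩
  obtain ⟨S, h1, h2⟩ := visser h hT ((Pol.pow 1).smul (c ^ 2)⁻¹) (by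
    rw [norm_smul, Complex.norm_real, Real.norm_of_nonneg (by positivity), pow_one,
      inv_mul_le_one₀ (by positivity), sq]
    exact (norm_mul_le _ _).trans (mul_self_le_mul_self (norm_nonneg _) hc))
  have h3 : ∀ z, J ((c : ℂ) • z) = (c : ℂ) • J z := fun z => (h.uniq _ _
    (by rw [norm_smul, norm_smul, h.nrm]) (by
      rw [map_smul, smul_apply, smul_eq_mul, smul_eq_mul, Complex.re_ofReal_mul,
        Complex.re_ofReal_mul, re_val h, norm_smul, Complex.norm_real, Real.norm_of_nonneg h0.le]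
      ring)).symm
  refine ⟨(c : ℂ) • S, fun x u => by rw [smul_apply, smul_apply, h3, smul_apply, h1, map_smul], ?_⟩
  have h4 : (c : ℂ) ^ 2 ≠ 0 := pow_ne_zero 2 (Complex.ofReal_ne_zero.2 h0.ne')
  rw [smul_pow, sq S, h2, smul_sub, pow_one, Complex.ofReal_inv, Complex.ofReal_pow,
    smul_inv_smul₀ h4, sq T]

end Pool.Agent.H5.SelfAdj
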