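import Mathlib

set_option autoImplicit false

namespace Pool.Agent.H5.SignRank

open Matrix

/-- the twelve three-point lines on ten points -/
def lines : Fin 12 → List (Fin 10) :=
  ![[0, 1, 2], [0, 3, 4], [0, 5, 6], [0, 7, 8], [1, 3, 5], [1, 4, 6], [1, 7, 9], [2, 4, 7],
    [2, 6, 9], [3, 6, 7], [3, 8, 9], [4, 5, 8]]

def Pa : Fin 10 → Fin 3 → ℤ := ![![1, 0, 0], ![0, 1, 0], ![1, 1, 0], ![0, 0, 1], ![1, 0, 1],
  ![0, 1, 1], ![1, 1, 1], ![1, 1, 0], ![-1, 1, 0], ![-1, 1, 2]]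
def Pb : Fin 10 → Fin 3 → ℤ := ![![0, 0, 0], ![0, 0, 0], ![-1, 0, 0], ![0, 0, 0], ![0, 0, 0],
  ![0, 0, 0], ![0, 0, 0], ![0, 0, 1], ![1, 0, 1], ![1, 0, -1]]
def La : Fin 3 → Fin 12 → ℤ := ![![0, 0, 0, 0, 1, 1, 0, 1, 1, -1, -1, -1],
  ![0, -1, -1, 0, 0, 0, 0, -1, -1, 1, -1, -1], ![1, 0, 1, 1, 0, -1, -1, -1, 0, 0, 0, 1]]
def Lb : Fin 3 → Fin 12 → ℤ := ![![0, 0, 0, 0, 0, 0, 1, 0, 0, 0, 0, 0],
  ![0, 0, 0, -1, 0, 0, 0, 1, 1, 0, 1, 0], ![0, 0, 0, 0, 0, 0, 0, 0, -1, 0, 0, 0]]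

def Ca (i : Fin 10) (j : Fin 12) : ℤ :=
  Pa i 0 * La 0 j + Pa i 1 * La 1 j + Pa i 2 * La 2 j +
    2 * (Pb i 0 * Lb 0 j + Pb i 1 * Lb 1 j + Pb i 2 * Lb 2 j)
def Cb (i : Fin 10) (j : Fin 12) : ℤ :=
  Pa i 0 * Lb 0 j + Pa i 1 * Lb 1 j + Pa i 2 * Lb 2 j +
    (Pb i 0 * La 0 j + Pb i 1 * La 1 j + Pb i 2 * La 2 j)

lemma C_zero : ∀ i j, (Ca i j = 0 ∧ Cb i j = 0) ↔ i ∈ lines j := by decide +kernel

noncomputable def P : Matrix (Fin 10) (Fin 3) ℝ := Matrix.of fun i k => (Pa i k : ℝ) + Pb i k * √2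
noncomputable def L : Matrix (Fin 3) (Fin 12) ℝ := Matrix.of fun k j => (La k j : ℝ) + Lb k j * √2
noncomputable def B : Matrix (Fin 10) (Fin 12) ℝ := P * L

lemma B_apply (i : Fin 10) (j : Fin 12) : B i j = (Ca i j : ℝ) + Cb i j * √2 := by
  have h : (√2 : ℝ) ^ 2 = 2 := Real.sq_sqrt (by norm_num)
  simp only [B, P, L, Matrix.mul_apply, Fin.sum_univ_three, Matrix.of_apply, Ca, Cb]
  push_cast
  linear_combination ((Pb i 0 : ℝ) * Lb 0 j + Pb i 1 * Lb 1 j + Pb i 2 * Lb 2 j) * h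

lemma B_zero (i : Fin 10) (j : Fin 12) : B i j = 0 ↔ i ∈ lines j := by
  rw [← C_zero, B_apply]
  constructor
  · intro h
    by_cases hb : Cb i j = 0
    · refine ⟨?_, hb⟩
      rw [hb] at h
      simpa using h
    · exfalso
      have h1 := (irrational_sqrt_two.intCast_mul hb).intCast_add (Ca i j)
      rw [h] at h1
      exact h1 ⟨0, by simp⟩
  · rintro ⟨h1, h2⟩; simp [h1, h2]

lemma B_rank_le : B.rank ≤ 3 :=
  (Matrix.rank_mul_le_left P L).trans (Matrix.rank_le_width P)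

lemma three_le_rank {K : Type} [Field K] (Q : Matrix (Fin 10) (Fin 12) K)
    (h : ∀ i j, Q i j = 0 ↔ i ∈ lines j) : 3 ≤ Q.rank := by
  have h1 := Matrix.rank_submatrix_le Q ![0, 1, 3] ![4, 1, 0]
  rw [Matrix.rank_of_det_ne_zero] at h1
  · simpa using h1
  · rw [Matrix.det_fin_three]
    simp only [Matrix.submatrix_apply, Matrix.cons_val_zero, Matrix.cons_val_one,
      Matrix.cons_val]
    rw [(h 0 1).2 (by decide), (h 0 0).2 (by decide), (h 1 4).2 (by decide), (h 1 0).2 (by decide),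
      (h 3 4).2 (by decide), (h 3 1).2 (by decide)]
    have a1 : Q 0 4 ≠ 0 := fun e => absurd ((h _ _).1 e) (by decide)
    have a2 : Q 1 1 ≠ 0 := fun e => absurd ((h _ _).1 e) (by decide)
    have a3 : Q 3 0 ≠ 0 := fun e => absurd ((h _ _).1 e) (by decide)
    simp [a1, a2, a3]

lemma det0 {l m n x1 y1 z1 x2 y2 z2 x3 y3 z3 x0 y0 z0 : ℚ}
    (h1 : x1 * l + y1 * m + z1 * n = 0) (h2 : x2 * l + y2 * m + z2 * n = 0)
    (h3 : x3 * l + y3 * m + z3 * n = 0) (h0 : x0 * l + y0 * m + z0 * n ≠ 0) :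
    x1 * (y2 * z3 - z2 * y3) - y1 * (x2 * z3 - z2 * x3) + z1 * (x2 * y3 - y2 * x3) = 0 := by
  by_contra hd
  apply h0
  have hl : l = 0 := by
    apply mul_left_cancel₀ hd
    linear_combination (y2 * z3 - z2 * y3) * h1 - (y1 * z3 - z1 * y3) * h2 + (y1 * z2 - z1 * y2) * h3
  have hm : m = 0 := by
    apply mul_left_cancel₀ hd
    linear_combination -(x2 * z3 - z2 * x3) * h1 + (x1 * z3 - z1 * x3) * h2 - (x1 * z2 - z1 * x2) * h3
  have hn : n = 0 := by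
    apply mul_left_cancel₀ hd
    linear_combination (x2 * y3 - y2 * x3) * h1 - (x1 * y3 - y1 * x3) * h2 + (x1 * y2 - y1 * x2) * h3
  simp [hl, hm, hn]

lemma alg {x2 y2 x4 z4 y5 z5 a b c x7 y7 z7 x8 y8 z8 x9 y9 z9 : ℚ}
    (n2 : y2 ≠ 0) (n4 : x4 ≠ 0) (n5 : y5 ≠ 0) (na : a ≠ 0) (nb : b ≠ 0) (nc : c ≠ 0)
    (n7 : x7 ≠ 0) (n8 : y8 ≠ 0) (n9 : x9 ≠ 0)
    (e2 : y5 * c = z5 * b) (e5 : x4 * c = z4 * a) (e9 : a * y7 = b * x7) (e3 : y7 * z8 = z7 * y8)
    (e6 : x7 * z9 = z7 * x9) (e10 : x8 * y9 = y8 * x9)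
    (e7 : x2 * (-(z4 * y7)) - y2 * (x4 * z7 - z4 * x7) = 0)
    (e8 : x2 * (b * z9 - c * y9) - y2 * (a * z9 - c * x9) = 0)
    (e11 : x4 * (y5 * z8 - z5 * y8) - z4 * (y5 * x8) = 0) : False := by
  obtain ⟨p4, rfl⟩ : ∃ p, x4 = p * a := ⟨x4 / a, by field_simp⟩
  obtain ⟨p5, rfl⟩ : ∃ p, y5 = p * b := ⟨y5 / b, by field_simp⟩
  obtain ⟨p7, rfl⟩ : ∃ p, x7 = p * a := ⟨x7 / a, by field_simp⟩
  obtain ⟨p8, rfl⟩ : ∃ p, y8 = p * b := ⟨y8 / b, by field_simp⟩
  obtain ⟨p9, rfl⟩ : ∃ p, x9 = p * a := ⟨x9 / a, by field_simp⟩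
  have m4 : p4 ≠ 0 := left_ne_zero_of_mul n4
  have m5 : p5 ≠ 0 := left_ne_zero_of_mul n5
  have m7 : p7 ≠ 0 := left_ne_zero_of_mul n7
  have m8 : p8 ≠ 0 := left_ne_zero_of_mul n8
  have m9 : p9 ≠ 0 := left_ne_zero_of_mul n9
  obtain ⟨s, rfl⟩ : ∃ s, z7 = s * p7 * c := ⟨z7 / (p7 * c), by field_simp⟩
  obtain ⟨u, rfl⟩ : ∃ u, x8 = u * p8 * a := ⟨x8 / (p8 * a), by field_simp⟩
  obtain ⟨v, rfl⟩ : ∃ v, y9 = v * p9 * b := ⟨y9 / (p9 * b), by field_simp⟩
  obtain ⟨w, rfl⟩ : ∃ w, x2 = w * a := ⟨x2 / a, by field_simp⟩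
  obtain ⟨t, rfl⟩ : ∃ t, y2 = t * b := ⟨y2 / b, by field_simp⟩
  have mt : t ≠ 0 := left_ne_zero_of_mul n2
  obtain rfl : z5 = p5 * c := by
    apply mul_right_cancel₀ nb; linear_combination -e2
  obtain rfl : z4 = p4 * c := by
    apply mul_right_cancel₀ na; linear_combination -e5
  obtain rfl : y7 = p7 * b := by
    apply mul_right_cancel₀ na; linear_combination e9
  obtain rfl : z8 = s * p8 * c := by
    apply mul_right_cancel₀ (mul_ne_zero m7 nb); linear_combination e3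
  obtain rfl : z9 = s * p9 * c := by
    apply mul_right_cancel₀ (mul_ne_zero m7 na); linear_combination e6
  have habc : a * b * c ≠ 0 := mul_ne_zero (mul_ne_zero na nb) nc
  have f10 : u * v = 1 := by
    apply mul_right_cancel₀ (mul_ne_zero (mul_ne_zero m8 m9) (mul_ne_zero na nb))
    linear_combination e10
  have f11 : u = s - 1 := by
    apply mul_right_cancel₀ (mul_ne_zero (mul_ne_zero (mul_ne_zero m4 m5) m8) habc)
    linear_combination -e11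
  have f7 : w = -t * (s - 1) := by
    apply mul_right_cancel₀ (mul_ne_zero (mul_ne_zero m4 m7) habc)
    linear_combination -e7
  have f8 : w * (s - v) = t * (s - 1) := by
    apply mul_right_cancel₀ (mul_ne_zero m9 habc)
    linear_combination e8
  have hu : u ≠ 0 := left_ne_zero_of_mul_eq_one f10
  have f9 : v = s + 1 := by
    apply mul_right_cancel₀ (mul_ne_zero mt hu)
    rw [f7] at f8
    rw [f11]
    linear_combination f8
  have hs : s ^ 2 = 2 := by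
    rw [f11, f9] at f10
    linear_combination f10
  have hirr := irrational_sqrt_two
  apply hirr
  refine ⟨|s|, ?_⟩
  have : (2 : ℝ) = (s : ℝ) ^ 2 := by exact_mod_cast hs.symm
  rw [this, Real.sqrt_sq_eq_abs]
  simp

lemma no_rat (Q : Matrix (Fin 10) (Fin 12) ℚ) (h : ∀ i j, Q i j = 0 ↔ i ∈ lines j) :
    Q.rank ≠ 3 := by
  intro hr
  have a1 : Q 0 4 ≠ 0 := fun e => absurd ((h _ _).1 e) (by decide)
  have a2 : Q 1 1 ≠ 0 := fun e => absurd ((h _ _).1 e) (by decide)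
  have a3 : Q 3 0 ≠ 0 := fun e => absurd ((h _ _).1 e) (by decide)
  have key : ∀ i j, Q i j = Q i 4 / Q 0 4 * Q 0 j + Q i 1 / Q 1 1 * Q 1 j + Q i 0 / Q 3 0 * Q 3 j := by
    intro i j
    have h1 := Matrix.rank_submatrix_le Q ![0, 1, 3, i] ![4, 1, 0, j]
    have h2 : (Q.submatrix ![0, 1, 3, i] ![4, 1, 0, j]).det = 0 := by
      by_contra hd
      rw [Matrix.rank_of_det_ne_zero hd, hr] at h1
      simp at h1
    have e : Q.submatrix ![0, 1, 3, i] ![4, 1, 0, j] =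
        !![Q 0 4, 0, 0, Q 0 j; 0, Q 1 1, 0, Q 1 j; 0, 0, Q 3 0, Q 3 j; Q i 4, Q i 1, Q i 0, Q i j] := by
      ext r c
      fin_cases r <;> fin_cases c <;> simp <;> exact (h _ _).2 (by decide)
    rw [e] at h2
    simp [Matrix.det_succ_row_zero, Fin.sum_univ_succ, Fin.succAbove] at h2
    field_simp
    linear_combination h2
  obtain ⟨x, hx⟩ : ∃ x : Fin 10 → ℚ, ∀ i, x i = Q i 4 / Q 0 4 := ⟨_, fun _ => rfl⟩
  obtain ⟨y, hy⟩ : ∃ y : Fin 10 → ℚ, ∀ i, y i = Q i 1 / Q 1 1 := ⟨_, fun _ => rfl⟩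
  obtain ⟨z, hz⟩ : ∃ z : Fin 10 → ℚ, ∀ i, z i = Q i 0 / Q 3 0 := ⟨_, fun _ => rfl⟩
  have x0 : ∀ i, x i = 0 ↔ i ∈ lines 4 := fun i => by rw [hx, ← h]; simp [a1]
  have y0 : ∀ i, y i = 0 ↔ i ∈ lines 1 := fun i => by rw [hy, ← h]; simp [a2]
  have z0 : ∀ i, z i = 0 ↔ i ∈ lines 0 := fun i => by rw [hz, ← h]; simp [a3]
  have inc : ∀ i j, x i * Q 0 j + y i * Q 1 j + z i * Q 3 j = 0 ↔ i ∈ lines j := fun i j => by
    rw [hx, hy, hz, ← key, h]
  have col : ∀ j a b c d, a ∈ lines j → b ∈ lines j → c ∈ lines j → d ∉ lines j →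
      x a * (y b * z c - z b * y c) - y a * (x b * z c - z b * x c) +
        z a * (x b * y c - y b * x c) = 0 := fun j a b c d ha hb hc hd =>
    det0 ((inc a j).2 ha) ((inc b j).2 hb) ((inc c j).2 hc) (fun e => hd ((inc d j).1 e))
  have nx : ∀ i, i ∉ lines 4 → x i ≠ 0 := fun i hi e => hi ((x0 i).1 e)
  have ny : ∀ i, i ∉ lines 1 → y i ≠ 0 := fun i hi e => hi ((y0 i).1 e)
  have nz : ∀ i, i ∉ lines 0 → z i ≠ 0 := fun i hi e => hi ((z0 i).1 e)
  have X1 := (x0 1).2 (by decide)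
  have X3 := (x0 3).2 (by decide)
  have X5 := (x0 5).2 (by decide)
  have Y0 := (y0 0).2 (by decide)
  have Y3 := (y0 3).2 (by decide)
  have Y4 := (y0 4).2 (by decide)
  have Z0 := (z0 0).2 (by decide)
  have Z1 := (z0 1).2 (by decide)
  have Z2 := (z0 2).2 (by decide)
  have c2 := col 2 0 5 6 1 (by decide) (by decide) (by decide) (by decide)
  have c3 := col 3 0 7 8 1 (by decide) (by decide) (by decide) (by decide)
  have c5 := col 5 1 4 6 0 (by decide) (by decide) (by decide) (by decide)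
  have c6 := col 6 1 7 9 0 (by decide) (by decide) (by decide) (by decide)
  have c7 := col 7 2 4 7 0 (by decide) (by decide) (by decide) (by decide)
  have c8 := col 8 2 6 9 0 (by decide) (by decide) (by decide) (by decide)
  have c9 := col 9 3 6 7 0 (by decide) (by decide) (by decide) (by decide)
  have c10 := col 10 3 8 9 0 (by decide) (by decide) (by decide) (by decide)
  have c11 := col 11 4 5 8 0 (by decide) (by decide) (by decide) (by decide)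
  rw [Y0, Z0] at c2 c3
  rw [X1, Z1] at c5 c6
  rw [X3, Y3] at c9 c10
  rw [Z2] at c7 c8
  rw [Y4] at c7 c11
  rw [X5] at c11
  refine @alg (x 2) (y 2) (x 4) (z 4) (y 5) (z 5) (x 6) (y 6) (z 6) (x 7) (y 7) (z 7) (x 8) (y 8)
    (z 8) (x 9) (y 9) (z 9) (ny 2 (by decide)) (nx 4 (by decide)) (ny 5 (by decide))
    (nx 6 (by decide)) (ny 6 (by decide)) (nz 6 (by decide)) (nx 7 (by decide)) (ny 8 (by decide))
    (nx 9 (by decide)) ?_ ?_ ?_ ?_ ?_ ?_ ?_ ?_ ?_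
  · apply mul_left_cancel₀ (nx 0 (by decide)); linear_combination c2
  · apply mul_left_cancel₀ (ny 1 (by decide)); linear_combination -c5
  · apply mul_left_cancel₀ (nz 3 (by decide)); linear_combination c9
  · apply mul_left_cancel₀ (nx 0 (by decide)); linear_combination c3
  · apply mul_left_cancel₀ (ny 1 (by decide)); linear_combination -c6
  · apply mul_left_cancel₀ (nz 3 (by decide)); linear_combination c10
  · linear_combination c7
  · linear_combination c8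
  · linear_combination c11

/-- the sign pattern -/
noncomputable def A : Matrix (Fin 10) (Fin 12) SignType := fun i j => SignType.sign (B i j)

lemma A_zero (i : Fin 10) (j : Fin 12) : A i j = 0 ↔ i ∈ lines j := by
  rw [← B_zero]; simp [A]

lemma A_cols (j : Fin 12) : (Finset.univ.filter (fun i : Fin 10 => A i j = 0)).card ≤ 3 := by
  have : (Finset.univ.filter (fun i : Fin 10 => A i j = 0)) =
      (Finset.univ.filter (fun i : Fin 10 => i ∈ lines j)) := by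
    ext i; simp [A_zero]
  rw [this]
  clear this
  revert j
  decide +kernel

lemma real_ge (M : Matrix (Fin 10) (Fin 12) ℝ) (h : ∀ i j, SignType.sign (M i j) = A i j) :
    3 ≤ M.rank :=
  three_le_rank M fun i j => by rw [← A_zero, ← h]; simp

lemma real_ex : ∃ M : Matrix (Fin 10) (Fin 12) ℝ,
    (∀ i j, SignType.sign (M i j) = A i j) ∧ M.rank = 3 :=
  ⟨B, fun _ _ => rfl, le_antisymm B_rank_le (real_ge B fun _ _ => rfl)⟩

lemma rat_not : ¬ ∃ Q : Matrix (Fin 10) (Fin 12) ℚ,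
    (∀ i j, SignType.sign (Q i j) = A i j) ∧ Q.rank = 3 := by
  rintro ⟨Q, h, hr⟩
  exact no_rat Q (fun i j => by rw [← A_zero, ← h]; simp) hr

end Pool.Agent.H5.SignRank
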