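import Pool.Agent.H5.Simons

set_option autoImplicit false

open Metric Set Filter Topology Pointwise

namespace Pool.Agent.H5.Simons

lemma compact_hull {E : Type*} [AddCommGroup E] [Module ℝ E] [TopologicalSpace E]
    [IsTopologicalAddGroup E] [ContinuousSMul ℝ E] {s t : Set E} (hs : IsCompact s)
    (ht : IsCompact t) (cs : Convex ℝ s) (ct : Convex ℝ t) : IsCompact (convexHull ℝ (s ∪ t)) := by
  rcases s.eq_empty_or_nonempty with rfl | hs0
  · rwa [empty_union, ct.convexHull_eq]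
  rcases t.eq_empty_or_nonempty with rfl | ht0
  · rwa [union_empty, cs.convexHull_eq]
  have h1 : convexHull ℝ (s ∪ t) = (fun p : E × E × ℝ => (1 - p.2.2) • p.1 + p.2.2 • p.2.1) ''
      (s ×ˢ t ×ˢ Icc (0 : ℝ) 1) := by
    rw [cs.convexHull_union ct hs0 ht0]
    ext x
    simp only [mem_convexJoin, segment_eq_image, mem_image, mem_prod, Prod.exists]
    constructor
    · rintro ⟨a, ha, b, hb, θ, hθ, rfl⟩
      exact ⟨a, b, θ, ⟨ha, hb, hθ⟩, rfl⟩
    · rintro ⟨a, b, θ, ⟨ha, hb, hθ⟩, rfl⟩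
      exact ⟨a, ha, b, hb, θ, hθ, rfl⟩
  rw [h1]
  exact (hs.prod (ht.prod isCompact_Icc)).image (by fun_prop)

variable {X : Type*} [NormedAddCommGroup X] [NormedSpace ℝ X]

lemma wsep {s : Set (WeakDual ℝ X)} (hs : IsClosed s) (cs : Convex ℝ s) {g : WeakDual ℝ X}
    (hg : g ∉ s) : ∃ (v : X) (t : ℝ), (∀ b ∈ s, b v < t) ∧ t < g v := by
  haveI : LocallyConvexSpace ℝ (WeakDual ℝ X) :=
    WeakBilin.locallyConvexSpace (B := topDualPairing ℝ X)
  obtain ⟨f, t, h1, h2⟩ := geometric_hahn_banach_closed_point cs hs hg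
  obtain ⟨v, rfl⟩ := LinearMap.dualEmbedding_surjective (topDualPairing ℝ X) f
  exact ⟨v, t, h1, h2⟩

/-- the weak-star closure -/
def wcl (A : Set (StrongDual ℝ X)) : Set (StrongDual ℝ X) :=
  {φ | ∀ F : Finset X, ∀ ε : ℝ, 0 < ε → ∃ ψ ∈ A, ∀ x ∈ F, |φ x - ψ x| < ε}

lemma subset_wcl (A : Set (StrongDual ℝ X)) : A ⊆ wcl A :=
  fun φ hφ F ε hε => ⟨φ, hφ, fun x _ => by simpa using hε⟩

lemma wcl_mono {A B : Set (StrongDual ℝ X)} (h : A ⊆ B) : wcl A ⊆ wcl B :=
  fun φ hφ F ε hε => by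
    obtain ⟨ψ, h1, h2⟩ := hφ F ε hε
    exact ⟨ψ, h h1, h2⟩

lemma wcl_le {A : Set (StrongDual ℝ X)} {x : X} {t : ℝ} (h : ∀ a ∈ A, a x ≤ t)
    {φ : StrongDual ℝ X} (hφ : φ ∈ wcl A) : φ x ≤ t := by
  refine le_of_forall_pos_le_add fun ε hε => ?_
  obtain ⟨ψ, h1, h2⟩ := hφ {x} ε hε
  have h3 := abs_lt.1 (h2 x (Finset.mem_singleton_self x))
  linarith [h ψ h1]

lemma norm_le_of_le {φ : StrongDual ℝ X} {r : ℝ} (hr : 0 ≤ r) (h : ∀ x, φ x ≤ r * ‖x‖) :
    ‖φ‖ ≤ r := by
  refine φ.opNorm_le_bound hr fun x => ?_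
  have h1 := h (-x)
  rw [map_neg, norm_neg] at h1
  rw [Real.norm_eq_abs, abs_le]
  exact ⟨by linarith, h x⟩

lemma wcl_ball {A : Set (StrongDual ℝ X)} {d : StrongDual ℝ X} {r : ℝ} (hr : 0 ≤ r)
    (h : A ⊆ closedBall d r) : wcl A ⊆ closedBall d r := fun φ hφ => by
  rw [mem_closedBall, dist_eq_norm]
  refine norm_le_of_le hr fun x => ?_
  have := wcl_le (x := x) (t := d x + r * ‖x‖) (fun a ha => by
    have h1 := h ha
    rw [mem_closedBall, dist_eq_norm] at h1
    have h2 := (a - d).le_of_opNorm_le h1 x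
    rw [Real.norm_eq_abs, sub_apply] at h2
    linarith [le_abs_self (a x - d x)]) hφ
  rw [sub_apply]; linarith

lemma convex_wcl {A : Set (StrongDual ℝ X)} (h : Convex ℝ A) : Convex ℝ (wcl A) := by
  intro φ hφ ψ hψ a b ha hb hab F ε hε
  obtain ⟨φ', h1, h2⟩ := hφ F ε hε
  obtain ⟨ψ', h3, h4⟩ := hψ F ε hε
  refine ⟨a • φ' + b • ψ', h h1 h3 ha hb hab, fun x hx => ?_⟩
  have h5 := abs_lt.1 (h2 x hx)
  have h6 := abs_lt.1 (h4 x hx)
  simp only [add_apply, smul_apply, smul_eq_mul]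
  rw [abs_lt]
  obtain rfl : b = 1 - a := by linarith
  rcases eq_or_lt_of_le ha with rfl | ha'
  · constructor <;> linarith
  · constructor <;> nlinarith

lemma isClosed_wcl (A : Set (StrongDual ℝ X)) :
    IsClosed (WeakDual.toStrongDual ⁻¹' wcl A) := by
  refine isClosed_of_closure_subset fun φ hφ F ε hε => ?_
  have h1 : IsOpen {ψ : WeakDual ℝ X | ∀ x ∈ F, |φ x - ψ x| < ε / 2} := by
    simp only [Set.ofPred_forall]
    exact isOpen_biInter_finset fun x _ =>
      isOpen_lt (continuous_const.sub (WeakDual.eval_continuous x)).abs continuous_const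
  obtain ⟨ψ, h2, h3⟩ := mem_closure_iff.1 hφ _ h1 (fun x _ => by simpa using hε)
  obtain ⟨χ, h4, h5⟩ := h3 F (ε / 2) (by positivity)
  refine ⟨χ, h4, fun x hx => ?_⟩
  have h6 := abs_lt.1 (h2 x hx)
  have h7 := abs_lt.1 (h5 x hx)
  simp only [WeakDual.toStrongDual_apply] at h7 ⊢
  rw [abs_lt]
  constructor <;> linarith

lemma sep (B : ℕ → Set (StrongDual ℝ X)) (hB : ∀ n, B n ⊆ closedBall 0 1) (g0 : StrongDual ℝ X)
    {κ : ℝ} (hκ : 0 < κ)
    (h : ∀ c ∈ convexHull ℝ (⋃ n, wcl (convexHull ℝ (B n))), κ < ‖g0 - c‖) (k : ℕ) :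
    ∃ u : X, ‖u‖ ≤ 1 ∧ ∀ i < k, ∀ b ∈ B i, b u + κ ≤ g0 u := by
  set H := convexHull ℝ (⋃ n, wcl (convexHull ℝ (B n))) with hH
  let C : ℕ → Set (WeakDual ℝ X) := fun i => WeakDual.toStrongDual ⁻¹' wcl (convexHull ℝ (B i))
  have hCc : ∀ i, IsCompact (C i) := fun i =>
    (WeakDual.isCompact_closedBall (𝕜 := ℝ) (E := X) 0 1).of_isClosed_subset (isClosed_wcl _)
      (preimage_mono (wcl_ball zero_le_one (convexHull_min (hB i) (convex_closedBall _ _))))
  have hCv : ∀ i, Convex ℝ (C i) := fun i =>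
    (convex_wcl (convex_convexHull ℝ _)).linear_preimage WeakDual.toStrongDual.toLinearMap
  have hHv : Convex ℝ (WeakDual.toStrongDual ⁻¹' H : Set (WeakDual ℝ X)) :=
    (convex_convexHull ℝ _).linear_preimage WeakDual.toStrongDual.toLinearMap
  obtain ⟨D, hDc, hDv, hD1, hD2⟩ : ∃ D : Set (WeakDual ℝ X), IsCompact D ∧ Convex ℝ D ∧
      (∀ i < k, C i ⊆ D) ∧ D ⊆ WeakDual.toStrongDual ⁻¹' H := by
    induction k with
    | zero => exact ⟨∅, isCompact_empty, convex_empty, by simp, empty_subset _⟩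
    | succ k ih =>
      obtain ⟨D, hDc, hDv, hD1, hD2⟩ := ih
      refine ⟨convexHull ℝ (D ∪ C k), compact_hull hDc (hCc k) hDv (hCv k), convex_convexHull ℝ _,
        fun i hi => ?_, convexHull_min (union_subset hD2 ?_) hHv⟩
      · rcases Nat.lt_succ_iff_lt_or_eq.1 hi with h1 | rfl
        · exact (hD1 i h1).trans (subset_union_left.trans (subset_convexHull _ _))
        · exact subset_union_right.trans (subset_convexHull _ _)
      · exact preimage_mono ((subset_iUnion (fun n => wcl (convexHull ℝ (B n))) k).trans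
          (subset_convexHull _ _))
  have hK := WeakDual.isCompact_closedBall (𝕜 := ℝ) (E := X) 0 κ
  have hKv : Convex ℝ (WeakDual.toStrongDual ⁻¹' closedBall (0 : StrongDual ℝ X) κ) :=
    (convex_closedBall (0 : StrongDual ℝ X) κ).linear_preimage
      (WeakDual.toStrongDual (𝕜 := ℝ) (E := X)).toLinearMap
  obtain ⟨v, t, h1, h2⟩ := wsep (hDc.add hK).isClosed (hDv.add hKv)
    (g := StrongDual.toWeakDual g0) (by
      rintro ⟨d, hd, w, hw, h1⟩
      have h2 := h (WeakDual.toStrongDual d) (hD2 hd)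
      have h3 : g0 - WeakDual.toStrongDual d = WeakDual.toStrongDual w := by
        have := congrArg WeakDual.toStrongDual h1
        simp only [map_add, StrongDual.toStrongDual_toWeakDual] at this
        rw [← this]; abel
      rw [h3] at h2
      simp only [mem_preimage, mem_closedBall, dist_zero_right] at hw
      linarith)
  obtain ⟨w, hw, hwv⟩ := J_nonempty v
  refine ⟨‖v‖⁻¹ • v, ?_, fun i hi b hb => ?_⟩
  · rw [norm_smul, norm_inv, norm_norm]
    exact inv_mul_le_one_of_le₀ le_rfl (norm_nonneg _)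
  · have h3 := h1 (StrongDual.toWeakDual b + StrongDual.toWeakDual (κ • w))
      (add_mem_add (hD1 i hi (subset_wcl _ (subset_convexHull _ _ hb))) (by
        simp only [mem_preimage, StrongDual.toStrongDual_toWeakDual, mem_closedBall,
          dist_zero_right, norm_smul, Real.norm_of_nonneg hκ.le]
        nlinarith))
    have h4 : b v + κ * ‖v‖ < g0 v := by
      rw [← hwv]
      exact h3.trans h2
    have hv : 0 < ‖v‖ := by
      rw [norm_pos_iff]
      rintro rfl
      simp at h4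
    rw [map_smul, map_smul, smul_eq_mul, smul_eq_mul, inv_mul_eq_div, inv_mul_eq_div,
      div_add' _ _ _ hv.ne', div_le_div_iff_of_pos_right hv]
    exact h4.le

/-- derivatives of the norm generate the dual ball in the sense of Fonf and Lindenstrauss -/
theorem ienv [CompleteSpace X] [TopologicalSpace.SeparableSpace X] (B : ℕ → Set (StrongDual ℝ X))
    (H : ∀ x, Sm x → ∃ f ∈ J x, ∃ n, f ∈ B n) :
    closedBall (0 : StrongDual ℝ X) 1 ⊆
      closure (convexHull ℝ (⋃ n, wcl (convexHull ℝ (B n)))) := by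
  intro g0 hg0
  rw [mem_closedBall, dist_zero_right] at hg0
  by_contra hcon
  rw [Metric.mem_closure_iff] at hcon
  push Not at hcon
  obtain ⟨ε, hε, hcon⟩ := hcon
  choose u hu hu' using sep (fun n => B n ∩ closedBall 0 1) (fun n => inter_subset_right) g0
    (κ := ε / 2) (by positivity) (fun c hc => by
      have := hcon c (convexHull_mono (iUnion_mono fun n =>
        wcl_mono (convexHull_mono inter_subset_left)) hc)
      rw [dist_eq_norm] at this
      linarith)
  obtain ⟨γ, -, φ, hφ, hlim⟩ := tendsto_subseq_of_bounded (s := Icc (-1 : ℝ) 1)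
    (isBounded_Icc _ _) (x := fun k => g0 (u k)) (fun k => by
      have h1 := le_norm hg0 (u k)
      have h2 := le_norm hg0 (-u k)
      rw [map_neg, norm_neg] at h2
      exact ⟨by linarith [hu k], by linarith [hu k]⟩)
  have h1 := rainwater (u := fun k => u (φ k)) (fun k => hu _) (β := γ - ε / 4)
    (fun x hx => by
      obtain ⟨f, hf, n, hn⟩ := H x hx
      refine ⟨f, hf, ?_⟩
      filter_upwards [hlim.eventually (gt_mem_nhds (show γ < γ + ε / 4 by linarith)),
        eventually_gt_atTop n] with k hk hk'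
      have := hu' (φ k) n (hk'.trans_le (hφ.id_le k)) f ⟨hn, by simpa using hf.1⟩
      simp only [Function.comp] at hk
      linarith) hg0 (γ := γ - ε / 8)
    ((hlim.eventually (le_mem_nhds (show γ - ε / 8 < γ by linarith))).frequently)
  linarith

lemma unique_of_sm {x : X} (hx : Sm x) {f g : StrongDual ℝ X} (hf : f ∈ J x) (hg : g ∈ J x) :
    g = f := by
  have h1 : ∀ h, g h ≤ f h := fun h => by
    refine le_of_forall_pos_le_add fun τ hτ => ?_
    obtain ⟨σ, hσ, h2⟩ := hx h τ hτ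
    have h3 := le_norm hg.1 (x + σ • h)
    have h4 := le_norm hf.1 (x - σ • h)
    rw [map_add, map_smul, hg.2, smul_eq_mul] at h3
    rw [map_sub, map_smul, hf.2, smul_eq_mul] at h4
    have : σ * g h ≤ σ * (f h + τ) := by linarith
    exact le_of_mul_le_mul_left this hσ
  ext h
  have h2 := h1 (-h)
  rw [map_neg, map_neg] at h2
  linarith [h1 h]

lemma exposed_of_sm {x : X} (hx : Sm x) {f : StrongDual ℝ X} (hf : f ∈ J x)
    (g : StrongDual ℝ X) (hg : ‖g‖ ≤ 1) (hne : g ≠ f) : g x < f x := by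
  rw [hf.2]
  exact lt_of_le_of_ne (le_norm hg x) fun h => hne (unique_of_sm hx hf ⟨hg, h⟩)

end Pool.Agent.H5.Simons
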