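import Pool.Agent.H5.Simons2

set_option autoImplicit false

open Metric Set Filter Topology Pointwise

namespace Pool.Agent.H5.Simons

variable {X : Type*} [NormedAddCommGroup X] [NormedSpace ℝ X]

lemma Sm.smul {x : X} (hx : Sm x) {a : ℝ} (ha : 0 < a) : Sm (a • x) := by
  intro h τ hτ
  obtain ⟨σ, hσ, h1⟩ := hx h τ hτ
  refine ⟨a * σ, by positivity, ?_⟩
  rw [mul_smul, ← smul_add, ← smul_sub, norm_smul, norm_smul, norm_smul, Real.norm_of_nonneg ha.le]
  nlinarith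

theorem sepdual [CompleteSpace X] [TopologicalSpace.SeparableSpace X] {T : Set (StrongDual ℝ X)}
    (hT : T.Countable) (H : ∀ x, ‖x‖ = 1 → Sm x → ∃ f ∈ J x, ∃ d ∈ T, ‖f - d‖ ≤ 1 / 2) :
    TopologicalSpace.SeparableSpace (StrongDual ℝ X) := by
  obtain ⟨d, hd⟩ := (hT.insert 0).exists_eq_range (insert_nonempty _ _)
  have h1 := ienv (fun n => closedBall (d n) (1 / 2)) (fun x hx => by
    rcases eq_or_ne x 0 with rfl | hx0
    · obtain ⟨n, hn⟩ : (0 : StrongDual ℝ X) ∈ range d := hd ▸ mem_insert _ _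
      exact ⟨0, ⟨by simp, by simp⟩, n, by simp [hn]⟩
    · have hn : 0 < ‖x‖ := norm_pos_iff.2 hx0
      have h2 : ‖‖x‖⁻¹ • x‖ = 1 := by
        rw [norm_smul, norm_inv, norm_norm, inv_mul_cancel₀ hn.ne']
      obtain ⟨f, hf, e, he, h3⟩ := H _ h2 (hx.smul (inv_pos.2 hn))
      obtain ⟨n, rfl⟩ : e ∈ range d := hd ▸ mem_insert_of_mem _ he
      refine ⟨f, ⟨hf.1, ?_⟩, n, by rwa [mem_closedBall, dist_eq_norm]⟩
      have h4 := hf.2
      rw [h2, map_smul, smul_eq_mul, inv_mul_eq_one₀ hn.ne'] at h4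
      exact h4.symm)
  set Y := (Submodule.span ℝ (range d)).topologicalClosure with hY
  have hYs : TopologicalSpace.IsSeparable (Y : Set (StrongDual ℝ X)) :=
    (countable_range d).isSeparable.span.closure
  have h2 : convexHull ℝ (⋃ n, wcl (convexHull ℝ (closedBall (d n) (1 / 2)))) ⊆
      (Y : Set (StrongDual ℝ X)) + closedBall 0 (1 / 2) := by
    refine convexHull_min (iUnion_subset fun n g hg => ?_) (Y.convex.add (convex_closedBall _ _))
    have h3 := wcl_ball (by norm_num) (convexHull_min subset_rfl (convex_closedBall _ _)) hg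
    refine ⟨d n, Submodule.le_topologicalClosure _ (Submodule.subset_span ⟨n, rfl⟩), g - d n, ?_,
      by simp⟩
    rwa [mem_closedBall, dist_zero_right, ← dist_eq_norm]
  rw [← TopologicalSpace.isSeparable_univ_iff]
  refine hYs.mono fun g0 _ => ?_
  by_contra hg0
  obtain ⟨g, hg, hg'⟩ := riesz_lemma (Submodule.isClosed_topologicalClosure _) ⟨g0, hg0⟩
    (show (3 / 4 : ℝ) < 1 by norm_num)
  have hn : 0 < ‖g‖ := norm_pos_iff.2 fun h => hg (h ▸ Y.zero_mem)
  have h3 : ‖g‖⁻¹ • g ∈ closedBall (0 : StrongDual ℝ X) 1 := by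
    rw [mem_closedBall, dist_zero_right, norm_smul, norm_inv, norm_norm, inv_mul_cancel₀ hn.ne']
  obtain ⟨c, hc, hc'⟩ := Metric.mem_closure_iff.1 (h1 h3) (1 / 4) (by norm_num)
  obtain ⟨y, hy, w, hw, rfl⟩ := h2 hc
  have h4 := hg' (‖g‖ • y) (Y.smul_mem _ hy)
  rw [mem_closedBall, dist_zero_right] at hw
  rw [dist_eq_norm] at hc'
  have h5 : g - ‖g‖ • y = ‖g‖ • ((‖g‖⁻¹ • g - (y + w)) + w) := by
    rw [smul_add, smul_sub, smul_smul, mul_inv_cancel₀ hn.ne', one_smul, smul_add]; abel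
  rw [h5, norm_smul, norm_norm] at h4
  have h6 := norm_add_le (‖g‖⁻¹ • g - (y + w)) w
  nlinarith

lemma hasLineDerivAt_of_sm {x : X} (hx : Sm x) {f : StrongDual ℝ X} (hf : f ∈ J x) (v : X) :
    HasLineDerivAt ℝ (fun y : X => ‖y‖) (f v) x v := by
  have key : ∀ w : X, ∀ c > 0, ∃ σ > 0, ∀ t, 0 < t → t ≤ σ →
      ‖x + t • w‖ - ‖x‖ ≤ t * (f w + c) := fun w c hc => by
    obtain ⟨σ, hσ, h1⟩ := hx w c hc
    refine ⟨σ, hσ, fun t ht ht' => slope_le x w ht ht' ?_⟩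
    have h2 := le_norm hf.1 (x - σ • w)
    rw [map_sub, map_smul, hf.2, smul_eq_mul] at h2
    linarith
  rw [HasLineDerivAt, hasDerivAt_iff_isLittleO_nhds_zero, Asymptotics.isLittleO_iff]
  intro c hc
  obtain ⟨σ1, hσ1, h1⟩ := key v c hc
  obtain ⟨σ2, hσ2, h2⟩ := key (-v) c hc
  filter_upwards [Icc_mem_nhds (show -σ2 < 0 by linarith) hσ1] with t ht
  have h3 := le_norm hf.1 (x + t • v)
  rw [map_add, map_smul, hf.2, smul_eq_mul] at h3
  simp only [zero_add, zero_smul, add_zero, smul_eq_mul, Real.norm_eq_abs]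
  rw [abs_of_nonneg (by linarith)]
  rcases lt_trichotomy t 0 with h | rfl | h
  · have h4 := h2 (-t) (by linarith) (by linarith [ht.1])
    rw [smul_neg, neg_smul, neg_neg, map_neg] at h4
    rw [abs_of_neg h]; linarith
  · simp
  · have h4 := h1 t h ht.2
    rw [abs_of_pos h]; linarith

lemma usc {x : X} (hx : Sm x) {f : StrongDual ℝ X} (hf : f ∈ J x) (u : X) {τ : ℝ} (hτ : 0 < τ) :
    ∃ r > 0, ∀ y, ‖y - x‖ ≤ r → ∀ g ∈ J y, f u - τ ≤ g u := by
  obtain ⟨σ, hσ, h1⟩ := hx u (τ / 2) (by positivity)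
  refine ⟨σ * τ / 4, by positivity, fun y hy g hg => ?_⟩
  have h2 := le_norm hg.1 (y - σ • u)
  have h3 := le_norm hf.1 (x + σ • u)
  rw [map_sub, map_smul, hg.2, smul_eq_mul] at h2
  rw [map_add, map_smul, hf.2, smul_eq_mul] at h3
  have h4 := norm_add_le (y - x) (x - σ • u)
  have h5 := norm_sub_le y (y - x)
  rw [sub_add_sub_cancel] at h4
  rw [sub_sub_cancel] at h5
  have : σ * (f u - τ) ≤ σ * g u := by linarith
  exact le_of_mul_le_mul_left this hσ

lemma cantor [CompleteSpace X] {A : Set X} (R : X → X → Prop) (hR : ∀ x, ¬ R x x)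
    (hsymm : ∀ x y, R x y → R y x) (hA : A.Nonempty)
    (h : ∀ x ∈ A, ∀ r > 0, ∃ y ∈ A, ‖y - x‖ < r ∧ ∃ ρ > 0, ∀ a b, ‖a - x‖ ≤ ρ → ‖b - y‖ ≤ ρ →
      R a b) :
    ∃ K : Set X, K ⊆ closure A ∧ Nonempty (K ≃ₜ (ℕ → Bool)) ∧
      ∀ x ∈ K, ∀ y ∈ K, x ≠ y → R x y := by
  let P := {p : X × ℝ // p.1 ∈ A ∧ 0 < p.2}
  have h1 : ∀ p : P, ∃ q : Bool → P, (∀ i, (q i).1.2 ≤ p.1.2 / 2 ∧ ‖(q i).1.1 - p.1.1‖ ≤ p.1.2 / 2) ∧
      ∀ a b, ‖a - (q false).1.1‖ ≤ (q false).1.2 → ‖b - (q true).1.1‖ ≤ (q true).1.2 → R a b := by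
    rintro ⟨⟨x, r⟩, hx, hr⟩
    obtain ⟨y, hy, hyx, ρ, hρ, h2⟩ := h x hx (r / 2) (by positivity)
    have h3 : 0 < min ρ (r / 2) := lt_min hρ (by positivity)
    refine ⟨fun i => cond i ⟨(y, min ρ (r / 2)), hy, h3⟩ ⟨(x, min ρ (r / 2)), hx, h3⟩, ?_,
      fun a b ha hb => h2 a b (ha.trans (min_le_left _ _)) (hb.trans (min_le_left _ _))⟩
    rintro (_ | _)
    · exact ⟨min_le_right _ _, by simp only [cond, sub_self, norm_zero]; positivity⟩
    · exact ⟨min_le_right _ _, hyx.le⟩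
  choose q hq hqR using h1
  obtain ⟨x0, hx0⟩ := hA
  obtain ⟨nd, hnd0, hnd⟩ : ∃ nd : (ℕ → Bool) → ℕ → P, (∀ a, nd a 0 = ⟨(x0, 1), hx0, one_pos⟩) ∧
      ∀ a n, nd a (n + 1) = q (nd a n) (a n) :=
    ⟨fun a n => Nat.rec ⟨(x0, 1), hx0, one_pos⟩ (fun i p => q p (a i)) n, fun _ => rfl,
      fun _ _ => rfl⟩
  have hrad : ∀ a n, (nd a n).1.2 ≤ 1 / 2 ^ n := fun a n => by
    induction n with
    | zero => simp [hnd0]
    | succ n ih =>
      have := (hq (nd a n) (a n)).1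
      rw [hnd, pow_succ, ← div_div]; linarith
  have hnest : ∀ a n m, n ≤ m → ‖(nd a m).1.1 - (nd a n).1.1‖ + (nd a m).1.2 ≤ (nd a n).1.2 := by
    intro a n m hnm
    induction m, hnm using Nat.le_induction with
    | base => simp
    | succ m _ ih =>
      have h2 := hq (nd a m) (a m)
      rw [← hnd] at h2
      have h3 := norm_add_le ((nd a (m + 1)).1.1 - (nd a m).1.1) ((nd a m).1.1 - (nd a n).1.1)
      rw [sub_add_sub_cancel] at h3
      linarith [h2.1, h2.2]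
  have hlim : ∀ a, ∃ v, Tendsto (fun n => (nd a n).1.1) atTop (𝓝 v) := fun a =>
    cauchySeq_tendsto_of_complete (cauchySeq_of_le_geometric_two (C := 2) fun n => by
      have h2 := hnest a n (n + 1) (Nat.le_succ n)
      have h3 := hrad a n
      have h4 := (nd a (n + 1)).2.2
      rw [dist_comm, dist_eq_norm]
      norm_num at h3 ⊢
      linarith)
  choose φ hφ using hlim
  have hin : ∀ a n, ‖φ a - (nd a n).1.1‖ ≤ (nd a n).1.2 := fun a n =>
    le_of_tendsto ((hφ a).sub_const _).norm (eventually_atTop.2 ⟨n, fun m hm => by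
      linarith [hnest a n m hm, (nd a m).2.2]⟩)
  have hagree : ∀ a b n, (∀ i < n, a i = b i) → nd a n = nd b n := by
    intro a b n hab
    induction n with
    | zero => rw [hnd0, hnd0]
    | succ n ih => rw [hnd, hnd, ih fun i hi => hab i (by omega), hab n (by omega)]
  have hsep : ∀ a b, a ≠ b → R (φ a) (φ b) := by
    intro a b hab
    have h2 : ∃ n, a n ≠ b n := Function.ne_iff.1 hab
    have h3 := hagree a b (Nat.find h2) fun i hi => not_not.1 (Nat.find_min h2 hi)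
    have h4 := Nat.find_spec h2
    have h5 := hin a (Nat.find h2 + 1)
    have h6 := hin b (Nat.find h2 + 1)
    rw [hnd] at h5 h6
    rw [← h3] at h6
    cases ha : a (Nat.find h2) <;> cases hb : b (Nat.find h2) <;> rw [ha] at h5 <;> rw [hb] at h6
    · exact absurd (ha.trans hb.symm) h4
    · exact hqR _ _ _ h5 h6
    · exact hsymm _ _ (hqR _ _ _ h6 h5)
    · exact absurd (ha.trans hb.symm) h4
  have hcont : Continuous φ := by
    refine continuous_iff_continuousAt.2 fun a => Metric.tendsto_nhds.2 fun ε hε => ?_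
    obtain ⟨n, hn⟩ := exists_pow_lt_of_lt_one (show 0 < ε / 2 by positivity)
      (show (1 / 2 : ℝ) < 1 by norm_num)
    have h2 : ∀ᶠ b in 𝓝 a, ∀ i ∈ Finset.range n, b i = a i := by
      rw [eventually_all_finset]
      intro i _
      exact ((continuous_apply i).tendsto a).eventually
        (show ∀ᶠ c in 𝓝 (a i), c = a i by simp [nhds_discrete])
    filter_upwards [h2] with b hb
    have h3 := hagree b a n fun i hi => hb i (Finset.mem_range.2 hi)
    have h4 := hin a n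
    have h5 := hin b n
    have h6 := hrad a n
    rw [h3] at h5
    have h7 := norm_sub_le (φ b - (nd a n).1.1) (φ a - (nd a n).1.1)
    rw [sub_sub_sub_cancel_right] at h7
    rw [one_div_pow] at hn
    rw [dist_eq_norm]; linarith
  have hinj : Function.Injective φ := fun a b hab => by
    by_contra h2
    exact hR _ (hab ▸ hsep a b h2)
  refine ⟨range φ, ?_, ⟨(hcont.isClosedEmbedding hinj).isEmbedding.toHomeomorph.symm⟩, ?_⟩
  · rintro _ ⟨a, rfl⟩
    exact mem_closure_of_tendsto (hφ a) (Eventually.of_forall fun n => (nd a n).2.1)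
  · rintro _ ⟨a, rfl⟩ _ ⟨b, rfl⟩ hab
    exact hsep a b fun h2 => hab (by rw [h2])

theorem cantor_sphere [CompleteSpace X] [TopologicalSpace.SeparableSpace X]
    (hX : ¬ TopologicalSpace.SeparableSpace (StrongDual ℝ X)) :
    ∃ K : Set X, K ⊆ sphere (0 : X) 1 ∧ Nonempty (K ≃ₜ (ℕ → Bool)) ∧
      ∀ x ∈ K, ∀ y ∈ K, x ≠ y → ∀ f ∈ J x, ∀ g ∈ J y, 1 / 2 ≤ ‖f - g‖ := by
  choose fx hfx using J_nonempty (X := X)
  let G : Set X := {x | ‖x‖ = 1 ∧ Sm x}
  let small : Set X → Prop := fun A =>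
    ∃ T : Set (StrongDual ℝ X), T.Countable ∧ ∀ x ∈ A, ∃ d ∈ T, ‖fx x - d‖ ≤ 1 / 2
  let A : Set X := {x | x ∈ G ∧ ∀ r > 0, ¬ small (G ∩ ball x r)}
  obtain ⟨T0, hT0, hT0'⟩ : small (G \ A) := by
    have h1 : ∀ x ∈ G \ A, ∃ r > 0, small (G ∩ ball x r) := fun x hx => by
      by_contra h2
      push Not at h2
      exact hx.2 ⟨hx.1, h2⟩
    choose! r hr T hT hT' using h1
    obtain ⟨t, ht, htc, hcov⟩ := TopologicalSpace.countable_cover_nhdsWithin
      (f := fun x => ball x (r x)) (s := G \ A)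
      (fun x hx => mem_nhdsWithin_of_mem_nhds (ball_mem_nhds x (hr x hx)))
    refine ⟨⋃ x ∈ t, T x, htc.biUnion fun x hx => hT x (ht hx), fun y hy => ?_⟩
    obtain ⟨x, hx, hyx⟩ := mem_iUnion₂.1 (hcov hy)
    obtain ⟨d, hd, hd'⟩ := hT' x (ht hx) y ⟨hy.1, hyx⟩
    exact ⟨d, mem_biUnion hx hd, hd'⟩
  have hA : A.Nonempty := by
    by_contra h1
    rw [Set.not_nonempty_iff_eq_empty] at h1
    refine hX (sepdual hT0 fun x hx hx' => ⟨fx x, hfx x, hT0' x ⟨⟨hx, hx'⟩, by simp [h1]⟩⟩)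
  obtain ⟨K, hK, hK', hK''⟩ := cantor (A := A)
    (fun x y => ∀ f ∈ J x, ∀ g ∈ J y, 1 / 2 ≤ ‖f - g‖)
    (fun x h => by have := h _ (hfx x) _ (hfx x); norm_num at this)
    (fun x y h f hf g hg => by rw [norm_sub_rev]; exact h g hg f hf) hA
    (fun x hx r hr => by
      obtain ⟨y, hy, hyx, h1⟩ : ∃ y ∈ A, ‖y - x‖ < r ∧ 1 / 2 < ‖fx x - fx y‖ := by
        by_contra h2
        push Not at h2
        refine hx.2 r hr ⟨insert (fx x) T0, hT0.insert _, fun y hy => ?_⟩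
        by_cases h3 : y ∈ A
        · refine ⟨fx x, mem_insert _ _, ?_⟩
          rw [norm_sub_rev]
          exact h2 y h3 (by rw [← dist_eq_norm]; exact hy.2)
        · obtain ⟨d, hd, hd'⟩ := hT0' y ⟨hy.1, h3⟩
          exact ⟨d, mem_insert_of_mem _ hd, hd'⟩
      obtain ⟨u, hu, hu'⟩ : ∃ u : X, ‖u‖ ≤ 1 ∧ 1 / 2 < fx x u - fx y u := by
        obtain ⟨u, hu, hu'⟩ := (fx x - fx y).exists_lt_apply_of_lt_opNorm h1
        rw [Real.norm_eq_abs, sub_apply] at hu'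
        rcases lt_abs.1 hu' with h2 | h2
        · exact ⟨u, hu.le, h2⟩
        · exact ⟨-u, by rw [norm_neg]; exact hu.le, by rw [map_neg, map_neg]; linarith⟩
      have hτ : 0 < (fx x u - fx y u - 1 / 2) / 2 := by linarith
      obtain ⟨r1, hr1, h2⟩ := usc hx.1.2 (hfx x) u hτ
      obtain ⟨r2, hr2, h3⟩ := usc hy.1.2 (hfx y) (-u) hτ
      refine ⟨y, hy, hyx, min r1 r2, lt_min hr1 hr2, fun a b ha hb f hf g hg => ?_⟩
      have h4 := h2 a (ha.trans (min_le_left _ _)) f hf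
      have h5 := h3 b (hb.trans (min_le_right _ _)) g hg
      rw [map_neg, map_neg] at h5
      have h6 := (f - g).le_opNorm u
      rw [Real.norm_eq_abs, sub_apply] at h6
      have h7 : ‖f - g‖ * ‖u‖ ≤ ‖f - g‖ * 1 := by gcongr
      linarith [le_abs_self (f u - g u)])
  refine ⟨K, hK.trans (closure_minimal (fun x hx => ?_) isClosed_sphere), hK', hK''⟩
  simpa using hx.1.1

end Pool.Agent.H5.Simons
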