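import Pool.Agent.H5.Simons2

set_option autoImplicit false

open Metric Set Filter Topology Pointwise

namespace Pool.Agent.H5.Simons

variable {X : Type*} [NormedAddCommGroup X] [NormedSpace ℝ X]

lemma helly (Φ : StrongDual ℝ (StrongDual ℝ X)) {ι : Type*} [Fintype ι] (a : ι → StrongDual ℝ X)
    (s : ι → ℝ) (h : ∀ i, s i < Φ (a i)) : ∃ y : X, ‖y‖ ≤ ‖Φ‖ ∧ ∀ i, s i < a i y := by
  classical
  by_contra hcon
  push Not at hcon
  let L : X →L[ℝ] (ι → ℝ) := ContinuousLinearMap.pi a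
  have hO : IsOpen {w : ι → ℝ | ∀ i, s i < w i} := by
    simp only [Set.ofPred_forall]
    exact isOpen_iInter_of_finite fun i => isOpen_lt continuous_const (continuous_apply i)
  have hOc : Convex ℝ {w : ι → ℝ | ∀ i, s i < w i} := by
    simp only [Set.ofPred_forall]
    exact convex_iInter fun i =>
      convex_halfSpace_gt (LinearMap.proj (R := ℝ) (φ := fun _ : ι => ℝ) i).isLinear (s i)
  obtain ⟨f, u, h1, h2⟩ := geometric_hahn_banach_open hOc hO
    ((convex_closedBall (0 : X) ‖Φ‖).linear_image L.toLinearMap) (by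
      rw [Set.disjoint_left]
      rintro _ hw ⟨y, hy, rfl⟩
      obtain ⟨i, hi⟩ := hcon y (by simpa using hy)
      exact not_lt.2 hi (hw i))
  set ψ : StrongDual ℝ X := f.comp L with hψ
  have h3 : ψ = ∑ i, f (fun j => if i = j then 1 else 0) • a i := by
    ext y
    have := f.toLinearMap.pi_apply_eq_sum_univ (L y)
    simp only [ContinuousLinearMap.coe_coe, smul_eq_mul] at this
    simp only [hψ, ContinuousLinearMap.comp_apply, this, sum_apply,
      smul_apply, smul_eq_mul]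
    exact Finset.sum_congr rfl fun i _ => by simp [L, mul_comm]
  have h4 : Φ ψ = f fun i => Φ (a i) := by
    have := f.toLinearMap.pi_apply_eq_sum_univ fun i => Φ (a i)
    simp only [ContinuousLinearMap.coe_coe, smul_eq_mul] at this
    rw [this, h3, map_sum]
    exact Finset.sum_congr rfl fun i _ => by simp [mul_comm]
  have h5 : Φ ψ < u := h4 ▸ h1 _ h
  have h6 : ∀ y : X, ‖y‖ ≤ ‖Φ‖ → u ≤ ψ y := fun y hy => h2 _ ⟨y, by simpa using hy, rfl⟩
  have h7 := Φ.le_opNorm ψ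
  rw [Real.norm_eq_abs] at h7
  have h8 := neg_abs_le (Φ ψ)
  have h9 := h6 0 (by rw [norm_zero]; exact Φ.opNorm_nonneg)
  rw [map_zero] at h9
  rcases eq_or_lt_of_le (norm_nonneg Φ) with h0 | h0
  · rw [← h0] at h7; linarith
  · have h10 : ‖ψ‖ ≤ -u / ‖Φ‖ := by
      refine ψ.opNorm_le_of_unit_norm (div_nonneg (by linarith) h0.le) fun y hy => ?_
      have h11 := h6 (‖Φ‖ • y) (by rw [norm_smul, hy, Real.norm_of_nonneg h0.le, mul_one])
      have h12 := h6 (-(‖Φ‖ • y)) (by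
        rw [norm_neg, norm_smul, hy, Real.norm_of_nonneg h0.le, mul_one])
      rw [map_neg] at h12
      rw [map_smul, smul_eq_mul] at h11 h12
      rw [Real.norm_eq_abs, abs_le, le_div_iff₀ h0, neg_le, le_div_iff₀ h0]
      constructor <;> linarith
    rw [le_div_iff₀ h0] at h10
    linarith

/-- weak-star open sets -/
def WO (P : Set (StrongDual ℝ X)) : Prop :=
  ∀ c ∈ P, ∃ (F : Finset X) (τ : ℝ), 0 < τ ∧ ∀ a : StrongDual ℝ X, (∀ x ∈ F, |a x - c x| < τ) → a ∈ P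

lemma WO.inter {P Q : Set (StrongDual ℝ X)} (hP : WO P) (hQ : WO Q) : WO (P ∩ Q) := by
  classical
  intro c hc
  obtain ⟨F, τ, hτ, h1⟩ := hP c hc.1
  obtain ⟨G, σ, hσ, h2⟩ := hQ c hc.2
  exact ⟨F ∪ G, min τ σ, lt_min hτ hσ, fun a ha =>
    ⟨h1 a fun x hx => (ha x (Finset.mem_union_left _ hx)).trans_le (min_le_left _ _),
     h2 a fun x hx => (ha x (Finset.mem_union_right _ hx)).trans_le (min_le_right _ _)⟩⟩

lemma WO.pattern (x : ℕ → X) (S : Finset ℕ) (r r' : ℝ) (n : ℕ) :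
    WO {c : StrongDual ℝ X | ∀ i < n, (i ∈ S → r' < c (x i)) ∧ (i ∉ S → c (x i) < r)} := by
  induction n with
  | zero => exact fun c _ => ⟨∅, 1, one_pos, fun a _ => by simp⟩
  | succ n ih =>
    have h1 : WO {c : StrongDual ℝ X | (n ∈ S → r' < c (x n)) ∧ (n ∉ S → c (x n) < r)} := by
      intro c hc
      by_cases h : n ∈ S
      · refine ⟨{x n}, c (x n) - r', by linarith [hc.1 h], fun a ha => ⟨fun _ => ?_, fun h' => absurd h h'⟩⟩
        linarith [(abs_lt.1 (ha _ (Finset.mem_singleton_self _))).1]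
      · refine ⟨{x n}, r - c (x n), by linarith [hc.2 h], fun a ha => ⟨fun h' => absurd h' h, fun _ => ?_⟩⟩
        linarith [(abs_lt.1 (ha _ (Finset.mem_singleton_self _))).2]
    have h2 : {c : StrongDual ℝ X | ∀ i < n + 1, (i ∈ S → r' < c (x i)) ∧ (i ∉ S → c (x i) < r)} =
        {c : StrongDual ℝ X | ∀ i < n, (i ∈ S → r' < c (x i)) ∧ (i ∉ S → c (x i) < r)} ∩
        {c : StrongDual ℝ X | (n ∈ S → r' < c (x n)) ∧ (n ∉ S → c (x n) < r)} := by
      ext c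
      simp only [mem_ofPred_eq, mem_inter_iff, Nat.forall_lt_succ_right]
    rw [h2]
    exact ih.inter h1

lemma indep_seq (Φ : StrongDual ℝ (StrongDual ℝ X)) {C : Set (StrongDual ℝ X)} (hC : C.Nonempty)
    {r r' : ℝ} (h : ∀ P, WO P → (C ∩ P).Nonempty →
      (∃ a ∈ C ∩ P, r' < Φ a) ∧ ∃ a ∈ C ∩ P, Φ a < r) :
    ∃ x : ℕ → X, (∀ n, ‖x n‖ ≤ ‖Φ‖) ∧ ∀ (n : ℕ) (S : Finset ℕ), ∃ c ∈ C,
      ∀ i < n, (i ∈ S → r' < c (x i)) ∧ (i ∉ S → c (x i) < r) := by
  classical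
  let Inv : ℕ → (ℕ → X) → Prop := fun n x => ∀ S : Finset ℕ, ∃ c ∈ C,
    ∀ i < n, (i ∈ S → r' < c (x i)) ∧ (i ∉ S → c (x i) < r)
  have hstep : ∀ n x, ∃ y : X, ‖y‖ ≤ ‖Φ‖ ∧ (Inv n x → Inv (n + 1) (Function.update x n y)) := by
    intro n x
    by_cases hI : Inv n x
    swap
    · exact ⟨0, by rw [norm_zero]; exact Φ.opNorm_nonneg, fun h => absurd h hI⟩
    have h1 := fun S : Finset ℕ => h _ (WO.pattern x S r r' n) (by
      obtain ⟨c, hc, hc'⟩ := hI S
      exact ⟨c, hc, hc'⟩)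
    choose p hp hp' using fun S => (h1 S).1
    choose m hm hm' using fun S => (h1 S).2
    obtain ⟨y, hy, hy'⟩ := helly Φ (ι := (Finset.range n).powerset × Bool)
      (fun i => cond i.2 (p i.1) (-m i.1)) (fun i => cond i.2 r' (-r)) (by
        rintro ⟨S, _ | _⟩
        · simpa using hm' S
        · exact hp' S)
    refine ⟨y, hy, fun _ S => ?_⟩
    have hS : S ∩ Finset.range n ∈ (Finset.range n).powerset :=
      Finset.mem_powerset.2 Finset.inter_subset_right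
    have key : ∀ c ∈ C ∩ {c : StrongDual ℝ X | ∀ i < n, (i ∈ S ∩ Finset.range n → r' < c (x i)) ∧
        (i ∉ S ∩ Finset.range n → c (x i) < r)}, (n ∈ S → r' < c y) → (n ∉ S → c y < r) →
        ∃ c ∈ C, ∀ i < n + 1, (i ∈ S → r' < c (Function.update x n y i)) ∧
          (i ∉ S → c (Function.update x n y i) < r) := by
      intro c hc h2 h3
      refine ⟨c, hc.1, fun i hi => ?_⟩
      rcases Nat.lt_succ_iff_lt_or_eq.1 hi with h4 | rfl
      · rw [Function.update_of_ne h4.ne]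
        have := hc.2 i h4
        simpa [h4] using this
      · rw [Function.update_self]
        exact ⟨h2, h3⟩
    by_cases hn : n ∈ S
    · exact key _ (hp _) (fun _ => hy' (⟨_, hS⟩, true)) fun h => absurd hn h
    · exact key _ (hm _) (fun h => absurd h hn) fun _ => by simpa using hy' (⟨_, hS⟩, false)
  choose y hy hy' using hstep
  obtain ⟨xs, hxs⟩ : ∃ xs : ℕ → ℕ → X, ∀ n, xs (n + 1) = Function.update (xs n) n (y n (xs n)) :=
    ⟨fun n => Nat.rec 0 (fun i x => Function.update x i (y i x)) n, fun _ => rfl⟩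
  have hI : ∀ n, Inv n (xs n) := fun n => by
    induction n with
    | zero =>
      obtain ⟨c, hc⟩ := hC
      exact fun S => ⟨c, hc, by simp⟩
    | succ n ih => rw [hxs]; exact hy' n _ ih
  have hx : ∀ n i, i < n → xs n i = y i (xs i) := fun n => by
    induction n with
    | zero => simp
    | succ n ih =>
      intro i hi
      rw [hxs]
      rcases Nat.lt_succ_iff_lt_or_eq.1 hi with h4 | rfl
      · rw [Function.update_of_ne h4.ne, ih i h4]
      · rw [Function.update_self]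
  refine ⟨fun i => y i (xs i), fun n => hy _ _, fun n S => ?_⟩
  obtain ⟨c, hc, hc'⟩ := hI n S
  refine ⟨c, hc, fun i hi => ?_⟩
  have := hc' i hi
  rwa [hx n i hi] at this

lemma ell_one [CompleteSpace X] {x : ℕ → X} {R δ : ℝ} (hx : ∀ n, ‖x n‖ ≤ R) (hδ : 0 < δ)
    (h : ∀ (a : ℕ → ℝ) (n : ℕ),
      δ * ∑ i ∈ Finset.range n, |a i| ≤ ‖∑ i ∈ Finset.range n, a i • x i‖) :
    ∃ T : (lp (fun _ : ℕ => ℝ) 1) →L[ℝ] X, ∃ c : ℝ, 0 < c ∧ ∀ a, c * ‖a‖ ≤ ‖T a‖ := by
  have h1 : ∀ a : lp (fun _ : ℕ => ℝ) 1, HasSum (fun i => |a i|) ‖a‖ := fun a => by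
    simpa using lp.hasSum_norm (p := 1) (by norm_num) a
  have h2 : ∀ (a : lp (fun _ : ℕ => ℝ) 1) (i : ℕ), ‖a i • x i‖ ≤ R * |a i| := fun a i => by
    rw [norm_smul, Real.norm_eq_abs, mul_comm]
    have := hx i
    gcongr
  have h3 : ∀ a : lp (fun _ : ℕ => ℝ) 1, Summable fun i => a i • x i := fun a =>
    Summable.of_norm_bounded ((h1 a).summable.mul_left R) (h2 a)
  let L : (lp (fun _ : ℕ => ℝ) 1) →ₗ[ℝ] X :=
    { toFun := fun a => ∑' i, a i • x i
      map_add' := fun a b => by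
        rw [← (h3 a).tsum_add (h3 b)]
        exact tsum_congr fun i => by simp [add_smul]
      map_smul' := fun c a => by
        rw [RingHom.id_apply, ← (h3 a).tsum_const_smul c]
        exact tsum_congr fun i => by simp [mul_smul] }
  refine ⟨L.mkContinuous R fun a => tsum_of_norm_bounded ((h1 a).mul_left R) (h2 a), δ, hδ,
    fun a => ?_⟩
  exact le_of_tendsto_of_tendsto' ((h1 a).tendsto_sum_nat.const_mul δ)
    (h3 a).hasSum.tendsto_sum_nat.norm (h a)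

lemma ell_one_of_osc [CompleteSpace X] (Φ : StrongDual ℝ (StrongDual ℝ X))
    {C : Set (StrongDual ℝ X)} (hC : C.Nonempty) (hC1 : C ⊆ closedBall 0 1) {ε : ℝ} (hε : 0 < ε)
    (h : ∀ P, WO P → (C ∩ P).Nonempty → ∃ a ∈ C ∩ P, ∃ a' ∈ C ∩ P, ε < Φ a - Φ a') :
    ∃ T : (lp (fun _ : ℕ => ℝ) 1) →L[ℝ] X, ∃ c : ℝ, 0 < c ∧ ∀ a, c * ‖a‖ ≤ ‖T a‖ := by
  classical
  have hb : ∀ a ∈ C, |Φ a| ≤ ‖Φ‖ := fun a ha => by
    simpa using Φ.unit_le_opNorm a (by simpa using hC1 ha)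
  set T : Set ℝ := {t | ∃ P, WO P ∧ (C ∩ P).Nonempty ∧ ∀ a ∈ C ∩ P, Φ a ≤ t} with hT
  have hTne : T.Nonempty := ⟨‖Φ‖, univ, fun c _ => ⟨∅, 1, one_pos, fun _ _ => trivial⟩,
    by simpa using hC, fun a ha => (le_abs_self _).trans (hb a ha.1)⟩
  have hTb : BddBelow T := ⟨-‖Φ‖, by
    rintro t ⟨P, -, ⟨a, ha⟩, h1⟩
    linarith [h1 a ha, (abs_le.1 (hb a ha.1)).1]⟩
  obtain ⟨t, ⟨W, hW, hWne, hWt⟩, ht⟩ := Real.lt_sInf_add_pos hTne (show 0 < ε / 4 by positivity)
  obtain ⟨x, hx, hx'⟩ := indep_seq Φ (C := C ∩ W) hWne (r := sInf T - 3 * ε / 4)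
    (r' := sInf T - ε / 4) (fun P hP hne => by
      rw [inter_assoc] at hne ⊢
      refine ⟨?_, ?_⟩
      · by_contra h1
        push Not at h1
        linarith [csInf_le hTb ⟨_, hW.inter hP, hne, h1⟩]
      · obtain ⟨a, ha, a', ha', h1⟩ := h _ (hW.inter hP) hne
        exact ⟨a', ha', by linarith [hWt a ⟨ha.1, ha.2.1⟩]⟩)
  refine ell_one hx (δ := ε / 4) (by positivity) fun a n => ?_
  obtain ⟨c, hc, h1⟩ := hx' n ((Finset.range n).filter fun i => 0 ≤ a i)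
  obtain ⟨c', hc', h2⟩ := hx' n ((Finset.range n).filter fun i => ¬ 0 ≤ a i)
  have h3 : ε / 2 * ∑ i ∈ Finset.range n, |a i| ≤
      c (∑ i ∈ Finset.range n, a i • x i) - c' (∑ i ∈ Finset.range n, a i • x i) := by
    rw [map_sum, map_sum, ← Finset.sum_sub_distrib, Finset.mul_sum]
    refine Finset.sum_le_sum fun i hi => ?_
    have hi' := Finset.mem_range.1 hi
    rw [map_smul, map_smul, smul_eq_mul, smul_eq_mul]
    by_cases ha : 0 ≤ a i
    · have h4 := (h1 i hi').1 (by simp [hi', ha])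
      have h5 := (h2 i hi').2 (by simp [ha])
      rw [abs_of_nonneg ha]; nlinarith
    · have h4 := (h1 i hi').2 (by simp [ha])
      have h5 := (h2 i hi').1 (by simp [hi', ha, not_le.1 ha])
      rw [abs_of_neg (not_le.1 ha)]; nlinarith [not_le.1 ha]
  have h4 := le_norm (b := c) (by simpa using hC1 hc.1) (∑ i ∈ Finset.range n, a i • x i)
  have h5 := le_norm (b := c') (by simpa using hC1 hc'.1) (-∑ i ∈ Finset.range n, a i • x i)
  rw [map_neg, norm_neg] at h5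
  linarith

lemma cover [CompleteSpace X] [TopologicalSpace.SeparableSpace X]
    (hX : ¬ ∃ T : (lp (fun _ : ℕ => ℝ) 1) →L[ℝ] X, ∃ c : ℝ, 0 < c ∧ ∀ a, c * ‖a‖ ≤ ‖T a‖)
    (Φ : StrongDual ℝ (StrongDual ℝ X)) {E : Set (StrongDual ℝ X)} (hE : E ⊆ closedBall 0 1)
    {α ε : ℝ} (hε : 0 < ε) (hα : ∀ a ∈ E, Φ a ≤ α) :
    ∃ B : ℕ → Set (StrongDual ℝ X), E ⊆ ⋃ n, B n ∧
      ∀ n, ∀ ψ ∈ wcl (convexHull ℝ (B n)), Φ ψ ≤ α + ε := by
  haveI : Nonempty X := ⟨0⟩
  set e := TopologicalSpace.denseSeq X with he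
  have hed : DenseRange e := TopologicalSpace.denseRange_denseSeq X
  let π : StrongDual ℝ X → ℕ → ℝ := fun a j => a (e j)
  let M : (ℕ → ℝ) → ℕ → Set (ℕ → ℝ) := fun y n => {w | ∀ j < n, |w j - y j| ≤ 1 / ((n : ℝ) + 1)}
  let small : Set (StrongDual ℝ X) → Prop := fun A => ∃ 𝓑 : Set (Set (StrongDual ℝ X)),
    𝓑.Countable ∧ A ⊆ ⋃₀ 𝓑 ∧ ∀ B ∈ 𝓑, ∀ ψ ∈ wcl (convexHull ℝ B), Φ ψ ≤ α + ε
  let s : Set (ℕ → ℝ) := {y | ∃ n, small (E ∩ π ⁻¹' M y n)}
  obtain ⟨𝓑, h𝓑, h𝓑1, h𝓑2⟩ : small (E ∩ π ⁻¹' s) := by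
    have h1 : ∀ y ∈ s, ∃ n, small (E ∩ π ⁻¹' M y n) := fun y hy => hy
    choose! n 𝓑 h𝓑 h𝓑1 h𝓑2 using h1
    obtain ⟨t, ht, htc, hcov⟩ := TopologicalSpace.countable_cover_nhdsWithin
      (f := fun y => M y (n y)) (s := s) (fun y _ => mem_nhdsWithin_of_mem_nhds (by
        have h2 : ∀ᶠ w in 𝓝 y, ∀ j ∈ Finset.range (n y), |w j - y j| ≤ 1 / ((n y : ℝ) + 1) := by
          rw [eventually_all_finset]
          intro j _
          have h3 : Continuous fun w : ℕ → ℝ => |w j - y j| := by fun_prop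
          exact (h3.tendsto y).eventually (ge_mem_nhds (by simp; positivity))
        filter_upwards [h2] with w hw j hj using hw j (Finset.mem_range.2 hj)))
    refine ⟨⋃ y ∈ t, 𝓑 y, htc.biUnion fun y hy => h𝓑 y (ht hy), fun a ha => ?_, fun B hB => ?_⟩
    · obtain ⟨y, hy, hay⟩ := mem_iUnion₂.1 (hcov ha.2)
      obtain ⟨B, hB, haB⟩ := h𝓑1 y (ht hy) ⟨ha.1, hay⟩
      exact ⟨B, mem_biUnion hy hB, haB⟩
    · obtain ⟨y, hy, hB'⟩ := mem_iUnion₂.1 hB
      exact h𝓑2 y (ht hy) B hB'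
  have hEs : E ⊆ π ⁻¹' s := by
    by_contra hne
    obtain ⟨x0, hx0⟩ : (E \ π ⁻¹' s).Nonempty := Set.not_subset.1 hne
    set C := wcl (convexHull ℝ (E \ π ⁻¹' s)) with hC
    have hC0 : convexHull ℝ (E \ π ⁻¹' s) ⊆ C := subset_wcl _
    have hC1 : C ⊆ closedBall 0 1 := wcl_ball zero_le_one
      (convexHull_min (sdiff_subset.trans hE) (convex_closedBall _ _))
    have hCv : Convex ℝ C := convex_wcl (convex_convexHull ℝ _)
    let O : Set (StrongDual ℝ X) := {c | ∀ n, ∃ a ∈ C ∩ π ⁻¹' M (π c) n,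
      ∃ a' ∈ C ∩ π ⁻¹' M (π c) n, ε < Φ a - Φ a'}
    have hMv : ∀ (c c' a a' : StrongDual ℝ X) (n : ℕ) (p q : ℝ), 0 ≤ p → 0 ≤ q → p + q = 1 →
        π a ∈ M (π c) n → π a' ∈ M (π c') n → π (p • a + q • a') ∈ M (π (p • c + q • c')) n := by
      intro c c' a a' n p q hp hq hpq h1 h2 j hj
      have h3 := abs_le.1 (h1 j hj)
      have h4 := abs_le.1 (h2 j hj)
      simp only [π, add_apply, smul_apply, smul_eq_mul] at h3 h4 ⊢
      obtain rfl : q = 1 - p := by linarith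
      rw [abs_le]
      constructor <;> nlinarith
    have hO : convexHull ℝ (E \ π ⁻¹' s) ⊆ O := by
      refine convexHull_min (fun x hx n => ?_) ?_
      · by_contra h1
        push Not at h1
        refine hx.2 ⟨n, insert ((E \ π ⁻¹' s) ∩ π ⁻¹' M (π x) n) 𝓑, h𝓑.insert _, fun a ha => ?_, ?_⟩
        · by_cases h2 : a ∈ π ⁻¹' s
          · obtain ⟨B, hB, haB⟩ := h𝓑1 ⟨ha.1, h2⟩
            exact ⟨B, mem_insert_of_mem _ hB, haB⟩
          · exact ⟨_, mem_insert _ _, ⟨ha.1, h2⟩, ha.2⟩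
        · rintro B (rfl | hB) ψ hψ
          · have h2 : convexHull ℝ ((E \ π ⁻¹' s) ∩ π ⁻¹' M (π x) n) ⊆ π ⁻¹' M (π x) n := by
              refine convexHull_min inter_subset_right fun a ha a' ha' p q hp hq hpq => ?_
              have := hMv x x a a' n p q hp hq hpq ha ha'
              rwa [← add_smul, hpq, one_smul] at this
            have h3 := h1 ψ ⟨wcl_mono (convexHull_mono inter_subset_left) hψ, fun j hj => ?_⟩ x
              ⟨hC0 (subset_convexHull _ _ hx), fun j _ => by simp; positivity⟩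
            · linarith [hα x hx.1]
            · have h4 := wcl_le (x := e j) (t := x (e j) + 1 / ((n : ℝ) + 1))
                (fun a ha => by linarith [(abs_le.1 (h2 ha j hj)).2]) hψ
              have h5 := wcl_le (x := -e j) (t := -x (e j) + 1 / ((n : ℝ) + 1))
                (fun a ha => by rw [map_neg]; linarith [(abs_le.1 (h2 ha j hj)).1]) hψ
              rw [map_neg] at h5
              rw [abs_le]
              constructor <;> simp only [π] <;> linarith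
          · exact h𝓑2 B hB ψ hψ
      · intro c hc c' hc' p q hp hq hpq n
        obtain ⟨a, ha, b, hb, h1⟩ := hc n
        obtain ⟨a', ha', b', hb', h2⟩ := hc' n
        refine ⟨p • a + q • a', ⟨hCv ha.1 ha'.1 hp hq hpq, hMv _ _ _ _ n p q hp hq hpq ha.2 ha'.2⟩,
          p • b + q • b', ⟨hCv hb.1 hb'.1 hp hq hpq, hMv _ _ _ _ n p q hp hq hpq hb.2 hb'.2⟩, ?_⟩
        simp only [map_add, map_smul, smul_eq_mul]
        obtain rfl : q = 1 - p := by linarith
        rcases eq_or_lt_of_le hp with rfl | hp'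
        · linarith
        · nlinarith
    refine hX (ell_one_of_osc Φ ⟨x0, hC0 (subset_convexHull _ _ hx0)⟩ hC1 hε ?_)
    rintro P hP ⟨c, hc, hcP⟩
    obtain ⟨F, τ, hτ, hF⟩ := hP c hcP
    obtain ⟨ψ, hψ, hψc⟩ := hc F (τ / 4) (by positivity)
    choose j hj using fun x : X => hed.exists_dist_lt x (ε := τ / 8) (by positivity)
    obtain ⟨n0, hn0⟩ := exists_nat_one_div_lt (show 0 < τ / 4 by positivity)
    set n := max n0 (F.sup j + 1) with hn
    have key : ∀ a ∈ C ∩ π ⁻¹' M (π ψ) n, a ∈ C ∩ P := fun a ha => ⟨ha.1, hF a fun x hx => by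
      have h1 := ha.2 (j x) (lt_of_lt_of_le (Nat.lt_succ_of_le (Finset.le_sup hx)) (le_max_right _ _))
      have h2 : 1 / ((n : ℝ) + 1) ≤ 1 / ((n0 : ℝ) + 1) := by
        have : (n0 : ℝ) ≤ n := by exact_mod_cast le_max_left _ _
        gcongr
      have h3 := hj x
      rw [dist_eq_norm] at h3
      have h4 : ∀ b ∈ C, |b x - b (e (j x))| ≤ τ / 8 := fun b hb => by
        have h5 := b.le_of_opNorm_le (show ‖b‖ ≤ 1 by simpa using hC1 hb) (x - e (j x))
        rw [Real.norm_eq_abs, map_sub] at h5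
        linarith
      have h5 := abs_le.1 (h4 a ha.1)
      have h6 := abs_le.1 (h4 ψ (hC0 hψ))
      have h7 := abs_lt.1 (hψc x hx)
      have h8 := abs_le.1 h1
      simp only [π] at h8
      rw [abs_lt]
      constructor <;> linarith⟩
    obtain ⟨a, ha, a', ha', h1⟩ := hO hψ n
    exact ⟨a, key a ha, a', key a' ha', h1⟩
  obtain ⟨B, hB⟩ := (h𝓑.insert ∅).exists_eq_range (insert_nonempty _ _)
  refine ⟨B, fun a ha => ?_, fun n ψ hψ => ?_⟩
  · obtain ⟨D, hD, haD⟩ := h𝓑1 ⟨ha, hEs ha⟩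
    obtain ⟨n, rfl⟩ : D ∈ range B := hB ▸ mem_insert_of_mem _ hD
    exact mem_iUnion.2 ⟨n, haD⟩
  · rcases (show B n ∈ insert ∅ 𝓑 from hB ▸ mem_range_self n) with h1 | h1
    · obtain ⟨χ, hχ, -⟩ := hψ ∅ 1 one_pos
      simp [h1] at hχ
    · exact h𝓑2 _ h1 ψ hψ

theorem godefroy [CompleteSpace X] [TopologicalSpace.SeparableSpace X]
    (hX : ¬ ∃ T : (lp (fun _ : ℕ => ℝ) 1) →L[ℝ] X, ∃ c : ℝ, 0 < c ∧ ∀ a, c * ‖a‖ ≤ ‖T a‖)
    {E : Set (StrongDual ℝ X)} (hE : E ⊆ closedBall 0 1) (H : ∀ x, Sm x → ∃ f ∈ J x, f ∈ E) :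
    closure (convexHull ℝ E) = closedBall 0 1 := by
  refine Subset.antisymm (closure_minimal (convexHull_min hE (convex_closedBall _ _))
    isClosed_closedBall) fun g0 hg0 => ?_
  by_contra hcon
  obtain ⟨Φ, α, h1, h2⟩ := geometric_hahn_banach_closed_point (convex_convexHull ℝ E).closure
    isClosed_closure hcon
  obtain ⟨B, hB, hB'⟩ := cover hX Φ hE (α := α) (ε := (Φ g0 - α) / 2) (by linarith)
    fun a ha => (h1 a (subset_closure (subset_convexHull _ _ ha))).le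
  have h3 := ienv B (fun x hx => by
    obtain ⟨f, hf, hfE⟩ := H x hx
    exact ⟨f, hf, mem_iUnion.1 (hB hfE)⟩) hg0
  have h4 : closure (convexHull ℝ (⋃ n, wcl (convexHull ℝ (B n)))) ⊆
      {ψ | Φ ψ ≤ α + (Φ g0 - α) / 2} :=
    closure_minimal (convexHull_min (iUnion_subset fun n ψ hψ => hB' n ψ hψ)
      (convex_halfSpace_le Φ.toLinearMap.isLinear _)) (isClosed_le Φ.continuous continuous_const)
  have h5 : Φ g0 ≤ α + (Φ g0 - α) / 2 := h4 h3
  linarith

end Pool.Agent.H5.Simons
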