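import Mathlib

set_option autoImplicit false

open Metric Set

namespace Pool.Agent.H5.StarFin

variable {X : Type*} [NormedAddCommGroup X] [NormedSpace ℝ X]

lemma exists_min {ι : Type*} (B : ι → Set X) (hcov : ∀ x, ∃ i, x ∈ B i)
    (hfin : ∀ x, {i | x ∈ B i}.Finite) :
    ∃ I : Set ι, (∀ x, ∃ i ∈ I, x ∈ B i) ∧ ∀ i ∈ I, ∃ x ∈ B i, ∀ j ∈ I, j ≠ i → x ∉ B j := by
  obtain ⟨I, -, hI⟩ := zorn_superset_nonempty {I : Set ι | ∀ x, ∃ i ∈ I, x ∈ B i} (by
    intro c hc hchain hne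
    refine ⟨⋂₀ c, fun x => ?_, fun s hs => sInter_subset_of_mem hs⟩
    by_contra h
    push Not at h
    have h1 : ∀ i : {i | x ∈ B i}, ∃ s ∈ c, i.1 ∉ s := fun i => by
      by_contra h2
      push Not at h2
      exact h i.1 (fun s hs => h2 s hs) i.2
    choose s hs hs' using h1
    haveI := (hfin x).to_subtype
    haveI : Nonempty c := hne.to_subtype
    have hdir : Directed (fun a b : Set ι => b ⊆ a) (fun s : c => s.1) := by
      intro a b
      rcases hchain.total a.2 b.2 with h2 | h2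
      · exact ⟨a, subset_rfl, h2⟩
      · exact ⟨b, h2, subset_rfl⟩
    obtain ⟨t, ht⟩ := hdir.finite_le (fun i => (⟨s i, hs i⟩ : c))
    obtain ⟨i, hi, hxi⟩ := hc t.2 x
    exact hs' ⟨i, hxi⟩ (ht ⟨i, hxi⟩ hi)) univ (fun x => by simpa using hcov x)
  refine ⟨I, hI.1, fun i hi => ?_⟩
  by_contra h
  push Not at h
  have h1 : I \ {i} ∈ {I : Set ι | ∀ x, ∃ i ∈ I, x ∈ B i} := by
    intro x
    obtain ⟨j, hj, hx⟩ := hI.1 x
    by_cases hji : j = i
    · subst hji
      obtain ⟨k, hk, hkj, hxk⟩ := h x hx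
      exact ⟨k, ⟨hk, hkj⟩, hxk⟩
    · exact ⟨j, ⟨hj, hji⟩, hx⟩
  exact (hI.2 h1 sdiff_subset hi).2 rfl

lemma exists_ker (hX : ¬ FiniteDimensional ℝ X) {κ : Type*} [Finite κ] (f : κ → X →L[ℝ] ℝ) :
    ∃ u : X, u ≠ 0 ∧ ∀ j, f j u = 0 := by
  by_contra h
  push Not at h
  apply hX
  refine FiniteDimensional.of_injective (LinearMap.pi fun j => (f j : X →ₗ[ℝ] ℝ)) ?_
  rw [injective_iff_map_eq_zero]
  intro u hu
  by_contra h0
  obtain ⟨j, hj⟩ := h u h0
  exact hj (congrFun hu j)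

lemma far {ι : Type*} (c : ι → X) (r : ι → ℝ) {F : Set ι} (hF : F.Finite) {p : X}
    (hp : ∀ j ∈ F, p ∉ closedBall (c j) (r j)) :
    ∃ ε > 0, ∀ j ∈ F, ∀ y ∈ closedBall (c j) (r j), ε ≤ ‖y - p‖ := by
  have h1 : IsClosed (⋃ j ∈ F, closedBall (c j) (r j)) :=
    hF.isClosed_biUnion fun _ _ => isClosed_closedBall
  obtain ⟨ε, hε, h2⟩ := Metric.isOpen_iff.1 h1.isOpen_compl p (by simpa using hp)
  refine ⟨ε, hε, fun j hj y hy => ?_⟩
  by_contra h3
  exact h2 (by rw [mem_ball, dist_eq_norm]; exact not_le.1 h3) (mem_biUnion hj hy)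

lemma excl (hX : ¬ FiniteDimensional ℝ X) {ι : Type*} (c : ι → X) (r : ι → ℝ)
    (hstar : ∀ i, {j | (closedBall (c i) (r i) ∩ closedBall (c j) (r j)).Nonempty}.Finite)
    (i : ι) {x : X} (hx : x ∈ closedBall (c i) (r i))
    (hx' : ∀ j, j ≠ i → x ∉ closedBall (c j) (r j)) :
    ∃ y, ‖y - c i‖ = r i ∧ ∀ j, j ≠ i → y ∉ closedBall (c j) (r j) := by
  let κ := {j // j ≠ i ∧ (closedBall (c i) (r i) ∩ closedBall (c j) (r j)).Nonempty}
  haveI : Finite κ := ((hstar i).subset (fun j hj => hj.2) :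
    {j | j ≠ i ∧ (closedBall (c i) (r i) ∩ closedBall (c j) (r j)).Nonempty}.Finite).to_subtype
  have h1 : ∀ j : κ, ∃ (f : StrongDual ℝ X) (u : ℝ),
      (∀ a ∈ closedBall (c j.1) (r j.1), f a < u) ∧ u < f x := fun j =>
    geometric_hahn_banach_closed_point (convex_closedBall _ _) isClosed_closedBall (hx' j.1 j.2.1)
  choose f u hf hu using h1
  obtain ⟨w, hw0, hw⟩ := exists_ker hX f
  have hwn : 0 < ‖w‖ := norm_pos_iff.2 hw0
  rw [mem_closedBall, dist_eq_norm] at hx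
  have hr0 : 0 ≤ r i := (norm_nonneg _).trans hx
  have hcont : Continuous fun t : ℝ => ‖x + t • w - c i‖ := by fun_prop
  obtain ⟨t, -, ht⟩ : r i ∈ (fun t : ℝ => ‖x + t • w - c i‖) '' Icc 0 (2 * r i / ‖w‖) := by
    refine intermediate_value_Icc (by positivity) hcont.continuousOn ⟨by simpa using hx, ?_⟩
    have h2 : (2 * r i / ‖w‖) • w = (x + (2 * r i / ‖w‖) • w - c i) - (x - c i) := by abel
    have h3 := norm_sub_le (x + (2 * r i / ‖w‖) • w - c i) (x - c i)
    rw [← h2, norm_smul, Real.norm_of_nonneg (by positivity), div_mul_cancel₀ _ hwn.ne'] at h3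
    show r i ≤ ‖x + (2 * r i / ‖w‖) • w - c i‖
    linarith
  refine ⟨x + t • w, ht, fun j hj hy => ?_⟩
  have h2 : x + t • w ∈ closedBall (c i) (r i) := by
    rw [mem_closedBall, dist_eq_norm]; exact ht.le
  have h3 := hf ⟨j, hj, _, h2, hy⟩ _ hy
  have h4 := hu ⟨j, hj, _, h2, hy⟩
  rw [map_add, map_smul, hw] at h3
  simp at h3
  linarith

/-- near `x0` every point of the sphere of the ball `i` is approached by balls of radius `≥ δ` -/
def Gen {ι : Type*} (c : ι → X) (r : ι → ℝ) (i : ι) (x0 : X) (η δ : ℝ) : Prop :=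
  ∀ p, ‖p - c i‖ = r i → ‖p - x0‖ < η → ∀ ε > 0, ∀ F : Set ι, F.Finite →
    ∃ j ∉ F, δ ≤ r j ∧ ∃ y ∈ closedBall (c j) (r j), ‖y - p‖ < ε

lemma exists_gen [CompleteSpace X] (hX : ¬ FiniteDimensional ℝ X) {ι : Type*} (c : ι → X)
    (r : ι → ℝ) (hr : ∀ i, 0 < r i) (hcov : ∀ x, ∃ i, x ∈ closedBall (c i) (r i))
    (hstar : ∀ i, {j | (closedBall (c i) (r i) ∩ closedBall (c j) (r j)).Nonempty}.Finite)
    (hmin : ∀ i, ∃ x ∈ closedBall (c i) (r i), ∀ j, j ≠ i → x ∉ closedBall (c j) (r j)) :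
    ∃ i x0 η δ, ‖x0 - c i‖ = r i ∧ 0 < η ∧ 0 < δ ∧ Gen c r i x0 η δ := by
  have hex : ∀ i, ∃ y, ‖y - c i‖ = r i ∧ ∀ j, j ≠ i → y ∉ closedBall (c j) (r j) := fun i => by
    obtain ⟨x, hx, hx'⟩ := hmin i
    exact excl hX c r hstar i hx hx'
  set E : Set X := {y | ∃ i, ‖y - c i‖ = r i ∧ ∀ j, j ≠ i → y ∉ closedBall (c j) (r j)} with hE
  set S := closure E with hS
  have hSn : S.Nonempty := by
    obtain ⟨i, -⟩ := hcov 0
    obtain ⟨y, hy⟩ := hex i
    exact ⟨y, subset_closure ⟨i, hy⟩⟩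
  let Sn : ℕ → Set X := fun n =>
    {z | ∃ k, 1 / ((n : ℝ) + 1) ≤ r k ∧ z ∈ closedBall (c k) (r k)}
  haveI : CompleteSpace S := isClosed_closure.completeSpace_coe
  haveI : Nonempty S := hSn.to_subtype
  obtain ⟨n, z0, hz0⟩ := nonempty_interior_of_iUnion_of_closed
    (f := fun n : ℕ => (Subtype.val : S → X) ⁻¹' closure (Sn n))
    (fun n => isClosed_closure.preimage continuous_subtype_val)
    (by
      refine Set.eq_univ_of_forall fun z => ?_
      obtain ⟨k, hk⟩ := hcov z.1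
      obtain ⟨n, hn⟩ := exists_nat_one_div_lt (hr k)
      exact Set.mem_iUnion.2 ⟨n, subset_closure ⟨k, hn.le, hk⟩⟩)
  obtain ⟨ρ, hρ, hball⟩ := Metric.isOpen_iff.1 isOpen_interior z0 hz0
  have hU : ∀ z ∈ S, ‖z - z0.1‖ < ρ → z ∈ closure (Sn n) := fun z hz h => by
    have h1 : (⟨z, hz⟩ : S) ∈ (Subtype.val : S → X) ⁻¹' closure (Sn n) :=
      interior_subset
        (hball (a := ⟨z, hz⟩) (by rw [mem_ball, Subtype.dist_eq, dist_eq_norm]; exact h))
    exact h1
  obtain ⟨x1, ⟨i, hx1, hx1'⟩, hx1z⟩ := Metric.mem_closure_iff.1 z0.2 (ρ / 2) (by positivity)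
  rw [dist_comm, dist_eq_norm] at hx1z
  obtain ⟨η0, hη0, hη0'⟩ := far c r ((hstar i).subset (fun j hj => hj.2) :
    {j | j ≠ i ∧ (closedBall (c i) (r i) ∩ closedBall (c j) (r j)).Nonempty}.Finite) (p := x1)
    (fun j hj => hx1' j hj.1)
  set η1 := min η0 (ρ / 4) with hη1
  have hη1pos : 0 < η1 := lt_min hη0 (by positivity)
  have H1 : ∀ p, ‖p - c i‖ = r i → ‖p - x1‖ < η1 → ∀ F : Set ι, F.Finite →
      ∃ ε > 0, ∀ j ∈ F, j ≠ i → ∀ y ∈ closedBall (c j) (r j), ε ≤ ‖y - p‖ := by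
    intro p hp hp' F hF
    obtain ⟨ε, hε, h⟩ := far c r (hF.subset (fun j hj => hj.1) : {j | j ∈ F ∧ j ≠ i}.Finite)
      (p := p) (fun j hj hpj => by
        have h1 : p ∈ closedBall (c i) (r i) := by
          rw [mem_closedBall, dist_eq_norm]; exact hp.le
        have h2 := hη0' j ⟨hj.2, p, h1, hpj⟩ p hpj
        have h3 : η1 ≤ η0 := min_le_left _ _
        linarith)
    exact ⟨ε, hε, fun j hj hji => h j ⟨hj, hji⟩⟩
  by_cases hA : ∀ p, ‖p - c i‖ = r i → ‖p - x1‖ < η1 → p ∈ closure (S \ closedBall (c i) (r i))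
  · refine ⟨i, x1, η1, 1 / ((n : ℝ) + 1), hx1, hη1pos, by positivity, fun p hp hp' ε hε F hF => ?_⟩
    obtain ⟨ε1, hε1, h1⟩ := H1 p hp hp' F hF
    set e := min (min ε ε1) (ρ / 4) with he
    have he0 : 0 < e := lt_min (lt_min hε hε1) (by positivity)
    have he1 : e ≤ ε := (min_le_left _ _).trans (min_le_left _ _)
    have he2 : e ≤ ε1 := (min_le_left _ _).trans (min_le_right _ _)
    have he3 : e ≤ ρ / 4 := min_le_right _ _
    obtain ⟨q, ⟨hqS, hqB⟩, hqp⟩ := Metric.mem_closure_iff.1 (hA p hp hp') e he0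
    have h2 : ‖q - z0.1‖ < ρ := by
      rw [dist_comm, dist_eq_norm] at hqp
      have h3 : q - z0.1 = (q - p) + (p - x1) + (x1 - z0.1) := by abel
      have h4 := norm_add₃_le (a := q - p) (b := p - x1) (c := x1 - z0.1)
      have h5 : η1 ≤ ρ / 4 := min_le_right _ _
      rw [h3]; linarith
    obtain ⟨y, ⟨hyB, hyp⟩, k, hk, hyk⟩ := mem_closure_iff.1 (hU q hqS h2)
      ((closedBall (c i) (r i))ᶜ ∩ ball p e) (isClosed_closedBall.isOpen_compl.inter isOpen_ball)
      ⟨hqB, by rw [mem_ball, dist_comm]; exact hqp⟩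
    rw [mem_ball, dist_eq_norm] at hyp
    have hki : k ≠ i := fun h => hyB (h ▸ hyk)
    refine ⟨k, fun hkF => ?_, hk, y, hyk, by linarith⟩
    have := h1 k hkF hki y hyk
    linarith
  · push Not at hA
    obtain ⟨p0, hp0, hp0', hp0S⟩ := hA
    obtain ⟨σ0, hσ0, hσ0'⟩ := Metric.isOpen_iff.1 isClosed_closure.isOpen_compl p0 hp0S
    set σ := min σ0 (η1 - ‖p0 - x1‖) with hσ
    have hσpos : 0 < σ := lt_min hσ0 (by linarith)
    have hσ1 : σ ≤ σ0 := min_le_left _ _
    have hσ2 : σ ≤ η1 - ‖p0 - x1‖ := min_le_right _ _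
    refine ⟨i, p0, σ / 4, σ / 4, hp0, by positivity, by positivity, fun p hp hp' ε hε F hF => ?_⟩
    have hpx : ‖p - x1‖ < η1 := by
      have h3 : p - x1 = (p - p0) + (p0 - x1) := by abel
      have h4 := norm_add_le (p - p0) (p0 - x1)
      rw [h3]; linarith
    obtain ⟨ε1, hε1, h1⟩ := H1 p hp hpx F hF
    set e := min (min ε ε1) (σ / 4) with he
    have he0 : 0 < e := lt_min (lt_min hε hε1) (by positivity)
    have he1 : e ≤ ε := (min_le_left _ _).trans (min_le_left _ _)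
    have he2 : e ≤ ε1 := (min_le_left _ _).trans (min_le_right _ _)
    have he3 : e ≤ σ / 4 := min_le_right _ _
    have hri := hr i
    set y := p + (e / (2 * r i)) • (p - c i) with hy
    have hyp : ‖y - p‖ = e / 2 := by
      rw [hy, add_sub_cancel_left, norm_smul, hp, Real.norm_of_nonneg (by positivity)]
      field_simp
    have hyB : y ∉ closedBall (c i) (r i) := by
      rw [mem_closedBall, dist_eq_norm, not_le]
      have h2 : y - c i = (1 + e / (2 * r i)) • (p - c i) := by rw [hy, add_smul, one_smul]; abel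
      rw [h2, norm_smul, hp, Real.norm_of_nonneg (by positivity)]
      have : 0 < e / (2 * r i) * r i := by positivity
      linarith
    obtain ⟨k, hyk⟩ := hcov y
    have hki : k ≠ i := fun h => hyB (h ▸ hyk)
    refine ⟨k, fun hkF => ?_, ?_, y, hyk, by linarith⟩
    · have := h1 k hkF hki y hyk
      linarith
    · by_contra h2
      push Not at h2
      obtain ⟨z, hz, hz'⟩ := hex k
      have h3 : z ∈ S \ closedBall (c i) (r i) := ⟨subset_closure ⟨k, hz, hz'⟩, hz' i hki.symm⟩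
      refine hσ0' (a := z) ?_ (subset_closure h3)
      rw [mem_closedBall, dist_eq_norm] at hyk
      rw [mem_ball, dist_eq_norm]
      have h4 : z - p0 = (z - c k) - (y - c k) + (y - p) + (p - p0) := by abel
      have h5 := norm_add₃_le (a := (z - c k) - (y - c k)) (b := y - p) (c := p - p0)
      have h6 := norm_sub_le (z - c k) (y - c k)
      rw [h4]; linarith

lemma axis {c y : X} {r : ℝ} (hr : 0 < r) (hy : y ∈ closedBall c r) :
    ∃ v : X, ‖v‖ ≤ 1 ∧ c = y + r • v := by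
  rw [mem_closedBall, dist_comm, dist_eq_norm] at hy
  refine ⟨r⁻¹ • (c - y), ?_, ?_⟩
  · rw [norm_smul, norm_inv, Real.norm_of_nonneg hr.le, inv_mul_le_iff₀ hr]; linarith
  · rw [smul_smul, mul_inv_cancel₀ hr.ne', one_smul]; abel

lemma norm_smul_le' {v : X} (hv : ‖v‖ ≤ 1) {a : ℝ} (ha : 0 ≤ a) : ‖a • v‖ ≤ a := by
  rw [norm_smul, Real.norm_of_nonneg ha]
  nlinarith

lemma small_t {k v : X} (hv : ‖v‖ ≤ 1) {α β t e : ℝ} (hα : 0 < α) (ht : α * t ≤ β)
    (h : α + β - e ≤ ‖α • k + β • v‖) : 1 + t - e / α ≤ ‖k + t • v‖ := by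
  have h1 : α • k + β • v = α • (k + t • v) + (β - α * t) • v := by
    rw [smul_add, smul_smul, sub_smul]; abel
  have h2 := norm_add_le (α • (k + t • v)) ((β - α * t) • v)
  rw [← h1, norm_smul, Real.norm_of_nonneg hα.le] at h2
  have h3 := norm_smul_le' hv (a := β - α * t) (by linarith)
  have h4 : α * (1 + t - e / α) ≤ α * ‖k + t • v‖ := by
    have : α * (1 + t - e / α) = α + α * t - e := by field_simp
    rw [this]; linarith
  exact le_of_mul_le_mul_left h4 hα

/-- at a generic boundary point the norm is as rough as possible -/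
lemma rough {ι : Type*} (c : ι → X) (r : ι → ℝ) (hr : ∀ i, 0 < r i)
    (hstar : ∀ i, {j | (closedBall (c i) (r i) ∩ closedBall (c j) (r j)).Nonempty}.Finite)
    {i : ι} {k : X} {η δ : ℝ} (hk : ‖k‖ = 1) (hη : 0 < η) (hδ : 0 < δ)
    (hG : Gen c r i (c i + r i • k) η δ) {t : ℝ} (ht1 : t ≤ 1) (ht2 : r i * t ≤ δ) (ht0 : 0 ≤ t)
    {e : ℝ} (he : 0 < e) :
    ∃ v : X, ‖v‖ ≤ 1 ∧ 1 + t - e ≤ ‖k + t • v‖ ∧ 1 + t - e ≤ ‖k - t • v‖ := by
  have hri := hr i
  set x0 := c i + r i • k with hx0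
  have hx0c : x0 - c i = r i • k := by rw [hx0]; abel
  have hx0n : ‖x0 - c i‖ = r i := by
    rw [hx0c, norm_smul, hk, Real.norm_of_nonneg hri.le, mul_one]
  set s := min (min δ (r i / 2)) (η / 8) with hs
  have hs0 : 0 < s := lt_min (lt_min hδ (by positivity)) (by positivity)
  have hs1 : s ≤ δ := (min_le_left _ _).trans (min_le_left _ _)
  have hs2 : s ≤ r i / 2 := (min_le_left _ _).trans (min_le_right _ _)
  have hs3 : s ≤ η / 8 := min_le_right _ _
  set ε := min (η / 8) (e * s / 3) with hε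
  have hε0 : 0 < ε := lt_min (by positivity) (by positivity)
  have hε1 : ε ≤ η / 8 := min_le_left _ _
  have hε2 : ε ≤ e * s / 3 := min_le_right _ _
  have hdisj : ∀ a b, b ∉ {j | (closedBall (c a) (r a) ∩ closedBall (c j) (r j)).Nonempty} →
      r a + r b < ‖c b - c a‖ := by
    intro a b h
    have h1 : Disjoint (closedBall (c a) (r a)) (closedBall (c b) (r b)) := by
      rw [Set.disjoint_iff_inter_eq_empty]
      exact Set.not_nonempty_iff_eq_empty.1 h
    rw [disjoint_closedBall_closedBall_iff (hr a).le (hr b).le, dist_comm, dist_eq_norm] at h1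
    exact h1
  obtain ⟨j1, hj1, hδ1, y1, hy1, hy1x⟩ := hG x0 hx0n (by simpa using hη) ε hε0 _ (hstar i)
  obtain ⟨v1, hv1, hc1⟩ := axis (hr j1) hy1
  have hd1 := hdisj i j1 hj1
  set b := y1 + s • (v1 - k) with hb
  have hbc : r i < ‖b - c i‖ := by
    have h1 : c j1 - c i = (b - c i) + (r j1 - s) • v1 + s • k := by
      rw [hc1, hb, smul_sub, sub_smul]; abel
    have h2 := norm_add₃_le (a := b - c i) (b := (r j1 - s) • v1) (c := s • k)
    have h3 := norm_smul_le' hv1 (a := r j1 - s) (by linarith)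
    have h4 := norm_smul_le' hk.le hs0.le
    rw [← h1] at h2
    linarith
  have hbc0 : b - c i = (y1 - x0) + (r i - s) • k + s • v1 := by
    rw [hb, hx0, smul_sub, sub_smul]; abel
  have hbc' : ‖b - c i‖ ≤ r i + ε := by
    have h2 := norm_add₃_le (a := y1 - x0) (b := (r i - s) • k) (c := s • v1)
    have h3 := norm_smul_le' hk.le (a := r i - s) (by linarith)
    have h4 := norm_smul_le' hv1 hs0.le
    rw [hbc0]; linarith
  have hbn : 0 < ‖b - c i‖ := hri.trans hbc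
  set p := c i + (r i / ‖b - c i‖) • (b - c i) with hp
  have hpn : ‖p - c i‖ = r i := by
    rw [hp, add_sub_cancel_left, norm_smul, Real.norm_of_nonneg (by positivity)]
    field_simp
  have hpb : ‖p - b‖ ≤ ε := by
    have h1 : p - b = -((1 - r i / ‖b - c i‖) • (b - c i)) := by
      rw [hp, sub_smul, one_smul]; abel
    have h2 : 0 ≤ 1 - r i / ‖b - c i‖ := by
      rw [sub_nonneg, div_le_one hbn]; exact hbc.le
    rw [h1, norm_neg, norm_smul, Real.norm_of_nonneg h2, sub_mul, one_mul,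
      div_mul_cancel₀ _ hbn.ne']
    linarith
  have hpx : ‖p - x0‖ < η := by
    have h1 : p - x0 = (p - b) + (y1 - x0) + (s • v1 - s • k) := by rw [hb, smul_sub]; abel
    have h2 := norm_add₃_le (a := p - b) (b := y1 - x0) (c := s • v1 - s • k)
    have h3 := norm_sub_le (s • v1) (s • k)
    have h4 := norm_smul_le' hv1 hs0.le
    have h5 := norm_smul_le' hk.le hs0.le
    rw [h1]; linarith
  obtain ⟨j, hj, hδj, y, hy, hyp⟩ := hG p hpn hpx ε hε0 _ ((hstar i).union (hstar j1))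
  obtain ⟨v, hv, hc⟩ := axis (hr j) hy
  have hd2 := hdisj i j fun h => hj (Or.inl h)
  have hd3 := hdisj j1 j fun h => hj (Or.inr h)
  have hyb : ‖y - b‖ ≤ 2 * ε := by
    have h1 : y - b = (y - p) + (p - b) := by abel
    have h2 := norm_add_le (y - p) (p - b)
    rw [h1]; linarith
  have h5 := norm_smul_le' hv (a := r j - δ) (by linarith)
  have hA : (r i - s) + δ - 3 * ε ≤ ‖(r i - s) • k + δ • v‖ := by
    have h1 : c j - c i = ((r i - s) • k + δ • v) + ((y - b) + (y1 - x0)) +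
        (s • v1 + (r j - δ) • v) := by
      have h2 : c j - c i = (y - b) + (b - c i) + r j • v := by rw [hc]; abel
      rw [h2, hbc0, sub_smul (r j)]; abel
    have h2 := norm_add₃_le (a := (r i - s) • k + δ • v) (b := (y - b) + (y1 - x0))
      (c := s • v1 + (r j - δ) • v)
    have h3 := norm_add_le (y - b) (y1 - x0)
    have h4 := norm_add_le (s • v1) ((r j - δ) • v)
    have h6 := norm_smul_le' hv1 hs0.le
    rw [← h1] at h2
    linarith
  have hB : s + δ - 3 * ε ≤ ‖s • k + δ • (-v)‖ := by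
    have h1 : c j - c j1 = -(s • k + δ • (-v)) + (y - b) + ((r j - δ) • v - (r j1 - s) • v1) := by
      rw [hc, hc1, hb, sub_smul, sub_smul, smul_sub, smul_neg]; abel
    have h2 := norm_add₃_le (a := -(s • k + δ • (-v))) (b := y - b)
      (c := (r j - δ) • v - (r j1 - s) • v1)
    have h4 := norm_sub_le ((r j - δ) • v) ((r j1 - s) • v1)
    have h6 := norm_smul_le' hv1 (a := r j1 - s) (by linarith)
    rw [← h1, norm_neg] at h2
    linarith
  refine ⟨v, hv, ?_, ?_⟩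
  · have h1 := small_t hv (α := r i - s) (t := t) (by linarith) (by nlinarith) hA
    have h2 : 3 * ε / (r i - s) ≤ e := by
      rw [div_le_iff₀ (by linarith)]
      have : e * s ≤ e * (r i - s) := by gcongr; linarith
      linarith
    linarith
  · have h1 := small_t (v := -v) (by rwa [norm_neg]) (α := s) (t := t) hs0 (by nlinarith) hB
    have h2 : 3 * ε / s ≤ e := by
      rw [div_le_iff₀ hs0]; linarith
    rw [smul_neg, ← sub_eq_add_neg] at h1
    linarith

/-- a star-finite covering by balls forces an open piece of the sphere of maximally rough points -/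
theorem rough_piece [CompleteSpace X] (hX : ¬ FiniteDimensional ℝ X) {ι : Type*} (c : ι → X)
    (r : ι → ℝ) (hr : ∀ i, 0 < r i) (hcov : ∀ x, ∃ i, x ∈ closedBall (c i) (r i))
    (hstar : ∀ i, {j | (closedBall (c i) (r i) ∩ closedBall (c j) (r j)).Nonempty}.Finite) :
    ∃ k0 : X, ‖k0‖ = 1 ∧ ∃ η > 0, ∃ t0 > 0, ∀ k : X, ‖k‖ = 1 → ‖k - k0‖ < η →
      ∀ t, 0 ≤ t → t ≤ t0 → ∀ e > 0,
        ∃ v : X, ‖v‖ ≤ 1 ∧ 1 + t - e ≤ ‖k + t • v‖ ∧ 1 + t - e ≤ ‖k - t • v‖ := by
  have hfin : ∀ x, {i | x ∈ closedBall (c i) (r i)}.Finite := fun x => by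
    obtain ⟨i, hi⟩ := hcov x
    exact (hstar i).subset fun j hj => ⟨x, hi, hj⟩
  obtain ⟨I, hI, hmin⟩ := exists_min (fun i => closedBall (c i) (r i)) hcov hfin
  have hstar' : ∀ i : I, {j : I | (closedBall (c i) (r i) ∩ closedBall (c j) (r j)).Nonempty}.Finite :=
    fun i => ((hstar i.1).preimage (f := (Subtype.val : I → ι))
      Subtype.val_injective.injOn).subset fun j hj => hj
  obtain ⟨i, x0, η, δ, hx0, hη, hδ, hG⟩ := exists_gen hX (fun i : I => c i) (fun i => r i)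
    (fun i => hr i) (fun x => by
      obtain ⟨i, hi, hx⟩ := hI x
      exact ⟨⟨i, hi⟩, hx⟩) hstar' (fun i => by
      obtain ⟨x, hx, hx'⟩ := hmin i.1 i.2
      exact ⟨x, hx, fun j hj => hx' j.1 j.2 fun h => hj (Subtype.ext h)⟩)
  have hri := hr i
  refine ⟨(r i)⁻¹ • (x0 - c i), ?_, η / (2 * r i), by positivity, min 1 (δ / r i),
    lt_min one_pos (by positivity), fun k hk hkk t ht0 ht e he => ?_⟩
  · rw [norm_smul, hx0, norm_inv, Real.norm_of_nonneg hri.le, inv_mul_cancel₀ hri.ne']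
  · refine rough (fun i : I => c i) (fun i => r i) (fun i => hr i) hstar' (i := i) hk
      (η := η / 2) (by positivity) hδ (fun p hp hp' => hG p hp ?_) (ht.trans (min_le_left _ _))
      ?_ ht0 he
    · have h1 : p - x0 = (p - (c i + r i • k)) + r i • (k - (r i)⁻¹ • (x0 - c i)) := by
        rw [smul_sub, smul_smul, mul_inv_cancel₀ hri.ne', one_smul]; abel
      have h2 := norm_add_le (p - (c i + r i • k)) (r i • (k - (r i)⁻¹ • (x0 - c i)))
      rw [← h1, norm_smul, Real.norm_of_nonneg hri.le] at h2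
      have h3 : r i * ‖k - (r i)⁻¹ • (x0 - c i)‖ ≤ r i * (η / (2 * r i)) := by gcongr
      have h4 : r i * (η / (2 * r i)) = η / 2 := by field_simp
      linarith
    · have := ht.trans (min_le_right _ _)
      rw [le_div_iff₀ hri] at this
      linarith

end Pool.Agent.H5.StarFin
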