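import Pool.Agent.H5.StarFin

set_option autoImplicit false

open Metric Set

namespace Pool.Agent.H5.StarFin

variable {X : Type*} [NormedAddCommGroup X] [NormedSpace ℝ X]

lemma near_fun {g : StrongDual ℝ X} {z0 v : X} {t ρ : ℝ} (hz0 : ‖z0‖ = 1) (hv : ‖v‖ ≤ 1)
    (ht : 0 < t) (ht1 : t ≤ 1) (htρ : 2 * t < ρ) (h : 1 + t - t / 8 ≤ ‖z0 + t • v‖)
    (hU : ∀ z : X, ‖z‖ = 1 → ‖z - z0‖ < ρ → z ∈ closure
      {a | ∃ φ : StrongDual ℝ X, ‖φ‖ = 1 ∧ φ a = 1 ∧ ‖φ - g‖ < 1 / 2}) :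
    ∃ φ : StrongDual ℝ X, ‖φ - g‖ < 1 / 2 ∧ 5 / 8 ≤ φ v := by
  set w := z0 + t • v with hw
  have htv := norm_smul_le' hv ht.le
  have hN : ‖w‖ ≤ 1 + t := by
    have := norm_add_le z0 (t • v)
    linarith
  have hN1 : 1 ≤ ‖w‖ := by linarith
  have hN0 : 0 < ‖w‖ := by linarith
  set z := ‖w‖⁻¹ • w with hz
  have hzn : ‖z‖ = 1 := by
    rw [hz, norm_smul, norm_inv, norm_norm, inv_mul_cancel₀ hN0.ne']
  have hwz : w = ‖w‖ • z := by rw [hz, smul_smul, mul_inv_cancel₀ hN0.ne', one_smul]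
  have hzz : ‖z - z0‖ < ρ := by
    have h1 : z - z0 = t • v - (‖w‖ - 1) • z := by
      rw [sub_smul, ← hwz, one_smul, hw]; abel
    have h2 := norm_sub_le (t • v) ((‖w‖ - 1) • z)
    have h3 := norm_smul_le' hzn.le (a := ‖w‖ - 1) (by linarith)
    rw [h1]; linarith
  obtain ⟨a, ⟨φ, hφ, hφa, hφg⟩, ha⟩ := Metric.mem_closure_iff.1 (hU z hzn hzz) (t / 8)
    (by positivity)
  refine ⟨φ, hφg, ?_⟩
  rw [dist_comm, dist_eq_norm] at ha
  have h1 : φ (a - z) ≤ ‖a - z‖ := by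
    have := φ.le_opNorm (a - z)
    rw [hφ, one_mul, Real.norm_eq_abs] at this
    exact (le_abs_self _).trans this
  have h2 : φ z0 ≤ 1 := by
    have := φ.le_opNorm z0
    rw [hφ, one_mul, Real.norm_eq_abs, hz0] at this
    exact (le_abs_self _).trans this
  rw [map_sub, hφa] at h1
  have h3 : φ w = ‖w‖ * φ z := by
    conv_lhs => rw [hwz]
    rw [map_smul, smul_eq_mul]
  have h4 : φ w = φ z0 + t * φ v := by rw [hw, map_add, map_smul, smul_eq_mul]
  have h5 : (1 + t - t / 8) * (1 - t / 8) ≤ ‖w‖ * φ z := by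
    apply mul_le_mul h (by linarith) (by linarith) hN0.le
  have h6 : t * (5 / 8) ≤ t * φ v := by nlinarith
  exact le_of_mul_le_mul_left h6 ht

theorem not_separable_dual [CompleteSpace X] {k0 : X} (hk0 : ‖k0‖ = 1) {η t0 : ℝ} (hη : 0 < η)
    (ht0 : 0 < t0) (h : ∀ k : X, ‖k‖ = 1 → ‖k - k0‖ < η → ∀ t, 0 ≤ t → t ≤ t0 → ∀ e > 0,
      ∃ v : X, ‖v‖ ≤ 1 ∧ 1 + t - e ≤ ‖k + t • v‖ ∧ 1 + t - e ≤ ‖k - t • v‖) :
    ¬ TopologicalSpace.SeparableSpace (StrongDual ℝ X) := by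
  intro hsep
  set f := TopologicalSpace.denseSeq (StrongDual ℝ X) with hf
  have hfd : DenseRange f := TopologicalSpace.denseRange_denseSeq _
  set S : Set X := sphere 0 1 with hS
  have hSc : IsClosed S := isClosed_sphere
  let A : ℕ → Set X := fun n =>
    {a | ∃ φ : StrongDual ℝ X, ‖φ‖ = 1 ∧ φ a = 1 ∧ ‖φ - f n‖ < 1 / 2}
  haveI : CompleteSpace S := hSc.completeSpace_coe
  have hd := dense_iUnion_interior_of_closed
    (f := fun n : ℕ => (Subtype.val : S → X) ⁻¹' closure (A n))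
    (fun n => isClosed_closure.preimage continuous_subtype_val)
    (by
      refine Set.eq_univ_of_forall fun z => ?_
      have hz : ‖z.1‖ = 1 := by simp [hS]
      obtain ⟨φ, hφ, hφz⟩ := exists_dual_vector ℝ z.1 (by rw [hz]; norm_num)
      obtain ⟨n, hn⟩ := hfd.exists_dist_lt φ (ε := 1 / 2) (by norm_num)
      refine Set.mem_iUnion.2 ⟨n, subset_closure ⟨φ, hφ, ?_, ?_⟩⟩
      · simpa [hz] using hφz
      · rwa [dist_eq_norm] at hn)
  obtain ⟨z0, hz0, hz0k⟩ := hd.exists_dist_lt (⟨k0, by simpa [hS] using hk0⟩ : S) hη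
  obtain ⟨n, hz0⟩ := Set.mem_iUnion.1 hz0
  rw [dist_comm, Subtype.dist_eq, dist_eq_norm] at hz0k
  have hz0n : ‖z0.1‖ = 1 := by simp [hS]
  obtain ⟨ρ, hρ, hball⟩ := Metric.isOpen_iff.1 isOpen_interior z0 hz0
  have hU : ∀ z : X, ‖z‖ = 1 → ‖z - z0.1‖ < ρ → z ∈ closure (A n) := fun z hz h => by
    have h1 : (⟨z, by simpa [hS] using hz⟩ : S) ∈ (Subtype.val : S → X) ⁻¹' closure (A n) :=
      interior_subset (hball (a := ⟨z, by simpa [hS] using hz⟩)
        (by rw [mem_ball, Subtype.dist_eq, dist_eq_norm]; exact h))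
    exact h1
  set t := min (min t0 1) (ρ / 4) with ht
  have htp : 0 < t := lt_min (lt_min ht0 one_pos) (by positivity)
  have ht1 : t ≤ t0 := (min_le_left _ _).trans (min_le_left _ _)
  have ht2 : t ≤ 1 := (min_le_left _ _).trans (min_le_right _ _)
  have ht3 : t ≤ ρ / 4 := min_le_right _ _
  obtain ⟨v, hv, h1, h2⟩ := h z0.1 hz0n hz0k t htp.le ht1 (t / 8) (by positivity)
  obtain ⟨φ, hφ, hφv⟩ := near_fun hz0n hv htp ht2 (by linarith) h1 hU
  obtain ⟨ψ, hψ, hψv⟩ := near_fun (v := -v) hz0n (by rwa [norm_neg]) htp ht2 (by linarith)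
    (by rwa [smul_neg, ← sub_eq_add_neg]) hU
  rw [map_neg] at hψv
  have h3 : ‖φ - ψ‖ < 1 := by
    have h4 : φ - ψ = (φ - f n) - (ψ - f n) := by abel
    have h5 := norm_sub_le (φ - f n) (ψ - f n)
    rw [h4]; linarith
  have h4 := (φ - ψ).le_opNorm v
  rw [sub_apply, Real.norm_eq_abs] at h4
  have h5 := le_abs_self (φ v - ψ v)
  have h6 : ‖φ - ψ‖ * ‖v‖ ≤ ‖φ - ψ‖ * 1 := by gcongr
  linarith

/-- Godefroy's octahedrality of the norm -/
def Octahedral (X : Type*) [NormedAddCommGroup X] [NormedSpace ℝ X] : Prop :=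
  ∀ F : Submodule ℝ X, FiniteDimensional ℝ F → ∀ ε > 0,
    ∃ y : X, ‖y‖ = 1 ∧ ∀ x ∈ F, (1 - ε) * (‖x‖ + 1) ≤ ‖x + y‖

lemma oct_hom {F : Submodule ℝ X} {ε : ℝ} (hε : 0 < ε) {y : X}
    (h : ∀ x ∈ F, (1 - ε) * (‖x‖ + 1) ≤ ‖x + y‖) (a : ℝ) :
    ∀ x ∈ F, (1 - ε) * (‖x‖ + |a|) ≤ ‖x + a • y‖ := by
  intro x hx
  rcases eq_or_ne a 0 with rfl | ha
  · simp only [abs_zero, add_zero, zero_smul]
    nlinarith [norm_nonneg x]
  · have h1 := h (a⁻¹ • x) (F.smul_mem _ hx)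
    have h2 : x + a • y = a • (a⁻¹ • x + y) := by
      rw [smul_add, smul_smul, mul_inv_cancel₀ ha, one_smul]
    have ha' : 0 < |a| := abs_pos.2 ha
    rw [norm_smul, norm_inv, Real.norm_eq_abs] at h1
    rw [h2, norm_smul, Real.norm_eq_abs]
    have h3 : (1 - ε) * (‖x‖ + |a|) = |a| * ((1 - ε) * (|a|⁻¹ * ‖x‖ + 1)) := by field_simp
    rw [h3]
    gcongr

lemma oct_ker (hO : Octahedral X) {Φ : Set (StrongDual ℝ X)} (hΦ : Φ.Finite) :
    ∀ F : Submodule ℝ X, FiniteDimensional ℝ F → ∀ ε > 0,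
      ∃ y : X, ‖y‖ ≤ 1 ∧ (∀ φ ∈ Φ, φ y = 0) ∧ ∀ x ∈ F, (1 - ε) * (‖x‖ + 1) ≤ ‖x + y‖ := by
  induction Φ, hΦ using Set.Finite.induction_on with
  | empty =>
    intro F hF ε hε
    obtain ⟨y, hy, h⟩ := hO F hF ε hε
    exact ⟨y, hy.le, by simp, h⟩
  | @insert φ Φ _ _ ih =>
    intro F hF ε hε
    set e := min (ε / 2) (1 / 2) with he
    have he0 : 0 < e := lt_min (by positivity) (by norm_num)
    have he1 : e ≤ ε / 2 := min_le_left _ _
    have he2 : e ≤ 1 / 2 := min_le_right _ _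
    obtain ⟨y1, hy1, hk1, h1⟩ := ih F hF e he0
    obtain ⟨y2, hy2, hk2, h2⟩ := ih (F ⊔ Submodule.span ℝ {y1}) inferInstance e he0
    obtain ⟨a, b, hab, hφ⟩ : ∃ a b : ℝ, |a| + |b| = 1 ∧ a * φ y1 + b * φ y2 = 0 := by
      by_cases h0 : φ y1 = 0
      · exact ⟨1, 0, by simp, by simp [h0]⟩
      · have h3 : 0 < |φ y1| + |φ y2| := by
          have := abs_pos.2 h0
          positivity
        refine ⟨φ y2 / (|φ y1| + |φ y2|), -φ y1 / (|φ y1| + |φ y2|), ?_, by ring⟩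
        rw [abs_div, abs_div, abs_neg, abs_of_pos h3]
        field_simp
        ring
    refine ⟨a • y1 + b • y2, ?_, ?_, fun x hx => ?_⟩
    · have h3 := norm_add_le (a • y1) (b • y2)
      rw [norm_smul, norm_smul, Real.norm_eq_abs, Real.norm_eq_abs] at h3
      nlinarith [abs_nonneg a, abs_nonneg b]
    · rintro ψ (rfl | hψ)
      · simpa using hφ
      · simp [hk1 ψ hψ, hk2 ψ hψ]
    · have h3 := oct_hom he0 h1 a x hx
      have h4 := oct_hom he0 h2 b (x + a • y1) (Submodule.add_mem_sup hx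
        (Submodule.smul_mem _ _ (Submodule.mem_span_singleton_self y1)))
      rw [← add_assoc]
      have h5 : (1 - e) * ((1 - e) * (‖x‖ + |a|) + |b|) ≤ (1 - e) * (‖x + a • y1‖ + |b|) := by
        gcongr
        linarith
      have hx0 := norm_nonneg x
      have h6 : (1 - ε) * (‖x‖ + 1) ≤ (1 - e) * ((1 - e) * (‖x‖ + 1)) := by
        have : 1 - ε ≤ (1 - e) * (1 - e) := by nlinarith
        nlinarith
      have h7 : (1 - e) * ((1 - e) * (‖x‖ + 1)) ≤ (1 - e) * ((1 - e) * (‖x‖ + |a|) + |b|) := by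
        gcongr
        · linarith
        · nlinarith [abs_nonneg a, abs_nonneg b]
      linarith

lemma oct_exit (hO : Octahedral X) {Φ : Set (StrongDual ℝ X)} (hΦ : Φ.Finite) {U : Set X}
    (hU : U.Finite) {s : ℝ} (hs : 0 < s) :
    ∃ z : X, ‖z‖ ≤ s ∧ (∀ φ ∈ Φ, φ z = 0) ∧ ∀ u ∈ U, ‖u‖ + s / 2 ≤ ‖u + z‖ := by
  obtain ⟨M, hM⟩ := (hU.image fun u => ‖u‖).bddAbove
  have hM' : ∀ u ∈ U, ‖u‖ ≤ |M| := fun u hu => (hM ⟨u, hu, rfl⟩).trans (le_abs_self M)
  have hp : 0 < |M| + s := by positivity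
  obtain ⟨y, hy, hk, h⟩ := oct_ker hO hΦ (Submodule.span ℝ U)
    (FiniteDimensional.span_of_finite ℝ hU) (s / (2 * (|M| + s))) (by positivity)
  refine ⟨s • y, norm_smul_le' hy hs.le, fun φ hφ => by simp [hk φ hφ], fun u hu => ?_⟩
  have h1 := oct_hom (by positivity) h s u (Submodule.subset_span hu)
  rw [abs_of_pos hs] at h1
  have h2 : s / (2 * (|M| + s)) * (‖u‖ + s) ≤ s / (2 * (|M| + s)) * (|M| + s) := by
    gcongr
    exact hM' u hu
  have h3 : s / (2 * (|M| + s)) * (|M| + s) = s / 2 := by field_simp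
  nlinarith

/-- singular points of the family -/
def Sing {ι : Type*} (c : ι → X) (r : ι → ℝ) : Set X :=
  {x | ∀ ε > 0, {j | (closedBall (c j) (r j) ∩ ball x ε).Nonempty}.Infinite}

lemma isClosed_sing {ι : Type*} (c : ι → X) (r : ι → ℝ) : IsClosed (Sing c r) := by
  refine isClosed_of_closure_subset fun x hx ε hε => ?_
  obtain ⟨y, hy, hxy⟩ := Metric.mem_closure_iff.1 hx (ε / 2) (by positivity)
  refine (hy (ε / 2) (by positivity)).mono ?_
  rintro j ⟨w, hw, hw'⟩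
  refine ⟨w, hw, ?_⟩
  rw [mem_ball] at hw' ⊢
  have := dist_triangle_right w x y
  linarith

lemma trap {ι : Type*} (c : ι → X) (r : ι → ℝ) (hcov : ∀ x, ∃ i, x ∈ closedBall (c i) (r i))
    (hstar : ∀ i, {j | (closedBall (c i) (r i) ∩ closedBall (c j) (r j)).Nonempty}.Finite)
    (y : X) : ∃ Φ : Set (StrongDual ℝ X), Φ.Finite ∧ ∀ z : X, (∀ φ ∈ Φ, φ z = 0) →
      (∀ τ ∈ Icc (0 : ℝ) 1, y + τ • z ∉ Sing c r) →
      ∃ j, y ∈ closedBall (c j) (r j) ∧ y + z ∈ closedBall (c j) (r j) := by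
  set J := {i | y ∈ closedBall (c i) (r i)} with hJ
  have hJf : J.Finite := by
    obtain ⟨i, hi⟩ := hcov y
    exact (hstar i).subset fun j hj => ⟨y, hi, hj⟩
  set N := {k | k ∉ J ∧ ∃ j ∈ J, (closedBall (c j) (r j) ∩ closedBall (c k) (r k)).Nonempty}
    with hN
  have hNf : N.Finite := (hJf.biUnion fun j _ => hstar j).subset fun k hk => by
    obtain ⟨j, hj, h⟩ := hk.2
    exact mem_biUnion hj h
  have h1 : ∀ k : N, ∃ (f : StrongDual ℝ X) (u : ℝ),
      (∀ a ∈ closedBall (c k.1) (r k.1), f a < u) ∧ u < f y := fun k =>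
    geometric_hahn_banach_closed_point (convex_closedBall _ _) isClosed_closedBall k.2.1
  choose f u hf hu using h1
  haveI := hNf.to_subtype
  refine ⟨range f, finite_range f, fun z hz hS => ?_⟩
  by_contra hcon
  push Not at hcon
  set W := ⋃ j ∈ J, closedBall (c j) (r j) with hW
  have hWc : IsClosed W := hJf.isClosed_biUnion fun _ _ => isClosed_closedBall
  have hg : Continuous fun τ : ℝ => y + τ • z := by fun_prop
  set K := Icc (0 : ℝ) 1 ∩ (fun τ : ℝ => y + τ • z) ⁻¹' W with hK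
  have hKc : IsCompact K := isCompact_Icc.inter_right (hWc.preimage hg)
  have hK0 : (0 : ℝ) ∈ K := by
    obtain ⟨i, hi⟩ := hcov y
    exact ⟨by simp, by simpa [hW] using ⟨i, hi, hi⟩⟩
  obtain ⟨τ, hτ, hτ'⟩ := hKc.exists_isGreatest ⟨0, hK0⟩
  obtain ⟨j, hj, hqj⟩ := mem_iUnion₂.1 hτ.2
  have hτ1 : τ < 1 := lt_of_le_of_ne hτ.1.2 fun h => hcon j hj (by simpa [h] using hqj)
  set q := y + τ • z with hq
  have hq1 := hS τ hτ.1
  simp only [Sing, mem_ofPred_eq, not_forall, Set.not_infinite] at hq1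
  obtain ⟨ε, hε, hfin⟩ := hq1
  obtain ⟨ε', hε', hfar⟩ := far c r (hfin.subset (fun k hk => hk.1) :
      {k | (closedBall (c k) (r k) ∩ ball q ε).Nonempty ∧ k ∉ J}.Finite) (p := q)
    (fun k hk hqk => by
      have hkN : k ∈ N := ⟨hk.2, j, hj, q, hqj, hqk⟩
      have h2 := hf ⟨k, hkN⟩ (y + τ • z) hqk
      have h3 := hu ⟨k, hkN⟩
      rw [map_add, map_smul, hz _ (mem_range_self _)] at h2
      simp at h2
      linarith)
  obtain ⟨δ, hδ, hδ'⟩ := Metric.continuous_iff.1 hg τ (min ε ε') (lt_min hε hε')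
  set σ := min 1 (τ + δ / 2) with hσ
  have hσ1 : τ < σ := lt_min hτ1 (by linarith)
  have hσ2 : σ ≤ τ + δ / 2 := min_le_right _ _
  have h2 := hδ' σ (by rw [Real.dist_eq, abs_of_pos (by linarith)]; linarith)
  obtain ⟨k, hk⟩ := hcov (y + σ • z)
  have hkJ : k ∉ J := fun h => by
    have h3 : σ ∈ K := ⟨⟨by linarith [hτ.1.1], min_le_left _ _⟩, mem_biUnion h hk⟩
    linarith [hτ' h3]
  have h3 := hfar k ⟨⟨_, hk, h2.trans_le (min_le_left _ _)⟩, hkJ⟩ _ hk
  rw [dist_eq_norm] at h2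
  linarith [min_le_right ε ε']

theorem not_octahedral [CompleteSpace X] [TopologicalSpace.SeparableSpace X]
    (hX : ¬ FiniteDimensional ℝ X) {ι : Type*} (c : ι → X)
    (r : ι → ℝ) (hr : ∀ i, 0 < r i) (hcov : ∀ x, ∃ i, x ∈ closedBall (c i) (r i))
    (hstar : ∀ i, {j | (closedBall (c i) (r i) ∩ closedBall (c j) (r j)).Nonempty}.Finite) :
    ¬ Octahedral X := by
  intro hO
  have hfin : ∀ x, {i | x ∈ closedBall (c i) (r i)}.Finite := fun x => by
    obtain ⟨i, hi⟩ := hcov x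
    exact (hstar i).subset fun j hj => ⟨x, hi, hj⟩
  haveI : Nonempty X := ⟨0⟩
  haveI : Countable ι := by
    rw [← Set.countable_univ_iff]
    refine (Set.countable_iUnion fun n : ℕ =>
      (hfin (TopologicalSpace.denseSeq X n)).countable).mono fun i _ => ?_
    obtain ⟨n, hn⟩ := (TopologicalSpace.denseRange_denseSeq X).exists_dist_lt (c i) (hr i)
    exact mem_iUnion.2 ⟨n, by rw [mem_ofPred_eq, mem_closedBall, dist_comm]; exact hn.le⟩
  have hne : (Sing c r).Nonempty := by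
    by_contra h0
    rw [Set.not_nonempty_iff_eq_empty] at h0
    obtain ⟨Φ, hΦ, h⟩ := trap c r hcov hstar 0
    haveI := hΦ.to_subtype
    obtain ⟨w, hw0, hw⟩ := exists_ker hX (fun φ : Φ => φ.1)
    have hwn : 0 < ‖w‖ := norm_pos_iff.2 hw0
    obtain ⟨M, hM⟩ := ((hfin 0).image r).bddAbove
    obtain ⟨j, hj, hj'⟩ := h (((2 * |M| + 1) / ‖w‖) • w)
      (fun φ hφ => by simp [hw ⟨φ, hφ⟩]) (by simp [h0])
    have h1 : r j ≤ |M| := (hM ⟨j, hj, rfl⟩).trans (le_abs_self M)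
    have h2 := dist_triangle_right (0 + ((2 * |M| + 1) / ‖w‖) • w) 0 (c j)
    rw [mem_closedBall] at hj hj'
    rw [zero_add, dist_zero_right, norm_smul, Real.norm_of_nonneg (by positivity),
      div_mul_cancel₀ _ hwn.ne'] at h2
    rw [zero_add] at hj'
    linarith
  haveI : CompleteSpace (Sing c r) := (isClosed_sing c r).completeSpace_coe
  haveI : Nonempty (Sing c r) := hne.to_subtype
  obtain ⟨i, x0, hx0⟩ := nonempty_interior_of_iUnion_of_closed
    (f := fun i : ι => (Subtype.val : Sing c r → X) ⁻¹' closedBall (c i) (r i))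
    (fun i => isClosed_closedBall.preimage continuous_subtype_val)
    (Set.eq_univ_of_forall fun z => Set.mem_iUnion.2 (hcov z.1))
  obtain ⟨ρ, hρ, hball⟩ := Metric.isOpen_iff.1 isOpen_interior x0 hx0
  have hU : ∀ z ∈ Sing c r, ‖z - x0.1‖ < ρ → z ∈ closedBall (c i) (r i) := fun z hz h => by
    have h1 : (⟨z, hz⟩ : Sing c r) ∈ (Subtype.val : Sing c r → X) ⁻¹' closedBall (c i) (r i) :=
      interior_subset
        (hball (a := ⟨z, hz⟩) (by rw [mem_ball, Subtype.dist_eq, dist_eq_norm]; exact h))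
    exact h1
  have hsing : ∀ j, ¬ ball x0.1 (ρ / 8) ⊆ closedBall (c j) (r j) := fun j h =>
    x0.2 (ρ / 8) (by positivity) ((hstar j).subset fun k ⟨w, hw, hw'⟩ => ⟨w, h hw', hw⟩)
  obtain ⟨y, hy, hyB⟩ := Set.not_subset.1 (hsing i)
  rw [mem_ball, dist_eq_norm] at hy
  obtain ⟨φ0, u, hφ0, hu⟩ :=
    geometric_hahn_banach_closed_point (convex_closedBall _ _) isClosed_closedBall hyB
  obtain ⟨Φ, hΦ, h⟩ := trap c r hcov hstar y
  obtain ⟨z, hz, hk, hz'⟩ := oct_exit hO (hΦ.insert φ0) ((hfin y).image fun j => y - c j)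
    (s := ρ / 2) (by positivity)
  obtain ⟨j, hj, hj'⟩ := h z (fun φ hφ => hk φ (Or.inr hφ)) (fun τ hτ hS => by
    have h1 : ‖y + τ • z - x0.1‖ < ρ := by
      have h2 : y + τ • z - x0.1 = (y - x0.1) + τ • z := by abel
      have h3 := norm_add_le (y - x0.1) (τ • z)
      rw [norm_smul, Real.norm_of_nonneg hτ.1] at h3
      have h4 : τ * ‖z‖ ≤ 1 * ‖z‖ := by gcongr; exact hτ.2
      rw [h2]; linarith
    have h2 := hφ0 _ (hU _ hS h1)
    rw [map_add, map_smul, hk φ0 (Or.inl rfl)] at h2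
    simp at h2
    linarith)
  refine hsing j fun w hw => ?_
  have h1 := hz' (y - c j) ⟨j, hj, rfl⟩
  rw [mem_closedBall, dist_eq_norm] at hj' ⊢
  rw [mem_ball, dist_eq_norm] at hw
  have h2 : y - c j + z = y + z - c j := by abel
  have h3 : w - c j = (w - x0.1) - (y - x0.1) + (y - c j) := by abel
  have h4 := norm_add_le ((w - x0.1) - (y - x0.1)) (y - c j)
  have h5 := norm_sub_le (w - x0.1) (y - x0.1)
  rw [h2] at h1
  rw [h3]; linarith

end Pool.Agent.H5.StarFin
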