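import Pool.Agent.H5.Asq

set_option autoImplicit false

open Filter Topology

namespace Pool.Agent.H5.Strict

open Pool.Agent.H5.Asq

lemma sq_add_le (x y : ℝ) {t : ℝ} (ht : 0 < t) :
    (x + y) ^ 2 ≤ (1 + t) * x ^ 2 + (1 + t⁻¹) * y ^ 2 := by
  have h1 : (1 + t) * x ^ 2 + (1 + t⁻¹) * y ^ 2 - (x + y) ^ 2 = t⁻¹ * (t * x - y) ^ 2 := by
    field_simp; ring
  have h2 : 0 ≤ t⁻¹ * (t * x - y) ^ 2 := by positivity
  linarith

lemma sq_le (v : c0) (n : ℕ) : v n ^ 2 ≤ ‖v‖ ^ 2 := by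
  rw [← sq_abs]
  exact pow_le_pow_left₀ (abs_nonneg _) (abs_le_norm v n) 2

noncomputable def H (v : c0) : ℝ := ∑' n, (1 / 2 : ℝ) ^ n * v n ^ 2

lemma H_sum (v : c0) : Summable fun n => (1 / 2 : ℝ) ^ n * v n ^ 2 :=
  Summable.of_nonneg_of_le (fun n => by positivity)
    (fun n => mul_le_mul_of_nonneg_left (sq_le v n) (by positivity))
    (summable_geometric_two.mul_right (‖v‖ ^ 2))

lemma H_le (v : c0) : H v ≤ 2 * ‖v‖ ^ 2 :=
  hasSum_le (fun n => mul_le_mul_of_nonneg_left (sq_le v n) (by positivity)) (H_sum v).hasSum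
    (hasSum_geometric_two.mul_right (‖v‖ ^ 2))

lemma H_nonneg (v : c0) : 0 ≤ H v := tsum_nonneg fun n => by positivity

lemma H_para (a b : c0) : H (a + b) + H (a - b) = 2 * H a + 2 * H b :=
  ((H_sum _).hasSum.add (H_sum _).hasSum).unique
    ((((H_sum a).hasSum.mul_left 2).add ((H_sum b).hasSum.mul_left 2)).congr_fun fun n => by
      simp only [ZeroAtInftyContinuousMap.add_apply, ZeroAtInftyContinuousMap.sub_apply]
      ring)

/-- a strictly convex renorming of `c0` -/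
theorem space : ∃ (Y : Type) (_ : NormedAddCommGroup Y) (_ : NormedSpace ℝ Y)
    (_ : CompleteSpace Y) (e : c0 ≃L[ℝ] Y), (∀ v, ‖e v‖ ^ 2 = ‖v‖ ^ 2 + H v) ∧
      (∀ v, ‖v‖ ≤ ‖e v‖) ∧ ∀ a b : Y, ‖a + b‖ ≤ ‖a‖ → ‖a - b‖ ≤ ‖a‖ → b = 0 := by
  obtain ⟨Y, i1, i2, i3, e, he⟩ := Renorm.renorm_sq c0 (fun v => ‖v‖ ^ 2 + H v) (a := 1) (b := 2)
    one_pos (by norm_num) (fun x y t ht => by
      have h1 : ‖x + y‖ ^ 2 ≤ (‖x‖ + ‖y‖) ^ 2 := by gcongr; exact norm_add_le x y
      have h2 := sq_add_le ‖x‖ ‖y‖ ht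
      have h3 : H (x + y) ≤ (1 + t) * H x + (1 + t⁻¹) * H y :=
        hasSum_le (fun n => by
          have h4 := mul_le_mul_of_nonneg_left (sq_add_le (x n) (y n) ht)
            (show (0 : ℝ) ≤ (1 / 2) ^ n by positivity)
          rw [ZeroAtInftyContinuousMap.add_apply]
          linarith) (H_sum _).hasSum
          (((H_sum x).hasSum.mul_left (1 + t)).add ((H_sum y).hasSum.mul_left (1 + t⁻¹)))
      linarith) (fun c x => by
      have h1 : H (c • x) = c ^ 2 * H x := (H_sum _).hasSum.unique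
        (((H_sum x).hasSum.mul_left (c ^ 2)).congr_fun fun n => by
          rw [ZeroAtInftyContinuousMap.smul_apply, smul_eq_mul]; ring)
      rw [h1, norm_smul, mul_pow, Real.norm_eq_abs, sq_abs]; ring)
    (fun x => by rw [one_mul]; linarith [H_nonneg x])
    (fun x => by nlinarith [H_le x, sq_nonneg ‖x‖])
  refine ⟨Y, i1, i2, i3, e, he, fun v => le_of_sq_le_sq (by linarith [he v, H_nonneg v])
    (norm_nonneg _), fun a b h1 h2 => ?_⟩
  obtain ⟨a, rfl⟩ := e.surjective a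
  obtain ⟨b, rfl⟩ := e.surjective b
  rw [← map_add] at h1
  rw [← map_sub] at h2
  have h3 := pow_le_pow_left₀ (norm_nonneg _) h1 2
  have h4 := pow_le_pow_left₀ (norm_nonneg _) h2 2
  rw [he, he] at h3 h4
  have h5 : 2 * ‖a‖ ≤ ‖a + b‖ + ‖a - b‖ := by
    have h6 := norm_add_le (a + b) (a - b)
    have h7 : a + b + (a - b) = (2 : ℝ) • a := by
      ext n
      show a n + b n + (a n - b n) = 2 * a n
      ring
    rw [h7, norm_smul] at h6
    simpa using h6
  have h6 : H b ≤ 0 := by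
    nlinarith [H_para a b, sq_nonneg (‖a + b‖ - ‖a - b‖), norm_nonneg a, norm_nonneg (a + b),
      norm_nonneg (a - b)]
  have h7 : b = 0 := by
    ext n
    have h8 := ((H_sum b).le_tsum n fun m _ => by positivity).trans h6
    have h9 : b n ^ 2 ≤ 0 := by
      by_contra h10
      have := mul_pos (show (0 : ℝ) < (1 / 2) ^ n by positivity) (not_le.1 h10)
      linarith
    exact pow_eq_zero_iff two_ne_zero |>.1 (le_antisymm h9 (sq_nonneg _))
  rw [h7, map_zero]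

end Pool.Agent.H5.Strict
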