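import Mathlib

namespace Pool.Agent.H5.SubGame

/-- The nim-value of a pile of size n in the subtraction game with subtraction set S: the least
natural number that is not the nim-value of n - s for some s in S with 0 < s and s ≤ n. -/
noncomputable def nim (S : Finset ℕ) (n : ℕ) : ℕ :=
  sInf {v | ∀ s ∈ S, ∀ _h : 0 < s ∧ s ≤ n, nim S (n - s) ≠ v}
termination_by n
decreasing_by omega

/-- The period of an ultimately periodic sequence. -/
noncomputable def period (a : ℕ → ℕ) : ℕ :=
  sInf {p | 1 ≤ p ∧ ∃ n0, ∀ n, n0 ≤ n → a (n + p) = a n}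

lemma nim_def (S : Finset ℕ) (n : ℕ) :
    nim S n = sInf {v | ∀ s ∈ S, ∀ _h : 0 < s ∧ s ≤ n, nim S (n - s) ≠ v} := by
  rw [nim]

lemma table (S : Finset ℕ) (T : ℕ → ℕ) (N : ℕ)
    (h : ∀ n < N, (∀ s ∈ S, 0 < s ∧ s ≤ n → T (n - s) ≠ T n) ∧
      ∀ w < T n, ∃ s ∈ S, (0 < s ∧ s ≤ n) ∧ T (n - s) = w) :
    ∀ n < N, nim S n = T n := by
  intro n
  induction n using Nat.strong_induction_on with
  | _ n ih =>
    intro hn
    rw [nim_def]
    have e : ∀ s, 0 < s ∧ s ≤ n → nim S (n - s) = T (n - s) := fun s hs =>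
      ih _ (by omega) (by omega)
    apply le_antisymm
    · apply Nat.sInf_le
      intro s hs h1
      rw [e s h1]
      exact (h n hn).1 s hs h1
    · apply le_csInf
      · refine ⟨T n, ?_⟩
        intro s hs h1
        rw [e s h1]
        exact (h n hn).1 s hs h1
      · intro v hv
        by_contra hlt
        obtain ⟨s, hs, h1, h2⟩ := (h n hn).2 v (by omega)
        exact hv s hs h1 (by rw [e s h1, h2])

lemma periodic (S : Finset ℕ) (m p n0 : ℕ) (hm : ∀ s ∈ S, s ≤ m)
    (h : ∀ n, n0 ≤ n → n < n0 + m → nim S (n + p) = nim S n) :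
    ∀ n, n0 ≤ n → nim S (n + p) = nim S n := by
  intro n
  induction n using Nat.strong_induction_on with
  | _ n ih =>
    intro hn
    by_cases hl : n < n0 + m
    · exact h n hn hl
    · rw [nim_def, nim_def S n]
      congr 1
      ext v
      have key : ∀ s ∈ S, 0 < s → nim S (n + p - s) = nim S (n - s) := by
        intro s hs h0
        have := hm s hs
        have e : n + p - s = (n - s) + p := by omega
        rw [e]
        exact ih _ (by omega) (by omega)
      constructor
      · intro hv s hs h1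
        rw [← key s hs h1.1]
        exact hv s hs ⟨h1.1, by omega⟩
      · intro hv s hs h1
        have := hm s hs
        rw [key s hs h1.1]
        exact hv s hs ⟨h1.1, by omega⟩

lemma iter (a : ℕ → ℕ) (p n0 : ℕ) (hper : ∀ n, n0 ≤ n → a (n + p) = a n) (k : ℕ) :
    ∀ n, n0 ≤ n → a (n + k * p) = a n := by
  induction k with
  | zero => simp
  | succ k ih =>
    intro n hn
    have e : n + (k + 1) * p = (n + k * p) + p := by ring
    rw [e, hper _ (by omega), ih n hn]

lemma period_eq (a : ℕ → ℕ) (p n0 : ℕ) (hp : 1 ≤ p) (hper : ∀ n, n0 ≤ n → a (n + p) = a n)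
    (hmin : ∀ q, 1 ≤ q → q < p → ∃ n, n0 ≤ n ∧ a (n + q) ≠ a n) : period a = p := by
  apply le_antisymm
  · exact Nat.sInf_le ⟨hp, n0, hper⟩
  · apply le_csInf
    · exact ⟨p, hp, n0, hper⟩
    rintro q ⟨hq, n1, h1⟩
    by_contra hlt
    obtain ⟨n, hn, hne⟩ := hmin q hq (by omega)
    apply hne
    have hk : n1 ≤ n + n1 * p := by nlinarith
    have e : n + n1 * p + q = (n + q) + n1 * p := by ring
    rw [← iter a p n0 hper n1 (n + q) (by omega), ← e, h1 _ hk, iter a p n0 hper n1 n hn]

end Pool.Agent.H5.SubGame
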