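import Pool.Agent.H5.Asq

set_option autoImplicit false

open Filter Topology

namespace Pool.Agent.H5.SupNorm

open Pool.Agent.H5.Asq

theorem supnorm (V : Type) [NormedAddCommGroup V] [NormedSpace ℝ V] [CompleteSpace V]
    {ι : Type} [Nonempty ι] (φ : ι → V → ℝ) (hadd : ∀ p x y, φ p (x + y) = φ p x + φ p y)
    (hsmul : ∀ p (c : ℝ) x, φ p (c • x) = c * φ p x) {a b : ℝ} (ha : 0 < a)
    (hu : ∀ p x, |φ p x| ≤ b * ‖x‖) (hl : ∀ x C, (∀ p, |φ p x| ≤ C) → a * ‖x‖ ≤ C) :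
    ∃ (X : Type) (_ : NormedAddCommGroup X) (_ : NormedSpace ℝ X) (_ : CompleteSpace X)
      (e : V ≃L[ℝ] X), ∀ v C, ‖e v‖ ≤ C ↔ ∀ p, |φ p v| ≤ C := by
  have h1 : ∀ v C, ⨆ p, |φ p v| ≤ C ↔ ∀ p, |φ p v| ≤ C := fun v C =>
    ciSup_le_iff ⟨b * ‖v‖, by rintro _ ⟨p, rfl⟩; exact hu p v⟩
  obtain ⟨X, i1, i2, i3, e, he⟩ := Renorm.renorm V (fun v => ⨆ p, |φ p v|) (b := b) ha
    (fun x y => (h1 _ _).2 fun p => by
      rw [hadd]
      exact (abs_add_le _ _).trans (add_le_add ((h1 x _).1 le_rfl p) ((h1 y _).1 le_rfl p)))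
    (fun c x => by
      rw [Real.mul_iSup_of_nonneg (abs_nonneg c)]
      simp only [hsmul, abs_mul])
    (fun x => hl x _ ((h1 x _).1 le_rfl)) fun x => (h1 _ _).2 fun p => hu p x
  exact ⟨X, i1, i2, i3, e, fun v C => by rw [he, h1]⟩

lemma null (s : c0 →L[ℝ] ℝ) : Tendsto (fun n => s (u n)) atTop (𝓝 0) := by
  refine Metric.tendsto_atTop.2 fun ε hε => ?_
  obtain ⟨K, hK⟩ := (tail s (η := ε / 2) (by positivity)).exists
  refine ⟨K + 1, fun n hn => ?_⟩
  have h1 := hK (u n) fun k hk => if_neg (by omega)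
  have h2 : ‖u n‖ ≤ 1 := norm_le_of _ zero_le_one fun k => by
    change |(if k = n then 1 else 0 : ℝ)| ≤ 1
    split_ifs <;> simp
  rw [dist_zero_right, Real.norm_eq_abs]
  nlinarith

lemma lim (x : c0) : Tendsto (fun k => x k) atTop (𝓝 0) :=
  tendsto_zero_iff_abs_tendsto_zero _ |>.2 (c0_lim x)

/-- indicator of an initial segment -/
noncomputable def ind (n : ℕ) : c0 where
  toFun j := if j ≤ n then 1 else 0
  continuous_toFun := continuous_of_discreteTopology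
  zero_at_infty' := by
    rw [cocompact_eq_cofinite, Nat.cofinite_eq_atTop]
    refine tendsto_const_nhds.congr' ?_
    filter_upwards [eventually_gt_atTop n] with j hj
    rw [if_neg hj.not_ge]

lemma weak {X : Type} [NormedAddCommGroup X] [NormedSpace ℝ X] {y : ℕ → X} {x : X}
    (h : ∀ φ : X →L[ℝ] ℝ, Tendsto (fun n => φ (y n)) atTop (𝓝 (φ x))) :
    Tendsto (fun n => toWeakSpace ℝ X (y n)) atTop (𝓝 (toWeakSpace ℝ X x)) := by
  have hind : Topology.IsInducing (fun (x : WeakBilin (topDualPairing ℝ X).flip)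
    (y : X →L[ℝ] ℝ) => (topDualPairing ℝ X).flip x y) := ⟨rfl⟩
  exact hind.tendsto_nhds_iff.2 (tendsto_pi_nhds.2 h)

end Pool.Agent.H5.SupNorm
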