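import Pool.Agent.H5.Symbol

set_option autoImplicit false

namespace Pool.Agent.H5.Symbol

open IsLocalRing

section Dep
variable {R : Type*} [CommRing R]

/-- `x` is a nonzerodivisor modulo `A` -/
def Rg (A : Ideal R) (x : R) : Prop := ∀ z, x * z ∈ A → z ∈ A

/-- regular sequence modulo `A` -/
def Reg : List R → Ideal R → Prop
  | [], _ => True
  | f :: L, A => Rg A f ∧ Reg L (A ⊔ Ideal.span {f})

theorem mem_sp {A : Ideal R} {f x : R} : x ∈ A ⊔ Ideal.span {f} ↔ ∃ b, x - f * b ∈ A := by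
  rw [mem_sup']
  constructor
  · rintro ⟨b, hb, h⟩
    obtain ⟨a, rfl⟩ := Ideal.mem_span_singleton'.1 hb
    exact ⟨a, by rwa [mul_comm]⟩
  · rintro ⟨b, h⟩
    exact ⟨f * b, Ideal.mem_span_singleton'.2 ⟨b, mul_comm _ _⟩, h⟩

theorem reg_append (L M : List R) (A : Ideal R) :
    Reg (L ++ M) A ↔ Reg L A ∧ Reg M (A ⊔ Ideal.ofList L) := by
  induction L generalizing A with
  | nil => simp [Reg]
  | cons f L ih => simp [Reg, ih, and_assoc, sup_assoc]

theorem rg_swap {A : Ideal R} {x z : R} (hx : Rg A x) (hz : Rg (A ⊔ Ideal.span {x}) z) :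
    Rg (A ⊔ Ideal.span {z}) x := by
  intro t ht
  obtain ⟨s, hs⟩ := mem_sp.1 ht
  obtain ⟨s', hs'⟩ := mem_sp.1 (hz s (mem_sp.2 ⟨t, by simpa using A.neg_mem hs⟩))
  refine mem_sp.2 ⟨s', hx _ ?_⟩
  have := A.add_mem hs (A.mul_mem_left z hs')
  rwa [show x * t - z * s + z * (s - x * s') = x * (t - z * s') by ring] at this

theorem exists_ass [IsNoetherianRing R] (A : Ideal R) : ∃ S : Set (Ideal R), S.Finite ∧
    (∀ P ∈ S, P.IsPrime ∧ ∃ v, v ∉ A ∧ ∀ r, r ∈ P ↔ r * v ∈ A) ∧
    ∀ x, (∀ P ∈ S, x ∉ P) → Rg A x := by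
  refine ⟨associatedPrimes R (R ⧸ A), associatedPrimes.finite R (R ⧸ A), ?_, ?_⟩
  · intro P hP
    obtain ⟨h1, v, h2⟩ := isAssociatedPrime_iff.1 hP
    obtain ⟨v, rfl⟩ := Ideal.Quotient.mk_surjective v
    have h3 : ∀ r, r ∈ P ↔ r * v ∈ A := by
      intro r
      rw [h2, Submodule.mem_colon_singleton, Submodule.mem_bot, ← Ideal.Quotient.eq_zero_iff_mem]
      rfl
    refine ⟨h1, v, fun hv => h1.ne_top ?_, h3⟩
    rw [Ideal.eq_top_iff_one, h3]
    simpa using hv
  · intro x hx z hz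
    by_contra hn
    have : x ∈ ⋃ p ∈ associatedPrimes R (R ⧸ A), (p : Set R) := by
      rw [biUnion_associatedPrimes_eq_zero_divisors]
      refine ⟨Ideal.Quotient.mk A z, by rwa [Ne, Ideal.Quotient.eq_zero_iff_mem], ?_⟩
      exact Ideal.Quotient.eq_zero_iff_mem.2 hz
    simp only [Set.mem_iUnion] at this
    obtain ⟨P, hP, hxP⟩ := this
    exact hx P hP hxP

theorem avoid [Algebra ℂ R] (S : Set (Ideal R)) (hS : S.Finite) (f : R) (J : Ideal R)
    (h : ∀ P ∈ S, ¬ (f ∈ P ∧ J ≤ P)) : ∃ j ∈ J, ∀ P ∈ S, f + j ∉ P := by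
  induction S, hS using Set.Finite.induction_on with
  | empty => exact ⟨0, J.zero_mem, by simp⟩
  | @insert P0 S _ hS ih =>
    obtain ⟨j, hj, hjS⟩ := ih (fun P hP => h P (Set.mem_insert_of_mem _ hP))
    by_cases h0 : f + j ∈ P0
    · have hJ : ¬ J ≤ P0 := by
        intro hJ
        exact h P0 (Set.mem_insert _ _) ⟨by simpa using P0.sub_mem h0 (hJ hj), hJ⟩
      obtain ⟨t, ht, htP⟩ := SetLike.not_le_iff_exists.1 hJ
      have fin : ∀ P ∈ insert P0 S, {c : ℂ | f + (j + c • t) ∈ P}.Finite := by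
        intro P hP
        apply Set.Subsingleton.finite
        intro c hc d hd
        by_contra hne
        simp only [Set.mem_ofPred_eq] at hc hd
        have h1 := P.sub_mem hc hd
        rw [show f + (j + c • t) - (f + (j + d • t)) = (c - d) • t by rw [sub_smul]; ring] at h1
        have h2 : t ∈ P := of_csmul_mem (sub_ne_zero.2 hne) h1
        rcases hP with rfl | hP
        · exact htP h2
        · apply hjS P hP
          have := P.sub_mem hc (csmul_mem c h2)
          rwa [show f + (j + c • t) - c • t = f + j by ring] at this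
      have := (Set.Finite.biUnion (hS.insert P0) fin).infinite_compl
      obtain ⟨c, hc⟩ := this.nonempty
      refine ⟨j + c • t, J.add_mem hj (csmul_mem c ht), fun P hP hc' => hc ?_⟩
      simp only [Set.mem_iUnion]
      exact ⟨P, hP, hc'⟩
    · refine ⟨j, hj, fun P hP => ?_⟩
      rcases hP with rfl | hP
      · exact h0
      · exact hjS P hP

variable [IsLocalRing R]

/-- depth at least `r` -/
def Dp : ℕ → Ideal R → Prop
  | 0, _ => True
  | r + 1, A => ∃ x ∈ maximalIdeal R, Rg A x ∧ Dp r (A ⊔ Ideal.span {x})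

/-- no socle -/
def NS (A : Ideal R) : Prop := ∀ v, (∀ r ∈ maximalIdeal R, r * v ∈ A) → v ∈ A

theorem NS_swap {A : Ideal R} {x y : R} (hx : x ∈ maximalIdeal R) (rx : Rg A x) (ry : Rg A y)
    (h : NS (A ⊔ Ideal.span {x})) : NS (A ⊔ Ideal.span {y}) := by
  intro v hv
  obtain ⟨w, hw⟩ := mem_sp.1 (hv x hx)
  have : w ∈ A ⊔ Ideal.span {x} := by
    apply h
    intro r hr
    obtain ⟨w', hw'⟩ := mem_sp.1 (hv r hr)
    refine mem_sp.2 ⟨w', ry _ ?_⟩
    have := A.sub_mem (A.mul_mem_left x hw') (A.mul_mem_left r hw)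
    rwa [show x * (r * v - y * w') - r * (x * v - y * w) = y * (r * w - x * w') by ring] at this
  obtain ⟨w'', h2⟩ := mem_sp.1 this
  refine mem_sp.2 ⟨w'', rx _ ?_⟩
  have := A.add_mem hw (A.mul_mem_left y h2)
  rwa [show x * v - y * w + y * (w - x * w'') = x * (v - y * w'') by ring] at this

variable [IsNoetherianRing R]

theorem rg_nak {A : Ideal R} {x z : R} (hxm : x ∈ maximalIdeal R) (hx : Rg A x)
    (hz : Rg (A ⊔ Ideal.span {x}) z) : Rg A z := by
  have : kr A z ⊤ ≤ A := by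
    refine Submodule.le_of_le_smul_of_le_jacobson_bot (I := maximalIdeal R)
      (IsNoetherian.noetherian _) (IsLocalRing.jacobson_eq_maximalIdeal _ bot_ne_top).ge ?_
    intro r hr
    have h1 := (mem_kr.1 hr).2
    obtain ⟨r', h2⟩ := mem_sp.1 (hz r (Ideal.mem_sup_left h1))
    refine mem_sup'.2 ⟨x * r', ?_, h2⟩
    refine Submodule.smul_mem_smul hxm (mem_kr.2 ⟨trivial, hx _ ?_⟩)
    have := A.sub_mem h1 (A.mul_mem_left z h2)
    rwa [show z * r - z * (r - x * r') = x * (z * r') by ring] at this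
  exact fun r hr => this (mem_kr.2 ⟨trivial, hr⟩)

theorem reg_perm {L M : List R} (h : L.Perm M) (hm : ∀ x ∈ L, x ∈ maximalIdeal R) (A : Ideal R)
    (hL : Reg L A) : Reg M A := by
  induction h generalizing A with
  | nil => trivial
  | cons x _ ih => exact ⟨hL.1, ih (fun y hy => hm y (by simp [hy])) _ hL.2⟩
  | swap x y l =>
    obtain ⟨h1, h2, h3⟩ := hL
    refine ⟨rg_nak (hm y (by simp)) h1 h2, rg_swap h1 h2, ?_⟩
    rwa [sup_right_comm]
  | trans h1 _ ih1 ih2 =>
    exact ih2 (fun y hy => hm y (h1.symm.subset hy)) _ (ih1 hm _ hL)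

omit [IsNoetherianRing R] in
theorem dp_of_reg (L : List R) (hm : ∀ x ∈ L, x ∈ maximalIdeal R) (A : Ideal R) (hL : Reg L A) :
    Dp L.length A := by
  induction L generalizing A with
  | nil => trivial
  | cons x L ih => exact ⟨x, hm x (by simp), hL.1, ih (fun y hy => hm y (by simp [hy])) _ hL.2⟩

variable [Algebra ℂ R]

theorem two_reg {A B : Ideal R} (hA : NS A) (hB : NS B) :
    ∃ z ∈ maximalIdeal R, Rg A z ∧ Rg B z := by
  obtain ⟨S, hS, h1, h2⟩ := exists_ass A
  obtain ⟨T, hT, h3, h4⟩ := exists_ass B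
  obtain ⟨j, hj, h⟩ := avoid (S ∪ T) (hS.union hT) 0 (maximalIdeal R) (by
    rintro P (hP | hP) ⟨_, hm⟩
    · obtain ⟨_, v, hv, h5⟩ := h1 P hP
      exact hv (hA v (fun r hr => (h5 r).1 (hm hr)))
    · obtain ⟨_, v, hv, h5⟩ := h3 P hP
      exact hv (hB v (fun r hr => (h5 r).1 (hm hr))))
  simp only [zero_add] at h
  exact ⟨j, hj, h2 j (fun P hP => h P (Or.inl hP)), h4 j (fun P hP => h P (Or.inr hP))⟩

theorem dp_step (r : ℕ) (A : Ideal R) (y : R) (h : Dp (r + 1) A) (hy : Rg A y) :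
    Dp r (A ⊔ Ideal.span {y}) := by
  induction r generalizing A y with
  | zero => trivial
  | succ r ih =>
    obtain ⟨x, hx, rx, h1⟩ := h
    have n1 : NS (A ⊔ Ideal.span {x}) := by
      obtain ⟨w, hw, rw, _⟩ := h1
      exact fun v hv => rw v (hv w hw)
    have n2 := NS_swap hx rx hy n1
    obtain ⟨z, hz, z1, z2⟩ := two_reg n1 n2
    have h2 := ih _ z h1 z1
    have h3 : Dp (r + 1) (A ⊔ Ideal.span {z}) := ⟨x, hx, rg_swap rx z1, by rwa [sup_right_comm]⟩
    have h4 := ih _ y h3 (rg_swap hy z2)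
    exact ⟨z, hz, z2, by rwa [sup_right_comm]⟩

theorem reg_of_dp (L : List R) (hm : ∀ x ∈ L, x ∈ maximalIdeal R) (A : Ideal R)
    (h : Dp L.length A)
    (hP : ∀ P : Ideal R, P.IsPrime → A ≤ P → Ideal.ofList L ≤ P → maximalIdeal R ≤ P) :
    Reg L A := by
  induction L generalizing A with
  | nil => trivial
  | cons f L ih =>
    have hm' : ∀ x ∈ L, x ∈ maximalIdeal R := fun y hy => hm y (by simp [hy])
    have hLm : Ideal.ofList L ≤ maximalIdeal R := Ideal.span_le.2 hm'
    obtain ⟨S, hS, h1, h2⟩ := exists_ass A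
    obtain ⟨j, hj, h3⟩ := avoid S hS f (Ideal.ofList L) (by
      rintro P hPS ⟨hf, hL⟩
      obtain ⟨hp, v, hv, h5⟩ := h1 P hPS
      obtain ⟨x, hx, rx, _⟩ := h
      have := hP P hp (fun r hr => (h5 r).2 (A.mul_mem_right _ hr))
        (by rw [Ideal.ofList_cons]; exact sup_le ((Ideal.span_singleton_le_iff_mem _).2 hf) hL)
      exact hv (rx v ((h5 x).1 (this hx))))
    have ru := h2 _ h3
    have um : f + j ∈ maximalIdeal R := Ideal.add_mem _ (hm f (by simp)) (hLm hj)
    have h4 := ih hm' _ (dp_step _ _ _ h ru) (by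
      intro P hp h5 h6
      refine hP P hp (le_sup_left.trans h5) ?_
      rw [Ideal.ofList_cons]
      refine sup_le ((Ideal.span_singleton_le_iff_mem _).2 ?_) h6
      have := P.sub_mem (h5 (Ideal.mem_sup_right (Ideal.mem_span_singleton_self _))) (h6 hj)
      simpa using this)
    have h5 : Reg (L ++ [f + j]) A :=
      reg_perm (List.perm_append_singleton _ _).symm
        (by intro x hx; rcases List.mem_cons.1 hx with rfl | hx; exacts [um, hm' x hx]) A ⟨ru, h4⟩
    have h6 : Reg (L ++ [f]) A := by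
      rw [reg_append] at h5 ⊢
      refine ⟨h5.1, fun z hz => h5.2.1 z ?_, trivial⟩
      rw [add_mul]
      exact Ideal.add_mem _ hz (Ideal.mul_mem_right _ _ (Ideal.mem_sup_right hj))
    exact reg_perm (List.perm_append_singleton _ _)
      (by intro x hx; exact hm x ((List.perm_append_singleton _ _).subset hx)) A h6

end Dep

section Cor
variable {R : Type*} [CommRing R] [Algebra ℂ R] [IsNoetherianRing R] {σ : R →ₐ[ℂ] R}

theorem sym_self (L : List (R × ℂ)) (hL : Eig σ L) (A : Ideal R) (hA : St σ A) :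
    sym σ L A A = 0 := by
  have := sym_add L hL ⊤ A A A hA hA hA le_rfl le_rfl ⟨∅, fun r => ⟨0, by simp, by simp⟩⟩
    (fun j _ c hc => A.mul_mem_left j hc)
  simpa using this

omit [Algebra ℂ R] [IsNoetherianRing R] in
theorem ad_top (A : Ideal R) (f : R) : ad A f ⊤ = A ⊔ Ideal.span {f} := by
  ext x; simp [mem_ad, mem_sp]

omit [IsNoetherianRing R] in
theorem St.sp {A : Ideal R} {f : R} {c : ℂ} (hA : St σ A) (hf : σ f = c • f) :
    St σ (A ⊔ Ideal.span {f}) := ad_top A f ▸ hA.ad St.top hf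

omit [IsNoetherianRing R] in
theorem St.ofList {A : Ideal R} (L : List (R × ℂ)) (hL : Eig σ L) (hA : St σ A) :
    St σ (A ⊔ Ideal.ofList (L.map Prod.fst)) := by
  induction L generalizing A with
  | nil => simpa using hA
  | cons p L ih =>
    have := ih (fun q hq => hL q (by simp [hq])) (hA.sp (hL p (by simp)).1)
    simpa [sup_assoc] using this

theorem sym_reg (L : List (R × ℂ)) (hL : Eig σ L) (A : Ideal R) (hA : St σ A)
    (h : Reg (L.map Prod.fst) A) :
    sym σ L A ⊤ = sym σ [] (A ⊔ Ideal.ofList (L.map Prod.fst)) ⊤ := by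
  induction L generalizing A with
  | nil => simp
  | cons p L ih =>
    have hL' : Eig σ L := fun q hq => hL q (by simp [hq])
    have e : kr A p.1 ⊤ = A := by
      ext x
      rw [mem_kr]
      exact ⟨fun hx => h.1 x hx.2, fun hx => ⟨trivial, A.mul_mem_left _ hx⟩⟩
    conv_lhs => rw [sym]
    rw [e, sym_self L hL' A hA, ad_top, ih hL' _ (hA.sp (hL p (by simp)).1) h.2]
    simp [sup_assoc]

omit [IsNoetherianRing R] in
theorem sym_kill (K L : List (R × ℂ)) (A : Ideal R) (h : ∀ p ∈ K, p.1 ∈ A) :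
    sym σ (K ++ L) A ⊤ = (K.map (fun p => 1 - p.2)).prod * sym σ L A ⊤ := by
  induction K with
  | nil => simp
  | cons p K ih =>
    have hp := h p (by simp)
    have e : kr A p.1 ⊤ = ⊤ := by
      ext x
      simpa [mem_kr] using A.mul_mem_right x hp
    have e' : ad A p.1 ⊤ = A := by
      rw [ad_top]; exact sup_eq_left.2 ((Ideal.span_singleton_le_iff_mem _).2 hp)
    rw [List.cons_append, sym, e, e', ih (fun q hq => h q (by simp [hq]))]
    simp only [List.map_cons, List.prod_cons]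
    ring

theorem sym_quot (Y L : List (R × ℂ)) (hY : Eig σ Y) (hL : Eig σ L) (A : Ideal R) (hA : St σ A)
    (hf : CoF (Ideal.ofList (L.map Prod.fst))) (h : Reg (Y.map Prod.fst) A) :
    sym σ L (A ⊔ Ideal.ofList (Y.map Prod.fst)) ⊤ =
      (Y.map (fun p => 1 - p.2)).prod * sym σ L A ⊤ := by
  induction Y generalizing A with
  | nil => simp
  | cons p Y ih =>
    obtain ⟨hp, hp0⟩ := hY p (by simp)
    have e1 := ih (fun q hq => hY q (by simp [hq])) _ (hA.sp hp) h.2
    have e2 := sym_add L hL A A (A ⊔ Ideal.span {p.1}) ⊤ hA (hA.sp hp) St.top le_sup_left le_top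
      (hf.mono le_sup_right) (fun j hj c _ => A.mul_mem_right c hj)
    have e3 := sym_iso L hL p.1 p.2 hp hp0 A ⊤ A (A ⊔ Ideal.span {p.1}) hA St.top
      (fun x => ⟨fun hx => ⟨trivial, A.mul_mem_left _ hx⟩, fun hx => h.1 x hx.2⟩)
      (fun x => by simp [mem_sp])
    simp only [List.map_cons, List.prod_cons, Ideal.ofList_cons, ← sup_assoc]
    rw [e1]
    have : sym σ L (A ⊔ Ideal.span {p.1}) ⊤ = (1 - p.2) * sym σ L A ⊤ := by
      rw [sub_mul, ← e3, one_mul]
      exact eq_sub_of_add_eq' e2.symm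
    rw [this]; ring

/-- the abstract localisation formula -/
theorem main_abs (Y K L : List (R × ℂ)) (hY : Eig σ Y) (hK : Eig σ K) (hL : Eig σ L)
    (hYK : Y.map Prod.snd = K.map Prod.snd) (h1 : ∀ p ∈ K, p.2 ≠ 1)
    (hf : CoF (Ideal.ofList ((K ++ L).map Prod.fst)))
    (rY : Reg (Y.map Prod.fst) ⊥) (rF : Reg ((K ++ L).map Prod.fst) ⊥)
    (rL : Reg (L.map Prod.fst) (Ideal.ofList (Y.map Prod.fst)))
    (hKY : ∀ p ∈ K, p.1 ∈ Ideal.ofList (Y.map Prod.fst)) :
    sym σ [] (Ideal.ofList ((K ++ L).map Prod.fst)) ⊤ =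
      sym σ [] (Ideal.ofList (Y.map Prod.fst) ⊔ Ideal.ofList (L.map Prod.fst)) ⊤ := by
  have hKL : Eig σ (K ++ L) := by
    intro p hp
    rcases List.mem_append.1 hp with hp | hp
    exacts [hK p hp, hL p hp]
  have e1 := sym_quot Y (K ++ L) hY hKL ⊥ St.bot hf rY
  have e2 := sym_reg (K ++ L) hKL ⊥ St.bot rF
  have e3 := sym_kill (σ := σ) K L _ hKY
  have e4 := sym_reg L hL _ (by simpa using St.ofList Y hY St.bot) rL
  have e5 : Y.map (fun p => 1 - p.2) = K.map (fun p => 1 - p.2) := by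
    have := congrArg (List.map (fun c : ℂ => 1 - c)) hYK
    simpa [Function.comp_def] using this
  have e6 : (K.map (fun p => 1 - p.2)).prod ≠ 0 := by
    apply List.prod_ne_zero
    intro h0
    obtain ⟨p, hp, h2⟩ := List.mem_map.1 h0
    exact h1 p hp (sub_eq_zero.1 h2).symm
  rw [bot_sup_eq] at e1 e2
  rw [e3, e2, e4, e5] at e1
  exact (mul_left_cancel₀ e6 e1).symm

end Cor

end Pool.Agent.H5.Symbol
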