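import Pool.Agent.H5.SymPS

set_option autoImplicit false

namespace Pool.Agent.H5.Symbol

open IsLocalRing MvPowerSeries

variable {n : ℕ}

noncomputable abbrev lc (w : Fin n → PS n) : (Fin n → ℂ) →ₗ[ℂ] PS n := Fintype.linearCombination ℂ w

theorem lc_vecMul (w : Fin n → PS n) (M : Matrix (Fin n) (Fin n) ℂ) (v : Fin n → ℂ) :
    lc w (Matrix.vecMul v M) = ∑ i, v i • ∑ j, M i j • w j := by
  simp only [Fintype.linearCombination_apply, Matrix.vecMul, dotProduct, Finset.sum_smul,
    Finset.smul_sum, smul_smul]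
  exact Finset.sum_comm

theorem lc_mem (w : Fin n → PS n) (l : List ((Fin n → ℂ) × ℂ)) (u : Fin n → ℂ)
    (hu : u ∈ Submodule.span ℂ {v | v ∈ l.map Prod.fst}) :
    lc w u ∈ Ideal.ofList (l.map (fun p => lc w p.1)) := by
  induction hu using Submodule.span_induction with
  | mem x hx =>
    obtain ⟨p, hp, rfl⟩ := List.mem_map.1 hx
    exact Ideal.subset_span (List.mem_map.2 ⟨p, hp, rfl⟩)
  | zero => simp
  | add a b _ _ h1 h2 => rw [map_add]; exact Ideal.add_mem _ h1 h2
  | smul c a _ h1 => rw [map_smul]; exact csmul_mem c h1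

theorem lc_mem' (w : Fin n → PS n) (u : Fin n → ℂ) : lc w u ∈ Ideal.span (Set.range w) := by
  rw [Fintype.linearCombination_apply]
  exact Ideal.sum_mem _ fun i _ => csmul_mem _ (Ideal.subset_span ⟨i, rfl⟩)

theorem ofList_lc (w : Fin n → PS n) (l : List ((Fin n → ℂ) × ℂ))
    (hl : Submodule.span ℂ {v | v ∈ l.map Prod.fst} = ⊤) :
    Ideal.ofList (l.map (fun p => lc w p.1)) = Ideal.span (Set.range w) := by
  apply le_antisymm
  · refine Ideal.span_le.2 fun x hx => ?_
    obtain ⟨p, _, rfl⟩ := List.mem_map.1 hx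
    exact lc_mem' w p.1
  · refine Ideal.span_le.2 ?_
    rintro _ ⟨i, rfl⟩
    have := lc_mem w l (Pi.single i 1) (by rw [hl]; trivial)
    simpa using this

theorem main_ps (M : Matrix (Fin n) (Fin n) ℂ) (N : ℕ) (hN : N ≠ 0) (hM : M ^ N = 1)
    (σ : PS n →ₐ[ℂ] PS n) (hX : ∀ i, σ (X i) = ∑ j, M i j • (X j : PS n))
    (f : Fin n → MvPolynomial (Fin n) ℂ)
    (hF : ∀ i, σ (f i : PS n) = ∑ j, M i j • (f j : PS n))
    (h0 : ∀ i, constantCoeff (f i : PS n) = 0)
    (I : Ideal (PS n)) (hI : I = Ideal.span (Set.range (fun i => (f i : PS n))))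
    [Module.Finite ℂ (PS n ⧸ I)]
    (I' : Ideal (PS n)) (hI' : I' = Ideal.span (Set.range (fun i => (f i : PS n)) ∪
      Set.range (fun i => ∑ j, (M - 1) i j • (X j : PS n))))
    (T : (PS n ⧸ I) →ₐ[ℂ] (PS n ⧸ I))
    (hT : ∀ i, T (Ideal.Quotient.mk I (X i)) = Ideal.Quotient.mk I (∑ j, M i j • (X j : PS n))) :
    LinearMap.trace ℂ _ T.toLinearMap = (Module.finrank ℂ (PS n ⧸ I') : ℂ) := by
  classical
  obtain ⟨l, hlen, hev, hsp⟩ := exists_eigenbasis M N hN hM
  set F : Fin n → PS n := fun i => (f i : PS n) with hFdef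
  let l1 := l.filter (fun p => !decide (p.2 = 1))
  let l2 := l.filter (fun p => decide (p.2 = 1))
  have m1 : ∀ p ∈ l1, p ∈ l ∧ p.2 ≠ 1 := fun p hp => by simpa [l1] using hp
  have m2 : ∀ p ∈ l2, p ∈ l ∧ p.2 = 1 := fun p hp => by simpa [l2] using hp
  have hperm : (l1 ++ l2).Perm l :=
    List.perm_append_comm.trans (List.filter_append_perm _ l)
  have hsp' : Submodule.span ℂ {v | v ∈ (l1 ++ l2).map Prod.fst} = ⊤ := by
    rw [← hsp]; congr 1; ext v
    exact (hperm.map _).mem_iff
  have eig : ∀ w : Fin n → PS n, (∀ i, σ (w i) = ∑ j, M i j • w j) → ∀ k : List ((Fin n → ℂ) × ℂ),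
      (∀ p ∈ k, p ∈ l) → Eig σ (k.map (fun p => (lc w p.1, p.2))) := by
    intro w hw k hk q hq
    obtain ⟨p, hp, rfl⟩ := List.mem_map.1 hq
    obtain ⟨e1, e2⟩ := hev p (hk p hp)
    refine ⟨?_, e2⟩
    simp only
    rw [← map_smul, ← e1, lc_vecMul, Fintype.linearCombination_apply, map_sum]
    simp [hw]
  let Y := l1.map (fun p => (lc X p.1, p.2))
  let K := l1.map (fun p => (lc F p.1, p.2))
  let L := l2.map (fun p => (lc F p.1, p.2))
  have eY : Y.map Prod.fst = l1.map (fun p => lc X p.1) := by simp [Y, Function.comp_def]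
  have eK : K.map Prod.fst = l1.map (fun p => lc F p.1) := by simp [K, Function.comp_def]
  have eL : L.map Prod.fst = l2.map (fun p => lc F p.1) := by simp [L, Function.comp_def]
  have eKL : (K ++ L).map Prod.fst = (l1 ++ l2).map (fun p => lc F p.1) := by
    rw [List.map_append, eK, eL, List.map_append]
  have iKL : Ideal.ofList ((K ++ L).map Prod.fst) = I := by rw [eKL, ofList_lc F _ hsp', hI]
  have hIm : I ≤ maximalIdeal (PS n) := by
    rw [hI]; refine Ideal.span_le.2 ?_
    rintro _ ⟨i, rfl⟩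
    exact (mem_max _).2 (h0 i)
  have lcF : ∀ v, lc F v ∈ maximalIdeal (PS n) := fun v => hIm (hI ▸ lc_mem' F v)
  have lcX : ∀ v, lc X v ∈ maximalIdeal (PS n) := fun v => max_eq (n := n) ▸ lc_mem' X v
  have len : (l1 ++ l2).length = n := by rw [hperm.length_eq, hlen]
  -- regularity
  have rZ : Reg ((l1 ++ l2).map (fun p => lc (X : Fin n → PS n) p.1)) ⊥ := by
    refine reg_of_dp _ ?_ _ (by rw [List.length_map, len]; exact dp_bot) ?_
    · intro x hx
      obtain ⟨p, _, rfl⟩ := List.mem_map.1 hx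
      exact lcX _
    · intro P _ _ h
      rwa [ofList_lc X _ hsp', ← max_eq] at h
  rw [List.map_append, reg_append, bot_sup_eq, ← eY] at rZ
  have rF : Reg ((K ++ L).map Prod.fst) ⊥ := by
    refine reg_of_dp _ ?_ _ (by rw [eKL, List.length_map, len]; exact dp_bot) ?_
    · intro x hx
      rw [eKL] at hx
      obtain ⟨p, _, rfl⟩ := List.mem_map.1 hx
      exact lcF _
    · intro P hP _ h
      rw [iKL] at h
      exact max_le_prime I P hP h
  -- the ideal of the fixed subspace
  set J := Ideal.ofList (Y.map Prod.fst) with hJ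
  have hJ' : J = Ideal.span (Set.range (fun i => ∑ j, (M - 1) i j • (X j : PS n))) := by
    apply le_antisymm
    · refine Ideal.span_le.2 fun x hx => ?_
      rw [eY] at hx
      obtain ⟨p, hp, rfl⟩ := List.mem_map.1 hx
      obtain ⟨h1, h2⟩ := m1 p hp
      apply of_csmul_mem (sub_ne_zero.2 h2)
      rw [← map_smul, sub_smul, one_smul, ← (hev p h1).1,
        show Matrix.vecMul p.1 M - p.1 = Matrix.vecMul p.1 (M - 1) by
          rw [Matrix.vecMul_sub, Matrix.vecMul_one], lc_vecMul]
      exact Ideal.sum_mem _ fun i _ => csmul_mem _ (Ideal.subset_span ⟨i, rfl⟩)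
    · refine Ideal.span_le.2 ?_
      rintro _ ⟨i, rfl⟩
      have key : ∀ u ∈ Submodule.span ℂ {v | v ∈ l.map Prod.fst},
          Matrix.vecMul u (M - 1) ∈ Submodule.span ℂ {v | v ∈ l1.map Prod.fst} := by
        intro u hu
        induction hu using Submodule.span_induction with
        | mem x hx =>
          obtain ⟨p, hp, rfl⟩ := List.mem_map.1 hx
          rw [Matrix.vecMul_sub, Matrix.vecMul_one, (hev p hp).1]
          by_cases h1 : p.2 = 1
          · simp [h1]
          · have : p.1 ∈ Submodule.span ℂ {v | v ∈ l1.map Prod.fst} :=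
              Submodule.subset_span (List.mem_map.2 ⟨p, by simp [l1, hp, h1], rfl⟩)
            exact Submodule.sub_mem _ (Submodule.smul_mem _ _ this) this
        | zero => simp
        | add a b _ _ h1 h2 => rw [Matrix.add_vecMul]; exact Submodule.add_mem _ h1 h2
        | smul c a _ h1 => rw [Matrix.smul_vecMul]; exact Submodule.smul_mem _ c h1
      have := lc_mem X l1 _ (key (Pi.single i 1) (by rw [hsp]; trivial))
      rw [lc_vecMul, ← eY, Finset.sum_eq_single i (fun b _ hb => by simp [hb]) (by simp)] at this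
      simpa using this
  have hXJ : ∀ i, σ (X i) - X i ∈ J := by
    intro i
    rw [hJ', hX]
    refine Ideal.subset_span ⟨i, ?_⟩
    simp [sub_smul, Finset.sum_sub_distrib, Matrix.one_apply]
  have hpJ : ∀ p : MvPolynomial (Fin n) ℂ, σ (p : PS n) - p ∈ J := by
    intro p
    induction p using MvPolynomial.induction_on with
    | C a =>
      have : ((MvPolynomial.C a : MvPolynomial (Fin n) ℂ) : PS n) = algebraMap ℂ (PS n) a := by
        simp [MvPowerSeries.algebraMap_apply]
      rw [this, AlgHom.commutes, sub_self]; exact J.zero_mem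
    | add p q h1 h2 =>
      have := J.add_mem h1 h2
      rw [MvPolynomial.coe_add, map_add]
      rwa [show σ p + σ q - ((p : PS n) + q) = σ p - p + (σ q - q) by ring]
    | mul_X p i h1 =>
      have := J.add_mem (J.mul_mem_right (σ (X i)) h1) (J.mul_mem_left (p : PS n) (hXJ i))
      rw [MvPolynomial.coe_mul, MvPolynomial.coe_X, map_mul]
      rwa [show σ p * σ (X i) - (p : PS n) * X i =
        (σ p - (p : PS n)) * σ (X i) + (p : PS n) * (σ (X i) - X i) by ring]
  have eigY := eig X hX l1 (fun p hp => (m1 p hp).1)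
  have eigK := eig F hF l1 (fun p hp => (m1 p hp).1)
  have eigL := eig F hF l2 (fun p hp => (m2 p hp).1)
  have hKY : ∀ p ∈ K, p.1 ∈ J := by
    intro q hq
    have e := (eigK q hq).1
    obtain ⟨p, hp, rfl⟩ := List.mem_map.1 hq
    apply of_csmul_mem (sub_ne_zero.2 (m1 p hp).2)
    simp only at e ⊢
    rw [sub_smul, one_smul, ← e, Fintype.linearCombination_apply, map_sum, ← Finset.sum_sub_distrib]
    refine Ideal.sum_mem _ fun i _ => ?_
    rw [map_smul, ← smul_sub]
    exact csmul_mem _ (hpJ (f i))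
  have hKJ : Ideal.ofList (K.map Prod.fst) ≤ J := by
    refine Ideal.span_le.2 fun x hx => ?_
    obtain ⟨p, hp, rfl⟩ := List.mem_map.1 hx
    exact hKY p hp
  have iI' : J ⊔ Ideal.ofList (L.map Prod.fst) = I' := by
    rw [hI', Ideal.span_union, ← hI, ← hJ', ← iKL, List.map_append, Ideal.ofList_append]
    apply le_antisymm
    · exact sup_le le_sup_right (le_sup_right.trans le_sup_left)
    · exact sup_le (sup_le (hKJ.trans le_sup_left) le_sup_right) le_sup_left
  have hII' : I ≤ I' := by rw [hI', Ideal.span_union, ← hI]; exact le_sup_left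
  have rL : Reg (L.map Prod.fst) J := by
    refine reg_of_dp _ ?_ _ ?_ ?_
    · intro x hx
      rw [eL] at hx
      obtain ⟨p, _, rfl⟩ := List.mem_map.1 hx
      exact lcF _
    · have := dp_of_reg _ (by
        intro x hx
        obtain ⟨p, _, rfl⟩ := List.mem_map.1 hx
        exact lcX _) _ rZ.2
      rw [eL]
      rwa [List.length_map] at this ⊢
    · intro P hP h1 h2
      exact max_le_prime I P hP (hII'.trans (iI' ▸ sup_le h1 h2))
  have main := main_abs Y K L eigY eigK eigL (by simp [Y, K, Function.comp_def])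
    (by intro q hq; obtain ⟨p, hp, rfl⟩ := List.mem_map.1 hq; exact (m1 p hp).2)
    (by rw [iKL]; exact cof_of_finite I) rZ.1 rF rL hKY
  have sI : St σ I := by
    have := St.ofList (K ++ L) (by
      intro p hp
      rcases List.mem_append.1 hp with hp | hp
      exacts [eigK p hp, eigL p hp]) (St.bot (σ := σ))
    rwa [bot_sup_eq, iKL] at this
  have sI' : St σ I' := by
    have := St.ofList L eigL (St.ofList Y eigY (St.bot (σ := σ)))
    rwa [bot_sup_eq, iI'] at this
  obtain ⟨k, hk⟩ : ∃ k, maximalIdeal (PS n) ^ k ≤ I := by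
    refine Ideal.exists_pow_le_of_le_radical_of_fg ?_ (IsNoetherian.noetherian _)
    rw [Ideal.radical_eq_sInf]
    exact le_sInf fun P hP => max_le_prime I P hP.2 hP.1
  have t1 : ∀ r, T (Ideal.Quotient.mk I r) = Ideal.Quotient.mk I (σ r) := by
    intro r
    refine gen (AlgHom.equalizer (T.comp (Ideal.Quotient.mkₐ ℂ I)) ((Ideal.Quotient.mkₐ ℂ I).comp σ))
      (fun i => ?_) k (fun φ hφ => ?_) r
    · change T (Ideal.Quotient.mk I (X i)) = Ideal.Quotient.mk I (σ (X i))
      rw [hT, hX]
    · change T (Ideal.Quotient.mk I φ) = Ideal.Quotient.mk I (σ φ)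
      rw [Ideal.Quotient.eq_zero_iff_mem.2 (hk hφ), Ideal.Quotient.eq_zero_iff_mem.2 (sI _ (hk hφ)),
        map_zero]
  have t2 : ∀ r, Ideal.Quotient.mk I' r = Ideal.Quotient.mk I' (σ r) := by
    intro r
    refine gen (AlgHom.equalizer (Ideal.Quotient.mkₐ ℂ I') ((Ideal.Quotient.mkₐ ℂ I').comp σ))
      (fun i => ?_) k (fun φ hφ => ?_) r
    · change Ideal.Quotient.mk I' (X i) = Ideal.Quotient.mk I' (σ (X i))
      symm
      rw [Ideal.Quotient.eq, ← iI']
      exact Ideal.mem_sup_left (hXJ i)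
    · change Ideal.Quotient.mk I' φ = Ideal.Quotient.mk I' (σ φ)
      rw [Ideal.Quotient.eq_zero_iff_mem.2 (hII' (hk hφ)),
        Ideal.Quotient.eq_zero_iff_mem.2 (sI' _ (hII' (hk hφ)))]
  have : Module.Finite ℂ (PS n ⧸ I') :=
    Module.Finite.of_surjective (Ideal.Quotient.factorₐ ℂ hII').toLinearMap
      (Ideal.Quotient.factor_surjective hII')
  rw [iKL, iI', sym_nil_eq σ I sI T.toLinearMap t1, sym_nil_eq σ I' sI' LinearMap.id t2,
    LinearMap.trace_id] at main
  exact main

end Pool.Agent.H5.Symbol
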