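import Pool.Agent.H5.SymDepth

set_option autoImplicit false

namespace Pool.Agent.H5.Symbol

open IsLocalRing MvPowerSeries Pointwise

abbrev PS (n : ℕ) : Type := MvPowerSeries (Fin n) ℂ

variable {n : ℕ}

theorem mem_ofList_X (l : List (Fin n)) (φ : PS n) :
    φ ∈ Ideal.ofList (l.map (X : Fin n → PS n)) ↔
      ∀ d : Fin n →₀ ℕ, (∀ i ∈ l, d i = 0) → coeff d φ = 0 := by
  induction l generalizing φ with
  | nil =>
    simp only [List.map_nil, Ideal.ofList_nil, Submodule.mem_bot]
    exact ⟨fun h d _ => by simp [h], fun h => MvPowerSeries.ext fun d => by simpa using h d (by simp)⟩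
  | cons a l ih =>
    rw [List.map_cons, Ideal.ofList_cons, sup_comm, mem_sp]
    constructor
    · rintro ⟨b, hb⟩ d hd
      have h1 := (ih _).1 hb d (fun i hi => hd i (by simp [hi]))
      have h2 := X_dvd_iff.1 (dvd_mul_right (X a : PS n) b) d (hd a (by simp))
      rw [map_sub, h2, sub_zero] at h1
      exact h1
    · intro h
      let φ0 : PS n := fun d => if d a = 0 then coeff d φ else 0
      have c0 : ∀ d, coeff d φ0 = if d a = 0 then coeff d φ else 0 := fun d => rfl
      have h1 : (X a : PS n) ∣ φ - φ0 := by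
        rw [X_dvd_iff]
        intro d hd
        rw [map_sub, c0, if_pos hd, sub_self]
      obtain ⟨b, hb⟩ := h1
      refine ⟨b, (ih _).2 fun d hd => ?_⟩
      rw [← hb, sub_sub_cancel, c0]
      split_ifs with h2
      · apply h d
        intro i hi
        rcases List.mem_cons.1 hi with rfl | hi
        exacts [h2, hd i hi]
      · rfl

theorem reg_X (l k : List (Fin n)) (hl : l.Nodup) (hk : ∀ i ∈ l, i ∉ k) :
    Reg (l.map (X : Fin n → PS n)) (Ideal.ofList (k.map X)) := by
  induction l generalizing k with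
  | nil => trivial
  | cons a l ih =>
    rw [List.nodup_cons] at hl
    refine ⟨fun z hz => ?_, ?_⟩
    · rw [mem_ofList_X] at hz ⊢
      intro d hd
      have h1 := hz (Finsupp.single a 1 + d) (fun i hi => by
        have : a ≠ i := fun h => hk a (by simp) (h ▸ hi)
        simp [hd i hi, Finsupp.single_apply, this])
      rwa [X, coeff_add_monomial_mul, one_mul] at h1
    · have := ih (a :: k) hl.2 (fun i hi h => by
        rcases List.mem_cons.1 h with rfl | h
        · exact hl.1 hi
        · exact hk i (by simp [hi]) h)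
      rwa [List.map_cons, Ideal.ofList_cons, sup_comm] at this

theorem mem_max (φ : PS n) : φ ∈ maximalIdeal (PS n) ↔ constantCoeff φ = 0 := by
  rw [mem_maximalIdeal, mem_nonunits_iff, isUnit_iff_constantCoeff, isUnit_iff_ne_zero, not_not]

theorem max_eq : maximalIdeal (PS n) = Ideal.span (Set.range (X : Fin n → PS n)) := by
  have : Ideal.span (Set.range (X : Fin n → PS n)) =
      Ideal.ofList ((List.finRange n).map (X : Fin n → PS n)) := by
    congr 1; ext x; simp
  rw [this]
  ext φ
  rw [mem_max, mem_ofList_X]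
  constructor
  · intro h d hd
    have : d = 0 := by ext i; simpa using hd i (by simp)
    rw [this]; simpa using h
  · intro h
    simpa using h 0 (by simp)

theorem dp_bot : Dp n (⊥ : Ideal (PS n)) := by
  have := dp_of_reg ((List.finRange n).map (X : Fin n → PS n))
    (by intro x hx; obtain ⟨i, _, rfl⟩ := List.mem_map.1 hx; rw [mem_max]; simp) _
    (reg_X (List.finRange n) [] (List.nodup_finRange n) (by simp))
  simpa using this

theorem gen (E : Subalgebra ℂ (PS n)) (hX : ∀ i, X i ∈ E) (N : ℕ)
    (hN : ∀ φ ∈ maximalIdeal (PS n) ^ N, φ ∈ E) (φ : PS n) : φ ∈ E := by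
  induction N with
  | zero => exact hN φ (by simp)
  | succ N ih =>
    apply ih
    intro ψ hψ
    have key : ∀ r : PS n, r * ψ ∈ E := by
      rw [max_eq, Ideal.span, Submodule.span_pow] at hψ
      induction hψ using Submodule.span_induction with
      | mem x hx =>
        intro r
        have h1 : x ∈ E := by
          have : (Set.range (X : Fin n → PS n)) ^ N ⊆ (E : Set (PS n)) := by
            clear hx hN ih
            induction N with
            | zero => intro y hy; simp only [pow_zero, Set.mem_one] at hy; rw [hy]; exact E.one_mem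
            | succ N ih =>
              rw [pow_succ]
              rintro _ ⟨a, ha, _, ⟨i, rfl⟩, rfl⟩
              exact E.mul_mem (ih ha) (hX i)
          exact this hx
        have h2 : (r - C (constantCoeff r)) * x ∈ maximalIdeal (PS n) ^ (N + 1) := by
          rw [pow_succ']
          refine Ideal.mul_mem_mul (by rw [mem_max]; simp) ?_
          rw [max_eq, Ideal.span, Submodule.span_pow]
          exact Submodule.subset_span hx
        have h3 : C (constantCoeff r) * x ∈ E := E.mul_mem (E.algebraMap_mem _) h1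
        have := E.add_mem (hN _ h2) h3
        rwa [← add_mul, sub_add_cancel] at this
      | zero => intro r; simp
      | add a b _ _ h1 h2 => intro r; rw [mul_add]; exact E.add_mem (h1 r) (h2 r)
      | smul c a _ h1 => intro r; rw [smul_eq_mul, ← mul_assoc]; exact h1 _
    simpa using key 1

theorem cof_of_finite {R : Type*} [CommRing R] [Algebra ℂ R] (I : Ideal R)
    [h : Module.Finite ℂ (R ⧸ I)] : CoF I := by
  classical
  obtain ⟨s, hs⟩ := h.fg_top
  let sec : R ⧸ I → R := fun q => (Ideal.Quotient.mk_surjective q).choose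
  have hsec : ∀ q, Ideal.Quotient.mk I (sec q) = q := fun q => (Ideal.Quotient.mk_surjective q).choose_spec
  refine ⟨s.image sec, fun r => ?_⟩
  have : Ideal.Quotient.mk I r ∈ Submodule.map (Ideal.Quotient.mkₐ ℂ I).toLinearMap
      (Submodule.span ℂ ((s.image sec : Finset R) : Set R)) := by
    have h1 : Submodule.span ℂ (s : Set (R ⧸ I)) ≤ Submodule.map (Ideal.Quotient.mkₐ ℂ I).toLinearMap
      (Submodule.span ℂ ((s.image sec : Finset R) : Set R)) := by
      refine Submodule.span_le.2 fun q hq => ⟨sec q, Submodule.subset_span ?_, hsec q⟩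
      simp only [Finset.coe_image]
      exact ⟨q, hq, rfl⟩
    exact h1 (by rw [hs]; trivial)
  obtain ⟨p, hp, e⟩ := this
  exact ⟨p, hp, Ideal.Quotient.eq.1 e.symm⟩

theorem max_le_prime {R : Type*} [CommRing R] [Algebra ℂ R] [IsLocalRing R] (I : Ideal R)
    [h : Module.Finite ℂ (R ⧸ I)] (P : Ideal R) (hP : P.IsPrime) (hI : I ≤ P) :
    maximalIdeal R ≤ P := by
  haveI : Module.Finite ℂ (R ⧸ P) :=
    Module.Finite.of_surjective (Ideal.Quotient.factorₐ ℂ hI).toLinearMap
      (Ideal.Quotient.factor_surjective hI)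
  have : IsField (R ⧸ P) := isField_of_isIntegral_of_isField' (Field.toIsField ℂ)
  exact (eq_maximalIdeal (Ideal.Quotient.maximal_of_isField P this)).ge

theorem sym_nil_eq {R : Type*} [CommRing R] [Algebra ℂ R] (σ : R →ₐ[ℂ] R) (I : Ideal R)
    (hI : St σ I) (T : (R ⧸ I) →ₗ[ℂ] (R ⧸ I))
    (hT : ∀ r, T (Ideal.Quotient.mk I r) = Ideal.Quotient.mk I (σ r)) :
    sym σ [] I ⊤ = LinearMap.trace ℂ _ T := by
  rw [sym, tr_eq σ.toLinearMap (I.restrictScalars ℂ) ((⊤ : Ideal R).restrictScalars ℂ) hI
    (St.top (σ := σ))]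
  let j : SQ (I.restrictScalars ℂ) ((⊤ : Ideal R).restrictScalars ℂ) →ₗ[ℂ] R ⧸ I :=
    Submodule.liftQ _ ((Ideal.Quotient.mkₐ ℂ I).toLinearMap ∘ₗ Submodule.subtype _)
      (fun x hx => Ideal.Quotient.eq_zero_iff_mem.2 hx)
  refine (trace_bij j ⟨?_, ?_⟩ _ _ ?_).symm
  · rw [← LinearMap.ker_eq_bot, eq_bot_iff]
    intro x hx
    obtain ⟨x, rfl⟩ := Submodule.Quotient.mk_surjective _ x
    rw [Submodule.mem_bot, Submodule.Quotient.mk_eq_zero]
    exact Ideal.Quotient.eq_zero_iff_mem.1 hx
  · intro y
    obtain ⟨r, rfl⟩ := Ideal.Quotient.mk_surjective y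
    exact ⟨Submodule.Quotient.mk ⟨r, trivial⟩, rfl⟩
  · intro x
    obtain ⟨x, rfl⟩ := Submodule.Quotient.mk_surjective _ x
    exact hT x.1

theorem exists_eigenbasis (M : Matrix (Fin n) (Fin n) ℂ) (N : ℕ) (hN : N ≠ 0) (h : M ^ N = 1) :
    ∃ (l : List ((Fin n → ℂ) × ℂ)), l.length = n ∧
      (∀ p ∈ l, Matrix.vecMul p.1 M = p.2 • p.1 ∧ p.2 ≠ 0) ∧
      Submodule.span ℂ {v | v ∈ l.map Prod.fst} = ⊤ := by
  classical
  let s : Module.End ℂ (Fin n → ℂ) := Matrix.toLin' M.transpose
  have hs : ∀ v, s v = Matrix.vecMul v M := fun v => by simp [s, Matrix.mulVec_transpose]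
  have hsN : s ^ N = 1 := by
    rw [← Matrix.toLin'_pow, ← Matrix.transpose_pow, h, Matrix.transpose_one, Matrix.toLin'_one]
    rfl
  have hss : s.IsSemisimple := by
    refine Module.End.isSemisimple_of_squarefree_aeval_eq_zero
      (Polynomial.separable_X_pow_sub_C (1 : ℂ) (Nat.cast_ne_zero.2 hN) one_ne_zero).squarefree ?_
    simp [hsN]
  let dec := DirectSum.isInternal_submodule_of_iSupIndep_of_iSup_eq_top
    s.eigenspaces_iSupIndep hss.iSup_eigenspace_eq_top
  let I := (ν : ℂ) × Fin (Module.finrank ℂ (s.eigenspace ν))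
  let v : Module.Basis I ℂ (Fin n → ℂ) := dec.collectedBasis fun μ ↦ Module.finBasis ℂ (s.eigenspace μ)
  haveI : Fintype I := FiniteDimensional.fintypeBasisIndex v
  have hsv (i : I) : s (v i) = i.1 • v i :=
    Module.End.mem_eigenspace_iff.mp (dec.collectedBasis_mem _ i)
  refine ⟨(Finset.univ : Finset I).toList.map (fun i => (v i, i.1)), ?_, ?_, ?_⟩
  · have := Module.finrank_eq_card_basis v
    simp only [Module.finrank_fintype_fun_eq_card, Fintype.card_fin] at this
    simp [← this]
  · intro p hp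
    obtain ⟨i, _, rfl⟩ := List.mem_map.1 hp
    refine ⟨by rw [← hs, hsv], fun h0 => v.ne_zero i ?_⟩
    have h1 : s (v i) = 0 := by rw [hsv]; simp only at h0; rw [h0, zero_smul]
    obtain ⟨k, rfl⟩ := Nat.exists_eq_succ_of_ne_zero hN
    have h2 : (s ^ (k + 1)) (v i) = 0 := by rw [pow_succ, Module.End.mul_apply, h1, map_zero]
    rwa [hsN] at h2
  · rw [← v.span_eq]
    congr 1
    ext x
    simp

end Pool.Agent.H5.Symbol
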