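import Mathlib

set_option autoImplicit false

namespace Pool.Agent.H5.Symbol

open LinearMap

section Lin
variable {U V W : Type*} [AddCommGroup U] [Module ℂ U] [AddCommGroup V] [Module ℂ V]
  [AddCommGroup W] [Module ℂ W]

/-- additivity of the trace along a short exact sequence -/
theorem trace_ses [FiniteDimensional ℂ V] (i : U →ₗ[ℂ] V) (p : V →ₗ[ℂ] W)
    (hi : Function.Injective i) (hp : Function.Surjective p)
    (h1 : ∀ u, p (i u) = 0) (h2 : ∀ v, p v = 0 → ∃ u, i u = v)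
    (a : U →ₗ[ℂ] U) (b : V →ₗ[ℂ] V) (c : W →ₗ[ℂ] W)
    (hab : ∀ u, b (i u) = i (a u)) (hbc : ∀ v, p (b v) = c (p v)) :
    trace ℂ V b = trace ℂ U a + trace ℂ W c := by
  haveI : FiniteDimensional ℂ U := FiniteDimensional.of_injective i hi
  haveI : FiniteDimensional ℂ W := Module.Finite.of_surjective p hp
  obtain ⟨s, hs⟩ := p.exists_rightInverse_of_surjective (LinearMap.range_eq_top.mpr hp)
  obtain ⟨r0, hr0⟩ := i.exists_leftInverse_of_injective (LinearMap.ker_eq_bot.mpr hi)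
  have hs' : ∀ w, p (s w) = w := fun w => LinearMap.congr_fun hs w
  have hr' : ∀ u, r0 (i u) = u := fun u => LinearMap.congr_fun hr0 u
  set r : V →ₗ[ℂ] U := r0 ∘ₗ (LinearMap.id - s ∘ₗ p) with hr
  have e1 : b = (b ∘ₗ i) ∘ₗ r + (b ∘ₗ s) ∘ₗ p := by
    ext v
    obtain ⟨u, hu⟩ := h2 (v - s (p v)) (by simp [hs'])
    have : r v = u := by simp [hr, ← hu, hr']
    simp only [LinearMap.add_apply, LinearMap.comp_apply, this, hu, ← map_add]
    simp
  have e2 : r ∘ₗ (b ∘ₗ i) = a := by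
    ext u
    simp [hr, hab, h1, hr']
  have e3 : p ∘ₗ (b ∘ₗ s) = c := by
    ext w
    simp [hbc, hs']
  conv_lhs => rw [e1]
  rw [map_add, trace_comp_comm' r, trace_comp_comm' p, e2, e3]

theorem trace_bij (j : U →ₗ[ℂ] V) (hj : Function.Bijective j) (a : U →ₗ[ℂ] U) (b : V →ₗ[ℂ] V)
    (h : ∀ u, b (j u) = j (a u)) : trace ℂ V b = trace ℂ U a := by
  let e := LinearEquiv.ofBijective j hj
  have : b = e.conj a := by
    apply LinearMap.ext
    intro y
    obtain ⟨x, rfl⟩ := e.surjective y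
    rw [LinearEquiv.conj_apply_apply, e.symm_apply_apply]
    exact h x
  rw [this, trace_conj']

/-- the subquotient `B / A` -/
abbrev SQ (A B : Submodule ℂ V) : Type _ := ↥B ⧸ A.comap B.subtype

def Stab (T : V →ₗ[ℂ] V) (A : Submodule ℂ V) : Prop := ∀ a ∈ A, T a ∈ A

noncomputable def ind (T : V →ₗ[ℂ] V) (A B : Submodule ℂ V) (hA : Stab T A) (hB : Stab T B) :
    SQ A B →ₗ[ℂ] SQ A B :=
  Submodule.mapQ _ _ (T.restrict hB) (fun x hx => hA x.1 hx)

open Classical in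
noncomputable def tr (T : V →ₗ[ℂ] V) (A B : Submodule ℂ V) : ℂ :=
  if h : Stab T A ∧ Stab T B then trace ℂ _ (ind T A B h.1 h.2) else 0

theorem tr_eq (T : V →ₗ[ℂ] V) (A B : Submodule ℂ V) (hA : Stab T A) (hB : Stab T B) :
    tr T A B = trace ℂ _ (ind T A B hA hB) := by
  simp [tr, hA, hB]

theorem tr_add (T : V →ₗ[ℂ] V) (A B C : Submodule ℂ V) (hA : Stab T A) (hB : Stab T B)
    (hC : Stab T C) (hAB : A ≤ B) (hBC : B ≤ C) [FiniteDimensional ℂ (SQ A C)] :
    tr T A C = tr T A B + tr T B C := by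
  rw [tr_eq T A C hA hC, tr_eq T A B hA hB, tr_eq T B C hB hC]
  let i : SQ A B →ₗ[ℂ] SQ A C := Submodule.mapQ _ _ (Submodule.inclusion hBC) (fun x hx => hx)
  let p : SQ A C →ₗ[ℂ] SQ B C := Submodule.mapQ _ _ LinearMap.id (fun x hx => hAB hx)
  refine trace_ses i p ?_ ?_ ?_ ?_ _ _ _ ?_ ?_
  · rw [← LinearMap.ker_eq_bot, eq_bot_iff]
    intro x hx
    obtain ⟨x, rfl⟩ := Submodule.Quotient.mk_surjective _ x
    simp only [LinearMap.mem_ker, i, Submodule.mapQ_apply, Submodule.Quotient.mk_eq_zero] at hx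
    simpa [Submodule.Quotient.mk_eq_zero] using hx
  · intro x
    obtain ⟨x, rfl⟩ := Submodule.Quotient.mk_surjective _ x
    exact ⟨Submodule.Quotient.mk x, rfl⟩
  · intro x
    obtain ⟨x, rfl⟩ := Submodule.Quotient.mk_surjective _ x
    simp only [i, p, Submodule.mapQ_apply, Submodule.Quotient.mk_eq_zero]
    exact x.2
  · intro x hx
    obtain ⟨x, rfl⟩ := Submodule.Quotient.mk_surjective _ x
    simp only [p, Submodule.mapQ_apply, Submodule.Quotient.mk_eq_zero] at hx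
    exact ⟨Submodule.Quotient.mk ⟨x.1, hx⟩, rfl⟩
  · intro x
    obtain ⟨x, rfl⟩ := Submodule.Quotient.mk_surjective _ x
    rfl
  · intro x
    obtain ⟨x, rfl⟩ := Submodule.Quotient.mk_surjective _ x
    rfl

theorem tr_iso (T h : V →ₗ[ℂ] V) (μ : ℂ) (hh : ∀ v, T (h v) = μ • h (T v))
    (A D E F : Submodule ℂ V) (hA : Stab T A) (hD : Stab T D) (hE : Stab T E) (hF : Stab T F)
    (hE' : ∀ x, x ∈ E ↔ x ∈ D ∧ h x ∈ A) (hF' : ∀ x, x ∈ F ↔ ∃ d ∈ D, x - h d ∈ A) :
    tr T A F = μ * tr T E D := by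
  rw [tr_eq T A F hA hF, tr_eq T E D hE hD]
  have hDF : ∀ x ∈ D, h x ∈ F := fun x hx => (hF' _).2 ⟨x, hx, by simp⟩
  let j : SQ E D →ₗ[ℂ] SQ A F := Submodule.mapQ _ _ (h.restrict hDF)
    (fun x hx => ((hE' x.1).1 hx).2)
  have hj : Function.Bijective j := by
    constructor
    · rw [← LinearMap.ker_eq_bot, eq_bot_iff]
      intro x hx
      obtain ⟨x, rfl⟩ := Submodule.Quotient.mk_surjective _ x
      simp only [LinearMap.mem_ker, j, Submodule.mapQ_apply, Submodule.Quotient.mk_eq_zero] at hx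
      rw [Submodule.mem_bot, Submodule.Quotient.mk_eq_zero]
      exact (hE' x.1).2 ⟨x.2, hx⟩
    · intro x
      obtain ⟨x, rfl⟩ := Submodule.Quotient.mk_surjective _ x
      obtain ⟨d, hd, hx⟩ := (hF' x.1).1 x.2
      refine ⟨Submodule.Quotient.mk ⟨d, hd⟩, ?_⟩
      simp only [j, Submodule.mapQ_apply]
      symm
      rw [Submodule.Quotient.eq]
      exact hx
  let e := LinearEquiv.ofBijective j hj
  have : ind T A F hA hF = e.conj (μ • ind T E D hE hD) := by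
    apply LinearMap.ext
    intro y
    obtain ⟨x, rfl⟩ := e.surjective y
    rw [LinearEquiv.conj_apply_apply, e.symm_apply_apply]
    obtain ⟨x, rfl⟩ := Submodule.Quotient.mk_surjective _ x
    rw [LinearMap.smul_apply, map_smul]
    change Submodule.Quotient.mk _ = μ • Submodule.Quotient.mk _
    rw [← Submodule.Quotient.mk_smul]
    congr 1
    ext
    exact hh x.1
  rw [this, trace_conj', map_smul, smul_eq_mul]

end Lin

section Sym
variable {R : Type*} [CommRing R] [Algebra ℂ R]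

/-- `A + f B` -/
def ad (A : Ideal R) (f : R) (B : Ideal R) : Ideal R := A ⊔ Submodule.map (LinearMap.mul R R f) B

/-- `B ∩ (A : f)` -/
def kr (A : Ideal R) (f : R) (B : Ideal R) : Ideal R := B ⊓ Submodule.comap (LinearMap.mul R R f) A

omit [Algebra ℂ R] in
theorem mem_ad {A B : Ideal R} {f x : R} : x ∈ ad A f B ↔ ∃ b ∈ B, x - f * b ∈ A := by
  simp only [ad, Submodule.mem_sup, Submodule.mem_map, LinearMap.mul_apply']
  constructor
  · rintro ⟨a, ha, _, ⟨b, hb, rfl⟩, rfl⟩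
    exact ⟨b, hb, by simpa using ha⟩
  · rintro ⟨b, hb, h⟩
    exact ⟨_, h, _, ⟨b, hb, rfl⟩, by ring⟩

omit [Algebra ℂ R] in
theorem mem_kr {A B : Ideal R} {f x : R} : x ∈ kr A f B ↔ x ∈ B ∧ f * x ∈ A := by
  simp [kr]

omit [Algebra ℂ R] in
theorem mem_sup' {A B : Ideal R} {x : R} : x ∈ A ⊔ B ↔ ∃ b ∈ B, x - b ∈ A := by
  simp only [Submodule.mem_sup]
  constructor
  · rintro ⟨a, ha, b, hb, rfl⟩
    exact ⟨b, hb, by simpa using ha⟩
  · rintro ⟨b, hb, h⟩
    exact ⟨_, h, _, hb, by ring⟩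

theorem csmul_mem {A : Ideal R} (c : ℂ) {x : R} (hx : x ∈ A) : c • x ∈ A := by
  rw [Algebra.smul_def]; exact A.mul_mem_left _ hx

theorem of_csmul_mem {A : Ideal R} {c : ℂ} (hc : c ≠ 0) {x : R} (hx : c • x ∈ A) : x ∈ A := by
  have := csmul_mem c⁻¹ hx
  rwa [smul_smul, inv_mul_cancel₀ hc, one_smul] at this

variable (σ : R →ₐ[ℂ] R)

def St (A : Ideal R) : Prop := ∀ a ∈ A, σ a ∈ A

def Eig (L : List (R × ℂ)) : Prop := ∀ p ∈ L, σ p.1 = p.2 • p.1 ∧ p.2 ≠ 0

/-- finite codimension -/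
def CoF (J : Ideal R) : Prop := ∃ s : Finset R, ∀ r : R, ∃ p ∈ Submodule.span ℂ (s : Set R), r - p ∈ J

theorem CoF.mono {J J' : Ideal R} (h : CoF J) (hJ : J ≤ J') : CoF J' := by
  obtain ⟨s, hs⟩ := h
  exact ⟨s, fun r => let ⟨p, hp, h⟩ := hs r; ⟨p, hp, hJ h⟩⟩

/-- the twisted multiplicity symbol -/
noncomputable def sym : List (R × ℂ) → Ideal R → Ideal R → ℂ
  | [], A, B => tr σ.toLinearMap (A.restrictScalars ℂ) (B.restrictScalars ℂ)
  | p :: L, A, B => sym L (ad A p.1 B) B - p.2 * sym L A (kr A p.1 B)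

variable {σ}

theorem St.ad {A B : Ideal R} {f : R} {c : ℂ} (hA : St σ A) (hB : St σ B) (hf : σ f = c • f) :
    St σ (ad A f B) := by
  intro x hx
  obtain ⟨b, hb, h⟩ := mem_ad.1 hx
  refine mem_ad.2 ⟨c • σ b, csmul_mem c (hB b hb), ?_⟩
  have := hA _ h
  rwa [map_sub, map_mul, hf, smul_mul_assoc, ← mul_smul_comm] at this

theorem St.kr {A B : Ideal R} {f : R} {c : ℂ} (hA : St σ A) (hB : St σ B) (hf : σ f = c • f)
    (hc : c ≠ 0) : St σ (kr A f B) := by
  intro x hx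
  obtain ⟨hb, h⟩ := mem_kr.1 hx
  refine mem_kr.2 ⟨hB x hb, ?_⟩
  have := hA _ h
  rw [map_mul, hf, smul_mul_assoc] at this
  exact of_csmul_mem hc this

theorem St.sup {A B : Ideal R} (hA : St σ A) (hB : St σ B) : St σ (A ⊔ B) := by
  intro x hx
  obtain ⟨b, hb, h⟩ := mem_sup'.1 hx
  exact mem_sup'.2 ⟨σ b, hB b hb, by simpa using hA _ h⟩

theorem St.inf {A B : Ideal R} (hA : St σ A) (hB : St σ B) : St σ (A ⊓ B) :=
  fun x hx => ⟨hA x hx.1, hB x hx.2⟩

theorem St.top : St σ ⊤ := fun _ _ => trivial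

theorem St.bot : St σ ⊥ := fun x hx => by
  rw [Submodule.mem_bot] at hx ⊢; simp [hx]

theorem sym_iso (L : List (R × ℂ)) (hL : Eig σ L) (h : R) (μ : ℂ) (hh : σ h = μ • h) (hμ : μ ≠ 0)
    (A D E F : Ideal R) (hA : St σ A) (hD : St σ D)
    (hE : ∀ x, x ∈ E ↔ x ∈ D ∧ h * x ∈ A) (hF : ∀ x, x ∈ F ↔ ∃ d ∈ D, x - h * d ∈ A) :
    sym σ L A F = μ * sym σ L E D := by
  induction L generalizing A D E F with
  | nil =>
    have e1 : E = kr A h D := by ext x; rw [hE, mem_kr]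
    have e2 : F = ad A h D := by ext x; rw [hF, mem_ad]
    refine tr_iso σ.toLinearMap (LinearMap.mulLeft ℂ h) μ ?_ _ _ _ _ hA hD ?_ ?_ hE hF
    · intro v; simp [hh]
    · rw [e1]; exact hA.kr hD hh hμ
    · rw [e2]; exact hA.ad hD hh
  | cons p L ih =>
    have e1 : E = kr A h D := by ext x; rw [hE, mem_kr]
    have e2 : F = ad A h D := by ext x; rw [hF, mem_ad]
    have sE : St σ E := by rw [e1]; exact hA.kr hD hh hμ
    have sF : St σ F := by rw [e2]; exact hA.ad hD hh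
    obtain ⟨hp, hp0⟩ := hL p (by simp)
    have hL' : Eig σ L := fun q hq => hL q (by simp [hq])
    have hAF : ∀ x ∈ A, x ∈ F := fun x hx => (hF x).2 ⟨0, D.zero_mem, by simpa using hx⟩
    have hDF : ∀ x ∈ D, h * x ∈ F := fun x hx => (hF _).2 ⟨x, hx, by simp⟩
    have i1 := ih hL' (ad A p.1 F) D (ad E p.1 D) F (hA.ad sF hp) hD ?_ ?_
    have i2 := ih hL' A (kr E p.1 D) E (kr A p.1 F) hA (sE.kr hD hp hp0) ?_ ?_
    · simp only [sym, i1, i2]; ring
    · intro x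
      rw [mem_kr]
      constructor
      · intro hx
        exact ⟨⟨((hE x).1 hx).1, E.mul_mem_left _ hx⟩, ((hE x).1 hx).2⟩
      · rintro ⟨⟨h1, _⟩, h2⟩
        exact (hE x).2 ⟨h1, h2⟩
    · intro x
      rw [mem_kr]
      constructor
      · rintro ⟨h1, h2⟩
        obtain ⟨d, hd, h3⟩ := (hF x).1 h1
        refine ⟨d, mem_kr.2 ⟨hd, (hE _).2 ⟨D.mul_mem_left _ hd, ?_⟩⟩, h3⟩
        have := A.sub_mem h2 (A.mul_mem_left p.1 h3)
        rwa [show p.1 * x - p.1 * (x - h * d) = h * (p.1 * d) by ring] at this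
      · rintro ⟨d, hd, h3⟩
        obtain ⟨hd1, hd2⟩ := mem_kr.1 hd
        refine ⟨(hF x).2 ⟨d, hd1, h3⟩, ?_⟩
        have := A.add_mem ((hE _).1 hd2).2 (A.mul_mem_left p.1 h3)
        rwa [show h * (p.1 * d) + p.1 * (x - h * d) = p.1 * x by ring] at this
    · intro x
      rw [mem_ad, mem_ad]
      constructor
      · rintro ⟨d, hd, h1⟩
        obtain ⟨h2, h3⟩ := (hE _).1 h1
        refine ⟨?_, h * d, hDF d hd, ?_⟩
        · have := D.add_mem h2 (D.mul_mem_left p.1 hd)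
          simpa using this
        · rwa [show h * x - p.1 * (h * d) = h * (x - p.1 * d) by ring]
      · rintro ⟨h1, y, hy, h2⟩
        obtain ⟨d, hd, h3⟩ := (hF y).1 hy
        refine ⟨d, hd, (hE _).2 ⟨D.sub_mem h1 (D.mul_mem_left _ hd), ?_⟩⟩
        have := A.add_mem h2 (A.mul_mem_left p.1 h3)
        rwa [show h * x - p.1 * y + p.1 * (y - h * d) = h * (x - p.1 * d) by ring] at this
    · intro x
      constructor
      · intro hx
        obtain ⟨d, hd, h3⟩ := (hF x).1 hx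
        exact ⟨d, hd, mem_ad.2 ⟨0, F.zero_mem, by simpa using h3⟩⟩
      · rintro ⟨d, hd, h3⟩
        obtain ⟨y, hy, h4⟩ := mem_ad.1 h3
        have := F.add_mem (F.add_mem (hAF _ h4) (F.mul_mem_left p.1 hy)) (hDF d hd)
        rwa [show x - h * d - p.1 * y + p.1 * y + h * d = x by ring] at this

theorem fin_SQ [IsNoetherianRing R] (J A C : Ideal R) (hJ : CoF J)
    (h : ∀ j ∈ J, ∀ c ∈ C, j * c ∈ A) :
    FiniteDimensional ℂ (SQ (A.restrictScalars ℂ) (C.restrictScalars ℂ)) := by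
  classical
  obtain ⟨s, hs⟩ := hJ
  obtain ⟨t, ht⟩ : C.FG := IsNoetherian.noetherian C
  let W : Submodule ℂ R := Submodule.span ℂ ((Finset.image₂ (· * ·) s t : Finset R) : Set R)
  have hW : W ≤ C.restrictScalars ℂ := by
    refine Submodule.span_le.2 ?_
    intro x hx
    simp only [Finset.coe_image₂, Set.mem_image2] at hx
    obtain ⟨a, _, b, hb, rfl⟩ := hx
    exact C.mul_mem_left a (ht ▸ Ideal.subset_span hb)
  have key : ∀ x ∈ C, ∀ r : R, ∃ w ∈ W, r * x - w ∈ A := by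
    intro x hx
    rw [← ht] at hx
    induction hx using Submodule.span_induction with
    | mem x hx =>
      intro r
      obtain ⟨p, hp, hr⟩ := hs r
      refine ⟨p * x, ?_, ?_⟩
      · clear hr
        induction hp using Submodule.span_induction with
        | mem a ha =>
          apply Submodule.subset_span
          simp only [Finset.coe_image₂, Set.mem_image2]
          exact ⟨a, ha, x, hx, rfl⟩
        | zero => simp
        | add a b _ _ h1 h2 => rw [add_mul]; exact W.add_mem h1 h2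
        | smul c a _ h1 => rw [smul_mul_assoc]; exact W.smul_mem c h1
      · rw [← sub_mul]
        exact h _ hr _ (ht ▸ Ideal.subset_span hx)
    | zero => intro r; exact ⟨0, W.zero_mem, by simp⟩
    | add a b _ _ h1 h2 =>
      intro r
      obtain ⟨w1, hw1, e1⟩ := h1 r
      obtain ⟨w2, hw2, e2⟩ := h2 r
      refine ⟨w1 + w2, W.add_mem hw1 hw2, ?_⟩
      have := A.add_mem e1 e2
      rwa [show r * a - w1 + (r * b - w2) = r * (a + b) - (w1 + w2) by ring] at this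
    | smul c a _ h1 =>
      intro r
      obtain ⟨w1, hw1, e1⟩ := h1 (r * c)
      exact ⟨w1, hw1, by rwa [smul_eq_mul, ← mul_assoc]⟩
  haveI : FiniteDimensional ℂ W := FiniteDimensional.span_finset ℂ _
  refine Module.Finite.of_surjective
    (((A.restrictScalars ℂ).comap (C.restrictScalars ℂ).subtype).mkQ ∘ₗ Submodule.inclusion hW) ?_
  intro x
  obtain ⟨x, rfl⟩ := Submodule.Quotient.mk_surjective _ x
  obtain ⟨w, hw, e⟩ := key x.1 x.2 1
  refine ⟨⟨w, hw⟩, ?_⟩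
  symm
  simp only [LinearMap.comp_apply, Submodule.mkQ_apply]
  rw [Submodule.Quotient.eq]
  simpa using e

theorem sym_add [IsNoetherianRing R] (L : List (R × ℂ)) (hL : Eig σ L) (J A B C : Ideal R)
    (hA : St σ A) (hB : St σ B) (hC : St σ C) (hAB : A ≤ B) (hBC : B ≤ C)
    (hJ : CoF (J ⊔ Ideal.ofList (L.map Prod.fst))) (h : ∀ j ∈ J, ∀ c ∈ C, j * c ∈ A) :
    sym σ L A C = sym σ L A B + sym σ L B C := by
  induction L generalizing J A B C with
  | nil =>
    haveI := fin_SQ J A C (by simpa using hJ) h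
    exact tr_add _ _ _ _ hA hB hC hAB hBC
  | cons p L ih =>
    obtain ⟨hp, hp0⟩ := hL p (by simp)
    have hL' : Eig σ L := fun q hq => hL q (by simp [hq])
    have hJ' : CoF ((J ⊔ Ideal.span {p.1}) ⊔ Ideal.ofList (L.map Prod.fst)) := by
      simpa [sup_assoc] using hJ
    have mJ : ∀ (X Y : Ideal R), (∀ j ∈ J, ∀ c ∈ Y, j * c ∈ X) → (∀ c ∈ Y, p.1 * c ∈ X) →
        ∀ j ∈ J ⊔ Ideal.span {p.1}, ∀ c ∈ Y, j * c ∈ X := by
      intro X Y h1 h2 j hj c hc
      obtain ⟨b, hb, hj⟩ := mem_sup'.1 hj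
      obtain ⟨a, rfl⟩ := Ideal.mem_span_singleton'.1 hb
      have := X.add_mem (h1 _ hj c hc) (X.mul_mem_left a (h2 c hc))
      rwa [show (j - a * p.1) * c + a * (p.1 * c) = j * c by ring] at this
    have one : σ 1 = (1 : ℂ) • (1 : R) := by simp
    have lead : ∀ (X Y : Ideal R), X ≤ ad X p.1 Y := fun X Y => le_sup_left
    have adle : ∀ (X Y Z : Ideal R), X ≤ Z → Y ≤ Z → ad X p.1 Y ≤ Z := by
      intro X Y Z h1 h2 x hx
      obtain ⟨b, hb, hx⟩ := mem_ad.1 hx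
      have := Z.add_mem (h1 hx) (Z.mul_mem_left p.1 (h2 hb))
      simpa using this
    have admem : ∀ (X Y : Ideal R), ∀ c ∈ Y, p.1 * c ∈ ad X p.1 Y :=
      fun X Y c hc => mem_ad.2 ⟨c, hc, by simp⟩
    have lekr : ∀ (X Y : Ideal R), X ≤ Y → X ≤ kr X p.1 Y :=
      fun X Y hXY x hx => mem_kr.2 ⟨hXY hx, X.mul_mem_left _ hx⟩
    have s1 := hA.ad hC hp
    have s2 := hB.ad hC hp
    have s3 := hA.ad hB hp
    have s4 := hA.kr hC hp hp0
    have s5 := hB.kr hC hp hp0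
    have s6 := hA.kr hB hp hp0
    have e1 := ih hL' _ (ad A p.1 C) (ad B p.1 C) C s1 s2 hC
      (fun x hx => let ⟨b, hb, hx⟩ := mem_ad.1 hx; mem_ad.2 ⟨b, hb, hAB hx⟩)
      (adle _ _ _ hBC le_rfl) hJ'
      (mJ _ _ (fun j hj c hc => lead _ _ (h j hj c hc)) (admem _ _))
    have e2 := sym_iso L hL' 1 1 one one_ne_zero (ad A p.1 C) B (B ⊓ ad A p.1 C) (ad B p.1 C) s1 hB
      (fun x => by simp) (fun x => by
        constructor
        · intro hx
          obtain ⟨c, hc, hx⟩ := mem_ad.1 hx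
          exact ⟨_, hx, by simpa using admem A C c hc⟩
        · rintro ⟨d, hd, hx⟩
          obtain ⟨c, hc, hx⟩ := mem_ad.1 hx
          refine mem_ad.2 ⟨c, hc, ?_⟩
          have := B.add_mem (hAB hx) hd
          rwa [show x - 1 * d - p.1 * c + d = x - p.1 * c by ring] at this)
    have e3 := ih hL' _ (ad A p.1 B) (B ⊓ ad A p.1 C) B s3 (hB.inf s1) hB
      (le_inf (adle _ _ _ hAB le_rfl)
        (fun x hx => let ⟨b, hb, hx⟩ := mem_ad.1 hx; mem_ad.2 ⟨b, hBC hb, hx⟩))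
      inf_le_left hJ'
      (mJ _ _ (fun j hj c hc => lead _ _ (h j hj c (hBC hc))) (admem _ _))
    have e4 := sym_iso L hL' p.1 p.2 hp hp0 (ad A p.1 B) (kr B p.1 C) (B ⊔ kr A p.1 C)
      (B ⊓ ad A p.1 C) s3 s5 (fun x => by
        rw [mem_sup', mem_kr, mem_ad]
        constructor
        · rintro ⟨k, hk, hx⟩
          obtain ⟨k1, k2⟩ := mem_kr.1 hk
          refine ⟨⟨by simpa using C.add_mem (hBC hx) k1, ?_⟩, x - k, hx, ?_⟩
          · have := B.add_mem (B.mul_mem_left p.1 hx) (hAB k2)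
            rwa [show p.1 * (x - k) + p.1 * k = p.1 * x by ring] at this
          · rwa [show p.1 * x - p.1 * (x - k) = p.1 * k by ring]
        · rintro ⟨⟨h1, _⟩, b, hb, h3⟩
          refine ⟨x - b, mem_kr.2 ⟨C.sub_mem h1 (hBC hb), by rwa [mul_sub]⟩, by simpa using hb⟩)
      (fun x => by
        constructor
        · rintro ⟨h1, h2⟩
          obtain ⟨c, hc, h3⟩ := mem_ad.1 h2
          refine ⟨c, mem_kr.2 ⟨hc, ?_⟩, lead _ _ h3⟩
          simpa using B.sub_mem h1 (hAB h3)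
        · rintro ⟨d, hd, h1⟩
          obtain ⟨d1, d2⟩ := mem_kr.1 hd
          obtain ⟨b, hb, h3⟩ := mem_ad.1 h1
          refine ⟨?_, mem_ad.2 ⟨d + b, C.add_mem d1 (hBC hb), ?_⟩⟩
          · have := B.add_mem (B.add_mem (hAB h3) (B.mul_mem_left p.1 hb)) d2
            rwa [show x - p.1 * d - p.1 * b + p.1 * b + p.1 * d = x by ring] at this
          · rwa [show x - p.1 * (d + b) = x - p.1 * d - p.1 * b by ring])
    have e5 := ih hL' _ B (B ⊔ kr A p.1 C) (kr B p.1 C) hB (hB.sup s4) s5 le_sup_left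
      (sup_le (lekr _ _ hBC) (fun x hx => mem_kr.2 ⟨(mem_kr.1 hx).1, hAB (mem_kr.1 hx).2⟩)) hJ'
      (mJ _ _ (fun j hj c hc => hAB (h j hj c (mem_kr.1 hc).1)) (fun c hc => (mem_kr.1 hc).2))
    have e6 := sym_iso L hL' 1 1 one one_ne_zero B (kr A p.1 C) (kr A p.1 B) (B ⊔ kr A p.1 C) hB s4
      (fun x => by
        simp only [mem_kr, one_mul]
        exact ⟨fun hx => ⟨⟨hBC hx.1, hx.2⟩, hx.1⟩, fun hx => ⟨hx.2, hx.1.2⟩⟩)
      (fun x => by simp only [mem_sup', one_mul])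
    have e7 := ih hL' _ A (kr A p.1 B) (kr A p.1 C) hA s6 s4 (lekr _ _ hAB)
      (fun x hx => mem_kr.2 ⟨hBC (mem_kr.1 hx).1, (mem_kr.1 hx).2⟩) hJ'
      (mJ _ _ (fun j hj c hc => h j hj c (mem_kr.1 hc).1) (fun c hc => (mem_kr.1 hc).2))
    simp only [sym]
    rw [e1, e2, e3, e4, e5, e6, e7]
    ring

end Sym

end Pool.Agent.H5.Symbol
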