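import Mathlib

set_option autoImplicit false

namespace Pool.Agent.H5.ThinCode

open Finset

abbrev Msg (d m : ℕ) := Fin m ⊕ (Fin d × Finset (Fin m))

def enc (d m : ℕ) : (Msg d m → ZMod 2) →ₗ[ZMod 2] (Fin d × Msg d m → ZMod 2) where
  toFun a := fun p => match p.2 with
    | Sum.inl x => a (Sum.inl x) + ∑ e : Finset (Fin m), if x ∈ e then a (Sum.inr (p.1, e)) else 0
    | Sum.inr y => a (Sum.inr y)
  map_add' a b := by
    funext p
    rcases p with ⟨j, x | y⟩
    · simp only [Pi.add_apply]
      have : ∀ e : Finset (Fin m), (if x ∈ e then a (Sum.inr (j, e)) + b (Sum.inr (j, e)) else 0) =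
          (if x ∈ e then a (Sum.inr (j, e)) else 0) + (if x ∈ e then b (Sum.inr (j, e)) else 0) := by
        intro e; split_ifs <;> simp
      simp only [this, sum_add_distrib]; ring
    · rfl
  map_smul' r a := by
    funext p
    rcases p with ⟨j, x | y⟩
    · simp only [Pi.smul_apply, smul_eq_mul, RingHom.id_apply, mul_add, mul_sum, mul_ite, mul_zero]
    · rfl

lemma enc_inl (d m : ℕ) (a : Msg d m → ZMod 2) (j : Fin d) (x : Fin m) :
    enc d m a (j, Sum.inl x) =
      a (Sum.inl x) + ∑ e : Finset (Fin m), if x ∈ e then a (Sum.inr (j, e)) else 0 := rfl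

lemma enc_inr (d m : ℕ) (a : Msg d m → ZMod 2) (j : Fin d) (y : Fin d × Finset (Fin m)) :
    enc d m a (j, Sum.inr y) = a (Sum.inr y) := rfl

lemma hit (d m : ℕ) (a : Msg d m → ZMod 2) (ha : a ≠ 0) (j : Fin d) :
    ∃ z, enc d m a (j, z) ≠ 0 := by
  by_contra h
  push Not at h
  apply ha
  have h2 : ∀ y, a (Sum.inr y) = 0 := fun y => h (Sum.inr y)
  funext z
  rcases z with x | y
  · have := h (Sum.inl x)
    rw [enc_inl] at this
    simpa [h2] using this
  · exact h2 y

lemma enc_single_inl (d m : ℕ) (x : Fin m) (p : Fin d × Msg d m) :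
    enc d m (Pi.single (Sum.inl x) 1) p ≠ 0 ↔ p.2 = Sum.inl x := by
  rcases p with ⟨j, x' | y⟩
  · rw [enc_inl]
    by_cases h : x' = x <;> simp [h, Pi.single_apply]
  · rw [enc_inr]; simp

lemma enc_single_inr (d m : ℕ) (i : Fin d) (E : Finset (Fin m)) (p : Fin d × Msg d m) :
    enc d m (Pi.single (Sum.inr (i, E)) 1) p ≠ 0 ↔
      p.2 = Sum.inr (i, E) ∨ (p.1 = i ∧ ∃ x ∈ E, p.2 = Sum.inl x) := by
  rcases p with ⟨j, x' | y⟩
  · rw [enc_inl]
    rw [Finset.sum_eq_single E]
    · by_cases h : j = i <;> by_cases h' : x' ∈ E <;> simp [h, h', Pi.single_apply]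
    · intro e _ he
      simp [Pi.single_apply, he]
    · simp
  · rw [enc_inr]
    by_cases h : y = (i, E) <;> simp [h, Pi.single_apply]

theorem main (α : ℝ) (hα : 0 < α) (d : ℕ) (hd : 1 ≤ d) :
    ∃ (n : ℕ) (C : Submodule (ZMod 2) (Fin n → ZMod 2)) (H : Fin d → Finset (Fin n)),
      1 ≤ n ∧ (∀ i j, i ≠ j → Disjoint (H i) (H j)) ∧
      (∀ i, ∀ c ∈ C, c ≠ 0 → ∃ k ∈ H i, c k ≠ 0) ∧
      ¬ ∃ S : Finset (Fin n), ∀ c ∈ C, c ≠ 0 →
        α * (hammingNorm c : ℝ) ≤ ((S.filter fun k => c k ≠ 0).card : ℝ) ∧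
          (S.filter fun k => c k ≠ 0).card < hammingNorm c := by
  classical
  obtain ⟨w, hw⟩ := exists_nat_gt ((d : ℝ) / α)
  have hw' : (d : ℝ) < α * w := by rw [div_lt_iff₀ hα] at hw; linarith
  let e := Fintype.equivFin (Fin d × Msg d (d * w))
  let φ := (LinearMap.funLeft (ZMod 2) (ZMod 2) e.symm).comp (enc d (d * w))
  have hφ : ∀ a k, φ a k = enc d (d * w) a (e.symm k) := fun _ _ => rfl
  have i0 : Fin d := ⟨0, hd⟩
  refine ⟨_, LinearMap.range φ, fun j => univ.filter fun k => (e.symm k).1 = j, ?_, ?_, ?_, ?_⟩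
  · exact Fintype.card_pos_iff.2 ⟨(i0, Sum.inr (i0, ∅))⟩
  · intro i j hij
    rw [Finset.disjoint_filter]
    intro k _ h1 h2
    exact hij (h1.symm.trans h2)
  · rintro i _ ⟨a, rfl⟩ hc
    obtain ⟨z, hz⟩ := hit d (d * w) a (by rintro rfl; simp at hc) i
    exact ⟨e (i, z), by simp, by rw [hφ]; simpa using hz⟩
  · rintro ⟨S, hS⟩
    have h1 : ∀ x : Fin (d * w), ∃ j, e (j, Sum.inl x) ∉ S := by
      intro x
      have hne : φ (Pi.single (Sum.inl x) 1) ≠ 0 := by
        intro h
        have := congrFun h (e (i0, Sum.inl x))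
        rw [hφ] at this
        exact (enc_single_inl d (d * w) x _).2 (by simp) this
      have := (hS _ ⟨_, rfl⟩ hne).2
      by_contra hcon
      push Not at hcon
      apply absurd this
      rw [not_lt]
      apply Finset.card_le_card
      intro k hk
      simp only [mem_filter, mem_univ, true_and] at hk ⊢
      refine ⟨?_, hk⟩
      rw [hφ, enc_single_inl] at hk
      have := hcon (e.symm k).1
      rwa [← hk, Prod.mk.eta, Equiv.apply_symm_apply] at this
    choose col hcol using h1
    haveI : Nonempty (Fin d) := ⟨i0⟩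
    obtain ⟨i, hi⟩ := Fintype.exists_le_card_fiber_of_mul_le_card (f := col) (n := w) (by simp)
    set E := univ.filter fun x => col x = i with hE
    have hne : φ (Pi.single (Sum.inr (i, E)) 1) ≠ 0 := by
      intro h
      have := congrFun h (e (i0, Sum.inr (i, E)))
      rw [hφ] at this
      exact (enc_single_inr d (d * w) i E _).2 (by simp) this
    have h2 := (hS _ ⟨_, rfl⟩ hne).1
    have h3 : w ≤ hammingNorm (φ (Pi.single (Sum.inr (i, E)) 1)) := by
      refine hi.trans ?_
      apply Finset.card_le_card_of_injOn (fun x => e (i, Sum.inl x))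
      · intro x hx
        simp only [coe_filter, mem_univ, true_and, Set.mem_ofPred_eq]
        rw [hφ, enc_single_inr]
        right
        simpa using hx
      · intro x _ y _ h
        simpa using h
    have h4 : (S.filter fun k => φ (Pi.single (Sum.inr (i, E)) 1) k ≠ 0).card ≤ d := by
      have : (S.filter fun k => φ (Pi.single (Sum.inr (i, E)) 1) k ≠ 0) ⊆
          univ.image fun j : Fin d => e (j, Sum.inr (i, E)) := by
        intro k hk
        rw [mem_filter, hφ, enc_single_inr] at hk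
        rcases hk.2 with h | ⟨h, x, hx, h'⟩
        · rw [mem_image]
          exact ⟨(e.symm k).1, mem_univ _, by rw [← h, Prod.mk.eta, Equiv.apply_symm_apply]⟩
        · exfalso
          have hx' : col x = i := by simpa [hE] using hx
          apply hcol x
          rw [hx', ← h, ← h', Prod.mk.eta, Equiv.apply_symm_apply]
          exact hk.1
      exact (card_le_card this).trans (card_image_le.trans (by simp))
    have h5 : (w : ℝ) ≤ hammingNorm (φ (Pi.single (Sum.inr (i, E)) 1)) := by exact_mod_cast h3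
    have h6 : ((S.filter fun k => φ (Pi.single (Sum.inr (i, E)) 1) k ≠ 0).card : ℝ) ≤ d := by
      exact_mod_cast h4
    nlinarith

end Pool.Agent.H5.ThinCode
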