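import Mathlib

set_option autoImplicit false

open scoped RealInnerProductSpace
open Metric Set

namespace Pool.Agent.H5.Tiling

variable {H : Type*} [NormedAddCommGroup H] [InnerProductSpace ℝ H]

/-- nearest point projection onto a closed convex set, with the supporting unit vector -/
lemma proj [CompleteSpace H] {K : Set H} (hc : IsClosed K) (hv : Convex ℝ K) (hne : K.Nonempty)
    {b : H} (hb : b ∉ K) :
    ∃ p ∈ K, ∃ g : H, ‖g‖ = 1 ∧ p - b = ‖p - b‖ • g ∧ (∀ y ∈ K, ‖p - b‖ ≤ ‖y - b‖) ∧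
      ∀ x ∈ K, 0 ≤ ⟪g, x - p⟫ := by
  obtain ⟨p, hp, hmin⟩ := exists_norm_eq_iInf_of_complete_convex hne hc.isComplete hv b
  have hsupp := (norm_eq_iInf_iff_real_inner_le_zero hv hp).1 hmin
  have hpb : p - b ≠ 0 := by
    intro h
    have : p = b := sub_eq_zero.1 h
    exact hb (this ▸ hp)
  have hpos : 0 < ‖p - b‖ := norm_pos_iff.2 hpb
  refine ⟨p, hp, ‖p - b‖⁻¹ • (p - b), ?_, ?_, ?_, ?_⟩
  · rw [norm_smul, norm_inv, norm_norm, inv_mul_cancel₀ hpos.ne']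
  · rw [smul_smul, mul_inv_cancel₀ hpos.ne', one_smul]
  · intro y hy
    rw [norm_sub_rev p b, norm_sub_rev y b, hmin]
    have hbdd : BddBelow (Set.range fun w : K => ‖b - (w : H)‖) :=
      ⟨0, by rintro _ ⟨w, rfl⟩; exact norm_nonneg _⟩
    exact ciInf_le hbdd ⟨y, hy⟩
  · intro x hx
    have h1 := hsupp x hx
    rw [inner_smul_left]
    have h2 : ⟪p - b, x - p⟫ = -⟪b - p, x - p⟫ := by
      rw [← inner_neg_left, neg_sub]
    simp only [conj_trivial]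
    rw [h2]
    have : 0 ≤ ‖p - b‖⁻¹ := by positivity
    nlinarith

/-- a convex set missing a ball, through a point almost on the sphere, lies almost in a half-space -/
lemma almost_half {L : Set H} (hv : Convex ℝ L) {b g q z : H} {ρ η : ℝ} (hρ : 0 < ρ) (hρ1 : ρ ≤ 1)
    (hη : 0 < η) (hη1 : η ≤ 1) (hg : ‖g‖ = 1) (hq : ‖q - (b + ρ • g)‖ ≤ 2 * η ^ 2 * ρ)
    (hqL : q ∈ L) (hzL : z ∈ L) (hL : ∀ x ∈ L, ρ ≤ ‖x - b‖) :
    -(4 * η * (1 + ‖z - q‖) ^ 2) ≤ ⟪g, z - q⟫ := by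
  set w := z - q with hw
  set e := q - (b + ρ • g) with he
  set t := η * ρ with ht
  have ht0 : 0 ≤ t := by positivity
  have ht1 : t ≤ 1 := by rw [ht]; nlinarith
  have hmem : q + t • w ∈ L := hv.add_smul_sub_mem hqL hzL ⟨ht0, ht1⟩
  have h1 := hL _ hmem
  have h2 : q + t • w - b = (ρ • g + e) + t • w := by rw [he]; abel
  rw [h2] at h1
  have h3 : ρ ^ 2 ≤ ‖(ρ • g + e) + t • w‖ ^ 2 := by gcongr
  rw [norm_add_sq_real] at h3
  have h4 : ‖ρ • g + e‖ ≤ ρ + 2 * η ^ 2 * ρ := by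
    calc ‖ρ • g + e‖ ≤ ‖ρ • g‖ + ‖e‖ := norm_add_le _ _
      _ ≤ ρ + 2 * η ^ 2 * ρ := by
        rw [norm_smul, hg, Real.norm_of_nonneg hρ.le, mul_one]; gcongr
  have h5 : ‖ρ • g + e‖ ^ 2 ≤ ρ ^ 2 * (1 + 8 * η ^ 2) := by
    have h6 : ‖ρ • g + e‖ ^ 2 ≤ (ρ + 2 * η ^ 2 * ρ) ^ 2 := by gcongr
    have h7 : η ^ 2 ≤ 1 := by nlinarith
    have h8 : (ρ + 2 * η ^ 2 * ρ) ^ 2 = ρ ^ 2 * (1 + 4 * η ^ 2 + 4 * η ^ 2 * η ^ 2) := by ring
    rw [h8] at h6
    refine h6.trans ?_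
    have : 4 * η ^ 2 * η ^ 2 ≤ 4 * η ^ 2 := by nlinarith [sq_nonneg η]
    exact mul_le_mul_of_nonneg_left (by linarith) (sq_nonneg ρ)
  have h6 : ⟪ρ • g + e, t • w⟫ = t * (ρ * ⟪g, w⟫ + ⟪e, w⟫) := by
    rw [inner_smul_right, inner_add_left, real_inner_smul_left]
  have h7 : ⟪e, w⟫ ≤ 2 * η ^ 2 * ρ * ‖w‖ := by
    calc ⟪e, w⟫ ≤ ‖e‖ * ‖w‖ := real_inner_le_norm _ _
      _ ≤ 2 * η ^ 2 * ρ * ‖w‖ := by gcongr
  have h8 : ‖t • w‖ ^ 2 = t ^ 2 * ‖w‖ ^ 2 := by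
    rw [norm_smul, Real.norm_of_nonneg ht0, mul_pow]
  rw [h6, h8] at h3
  have hw0 : 0 ≤ ‖w‖ := norm_nonneg _
  have h9 : 0 ≤ η * ρ ^ 2 * (8 * η + 2 * ⟪g, w⟫ + 4 * η ^ 2 * ‖w‖ + η * ‖w‖ ^ 2) := by
    have h10 : t * ⟪e, w⟫ ≤ t * (2 * η ^ 2 * ρ * ‖w‖) := by gcongr
    have h11 : η * ρ ^ 2 * (8 * η + 2 * ⟪g, w⟫ + 4 * η ^ 2 * ‖w‖ + η * ‖w‖ ^ 2) =
        ρ ^ 2 * (1 + 8 * η ^ 2) + 2 * (t * (ρ * ⟪g, w⟫) + t * (2 * η ^ 2 * ρ * ‖w‖)) +
          t ^ 2 * ‖w‖ ^ 2 - ρ ^ 2 := by rw [ht]; ring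
    rw [h11]
    nlinarith
  have h10 : 0 ≤ 8 * η + 2 * ⟪g, w⟫ + 4 * η ^ 2 * ‖w‖ + η * ‖w‖ ^ 2 := by
    have hp : 0 < η * ρ ^ 2 := by positivity
    exact (mul_nonneg_iff_of_pos_left hp).1 h9
  have h11 : η ^ 2 * ‖w‖ ≤ η * ‖w‖ := by
    have : η ^ 2 ≤ η := by nlinarith
    gcongr
  have h12 : 0 ≤ η * ‖w‖ := by positivity
  have h13 : 0 ≤ η * ‖w‖ ^ 2 := by positivity
  nlinarith

/-- the family is a disjoint cover by closed convex bodies -/
structure IsTiling (T : Set (Set H)) : Prop where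
  closed : ∀ C ∈ T, IsClosed C
  convex : ∀ C ∈ T, Convex ℝ C
  inter : ∀ C ∈ T, (interior C).Nonempty
  disj : T.PairwiseDisjoint id
  cover : ∀ x : H, ∃ C ∈ T, x ∈ C

lemma IsTiling.eq_of_mem {T : Set (Set H)} (hT : IsTiling T) {C D : Set H} (hC : C ∈ T)
    (hD : D ∈ T) {x : H} (hxC : x ∈ C) (hxD : x ∈ D) : C = D := by
  by_contra h
  exact Set.disjoint_left.1 (hT.disj hC hD h) hxC hxD

/-- a supported boundary point of a tile -/
def Supp (T : Set (Set H)) (p g : H) : Prop :=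
  ‖g‖ = 1 ∧ ∃ K ∈ T, p ∈ K ∧ ∀ x ∈ K, 0 ≤ ⟪g, x - p⟫

/-- the localisation property: every tile through a point near `p` lies almost in a half-space -/
def Loc (T : Set (Set H)) (p g : H) (d η : ℝ) : Prop :=
  ∀ q : H, ‖q - p‖ ≤ d → ∀ L ∈ T, q ∈ L → ∀ z ∈ L, -(4 * η * (1 + ‖z - q‖) ^ 2) ≤ ⟪g, z - q⟫

/-- moving inside a tile against a direction that points into the supporting half-space -/
lemma descend {K : Set H} (hv : Convex ℝ K) (hi : (interior K).Nonempty) {p g s : H}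
    (hg : ‖g‖ = 1) (hp : p ∈ K) (hsupp : ∀ x ∈ K, 0 ≤ ⟪g, x - p⟫) (hs : 0 < ⟪g, s⟫)
    {d ε : ℝ} (hd : 0 < d) (hε : 0 < ε) :
    ∃ b : H, ∃ ρ : ℝ, 0 < ρ ∧ ρ ≤ d ∧ ‖b - p‖ ≤ d ∧ (∀ x, x ∉ K → ρ ≤ ‖x - b‖) ∧
      ∃ y, y ∉ K ∧ ‖y - b‖ ≤ (1 + ε) * ρ ∧ ⟪y - b, s⟫ ≤ 0 := by
  have hs0 : 0 < ‖s‖ := by
    rcases eq_or_ne s 0 with h | h
    · simp [h] at hs
    · exact norm_pos_iff.2 h
  set a := ⟪g, s⟫ with ha
  have has : a ≤ ‖s‖ := by
    have := real_inner_le_norm g s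
    rwa [hg, one_mul] at this
  set T : ℝ := d / (2 * ‖s‖) with hT
  have hT0 : 0 < T := by positivity
  have hTs : T * ‖s‖ = d / 2 := by rw [hT]; field_simp
  have hcl : p ∈ closure (interior K) := by
    rw [hv.closure_interior_eq_closure_of_nonempty_interior hi]
    exact subset_closure hp
  obtain ⟨x0, hx0, hx0p⟩ := Metric.mem_closure_iff.1 hcl (T * a) (by positivity)
  rw [dist_comm, dist_eq_norm] at hx0p
  have hout : x0 - T • s ∉ K := by
    intro h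
    have h1 := hsupp _ h
    have h2 : x0 - T • s - p = (x0 - p) - T • s := by abel
    rw [h2, inner_sub_right, real_inner_smul_right] at h1
    have h3 := real_inner_le_norm g (x0 - p)
    rw [hg, one_mul] at h3
    linarith
  have hne : (Kᶜ).Nonempty := ⟨_, hout⟩
  set φ : ℝ → ℝ := fun t => infDist (x0 - t • s) Kᶜ with hφ
  have hφc : Continuous φ := (continuous_infDist_pt _).comp (by fun_prop)
  have hφ0 : 0 < φ 0 := by
    simp only [hφ, zero_smul, sub_zero]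
    rw [← infDist_closure, ← (isClosed_closure.notMem_iff_infDist_pos hne.closure)]
    rw [closure_compl]
    simpa using hx0
  have hφT : φ T = 0 := infDist_zero_of_mem hout
  set A : Set ℝ := Icc 0 T ∩ {t | φ 0 ≤ φ t} with hA
  have hAc : IsCompact A := isCompact_Icc.inter_right (isClosed_le continuous_const hφc)
  have hAn : A.Nonempty := ⟨0, ⟨le_rfl, hT0.le⟩, (le_rfl : φ 0 ≤ φ 0)⟩
  obtain ⟨t1, ht1, hmax⟩ := hAc.exists_isGreatest hAn
  have ht1φ : φ 0 ≤ φ t1 := ht1.2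
  have ht1T : t1 < T := by
    rcases lt_or_eq_of_le ht1.1.2 with h | h
    · exact h
    · rw [h, hφT] at ht1φ; linarith
  set ρ := φ t1 with hρ
  have hρ0 : 0 < ρ := hφ0.trans_le ht1φ
  set b := x0 - t1 • s with hb
  have hfar : ∀ x, x ∉ K → ρ ≤ ‖x - b‖ := by
    intro x hx
    rw [← dist_eq_norm, dist_comm]
    exact infDist_le_dist_of_mem hx
  set h : ℝ := min (T - t1) (ε * ρ / ‖s‖) with hh
  have hh0 : 0 < h := lt_min (by linarith) (by positivity)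
  have hh1 : h ≤ T - t1 := min_le_left _ _
  have hh2 : h * ‖s‖ ≤ ε * ρ := by
    have : h ≤ ε * ρ / ‖s‖ := min_le_right _ _
    rwa [le_div_iff₀ hs0] at this
  have hlt : φ (t1 + h) < ρ := by
    by_contra hcon
    push Not at hcon
    have hmem : t1 + h ∈ A := ⟨⟨by linarith [ht1.1.1], by linarith⟩, ht1φ.trans hcon⟩
    have := hmax hmem
    linarith
  obtain ⟨y, hy, hyd⟩ := (infDist_lt_iff hne).1 hlt
  have hyd' : ‖(y - b) + h • s‖ < ρ := by
    rw [dist_comm, dist_eq_norm] at hyd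
    have : y - (x0 - (t1 + h) • s) = (y - b) + h • s := by
      rw [hb, add_smul]; abel
    rwa [this] at hyd
  have hyb := hfar y hy
  refine ⟨b, ρ, hρ0, ?_, ?_, hfar, y, hy, ?_, ?_⟩
  · have h1 := hfar _ hout
    have h2 : x0 - T • s - b = -((T - t1) • s) := by rw [hb, sub_smul]; abel
    rw [h2, norm_neg, norm_smul, Real.norm_of_nonneg (by linarith)] at h1
    have h3 : (T - t1) * ‖s‖ ≤ T * ‖s‖ := by
      gcongr; linarith [ht1.1.1]
    linarith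
  · have h2 : b - p = (x0 - p) - t1 • s := by rw [hb]; abel
    rw [h2]
    have h3 := norm_sub_le (x0 - p) (t1 • s)
    rw [norm_smul, Real.norm_of_nonneg ht1.1.1] at h3
    have h4 : t1 * ‖s‖ ≤ T * ‖s‖ := by gcongr
    have h5 : T * a ≤ T * ‖s‖ := by gcongr
    linarith
  · have h1 : y - b = ((y - b) + h • s) - h • s := by abel
    have h2 := norm_sub_le ((y - b) + h • s) (h • s)
    rw [← h1, norm_smul, Real.norm_of_nonneg hh0.le] at h2
    linarith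
  · have h1 : ‖(y - b) + h • s‖ ^ 2 ≤ ‖y - b‖ ^ 2 := by
      gcongr; linarith
    rw [norm_add_sq_real, real_inner_smul_right] at h1
    have h2 : 0 ≤ ‖h • s‖ ^ 2 := sq_nonneg _
    by_contra hcon
    push Not at hcon
    have : 0 < h * ⟪y - b, s⟫ := by positivity
    linarith

/-- one move to a new supported point with a controlled normal -/
lemma step1 [CompleteSpace H] {T : Set (Set H)} (hT : IsTiling T) {p g s : H} (hS : Supp T p g)
    (hs : 0 < ⟪g, s⟫) {d η : ℝ} (hd : 0 < d) (hη : 0 < η) (hη1 : η ≤ 1) :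
    ∃ p' g' : H, ∃ d' : ℝ, Supp T p' g' ∧ 0 < d' ∧ ‖p' - p‖ ≤ d ∧ ⟪g', s⟫ ≤ 1 ∧
      Loc T p' g' d' η := by
  obtain ⟨hg, K, hK, hp, hsupp⟩ := hS
  set ε : ℝ := min (η ^ 2) (1 / (3 * (‖s‖ ^ 2 + 1))) with hε
  have hε0 : 0 < ε := lt_min (by positivity) (by positivity)
  have hε1 : ε ≤ η ^ 2 := min_le_left _ _
  have hε2 : ε ≤ 1 := hε1.trans (by nlinarith)
  have hε3 : 3 * ε * ‖s‖ ^ 2 ≤ 1 := by
    have h1 : ε ≤ 1 / (3 * (‖s‖ ^ 2 + 1)) := min_le_right _ _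
    rw [le_div_iff₀ (by positivity)] at h1
    nlinarith
  obtain ⟨b, ρ, hρ0, hρd, hbp, hfar, y, hy, hyb, hys⟩ :=
    descend (hT.convex K hK) (hT.inter K hK) hg hp hsupp hs (d := min 1 (d / 3))
      (lt_min one_pos (by positivity)) hε0
  have hρ1 : ρ ≤ 1 := hρd.trans (min_le_left _ _)
  have hρ2 : ρ ≤ d / 3 := hρd.trans (min_le_right _ _)
  have hbp2 : ‖b - p‖ ≤ d / 3 := hbp.trans (min_le_right _ _)
  obtain ⟨K', hK', hyK'⟩ := hT.cover y
  have hbK : b ∈ K := by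
    by_contra h
    have := hfar b h
    simp at this
    linarith
  have hdisj : ∀ x ∈ K', x ∉ K := by
    intro x hx hxK
    exact hy ((hT.eq_of_mem hK' hK hx hxK) ▸ hyK')
  have hbK' : b ∉ K' := fun h => hdisj b h hbK
  obtain ⟨p', hp', g', hg', hpg, hmin, hsupp'⟩ :=
    proj (hT.closed K' hK') (hT.convex K' hK') ⟨y, hyK'⟩ hbK'
  have hp'K : p' ∉ K := hdisj p' hp'
  have hτ1 : ρ ≤ ‖p' - b‖ := hfar p' hp'K
  have hτ2 : ‖p' - b‖ ≤ (1 + ε) * ρ := (hmin y hyK').trans hyb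
  obtain ⟨δ, hδ0, hδ⟩ := Metric.isOpen_iff.1 (hT.closed K hK).isOpen_compl p' hp'K
  refine ⟨p', g', min (δ / 2) (η ^ 2 * ρ), ⟨hg', K', hK', hp', hsupp'⟩,
    lt_min (by positivity) (by positivity), ?_, ?_, ?_⟩
  · have h1 : p' - p = (p' - b) + (b - p) := by abel
    rw [h1]
    have h2 := norm_add_le (p' - b) (b - p)
    nlinarith
  · set u := y - b with hu
    have h1 : ρ ≤ ⟪g', u⟫ := by
      have h2 := hsupp' y hyK'
      have h3 : y - p' = u - (p' - b) := by rw [hu]; abel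
      rw [h3, inner_sub_right] at h2
      have h4 : ⟪g', p' - b⟫ = ‖p' - b‖ := by
        conv_lhs => rw [hpg]
        rw [real_inner_smul_right, real_inner_self_eq_norm_sq, hg']; ring
      linarith
    have h2 : ‖u - ρ • g'‖ ^ 2 ≤ 3 * ε * ρ ^ 2 := by
      rw [norm_sub_sq_real, real_inner_smul_right, norm_smul, hg', Real.norm_of_nonneg hρ0.le,
        real_inner_comm]
      have h3 : ‖u‖ ^ 2 ≤ ((1 + ε) * ρ) ^ 2 := by gcongr
      have h4 : ρ * ρ ≤ ρ * ⟪g', u⟫ := by gcongr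
      have h5 : ε * ε * ρ ^ 2 ≤ ε * ρ ^ 2 := by
        have : ε * ε ≤ ε := by nlinarith
        gcongr
      nlinarith
    have h3 : ‖u - ρ • g'‖ * ‖s‖ ≤ ρ := by
      have h4 : (‖u - ρ • g'‖ * ‖s‖) ^ 2 ≤ ρ ^ 2 := by
        rw [mul_pow]
        calc ‖u - ρ • g'‖ ^ 2 * ‖s‖ ^ 2 ≤ 3 * ε * ρ ^ 2 * ‖s‖ ^ 2 := by gcongr
          _ = (3 * ε * ‖s‖ ^ 2) * ρ ^ 2 := by ring
          _ ≤ 1 * ρ ^ 2 := by gcongr
          _ = ρ ^ 2 := one_mul _
      exact (pow_le_pow_iff_left₀ (by positivity) hρ0.le two_ne_zero).1 h4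
    have h4 : ρ * ⟪g', s⟫ = ⟪u, s⟫ - ⟪u - ρ • g', s⟫ := by
      rw [inner_sub_left u (ρ • g') s, real_inner_smul_left]; ring
    have h5 : -⟪u - ρ • g', s⟫ ≤ ‖u - ρ • g'‖ * ‖s‖ :=
      (neg_le_abs _).trans (abs_real_inner_le_norm _ _)
    have h6 : ρ * ⟪g', s⟫ ≤ ρ * 1 := by linarith
    exact le_of_mul_le_mul_left h6 hρ0
  · intro q hq L hL hqL z hz
    have hq1 : ‖q - p'‖ ≤ δ / 2 := hq.trans (min_le_left _ _)
    have hq2 : ‖q - p'‖ ≤ η ^ 2 * ρ := hq.trans (min_le_right _ _)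
    have hqK : q ∉ K := hδ (by rw [mem_ball, dist_eq_norm]; linarith)
    have hLK : ∀ x ∈ L, x ∉ K := by
      intro x hx hxK
      exact hqK ((hT.eq_of_mem hL hK hx hxK) ▸ hqL)
    refine almost_half (hT.convex L hL) hρ0 hρ1 hη hη1 hg' (b := b) ?_ hqL hz
      (fun x hx => hfar x (hLK x hx))
    have h1 : q - (b + ρ • g') = (q - p') + (‖p' - b‖ - ρ) • g' := by
      rw [sub_smul, ← hpg]; abel
    rw [h1]
    have h2 := norm_add_le (q - p') ((‖p' - b‖ - ρ) • g')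
    rw [norm_smul, hg', mul_one, Real.norm_of_nonneg (by linarith)] at h2
    have h3 : ε * ρ ≤ η ^ 2 * ρ := by gcongr
    linarith

lemma Loc.mono {T : Set (Set H)} {p g : H} {d d' η : ℝ} (h : Loc T p g d η) (hd : d' ≤ d) :
    Loc T p g d' η := fun q hq => h q (hq.trans hd)

lemma step2 [CompleteSpace H] {T : Set (Set H)} (hT : IsTiling T) {p g : H} (hS : Supp T p g)
    (s : H) {d η : ℝ} (hd : 0 < d) (hη : 0 < η) (hη1 : η ≤ 1) :
    ∃ p' g' : H, ∃ d' : ℝ, Supp T p' g' ∧ 0 < d' ∧ d' ≤ d / 2 ∧ ‖p' - p‖ ≤ d / 2 ∧ ⟪g', s⟫ ≤ 1 ∧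
      Loc T p' g' d' η := by
  have hgg : 0 < ⟪g, g⟫ := by
    rw [real_inner_self_eq_norm_sq, hS.1]; norm_num
  obtain ⟨p1, g1, d1, hS1, hd1, hp1, -, hL1⟩ := step1 hT hS hgg (d := d / 4) (by positivity) hη hη1
  by_cases h : ⟪g1, s⟫ ≤ 1
  · exact ⟨p1, g1, min d1 (d / 2), hS1, lt_min hd1 (by positivity), min_le_right _ _,
      by linarith, h, hL1.mono (min_le_left _ _)⟩
  · push Not at h
    obtain ⟨p2, g2, d2, hS2, hd2, hp2, hs2, hL2⟩ :=
      step1 hT hS1 (s := s) (by linarith) (d := d / 4) (by positivity) hη hη1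
    refine ⟨p2, g2, min d2 (d / 2), hS2, lt_min hd2 (by positivity), min_le_right _ _, ?_, hs2,
      hL2.mono (min_le_left _ _)⟩
    have h1 : p2 - p = (p2 - p1) + (p1 - p) := by abel
    rw [h1]
    have := norm_add_le (p2 - p1) (p1 - p)
    linarith

theorem no_supp [CompleteSpace H] {T : Set (Set H)} (hT : IsTiling T) {p0 g0 : H}
    (hS : Supp T p0 g0) : False := by
  let X := {x : H × H × H × ℝ // Supp T x.1 x.2.1 ∧ 0 < x.2.2.2}
  have hstep : ∀ (n : ℕ) (x : X), ∃ x' : X, x'.1.2.2.1 = x.1.2.2.1 + x'.1.2.1 ∧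
      x'.1.2.2.2 ≤ x.1.2.2.2 / 2 ∧ ‖x'.1.1 - x.1.1‖ ≤ x.1.2.2.2 / 2 ∧ ⟪x'.1.2.1, x.1.2.2.1⟫ ≤ 1 ∧
      Loc T x'.1.1 x'.1.2.1 x'.1.2.2.2 ((1 / 2) ^ n) := by
    intro n x
    obtain ⟨p', g', d', h1, h2, h3, h4, h5, h6⟩ := step2 hT x.2.1 x.1.2.2.1 x.2.2
      (η := (1 / 2) ^ n) (by positivity) (pow_le_one₀ (by norm_num) (by norm_num))
    exact ⟨⟨(p', g', x.1.2.2.1 + g', d'), h1, h2⟩, rfl, h3, h4, h5, h6⟩
  choose F hF using hstep
  let x : ℕ → X := fun n => Nat.rec ⟨(p0, g0, 0, 1), hS, one_pos⟩ (fun n y => F n y) n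
  have hx : ∀ n, x (n + 1) = F n (x n) := fun n => rfl
  set p : ℕ → H := fun n => (x n).1.1 with hp
  set g : ℕ → H := fun n => (x n).1.2.1 with hg
  set s : ℕ → H := fun n => (x n).1.2.2.1 with hs
  set d : ℕ → ℝ := fun n => (x n).1.2.2.2 with hd
  have hs0 : s 0 = 0 := rfl
  have hd0 : d 0 = 1 := rfl
  have hss : ∀ n, s (n + 1) = s n + g (n + 1) := fun n => (hF n (x n)).1
  have hdd : ∀ n, d (n + 1) ≤ d n / 2 := fun n => (hF n (x n)).2.1
  have hpp : ∀ n, ‖p (n + 1) - p n‖ ≤ d n / 2 := fun n => (hF n (x n)).2.2.1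
  have hgs : ∀ n, ⟪g (n + 1), s n⟫ ≤ 1 := fun n => (hF n (x n)).2.2.2.1
  have hloc : ∀ n, Loc T (p (n + 1)) (g (n + 1)) (d (n + 1)) ((1 / 2) ^ n) :=
    fun n => (hF n (x n)).2.2.2.2
  have hg1 : ∀ n, ‖g n‖ = 1 := fun n => (x n).2.1.1
  have hdpos : ∀ n, 0 < d n := fun n => (x n).2.2
  clear_value p g s d
  clear hp hg hs hd hx hF
  have hdgeo : ∀ n, d n ≤ 1 / 2 ^ n := by
    intro n
    induction n with
    | zero => simp [hd0]
    | succ n ih =>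
      calc d (n + 1) ≤ d n / 2 := hdd n
        _ ≤ 1 / 2 ^ n / 2 := by gcongr
        _ = 1 / 2 ^ (n + 1) := by rw [pow_succ]; field_simp
  have hcau : CauchySeq p := by
    refine cauchySeq_of_le_geometric_two (C := 1) fun n => ?_
    rw [dist_comm, dist_eq_norm]
    calc ‖p (n + 1) - p n‖ ≤ d n / 2 := hpp n
      _ ≤ 1 / 2 ^ n / 2 := by gcongr; exact hdgeo n
      _ = 1 / 2 / 2 ^ n := by field_simp
  obtain ⟨q, hq⟩ := cauchySeq_tendsto_of_complete hcau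
  have hnear : ∀ n m, ‖p (n + m) - p n‖ ≤ d n - d (n + m) := by
    intro n m
    induction m with
    | zero => simp
    | succ m ih =>
      have h1 : p (n + (m + 1)) - p n = (p (n + m + 1) - p (n + m)) + (p (n + m) - p n) := by
        rw [← add_assoc]; abel
      rw [h1, ← add_assoc]
      have h2 := norm_add_le (p (n + m + 1) - p (n + m)) (p (n + m) - p n)
      have h3 := hpp (n + m)
      have h4 := hdd (n + m)
      linarith
  have hqn : ∀ n, ‖q - p n‖ ≤ d n := by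
    intro n
    have h1 : Filter.Tendsto (fun m => ‖p (n + m) - p n‖) Filter.atTop (nhds ‖q - p n‖) := by
      have h2 : Filter.Tendsto (fun m => p (n + m)) Filter.atTop (nhds q) := by
        have := hq.comp (Filter.tendsto_add_atTop_nat n)
        refine this.congr fun m => ?_
        simp [add_comm]
      exact (h2.sub_const _).norm
    refine le_of_tendsto' h1 fun m => ?_
    linarith [hnear n m, hdpos (n + m)]
  obtain ⟨L, hL, hqL⟩ := hT.cover q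
  obtain ⟨c, hc⟩ := hT.inter L hL
  obtain ⟨r2, hr2, hball⟩ := Metric.isOpen_iff.1 isOpen_interior c hc
  set r := r2 / 2 with hr
  have hr0 : 0 < r := by positivity
  set v := c - q with hv
  set M := (1 + (‖v‖ + r)) ^ 2 with hM
  have hM0 : 0 < M := by positivity
  have hgv : ∀ n, r - 4 * (1 / 2) ^ n * M ≤ ⟪g (n + 1), v⟫ := by
    intro n
    have hz : c - r • g (n + 1) ∈ L := by
      refine interior_subset (hball ?_)
      rw [mem_ball, dist_eq_norm, sub_sub_cancel_left, norm_neg, norm_smul, hg1,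
        Real.norm_of_nonneg hr0.le]
      linarith
    have h1 := hloc n q (hqn (n + 1)) L hL hqL _ hz
    have h2 : c - r • g (n + 1) - q = v - r • g (n + 1) := by rw [hv]; abel
    rw [h2, inner_sub_right, real_inner_smul_right, real_inner_self_eq_norm_sq, hg1] at h1
    have h3 : ‖v - r • g (n + 1)‖ ≤ ‖v‖ + r := by
      have := norm_sub_le v (r • g (n + 1))
      rwa [norm_smul, hg1, Real.norm_of_nonneg hr0.le, mul_one] at this
    have h4 : 4 * (1 / 2 : ℝ) ^ n * (1 + ‖v - r • g (n + 1)‖) ^ 2 ≤ 4 * (1 / 2) ^ n * M := by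
      rw [hM]; gcongr
    linarith
  have hsn : ∀ n : ℕ, ‖s n‖ ^ 2 ≤ 3 * n := by
    intro n
    induction n with
    | zero => simp [hs0]
    | succ n ih =>
      rw [hss, norm_add_sq_real, hg1, real_inner_comm]
      have := hgs n
      push_cast
      linarith
  have hsv : ∀ n : ℕ, n * r - 8 * M * (1 - (1 / 2) ^ n) ≤ ⟪s n, v⟫ := by
    intro n
    induction n with
    | zero => simp [hs0]
    | succ n ih =>
      rw [hss, inner_add_left]
      have := hgv n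
      push_cast
      rw [pow_succ]
      linarith
  obtain ⟨n, hn⟩ := exists_nat_gt (max (16 * M / r) (12 * ‖v‖ ^ 2 / r ^ 2))
  have hn1 : 16 * M < n * r := by
    have := (le_max_left _ _).trans_lt hn
    rwa [div_lt_iff₀ hr0] at this
  have hn2 : 12 * ‖v‖ ^ 2 < n * r ^ 2 := by
    have := (le_max_right _ _).trans_lt hn
    rwa [div_lt_iff₀ (by positivity)] at this
  have hnpos : (0 : ℝ) < n := by
    by_contra hcon
    push Not at hcon
    have : n * r ≤ 0 := mul_nonpos_of_nonpos_of_nonneg hcon hr0.le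
    linarith
  have h1 : n * r / 2 ≤ ‖s n‖ * ‖v‖ := by
    have h2 := hsv n
    have h3 := real_inner_le_norm (s n) v
    have h4 : 0 ≤ 8 * M * (1 / 2 : ℝ) ^ n := by positivity
    nlinarith
  have h2 : (n * r / 2) ^ 2 ≤ (‖s n‖ * ‖v‖) ^ 2 := by gcongr
  have h3 : (‖s n‖ * ‖v‖) ^ 2 ≤ 3 * n * ‖v‖ ^ 2 := by
    rw [mul_pow]; gcongr; exact hsn n
  have h4 : n * (12 * ‖v‖ ^ 2) < n * (n * r ^ 2) := by gcongr
  nlinarith

/-- a disjoint cover of a Hilbert space by closed convex bodies has the whole space as a tile -/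
theorem univ_mem [CompleteSpace H] {T : Set (Set H)} (hT : IsTiling T) : Set.univ ∈ T := by
  obtain ⟨K, hK, h0⟩ := hT.cover 0
  by_cases h : K = Set.univ
  · exact h ▸ hK
  exfalso
  obtain ⟨y, hy⟩ := (Set.ne_univ_iff_exists_notMem K).1 h
  obtain ⟨K', hK', hyK'⟩ := hT.cover y
  have h0' : (0 : H) ∉ K' := fun h0' => hy ((hT.eq_of_mem hK' hK h0' h0) ▸ hyK')
  obtain ⟨p, hp, g, hg, -, -, hsupp⟩ := proj (hT.closed K' hK') (hT.convex K' hK') ⟨y, hyK'⟩ h0'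
  exact no_supp hT ⟨hg, K', hK', hp, hsupp⟩

end Pool.Agent.H5.Tiling
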