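import Pool.Agent.H5.Asq

set_option autoImplicit false

open Filter Topology

namespace Pool.Agent.H5.UnifS

open Pool.Agent.H5.Asq

abbrev l2 : Type := lp (fun _ : ℕ => ℝ) 2

noncomputable def T : l1 →ₗ[ℝ] l2 := lp.linearMapOfLE ℝ (fun _ : ℕ => ℝ) (by norm_num)

lemma T_app (v : l1) (n : ℕ) : T v n = v n := rfl

lemma T_le (v : l1) : ‖T v‖ ≤ ‖v‖ := by
  refine lp.norm_le_of_forall_sum_le (by norm_num) (norm_nonneg _) fun s => ?_
  simp only [ENNReal.toReal_ofNat, Real.rpow_ofNat, T_app, Real.norm_eq_abs, sq]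
  refine (Finset.sum_le_sum (g := fun n => ‖v‖ * |v n|) fun n _ =>
    mul_le_mul_of_nonneg_right (lp.norm_apply_le_norm one_ne_zero v n) (abs_nonneg _)).trans ?_
  exact sum_le_hasSum s (fun n _ => by positivity) ((hs1 v).mul_left ‖v‖)

noncomputable def J : l1 →ₗ[ℝ] WithLp 2 (l1 × l2) :=
  (WithLp.linearEquiv 2 ℝ (l1 × l2)).symm.toLinearMap ∘ₗ LinearMap.id.prod T

lemma J_sq (v : l1) : ‖J v‖ ^ 2 = ‖v‖ ^ 2 + ‖T v‖ ^ 2 := WithLp.prod_norm_sq_eq_of_L2 _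

lemma le_J (v : l1) : ‖v‖ ≤ ‖J v‖ :=
  (abs_le_of_sq_le_sq' (by rw [J_sq]; nlinarith [sq_nonneg ‖T v‖]) (norm_nonneg _)).2

lemma J_le (v : l1) : ‖J v‖ ≤ 2 * ‖v‖ :=
  (abs_le_of_sq_le_sq' (by rw [J_sq]; nlinarith [T_le v, norm_nonneg (T v)]) (by positivity)).2

lemma space : ∃ (X : Type) (_ : NormedAddCommGroup X) (_ : NormedSpace ℝ X)
    (_ : CompleteSpace X) (e : l1 ≃L[ℝ] X), ∀ v, ‖e v‖ = ‖J v‖ :=
  Renorm.renorm l1 (fun v => ‖J v‖) (a := 1) (b := 2) one_pos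
    (fun x y => by rw [map_add]; exact norm_add_le _ _)
    (fun c x => by rw [map_smul, norm_smul]; rfl) (fun x => by rw [one_mul]; exact le_J x) J_le

lemma norm_add_fin (v z : l1) (S : Finset ℕ) (h : ∀ n ∉ S, z n = 0) :
    ‖v + z‖ = ‖v‖ + ∑ n ∈ S, (|v n + z n| - |v n|) := by
  have h1 := ((hs1 (v + z)).sub (hs1 v)).unique (hasSum_sum_of_ne_finset_zero (s := S)
    fun n hn => by
      change |v n + z n| - |v n| = 0
      rw [h n hn, add_zero, sub_self])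
  rw [← sub_eq_iff_eq_add', h1]
  rfl

lemma bins {u c : ℕ → ℝ} {τ K η : ℝ} (hτ : 0 < τ) (hc : ∀ n, 0 ≤ c n) (hK : η ≤ K * τ)
    (hK0 : 0 ≤ K) (h1 : ∀ n, τ < c n → u n ≤ K * c n)
    (h2 : ∀ S : Finset ℕ, ∑ n ∈ S, c n ≤ 2 * τ → ∑ n ∈ S, u n ≤ η) (A : Finset ℕ) :
    ∑ n ∈ A, u n ≤ η + K * ∑ n ∈ A, c n := by
  have key : ∃ S ⊆ A, ∑ n ∈ S, c n ≤ τ ∧
      ∑ n ∈ A, u n - ∑ n ∈ S, u n ≤ K * (∑ n ∈ A, c n - ∑ n ∈ S, c n) := by
    induction A using Finset.induction_on with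
    | empty => exact ⟨∅, le_rfl, by simpa using hτ.le, by simp⟩
    | insert n A hn ih =>
      obtain ⟨S, hS, k1, k2⟩ := ih
      have hn' : n ∉ S := fun h => hn (hS h)
      rw [Finset.sum_insert hn, Finset.sum_insert hn]
      by_cases k3 : τ < c n
      · exact ⟨S, hS.trans (Finset.subset_insert _ _), k1, by linarith [h1 n k3]⟩
      by_cases k4 : c n + ∑ n ∈ S, c n ≤ τ
      · refine ⟨insert n S, Finset.insert_subset_insert _ hS, ?_, ?_⟩
        · rwa [Finset.sum_insert hn']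
        · rw [Finset.sum_insert hn', Finset.sum_insert hn']
          linarith
      · have k5 := h2 (insert n S) (by rw [Finset.sum_insert hn']; linarith)
        rw [Finset.sum_insert hn'] at k5
        refine ⟨∅, Finset.empty_subset _, by simpa using hτ.le, ?_⟩
        simp only [Finset.sum_empty]
        nlinarith
  obtain ⟨S, -, k1, k2⟩ := key
  have k3 := h2 S (by linarith)
  have k4 := mul_nonneg hK0 (Finset.sum_nonneg (s := S) fun n _ => hc n)
  linarith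

noncomputable def F (s η : ℝ) : ℝ :=
  2 * ((√(4 * η + 4 * √(4 * η / s)) + √(4 * η / s)) +
    (√(4 * η + 4 * √(4 * η / s)) + 3 * √(4 * η / s)) / (s / 4) + √(4 * η / s))

theorem est {v w : l1} (hv : ‖J v‖ = 1) (hw : ‖J w‖ = 1) {s η : ℝ} (s0 : 0 < s) (s1 : s ≤ 1)
    (η1 : η ≤ 1) (h : ∀ z, ‖J z‖ ≤ s → ‖J (v + z)‖ - ‖J (w + z)‖ ≤ η) : ‖J (v - w)‖ ≤ F s η := by
  have η0 : 0 ≤ η := by simpa [hv, hw] using h 0 (by simpa using s0.le)
  have e1 := J_sq v
  have e2 := J_sq w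
  rw [hv] at e1
  rw [hw] at e2
  have a1 : (‖v‖ - ‖w‖) ^ 2 + ‖T v - T w‖ ^ 2 ≤ 4 * η / s := by
    have k1 := h (s • v) (by rw [map_smul, norm_smul, hv, Real.norm_of_nonneg s0.le, mul_one])
    rw [show v + s • v = (1 + s) • v by module, map_smul, norm_smul, hv,
      Real.norm_of_nonneg (by linarith)] at k1
    have k2 := J_sq (w + s • v)
    have k3 : ‖w + s • v‖ ≤ ‖w‖ + s * ‖v‖ := by
      simpa [norm_smul, abs_of_pos s0] using norm_add_le w (s • v)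
    have k4 := pow_le_pow_left₀ (norm_nonneg _) k3 2
    have k5 := pow_le_pow_left₀ (by linarith) (show 1 + s - η ≤ ‖J (w + s • v)‖ by linarith) 2
    rw [map_add T, map_smul T, norm_add_sq_real (T w), real_inner_smul_right, norm_smul,
      Real.norm_of_nonneg s0.le] at k2
    rw [norm_sub_sq_real, le_div_iff₀ s0, real_inner_comm]
    nlinarith [mul_nonneg η0 (sub_nonneg.2 s1), sq_nonneg η]
  unfold F
  set δ := √(4 * η / s)
  have δ0 : 0 ≤ δ := Real.sqrt_nonneg _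
  have a2 : |‖v‖ - ‖w‖| ≤ δ := Real.abs_le_sqrt (by nlinarith [sq_nonneg ‖T v - T w‖])
  have a3 : ‖T v - T w‖ ≤ δ := Real.le_sqrt_of_sq_le (by nlinarith [sq_nonneg (‖v‖ - ‖w‖)])
  have a4 : ∀ n, |v n - w n| ≤ δ := fun n =>
    (lp.norm_apply_le_norm two_ne_zero (T v - T w) n).trans a3
  set κ := √(4 * η + 4 * δ)
  have κ0 : 0 ≤ κ := Real.sqrt_nonneg _
  have a5 : ∀ S : Finset ℕ, ∑ n ∈ S, |w n| ≤ 2 * (s / 4) →
      ∑ n ∈ S, (|v n - w n| - |v n| + |w n|) ≤ κ + δ := fun S hS => by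
    obtain ⟨z, z1, z2, z3⟩ : ∃ z : l1, (∀ n ∈ S, z n = -w n) ∧ (∀ n ∉ S, z n = 0) ∧
        ‖z‖ ≤ ∑ n ∈ S, |w n| := by
      refine ⟨∑ n ∈ S, lp.single 1 n (-w n), fun n hn => ?_, fun n hn => ?_,
        (norm_sum_le _ _).trans_eq (Finset.sum_congr rfl fun n _ => ?_)⟩
      · rw [lp.coeFn_sum, Finset.sum_apply, Finset.sum_eq_single_of_mem n hn
          fun m _ hm => lp.single_apply_ne _ _ _ hm.symm, lp.single_apply_self]
      · rw [lp.coeFn_sum, Finset.sum_apply]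
        exact Finset.sum_eq_zero fun m hm => lp.single_apply_ne _ _ _ fun h => hn (h ▸ hm)
      · rw [lp.norm_single one_pos, norm_neg, Real.norm_eq_abs]
    have z4 : ‖J z‖ ≤ s := by linarith [J_le z]
    have k1 := h z z4
    have k2 : ‖J (v + z)‖ ≤ 2 := by rw [map_add]; linarith [norm_add_le (J v) (J z)]
    have k3 : ‖J (w + z)‖ ≤ 2 := by rw [map_add]; linarith [norm_add_le (J w) (J z)]
    have k4 : ‖T (w + z)‖ - ‖T (v + z)‖ ≤ δ := by
      refine (norm_sub_norm_le _ _).trans ?_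
      rwa [map_add, map_add, add_sub_add_right_eq_sub, norm_sub_rev]
    have k5 := (T_le _).trans ((le_J _).trans k2)
    have k6 := (T_le _).trans ((le_J _).trans k3)
    have k7 : ‖v + z‖ ^ 2 - ‖w + z‖ ^ 2 ≤ 4 * η + 4 * δ := by
      nlinarith [J_sq (v + z), J_sq (w + z), norm_nonneg (J (v + z)), norm_nonneg (J (w + z)),
        norm_nonneg (T (v + z)), norm_nonneg (T (w + z))]
    have k8 : ‖v + z‖ - ‖w + z‖ ≤ κ := by
      rcases le_total ‖v + z‖ ‖w + z‖ with k | k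
      · linarith
      · exact Real.le_sqrt_of_sq_le (by nlinarith [norm_nonneg (w + z)])
    rw [norm_add_fin v z S z2, norm_add_fin w z S z2] at k8
    have k9 : ∑ n ∈ S, (|v n - w n| - |v n| + |w n|) =
        ∑ n ∈ S, (|v n + z n| - |v n|) - ∑ n ∈ S, (|w n + z n| - |w n|) := by
      rw [← Finset.sum_sub_distrib]
      refine Finset.sum_congr rfl fun n hn => ?_
      rw [z1 n hn, add_neg_cancel, abs_zero, ← sub_eq_add_neg]
      ring
    linarith [(abs_le.1 a2).1]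
  have hτ : 0 < s / 4 := by positivity
  have hK : (κ + 3 * δ) / (s / 4) * (s / 4) = κ + 3 * δ := div_mul_cancel₀ _ hτ.ne'
  have hK0 : 0 ≤ (κ + 3 * δ) / (s / 4) := by positivity
  have a6 := bins (K := (κ + 3 * δ) / (s / 4)) hτ (fun n => abs_nonneg (w n)) (by linarith) hK0
    (fun n hn => by
      have k1 := mul_le_mul_of_nonneg_left hn.le hK0
      have k2 := abs_sub_abs_le_abs_sub (w n) (v n)
      rw [abs_sub_comm] at k2
      linarith [a4 n]) a5
  have a7 : ‖v - w‖ - ‖v‖ + ‖w‖ ≤ κ + δ + (κ + 3 * δ) / (s / 4) :=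
    hasSum_le_of_sum_le (((hs1 (v - w)).sub (hs1 v)).add (hs1 w)) fun A => (a6 A).trans (by
      have k1 := (sum_le_hasSum A (fun n _ => abs_nonneg _) (hs1 w)).trans ((le_J w).trans hw.le)
      linarith [mul_le_of_le_one_right hK0 k1])
  linarith [J_le (v - w), (abs_le.1 a2).2]

lemma F_small {s d : ℝ} (hd : 0 < d) : ∃ c, 0 < c ∧ ∀ η, 0 ≤ η → η < c → F s η < d := by
  have h1 : Continuous (F s) := by unfold F; fun_prop
  have h2 := (h1.tendsto 0).eventually (gt_mem_nhds (show F s 0 < d by simpa [F]))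
  obtain ⟨c, hc, h⟩ := Metric.eventually_nhds_iff.1 h2
  exact ⟨c, hc, fun η h0 h3 => h (by rwa [dist_zero_right, Real.norm_of_nonneg h0])⟩

lemma l2_null (h : l2 →L[ℝ] ℝ) : Tendsto (fun n => h (lp.single 2 n 1)) atTop (𝓝 0) := by
  obtain ⟨v, rfl⟩ := (InnerProductSpace.toDual ℝ l2).surjective h
  have h1 := ((lp.memℓp v).summable (by norm_num)).tendsto_atTop_zero.sqrt
  rw [tendsto_zero_iff_abs_tendsto_zero]
  simpa [lp.inner_single_right, Real.sqrt_sq_eq_abs, Function.comp_def] using h1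

section bidual

variable {X : Type} [NormedAddCommGroup X] [NormedSpace ℝ X] (e : l1 ≃L[ℝ] X)
  (he : ∀ v, ‖e v‖ = ‖J v‖)

include he

lemma coef (c : ℕ → ℝ) {C : ℝ} (hC : 0 < C) (hc : ∀ n, |c n| ≤ C) :
    ∃ G : StrongDual ℝ X, ‖G‖ ≤ C ∧ ∀ v : l1, HasSum (fun n => c n * v n) (G (e v)) := by
  obtain ⟨g, hg⟩ := mk_fun (fun n => C⁻¹ * c n) fun n => by
    rw [abs_mul, abs_of_pos (inv_pos.2 hC)]
    exact inv_mul_le_one_of_le₀ (hc n) hC.le
  have h1 : ∀ v : l1, HasSum (fun n => c n * v n) ((C • g ∘L (e.symm : X →L[ℝ] l1)) (e v)) :=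
    fun v => by simpa [← mul_assoc, hC.ne'] using (hg v).mul_left C
  refine ⟨_, ContinuousLinearMap.opNorm_le_bound _ hC.le fun x => ?_, h1⟩
  obtain ⟨v, rfl⟩ := e.surjective x
  rw [he]
  exact (sum_le (h1 v) hc).trans (mul_le_mul_of_nonneg_left (le_J v) hC.le)

lemma split (G : StrongDual ℝ X) (hG : ‖G‖ ≤ 1) : ∃ (g : ℕ → ℝ) (h : l2 →L[ℝ] ℝ),
    (∀ v : l1, HasSum (fun n => g n * v n) (G (e v) - h (T v))) ∧
      ∀ (n : ℕ) (r : ℝ) (w : l2), |r * g n + h w| ≤ √(r ^ 2 + ‖w‖ ^ 2) := by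
  let j : X →ₗᵢ[ℝ] WithLp 2 (l1 × l2) := ⟨J ∘ₗ e.symm.toLinearMap, fun x => by
    obtain ⟨v, rfl⟩ := e.surjective x
    simp [he]⟩
  obtain ⟨H, h1, h2⟩ := exists_extension_norm_eq j.range
    (G ∘L (j.equivRange.symm.toContinuousLinearEquiv : j.range →L[ℝ] X))
  have h3 : ‖H‖ ≤ 1 := by
    rw [h2]
    refine ContinuousLinearMap.opNorm_le_bound _ zero_le_one fun x => ?_
    simpa using G.le_of_opNorm_le hG (j.equivRange.symm x)
  have h4 : ∀ v, H (J v) = G (e v) := fun v => by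
    have k1 := h1 (j.equivRange (e v))
    have k2 : (j.equivRange (e v) : WithLp 2 (l1 × l2)) = J v := by
      change J (e.symm (e v)) = _
      rw [e.symm_apply_apply]
    rw [k2] at k1
    rw [k1]
    change G (j.equivRange.symm (j.equivRange (e v))) = _
    rw [j.equivRange.symm_apply_apply]
  let p := (WithLp.prodContinuousLinearEquiv 2 ℝ l1 l2).symm
  let g : l1 →L[ℝ] ℝ := H ∘L (p : l1 × l2 →L[ℝ] _) ∘L ContinuousLinearMap.inl ℝ l1 l2
  let h : l2 →L[ℝ] ℝ := H ∘L (p : l1 × l2 →L[ℝ] _) ∘L ContinuousLinearMap.inr ℝ l1 l2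
  have h5 : ∀ a b, g a + h b = H (WithLp.toLp 2 (a, b)) := fun a b => by
    change H (p (a, 0)) + H (p (0, b)) = H (p (a, b))
    rw [← map_add, ← map_add, Prod.mk_add_mk, add_zero, zero_add]
  refine ⟨fun n => g (lp.single 1 n 1), h, fun v => ?_, fun n r w => ?_⟩
  · rw [← h4, show H (J v) = g v + h (T v) from (h5 _ _).symm, add_sub_cancel_right]
    exact Asq.repr g v
  · rw [← smul_eq_mul, ← map_smul, h5]
    refine (H.le_of_opNorm_le h3 _).trans ?_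
    rw [one_mul, WithLp.prod_norm_eq_of_L2]
    simp [norm_smul, lp.norm_single]

lemma points : ∃ φ ψ : StrongDual ℝ (StrongDual ℝ X),
    (∀ G, Tendsto (fun k => G (e (lp.single 1 (2 * k) 1))) (hyperfilter ℕ) (𝓝 (φ G))) ∧
    ∀ G, Tendsto (fun k => G (e (lp.single 1 (2 * k + 1) 1))) (hyperfilter ℕ) (𝓝 (ψ G)) := by
  have h : ∀ σ : ℕ → ℕ, ∃ φ : StrongDual ℝ (StrongDual ℝ X),
      ∀ G, Tendsto (fun k => G (e (lp.single 1 (σ k) 1))) (hyperfilter ℕ) (𝓝 (φ G)) := fun σ => by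
    obtain ⟨φ, -, h⟩ := ulim2 X (hyperfilter ℕ) (fun k => (1 / 2 : ℝ) • e (lp.single 1 (σ k) 1))
      fun k => by
        have := J_le (lp.single 1 (σ k) 1)
        rw [lp.norm_single one_pos, norm_one] at this
        rw [norm_smul, he, Real.norm_of_nonneg (by norm_num)]
        linarith
    exact ⟨(2 : ℝ) • φ, fun G => by simpa [← mul_assoc] using (h G).const_mul 2⟩
  obtain ⟨φ, h1⟩ := h fun k => 2 * k
  obtain ⟨ψ, h2⟩ := h fun k => 2 * k + 1
  exact ⟨φ, ψ, h1, h2⟩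

omit he in
lemma single_eq {c : ℕ → ℝ} {S : ℝ} {n : ℕ}
    (h : HasSum (fun k => c k * (lp.single 1 n 1 : l1) k) S) : S = c n := by
  have := h.unique (hasSum_single n fun k hk => by rw [lp.single_apply_ne _ _ _ hk, mul_zero])
  rwa [lp.single_apply_self, mul_one] at this

lemma swap {φ ψ : StrongDual ℝ (StrongDual ℝ X)} {σ τ : ℕ → ℕ} (hσ : StrictMono σ)
    (hτ : StrictMono τ)
    (hφ : ∀ G, Tendsto (fun k => G (e (lp.single 1 (σ k) 1))) (hyperfilter ℕ) (𝓝 (φ G)))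
    (hψ : ∀ G, Tendsto (fun k => G (e (lp.single 1 (τ k) 1))) (hyperfilter ℕ) (𝓝 (ψ G)))
    (G : StrongDual ℝ X) (hG : ‖G‖ ≤ 1) {ε : ℝ} (hε : 0 < ε) :
    |φ G| ≤ 1 ∧ ∃ G' : StrongDual ℝ X, ‖G + G'‖ ≤ 1 ∧ ‖G'‖ ≤ |φ G - ψ G| + ε ∧
      φ (G + G') = max (φ G) (ψ G) ∧ ψ (G + G') = max (φ G) (ψ G) := by
  classical
  obtain ⟨g, h, h1, h2⟩ := split e he G hG
  have h3 : ∀ {ρ : ℕ → ℕ} {a : ℝ}, StrictMono ρ →
      Tendsto (fun k => G (e (lp.single 1 (ρ k) 1))) (hyperfilter ℕ) (𝓝 a) →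
      Tendsto (fun k => g (ρ k)) (hyperfilter ℕ) (𝓝 a) := fun {ρ a} hρ ha => by
    have k1 := ha.sub (((l2_null h).comp hρ.tendsto_atTop).mono_left Nat.hyperfilter_le_atTop)
    rw [sub_zero] at k1
    exact k1.congr fun k => single_eq (h1 _)
  have h4 := h3 hσ (hφ G)
  have h5 := h3 hτ (hψ G)
  have h6 : ∀ (r : ℝ) (w : l2), |r * max (φ G) (ψ G) + h w| ≤ √(r ^ 2 + ‖w‖ ^ 2) := fun r w => by
    rcases max_choice (φ G) (ψ G) with k | k <;> rw [k]
    · exact le_of_tendsto' ((h4.const_mul r).add_const _).abs fun k => h2 _ r w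
    · exact le_of_tendsto' ((h5.const_mul r).add_const _).abs fun k => h2 _ r w
  refine ⟨le_of_tendsto' h4.abs fun k => by simpa using h2 (σ k) 1 0, ?_⟩
  let c : ℕ → ℝ := fun n => if |g n - φ G| < ε ∨ |g n - ψ G| < ε then max (φ G) (ψ G) else g n
  obtain ⟨G', k1, k2⟩ := coef e he (fun n => c n - g n) (C := |φ G - ψ G| + ε) (by positivity)
    fun n => by
      simp only [c]
      split_ifs with k
      · rcases max_choice (φ G) (ψ G) with m | m <;> rw [m] <;> rcases k with k | k <;>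
          rw [abs_lt] at k <;> rw [abs_le] <;> constructor <;>
          linarith [k.1, k.2, le_abs_self (φ G - ψ G), neg_abs_le (φ G - ψ G)]
      · rw [sub_self, abs_zero]
        positivity
  have k3 : ∀ {ρ : ℕ → ℕ} {a b : ℝ}, Tendsto (fun k => g (ρ k)) (hyperfilter ℕ) (𝓝 a) →
      (a = φ G ∨ a = ψ G) →
      Tendsto (fun k => G' (e (lp.single 1 (ρ k) 1))) (hyperfilter ℕ) (𝓝 b) →
      a + b = max (φ G) (ψ G) := fun {ρ a b} ha ha' hb => by
    refine tendsto_nhds_unique (ha.add hb) (tendsto_const_nhds.congr' ?_)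
    filter_upwards [Metric.tendsto_nhds.1 ha ε hε] with k hk
    rw [single_eq (k2 _), add_sub_cancel]
    exact (if_pos (ha'.imp (fun m => m ▸ hk) fun m => m ▸ hk)).symm
  refine ⟨G', ContinuousLinearMap.opNorm_le_bound _ zero_le_one fun x => ?_, k1,
    by rw [map_add]; exact k3 h4 (.inl rfl) (hφ G'),
    by rw [map_add]; exact k3 h5 (.inr rfl) (hψ G')⟩
  obtain ⟨v, rfl⟩ := e.surjective x
  rcases eq_or_ne v 0 with rfl | hv
  · simp
  have hp := norm_pos_iff.2 hv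
  have k4 : ∀ n (w : l2), |‖v‖ * c n + h w| ≤ √(‖v‖ ^ 2 + ‖w‖ ^ 2) := fun n w => by
    simp only [c]
    split_ifs
    exacts [h6 _ _, h2 _ _ _]
  have k5 : ∀ n, |c n| ≤ (‖J v‖ - |h (T v)|) / ‖v‖ := fun n => by
    have m1 := abs_le.1 (k4 n (T v))
    have m2 := abs_le.1 (k4 n (-T v))
    rw [norm_neg, map_neg] at m2
    rw [← J_sq, Real.sqrt_sq (norm_nonneg _)] at m1 m2
    rw [le_div_iff₀ hp, ← abs_norm v, ← abs_mul, le_sub_iff_add_le]
    rcases abs_cases (c n * ‖v‖) with m | m <;> rcases abs_cases (h (T v)) with m' | m' <;>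
      linarith [m.1, m'.1, m1.1, m1.2, m2.1, m2.2]
  have k6 := sum_le (c := c) (h := v) (by simpa [← add_mul] using (h1 v).add (k2 v)) k5
  rw [div_mul_cancel₀ _ hp.ne'] at k6
  rw [one_mul, he, add_apply, Real.norm_eq_abs]
  have k7 := abs_add_le (G (e v) - h (T v) + G' (e v)) (h (T v))
  rw [show G (e v) - h (T v) + G' (e v) + h (T v) = G (e v) + G' (e v) by ring] at k7
  linarith

end bidual

end Pool.Agent.H5.UnifS
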