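import Mathlib

set_option autoImplicit false

namespace Pool.Agent.H5.VecRange

open MeasureTheory Filter Topology Set
open scoped ENNReal

section Gen
variable {α : Type*} [MeasurableSpace α] {E : Type*} [NormedAddCommGroup E] [NormedSpace ℝ E]

/-- the semivariation is continuous at the empty set -/
theorem semivar_small (μ : VectorMeasure α E) (D : ℕ → Set α) (hD : Antitone D)
    (hm : ∀ n, MeasurableSet (D n)) (h0 : ⋂ n, D n = ∅) (ε : ℝ) (hε : 0 < ε)
    (h : ∀ n, ENNReal.ofReal ε < μ.semivariation (D n)) : False := by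
  have key : ∀ m, ∃ t, ∃ m', m < m' ∧ MeasurableSet t ∧ t ⊆ D m ∧ ε / 4 < ‖μ (t \ D m')‖ := by
    intro m
    obtain ⟨t, ht, htm, hlt⟩ :=
      VectorMeasure.exists_subset_lt_enorm_apply_of_lt_semivariation (hm m) (h m)
    have h1 : ε < 2 * ‖μ t‖ := by
      rw [← ofReal_norm, ← ENNReal.ofReal_ofNat, ← ENNReal.ofReal_mul (by norm_num)] at hlt
      exact (ENNReal.ofReal_lt_ofReal_iff_of_nonneg hε.le).1 hlt
    have h2 := VectorMeasure.tendsto_vectorMeasure_iInter_atTop_nat (v := μ)
      (s := fun n => t ∩ D n) (fun a b hab => inter_subset_inter_right _ (hD hab))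
      (fun n => htm.inter (hm n))
    rw [← inter_iInter, h0, inter_empty, VectorMeasure.empty] at h2
    have h3 := (tendsto_zero_iff_norm_tendsto_zero.1 h2).eventually
      (gt_mem_nhds (show (0 : ℝ) < ε / 4 by positivity))
    obtain ⟨m', hm1, hm2⟩ := (h3.and (eventually_gt_atTop m)).exists
    refine ⟨t, m', hm2, htm, ht, ?_⟩
    have h4 : μ t = μ (t ∩ D m') + μ (t \ D m') := by
      rw [← VectorMeasure.of_union (disjoint_sdiff_right.mono_left inter_subset_right)
        (htm.inter (hm m')) (htm.diff (hm m')), inter_union_sdiff]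
    have h5 := norm_add_le (μ (t ∩ D m')) (μ (t \ D m'))
    rw [← h4] at h5
    linarith
  choose t nx h1 h2 h3 h4 using key
  let s : ℕ → ℕ := fun i => nx^[i] 0
  have hs : ∀ i, s (i + 1) = nx (s i) := fun i => Function.iterate_succ_apply' _ _ _
  have smono : StrictMono s := strictMono_nat_of_lt_succ fun i => by rw [hs]; exact h1 _
  let u : ℕ → Set α := fun i => t (s i) \ D (s (i + 1))
  have hd : Pairwise (Function.onFun Disjoint u) := by
    apply (pairwise_disjoint_on _).2 (fun m n hmn ↦ ?_)
    refine Set.disjoint_left.2 fun x hx hy => hx.2 ?_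
    exact hD (smono.monotone hmn) (h3 _ hy.1)
  have h5 := (μ.hasSum_of_disjoint_iUnion (fun i => (h2 _).diff (hm _)) hd).summable.tendsto_atTop_zero
  obtain ⟨i, hi⟩ := ((tendsto_zero_iff_norm_tendsto_zero.1 h5).eventually
      (gt_mem_nhds (show (0 : ℝ) < ε / 4 by positivity))).exists
  have := h4 (s i)
  rw [← hs] at this
  exact lt_irrefl _ (this.trans hi)

/-- uniform absolute continuity -/
theorem uac (μ : VectorMeasure α E) (T : ℕ → Measure α) (lam : Measure α)
    (hT : ∀ j A, T j A ≤ μ.semivariation A) (hl : ∀ j A, lam A = 0 → T j A = 0)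
    (ε : ℝ) (hε : 0 < ε) :
    ∃ δ : ℝ, 0 < δ ∧ ∀ A, MeasurableSet A → lam A < ENNReal.ofReal δ →
      ∀ j, T j A ≤ ENNReal.ofReal ε := by
  by_contra hc
  push Not at hc
  choose A hA h1 j h2 using fun k : ℕ => hc ((1 / 2) ^ k) (by positivity)
  have hs : ∑' k, lam (A k) ≠ ∞ := by
    refine ne_top_of_le_ne_top ?_ (ENNReal.tsum_le_tsum fun k => (h1 k).le)
    exact Summable.tsum_ofReal_ne_top summable_geometric_two
  have h3 := measure_limsup_atTop_eq_zero hs
  rw [limsup_eq_iInf_iSup_of_nat] at h3
  simp only [iSup_eq_iUnion, iInf_eq_iInter] at h3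
  set B : ℕ → Set α := fun n => ⋃ i ≥ n, A i with hB
  have hBm : ∀ n, MeasurableSet (B n) := fun n =>
    MeasurableSet.iUnion fun i => MeasurableSet.iUnion fun _ => hA i
  refine semivar_small μ (fun n => B n \ ⋂ n, B n) ?_
    (fun n => (hBm n).diff (MeasurableSet.iInter hBm)) ?_ ε hε ?_
  · intro a b hab
    refine sdiff_subset_sdiff_left ?_
    exact biUnion_subset_biUnion_left fun i hi => le_trans hab hi
  · ext x
    simp only [mem_iInter, Set.mem_sdiff, mem_empty_iff_false, iff_false]
    exact fun h => (h 0).2 fun n => (h n).1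
  · intro n
    refine (h2 n).trans_le (le_trans ?_ (hT (j n) _))
    rw [measure_sdiff_null (hl _ _ h3)]
    exact measure_mono (subset_biUnion_of_mem (u := A) (show n ∈ {i | i ≥ n} from le_refl n))

/-- dyadic averages of indicator functions -/
noncomputable def S (F : ℕ → Set α) : ℕ → ℕ → α → ℝ
  | 0, a => (F a).indicator 1
  | l + 1, a => fun x => (S F l a x + S F l (a + 2 ^ l) x) / 2

omit [MeasurableSpace α] in
theorem S_mem (F : ℕ → Set α) (l a : ℕ) (x : α) : 0 ≤ S F l a x ∧ S F l a x ≤ 1 := by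
  induction l generalizing a with
  | zero => by_cases h : x ∈ F a <;> simp [S, h]
  | succ l ih =>
    have := ih a
    have := ih (a + 2 ^ l)
    simp only [S]
    constructor <;> linarith

theorem S_meas (F : ℕ → Set α) (hF : ∀ i, MeasurableSet (F i)) (l a : ℕ) : Measurable (S F l a) := by
  induction l generalizing a with
  | zero => exact measurable_one.indicator (hF a)
  | succ l ih => exact ((ih a).add (ih _)).div_const 2

theorem integ (ν : Measure α) [IsFiniteMeasure ν] (f : α → ℝ) (hf : Measurable f)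
    (C : ℝ) (h : ∀ x, |f x| ≤ C) : Integrable f ν :=
  Integrable.of_bound hf.aestronglyMeasurable C (Eventually.of_forall h)

theorem S_int (F : ℕ → Set α) (hF : ∀ i, MeasurableSet (F i)) (ν : Measure α) [IsFiniteMeasure ν]
    (l a : ℕ) : Integrable (S F l a) ν :=
  integ ν _ (S_meas F hF l a) 1 fun x => abs_le.2 ⟨by linarith [(S_mem F l a x).1], (S_mem F l a x).2⟩

theorem close_pair (F : ℕ → Set α) (hF : ∀ i, MeasurableSet (F i)) (lam : Measure α)
    [IsFiniteMeasure lam] (δ : ℝ) (L : ℕ) (hL : lam.real univ < L * (δ / 4)) :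
    ∃ l a, a + 2 ^ (l + 1) ≤ 2 ^ L ∧ ∫ x, (S F l (a + 2 ^ l) x - S F l a x) ^ 2 ∂lam < δ := by
  by_contra hc
  push Not at hc
  have sq : ∀ l a, Integrable (fun x => S F l a x ^ 2) lam := fun l a =>
    integ lam _ ((S_meas F hF l a).pow_const 2) 1 fun x => by
      have := S_mem F l a x
      rw [abs_of_nonneg (by positivity)]; nlinarith
  have key : ∀ l a, a + 2 ^ l ≤ 2 ^ L → ∫ x, S F l a x ^ 2 ∂lam ≤ lam.real univ - l * (δ / 4) := by
    intro l
    induction l with
    | zero =>
      intro a _
      have := integral_mono (sq 0 a) (integrable_const (1 : ℝ)) (fun x => by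
        have := S_mem F 0 a x
        simp only; nlinarith)
      simpa using this
    | succ l ih =>
      intro a ha
      have h1 := ih a (by rw [pow_succ] at ha; omega)
      have h2 := ih (a + 2 ^ l) (by rw [pow_succ] at ha; omega)
      have h3 := hc l a ha
      have h4 : Integrable (fun x => (S F l (a + 2 ^ l) x - S F l a x) ^ 2) lam :=
        integ lam _ (((S_meas F hF l _).sub (S_meas F hF l a)).pow_const 2) 1 fun x => by
          have := S_mem F l a x
          have := S_mem F l (a + 2 ^ l) x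
          rw [abs_of_nonneg (by positivity)]; nlinarith
      have h5 : ∫ x, S F (l + 1) a x ^ 2 ∂lam = (1 / 2) * ∫ x, S F l a x ^ 2 ∂lam +
          (1 / 2) * ∫ x, S F l (a + 2 ^ l) x ^ 2 ∂lam -
          (1 / 4) * ∫ x, (S F l (a + 2 ^ l) x - S F l a x) ^ 2 ∂lam := by
        rw [← integral_const_mul, ← integral_const_mul, ← integral_const_mul,
          ← integral_add ((sq _ _).const_mul _) ((sq _ _).const_mul _),
          ← integral_sub _ (h4.const_mul _)]
        · congr 1; ext x
          simp only [S]; ring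
        · exact ((sq _ _).const_mul _).add ((sq _ _).const_mul _)
      rw [h5]; push_cast; linarith
  have h1 := key L 0 (by simp)
  have h2 : 0 ≤ ∫ x, S F L 0 x ^ 2 ∂lam := integral_nonneg fun x => by positivity
  linarith

theorem S_val (F : ℕ → Set α) (hF : ∀ i, MeasurableSet (F i)) (P N : Measure α)
    [IsFiniteMeasure P] [IsFiniteMeasure N] (c : ℝ) (l a : ℕ)
    (h : ∀ i, a ≤ i → i < a + 2 ^ l → P.real (F i) - N.real (F i) = c) :
    ∫ x, S F l a x ∂P - ∫ x, S F l a x ∂N = c := by
  induction l generalizing a with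
  | zero =>
    simp only [S, integral_indicator_one (hF a)]
    exact h a le_rfl (by simp)
  | succ l ih =>
    have h1 := ih a (fun i h1 h2 => h i h1 (by rw [pow_succ]; omega))
    have h2 := ih (a + 2 ^ l) (fun i h1 h2 => h i (by omega) (by rw [pow_succ]; omega))
    simp only [S, integral_div, integral_add (S_int F hF _ _ _) (S_int F hF _ _ _)]
    linarith

/-- no vector measure contains arbitrarily long triangular arrays -/
theorem no_triangle (μ : VectorMeasure α E) (ev : ℕ → E →L[ℝ] ℝ) (hev : ∀ j, ‖ev j‖ ≤ 1)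
    (F : ℕ → ℕ → Set α) (hF : ∀ n k, MeasurableSet (F n k)) (J : ℕ → ℕ → ℕ)
    (h : ∀ n k i, k ≤ n → ev (J n i) (μ (F n k)) = if i < k then 1 else 0) : False := by
  let ν : ℕ → SignedMeasure α := fun j => μ.mapRange (ev j : E →+ ℝ) (ev j).continuous
  let T : ℕ → Measure α := fun j => (ν j).totalVariation
  have hT : ∀ j A, T j A ≤ μ.semivariation A := by
    intro j A
    simp only [T, SignedMeasure.totalVariation_eq_variation]
    have : ev j ∈ {ℓ : StrongDual ℝ E | ‖ℓ‖ₑ ≤ 1} := by
      simp only [mem_ofPred_eq]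
      rw [← ofReal_norm]
      exact ENNReal.ofReal_le_one.2 (hev j)
    exact le_biSup (fun ℓ : StrongDual ℝ E =>
      (μ.mapRange (ℓ : E →+ ℝ) ℓ.continuous).variation A) this
  have hTb : ∀ j A, T j A ≤ μ.bound := fun j A =>
    (hT j A).trans VectorMeasure.semivariation_apply_le_bound
  let lam : Measure α := Measure.sum fun j => (2⁻¹ : ℝ≥0∞) ^ j • T j
  have hfin : IsFiniteMeasure lam := by
    constructor
    rw [Measure.sum_apply _ MeasurableSet.univ]
    refine lt_of_le_of_lt (ENNReal.tsum_le_tsum (g := fun j => (2⁻¹ : ℝ≥0∞) ^ j * μ.bound)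
      fun j => ?_) ?_
    · simp only [Measure.smul_apply, smul_eq_mul]
      gcongr
      exact hTb j _
    · rw [ENNReal.tsum_mul_right, ENNReal.tsum_geometric]
      exact ENNReal.mul_lt_top (by simp) ENNReal.coe_lt_top
  have hl : ∀ j A, lam A = 0 → T j A = 0 := by
    intro j A hA
    have := (Measure.le_sum (fun j => (2⁻¹ : ℝ≥0∞) ^ j • T j) j) A
    rw [hA] at this
    simpa using this
  obtain ⟨δ, hδ, hU⟩ := uac μ T lam hT hl (1 / 4) (by norm_num)
  set C : ℝ := (μ.bound : ℝ) with hC
  have hC0 : 0 ≤ C := μ.bound.2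
  set η : ℝ := 1 / (4 * (C + 1)) with hη
  have hη0 : 0 < η := by positivity
  obtain ⟨L, hL⟩ := exists_nat_gt (lam.real univ / (δ * η ^ 2 / 4))
  obtain ⟨l, a, hla, hI⟩ := close_pair (F (2 ^ L)) (hF _) lam (δ * η ^ 2) L
    (by rwa [div_lt_iff₀ (by positivity)] at hL)
  set b := a + 2 ^ l with hb
  have hb1 : 1 ≤ 2 ^ l := Nat.one_le_two_pow
  set j := J (2 ^ L) (b - 1)
  set P := (ν j).toJordanDecomposition.posPart
  set N := (ν j).toJordanDecomposition.negPart
  have hv : ∀ k, k ≤ 2 ^ L → P.real (F (2 ^ L) k) - N.real (F (2 ^ L) k) =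
      if b - 1 < k then 1 else 0 := by
    intro k hk
    rw [← SignedMeasure.apply_eq_posPart_real_sub_negPart_real _ (hF _ _), ← h _ _ _ hk]
    simp [ν, j]
  have v0 := S_val (F (2 ^ L)) (hF _) P N 0 l a (fun i h1 h2 => by
    rw [hv i (by rw [pow_succ] at hla; omega), if_neg (by omega)])
  have v1 := S_val (F (2 ^ L)) (hF _) P N 1 l b (fun i h1 h2 => by
    rw [hv i (by rw [pow_succ] at hla; omega), if_pos (by omega)])
  set g : α → ℝ := fun x => S (F (2 ^ L)) l b x - S (F (2 ^ L)) l a x with hg
  have gm : Measurable g := (S_meas _ (hF _) _ _).sub (S_meas _ (hF _) _ _)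
  have g1 : ∀ x, |g x| ≤ 1 := fun x => by
    have := S_mem (F (2 ^ L)) l a x
    have := S_mem (F (2 ^ L)) l b x
    rw [abs_le]; constructor <;> simp only [hg] <;> linarith
  set A := {x | η < |g x|} with hA
  have Am : MeasurableSet A := measurableSet_lt measurable_const gm.abs
  have c1 : η ^ 2 * lam.real A ≤ ∫ x, g x ^ 2 ∂lam := by
    rw [← integral_indicator_one Am, ← integral_const_mul]
    refine integral_mono (((integrable_const (1 : ℝ)).indicator Am).const_mul _)
      (integ lam _ (gm.pow_const 2) 1 fun x => by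
        rw [abs_pow]; have := g1 x; nlinarith [abs_nonneg (g x)]) fun x => ?_
    by_cases hx : x ∈ A
    · simp only [indicator_of_mem hx, Pi.one_apply, mul_one]
      rw [← sq_abs (g x)]
      have : η < |g x| := hx
      nlinarith
    · simp only [indicator_of_notMem hx, mul_zero]; positivity
  have c2 : lam A < ENNReal.ofReal δ := by
    rw [← ofReal_measureReal (μ := lam) (s := A)]
    refine (ENNReal.ofReal_lt_ofReal_iff hδ).2 ?_
    have : η ^ 2 * lam.real A < η ^ 2 * δ := by linarith
    exact lt_of_mul_lt_mul_left this (by positivity)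
  have c3 : (T j).real A ≤ 1 / 4 := ENNReal.toReal_le_of_le_ofReal (by norm_num) (hU A Am c2 j)
  have c4 : (T j).real univ ≤ C := by
    have := ENNReal.toReal_mono ENNReal.coe_ne_top (hTb j univ)
    rw [ENNReal.coe_toReal] at this
    exact this
  have c5 : ∀ (Q : Measure α) [IsFiniteMeasure Q], |∫ x, g x ∂Q| ≤ η * Q.real univ + Q.real A := by
    intro Q _
    have e1 : ∫ x, (η + A.indicator (1 : α → ℝ) x) ∂Q = η * Q.real univ + Q.real A := by
      rw [integral_add (integrable_const _), integral_indicator_one Am]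
      · simp [mul_comm]
      · exact (integrable_const (1 : ℝ)).indicator Am
    rw [← e1]
    refine abs_integral_le_integral_abs.trans (integral_mono (integ Q _ gm 1 g1).abs
      ((integrable_const _).add ((integrable_const (1 : ℝ)).indicator Am)) fun x => ?_)
    by_cases hx : x ∈ A
    · simp only [indicator_of_mem hx, Pi.one_apply]; linarith [g1 x]
    · simp only [indicator_of_notMem hx, add_zero]; exact not_lt.1 hx
  have c6 : ∀ B, (T j).real B = P.real B + N.real B := fun B => by
    simp only [T, SignedMeasure.totalVariation]; rw [measureReal_add_apply]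
  have c7 : ∀ (Q : Measure α) [IsFiniteMeasure Q], ∫ x, g x ∂Q =
      ∫ x, S (F (2 ^ L)) l b x ∂Q - ∫ x, S (F (2 ^ L)) l a x ∂Q := fun Q _ =>
    integral_sub (S_int _ (hF _) _ _ _) (S_int _ (hF _) _ _ _)
  have p1 := (abs_le.1 (c5 P)).2
  have p2 := (abs_le.1 (c5 N)).1
  rw [c7] at p1 p2
  rw [c6] at c3 c4
  have c8 : η * C ≤ 1 / 4 := by
    rw [hη, div_mul_eq_mul_div, div_le_div_iff₀ (by positivity) (by norm_num)]; linarith
  nlinarith [mul_le_mul_of_nonneg_left c4 hη0.le]

end Gen

abbrev c0 : Type := ZeroAtInftyContinuousMap ℕ ℝ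

/-- the vectors of the weakly null family -/
noncomputable def xv (n k : ℕ) : c0 where
  toFun j := if (Nat.unpair j).1 = n ∧ (Nat.unpair j).2 < k then 1 else 0
  continuous_toFun := continuous_of_discreteTopology
  zero_at_infty' := by
    rw [cocompact_eq_cofinite]
    refine tendsto_const_nhds.congr' ?_
    refine Filter.eventually_cofinite.2 (((Set.finite_lt_nat k).image (Nat.pair n)).subset ?_)
    intro j hj
    simp only [mem_ofPred_eq] at hj
    by_cases h : (Nat.unpair j).1 = n ∧ (Nat.unpair j).2 < k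
    · exact ⟨(Nat.unpair j).2, h.2, by rw [← h.1, Nat.pair_unpair]⟩
    · exact absurd (by simp [h]) hj

theorem xv_apply (n k j : ℕ) :
    xv n k j = if (Nat.unpair j).1 = n ∧ (Nat.unpair j).2 < k then 1 else 0 := rfl

theorem abs_le_norm (f : c0) (j : ℕ) : |f j| ≤ ‖f‖ := f.toBCF.norm_coe_le_norm j

noncomputable def evc (j : ℕ) : c0 →L[ℝ] ℝ :=
  LinearMap.mkContinuous
    { toFun := fun f => f j, map_add' := fun _ _ => rfl, map_smul' := fun _ _ => rfl } 1
    (fun f => by simpa using abs_le_norm f j)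

theorem evc_norm (j : ℕ) : ‖evc j‖ ≤ 1 := LinearMap.mkContinuous_norm_le _ zero_le_one _

noncomputable def yv (p : ℕ × ℕ) : c0 := if p.2 ≤ p.1 then xv p.1 p.2 else 0

theorem weak_null (φ : c0 →L[ℝ] ℝ) : Tendsto (fun p => φ (yv p)) cofinite (𝓝 0) := by
  classical
  rw [Metric.tendsto_nhds]
  intro ε hε
  rw [Filter.eventually_cofinite]
  have hB : {n | ∃ k, ε ≤ |φ (xv n k)|}.Finite := by
    by_contra hinf
    obtain ⟨m, hm⟩ := exists_nat_gt (‖φ‖ / ε)
    obtain ⟨s, hs, hc⟩ := Set.Infinite.exists_subset_card_eq hinf m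
    choose! k hk using fun n (hn : n ∈ s) => hs hn
    let z : c0 := ∑ n ∈ s, (SignType.sign (φ (xv n (k n))) : ℝ) • xv n (k n)
    have hz : ‖z‖ ≤ 1 := by
      refine (BoundedContinuousFunction.norm_le (f := z.toBCF) zero_le_one).2 fun j => ?_
      change |evc j z| ≤ 1
      simp only [z, map_sum, map_smul, smul_eq_mul]
      by_cases hj : (Nat.unpair j).1 ∈ s
      · rw [Finset.sum_eq_single_of_mem (Nat.unpair j).1 hj]
        · change |_ * xv _ _ j| ≤ 1
          rw [abs_mul, xv_apply]
          have : |(SignType.sign (φ (xv (Nat.unpair j).1 (k (Nat.unpair j).1))) : ℝ)| ≤ 1 := by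
            cases SignType.sign (φ (xv (Nat.unpair j).1 (k (Nat.unpair j).1))) <;> simp
          split_ifs <;> simp [this]
        · intro b _ hb
          change _ * xv _ _ j = 0
          rw [xv_apply, if_neg (fun h => hb h.1.symm), mul_zero]
      · rw [Finset.sum_eq_zero]
        · simp
        · intro b hb
          change _ * xv _ _ j = 0
          rw [xv_apply, if_neg (fun h => hj (by rw [And.left h]; exact hb)), mul_zero]
    have h1 : (m : ℝ) * ε ≤ φ z := by
      simp only [z, map_sum, map_smul, smul_eq_mul, sign_mul_self]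
      have := Finset.card_nsmul_le_sum s (fun n => |φ (xv n (k n))|) ε hk
      rwa [hc, nsmul_eq_mul] at this
    have h2 := φ.le_opNorm z
    have h3 := le_abs_self (φ z)
    rw [div_lt_iff₀ hε] at hm
    rw [Real.norm_eq_abs] at h2
    nlinarith [norm_nonneg φ]
  refine (hB.biUnion (t := fun n => (fun k => (n, k)) '' {k | k ≤ n})
    (fun n _ => (Set.finite_le_nat n).image _)).subset ?_
  rintro ⟨n, k⟩ hp
  simp only [mem_ofPred_eq, dist_zero_right, not_lt, yv] at hp
  by_cases h : k ≤ n
  · rw [if_pos h] at hp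
    exact mem_biUnion (show n ∈ {n | ∃ k, ε ≤ |φ (xv n k)|} from ⟨k, hp⟩) ⟨k, h, rfl⟩
  · rw [if_neg h] at hp
    simp at hp; linarith

theorem compact_K : IsCompact ((toWeakSpace ℝ c0) '' (insert 0 (range yv))) := by
  have : Tendsto (fun p => toWeakSpace ℝ c0 (yv p)) cofinite (𝓝 (toWeakSpace ℝ c0 0)) := by
    have hind : IsInducing (fun (x : WeakBilin (topDualPairing ℝ c0).flip) (y : c0 →L[ℝ] ℝ) =>
        (topDualPairing ℝ c0).flip x y) := ⟨rfl⟩
    refine hind.tendsto_nhds_iff.2 (tendsto_pi_nhds.2 fun φ => ?_)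
    have := weak_null φ
    rw [← map_zero φ] at this
    exact this
  have h := this.isCompact_insert_range_of_cofinite
  rwa [image_insert_eq, ← range_comp]

theorem main : ¬ (∀ K : Set c0, IsCompact ((toWeakSpace ℝ c0) '' K) →
      ∃ (α : Type) (_ : MeasurableSpace α) (μ : VectorMeasure α c0),
        K ⊆ Set.range (fun s : Set α => μ s)) := by
  classical
  intro h
  obtain ⟨α, _, μ, hμ⟩ := h _ compact_K
  choose G hG using fun p : ℕ × ℕ => hμ (mem_insert_of_mem _ (mem_range_self p))
  refine no_triangle μ evc evc_norm (fun n k => if MeasurableSet (G (n, k)) then G (n, k) else ∅)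
    (fun n k => ?_) Nat.pair (fun n k i hk => ?_)
  · split_ifs with h
    exacts [h, MeasurableSet.empty]
  · have : μ (if MeasurableSet (G (n, k)) then G (n, k) else ∅) = μ (G (n, k)) := by
      split_ifs with h
      · rfl
      · rw [VectorMeasure.empty, μ.not_measurable h]
    have h2 := hG (n, k)
    simp only [yv, if_pos hk] at h2
    simp only [this, h2]
    change xv n k (Nat.pair n i) = _
    simp [xv_apply]

end Pool.Agent.H5.VecRange
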