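import Pool.Agent.H5.Renorm
import Pool.Agent.H5.Simons

set_option autoImplicit false

open Filter Topology

namespace Pool.Agent.H5.Wcr

abbrev I : Type := ℕ × ℕ
abbrev c0 : Type := ZeroAtInftyContinuousMap I ℝ
abbrev V : Type := ℝ × c0

lemma abs_le_norm (x : c0) (e : I) : |x e| ≤ ‖x‖ :=
  BoundedContinuousFunction.norm_coe_le_norm x.toBCF e

lemma norm_le_of (x : c0) {C : ℝ} (hC : 0 ≤ C) (h : ∀ e, |x e| ≤ C) : ‖x‖ ≤ C :=
  (BoundedContinuousFunction.norm_le (f := x.toBCF) hC).2 h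

lemma fin_large (x : c0) {ε : ℝ} (hε : 0 < ε) : {e | ε ≤ |x e|}.Finite := by
  have h := x.zero_at_infty'
  rw [cocompact_eq_cofinite] at h
  have h2 := (Metric.tendsto_nhds.1 h) ε hε
  rw [eventually_cofinite] at h2
  refine h2.subset fun e he => ?_
  simp only [Set.mem_ofPred_eq, Real.dist_eq, sub_zero, not_lt] at he ⊢
  exact he

/-- bounded coordinatewise Cauchy sequences of `c0` are weakly Cauchy -/
lemma weak_cauchy (x : ℕ → c0) (hb : ∀ n, ‖x n‖ ≤ 1) (hc : ∀ e, CauchySeq fun n => x n e)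
    (g : c0 →L[ℝ] ℝ) : CauchySeq fun n => g (x n) := by
  rw [Metric.cauchySeq_iff]
  intro ε hε
  have hg : 0 < ‖g‖ + 1 := by positivity
  obtain ⟨η, hη, hηe⟩ : ∃ η : ℝ, 0 < η ∧ 2 * (η * (‖g‖ + 1)) < ε :=
    ⟨ε / (4 * (‖g‖ + 1)), by positivity, by
      have : 2 * (ε / (4 * (‖g‖ + 1)) * (‖g‖ + 1)) = ε / 2 := by field_simp; ring
      rw [this]; linarith⟩
  obtain ⟨x0, hx0, hgx0⟩ : ∃ x0 : c0, ‖x0‖ ≤ 1 ∧ ‖g‖ - η < g x0 := by
    obtain ⟨y, hy, hgy⟩ := g.exists_lt_apply_of_lt_opNorm (r := ‖g‖ - η) (by linarith)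
    rcases abs_cases (g y) with h | h
    · exact ⟨y, hy.le, by rw [Real.norm_eq_abs, h.1] at hgy; exact hgy⟩
    · exact ⟨-y, by rw [norm_neg]; exact hy.le, by
        rw [Real.norm_eq_abs, h.1] at hgy; rw [map_neg]; exact hgy⟩
  have key : ∀ z : c0, ‖z‖ ≤ 1 → (∀ e, η ≤ |x0 e| → |z e| ≤ η) → g z ≤ η * (‖g‖ + 1) := by
    intro z hz hz'
    have h1 : ‖x0 + z‖ ≤ 1 + η := by
      refine norm_le_of _ (by positivity) fun e => ?_
      have h2 : (x0 + z) e = x0 e + z e := rfl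
      rw [h2]
      have h3 := abs_add_le (x0 e) (z e)
      by_cases h4 : η ≤ |x0 e|
      · linarith [hz' e h4, abs_le_norm x0 e]
      · linarith [not_le.1 h4, abs_le_norm z e]
    have h2 := g.le_opNorm (x0 + z)
    rw [map_add, Real.norm_eq_abs] at h2
    have h3 : ‖g‖ * ‖x0 + z‖ ≤ ‖g‖ * (1 + η) := by gcongr
    nlinarith [le_abs_self (g x0 + g z)]
  have hev : ∀ᶠ N in atTop, ∀ e ∈ {e | η ≤ |x0 e|}, ∀ m ≥ N, ∀ n ≥ N, |x m e - x n e| < η := by
    rw [eventually_all_finite (fin_large x0 hη)]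
    intro e _
    obtain ⟨N, hN⟩ := Metric.cauchySeq_iff.1 (hc e) η hη
    filter_upwards [eventually_ge_atTop N] with M hM m hm n hn
    exact hN m (hM.trans hm) n (hM.trans hn)
  obtain ⟨N, hN⟩ := hev.exists
  have key2 : ∀ m ≥ N, ∀ n ≥ N, g (x m) - g (x n) ≤ 2 * (η * (‖g‖ + 1)) := by
    intro m hm n hn
    have h1 := key ((1 / 2 : ℝ) • (x m - x n)) (by
      rw [norm_smul]
      have := norm_sub_le (x m) (x n)
      have h2 : ‖(1 / 2 : ℝ)‖ = 1 / 2 := by norm_num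
      rw [h2]
      linarith [hb m, hb n]) (fun e he => by
      have h2 : ((1 / 2 : ℝ) • (x m - x n)) e = 1 / 2 * (x m e - x n e) := rfl
      have h3 := hN e he m hm n hn
      rw [h2, abs_mul]
      have h4 : |(1 / 2 : ℝ)| = 1 / 2 := by norm_num
      rw [h4]
      linarith [abs_nonneg (x m e - x n e)])
    rw [map_smul, map_sub, smul_eq_mul] at h1
    linarith
  refine ⟨N, fun m hm n hn => ?_⟩
  rw [Real.dist_eq, abs_lt]
  constructor <;> linarith [key2 m hm n hn, key2 n hn m hm]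

noncomputable def w (e : I) : ℝ := 1 / ((min e.1 e.2 : ℕ) + 1)

lemma w_pos (e : I) : 0 < w e := by unfold w; positivity

lemma w_le (e : I) : w e ≤ 1 := by
  unfold w
  rw [div_le_one (by positivity)]
  linarith [Nat.cast_nonneg (α := ℝ) (min e.1 e.2)]

abbrev A : Type := I ⊕ {p : I × I // max p.1.1 p.1.2 < min p.2.1 p.2.2}

noncomputable def q : A → V → ℝ
  | .inl e, v => v.2 e ^ 2 + w e * v.1 ^ 2
  | .inr p, v => 3 / 4 * (v.2 p.1.1 ^ 2 + v.2 p.1.2 ^ 2) + 1 / 4 * v.1 ^ 2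

lemma sq2 (v : V) (e : I) : v.2 e ^ 2 ≤ ‖v‖ ^ 2 :=
  sq_le_sq' (by linarith [neg_abs_le (v.2 e), abs_le_norm v.2 e, norm_snd_le v])
    (by linarith [le_abs_self (v.2 e), abs_le_norm v.2 e, norm_snd_le v])

lemma sq1 (v : V) : v.1 ^ 2 ≤ ‖v‖ ^ 2 := by
  have h := norm_fst_le v
  rw [Real.norm_eq_abs] at h
  exact sq_le_sq' (by linarith [neg_abs_le v.1]) (by linarith [le_abs_self v.1])

lemma q_le (a : A) (v : V) : q a v ≤ 2 * ‖v‖ ^ 2 := by
  rcases a with e | p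
  · have h1 : w e * v.1 ^ 2 ≤ 1 * v.1 ^ 2 := by gcongr; exact w_le e
    simp only [q]; linarith [sq2 v e, sq1 v]
  · simp only [q]; linarith [sq2 v p.1.1, sq2 v p.1.2, sq1 v, sq_nonneg ‖v‖]

lemma q_para (a : A) (u v : V) : q a (u + v) + q a (u - v) = 2 * q a u + 2 * q a v := by
  rcases a with e | p <;> simp [q] <;> ring

lemma q_nonneg (a : A) (v : V) : 0 ≤ q a v := by
  rcases a with e | p
  · have := w_pos e
    simp only [q]; positivity
  · simp only [q]; positivity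

lemma sq_add_le (x y : ℝ) {t : ℝ} (ht : 0 < t) :
    (x + y) ^ 2 ≤ (1 + t) * x ^ 2 + (1 + t⁻¹) * y ^ 2 := by
  have h1 : (1 + t) * x ^ 2 + (1 + t⁻¹) * y ^ 2 - (x + y) ^ 2 = t⁻¹ * (t * x - y) ^ 2 := by
    field_simp; ring
  have h2 : 0 ≤ t⁻¹ * (t * x - y) ^ 2 := by positivity
  linarith

lemma q_add (a : A) (u v : V) {t : ℝ} (ht : 0 < t) :
    q a (u + v) ≤ (1 + t) * q a u + (1 + t⁻¹) * q a v := by
  rcases a with e | p
  · have h1 := sq_add_le (u.2 e) (v.2 e) ht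
    have h2 := mul_le_mul_of_nonneg_left (sq_add_le u.1 v.1 ht) (w_pos e).le
    simp only [q, Prod.snd_add, Prod.fst_add, ZeroAtInftyContinuousMap.add_apply]
    nlinarith
  · have h1 := sq_add_le (u.2 p.1.1) (v.2 p.1.1) ht
    have h2 := sq_add_le (u.2 p.1.2) (v.2 p.1.2) ht
    have h3 := sq_add_le u.1 v.1 ht
    simp only [q, Prod.snd_add, Prod.fst_add, ZeroAtInftyContinuousMap.add_apply]
    nlinarith

lemma q_smul (a : A) (c : ℝ) (v : V) : q a (c • v) = c ^ 2 * q a v := by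
  rcases a with e | p <;> simp [q] <;> ring

noncomputable def Q (v : V) : ℝ := ⨆ a, q a v

lemma bdd (v : V) : BddAbove (Set.range fun a => q a v) :=
  ⟨2 * ‖v‖ ^ 2, by rintro _ ⟨a, rfl⟩; exact q_le a v⟩

lemma le_Q (a : A) (v : V) : q a v ≤ Q v := le_ciSup (bdd v) a

lemma Q_le {v : V} {M : ℝ} (h : ∀ a, q a v ≤ M) : Q v ≤ M := ciSup_le h

lemma Q_smul (c : ℝ) (v : V) : Q (c • v) = c ^ 2 * Q v := by
  unfold Q
  simp_rw [q_smul]
  exact (Real.mul_iSup_of_nonneg (sq_nonneg c) _).symm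

lemma sq2Q (v : V) (e : I) : v.2 e ^ 2 ≤ Q v := by
  have h := le_Q (.inl e) v
  have h2 := mul_nonneg (w_pos e).le (sq_nonneg v.1)
  simp only [q] at h
  linarith

lemma sq1Q (v : V) : v.1 ^ 2 ≤ Q v := by
  have h := le_Q (.inl (0, 0)) v
  have h2 : w (0, 0) = 1 := by simp [w]
  simp only [q, h2] at h
  linarith [sq_nonneg (v.2 (0, 0))]

lemma norm_le_Q (v : V) : ‖v‖ ^ 2 ≤ Q v := by
  have h0 : 0 ≤ Q v := (sq_nonneg _).trans (sq1Q v)
  have h1 : ‖v‖ ≤ √(Q v) := by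
    rw [Prod.norm_def]
    exact max_le (Real.abs_le_sqrt (sq1Q v))
      (norm_le_of _ (Real.sqrt_nonneg _) fun e => Real.abs_le_sqrt (sq2Q v e))
  calc ‖v‖ ^ 2 ≤ √(Q v) ^ 2 := by gcongr
    _ = Q v := Real.sq_sqrt h0

noncomputable def lam : I → ℝ := (posSumOfEncodable (show (0 : ℝ) < 1 / 10 by norm_num) I).1

lemma lam_pos (e : I) : 0 < lam e := (posSumOfEncodable _ I).2.1 e

lemma lam_sum : Summable lam := by
  obtain ⟨c, hc, -⟩ := (posSumOfEncodable (show (0 : ℝ) < 1 / 10 by norm_num) I).2.2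
  exact hc.summable

lemma lam_tsum : ∑' e, lam e ≤ 1 / 10 := by
  obtain ⟨c, hc, h⟩ := (posSumOfEncodable (show (0 : ℝ) < 1 / 10 by norm_num) I).2.2
  exact hc.tsum_eq.trans_le h

noncomputable def H (v : V) : ℝ := ∑' e, lam e * v.2 e ^ 2

lemma H_sum (v : V) : Summable fun e => lam e * v.2 e ^ 2 :=
  Summable.of_nonneg_of_le (fun e => mul_nonneg (lam_pos e).le (sq_nonneg _))
    (fun e => mul_le_mul_of_nonneg_left (sq2Q v e) (lam_pos e).le) (lam_sum.mul_right (Q v))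

lemma H_le (v : V) : H v ≤ 1 / 10 * Q v := by
  have h0 : 0 ≤ Q v := (sq_nonneg _).trans (sq1Q v)
  calc H v ≤ ∑' e, lam e * Q v := (H_sum v).tsum_le_tsum
        (fun e => mul_le_mul_of_nonneg_left (sq2Q v e) (lam_pos e).le) (lam_sum.mul_right _)
    _ = (∑' e, lam e) * Q v := tsum_mul_right
    _ ≤ 1 / 10 * Q v := by gcongr; exact lam_tsum

lemma le_H (v : V) (e : I) : lam e * v.2 e ^ 2 ≤ H v :=
  (H_sum v).le_tsum e fun e' _ => mul_nonneg (lam_pos e').le (sq_nonneg _)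

lemma H_nonneg (v : V) : 0 ≤ H v :=
  tsum_nonneg fun e => mul_nonneg (lam_pos e).le (sq_nonneg _)

lemma H_para (u v : V) : H (u + v) + H (u - v) = 2 * H u + 2 * H v := by
  unfold H
  rw [← (H_sum _).tsum_add (H_sum _), ← tsum_mul_left, ← tsum_mul_left,
    ← ((H_sum u).mul_left 2).tsum_add ((H_sum v).mul_left 2)]
  refine tsum_congr fun e => ?_
  simp only [Prod.snd_add, Prod.snd_sub, ZeroAtInftyContinuousMap.add_apply,
    ZeroAtInftyContinuousMap.sub_apply]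
  ring

lemma H_add (u v : V) {t : ℝ} (ht : 0 < t) : H (u + v) ≤ (1 + t) * H u + (1 + t⁻¹) * H v := by
  unfold H
  rw [← tsum_mul_left, ← tsum_mul_left,
    ← ((H_sum u).mul_left _).tsum_add ((H_sum v).mul_left _)]
  refine (H_sum _).tsum_le_tsum (fun e => ?_) (((H_sum u).mul_left _).add ((H_sum v).mul_left _))
  have h1 := mul_le_mul_of_nonneg_left (sq_add_le (u.2 e) (v.2 e) ht) (lam_pos e).le
  simp only [Prod.snd_add, ZeroAtInftyContinuousMap.add_apply]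
  nlinarith

lemma H_smul (c : ℝ) (v : V) : H (c • v) = c ^ 2 * H v := by
  unfold H
  rw [← tsum_mul_left]
  refine tsum_congr fun e => ?_
  simp only [Prod.smul_snd, ZeroAtInftyContinuousMap.smul_apply, smul_eq_mul]
  ring

noncomputable def P (v : V) : ℝ := H v + Q v

theorem space : ∃ (X : Type) (_ : NormedAddCommGroup X) (_ : NormedSpace ℝ X)
    (_ : CompleteSpace X) (e : V ≃L[ℝ] X), ∀ v, ‖e v‖ ^ 2 = P v := by
  refine Renorm.renorm_sq V P (a := 1) (b := 2) one_pos (by norm_num) (fun x y t ht => ?_)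
    (fun c x => ?_) (fun x => ?_) (fun x => ?_)
  · have h1 : Q (x + y) ≤ (1 + t) * Q x + (1 + t⁻¹) * Q y := Q_le fun a =>
      (q_add a x y ht).trans (by gcongr <;> exact le_Q a _)
    have h2 := H_add x y ht
    unfold P
    linarith
  · unfold P
    rw [H_smul, Q_smul]; ring
  · unfold P
    rw [one_mul]
    linarith [norm_le_Q x, H_nonneg x]
  · have h1 : Q x ≤ 2 * ‖x‖ ^ 2 := Q_le fun a => q_le a x
    unfold P
    nlinarith [H_le x, sq_nonneg ‖x‖]

end Pool.Agent.H5.Wcr
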